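import Mathlib

/-!
One-parameter limits in Banach algebras: if `(x i - 1) / ε i → C` and `m i * ε i → t` then
`x i ^ m i → exp (t C)`.
-/

set_option autoImplicit false
set_option linter.unusedSectionVars false

open Filter Topology

namespace Pool.Agent.Lib.MP_aa9b81_an

section Banach

variable {A : Type*} [NormedRing A] [NormedAlgebra ℝ A] [NormedAlgebra ℚ A] [CompleteSpace A]
  [NormOneClass A]

lemma norm_pow_sub_pow_le {x y : A} {M : ℝ} (hM : 1 ≤ M) (hx : ‖x‖ ≤ M) (hy : ‖y‖ ≤ M) (n : ℕ) :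
    ‖x ^ n - y ^ n‖ ≤ n * ‖x - y‖ * M ^ n := by
  induction n with
  | zero => simp
  | succ n ih =>
    have h1 : x ^ (n + 1) - y ^ (n + 1) = x ^ n * (x - y) + (x ^ n - y ^ n) * y := by
      rw [pow_succ, pow_succ]; noncomm_ring
    have hM0 : 0 ≤ M := zero_le_one.trans hM
    have h2 : ‖x ^ n‖ ≤ M ^ n := (norm_pow_le x n).trans (pow_le_pow_left₀ (norm_nonneg _) hx n)
    calc ‖x ^ (n + 1) - y ^ (n + 1)‖ ≤ ‖x ^ n * (x - y)‖ + ‖(x ^ n - y ^ n) * y‖ := by
          rw [h1]; exact norm_add_le _ _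
      _ ≤ ‖x ^ n‖ * ‖x - y‖ + ‖x ^ n - y ^ n‖ * ‖y‖ := add_le_add (norm_mul_le _ _) (norm_mul_le _ _)
      _ ≤ M ^ n * ‖x - y‖ + (n * ‖x - y‖ * M ^ n) * M := by gcongr
      _ ≤ M ^ (n + 1) * ‖x - y‖ + (n * ‖x - y‖ * M ^ n) * M := by
          gcongr
          · exact Nat.le_succ n
      _ = (↑(n + 1) : ℝ) * ‖x - y‖ * M ^ (n + 1) := by push_cast; ring

theorem tendsto_pow_exp {ι : Type*} {l : Filter ι} (x : ι → A) (ε : ι → ℝ) (C : A) (m : ι → ℕ)
    (t : ℝ) (hε : Tendsto ε l (𝓝 0)) (hε0 : ∀ᶠ i in l, 0 < ε i)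
    (hx : Tendsto (fun i => (ε i)⁻¹ • (x i - 1)) l (𝓝 C))
    (hm : Tendsto (fun i => (m i : ℝ) * ε i) l (𝓝 t)) :
    Tendsto (fun i => x i ^ m i) l (𝓝 (NormedSpace.exp (t • C))) := by
  set y : ι → A := fun i => NormedSpace.exp (ε i • C) with hy
  have hyd : Tendsto (fun i => (ε i)⁻¹ • (y i - 1)) l (𝓝 C) := by
    have h1 : HasDerivAt (fun u : ℝ => NormedSpace.exp (u • C)) (NormedSpace.exp ((0 : ℝ) • C) * C) 0 :=
      hasDerivAt_exp_smul_const C (0 : ℝ)
    rw [hasDerivAt_iff_tendsto_slope] at h1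
    have h2 : Tendsto ε l (𝓝[≠] 0) := by
      refine tendsto_nhdsWithin_iff.2 ⟨hε, ?_⟩
      filter_upwards [hε0] with i hi using hi.ne'
    have h3 := h1.comp h2
    simp only [zero_smul, NormedSpace.exp_zero, one_mul] at h3
    refine h3.congr fun i => ?_
    simp [slope, hy, NormedSpace.exp_zero]
  set R : ℝ := ‖C‖ + 1 with hR
  have hR0 : 0 < R := by positivity
  have hbound : ∀ z : ι → A, Tendsto (fun i => (ε i)⁻¹ • (z i - 1)) l (𝓝 C) →
      ∀ᶠ i in l, ‖z i‖ ≤ Real.exp (R * ε i) := by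
    intro z hz
    have h1 : ∀ᶠ i in l, ‖(ε i)⁻¹ • (z i - 1)‖ < R :=
      hz.norm.eventually_lt_const (by rw [hR]; linarith)
    filter_upwards [h1, hε0] with i hi hi0
    rw [norm_smul, norm_inv, Real.norm_of_nonneg hi0.le, inv_mul_lt_iff₀ hi0] at hi
    have h2 : ‖z i‖ ≤ 1 + ‖z i - 1‖ := by
      calc ‖z i‖ = ‖1 + (z i - 1)‖ := by congr 1; abel
        _ ≤ ‖(1 : A)‖ + ‖z i - 1‖ := norm_add_le _ _
        _ = 1 + ‖z i - 1‖ := by rw [norm_one]
    have h3 := Real.add_one_le_exp (R * ε i)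
    linarith [mul_comm (ε i) R]
  have hdiff : Tendsto (fun i => ‖(ε i)⁻¹ • (x i - y i)‖) l (𝓝 0) := by
    have h1 : Tendsto (fun i => (ε i)⁻¹ • (x i - 1) - (ε i)⁻¹ • (y i - 1)) l (𝓝 (C - C)) :=
      hx.sub hyd
    rw [sub_self] at h1
    have h2 := h1.norm
    rw [norm_zero] at h2
    refine h2.congr fun i => ?_
    rw [← smul_sub]
    congr 2
    abel
  have hxy : Tendsto (fun i => x i ^ m i - y i ^ m i) l (𝓝 0) := by
    refine squeeze_zero_norm' (a := fun i => ((m i : ℝ) * ε i) * ‖(ε i)⁻¹ • (x i - y i)‖ *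
      Real.exp (R * ((m i : ℝ) * ε i))) ?_ ?_
    · filter_upwards [hbound x hx, hbound y hyd, hε0] with i h1 h2 h3
      refine (norm_pow_sub_pow_le (M := Real.exp (R * ε i)) ?_ h1 h2 (m i)).trans (le_of_eq ?_)
      · exact Real.one_le_exp (by positivity)
      · rw [norm_smul, norm_inv, Real.norm_of_nonneg h3.le, ← Real.exp_nat_mul]
        have : (m i : ℝ) * (R * ε i) = R * (m i * ε i) := by ring
        rw [this]
        field_simp
    · have h1 := (hm.mul hdiff).mul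
        ((Real.continuous_exp.tendsto _).comp (hm.const_mul R))
      simpa using h1
  have hyp : Tendsto (fun i => y i ^ m i) l (𝓝 (NormedSpace.exp (t • C))) := by
    have h1 : (fun i => y i ^ m i) = fun i => NormedSpace.exp (((m i : ℝ) * ε i) • C) := by
      funext i
      rw [hy]
      simp only
      rw [← NormedSpace.exp_nsmul, ← Nat.cast_smul_eq_nsmul ℝ, smul_smul]
    rw [h1]
    exact (NormedSpace.exp_continuous.tendsto _).comp (hm.smul_const C)
  have := hxy.add hyp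
  simpa using this

end Banach

end Pool.Agent.Lib.MP_aa9b81_an
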