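import Mathlib
import Pool.Agent.Lib.MP_aa9b81_an.Expo

/-!
The Lie algebra of a closed subgroup of `SL(3, ℝ)`.
-/

set_option autoImplicit false
set_option linter.unusedSectionVars false

open Filter Topology Matrix

namespace Pool.Agent.Lib.MP_aa9b81_an

/-- Real `3 × 3` matrices. -/
abbrev M3 : Type := Matrix (Fin 3) (Fin 3) ℝ

/-- The group `SL(3, ℝ)` with its usual topology. -/
abbrev SL3 : Type := Matrix.SpecialLinearGroup (Fin 3) ℝ

/-- The matrices `A` all of whose exponentials `exp (t A)`, `t ∈ ℝ`, lie in `H`. -/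
def lieSet (H : Set SL3) : Set M3 := {A | ∀ t : ℝ, ∃ g ∈ H, (g : M3) = NormedSpace.exp (t • A)}

lemma exists_mem_of_tendsto {ι : Type*} {l : Filter ι} [l.NeBot] {H : Set SL3} (hH : IsClosed H)
    {g : ι → SL3} (hg : ∀ᶠ i in l, g i ∈ H) {B : M3} (hB : Tendsto (fun i => (g i : M3)) l (𝓝 B)) :
    ∃ h ∈ H, (h : M3) = B := by
  have h1 : IsClosed ((fun g : SL3 => (g : M3)) '' H) :=
    (Matrix.SpecialLinearGroup.isClosedEmbedding_val).isClosedMap H hH
  have h2 : B ∈ (fun g : SL3 => (g : M3)) '' H :=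
    h1.mem_of_tendsto hB (hg.mono fun i hi => ⟨g i, hi, rfl⟩)
  exact h2

section

open scoped Matrix.Norms.Operator

set_option backward.isDefEq.respectTransparency false in
theorem tendsto_pow_exp_matrix {ι : Type*} {l : Filter ι} (x : ι → M3) (ε : ι → ℝ) (C : M3)
    (m : ι → ℕ) (t : ℝ) (hε : Tendsto ε l (𝓝 0)) (hε0 : ∀ᶠ i in l, 0 < ε i)
    (hx : Tendsto (fun i => (ε i)⁻¹ • (x i - 1)) l (𝓝 C))
    (hm : Tendsto (fun i => (m i : ℝ) * ε i) l (𝓝 t)) :
    Tendsto (fun i => x i ^ m i) l (𝓝 (NormedSpace.exp (t • C))) :=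
  tendsto_pow_exp x ε C m t hε hε0 hx hm

set_option backward.isDefEq.respectTransparency false in
theorem tendsto_slope_exp_matrix (A : M3) :
    Tendsto (fun u : ℝ => u⁻¹ • (NormedSpace.exp (u • A) - 1)) (𝓝[≠] 0) (𝓝 A) := by
  have h1 : HasDerivAt (fun u : ℝ => NormedSpace.exp (u • A))
      (NormedSpace.exp ((0 : ℝ) • A) * A) 0 := hasDerivAt_exp_smul_const A (0 : ℝ)
  rw [hasDerivAt_iff_tendsto_slope] at h1
  simp only [zero_smul, NormedSpace.exp_zero, one_mul] at h1
  refine h1.congr fun i => ?_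
  simp [slope, NormedSpace.exp_zero]

set_option backward.isDefEq.respectTransparency false in
theorem continuous_exp_matrix : Continuous (fun A : M3 => NormedSpace.exp A) :=
  NormedSpace.exp_continuous

end

lemma exp_mul_exp_neg (A : M3) : NormedSpace.exp A * NormedSpace.exp (-A) = 1 := by
  have h := Matrix.exp_add_of_commute A (-A) (Commute.neg_right (Commute.refl A))
  rw [add_neg_cancel, NormedSpace.exp_zero] at h
  exact h.symm

/-- The key lemma: a limit of difference quotients of elements of a closed subgroup belongs to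
its Lie algebra. -/
theorem mem_lieSet_of_tendsto {ι : Type*} {l : Filter ι} [l.NeBot] {H : Subgroup SL3}
    (hH : IsClosed (H : Set SL3)) (x : ι → SL3) (hx : ∀ i, x i ∈ H) (ε : ι → ℝ) (C : M3)
    (hε : Tendsto ε l (𝓝 0)) (hε0 : ∀ᶠ i in l, 0 < ε i)
    (hC : Tendsto (fun i => (ε i)⁻¹ • ((x i : M3) - 1)) l (𝓝 C)) :
    C ∈ lieSet (H : Set SL3) := by
  have hpos : ∀ t : ℝ, 0 ≤ t → ∃ g ∈ H, (g : M3) = NormedSpace.exp (t • C) := by
    intro t ht
    have hm : Tendsto (fun i => ((⌊t / ε i⌋₊ : ℕ) : ℝ) * ε i) l (𝓝 t) := by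
      have h1 : ∀ᶠ i in l, t - ε i ≤ ((⌊t / ε i⌋₊ : ℕ) : ℝ) * ε i := by
        filter_upwards [hε0] with i hi
        have h2 := Nat.lt_floor_add_one (t / ε i)
        have h3 : t / ε i * ε i = t := div_mul_cancel₀ t hi.ne'
        nlinarith
      have h2 : ∀ᶠ i in l, ((⌊t / ε i⌋₊ : ℕ) : ℝ) * ε i ≤ t := by
        filter_upwards [hε0] with i hi
        have h2 := Nat.floor_le (div_nonneg ht hi.le)
        have h3 : t / ε i * ε i = t := div_mul_cancel₀ t hi.ne'
        nlinarith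
      refine tendsto_of_tendsto_of_tendsto_of_le_of_le' ?_ tendsto_const_nhds h1 h2
      have := (tendsto_const_nhds (x := t)).sub hε
      simpa using this
    have h4 := tendsto_pow_exp_matrix (fun i => (x i : M3)) ε C _ t hε hε0 hC hm
    refine exists_mem_of_tendsto (l := l) hH (g := fun i => x i ^ ⌊t / ε i⌋₊) ?_ ?_
    · exact Eventually.of_forall fun i => H.pow_mem (hx i) _
    · refine h4.congr fun i => ?_
      simp
  intro t
  rcases le_total 0 t with ht | ht
  · exact hpos t ht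
  · obtain ⟨g, hg, hgt⟩ := hpos (-t) (by linarith)
    refine ⟨g⁻¹, H.inv_mem hg, ?_⟩
    have h1 : (g : M3) * ((g⁻¹ : SL3) : M3) = 1 := by
      rw [← Matrix.SpecialLinearGroup.coe_mul, mul_inv_cancel, Matrix.SpecialLinearGroup.coe_one]
    have h2 : (g : M3) * NormedSpace.exp (t • C) = 1 := by
      rw [hgt]
      have h3 := exp_mul_exp_neg (-t • C)
      rwa [← neg_smul, neg_neg] at h3
    have h5 : IsUnit (g : M3) := by
      rw [Matrix.isUnit_iff_isUnit_det]
      simp
    exact h5.mul_left_cancel (h1.trans h2.symm)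

lemma zero_mem_lieSet (H : Subgroup SL3) : (0 : M3) ∈ lieSet (H : Set SL3) := by
  intro t
  exact ⟨1, H.one_mem, by simp [NormedSpace.exp_zero]⟩

lemma smul_mem_lieSet {H : Set SL3} {A : M3} (hA : A ∈ lieSet H) (c : ℝ) : c • A ∈ lieSet H := by
  intro t
  obtain ⟨g, hg, h⟩ := hA (t * c)
  exact ⟨g, hg, by rw [h, smul_smul]⟩

lemma add_mem_lieSet {H : Subgroup SL3} (hH : IsClosed (H : Set SL3)) {A B : M3}
    (hA : A ∈ lieSet (H : Set SL3)) (hB : B ∈ lieSet (H : Set SL3)) :
    A + B ∈ lieSet (H : Set SL3) := by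
  choose a ha haA using hA
  choose b hb hbB using hB
  refine mem_lieSet_of_tendsto (l := 𝓝[>] (0 : ℝ)) hH (fun u : ℝ => a u * b u)
    (fun u => H.mul_mem (ha u) (hb u)) (fun u => u) (A + B) ?_ ?_ ?_
  · exact tendsto_nhdsWithin_of_tendsto_nhds tendsto_id
  · exact self_mem_nhdsWithin
  · have h1 : Tendsto (fun u : ℝ => u⁻¹ • (NormedSpace.exp (u • A) - 1)) (𝓝[>] 0) (𝓝 A) :=
      (tendsto_slope_exp_matrix A).mono_left (nhdsWithin_mono _ fun u hu => ne_of_gt hu)
    have h2 : Tendsto (fun u : ℝ => u⁻¹ • (NormedSpace.exp (u • B) - 1)) (𝓝[>] 0) (𝓝 B) :=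
      (tendsto_slope_exp_matrix B).mono_left (nhdsWithin_mono _ fun u hu => ne_of_gt hu)
    have h3 : Tendsto (fun u : ℝ => NormedSpace.exp (u • B)) (𝓝[>] 0) (𝓝 (1 : M3)) := by
      have h4 : Tendsto (fun u : ℝ => u • B) (𝓝[>] 0) (𝓝 ((0 : ℝ) • B)) :=
        ((continuous_id.smul continuous_const).tendsto (0 : ℝ)).mono_left nhdsWithin_le_nhds
      have h5 := (continuous_exp_matrix.tendsto _).comp h4
      rw [zero_smul, NormedSpace.exp_zero] at h5
      exact h5
    have h6 := (h1.mul h3).add h2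
    rw [mul_one] at h6
    refine h6.congr fun u => ?_
    rw [Matrix.SpecialLinearGroup.coe_mul, haA, hbB, smul_mul_assoc, ← smul_add]
    congr 1
    noncomm_ring

/-- The Lie algebra of a closed subgroup, as a subspace. -/
def lieSub (H : Subgroup SL3) (hH : IsClosed (H : Set SL3)) : Submodule ℝ M3 where
  carrier := lieSet (H : Set SL3)
  zero_mem' := zero_mem_lieSet H
  add_mem' := add_mem_lieSet hH
  smul_mem' := fun c _ hA => smul_mem_lieSet hA c

end Pool.Agent.Lib.MP_aa9b81_an
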