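import Mathlib
import Pool.Agent.Lib.MP_aa9b81_an.LieSub

/-!
Identities for real 3 by 3 matrices.
-/

set_option autoImplicit false
set_option linter.unusedSectionVars false

open Matrix Module

namespace Pool.Agent.Lib.MP_aa9b81_an

lemma ch3 (A : M3) : A * A * A = A.trace • (A * A) - ((A.trace ^ 2 - (A * A).trace) / 2) • A +
    A.det • (1 : M3) := by
  ext i j
  fin_cases i <;> fin_cases j <;>
    simp [Matrix.det_fin_three, Matrix.trace_fin_three, Matrix.mul_apply, Fin.sum_univ_three] <;>
    ring

lemma det3 (A : M3) :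
    A.det = (A.trace ^ 3 - 3 * A.trace * (A * A).trace + 2 * (A * A * A).trace) / 6 := by
  simp [Matrix.det_fin_three, Matrix.trace_fin_three, Matrix.mul_apply, Fin.sum_univ_three]
  ring

/-- If the first three power traces vanish the cube vanishes. -/
lemma cube_eq_zero {A : M3} (h1 : A.trace = 0) (h2 : (A * A).trace = 0)
    (h3 : (A * A * A).trace = 0) : A * A * A = 0 := by
  have h := ch3 A
  rw [det3, h1, h2, h3] at h
  simpa using h

lemma mulVec_eq_zero_of_nilp {A : M3} (h : A * A * A = 0) {w : Fin 3 → ℝ} (hw : A *ᵥ w = w) :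
    w = 0 := by
  have h1 : (A * A * A) *ᵥ w = w := by
    rw [← Matrix.mulVec_mulVec, ← Matrix.mulVec_mulVec, hw, hw, hw]
  rw [← h1, h, Matrix.zero_mulVec]

end Pool.Agent.Lib.MP_aa9b81_an
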