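import Mathlib
import Pool.Agent.Lib.MP_aa9b81_an.Mat3

/-!
The unital algebra generated by a space of real 3 by 3 matrices, its trace radical and its centre.
-/

set_option autoImplicit false
set_option linter.unusedSectionVars false

open Matrix Module

namespace Pool.Agent.Lib.MP_aa9b81_an

/-- The trace form `(A, B) ↦ tr (A B)`. -/
noncomputable def tf : LinearMap.BilinForm ℝ M3 :=
  LinearMap.mk₂ ℝ (fun A B => (A * B).trace)
    (fun A A' B => by simp [add_mul]) (fun c A B => by simp)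
    (fun A B B' => by simp [mul_add]) (fun c A B => by simp)

lemma tf_apply (A B : M3) : tf A B = (A * B).trace := rfl

lemma tf_symm : tf.IsSymm := ⟨fun A B => by
  simp only [tf_apply]
  exact Matrix.trace_mul_comm A B⟩

lemma trace_mul_transpose_self_eq_zero {A : M3} (h : (A * Aᵀ).trace = 0) : A = 0 := by
  simp only [Matrix.trace_fin_three, Matrix.mul_apply, Fin.sum_univ_three,
    Matrix.transpose_apply] at h
  ext i j
  fin_cases i <;> fin_cases j <;> simp <;> nlinarith [sq_nonneg (A 0 0), sq_nonneg (A 0 1),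
    sq_nonneg (A 0 2), sq_nonneg (A 1 0), sq_nonneg (A 1 1), sq_nonneg (A 1 2),
    sq_nonneg (A 2 0), sq_nonneg (A 2 1), sq_nonneg (A 2 2)]

lemma tf_nondeg : tf.Nondegenerate := by
  refine tf_symm.isRefl.nondegenerate_iff_separatingLeft.2 ?_
  intro A hA
  exact trace_mul_transpose_self_eq_zero (hA Aᵀ)

/-- The unital algebra generated by `W`. -/
noncomputable def alg (W : Submodule ℝ M3) : Submodule ℝ M3 :=
  Subalgebra.toSubmodule (Algebra.adjoin ℝ (W : Set M3))

lemma mem_alg {W : Submodule ℝ M3} {A : M3} : A ∈ alg W ↔ A ∈ Algebra.adjoin ℝ (W : Set M3) :=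
  Iff.rfl

lemma le_alg (W : Submodule ℝ M3) : W ≤ alg W := fun _ h => Algebra.subset_adjoin h

lemma one_mem_alg (W : Submodule ℝ M3) : (1 : M3) ∈ alg W :=
  (Algebra.adjoin ℝ (W : Set M3)).one_mem

lemma mul_mem_alg {W : Submodule ℝ M3} {A B : M3} (hA : A ∈ alg W) (hB : B ∈ alg W) :
    A * B ∈ alg W := (Algebra.adjoin ℝ (W : Set M3)).mul_mem hA hB

/-- The orthogonal of the algebra. -/
noncomputable def nu (W : Submodule ℝ M3) : Submodule ℝ M3 := tf.orthogonal (alg W)

lemma mem_nu {W : Submodule ℝ M3} {B : M3} : B ∈ nu W ↔ ∀ a ∈ alg W, (a * B).trace = 0 := Iff.rfl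

lemma mem_alg_iff {W : Submodule ℝ M3} {A : M3} :
    A ∈ alg W ↔ ∀ B ∈ nu W, (B * A).trace = 0 := by
  have h : tf.orthogonal (nu W) = alg W :=
    LinearMap.BilinForm.orthogonal_orthogonal tf_nondeg tf_symm.isRefl (alg W)
  rw [← h]
  rfl

lemma finrank_alg (W : Submodule ℝ M3) : finrank ℝ (alg W) = 9 - finrank ℝ (nu W) := by
  have h : tf.orthogonal (nu W) = alg W :=
    LinearMap.BilinForm.orthogonal_orthogonal tf_nondeg tf_symm.isRefl (alg W)
  rw [← h, LinearMap.BilinForm.finrank_orthogonal tf_nondeg]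
  simp [Module.finrank_matrix]

/-- The trace radical of the algebra. -/
noncomputable def rd (W : Submodule ℝ M3) : Submodule ℝ M3 := alg W ⊓ nu W

lemma mem_rd {W : Submodule ℝ M3} {A : M3} :
    A ∈ rd W ↔ A ∈ alg W ∧ ∀ a ∈ alg W, (a * A).trace = 0 := Iff.rfl

/-- The centre of the algebra. -/
def cen (W : Submodule ℝ M3) : Submodule ℝ M3 where
  carrier := {A | A ∈ alg W ∧ ∀ B ∈ alg W, A * B = B * A}
  zero_mem' := ⟨(alg W).zero_mem, fun B _ => by simp⟩
  add_mem' := fun {A A'} h h' => ⟨(alg W).add_mem h.1 h'.1, fun B hB => by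
    rw [add_mul, mul_add, h.2 B hB, h'.2 B hB]⟩
  smul_mem' := fun c A h => ⟨(alg W).smul_mem c h.1, fun B hB => by
    rw [smul_mul_assoc, mul_smul_comm, h.2 B hB]⟩

lemma mem_cen {W : Submodule ℝ M3} {A : M3} :
    A ∈ cen W ↔ A ∈ alg W ∧ ∀ B ∈ alg W, A * B = B * A := Iff.rfl

lemma one_mem_cen (W : Submodule ℝ M3) : (1 : M3) ∈ cen W :=
  ⟨one_mem_alg W, fun B _ => by rw [one_mul, mul_one]⟩

lemma mul_mem_cen {W : Submodule ℝ M3} {A B : M3} (hA : A ∈ cen W) (hB : B ∈ cen W) :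
    A * B ∈ cen W :=
  ⟨mul_mem_alg hA.1 hB.1, fun C hC => by
    rw [mul_assoc, hB.2 C hC, ← mul_assoc, hA.2 C hC, mul_assoc]⟩

lemma cen_comm {W : Submodule ℝ M3} {A B : M3} (hA : A ∈ cen W) (hB : B ∈ cen W) :
    A * B = B * A := hA.2 B hB.1

/-- The vectors killed by the radical. -/
noncomputable def kr (W : Submodule ℝ M3) : Submodule ℝ (Fin 3 → ℝ) where
  carrier := {v | ∀ B ∈ rd W, B *ᵥ v = 0}
  zero_mem' := fun B _ => by simp
  add_mem' := fun {v w} hv hw B hB => by rw [Matrix.mulVec_add, hv B hB, hw B hB, add_zero]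
  smul_mem' := fun c v hv B hB => by rw [Matrix.mulVec_smul, hv B hB, smul_zero]

lemma mem_kr {W : Submodule ℝ M3} {v : Fin 3 → ℝ} : v ∈ kr W ↔ ∀ B ∈ rd W, B *ᵥ v = 0 := Iff.rfl

/-- Elements of the radical are nilpotent. -/
lemma rd_nilp {W : Submodule ℝ M3} {A : M3} (h : A ∈ rd W) : A * A * A = 0 := by
  have h1 := h.2 1 (one_mem_alg W)
  have h2 := h.2 A h.1
  have h3 := h.2 (A * A) (mul_mem_alg h.1 h.1)
  refine cube_eq_zero ?_ ?_ ?_
  · simpa [tf_apply] using h1
  · simpa [tf_apply] using h2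
  · simpa [tf_apply] using h3

lemma mul_mem_rd_left {W : Submodule ℝ M3} {A B : M3} (hA : A ∈ alg W) (hB : B ∈ rd W) :
    A * B ∈ rd W := by
  rw [mem_rd]
  refine ⟨mul_mem_alg hA hB.1, fun a ha => ?_⟩
  rw [← mul_assoc]
  exact (mem_rd.1 hB).2 _ (mul_mem_alg ha hA)

lemma mul_mem_rd_right {W : Submodule ℝ M3} {A B : M3} (hA : A ∈ alg W) (hB : B ∈ rd W) :
    B * A ∈ rd W := by
  rw [mem_rd]
  refine ⟨mul_mem_alg hB.1 hA, fun a ha => ?_⟩
  rw [← mul_assoc, Matrix.trace_mul_comm, ← mul_assoc]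
  exact (mem_rd.1 hB).2 _ (mul_mem_alg hA ha)

/-- Central elements with vanishing power traces vanish when the radical is zero. -/
lemma cen_nilp {W : Submodule ℝ M3} (hr : rd W = ⊥) {A : M3} (hA : A ∈ cen W)
    (hn : A * A * A = 0) : A = 0 := by
  have h : A ∈ rd W := by
    rw [mem_rd]
    refine ⟨hA.1, fun a ha => ?_⟩
    have h1 : IsNilpotent (a * A) := by
      refine ⟨3, ?_⟩
      have h2 : Commute a A := (hA.2 a ha).symm
      rw [h2.mul_pow]
      have : A ^ 3 = 0 := by rw [pow_three, ← mul_assoc, hn]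
      rw [this, mul_zero]
    have h3 := Matrix.isNilpotent_trace_of_isNilpotent h1
    exact h3.eq_zero
  rw [hr] at h
  exact h

end Pool.Agent.Lib.MP_aa9b81_an
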