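import Mathlib
import Pool.Agent.Lib.MP_aa9b81_an.Alg

/-!
Burnside's theorem for real 3 by 3 matrices.
-/

set_option autoImplicit false
set_option linter.unusedSectionVars false

open Matrix Module

namespace Pool.Agent.Lib.MP_aa9b81_an

/-- Column vectors. -/
abbrev V3 : Type := Fin 3 → ℝ

lemma cubic_root (a b c : ℝ) : ∃ t : ℝ, t ^ 3 + a * t ^ 2 + b * t + c = 0 := by
  set R : ℝ := 1 + |a| + |b| + |c| with hR
  have ha := abs_nonneg a
  have hb := abs_nonneg b
  have hc := abs_nonneg c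
  have hR1 : 1 ≤ R := by linarith
  have hcont : Continuous (fun t : ℝ => t ^ 3 + a * t ^ 2 + b * t + c) := by fun_prop
  have hR2 : R ≤ R ^ 2 := by nlinarith
  have hR3 : (1 : ℝ) ≤ R ^ 2 := by nlinarith
  have hbound : |a| * R ^ 2 + |b| * R + |c| ≤ R ^ 3 := by
    have h1 : |b| * R ≤ |b| * R ^ 2 := mul_le_mul_of_nonneg_left hR2 hb
    have h2 : |c| * 1 ≤ |c| * R ^ 2 := mul_le_mul_of_nonneg_left hR3 hc
    have h3 : R ^ 3 = R * R ^ 2 := by ring
    rw [h3]
    have h4 : R * R ^ 2 = R ^ 2 + |a| * R ^ 2 + |b| * R ^ 2 + |c| * R ^ 2 := by rw [hR]; ring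
    nlinarith [sq_nonneg R]
  have hpos : 0 ≤ R ^ 3 + a * R ^ 2 + b * R + c := by
    have h1 : -(|a| * R ^ 2) ≤ a * R ^ 2 := by nlinarith [neg_abs_le a, sq_nonneg R]
    have h2 : -(|b| * R) ≤ b * R := by nlinarith [neg_abs_le b]
    linarith [neg_abs_le c]
  have hneg : (-R) ^ 3 + a * (-R) ^ 2 + b * (-R) + c ≤ 0 := by
    have h1 : a * R ^ 2 ≤ |a| * R ^ 2 := by nlinarith [le_abs_self a, sq_nonneg R]
    have h2 : -(b * R) ≤ |b| * R := by nlinarith [neg_abs_le b]
    have h3 : (-R) ^ 3 + a * (-R) ^ 2 + b * (-R) + c = -(R ^ 3) + a * R ^ 2 - b * R + c := by ring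
    rw [h3]
    linarith [le_abs_self c]
  have hmem : (0 : ℝ) ∈ Set.Icc ((-R) ^ 3 + a * (-R) ^ 2 + b * (-R) + c)
      (R ^ 3 + a * R ^ 2 + b * R + c) := ⟨hneg, hpos⟩
  obtain ⟨t, _, ht⟩ := intermediate_value_Icc (by linarith : -R ≤ R) hcont.continuousOn hmem
  exact ⟨t, ht⟩

lemma exists_eigen (A : M3) : ∃ (t : ℝ) (v : V3), v ≠ 0 ∧ A *ᵥ v = t • v := by
  obtain ⟨t, ht⟩ := cubic_root (-A.trace) ((A.trace ^ 2 - (A * A).trace) / 2) (-A.det)
  have hdet : (A - t • (1 : M3)).det = 0 := by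
    have : (A - t • (1 : M3)).det = -(t ^ 3 + (-A.trace) * t ^ 2 +
        ((A.trace ^ 2 - (A * A).trace) / 2) * t + (-A.det)) := by
      simp [Matrix.det_fin_three, Matrix.trace_fin_three, Matrix.mul_apply, Fin.sum_univ_three]
      ring
    rw [this, ht, neg_zero]
  obtain ⟨v, hv, hv2⟩ := Matrix.exists_mulVec_eq_zero_iff.2 hdet
  refine ⟨t, v, hv, ?_⟩
  rw [Matrix.sub_mulVec, Matrix.smul_mulVec, Matrix.one_mulVec] at hv2
  exact sub_eq_zero.1 hv2

/-- A form of Burnside's theorem over the reals. -/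
theorem burnside {V : Type*} [AddCommGroup V] [Module ℝ V] [Nontrivial V]
    (R : Subalgebra ℝ (Module.End ℝ V)) (heig : ∀ T : Module.End ℝ V, ∃ c : ℝ, ∃ v : V, v ≠ 0 ∧
      T v = c • v)
    (hirr : ∀ U : Submodule ℝ V, (∀ r ∈ R, ∀ v ∈ U, r v ∈ U) → U = ⊥ ∨ U = ⊤)
    (T : Module.End ℝ V) (s : Finset V) : ∃ r ∈ R, ∀ v ∈ s, T v = r v := by
  have hs : IsSimpleOrder (Submodule R V) :=
    { exists_pair_ne := ⟨⊥, ⊤, bot_ne_top⟩
      eq_bot_or_eq_top := fun U => by
        have h1 := hirr (U.restrictScalars ℝ) (fun r hr v hv => U.smul_mem (⟨r, hr⟩ : R) hv)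
        rcases h1 with h1 | h1
        · left
          rw [Submodule.restrictScalars_eq_bot_iff] at h1
          exact h1
        · right
          rw [Submodule.restrictScalars_eq_top_iff] at h1
          exact h1 }
  have hsimple : IsSimpleModule R V := (isSimpleModule_iff R V).2 hs
  have hEnd : ∀ T : Module.End R V, ∃ c : ℝ, ∀ v, T v = c • v := by
    intro T
    obtain ⟨c, v, hv, hvc⟩ := heig (T.restrictScalars ℝ)
    have h1 : T v = c • v := hvc
    let T' : Module.End R V := T - c • LinearMap.id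
    have h2 : LinearMap.ker T' = ⊤ := by
      rcases hs.eq_bot_or_eq_top (LinearMap.ker T') with h3 | h3
      · exfalso
        apply hv
        have : v ∈ LinearMap.ker T' := by
          rw [LinearMap.mem_ker]
          change T v - c • v = 0
          rw [h1, sub_self]
        rw [h3] at this
        exact this
      · exact h3
    refine ⟨c, fun w => ?_⟩
    have h4 : w ∈ LinearMap.ker T' := by rw [h2]; trivial
    rw [LinearMap.mem_ker] at h4
    exact sub_eq_zero.1 h4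
  let f : Module.End (Module.End R V) V :=
    { toFun := fun v => T v
      map_add' := fun v w => map_add T v w
      map_smul' := fun T' v => by
        obtain ⟨c, hc⟩ := hEnd T'
        simp only [RingHom.id_apply, Module.End.smul_def]
        rw [hc, hc, map_smul] }
  obtain ⟨r, hr⟩ := jacobson_density f s
  exact ⟨r.1, r.2, fun v hv => hr v hv⟩

/-- Irreducible spaces of real 3 by 3 matrices generate the full matrix algebra. -/
theorem alg_eq_top_of_irred {W : Submodule ℝ M3}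
    (h : ∀ U : Submodule ℝ V3, (∀ A ∈ W, ∀ v ∈ U, A *ᵥ v ∈ U) → U = ⊥ ∨ U = ⊤) :
    alg W = ⊤ := by
  let φ : M3 ≃ₐ[ℝ] Module.End ℝ V3 := Matrix.toLinAlgEquiv'
  let R : Subalgebra ℝ (Module.End ℝ V3) := (Algebra.adjoin ℝ (W : Set M3)).map φ.toAlgHom
  have hφ : ∀ (A : M3) (v : V3), φ A v = A *ᵥ v := fun A v => Matrix.toLinAlgEquiv'_apply A v
  have heig : ∀ T : Module.End ℝ V3, ∃ c : ℝ, ∃ v : V3, v ≠ 0 ∧ T v = c • v := by
    intro T
    obtain ⟨c, v, hv, hvc⟩ := exists_eigen (φ.symm T)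
    refine ⟨c, v, hv, ?_⟩
    rw [← hφ, AlgEquiv.apply_symm_apply] at hvc
    exact hvc
  have hirr : ∀ U : Submodule ℝ V3, (∀ r ∈ R, ∀ v ∈ U, r v ∈ U) → U = ⊥ ∨ U = ⊤ := by
    intro U hU
    refine h U fun A hA v hv => ?_
    rw [← hφ]
    exact hU _ ⟨A, Algebra.subset_adjoin hA, rfl⟩ v hv
  rw [eq_top_iff]
  intro A _
  obtain ⟨r, ⟨B, hB, rfl⟩, hr⟩ := burnside R heig hirr (φ A)
    (Finset.univ.image (fun i : Fin 3 => (Pi.single i 1 : V3)))
  have h5 : ∀ i : Fin 3, A *ᵥ (Pi.single i 1) = B *ᵥ (Pi.single i 1) := by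
    intro i
    have := hr (Pi.single i 1) (by simp)
    rw [← hφ B, ← hφ A]
    exact this
  have h6 : A = B := by
    ext i j
    have := congrFun (h5 j) i
    simpa [Matrix.mulVec_single] using this
  rw [h6]
  exact hB

end Pool.Agent.Lib.MP_aa9b81_an
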