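import Mathlib
import Pool.Agent.Lib.MP_aa9b81_an.Burn

/-!
Structure of algebras generated by trace-free matrices: kernel of the radical, size of the centre.
-/

set_option autoImplicit false
set_option linter.unusedSectionVars false

open Matrix Module

namespace Pool.Agent.Lib.MP_aa9b81_an

/-- Fixed vectors of a matrix. -/
def fixv (E : M3) : Submodule ℝ V3 where
  carrier := {v | E *ᵥ v = v}
  zero_mem' := by simp
  add_mem' := fun {v w} hv hw => by
    change E *ᵥ (v + w) = v + w
    rw [Matrix.mulVec_add]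
    exact congrArg₂ _ hv hw
  smul_mem' := fun c v hv => by
    change E *ᵥ (c • v) = c • v
    rw [Matrix.mulVec_smul]
    exact congrArg _ hv

lemma mem_fixv {E : M3} {v : V3} : v ∈ fixv E ↔ E *ᵥ v = v := Iff.rfl

lemma finrank_fixv {E : M3} (h : E * E = E) (ht : E.trace = 1) : finrank ℝ (fixv E) = 1 := by
  have hp : LinearMap.IsProj (fixv E) (Matrix.toLin' E) := by
    constructor
    · intro v
      rw [mem_fixv, Matrix.toLin'_apply, Matrix.mulVec_mulVec, h]
    · intro v hv
      rw [Matrix.toLin'_apply]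
      exact hv
  have h1 := hp.trace
  rw [Matrix.trace_toLin'_eq, ht] at h1
  exact_mod_cast h1.symm

/-- Evaluation at a vector. -/
def evv (v : V3) : M3 →ₗ[ℝ] V3 where
  toFun A := A *ᵥ v
  map_add' A B := Matrix.add_mulVec A B v
  map_smul' c A := Matrix.smul_mulVec c A v

lemma evv_apply (v : V3) (A : M3) : evv v A = A *ᵥ v := rfl

lemma kr_ne_bot (W : Submodule ℝ M3) : kr W ≠ ⊥ := by
  have key : ∀ n : ℕ, ∀ v : V3, v ≠ 0 → finrank ℝ ((rd W).map (evv v)) ≤ n →
      ∃ w : V3, w ≠ 0 ∧ w ∈ kr W := by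
    intro n
    induction n with
    | zero =>
      intro v hv hn
      refine ⟨v, hv, fun B hB => ?_⟩
      have h1 : (rd W).map (evv v) = ⊥ := by
        apply Submodule.finrank_eq_zero.1
        omega
      have h2 : evv v B ∈ (rd W).map (evv v) := ⟨B, hB, rfl⟩
      rw [h1] at h2
      exact h2
    | succ n ih =>
      intro v hv hn
      by_cases hk : v ∈ kr W
      · exact ⟨v, hv, hk⟩
      · rw [mem_kr] at hk
        push Not at hk
        obtain ⟨B, hB, hBv⟩ := hk
        refine ih (B *ᵥ v) hBv ?_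
        have hle : (rd W).map (evv (B *ᵥ v)) ≤ (rd W).map (evv v) := by
          rintro _ ⟨C, hC, rfl⟩
          refine ⟨C * B, mul_mem_rd_left hC.1 hB, ?_⟩
          rw [evv_apply, evv_apply, Matrix.mulVec_mulVec]
        have hlt : (rd W).map (evv (B *ᵥ v)) < (rd W).map (evv v) := by
          refine lt_of_le_of_ne hle fun heq => ?_
          have h1 : B *ᵥ v ∈ (rd W).map (evv v) := ⟨B, hB, rfl⟩
          rw [← heq] at h1
          obtain ⟨C, hC, hCw⟩ := h1
          exact hBv (mulVec_eq_zero_of_nilp (rd_nilp hC) hCw)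
        have := Submodule.finrank_lt_finrank_of_lt hlt
        omega
  obtain ⟨w, hw, hwk⟩ := key _ (Pi.single 0 1) (by
    intro h
    have := congrFun h 0
    simp at this) le_rfl
  intro h
  rw [h] at hwk
  exact hw hwk

lemma kr_ne_top {W : Submodule ℝ M3} (h : rd W ≠ ⊥) : kr W ≠ ⊤ := by
  intro hk
  apply h
  rw [Submodule.eq_bot_iff]
  intro B hB
  have h1 : ∀ v : V3, B *ᵥ v = 0 := fun v => by
    have : v ∈ kr W := by rw [hk]; trivial
    exact this B hB
  ext i j
  have := congrFun (h1 (Pi.single j 1)) i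
  simpa [Matrix.mulVec_single] using this

lemma finrank_kr {W : Submodule ℝ M3} (h : rd W ≠ ⊥) :
    finrank ℝ (kr W) = 1 ∨ finrank ℝ (kr W) = 2 := by
  have h1 : finrank ℝ (kr W) ≠ 0 := fun h0 => kr_ne_bot W (Submodule.finrank_eq_zero.1 h0)
  have h2 : finrank ℝ (kr W) < finrank ℝ V3 := Submodule.finrank_lt (kr_ne_top h)
  have h3 : finrank ℝ V3 = 3 := by simp
  omega

/-- A multiplicative functional forces a big centre. -/
lemma two_le_finrank_cen_of_char {W : Submodule ℝ M3} (hW : ∀ A ∈ W, A.trace = 0) (hW0 : W ≠ ⊥)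
    (hr : rd W = ⊥) (χ : M3 →ₗ[ℝ] ℝ) (h1 : χ 1 = 1)
    (hmul : ∀ A ∈ alg W, ∀ B ∈ alg W, χ (A * B) = χ A * χ B) : 2 ≤ finrank ℝ (cen W) := by
  have hrd : ∀ A ∈ alg W, (∀ a ∈ alg W, (a * A).trace = 0) → A = 0 := by
    intro A hA h
    have : A ∈ rd W := mem_rd.2 ⟨hA, h⟩
    rw [hr] at this
    exact this
  obtain ⟨c, hc⟩ : ∃ c ∈ alg W, ∀ a ∈ alg W, (c * a).trace = χ a := by
    let Φ : alg W →ₗ[ℝ] Module.Dual ℝ (alg W) :=
      LinearMap.mk₂ ℝ (fun (A B : alg W) => ((A : M3) * (B : M3)).trace)
        (fun A A' B => by simp [add_mul]) (fun c A B => by simp)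
        (fun A B B' => by simp [mul_add]) (fun c A B => by simp)
    have hinj : Function.Injective Φ := by
      rw [← LinearMap.ker_eq_bot, Submodule.eq_bot_iff]
      intro A hA
      rw [LinearMap.mem_ker] at hA
      apply Subtype.ext
      refine hrd A A.2 fun a ha => ?_
      have := congrFun (congrArg DFunLike.coe hA) (⟨a, ha⟩ : alg W)
      rw [Matrix.trace_mul_comm]
      exact this
    have hsurj : Function.Surjective Φ :=
      (LinearMap.injective_iff_surjective_of_finrank_eq_finrank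
        (Subspace.dual_finrank_eq (K := ℝ) (V := alg W)).symm).1 hinj
    obtain ⟨c, hc⟩ := hsurj (χ.comp (alg W).subtype)
    refine ⟨c, c.2, fun a ha => ?_⟩
    exact congrFun (congrArg DFunLike.coe hc) (⟨a, ha⟩ : alg W)
  obtain ⟨hcA, hc⟩ := hc
  have hcen : c ∈ cen W := by
    refine ⟨hcA, fun a ha => ?_⟩
    have h2 : c * a - a * c = 0 := by
      refine hrd _ ((alg W).sub_mem (mul_mem_alg hcA ha) (mul_mem_alg ha hcA)) fun b hb => ?_
      have e1 : (b * (c * a)).trace = (c * (a * b)).trace := by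
        rw [Matrix.trace_mul_comm, mul_assoc]
      have e2 : (b * (a * c)).trace = (c * (b * a)).trace := by
        rw [← mul_assoc, Matrix.trace_mul_comm]
      rw [mul_sub, Matrix.trace_sub, e1, e2, hc _ (mul_mem_alg ha hb), hc _ (mul_mem_alg hb ha),
        hmul a ha b hb, hmul b hb a ha, mul_comm, sub_self]
    exact sub_eq_zero.1 h2
  have hns : ∀ t : ℝ, c ≠ t • (1 : M3) := by
    intro t ht
    have h3 : t * 3 = 1 := by
      have := hc 1 (one_mem_alg W)
      rw [h1, mul_one, ht, Matrix.trace_smul, Matrix.trace_one] at this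
      simpa using this
    have ht0 : t ≠ 0 := by
      rintro rfl
      norm_num at h3
    obtain ⟨A, hA, hA0⟩ := Submodule.exists_mem_ne_zero_of_ne_bot hW0
    have hχA : χ A = 0 := by
      rw [← hc A (le_alg W hA), ht, smul_mul_assoc, one_mul, Matrix.trace_smul, hW A hA, smul_zero]
    apply hA0
    refine hrd A (le_alg W hA) fun a ha => ?_
    have h4 := hc (a * A) (mul_mem_alg ha (le_alg W hA))
    rw [hmul a ha A (le_alg W hA), hχA, mul_zero, ht, smul_mul_assoc, one_mul,
      Matrix.trace_smul, smul_eq_mul] at h4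
    exact (mul_eq_zero.1 h4).resolve_left ht0
  have hli : LinearIndependent ℝ ![(⟨1, one_mem_cen W⟩ : cen W), ⟨c, hcen⟩] := by
    rw [LinearIndependent.pair_iff]
    intro s t hst
    have hst' : s • (1 : M3) + t • c = 0 := congrArg Subtype.val hst
    have ht : t = 0 := by
      by_contra ht
      apply hns (-(t⁻¹ * s))
      have : t⁻¹ • (s • (1 : M3) + t • c) = 0 := by rw [hst', smul_zero]
      rw [smul_add, smul_smul, smul_smul, inv_mul_cancel₀ ht, one_smul] at this
      rw [neg_smul]
      exact eq_neg_of_add_eq_zero_right this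
    refine ⟨?_, ht⟩
    rw [ht, zero_smul, add_zero] at hst'
    have := congrFun (congrFun hst' 0) 0
    simpa using this
  have := hli.fintype_card_le_finrank
  simpa using this

end Pool.Agent.Lib.MP_aa9b81_an
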