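import Mathlib
import Pool.Agent.Lib.MP_aa9b81_an.Alg2

/-!
Proper algebras of real 3 by 3 matrices have a character; consequences for the centre.
-/

set_option autoImplicit false
set_option linter.unusedSectionVars false

open Matrix Module

namespace Pool.Agent.Lib.MP_aa9b81_an

lemma alg_mulVec_mem {W : Submodule ℝ M3} {U : Submodule ℝ V3}
    (h : ∀ A ∈ W, ∀ v ∈ U, A *ᵥ v ∈ U) {A : M3} (hA : A ∈ alg W) : ∀ v ∈ U, A *ᵥ v ∈ U := by
  rw [mem_alg] at hA
  induction hA using Algebra.adjoin_induction with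
  | mem A hA => exact h A hA
  | algebraMap r =>
    intro v hv
    rw [Algebra.algebraMap_eq_smul_one, Matrix.smul_mulVec, Matrix.one_mulVec]
    exact U.smul_mem r hv
  | add A B _ _ hA hB =>
    intro v hv
    rw [Matrix.add_mulVec]
    exact U.add_mem (hA v hv) (hB v hv)
  | mul A B _ _ hA hB =>
    intro v hv
    rw [← Matrix.mulVec_mulVec]
    exact hA _ (hB v hv)

/-- The dot product as a bilinear form. -/
noncomputable def dpf : LinearMap.BilinForm ℝ V3 :=
  LinearMap.mk₂ ℝ (fun v w => v ⬝ᵥ w)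
    (fun v v' w => by simp [add_dotProduct]) (fun c v w => by simp)
    (fun v w w' => by simp [dotProduct_add]) (fun c v w => by simp)

lemma dpf_apply (v w : V3) : dpf v w = v ⬝ᵥ w := rfl

lemma dpf_symm : dpf.IsSymm := ⟨fun v w => by
  simp only [dpf_apply]
  exact dotProduct_comm v w⟩

lemma dpf_nondeg : dpf.Nondegenerate := by
  refine dpf_symm.isRefl.nondegenerate_iff_separatingLeft.2 ?_
  intro v hv
  exact dotProduct_self_eq_zero.1 (hv v)

lemma exists_smul_of_finrank_one {V : Type*} [AddCommGroup V] [Module ℝ V] {U : Submodule ℝ V}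
    (h : finrank ℝ U = 1) {v w : V} (hv : v ∈ U) (hv0 : v ≠ 0) (hw : w ∈ U) :
    ∃ c : ℝ, w = c • v := by
  have h1 := (finrank_eq_one_iff_of_nonzero' (⟨v, hv⟩ : U) (fun h0 => hv0 (by
    exact congrArg Subtype.val h0))).1 h ⟨w, hw⟩
  obtain ⟨c, hc⟩ := h1
  exact ⟨c, (congrArg Subtype.val hc).symm⟩

/-- A common eigenvector or a common eigencovector gives a character. -/
lemma exists_char_of_ne_top {W : Submodule ℝ M3} (h : alg W ≠ ⊤) :
    ∃ χ : M3 →ₗ[ℝ] ℝ, χ 1 = 1 ∧ ∀ A ∈ alg W, ∀ B ∈ alg W, χ (A * B) = χ A * χ B := by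
  have h1 : ¬ ∀ U : Submodule ℝ V3, (∀ A ∈ W, ∀ v ∈ U, A *ᵥ v ∈ U) → U = ⊥ ∨ U = ⊤ :=
    fun h2 => h (alg_eq_top_of_irred h2)
  push Not at h1
  obtain ⟨U, hU, hUb, hUt⟩ := h1
  have hd1 : finrank ℝ U ≠ 0 := fun h0 => hUb (Submodule.finrank_eq_zero.1 h0)
  have hd2 : finrank ℝ U < finrank ℝ V3 := Submodule.finrank_lt hUt
  have hd3 : finrank ℝ V3 = 3 := by simp
  have hd : finrank ℝ U = 1 ∨ finrank ℝ U = 2 := by omega
  rcases hd with hd | hd
  · obtain ⟨v, hv, hv0⟩ := Submodule.exists_mem_ne_zero_of_ne_bot hUb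
    obtain ⟨i, hi⟩ : ∃ i, v i ≠ 0 := by
      by_contra hcon
      push Not at hcon
      exact hv0 (funext hcon)
    have key : ∀ A ∈ alg W, A *ᵥ v = ((A *ᵥ v) i / v i) • v := by
      intro A hA
      obtain ⟨c, hc⟩ := exists_smul_of_finrank_one hd hv hv0 (alg_mulVec_mem hU hA v hv)
      rw [hc]
      congr 1
      simp only [Pi.smul_apply, smul_eq_mul]
      field_simp
    refine ⟨{ toFun := fun A => (A *ᵥ v) i / v i
              map_add' := fun A B => by
                rw [Matrix.add_mulVec, Pi.add_apply, add_div]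
              map_smul' := fun c A => by
                rw [Matrix.smul_mulVec, Pi.smul_apply, smul_eq_mul, smul_eq_mul, mul_div_assoc]
                rfl }, ?_, ?_⟩
    · simp only [LinearMap.coe_mk, AddHom.coe_mk]
      rw [Matrix.one_mulVec, div_self hi]
    · intro A hA B hB
      simp only [LinearMap.coe_mk, AddHom.coe_mk]
      rw [← Matrix.mulVec_mulVec, key B hB, Matrix.mulVec_smul, Pi.smul_apply, smul_eq_mul]
      simp only [Pi.smul_apply, smul_eq_mul]
      field_simp
  · have hd' : finrank ℝ (dpf.orthogonal U) = 1 := by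
      rw [LinearMap.BilinForm.finrank_orthogonal dpf_nondeg, hd, hd3]
    have hUb' : dpf.orthogonal U ≠ ⊥ := by
      intro h0
      rw [h0, finrank_bot] at hd'
      exact absurd hd' (by norm_num)
    have hmem : ∀ A ∈ alg W, ∀ f ∈ dpf.orthogonal U, f ᵥ* A ∈ dpf.orthogonal U := by
      intro A hA f hf u hu
      change u ⬝ᵥ (f ᵥ* A) = 0
      rw [dotProduct_comm, ← Matrix.dotProduct_mulVec, dotProduct_comm]
      exact hf _ (alg_mulVec_mem hU hA u hu)
    obtain ⟨v, hv, hv0⟩ := Submodule.exists_mem_ne_zero_of_ne_bot hUb'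
    obtain ⟨i, hi⟩ : ∃ i, v i ≠ 0 := by
      by_contra hcon
      push Not at hcon
      exact hv0 (funext hcon)
    have key : ∀ A ∈ alg W, v ᵥ* A = ((v ᵥ* A) i / v i) • v := by
      intro A hA
      obtain ⟨c, hc⟩ := exists_smul_of_finrank_one hd' hv hv0 (hmem A hA v hv)
      rw [hc]
      congr 1
      simp only [Pi.smul_apply, smul_eq_mul]
      field_simp
    refine ⟨{ toFun := fun A => (v ᵥ* A) i / v i
              map_add' := fun A B => by
                rw [Matrix.vecMul_add, Pi.add_apply, add_div]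
              map_smul' := fun c A => by
                rw [Matrix.vecMul_smul, Pi.smul_apply, smul_eq_mul, smul_eq_mul, mul_div_assoc]
                rfl }, ?_, ?_⟩
    · simp only [LinearMap.coe_mk, AddHom.coe_mk]
      rw [Matrix.vecMul_one, div_self hi]
    · intro A hA B hB
      simp only [LinearMap.coe_mk, AddHom.coe_mk]
      rw [← Matrix.vecMul_vecMul, key A hA, Matrix.smul_vecMul, Pi.smul_apply, smul_eq_mul]
      simp only [Pi.smul_apply, smul_eq_mul]
      field_simp

/-- If the radical is zero and the algebra is proper then the centre has dimension at least 2. -/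
lemma two_le_finrank_cen {W : Submodule ℝ M3} (hW : ∀ A ∈ W, A.trace = 0) (hW0 : W ≠ ⊥)
    (hr : rd W = ⊥) (ht : alg W ≠ ⊤) : 2 ≤ finrank ℝ (cen W) := by
  obtain ⟨χ, h1, h2⟩ := exists_char_of_ne_top ht
  exact two_le_finrank_cen_of_char hW hW0 hr χ h1 h2

end Pool.Agent.Lib.MP_aa9b81_an
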