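import Mathlib
import Pool.Agent.Lib.MP_aa9b81_an.Alg3

/-!
Canonical lines attached to the centre.
-/

set_option autoImplicit false
set_option linter.unusedSectionVars false

open Matrix Module

namespace Pool.Agent.Lib.MP_aa9b81_an

/-- The trace-free part of a matrix. -/
noncomputable def tz (A : M3) : M3 := A - (A.trace / 3) • (1 : M3)

lemma trace_tz (A : M3) : (tz A).trace = 0 := by
  rw [tz, Matrix.trace_sub, Matrix.trace_smul, Matrix.trace_one]
  simp

lemma tz_mem_cen {W : Submodule ℝ M3} {A : M3} (hA : A ∈ cen W) : tz A ∈ cen W :=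
  (cen W).sub_mem hA ((cen W).smul_mem _ (one_mem_cen W))

lemma tz_of_trace {A : M3} (h : A.trace = 0) : tz A = A := by
  rw [tz, h]
  simp

lemma continuous_tz : Continuous tz := by
  unfold tz
  fun_prop

/-- The cubic relation for trace-free matrices. -/
lemma ch0 {D : M3} (h : D.trace = 0) : D * D * D = ((D * D).trace / 2) • D + D.det • (1 : M3) := by
  rw [ch3, h]
  simp only [zero_smul, zero_sub]
  congr 1
  rw [← neg_smul]
  congr 1
  ring

lemma tz_ne_zero_of_not_mem {A : M3} (h : A ∉ Submodule.span ℝ {(1 : M3)}) : tz A ≠ 0 := by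
  intro h0
  apply h
  rw [tz, sub_eq_zero] at h0
  rw [h0]
  exact Submodule.smul_mem _ _ (Submodule.mem_span_singleton_self _)

lemma exists_tz_ne_zero {W : Submodule ℝ M3} (h : 2 ≤ finrank ℝ (cen W)) :
    ∃ D ∈ cen W, D.trace = 0 ∧ D ≠ 0 := by
  by_contra hcon
  push Not at hcon
  have hle : cen W ≤ Submodule.span ℝ {(1 : M3)} := by
    intro A hA
    by_contra hA1
    exact tz_ne_zero_of_not_mem hA1 (hcon _ (tz_mem_cen hA) (trace_tz A))
  have h1 := Submodule.finrank_mono hle
  have h2 : finrank ℝ (Submodule.span ℝ {(1 : M3)}) ≤ 1 := by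
    have := finrank_span_le_card (R := ℝ) ({(1 : M3)} : Set M3)
    simpa using this
  omega

/-- A pair of matrices, the identity and a trace-free one, is independent. -/
lemma pair_indep {D : M3} (hD : D.trace = 0) (hD0 : D ≠ 0) {s t : ℝ}
    (h : s • (1 : M3) + t • D = 0) : s = 0 ∧ t = 0 := by
  have h1 : (s • (1 : M3) + t • D).trace = 0 := by rw [h, Matrix.trace_zero]
  rw [Matrix.trace_add, Matrix.trace_smul, Matrix.trace_smul, hD, Matrix.trace_one] at h1
  have hs : s = 0 := by
    simpa using h1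
  refine ⟨hs, ?_⟩
  rw [hs, zero_smul, zero_add] at h
  exact (smul_eq_zero.1 h).resolve_right hD0

lemma mem_span_pair_of_finrank_two {W : Submodule ℝ M3} (h : finrank ℝ (cen W) = 2) {D : M3}
    (hDc : D ∈ cen W) (hD : D.trace = 0) (hD0 : D ≠ 0) {A : M3} (hA : A ∈ cen W) :
    ∃ s t : ℝ, A = s • (1 : M3) + t • D := by
  have hli : LinearIndependent ℝ ![(1 : M3), D] := by
    rw [LinearIndependent.pair_iff]
    intro s t hst
    exact pair_indep hD hD0 hst
  have hspan : Submodule.span ℝ (Set.range ![(1 : M3), D]) ≤ cen W := by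
    rw [Submodule.span_le]
    rintro _ ⟨i, rfl⟩
    fin_cases i
    · exact one_mem_cen W
    · exact hDc
  have h1 := finrank_span_eq_card hli
  have h2 := Submodule.eq_of_le_of_finrank_eq hspan (by rw [h1, h]; rfl)
  rw [← h2, Matrix.range_cons, Matrix.range_cons, Matrix.range_empty] at hA
  rw [Set.union_empty, Set.singleton_union, Submodule.mem_span_pair] at hA
  obtain ⟨s, t, hst⟩ := hA
  exact ⟨s, t, hst.symm⟩

/-- The line attached to a centre of dimension two. -/
noncomputable def Lz (W : Submodule ℝ M3) : Submodule ℝ V3 where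
  carrier := {v | ∀ A ∈ cen W, (3 : ℝ) • ((tz A * tz A) *ᵥ v) = (2 * (tz A * tz A).trace) • v}
  zero_mem' := fun A _ => by simp
  add_mem' := fun {v w} hv hw A hA => by
    rw [Matrix.mulVec_add, smul_add, smul_add, hv A hA, hw A hA]
  smul_mem' := fun c v hv A hA => by
    rw [Matrix.mulVec_smul, smul_comm, hv A hA, smul_comm]

lemma mem_Lz {W : Submodule ℝ M3} {v : V3} : v ∈ Lz W ↔
    ∀ A ∈ cen W, (3 : ℝ) • ((tz A * tz A) *ᵥ v) = (2 * (tz A * tz A).trace) • v := Iff.rfl

lemma finrank_Lz {W : Submodule ℝ M3} (hr : rd W = ⊥) (h : finrank ℝ (cen W) = 2) :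
    finrank ℝ (Lz W) = 1 := by
  obtain ⟨D, hDc, hDt, hD0⟩ := exists_tz_ne_zero h.ge
  obtain ⟨β, α, hαβ⟩ := mem_span_pair_of_finrank_two h hDc hDt hD0 (mul_mem_cen hDc hDc)
  have htr : (D * D).trace = 3 * β := by
    rw [hαβ, Matrix.trace_add, Matrix.trace_smul, Matrix.trace_smul, hDt, Matrix.trace_one]
    simp
    ring
  have h3 := ch0 hDt
  have h4 : D * D * D = (α * β) • (1 : M3) + (β + α ^ 2) • D := by
    rw [hαβ, add_mul, smul_mul_assoc, smul_mul_assoc, one_mul, hαβ]
    module
  have h5 : (α * β - D.det) • (1 : M3) + (β + α ^ 2 - 3 * β / 2) • D = 0 := by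
    rw [h3, htr] at h4
    have : (α * β - D.det) • (1 : M3) + (β + α ^ 2 - 3 * β / 2) • D =
      ((α * β) • (1 : M3) + (β + α ^ 2) • D) - ((3 * β / 2) • D + D.det • (1 : M3)) := by module
    rw [this, h4, sub_self]
  have h6 := (pair_indep hDt hD0 h5).2
  have hβ : β = 2 * α ^ 2 := by linarith
  have hα : α ≠ 0 := by
    rintro rfl
    apply hD0
    apply cen_nilp hr hDc
    rw [h4, hβ]
    simp
  have hDD : D * D = (2 * α ^ 2) • (1 : M3) + α • D := by rw [hαβ, hβ]
  have hDtr : (D * D).trace = 6 * α ^ 2 := by rw [htr, hβ]; ring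
  set E : M3 := (1 / (3 * α)) • (D + α • (1 : M3)) with hE
  have hEE : E * E = E := by
    rw [hE, smul_mul_assoc, mul_smul_comm, add_mul, mul_add, mul_add, hDD]
    simp only [smul_mul_assoc, mul_smul_comm, one_mul, mul_one, smul_add, smul_smul]
    match_scalars <;> field_simp <;> ring
  have hEt : E.trace = 1 := by
    rw [hE, Matrix.trace_smul, Matrix.trace_add, Matrix.trace_smul, hDt, Matrix.trace_one]
    simp
    field_simp
  have heq : Lz W = fixv E := by
    ext v
    rw [mem_Lz, mem_fixv]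
    have hfix : E *ᵥ v = v ↔ D *ᵥ v = (2 * α) • v := by
      rw [hE, Matrix.smul_mulVec, Matrix.add_mulVec, Matrix.smul_mulVec, Matrix.one_mulVec]
      constructor
      · intro h7
        have h8 : (3 * α) • ((1 / (3 * α)) • (D *ᵥ v + α • v)) = (3 * α) • v := by rw [h7]
        rw [smul_smul, mul_one_div_cancel (by positivity), one_smul] at h8
        have h9 : D *ᵥ v = (3 * α) • v - α • v := by rw [← h8]; abel
        rw [h9]
        module
      · intro h7
        rw [h7, ← add_smul, smul_smul]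
        have : 1 / (3 * α) * (2 * α + α) = 1 := by field_simp; ring
        rw [this, one_smul]
    rw [hfix]
    constructor
    · intro h7
      have h8 := h7 D hDc
      rw [tz_of_trace hDt, hDtr, hDD, Matrix.add_mulVec, Matrix.smul_mulVec, Matrix.smul_mulVec,
        Matrix.one_mulVec] at h8
      have h9 : (3 * α) • (D *ᵥ v) = (3 * α) • ((2 * α) • v) := by
        have : (3 * α) • (D *ᵥ v) = (3 : ℝ) • ((2 * α ^ 2) • v + α • (D *ᵥ v)) -
          (6 * α ^ 2) • v := by module
        rw [this, h8]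
        module
      exact smul_right_injective _ (by positivity : (3 * α) ≠ 0) h9
    · intro h7 A hA
      obtain ⟨s, t, rfl⟩ := mem_span_pair_of_finrank_two h hDc hDt hD0 hA
      have h8 : tz (s • (1 : M3) + t • D) = t • D := by
        rw [tz, Matrix.trace_add, Matrix.trace_smul, Matrix.trace_smul, hDt, Matrix.trace_one]
        simp
      rw [h8]
      have h9 : (t • D) * (t • D) = (t ^ 2) • (D * D) := by
        rw [smul_mul_assoc, mul_smul_comm, smul_smul, sq]
      rw [h9, Matrix.trace_smul, hDtr, Matrix.smul_mulVec, hDD, Matrix.add_mulVec,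
        Matrix.smul_mulVec, Matrix.smul_mulVec, Matrix.one_mulVec, h7]
      simp only [smul_eq_mul]
      module
  rw [heq]
  exact finrank_fixv hEE hEt

end Pool.Agent.Lib.MP_aa9b81_an
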