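import Mathlib
import Pool.Agent.Lib.MP_aa9b81_an.Alg4

/-!
Canonical lines and frames attached to a centre of dimension at least three.
-/

set_option autoImplicit false
set_option linter.unusedSectionVars false

open Matrix Module

namespace Pool.Agent.Lib.MP_aa9b81_an

/-- The discriminant of the characteristic polynomial of the trace-free part. -/
noncomputable def dsc (A : M3) : ℝ := (tz A * tz A).trace ^ 3 / 2 - 27 * (tz A).det ^ 2

lemma continuous_dsc : Continuous dsc := by
  unfold dsc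
  have := continuous_tz
  fun_prop

lemma dsc_of_trace {D : M3} (h : D.trace = 0) :
    dsc D = (D * D).trace ^ 3 / 2 - 27 * D.det ^ 2 := by
  rw [dsc, tz_of_trace h]

lemma tz_tz (A : M3) : tz (tz A) = tz A := tz_of_trace (trace_tz A)

lemma dsc_tz (A : M3) : dsc (tz A) = dsc A := by
  rw [dsc, dsc, tz_tz]

/-- Real roots of the depressed cubic `t ^ 3 = p t + q`. -/
lemma exists_root (p q : ℝ) : ∃ l : ℝ, l ^ 3 = p * l + q := by
  obtain ⟨t, ht⟩ := cubic_root 0 (-p) (-q)
  exact ⟨t, by linarith⟩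

lemma disc_identity {p q l : ℝ} (h : l ^ 3 = p * l + q) :
    (2 * p) ^ 3 / 2 - 27 * q ^ 2 = (4 * p - 3 * l ^ 2) * (3 * l ^ 2 - p) ^ 2 := by
  have hq : q = l ^ 3 - p * l := by linarith
  rw [hq]
  ring

/-- `A v` is parallel to `v`. -/
def Par (A : M3) (v : V3) : Prop := (v ⬝ᵥ v) • (A *ᵥ v) = ((A *ᵥ v) ⬝ᵥ v) • v

lemma par_iff {A : M3} {v : V3} : Par A v ↔ ∃ c : ℝ, A *ᵥ v = c • v := by
  constructor
  · intro h
    by_cases hv : v = 0
    · exact ⟨0, by simp [hv]⟩
    · have h0 : v ⬝ᵥ v ≠ 0 := fun h1 => hv (dotProduct_self_eq_zero.1 h1)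
      refine ⟨(v ⬝ᵥ v)⁻¹ * ((A *ᵥ v) ⬝ᵥ v), ?_⟩
      rw [mul_smul, ← h, smul_smul, inv_mul_cancel₀ h0, one_smul]
  · rintro ⟨c, hc⟩
    rw [Par, hc, smul_smul, smul_dotProduct, smul_eq_mul, mul_comm]

/-- The span of the common eigenvectors of the centre. -/
def Ln (W : Submodule ℝ M3) : Submodule ℝ V3 := Submodule.span ℝ {v | ∀ A ∈ cen W, Par A v}

lemma det_sub_smul_of_trace {D : M3} (h : D.trace = 0) (t : ℝ) :
    (D - t • (1 : M3)).det = -(t ^ 3 - ((D * D).trace / 2) * t - D.det) := by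
  have : (D - t • (1 : M3)).det = -(t ^ 3 - D.trace * t ^ 2 +
      ((D.trace ^ 2 - (D * D).trace) / 2) * t - D.det) := by
    simp [Matrix.det_fin_three, Matrix.trace_fin_three, Matrix.mul_apply, Fin.sum_univ_three]
    ring
  rw [this, h]
  ring

lemma eig_cubic {D : M3} (h : D.trace = 0) {v : V3} (hv : v ≠ 0) {m : ℝ} (hm : D *ᵥ v = m • v) :
    m ^ 3 = ((D * D).trace / 2) * m + D.det := by
  have h1 : (D - m • (1 : M3)).det = 0 := by
    refine Matrix.exists_mulVec_eq_zero_iff.1 ⟨v, hv, ?_⟩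
    rw [Matrix.sub_mulVec, Matrix.smul_mulVec, Matrix.one_mulVec, hm, sub_self]
  rw [det_sub_smul_of_trace h] at h1
  linarith

lemma exists_eigvec {D : M3} (h : D.trace = 0) {m : ℝ}
    (hm : m ^ 3 = ((D * D).trace / 2) * m + D.det) : ∃ v : V3, v ≠ 0 ∧ D *ᵥ v = m • v := by
  have h1 : (D - m • (1 : M3)).det = 0 := by
    rw [det_sub_smul_of_trace h]
    linarith
  obtain ⟨v, hv, hv2⟩ := Matrix.exists_mulVec_eq_zero_iff.2 h1
  refine ⟨v, hv, ?_⟩
  rw [Matrix.sub_mulVec, Matrix.smul_mulVec, Matrix.one_mulVec] at hv2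
  exact sub_eq_zero.1 hv2

/-- An idempotent of trace one in the centre: its fixed vectors are common eigenvectors. -/
lemma par_of_fix {W : Submodule ℝ M3} {E : M3} (hE : E ∈ cen W) (hEE : E * E = E)
    (hEt : E.trace = 1) {v : V3} (hv : E *ᵥ v = v) {A : M3} (hA : A ∈ cen W) : Par A v := by
  rw [par_iff]
  by_cases hv0 : v = 0
  · exact ⟨0, by simp [hv0]⟩
  · have h1 : A *ᵥ v ∈ fixv E := by
      rw [mem_fixv, Matrix.mulVec_mulVec, cen_comm hE hA, ← Matrix.mulVec_mulVec, hv]
    exact exists_smul_of_finrank_one (finrank_fixv hEE hEt) (mem_fixv.2 hv) hv0 h1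

lemma nonsplit {W : Submodule ℝ M3} {A : M3} (hA : A ∈ cen W) (hd : dsc A < 0) :
    (∀ v, v ∈ Ln W ↔ ∀ A ∈ cen W, Par A v) ∧ finrank ℝ (Ln W) = 1 := by
  set D := tz A with hD
  have hDc : D ∈ cen W := tz_mem_cen hA
  have hDt : D.trace = 0 := trace_tz A
  rw [← dsc_tz, dsc_of_trace hDt] at hd
  set p : ℝ := (D * D).trace / 2 with hp
  set q : ℝ := D.det with hq
  have hp2 : (D * D).trace = 2 * p := by rw [hp]; ring
  obtain ⟨l, hl⟩ := exists_root p q
  rw [hp2, disc_identity hl] at hd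
  have h1 : 4 * p - 3 * l ^ 2 < 0 := by
    by_contra hcon
    push Not at hcon
    exact absurd hd (not_lt.2 (mul_nonneg hcon (sq_nonneg _)))
  have h2 : 3 * l ^ 2 - p ≠ 0 := by
    intro h0
    rw [h0] at hd
    norm_num at hd
  have h3 := ch0 hDt
  rw [← hp, ← hq] at h3
  set Q : M3 := D * D + l • D + (l ^ 2 - p) • (1 : M3) with hQ
  have hDQ : D * Q = l • Q := by
    have e1 : D * Q = D * D * D + l • (D * D) + (l ^ 2 - p) • D := by
      rw [hQ, mul_add, mul_add, mul_smul_comm, mul_smul_comm, mul_one, mul_assoc]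
    rw [e1, h3, hQ]
    have hq' : q = l ^ 3 - p * l := by linarith
    rw [hq']
    module
  set E : M3 := (3 * l ^ 2 - p)⁻¹ • Q with hE
  have hQc : Q ∈ cen W := (cen W).add_mem ((cen W).add_mem (mul_mem_cen hDc hDc)
    ((cen W).smul_mem _ hDc)) ((cen W).smul_mem _ (one_mem_cen W))
  have hEc : E ∈ cen W := (cen W).smul_mem _ hQc
  have hQQ : Q * Q = (3 * l ^ 2 - p) • Q := by
    have e1 : Q * Q = D * (D * Q) + l • (D * Q) + (l ^ 2 - p) • Q := by
      nth_rewrite 1 [hQ]
      rw [add_mul, add_mul, smul_mul_assoc, smul_mul_assoc, one_mul, mul_assoc]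
    rw [e1, hDQ, mul_smul_comm, hDQ]
    module
  have hEE : E * E = E := by
    rw [hE, smul_mul_assoc, mul_smul_comm, hQQ, smul_smul, smul_smul]
    congr 1
    field_simp
  have hEt : E.trace = 1 := by
    rw [hE, Matrix.trace_smul, hQ, Matrix.trace_add, Matrix.trace_add, Matrix.trace_smul,
      Matrix.trace_smul, hDt, hp2, Matrix.trace_one]
    simp only [smul_eq_mul, Fintype.card_fin]
    have : 2 * p + l * 0 + (l ^ 2 - p) * ((3 : ℕ) : ℝ) = 3 * l ^ 2 - p := by push_cast; ring
    rw [this, inv_mul_cancel₀ h2]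
  have hset : ∀ v : V3, (∀ A ∈ cen W, Par A v) ↔ v ∈ fixv E := by
    intro v
    constructor
    · intro hv
      by_cases hv0 : v = 0
      · rw [hv0]
        exact (fixv E).zero_mem
      · obtain ⟨m, hm⟩ := par_iff.1 (hv D hDc)
        have h4 := eig_cubic hDt hv0 hm
        rw [← hp, ← hq] at h4
        have h5 : (m - l) * (m ^ 2 + l * m + l ^ 2 - p) = 0 := by
          have : (m - l) * (m ^ 2 + l * m + l ^ 2 - p) = (m ^ 3 - p * m) - (l ^ 3 - p * l) := by
            ring
          rw [this, h4, hl]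
          ring
        have h6 : m ^ 2 + l * m + l ^ 2 - p ≠ 0 := by
          have : 0 < m ^ 2 + l * m + l ^ 2 - p := by nlinarith [sq_nonneg (m + l / 2)]
          exact this.ne'
        have h7 : m = l := by
          have := (mul_eq_zero.1 h5).resolve_right h6
          linarith
        rw [mem_fixv, hE, Matrix.smul_mulVec, hQ, Matrix.add_mulVec, Matrix.add_mulVec,
          Matrix.smul_mulVec, Matrix.smul_mulVec, Matrix.one_mulVec, ← Matrix.mulVec_mulVec,
          hm, Matrix.mulVec_smul, hm, h7, smul_smul, ← add_smul, ← add_smul, smul_smul]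
        have : (3 * l ^ 2 - p)⁻¹ * (l * l + l * l + (l ^ 2 - p)) = 1 := by
          rw [← inv_mul_cancel₀ h2]
          ring
        rw [this, one_smul]
    · intro hv A hA
      exact par_of_fix hEc hEE hEt (mem_fixv.1 hv) hA
  have hLn : Ln W = fixv E := by
    have : {v : V3 | ∀ A ∈ cen W, Par A v} = (fixv E : Set V3) := by
      ext v
      exact hset v
    rw [Ln, this, Submodule.span_eq]
  rw [hLn]
  exact ⟨fun v => (hset v).symm, finrank_fixv hEE hEt⟩

/-- With zero radical and centre of dimension at least three, if no element has negative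
discriminant then some element has positive discriminant. -/
lemma exists_dsc_pos {W : Submodule ℝ M3} (hr : rd W = ⊥) (h : 3 ≤ finrank ℝ (cen W))
    (hs : ∀ A ∈ cen W, 0 ≤ dsc A) : ∃ A ∈ cen W, 0 < dsc A := by
  by_contra hcon
  push Not at hcon
  have hz : ∀ A ∈ cen W, dsc A = 0 := fun A hA => le_antisymm (hcon A hA) (hs A hA)
  obtain ⟨D, hDc, hDt, hD0⟩ := exists_tz_ne_zero (by omega : 2 ≤ finrank ℝ (cen W))
  have hd := hz D hDc
  rw [dsc_of_trace hDt] at hd
  set p : ℝ := (D * D).trace / 2 with hp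
  set q : ℝ := D.det with hq
  have hp2 : (D * D).trace = 2 * p := by rw [hp]; ring
  obtain ⟨l, hl⟩ := exists_root p q
  rw [hp2, disc_identity hl] at hd
  obtain ⟨m, hm1, hm2⟩ : ∃ m : ℝ, 3 * m ^ 2 = p ∧ q = -2 * m ^ 3 := by
    rcases mul_eq_zero.1 hd with h1 | h1
    · refine ⟨-l / 2, by nlinarith, ?_⟩
      have hp' : p = 3 * l ^ 2 / 4 := by linarith
      have hq' : q = l ^ 3 - p * l := by linarith
      rw [hq', hp']
      ring
    · have h2 := pow_eq_zero_iff (two_ne_zero) |>.1 h1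
      refine ⟨l, by linarith, ?_⟩
      have hp' : p = 3 * l ^ 2 := by linarith
      have hq' : q = l ^ 3 - p * l := by linarith
      rw [hq', hp']
      ring
  have h3 := ch0 hDt
  rw [← hp, ← hq, hm2, ← hm1] at h3
  set N : M3 := (D - m • (1 : M3)) * (D + (2 * m) • (1 : M3)) with hN
  have hNe : N = D * D + m • D - (2 * m ^ 2) • (1 : M3) := by
    rw [hN, sub_mul, mul_add, mul_add, smul_mul_assoc, smul_mul_assoc, one_mul, one_mul,
      mul_smul_comm, mul_one]
    module
  have hNc : N ∈ cen W := by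
    refine mul_mem_cen ((cen W).sub_mem hDc ((cen W).smul_mem _ (one_mem_cen W)))
      ((cen W).add_mem hDc ((cen W).smul_mem _ (one_mem_cen W)))
  have hDN : D * N = m • N := by
    have e1 : D * N = D * D * D + m • (D * D) - (2 * m ^ 2) • D := by
      rw [hNe, mul_sub, mul_add, mul_smul_comm, mul_smul_comm, mul_one, mul_assoc]
    rw [e1, h3, hNe]
    module
  have hNN : N * N = 0 := by
    have e1 : N * N = D * (D * N) + m • (D * N) - (2 * m ^ 2) • N := by
      nth_rewrite 1 [hNe]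
      rw [sub_mul, add_mul, smul_mul_assoc, smul_mul_assoc, one_mul, mul_assoc]
    rw [e1, hDN, mul_smul_comm, hDN]
    module
  have hN0 : N = 0 := cen_nilp hr hNc (by rw [hNN, zero_mul])
  have hDD : D * D = (2 * m ^ 2) • (1 : M3) - m • D := by
    have : D * D = N + (2 * m ^ 2) • (1 : M3) - m • D := by rw [hNe]; module
    rw [this, hN0, zero_add]
  have hm0 : m ≠ 0 := by
    rintro rfl
    apply hD0
    apply cen_nilp hr hDc
    rw [hDD]
    simp
  set E : M3 := (-1 / (3 * m)) • (D - m • (1 : M3)) with hE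
  have hEE : E * E = E := by
    rw [hE, smul_mul_assoc, mul_smul_comm, sub_mul, mul_sub, mul_sub, hDD]
    simp only [smul_mul_assoc, mul_smul_comm, one_mul, mul_one, smul_sub, smul_smul]
    match_scalars <;> field_simp <;> ring
  have hEt : E.trace = 1 := by
    rw [hE, Matrix.trace_smul, Matrix.trace_sub, Matrix.trace_smul, hDt, Matrix.trace_one]
    simp
    field_simp
  have hEc : E ∈ cen W :=
    (cen W).smul_mem _ ((cen W).sub_mem hDc ((cen W).smul_mem _ (one_mem_cen W)))
  clear_value E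
  obtain ⟨B, hB, hBn⟩ : ∃ B ∈ cen W, B ∉ Submodule.span ℝ (Set.range ![(1 : M3), E]) := by
    by_contra hcon2
    push Not at hcon2
    have hle : cen W ≤ Submodule.span ℝ (Set.range ![(1 : M3), E]) := hcon2
    have h1 := Submodule.finrank_mono hle
    have h2 := finrank_range_le_card (R := ℝ) ![(1 : M3), E]
    rw [Set.finrank] at h2
    simp only [Fintype.card_fin] at h2
    omega
  obtain ⟨v, hv, hv0⟩ : ∃ v ∈ fixv E, v ≠ 0 := by
    refine Submodule.exists_mem_ne_zero_of_ne_bot fun h0 => ?_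
    have := finrank_fixv hEE hEt
    rw [h0, finrank_bot] at this
    exact absurd this (by norm_num)
  obtain ⟨x, hx⟩ := par_iff.1 (par_of_fix hEc hEE hEt (mem_fixv.1 hv) hB)
  have hBE : B * E = x • E := by
    have h1 : ∀ w : V3, B *ᵥ (E *ᵥ w) = x • (E *ᵥ w) := by
      intro w
      have h2 : E *ᵥ w ∈ fixv E := by rw [mem_fixv, Matrix.mulVec_mulVec, hEE]
      obtain ⟨c, hc⟩ := exists_smul_of_finrank_one (finrank_fixv hEE hEt) hv hv0 h2
      rw [hc, Matrix.mulVec_smul, hx, smul_comm]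
    ext i j
    have h3 := congrFun (h1 (Pi.single j 1)) i
    rw [Matrix.mulVec_mulVec] at h3
    simpa [Matrix.mulVec_single] using h3
  set M : M3 := B - x • E - ((B.trace - x) / 2) • (1 - E) with hM
  have hMc : M ∈ cen W := (cen W).sub_mem ((cen W).sub_mem hB ((cen W).smul_mem _ hEc))
    ((cen W).smul_mem _ ((cen W).sub_mem (one_mem_cen W) hEc))
  have hMt : M.trace = 0 := by
    rw [hM, Matrix.trace_sub, Matrix.trace_sub, Matrix.trace_smul, Matrix.trace_smul,
      Matrix.trace_sub, Matrix.trace_one, hEt]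
    simp only [smul_eq_mul, Fintype.card_fin]
    push_cast
    ring
  have hMdet : M.det = 0 := by
    refine Matrix.exists_mulVec_eq_zero_iff.1 ⟨v, hv0, ?_⟩
    rw [hM, Matrix.sub_mulVec, Matrix.sub_mulVec, Matrix.smul_mulVec, Matrix.smul_mulVec,
      Matrix.sub_mulVec, Matrix.one_mulVec, mem_fixv.1 hv, hx]
    simp
  have hM0 : M ≠ 0 := by
    intro h0
    apply hBn
    have : B = ((B.trace - x) / 2) • (1 : M3) + (x - (B.trace - x) / 2) • E := by
      have e1 : B = M + (((B.trace - x) / 2) • (1 : M3) + (x - (B.trace - x) / 2) • E) := by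
        rw [hM]; module
      rw [h0, zero_add] at e1
      exact e1
    rw [this]
    refine Submodule.add_mem _ (Submodule.smul_mem _ _ (Submodule.subset_span ⟨0, rfl⟩))
      (Submodule.smul_mem _ _ (Submodule.subset_span ⟨1, rfl⟩))
  have hMd := hz M hMc
  rw [dsc_of_trace hMt, hMdet] at hMd
  have hMp : (M * M).trace = 0 := by
    have : (M * M).trace ^ 3 = 0 := by linarith
    exact pow_eq_zero_iff (three_ne_zero) |>.1 this
  have h4 := ch0 hMt
  rw [hMp, hMdet] at h4
  apply hM0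
  apply cen_nilp hr hMc
  rw [h4]
  simp

end Pool.Agent.Lib.MP_aa9b81_an
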