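import Mathlib

/-!
Irreducible Lie algebras of trace-free complex 3 by 3 matrices: definitions, conjugation, and
existence of nilpotent elements.
-/

set_option autoImplicit false
set_option linter.unusedSectionVars false

open Matrix Module

namespace Pool.Agent.Lib.MP_aa9b81_an

/-- Complex 3 by 3 matrices. -/
abbrev MC : Type := Matrix (Fin 3) (Fin 3) ℂ

/-- Complex column vectors. -/
abbrev VC : Type := Fin 3 → ℂ

/-- Spaces of trace-free complex matrices closed under brackets, without common eigenvectors or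
eigencovectors. -/
structure Irr (h : Submodule ℂ MC) : Prop where
  br : ∀ A ∈ h, ∀ B ∈ h, A * B - B * A ∈ h
  tr : ∀ A ∈ h, A.trace = 0
  ev : ∀ v : VC, v ≠ 0 → ∃ A ∈ h, ∀ c : ℂ, A *ᵥ v ≠ c • v
  ef : ∀ f : VC, f ≠ 0 → ∃ A ∈ h, ∀ c : ℂ, f ᵥ* A ≠ c • f

lemma cch3 (A : MC) : A * A * A = A.trace • (A * A) - ((A.trace ^ 2 - (A * A).trace) / 2) • A +
    A.det • (1 : MC) := by
  ext i j
  fin_cases i <;> fin_cases j <;>
    simp [Matrix.det_fin_three, Matrix.trace_fin_three, Matrix.mul_apply, Fin.sum_univ_three] <;>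
    ring

lemma cdet3 (A : MC) :
    A.det = (A.trace ^ 3 - 3 * A.trace * (A * A).trace + 2 * (A * A * A).trace) / 6 := by
  simp [Matrix.det_fin_three, Matrix.trace_fin_three, Matrix.mul_apply, Fin.sum_univ_three]
  ring

lemma ccube_eq_zero {A : MC} (h1 : A.trace = 0) (h2 : (A * A).trace = 0)
    (h3 : (A * A * A).trace = 0) : A * A * A = 0 := by
  have h := cch3 A
  rw [cdet3, h1, h2, h3] at h
  simpa using h

/-- Conjugation. -/
def cc (P Q : MC) (A : MC) : MC := Q * A * P

/-- The conjugate space, `Q` being the inverse of `P`. -/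
def hc (P Q : MC) (h : Submodule ℂ MC) : Submodule ℂ MC where
  carrier := {A | P * A * Q ∈ h}
  zero_mem' := by simp
  add_mem' := fun {A B} hA hB => by
    change P * (A + B) * Q ∈ h
    rw [mul_add, add_mul]
    exact h.add_mem hA hB
  smul_mem' := fun c A hA => by
    change P * (c • A) * Q ∈ h
    rw [mul_smul_comm, smul_mul_assoc]
    exact h.smul_mem c hA

lemma mem_hc {P Q : MC} {h : Submodule ℂ MC} {A : MC} : A ∈ hc P Q h ↔ P * A * Q ∈ h := Iff.rfl

lemma mem_hc' {P Q : MC} (hPQ : P * Q = 1) {h : Submodule ℂ MC} {A : MC} :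
    Q * A * P ∈ hc P Q h ↔ A ∈ h := by
  rw [mem_hc]
  have : P * (Q * A * P) * Q = A := by
    calc P * (Q * A * P) * Q = (P * Q) * A * (P * Q) := by noncomm_ring
      _ = A := by rw [hPQ, one_mul, mul_one]
  rw [this]

lemma Irr.hc {P Q : MC} (hPQ : P * Q = 1) {h : Submodule ℂ MC} (H : Irr h) :
    Irr (MP_aa9b81_an.hc P Q h) := by
  have hQP : Q * P = 1 := mul_eq_one_comm.1 hPQ
  constructor
  · intro A hA B hB
    rw [mem_hc] at *
    have : P * (A * B - B * A) * Q = (P * A * Q) * (P * B * Q) - (P * B * Q) * (P * A * Q) := by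
      have e1 : (P * A * Q) * (P * B * Q) = P * A * (Q * P) * B * Q := by noncomm_ring
      have e2 : (P * B * Q) * (P * A * Q) = P * B * (Q * P) * A * Q := by noncomm_ring
      rw [e1, e2, hQP]
      noncomm_ring
    rw [this]
    exact H.br _ hA _ hB
  · intro A hA
    have h1 := H.tr _ hA
    rw [Matrix.trace_mul_cycle, hQP, one_mul] at h1
    exact h1
  · intro v hv
    have hPv : P *ᵥ v ≠ 0 := by
      intro h0
      apply hv
      have : Q *ᵥ (P *ᵥ v) = Q *ᵥ 0 := by rw [h0]
      rwa [Matrix.mulVec_mulVec, hQP, Matrix.one_mulVec, Matrix.mulVec_zero] at this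
    obtain ⟨A, hA, hAc⟩ := H.ev _ hPv
    refine ⟨Q * A * P, (mem_hc' hPQ).2 hA, fun c hc => hAc c ?_⟩
    have : P *ᵥ ((Q * A * P) *ᵥ v) = P *ᵥ (c • v) := by rw [hc]
    rw [Matrix.mulVec_mulVec, Matrix.mulVec_smul] at this
    rw [← this, Matrix.mulVec_mulVec]
    congr 1
    calc A * P = (P * Q) * A * P := by rw [hPQ, one_mul]
      _ = P * (Q * A * P) := by noncomm_ring
  · intro f hf
    have hfQ : f ᵥ* Q ≠ 0 := by
      intro h0
      apply hf
      have : (f ᵥ* Q) ᵥ* P = 0 ᵥ* P := by rw [h0]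
      rwa [Matrix.vecMul_vecMul, hQP, Matrix.vecMul_one, Matrix.zero_vecMul] at this
    obtain ⟨A, hA, hAc⟩ := H.ef _ hfQ
    refine ⟨Q * A * P, (mem_hc' hPQ).2 hA, fun c hc => hAc c ?_⟩
    have : (f ᵥ* (Q * A * P)) ᵥ* Q = (c • f) ᵥ* Q := by rw [hc]
    rw [Matrix.vecMul_vecMul, Matrix.smul_vecMul] at this
    rw [← this, Matrix.vecMul_vecMul]
    congr 1
    calc Q * A = Q * A * (P * Q) := by rw [hPQ, mul_one]
      _ = (Q * A * P) * Q := by noncomm_ring

/-- An irreducible Lie algebra is not abelian. -/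
lemma Irr.nonabelian {h : Submodule ℂ MC} (H : Irr h) : ∃ X ∈ h, ∃ Y ∈ h, X * Y - Y * X ≠ 0 := by
  by_contra hcon
  push Not at hcon
  have hcomm : ∀ X ∈ h, ∀ Y ∈ h, X * Y = Y * X := fun X hX Y hY => sub_eq_zero.1 (hcon X hX Y hY)
  obtain ⟨A, hA, hAc⟩ := H.ev (Pi.single 0 1) (by
    intro h0
    have := congrFun h0 0
    simp at this)
  obtain ⟨l, hl⟩ := Module.End.exists_eigenvalue (Matrix.toLin' A)
  set N : MC := A - l • (1 : MC) with hN
  have hNcomm : ∀ B ∈ h, N * B = B * N := by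
    intro B hB
    rw [hN, sub_mul, mul_sub, hcomm A hA B hB, smul_mul_assoc, mul_smul_comm, one_mul, mul_one]
  have hN0 : N ≠ 0 := by
    intro h0
    have h1 : A = l • (1 : MC) := sub_eq_zero.1 h0
    exact hAc l (by rw [h1, Matrix.smul_mulVec, Matrix.one_mulVec])
  have hline : ∀ U : Submodule ℂ VC, finrank ℂ U = 1 →
      (∀ B ∈ h, ∀ v ∈ U, B *ᵥ v ∈ U) → False := by
    intro U hU hUi
    have hUb : U ≠ ⊥ := by
      intro h0
      rw [h0, finrank_bot] at hU
      exact absurd hU (by norm_num)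
    obtain ⟨v, hv, hv0⟩ := Submodule.exists_mem_ne_zero_of_ne_bot hUb
    obtain ⟨B, hB, hBc⟩ := H.ev v hv0
    have h1 := (finrank_eq_one_iff_of_nonzero' (⟨v, hv⟩ : U) (fun h0 => hv0 (by
      exact congrArg Subtype.val h0))).1 hU ⟨B *ᵥ v, hUi B hB v hv⟩
    obtain ⟨c, hc⟩ := h1
    exact hBc c (congrArg Subtype.val hc).symm
  have hrn := LinearMap.finrank_range_add_finrank_ker (Matrix.toLin' N)
  have h3 : finrank ℂ VC = 3 := by simp
  have hker : finrank ℂ (LinearMap.ker (Matrix.toLin' N)) ≠ 0 := by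
    intro h0
    obtain ⟨v, hv⟩ := hl.exists_hasEigenvector
    have hv1 := hv.1
    rw [Module.End.mem_eigenspace_iff, Matrix.toLin'_apply] at hv1
    have h1 : v ∈ LinearMap.ker (Matrix.toLin' N) := by
      rw [LinearMap.mem_ker, Matrix.toLin'_apply, hN, Matrix.sub_mulVec, Matrix.smul_mulVec,
        Matrix.one_mulVec, hv1, sub_self]
    rw [Submodule.finrank_eq_zero.1 h0] at h1
    exact hv.2 h1
  have hran : finrank ℂ (LinearMap.range (Matrix.toLin' N)) ≠ 0 := by
    intro h0
    apply hN0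
    have h1 := Submodule.finrank_eq_zero.1 h0
    rw [LinearMap.range_eq_bot] at h1
    exact (Matrix.toLin' (R := ℂ)).map_eq_zero_iff.1 h1
  have hsum : finrank ℂ (LinearMap.range (Matrix.toLin' N)) +
      finrank ℂ (LinearMap.ker (Matrix.toLin' N)) = 3 := hrn.trans h3
  have hcase : finrank ℂ (LinearMap.range (Matrix.toLin' N)) = 1 ∨
      finrank ℂ (LinearMap.ker (Matrix.toLin' N)) = 1 := by omega
  rcases hcase with hr | hk
  · refine hline _ hr fun B hB v hv => ?_
    obtain ⟨w, rfl⟩ := hv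
    refine ⟨B *ᵥ w, ?_⟩
    rw [Matrix.toLin'_apply, Matrix.toLin'_apply, Matrix.mulVec_mulVec, Matrix.mulVec_mulVec,
      hNcomm B hB]
  · refine hline _ hk fun B hB v hv => ?_
    rw [LinearMap.mem_ker, Matrix.toLin'_apply] at hv ⊢
    rw [Matrix.mulVec_mulVec, hNcomm B hB, ← Matrix.mulVec_mulVec, hv, Matrix.mulVec_zero]

/-- A nonzero operator has an eigenvector in its range. -/
lemma exists_eig_range {V : Type*} [AddCommGroup V] [Module ℂ V] [FiniteDimensional ℂ V]
    (T : V →ₗ[ℂ] V) (hT : T ≠ 0) : ∃ (W : V) (m : ℂ), T W ≠ 0 ∧ T (T W) = m • T W := by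
  have hR : LinearMap.range T ≠ ⊥ := fun h => hT (LinearMap.range_eq_bot.1 h)
  have hnt : Nontrivial (LinearMap.range T) := Submodule.nontrivial_iff_ne_bot.2 hR
  let T' : Module.End ℂ (LinearMap.range T) :=
    T.restrict (p := LinearMap.range T) (q := LinearMap.range T) (fun x _ => ⟨x, rfl⟩)
  obtain ⟨m, hm⟩ := Module.End.exists_eigenvalue T'
  obtain ⟨⟨Z, W, hW⟩, hZ1, hZ2⟩ := hm.exists_hasEigenvector
  rw [Module.End.mem_eigenspace_iff] at hZ1
  refine ⟨W, m, ?_, ?_⟩
  · intro h0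
    apply hZ2
    apply Subtype.ext
    exact hW.symm.trans h0
  · have := congrArg Subtype.val hZ1
    rw [hW]
    exact this

/-- Existence of a nonzero nilpotent element. -/
lemma Irr.exists_nilp {h : Submodule ℂ MC} (H : Irr h) : ∃ N ∈ h, N ≠ 0 ∧ N * N * N = 0 := by
  obtain ⟨X, hX, Y, hY, hXY⟩ := H.nonabelian
  let T : h →ₗ[ℂ] h :=
    { toFun := fun A => ⟨X * A - A * X, H.br X hX A A.2⟩
      map_add' := fun A B => by
        apply Subtype.ext
        simp only [Submodule.coe_add]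
        noncomm_ring
      map_smul' := fun c A => by
        apply Subtype.ext
        simp only [Submodule.coe_smul, RingHom.id_apply, mul_smul_comm, smul_mul_assoc, smul_sub] }
  have hT0 : T ≠ 0 := by
    intro h0
    apply hXY
    have h1 : T ⟨Y, hY⟩ = 0 := by rw [h0]; rfl
    exact congrArg Subtype.val h1
  obtain ⟨W, m, h1, h2⟩ := exists_eig_range T hT0
  set Z : MC := X * (W : MC) - (W : MC) * X with hZ
  have hZh : Z ∈ h := H.br X hX W W.2
  have hZ0 : Z ≠ 0 := fun h0 => h1 (Subtype.ext h0)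
  have hXZ : X * Z - Z * X = m • Z := congrArg Subtype.val h2
  refine ⟨Z, hZh, hZ0, ?_⟩
  by_cases hm : m = 0
  · rw [hm, zero_smul, sub_eq_zero] at hXZ
    have t2 : (Z * Z).trace = 0 := by
      have e1 : Z * Z = X * ((W : MC) * Z) - (W : MC) * (X * Z) := by
        nth_rewrite 1 [hZ]
        noncomm_ring
      have e2 : ((W : MC) * (X * Z)).trace = (X * ((W : MC) * Z)).trace := by
        rw [hXZ, ← mul_assoc, Matrix.trace_mul_comm]
      rw [e1, Matrix.trace_sub, e2, sub_self]
    have t3 : (Z * Z * Z).trace = 0 := by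
      have e1 : Z * Z * Z = X * ((W : MC) * (Z * Z)) - (W : MC) * (X * (Z * Z)) := by
        rw [mul_assoc]
        nth_rewrite 1 [hZ]
        noncomm_ring
      have e3 : X * (Z * Z) = Z * Z * X := by
        rw [← mul_assoc, hXZ, mul_assoc, hXZ, ← mul_assoc]
      have e2 : ((W : MC) * (X * (Z * Z))).trace = (X * ((W : MC) * (Z * Z))).trace := by
        rw [e3, ← mul_assoc (W : MC), Matrix.trace_mul_comm]
      rw [e1, Matrix.trace_sub, e2, sub_self]
    exact ccube_eq_zero (H.tr _ hZh) t2 t3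
  · have t2 : (Z * Z).trace = 0 := by
      have e1 : m • (Z * Z) = X * Z * Z - Z * X * Z := by
        rw [← smul_mul_assoc, ← hXZ]
        noncomm_ring
      have e2 : (m • (Z * Z)).trace = 0 := by
        rw [e1, Matrix.trace_sub, Matrix.trace_mul_cycle Z X Z, mul_assoc, Matrix.trace_mul_comm X,
          mul_assoc, Matrix.trace_mul_comm Z (Z * X), sub_self]
      rw [Matrix.trace_smul, smul_eq_mul] at e2
      exact (mul_eq_zero.1 e2).resolve_left hm
    have t3 : (Z * Z * Z).trace = 0 := by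
      have e1 : m • (Z * Z * Z) = X * (Z * Z * Z) - Z * (X * Z * Z) := by
        rw [← smul_mul_assoc, ← smul_mul_assoc, ← hXZ]
        noncomm_ring
      have e2 : (m • (Z * Z * Z)).trace = 0 := by
        have e3 : (Z * (X * Z * Z)).trace = (X * (Z * Z * Z)).trace := by
          rw [Matrix.trace_mul_comm]
          congr 1
          noncomm_ring
        rw [e1, Matrix.trace_sub, e3, sub_self]
      rw [Matrix.trace_smul, smul_eq_mul] at e2
      exact (mul_eq_zero.1 e2).resolve_left hm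
    exact ccube_eq_zero (H.tr _ hZh) t2 t3

end Pool.Agent.Lib.MP_aa9b81_an
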