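import Mathlib
import Pool.Agent.Lib.MP_aa9b81_an.CIrr

/-!
An irreducible Lie algebra of trace-free complex 3 by 3 matrices that contains a nonzero element
of square zero contains all trace-free matrices.
-/

set_option autoImplicit false
set_option linter.unusedSectionVars false

open Matrix Module

namespace Pool.Agent.Lib.MP_aa9b81_an

/-- The matrix with given entries. -/
def mk9 (a b c d e f g h i : ℂ) : MC := !![a, b, c; d, e, f; g, h, i]

lemma mk9_ext {A B : MC} (h00 : A 0 0 = B 0 0) (h01 : A 0 1 = B 0 1) (h02 : A 0 2 = B 0 2)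
    (h10 : A 1 0 = B 1 0) (h11 : A 1 1 = B 1 1) (h12 : A 1 2 = B 1 2)
    (h20 : A 2 0 = B 2 0) (h21 : A 2 1 = B 2 1) (h22 : A 2 2 = B 2 2) : A = B := by
  ext i j
  fin_cases i <;> fin_cases j <;> assumption

lemma eta9 (A : MC) :
    A = mk9 (A 0 0) (A 0 1) (A 0 2) (A 1 0) (A 1 1) (A 1 2) (A 2 0) (A 2 1) (A 2 2) := by
  apply mk9_ext <;> rfl

lemma mk9_mul (a b c d e f g h i a' b' c' d' e' f' g' h' i' : ℂ) :
    mk9 a b c d e f g h i * mk9 a' b' c' d' e' f' g' h' i' =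
      mk9 (a * a' + b * d' + c * g') (a * b' + b * e' + c * h') (a * c' + b * f' + c * i')
        (d * a' + e * d' + f * g') (d * b' + e * e' + f * h') (d * c' + e * f' + f * i')
        (g * a' + h * d' + i * g') (g * b' + h * e' + i * h') (g * c' + h * f' + i * i') := by
  ext p q
  fin_cases p <;> fin_cases q <;>
    simp [mk9, Matrix.mul_apply, Fin.sum_univ_three]

lemma mk9_add (a b c d e f g h i a' b' c' d' e' f' g' h' i' : ℂ) :
    mk9 a b c d e f g h i + mk9 a' b' c' d' e' f' g' h' i' =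
      mk9 (a + a') (b + b') (c + c') (d + d') (e + e') (f + f') (g + g') (h + h') (i + i') := by
  ext p q
  fin_cases p <;> fin_cases q <;> rfl

lemma mk9_sub (a b c d e f g h i a' b' c' d' e' f' g' h' i' : ℂ) :
    mk9 a b c d e f g h i - mk9 a' b' c' d' e' f' g' h' i' =
      mk9 (a - a') (b - b') (c - c') (d - d') (e - e') (f - f') (g - g') (h - h') (i - i') := by
  ext p q
  fin_cases p <;> fin_cases q <;> rfl

lemma mk9_smul (t a b c d e f g h i : ℂ) :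
    t • mk9 a b c d e f g h i =
      mk9 (t * a) (t * b) (t * c) (t * d) (t * e) (t * f) (t * g) (t * h) (t * i) := by
  ext p q
  fin_cases p <;> fin_cases q <;> rfl

lemma mk9_one : (1 : MC) = mk9 1 0 0 0 1 0 0 0 1 := by
  ext p q
  fin_cases p <;> fin_cases q <;> rfl

lemma trace9 (A : MC) : A.trace = A 0 0 + A 1 1 + A 2 2 := Matrix.trace_fin_three A

/-- The final step: explicit brackets. -/
lemma all_of_grading {h : Submodule ℂ MC} (H : Irr h) (hE : mk9 0 0 1 0 0 0 0 0 0 ∈ h)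
    (hH : mk9 (-1) 0 0 0 0 0 0 0 1 ∈ h) {X : MC} (hX : X ∈ h) (hX20 : X 2 0 ≠ 0)
    {M : MC} (hM : M.trace = 0) : M ∈ h := by
  -- weight components
  have E : ∀ a b c d e f g k i : ℂ, mk9 a b c d e f g k i ∈ h →
      mk9 0 (-b) (-2 * c) d 0 (-f) (2 * g) k 0 ∈ h := by
    intro a b c d e f g k i hA
    have h1 := H.br _ hH _ hA
    rw [mk9_mul, mk9_mul, mk9_sub] at h1
    convert h1 using 2 <;> ring
  have E2 : ∀ A ∈ h, mk9 0 (A 0 1) (4 * A 0 2) (A 1 0) 0 (A 1 2) (4 * A 2 0) (A 2 1) 0 ∈ h := by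
    intro A hA
    rw [eta9 A] at hA
    have h1 := E _ _ _ _ _ _ _ _ _ (E _ _ _ _ _ _ _ _ _ hA)
    convert h1 using 2 <;> ring
  have E1 : ∀ A ∈ h, mk9 0 (-(A 0 1)) (-2 * A 0 2) (A 1 0) 0 (-(A 1 2)) (2 * A 2 0) (A 2 1) 0 ∈ h := by
    intro A hA
    rw [eta9 A] at hA
    exact E _ _ _ _ _ _ _ _ _ hA
  have E3 : ∀ A ∈ h, mk9 0 (-(A 0 1)) (-8 * A 0 2) (A 1 0) 0 (-(A 1 2)) (8 * A 2 0) (A 2 1) 0 ∈ h := by
    intro A hA
    have h1 := E _ _ _ _ _ _ _ _ _ (E2 A hA)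
    convert h1 using 2 <;> ring
  have hF : mk9 0 0 0 0 0 0 1 0 0 ∈ h := by
    have h1 := h.sub_mem (E3 X hX) (E1 X hX)
    have h2 := h.sub_mem (h.smul_mem (2 : ℂ) (h.sub_mem (E _ _ _ _ _ _ _ _ _ (E3 X hX)) (E2 X hX)))
      (h.smul_mem (-4 : ℂ) h1)
    have h3 := h.smul_mem ((48 * X 2 0)⁻¹) h2
    simp only [mk9_sub, mk9_smul] at h3
    convert h3 using 2 <;> field_simp <;> ring
  have hw : ∀ A ∈ h, mk9 0 (A 0 1) 0 0 0 (A 1 2) 0 0 0 ∈ h := by
    intro A hA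
    have h1 := h.sub_mem (h.smul_mem (4 : ℂ) (E1 A hA)) (E3 A hA)
    have h2 := h.sub_mem (h.smul_mem (4 : ℂ) (E2 A hA)) (E _ _ _ _ _ _ _ _ _ (E3 A hA))
    have h3 := h.smul_mem ((6 : ℂ)⁻¹) (h.sub_mem h2 h1)
    simp only [mk9_sub, mk9_smul] at h3
    convert h3 using 2 <;> ring
  have hw' : ∀ A ∈ h, mk9 0 0 0 (A 1 0) 0 0 0 (A 2 1) 0 ∈ h := by
    intro A hA
    have h1 := h.sub_mem (h.smul_mem (4 : ℂ) (E1 A hA)) (E3 A hA)
    have h2 := h.sub_mem (h.smul_mem (4 : ℂ) (E2 A hA)) (E _ _ _ _ _ _ _ _ _ (E3 A hA))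
    have h3 := h.smul_mem ((6 : ℂ)⁻¹) (h.add_mem h2 h1)
    simp only [mk9_sub, mk9_add, mk9_smul] at h3
    convert h3 using 2 <;> ring
  -- transport from weight 1 to weight -1
  have hw'' : ∀ A ∈ h, mk9 0 (A 2 1) 0 0 0 (-(A 1 0)) 0 0 0 ∈ h := by
    intro A hA
    have h1 := H.br _ hE _ (hw' A hA)
    simp only [mk9_mul, mk9_sub] at h1
    convert h1 using 1
    apply mk9_ext <;> simp [mk9]
  obtain ⟨a, b, hab, ha⟩ : ∃ a b : ℂ, mk9 0 a 0 0 0 b 0 0 0 ∈ h ∧ a ≠ 0 := by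
    by_contra hcon
    push Not at hcon
    obtain ⟨A, hA, hAc⟩ := H.ev (Pi.single 1 1) (by
      intro h0
      have := congrFun h0 1
      simp at this)
    apply hAc (A 1 1)
    have h1 := hcon _ _ (hw A hA)
    have h2 := hcon _ _ (hw'' A hA)
    ext i
    fin_cases i <;> simp [h1, h2]
  obtain ⟨a', b', hab', hb'⟩ : ∃ a b : ℂ, mk9 0 a 0 0 0 b 0 0 0 ∈ h ∧ b ≠ 0 := by
    by_contra hcon
    push Not at hcon
    obtain ⟨A, hA, hAc⟩ := H.ef (Pi.single 1 1) (by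
      intro h0
      have := congrFun h0 1
      simp at this)
    apply hAc (A 1 1)
    have h1 := hcon _ _ (hw A hA)
    have h2 := hcon _ _ (hw'' A hA)
    have h3 : A 1 0 = 0 := by simpa using h2
    ext i
    fin_cases i <;> simp [h1, h3]
  have key : ∀ a b : ℂ, mk9 0 a 0 0 0 b 0 0 0 ∈ h → a ≠ 0 → b ≠ 0 →
      mk9 0 1 0 0 0 0 0 0 0 ∈ h ∧ mk9 0 0 0 0 0 1 0 0 0 ∈ h := by
    intro a b hab ha hb
    have h1 := H.br _ hF _ hab
    have h2 := H.br _ hab _ h1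
    have h3 := H.br _ h2 _ hab
    have h4 := h.add_mem (h.smul_mem (-(6 * a ^ 2 * b)⁻¹) h3) (h.smul_mem ((2 * a)⁻¹) hab)
    have h5 := h.add_mem (h.smul_mem ((6 * a * b ^ 2)⁻¹) h3) (h.smul_mem ((2 * b)⁻¹) hab)
    simp only [mk9_mul, mk9_sub, mk9_add, mk9_smul] at h4 h5
    constructor
    · convert h4 using 1
      apply mk9_ext <;> simp [mk9] <;> field_simp <;> ring
    · convert h5 using 1
      apply mk9_ext <;> simp [mk9] <;> field_simp <;> ring
  have hboth : mk9 0 1 0 0 0 0 0 0 0 ∈ h ∧ mk9 0 0 0 0 0 1 0 0 0 ∈ h := by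
    by_cases hb : b = 0
    · have h1 : mk9 0 1 0 0 0 0 0 0 0 ∈ h := by
        have h2 := h.smul_mem a⁻¹ hab
        rw [mk9_smul, hb] at h2
        convert h2 using 1
        apply mk9_ext <;> simp [mk9, ha]
      refine ⟨h1, ?_⟩
      have h2 := h.smul_mem b'⁻¹ (h.sub_mem hab' (h.smul_mem a' h1))
      simp only [mk9_sub, mk9_smul] at h2
      convert h2 using 1
      apply mk9_ext <;> simp [mk9, hb']
    · exact key a b hab ha hb
  obtain ⟨h01, h12⟩ := hboth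
  have h21 : mk9 0 0 0 0 0 0 0 1 0 ∈ h := by
    have h1 := H.br _ hF _ h01
    simp only [mk9_mul, mk9_sub] at h1
    convert h1 using 1
    apply mk9_ext <;> simp [mk9]
  have h10 : mk9 0 0 0 1 0 0 0 0 0 ∈ h := by
    have h1 := H.br _ h12 _ hF
    simp only [mk9_mul, mk9_sub] at h1
    convert h1 using 1
    apply mk9_ext <;> simp [mk9]
  have hd1 : mk9 1 0 0 0 (-1) 0 0 0 0 ∈ h := by
    have h1 := H.br _ h01 _ h10
    simp only [mk9_mul, mk9_sub] at h1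
    convert h1 using 1
    apply mk9_ext <;> simp [mk9]
  have hd2 : mk9 0 0 0 0 1 0 0 0 (-1) ∈ h := by
    have h1 := H.br _ h12 _ h21
    simp only [mk9_mul, mk9_sub] at h1
    convert h1 using 1
    apply mk9_ext <;> simp [mk9]
  rw [trace9] at hM
  have h22 : M 2 2 = -(M 0 0) - M 1 1 := by linear_combination hM
  have hsum := h.add_mem (h.add_mem (h.add_mem (h.add_mem (h.smul_mem (M 0 1) h01)
    (h.smul_mem (M 0 2) hE)) (h.add_mem (h.smul_mem (M 1 0) h10) (h.smul_mem (M 1 2) h12)))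
    (h.add_mem (h.smul_mem (M 2 0) hF) (h.smul_mem (M 2 1) h21)))
    (h.add_mem (h.smul_mem (M 0 0) hd1) (h.smul_mem (M 0 0 + M 1 1) hd2))
  simp only [mk9_add, mk9_smul] at hsum
  convert hsum using 1
  apply mk9_ext <;> simp [mk9, h22]
  ring

end Pool.Agent.Lib.MP_aa9b81_an
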