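import Mathlib
import Pool.Agent.Lib.MP_aa9b81_an.CTrans

/-!
Base changes and the case of a square-zero element.
-/

set_option autoImplicit false
set_option linter.unusedSectionVars false

open Matrix Module

namespace Pool.Agent.Lib.MP_aa9b81_an

/-- The complex matrix with given columns. -/
def colC (v : Fin 3 → VC) : MC := Matrix.of (fun i j => v j i)

lemma exists_inv_colC {v : Fin 3 → VC} (h : LinearIndependent ℂ v) : ∃ Q : MC, colC v * Q = 1 := by
  have h1 : IsUnit (colC v) := Matrix.linearIndependent_cols_iff_isUnit.1 h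
  obtain ⟨u, hu⟩ := h1
  exact ⟨(u⁻¹ : MCˣ), by rw [← hu]; exact Units.mul_inv u⟩

lemma mul_colC (N : MC) (v : Fin 3 → VC) : N * colC v = colC (fun i => N *ᵥ v i) := by
  ext i j
  simp [colC, Matrix.mul_apply, Matrix.mulVec, dotProduct]

lemma li3 {p q r : VC} (h : ∀ a b c : ℂ, a • p + b • q + c • r = 0 → a = 0 ∧ b = 0 ∧ c = 0) :
    LinearIndependent ℂ ![p, q, r] := by
  rw [Fintype.linearIndependent_iff]
  intro g hg i
  rw [Fin.sum_univ_three] at hg
  have h1 := h (g 0) (g 1) (g 2) (by simpa using hg)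
  fin_cases i
  · exact h1.1
  · exact h1.2.1
  · exact h1.2.2

/-- Normal form of a square-zero element. -/
lemma base_sq {N : MC} (hN : N ≠ 0) (hNN : N * N = 0) :
    ∃ P Q : MC, P * Q = 1 ∧ Q * N * P = mk9 0 0 1 0 0 0 0 0 0 := by
  obtain ⟨w, hw⟩ : ∃ w : VC, N *ᵥ w ≠ 0 := by
    by_contra hcon
    push Not at hcon
    apply hN
    ext i j
    have := congrFun (hcon (Pi.single j 1)) i
    simpa [Matrix.mulVec_single] using this
  have hrn := LinearMap.finrank_range_add_finrank_ker (Matrix.toLin' N)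
  have h3 : finrank ℂ VC = 3 := by simp
  have hsum : finrank ℂ (LinearMap.range (Matrix.toLin' N)) +
      finrank ℂ (LinearMap.ker (Matrix.toLin' N)) = 3 := hrn.trans h3
  have hle : LinearMap.range (Matrix.toLin' N) ≤ LinearMap.ker (Matrix.toLin' N) := by
    rintro _ ⟨v, rfl⟩
    rw [LinearMap.mem_ker, Matrix.toLin'_apply, Matrix.toLin'_apply, Matrix.mulVec_mulVec, hNN,
      Matrix.zero_mulVec]
  have h4 := Submodule.finrank_mono hle
  obtain ⟨q, hq, hq2⟩ : ∃ q ∈ LinearMap.ker (Matrix.toLin' N), q ∉ Submodule.span ℂ {N *ᵥ w} := by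
    by_contra hcon
    push Not at hcon
    have h5 := Submodule.finrank_mono (show LinearMap.ker (Matrix.toLin' N) ≤ _ from hcon)
    have h6 : finrank ℂ (Submodule.span ℂ {N *ᵥ w}) ≤ 1 := by
      have := finrank_span_le_card (R := ℂ) ({N *ᵥ w} : Set VC)
      simpa using this
    omega
  rw [LinearMap.mem_ker, Matrix.toLin'_apply] at hq
  have hli : LinearIndependent ℂ ![N *ᵥ w, q, w] := by
    refine li3 fun a b c habc => ?_
    have h5 : N *ᵥ (a • (N *ᵥ w) + b • q + c • w) = 0 := by rw [habc, Matrix.mulVec_zero]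
    rw [Matrix.mulVec_add, Matrix.mulVec_add, Matrix.mulVec_smul, Matrix.mulVec_smul,
      Matrix.mulVec_smul, hq, Matrix.mulVec_mulVec, hNN, Matrix.zero_mulVec, smul_zero, smul_zero,
      add_zero, zero_add] at h5
    have hc : c = 0 := (smul_eq_zero.1 h5).resolve_right hw
    rw [hc, zero_smul, add_zero] at habc
    have hb : b = 0 := by
      by_contra hb
      apply hq2
      have h6 : b • q = (-a) • (N *ᵥ w) := by
        rw [neg_smul]
        exact eq_neg_of_add_eq_zero_right habc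
      have h7 : q = (b⁻¹ * (-a)) • (N *ᵥ w) := by
        rw [mul_smul, ← h6, smul_smul, inv_mul_cancel₀ hb, one_smul]
      rw [h7]
      exact Submodule.smul_mem _ _ (Submodule.mem_span_singleton_self _)
    rw [hb, zero_smul, add_zero] at habc
    exact ⟨(smul_eq_zero.1 habc).resolve_right hw, hb, hc⟩
  obtain ⟨Q, hQ⟩ := exists_inv_colC hli
  have hQ' : Q * colC ![N *ᵥ w, q, w] = 1 := mul_eq_one_comm.1 hQ
  refine ⟨_, Q, hQ, ?_⟩
  have h5 : N * colC ![N *ᵥ w, q, w] = colC ![N *ᵥ w, q, w] * mk9 0 0 1 0 0 0 0 0 0 := by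
    rw [mul_colC]
    have hNNw : N *ᵥ (N *ᵥ w) = 0 := by rw [Matrix.mulVec_mulVec, hNN, Matrix.zero_mulVec]
    ext i j
    rw [Matrix.mul_apply, Fin.sum_univ_three]
    fin_cases j
    · simp [colC, mk9, hNNw]
    · simp [colC, mk9, hq]
    · simp [colC, mk9]
  rw [mul_assoc, h5, ← mul_assoc, hQ', one_mul]

/-- Normal form of a regular nilpotent element. -/
lemma base_reg {N : MC} (hN : N * N ≠ 0) (hNN : N * N * N = 0) :
    ∃ P Q : MC, P * Q = 1 ∧ Q * N * P = mk9 0 1 0 0 0 1 0 0 0 := by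
  obtain ⟨w, hw⟩ : ∃ w : VC, (N * N) *ᵥ w ≠ 0 := by
    by_contra hcon
    push Not at hcon
    apply hN
    ext i j
    have := congrFun (hcon (Pi.single j 1)) i
    simpa [Matrix.mulVec_single] using this
  have h3 : (N * N * N) *ᵥ w = 0 := by rw [hNN, Matrix.zero_mulVec]
  have e3 : N *ᵥ ((N * N) *ᵥ w) = 0 := by
    rw [Matrix.mulVec_mulVec, ← mul_assoc]
    exact h3
  have e2 : N *ᵥ (N *ᵥ w) = (N * N) *ᵥ w := Matrix.mulVec_mulVec _ _ _
  have hli : LinearIndependent ℂ ![(N * N) *ᵥ w, N *ᵥ w, w] := by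
    refine li3 fun a b c habc => ?_
    have h5 : (N * N) *ᵥ (a • ((N * N) *ᵥ w) + b • (N *ᵥ w) + c • w) = 0 := by
      rw [habc, Matrix.mulVec_zero]
    have e4 : (N * N) *ᵥ ((N * N) *ᵥ w) = 0 := by
      rw [← Matrix.mulVec_mulVec, e3, Matrix.mulVec_zero]
    have e5 : (N * N) *ᵥ (N *ᵥ w) = 0 := by
      rw [Matrix.mulVec_mulVec]
      exact h3
    rw [Matrix.mulVec_add, Matrix.mulVec_add, Matrix.mulVec_smul, Matrix.mulVec_smul,
      Matrix.mulVec_smul, e4, e5, smul_zero, smul_zero, add_zero, zero_add] at h5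
    have hc : c = 0 := (smul_eq_zero.1 h5).resolve_right hw
    rw [hc, zero_smul, add_zero] at habc
    have h6 : N *ᵥ (a • ((N * N) *ᵥ w) + b • (N *ᵥ w)) = 0 := by rw [habc, Matrix.mulVec_zero]
    rw [Matrix.mulVec_add, Matrix.mulVec_smul, Matrix.mulVec_smul, e3, e2, smul_zero,
      zero_add] at h6
    have hb : b = 0 := (smul_eq_zero.1 h6).resolve_right hw
    rw [hb, zero_smul, add_zero] at habc
    exact ⟨(smul_eq_zero.1 habc).resolve_right hw, hb, hc⟩
  obtain ⟨Q, hQ⟩ := exists_inv_colC hli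
  have hQ' : Q * colC ![(N * N) *ᵥ w, N *ᵥ w, w] = 1 := mul_eq_one_comm.1 hQ
  refine ⟨_, Q, hQ, ?_⟩
  have h5 : N * colC ![(N * N) *ᵥ w, N *ᵥ w, w] =
      colC ![(N * N) *ᵥ w, N *ᵥ w, w] * mk9 0 1 0 0 0 1 0 0 0 := by
    rw [mul_colC]
    ext i j
    rw [Matrix.mul_apply, Fin.sum_univ_three]
    fin_cases j
    · simp [colC, mk9, e3]
    · simp [colC, mk9, e2]
    · simp [colC, mk9]
  rw [mul_assoc, h5, ← mul_assoc, hQ', one_mul]

lemma all_of_E02 {h : Submodule ℂ MC} (H : Irr h) (hE : mk9 0 0 1 0 0 0 0 0 0 ∈ h) {M : MC}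
    (hM : M.trace = 0) : M ∈ h := by
  by_cases hX : ∃ X ∈ h, X 2 0 ≠ 0
  · obtain ⟨X₀, hX₀, hX20⟩ := hX
    set X : MC := (X₀ 2 0)⁻¹ • X₀ with hXd
    have hXh : X ∈ h := h.smul_mem _ hX₀
    have hX1 : X 2 0 = 1 := by
      rw [hXd]
      simp [hX20]
    set P : MC := mk9 1 (-(X 2 1)) (X 0 0) 0 1 (X 1 0) 0 0 1 with hP
    set Q : MC := mk9 1 (X 2 1) (-(X 0 0) - X 2 1 * X 1 0) 0 1 (-(X 1 0)) 0 0 1 with hQ
    have hPQ : P * Q = 1 := by
      rw [hP, hQ, mk9_mul, mk9_one]
      congr 1 <;> ring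
    have H' : Irr (hc P Q h) := H.hc hPQ
    have hE' : mk9 0 0 1 0 0 0 0 0 0 ∈ hc P Q h := by
      rw [mem_hc, hP, hQ, mk9_mul, mk9_mul]
      convert hE using 2 <;> ring
    have hH' : mk9 (-1) 0 0 0 0 0 0 0 1 ∈ hc P Q h := by
      rw [mem_hc, hP, hQ, mk9_mul, mk9_mul]
      have h1 := h.add_mem (H.br X hXh _ hE) (h.smul_mem (X 0 0 + X 2 2 + X 2 1 * X 1 0) hE)
      rw [eta9 X] at h1
      simp only [mk9_mul, mk9_sub, mk9_smul, mk9_add] at h1
      simp only [mk9, Matrix.of_apply, Matrix.cons_val', Matrix.cons_val_zero,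
        Matrix.cons_val_one, Matrix.cons_val] at h1 ⊢
      convert h1 using 1
      rw [hX1]
      congr! 3 <;> ring
    have hX' : Q * X * P ∈ hc P Q h := (mem_hc' hPQ).2 hXh
    have hX20' : (Q * X * P) 2 0 ≠ 0 := by
      have : (Q * X * P) 2 0 = 1 := by
        rw [Matrix.mul_apply, Fin.sum_univ_three, Matrix.mul_apply, Fin.sum_univ_three]
        simp [hP, hQ, mk9, hX1]
      rw [this]
      exact one_ne_zero
    have hQP : Q * P = 1 := mul_eq_one_comm.1 hPQ
    have hM' : (Q * M * P).trace = 0 := by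
      rw [Matrix.trace_mul_cycle, hPQ, one_mul, hM]
    exact (mem_hc' hPQ).1 (all_of_grading H' hE' hH' hX' hX20' hM')
  · exfalso
    push Not at hX
    -- the fourth commutator
    have hsq : ∀ A ∈ h, (A * A) 2 0 = 0 := by
      intro A hA
      have h1 := H.br A hA _ hE
      have h2 := H.br A hA _ h1
      have h3 := H.br A hA _ h2
      have h4 := H.br A hA _ h3
      have h5 := hX _ h4
      have hA20 : A 2 0 = 0 := hX A hA
      rw [eta9 A] at h5
      simp only [mk9_mul, mk9_sub] at h5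
      have h6 : 6 * (A 2 1 * A 1 0) ^ 2 = 0 := by
        rw [← h5]
        simp only [mk9, Matrix.of_apply, Matrix.cons_val', Matrix.cons_val_zero,
          Matrix.cons_val_one, Matrix.cons_val]
        rw [hA20]
        ring
      have h7 : A 2 1 * A 1 0 = 0 := by
        have : (A 2 1 * A 1 0) ^ 2 = 0 := by
          have h8 : (6 : ℂ) ≠ 0 := by norm_num
          exact (mul_eq_zero.1 h6).resolve_left h8
        exact pow_eq_zero_iff (two_ne_zero) |>.1 this
      rw [Matrix.mul_apply, Fin.sum_univ_three, hA20, h7]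
      ring
    have hpol : ∀ A ∈ h, ∀ B ∈ h, (A * B) 2 0 = 0 := by
      intro A hA B hB
      have h1 := hsq _ (h.add_mem hA hB)
      have h2 := hsq A hA
      have h3 := hsq B hB
      have h4 := hX _ (H.br A hA B hB)
      have h5 : (A + B) * (A + B) = A * A + A * B + (B * A + B * B) := by noncomm_ring
      rw [h5] at h1
      simp only [Matrix.add_apply, Matrix.sub_apply] at h1 h4
      rw [h2, h3] at h1
      have h6 : (B * A) 2 0 = (A * B) 2 0 := (sub_eq_zero.1 h4).symm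
      rw [h6] at h1
      have h7 : 2 * (A * B) 2 0 = 0 := by linear_combination h1
      exact (mul_eq_zero.1 h7).resolve_left two_ne_zero
    obtain ⟨A, hA, hAc⟩ := H.ev (Pi.single 0 1) (by
      intro h0
      have := congrFun h0 0
      simp at this)
    have hA10 : A 1 0 ≠ 0 := by
      intro h10
      apply hAc (A 0 0)
      have h20 := hX A hA
      ext i
      fin_cases i <;> simp [h10, h20]
    obtain ⟨B, hB, hBc⟩ := H.ef (Pi.single 2 1) (by
      intro h0
      have := congrFun h0 2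
      simp at this)
    have hB21 : B 2 1 ≠ 0 := by
      intro h21
      apply hBc (B 2 2)
      have h20 := hX B hB
      ext i
      fin_cases i <;> simp [h21, h20]
    have h1 := hpol B hB A hA
    rw [Matrix.mul_apply, Fin.sum_univ_three, hX A hA, hX B hB] at h1
    have h2 : B 2 1 * A 1 0 = 0 := by linear_combination h1
    rcases mul_eq_zero.1 h2 with h3 | h3
    · exact hB21 h3
    · exact hA10 h3

/-- The square-zero case. -/
theorem all_of_sq {h : Submodule ℂ MC} (H : Irr h) {N : MC} (hN : N ∈ h) (hN0 : N ≠ 0)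
    (hNN : N * N = 0) {M : MC} (hM : M.trace = 0) : M ∈ h := by
  obtain ⟨P, Q, hPQ, hQN⟩ := base_sq hN0 hNN
  have hE : mk9 0 0 1 0 0 0 0 0 0 ∈ hc P Q h := by
    rw [← hQN]
    exact (mem_hc' hPQ).2 hN
  have hM' : (Q * M * P).trace = 0 := by
    rw [Matrix.trace_mul_cycle, hPQ, one_mul, hM]
  exact (mem_hc' hPQ).1 (all_of_E02 (H.hc hPQ) hE hM')

end Pool.Agent.Lib.MP_aa9b81_an
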