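import Mathlib
import Pool.Agent.Lib.MP_aa9b81_an.CTrans2

/-!
The case of a regular nilpotent element: an invariant symmetric form.
-/

set_option autoImplicit false
set_option linter.unusedSectionVars false

open Matrix Module

namespace Pool.Agent.Lib.MP_aa9b81_an

lemma mk9_transpose (a b c d e f g h i : ℂ) :
    (mk9 a b c d e f g h i)ᵀ = mk9 a d g b e h c f i := by
  ext p q
  fin_cases p <;> fin_cases q <;> rfl

lemma mk9_zero : (0 : MC) = mk9 0 0 0 0 0 0 0 0 0 := by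
  ext p q
  fin_cases p <;> fin_cases q <;> rfl

lemma form_of_J {h : Submodule ℂ MC} (H : Irr h) (hJ : mk9 0 1 0 0 0 1 0 0 0 ∈ h)
    (hno : ∀ E ∈ h, E * E = 0 → E = 0) : ∃ S : MC, S ≠ 0 ∧ ∀ X ∈ h, X * S + S * Xᵀ = 0 := by
  have hc0 : ∀ c : ℂ, mk9 0 0 c 0 0 0 0 0 0 ∈ h → c = 0 := by
    intro c hc
    have h1 := hno _ hc (by rw [mk9_mul, mk9_zero]; congr 1 <;> ring)
    have h2 := congrFun (congrFun h1 0) 2
    simpa [mk9] using h2
  have ad : ∀ a b c d e f g k i : ℂ, mk9 a b c d e f g k i ∈ h →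
      mk9 d (e - a) (f - b) g (k - d) (i - e) 0 (-g) (-k) ∈ h := by
    intro a b c d e f g k i hA
    have h1 := H.br _ hJ _ hA
    rw [mk9_mul, mk9_mul, mk9_sub] at h1
    convert h1 using 2 <;> ring
  have s0 : ∀ X ∈ h, X 0 0 + X 1 1 + X 2 2 = 0 := fun X hX => by
    rw [← trace9]
    exact H.tr X hX
  have s1 : ∀ X ∈ h, X 2 0 = 0 := by
    intro X hX
    rw [eta9 X] at hX
    have h1 := ad _ _ _ _ _ _ _ _ _ (ad _ _ _ _ _ _ _ _ _ (ad _ _ _ _ _ _ _ _ _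
      (ad _ _ _ _ _ _ _ _ _ hX)))
    have h2 := hc0 (6 * X 2 0) (by
      convert h1 using 2 <;> ring)
    have h3 : (6 : ℂ) ≠ 0 := by norm_num
    exact (mul_eq_zero.1 h2).resolve_left h3
  have s2 : ∀ X ∈ h, X 2 1 = X 1 0 := by
    intro X hX
    have h20 := s1 X hX
    rw [eta9 X, h20] at hX
    have h1 := ad _ _ _ _ _ _ _ _ _ (ad _ _ _ _ _ _ _ _ _ (ad _ _ _ _ _ _ _ _ _ hX))
    have h2 := hc0 (3 * (X 1 0 - X 2 1)) (by
      convert h1 using 2 <;> ring)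
    have h3 : (3 : ℂ) ≠ 0 := by norm_num
    exact (sub_eq_zero.1 ((mul_eq_zero.1 h2).resolve_left h3)).symm
  have s3 : ∀ X ∈ h, X 1 1 = 0 := by
    intro X hX
    have h20 := s1 X hX
    have h21 := s2 X hX
    have h00 := s0 X hX
    have h22 : X 2 2 = -(X 0 0) - X 1 1 := by linear_combination h00
    rw [eta9 X, h20, h21, h22] at hX
    have h1 := h.add_mem (ad _ _ _ _ _ _ _ _ _ (ad _ _ _ _ _ _ _ _ _ hX))
      (h.smul_mem (X 1 0) hJ)
    rw [mk9_smul, mk9_add] at h1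
    have h2 := hc0 (-3 * X 1 1) (by
      convert h1 using 2 <;> ring)
    have h3 : (-3 : ℂ) ≠ 0 := by norm_num
    exact (mul_eq_zero.1 h2).resolve_left h3
  have s4 : ∀ X ∈ h, mk9 (X 1 0) 0 (X 1 2 - X 0 1) 0 0 0 0 0 (-(X 1 0)) ∈ h := by
    intro X hX
    have h20 := s1 X hX
    have h21 := s2 X hX
    have h11 := s3 X hX
    have h00 := s0 X hX
    rw [h11] at h00
    have h22 : X 2 2 = -(X 0 0) := by linear_combination h00
    rw [eta9 X, h20, h21, h11, h22] at hX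
    have h1 := h.add_mem (ad _ _ _ _ _ _ _ _ _ hX) (h.smul_mem (X 0 0) hJ)
    rw [mk9_smul, mk9_add] at h1
    convert h1 using 2 <;> ring
  obtain ⟨X₀, hX₀, hX₀c⟩ := H.ev (Pi.single 0 1) (by
    intro h0
    have := congrFun h0 0
    simp at this)
  have hxi : X₀ 1 0 ≠ 0 := by
    intro h10
    apply hX₀c (X₀ 0 0)
    have h20 := s1 X₀ hX₀
    ext i
    fin_cases i <;> simp [h10, h20]
  set κ : ℂ := (X₀ 1 0)⁻¹ * (X₀ 1 2 - X₀ 0 1) with hκ
  have hK : mk9 1 0 κ 0 0 0 0 0 (-1) ∈ h := by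
    have h1 := h.smul_mem (X₀ 1 0)⁻¹ (s4 X₀ hX₀)
    rw [mk9_smul] at h1
    convert h1 using 2 <;> simp [hxi]
  have s6 : ∀ X ∈ h, X 1 2 = X 0 1 + κ * X 1 0 := by
    intro X hX
    have h1 := h.sub_mem (s4 X hX) (h.smul_mem (X 1 0) hK)
    rw [mk9_smul, mk9_sub] at h1
    have h2 := hc0 (X 1 2 - X 0 1 - κ * X 1 0) (by
      convert h1 using 2 <;> ring)
    linear_combination h2
  obtain ⟨ζ, hζ⟩ : ∃ ζ : ℂ, mk9 0 0 ζ 1 0 κ 0 1 0 ∈ h := by
    have h20 := s1 X₀ hX₀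
    have h21 := s2 X₀ hX₀
    have h11 := s3 X₀ hX₀
    have h00 := s0 X₀ hX₀
    have h12 := s6 X₀ hX₀
    rw [h11] at h00
    have h22 : X₀ 2 2 = -(X₀ 0 0) := by linear_combination h00
    refine ⟨(X₀ 1 0)⁻¹ * (X₀ 0 2 - X₀ 0 0 * κ), ?_⟩
    have h1 : X₀ ∈ h := hX₀
    rw [eta9 X₀, h20, h21, h11, h22, h12] at h1
    have h2 := h.smul_mem (X₀ 1 0)⁻¹ (h.sub_mem (h.sub_mem h1 (h.smul_mem (X₀ 0 0) hK))
      (h.smul_mem (X₀ 0 1) hJ))
    rw [mk9_smul, mk9_smul, mk9_sub, mk9_sub, mk9_smul] at h2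
    convert h2 using 2 <;> field_simp <;> ring
  have hζ0 : ζ = 0 := by
    have h1 := H.br _ hK _ hζ
    have h2 := h.sub_mem (h.add_mem h1 hζ) (h.smul_mem κ hJ)
    rw [mk9_smul, mk9_mul, mk9_mul, mk9_sub, mk9_add, mk9_sub] at h2
    have h3 := hc0 (3 * ζ) (by convert h2 using 2 <;> ring)
    have h4 : (3 : ℂ) ≠ 0 := by norm_num
    exact (mul_eq_zero.1 h3).resolve_left h4
  have s9 : ∀ X ∈ h, X 0 2 = κ * X 0 0 := by
    intro X hX
    have h20 := s1 X hX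
    have h21 := s2 X hX
    have h11 := s3 X hX
    have h00 := s0 X hX
    have h12 := s6 X hX
    rw [h11] at h00
    have h22 : X 2 2 = -(X 0 0) := by linear_combination h00
    rw [hζ0] at hζ
    rw [eta9 X, h20, h21, h11, h22, h12] at hX
    have h2 := h.sub_mem (h.sub_mem (h.sub_mem hX (h.smul_mem (X 0 0) hK))
      (h.smul_mem (X 0 1) hJ)) (h.smul_mem (X 1 0) hζ)
    rw [mk9_smul, mk9_smul, mk9_smul, mk9_sub, mk9_sub, mk9_sub] at h2
    have h3 := hc0 (X 0 2 - κ * X 0 0) (by convert h2 using 2 <;> ring)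
    linear_combination h3
  refine ⟨mk9 (-κ) 0 1 0 (-1) 0 1 0 0, ?_, ?_⟩
  · intro h0
    have h1 := congrFun (congrFun h0 0) 2
    simp [mk9] at h1
  · intro X hX
    have h20 := s1 X hX
    have h21 := s2 X hX
    have h11 := s3 X hX
    have h00 := s0 X hX
    have h12 := s6 X hX
    have h02 := s9 X hX
    rw [h11] at h00
    have h22 : X 2 2 = -(X 0 0) := by linear_combination h00
    rw [eta9 X, h20, h21, h11, h22, h12, h02, mk9_transpose, mk9_mul, mk9_mul, mk9_add, mk9_zero]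
    congr 1 <;> ring

/-- An irreducible Lie algebra of trace-free complex 3 by 3 matrices is everything or leaves a
nonzero form invariant. -/
theorem exists_form {h : Submodule ℂ MC} (H : Irr h) {M : MC} (hM : M.trace = 0) (hMh : M ∉ h) :
    ∃ S : MC, S ≠ 0 ∧ ∀ X ∈ h, X * S + S * Xᵀ = 0 := by
  have hno : ∀ E ∈ h, E * E = 0 → E = 0 := by
    intro E hE hEE
    by_contra hE0
    exact hMh (all_of_sq H hE hE0 hEE hM)
  obtain ⟨N, hN, hN0, hN3⟩ := H.exists_nilp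
  have hN2 : N * N ≠ 0 := fun h0 => hN0 (hno N hN h0)
  obtain ⟨P, Q, hPQ, hQN⟩ := base_reg hN2 hN3
  have hQP : Q * P = 1 := mul_eq_one_comm.1 hPQ
  have hJ : mk9 0 1 0 0 0 1 0 0 0 ∈ hc P Q h := by
    rw [← hQN]
    exact (mem_hc' hPQ).2 hN
  have hno' : ∀ E ∈ hc P Q h, E * E = 0 → E = 0 := by
    intro E hE hEE
    have h1 := hno _ (mem_hc.1 hE) (by
      calc (P * E * Q) * (P * E * Q) = P * E * (Q * P) * E * Q := by noncomm_ring
        _ = P * (E * E) * Q := by rw [hQP]; noncomm_ring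
        _ = 0 := by rw [hEE]; simp)
    calc E = (Q * P) * E * (Q * P) := by rw [hQP]; simp
      _ = Q * (P * E * Q) * P := by noncomm_ring
      _ = 0 := by rw [h1]; simp
  obtain ⟨S, hS0, hS⟩ := form_of_J (H.hc hPQ) hJ hno'
  refine ⟨P * S * Pᵀ, ?_, ?_⟩
  · intro h0
    apply hS0
    have h1 : (Q * P) * S * (Q * P)ᵀ = 0 := by
      rw [Matrix.transpose_mul]
      calc (Q * P) * S * (Pᵀ * Qᵀ) = Q * (P * S * Pᵀ) * Qᵀ := by noncomm_ring
        _ = 0 := by rw [h0]; simp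
    rw [hQP] at h1
    simpa using h1
  · intro X hX
    have h1 := hS _ ((mem_hc' hPQ).2 hX)
    have h2 : P * ((Q * X * P) * S + S * (Q * X * P)ᵀ) * Pᵀ = 0 := by rw [h1]; simp
    have h3 : P * ((Q * X * P) * S + S * (Q * X * P)ᵀ) * Pᵀ =
        X * (P * S * Pᵀ) + (P * S * Pᵀ) * Xᵀ := by
      rw [Matrix.transpose_mul, Matrix.transpose_mul]
      have e1 : Qᵀ * Pᵀ = 1 := by rw [← Matrix.transpose_mul, hPQ, Matrix.transpose_one]
      calc P * ((Q * X * P) * S + S * (Pᵀ * (Xᵀ * Qᵀ))) * Pᵀ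
          = (P * Q) * X * (P * S * Pᵀ) + (P * S * Pᵀ) * Xᵀ * (Qᵀ * Pᵀ) := by noncomm_ring
        _ = _ := by rw [hPQ, e1]; noncomm_ring
    rw [← h3]
    exact h2

end Pool.Agent.Lib.MP_aa9b81_an
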