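import Mathlib

/-!
Families of subspaces of a finite-dimensional inner product space with closed graph: the
dimension is upper semicontinuous, and the family is continuous where the dimension is constant.
-/

set_option autoImplicit false
set_option linter.unusedSectionVars false

open Filter Topology Module

namespace Pool.Agent.Lib.MP_aa9b81_an

variable {X : Type*} [TopologicalSpace X]
variable {V : Type*} [NormedAddCommGroup V] [InnerProductSpace ℝ V] [FiniteDimensional ℝ V]

/-- The family `W` of subspaces has closed graph over `S`. -/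
def ClosedOn (S : Set X) (W : X → Submodule ℝ V) : Prop :=
  ∀ x ∈ S, ∀ F : Filter X, F.NeBot → F ≤ 𝓝[S] x → ∀ u : X → V, (∀ᶠ y in F, u y ∈ W y) →
    ∀ v : V, Tendsto u F (𝓝 v) → v ∈ W x

lemma ClosedOn.mono {S T : Set X} {W : X → Submodule ℝ V} (h : ClosedOn S W) (hT : T ⊆ S) :
    ClosedOn T W := fun x hx F hF hle u hu v hv =>
  h x (hT hx) F hF (hle.trans (nhdsWithin_mono x hT)) u hu v hv

/-- The projection onto `W x`. -/
noncomputable def proj (W : X → Submodule ℝ V) (x : X) : V →L[ℝ] V := (W x).starProjection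

lemma proj_mem (W : X → Submodule ℝ V) (x : X) (v : V) : proj W x v ∈ W x :=
  Submodule.starProjection_apply_mem (W x) v

lemma proj_eq_self {W : X → Submodule ℝ V} {x : X} {v : V} (h : v ∈ W x) : proj W x v = v :=
  Submodule.starProjection_eq_self_iff.2 h

lemma isProj_proj (W : X → Submodule ℝ V) (x : X) :
    LinearMap.IsProj (W x) (proj W x : V →ₗ[ℝ] V) where
  map_mem := fun v => proj_mem W x v
  map_id := fun _ hv => proj_eq_self hv

lemma trace_proj (W : X → Submodule ℝ V) (x : X) :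
    LinearMap.trace ℝ V (proj W x : V →ₗ[ℝ] V) = finrank ℝ (W x) :=
  (isProj_proj W x).trace

lemma continuous_trace_clm :
    Continuous (fun f : V →L[ℝ] V => LinearMap.trace ℝ V (f : V →ₗ[ℝ] V)) := by
  have : Continuous (fun f : V →L[ℝ] V =>
      ((LinearMap.trace ℝ V).comp (ContinuousLinearMap.coeLM ℝ)) f) :=
    LinearMap.continuous_of_finiteDimensional _
  exact this

/-- The key compactness argument. -/
lemma ClosedOn.ultra {S : Set X} {W : X → Submodule ℝ V} (h : ClosedOn S W) {x : X} (hx : x ∈ S)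
    (U : Ultrafilter X) (hU : (U : Filter X) ≤ 𝓝[S] x) {m : ℕ}
    (hm : ∀ᶠ y in (U : Filter X), finrank ℝ (W y) = m) :
    ∃ Q : V →L[ℝ] V, Tendsto (proj W) U (𝓝 Q) ∧ LinearMap.range (Q : V →ₗ[ℝ] V) ≤ W x ∧
      finrank ℝ (LinearMap.range (Q : V →ₗ[ℝ] V)) = m ∧
      (finrank ℝ (W x) = m → Q = proj W x) := by
  have hc : IsCompact (Metric.closedBall (0 : V →L[ℝ] V) 1) := isCompact_closedBall _ _
  have hmem : Metric.closedBall (0 : V →L[ℝ] V) 1 ∈ (U.map (proj W)) := by
    refine Ultrafilter.mem_map.2 (Filter.univ_mem' fun y => ?_)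
    simp only [Set.mem_preimage, mem_closedBall_zero_iff]
    exact Submodule.starProjection_norm_le (W y)
  obtain ⟨Q, _, hQ⟩ := hc.ultrafilter_le_nhds' (U.map (proj W)) hmem
  have hT : Tendsto (proj W) U (𝓝 Q) := hQ
  have happ : ∀ v : V, Tendsto (fun y => proj W y v) U (𝓝 (Q v)) := fun v =>
    ((ContinuousLinearMap.apply ℝ V v).continuous.tendsto Q).comp hT
  have hrange : LinearMap.range (Q : V →ₗ[ℝ] V) ≤ W x := by
    rintro _ ⟨v, rfl⟩
    exact h x hx U inferInstance hU _ (Eventually.of_forall fun y => proj_mem W y v) _ (happ v)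
  have hidem : Q * Q = Q := by
    have h1 : Tendsto (fun y => proj W y * proj W y) U (𝓝 (Q * Q)) := hT.mul hT
    have h2 : (fun y => proj W y * proj W y) = proj W := by
      funext y
      ext v
      exact proj_eq_self (proj_mem W y v)
    rw [h2] at h1
    exact tendsto_nhds_unique h1 hT
  have hself : ∀ v w : V, inner ℝ (Q v) w = inner ℝ v (Q w) := by
    intro v w
    have h1 : Tendsto (fun y => inner ℝ (proj W y v) w) U (𝓝 (inner ℝ (Q v) w)) :=
      (happ v).inner tendsto_const_nhds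
    have h2 : Tendsto (fun y => inner ℝ v (proj W y w)) U (𝓝 (inner ℝ v (Q w))) :=
      tendsto_const_nhds.inner (happ w)
    have h3 : (fun y => inner ℝ (proj W y v) w) = fun y => inner ℝ v (proj W y w) := by
      funext y
      exact Submodule.inner_starProjection_left_eq_right (W y) v w
    rw [h3] at h1
    exact tendsto_nhds_unique h1 h2
  have hQQ : ∀ v, Q (Q v) = Q v := fun v => by
    have := congrArg (fun f : V →L[ℝ] V => f v) hidem
    simpa using this
  have hproj : LinearMap.IsProj (LinearMap.range (Q : V →ₗ[ℝ] V)) (Q : V →ₗ[ℝ] V) := by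
    constructor
    · intro v
      exact ⟨v, rfl⟩
    · rintro _ ⟨v, rfl⟩
      exact hQQ v
  have htr : (finrank ℝ (LinearMap.range (Q : V →ₗ[ℝ] V)) : ℝ) = m := by
    rw [← hproj.trace]
    have h1 : Tendsto (fun y => LinearMap.trace ℝ V (proj W y : V →ₗ[ℝ] V)) U
        (𝓝 (LinearMap.trace ℝ V (Q : V →ₗ[ℝ] V))) :=
      (continuous_trace_clm.tendsto Q).comp hT
    have h2 : Tendsto (fun y => LinearMap.trace ℝ V (proj W y : V →ₗ[ℝ] V)) U (𝓝 (m : ℝ)) := by
      refine tendsto_const_nhds.congr' ?_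
      filter_upwards [hm] with y hy
      rw [trace_proj, hy]
    exact tendsto_nhds_unique h1 h2
  have hfin : finrank ℝ (LinearMap.range (Q : V →ₗ[ℝ] V)) = m := by exact_mod_cast htr
  refine ⟨Q, hT, hrange, hfin, fun hk => ?_⟩
  have heq : LinearMap.range (Q : V →ₗ[ℝ] V) = W x :=
    Submodule.eq_of_le_of_finrank_eq hrange (by rw [hfin, hk])
  ext v
  refine (Submodule.eq_starProjection_of_mem_of_inner_eq_zero (K := W x) ?_ ?_).symm
  · rw [← heq]
    exact ⟨v, rfl⟩
  · intro w hw
    rw [← heq] at hw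
    obtain ⟨u, rfl⟩ := hw
    change inner ℝ (v - Q v) (Q u) = 0
    have h6 : inner ℝ (Q v) (Q u) = inner ℝ v (Q u) := by rw [← hself (Q v) u, hQQ, hself]
    rw [inner_sub_left, h6, sub_self]

/-- The dimension is upper semicontinuous. -/
lemma ClosedOn.finrank_ge {S : Set X} {W : X → Submodule ℝ V} (h : ClosedOn S W) {x : X}
    (hx : x ∈ S) {k : ℕ} (hk : x ∈ closure {y ∈ S | k ≤ finrank ℝ (W y)}) :
    k ≤ finrank ℝ (W x) := by
  have hne : (𝓝[{y ∈ S | k ≤ finrank ℝ (W y)}] x).NeBot := mem_closure_iff_nhdsWithin_neBot.1 hk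
  obtain ⟨U, hU⟩ := Ultrafilter.exists_le (𝓝[{y ∈ S | k ≤ finrank ℝ (W y)}] x)
  have hUS : (U : Filter X) ≤ 𝓝[S] x := hU.trans (nhdsWithin_mono x fun y hy => hy.1)
  have hUk : ∀ᶠ y in (U : Filter X), k ≤ finrank ℝ (W y) := by
    have : {y ∈ S | k ≤ finrank ℝ (W y)} ∈ (U : Filter X) := hU self_mem_nhdsWithin
    filter_upwards [this] with y hy using hy.2
  have hfin : ∃ m, ∀ᶠ y in (U : Filter X), finrank ℝ (W y) = m := by
    by_contra hcon
    push Not at hcon
    have h1 : ∀ᶠ y in (U : Filter X), ∀ m ∈ Set.Iic (finrank ℝ V), finrank ℝ (W y) ≠ m := by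
      refine (Filter.eventually_all_finite (Set.finite_Iic _)).2 fun m _ => ?_
      exact hcon m
    obtain ⟨y, hy⟩ := h1.exists
    exact hy (finrank ℝ (W y)) (Submodule.finrank_le (W y)) rfl
  obtain ⟨m, hm⟩ := hfin
  obtain ⟨Q, _, hr, hf, _⟩ := h.ultra hx U hUS hm
  obtain ⟨y, hy1, hy2⟩ := (hm.and hUk).exists
  calc k ≤ finrank ℝ (W y) := hy2
    _ = m := hy1
    _ = finrank ℝ (LinearMap.range (Q : V →ₗ[ℝ] V)) := hf.symm
    _ ≤ finrank ℝ (W x) := Submodule.finrank_mono hr

/-- Where the dimension is constant, the projection is continuous. -/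
lemma ClosedOn.continuousOn {S : Set X} {W : X → Submodule ℝ V} (h : ClosedOn S W) {k : ℕ}
    (hk : ∀ x ∈ S, finrank ℝ (W x) = k) : ContinuousOn (proj W) S := by
  intro x hx
  rw [ContinuousWithinAt, tendsto_iff_ultrafilter]
  intro U hU
  have hm : ∀ᶠ y in (U : Filter X), finrank ℝ (W y) = k := by
    have : S ∈ (U : Filter X) := hU self_mem_nhdsWithin
    filter_upwards [this] with y hy using hk y hy
  obtain ⟨Q, hT, _, _, he⟩ := h.ultra hx U hU hm
  rw [he (hk x hx)] at hT
  exact hT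

/-- Relative closedness of the dimension strata. -/
lemma ClosedOn.exists_closed {S : Set X} {W : X → Submodule ℝ V} (h : ClosedOn S W) (k : ℕ) :
    ∃ C : Set X, IsClosed C ∧ S ∩ C = {x ∈ S | k ≤ finrank ℝ (W x)} := by
  refine ⟨closure {y ∈ S | k ≤ finrank ℝ (W y)}, isClosed_closure, ?_⟩
  ext x
  constructor
  · rintro ⟨hx, hc⟩
    exact ⟨hx, h.finrank_ge hx hc⟩
  · rintro ⟨hx, hk⟩
    exact ⟨hx, subset_closure ⟨hx, hk⟩⟩

end Pool.Agent.Lib.MP_aa9b81_an
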