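import Mathlib
import Pool.Agent.Lib.MP_aa9b81_an.Family

/-!
Families of subspaces of a finite-dimensional real topological vector space.
-/

set_option autoImplicit false
set_option linter.unusedSectionVars false

open Filter Topology Module

namespace Pool.Agent.Lib.MP_aa9b81_an

variable {X : Type*} [TopologicalSpace X]
variable {V : Type*} [AddCommGroup V] [TopologicalSpace V] [IsTopologicalAddGroup V] [T2Space V]
  [Module ℝ V] [ContinuousSMul ℝ V] [FiniteDimensional ℝ V]

/-- The family `W` of subspaces has closed graph over `S`. -/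
def CF {V : Type*} [AddCommGroup V] [TopologicalSpace V] [Module ℝ V]
    (S : Set X) (W : X → Submodule ℝ V) : Prop :=
  ∀ x ∈ S, ∀ F : Filter X, F.NeBot → F ≤ 𝓝[S] x → ∀ u : X → V, (∀ᶠ y in F, u y ∈ W y) →
    ∀ v : V, Tendsto u F (𝓝 v) → v ∈ W x

/-- The transported family. -/
noncomputable def tr (W : X → Submodule ℝ V) (x : X) :
    Submodule ℝ (EuclideanSpace ℝ (Fin (finrank ℝ V))) :=
  (W x).map (toEuclidean (E := V) : V →ₗ[ℝ] EuclideanSpace ℝ (Fin (finrank ℝ V)))

lemma mem_tr {W : X → Submodule ℝ V} {x : X} {v : EuclideanSpace ℝ (Fin (finrank ℝ V))} :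
    v ∈ tr W x ↔ (toEuclidean (E := V)).symm v ∈ W x := by
  constructor
  · rintro ⟨w, hw, rfl⟩
    simpa using hw
  · intro h
    exact ⟨_, h, by simp⟩

lemma finrank_tr (W : X → Submodule ℝ V) (x : X) : finrank ℝ (tr W x) = finrank ℝ (W x) :=
  LinearEquiv.finrank_map_eq ((toEuclidean (E := V)).toLinearEquiv) (W x)

lemma CF.tr {S : Set X} {W : X → Submodule ℝ V} (h : CF S W) : ClosedOn S (tr W) := by
  intro x hx F hF hle u hu v hv
  rw [mem_tr]
  refine h x hx F hF hle (fun y => (toEuclidean (E := V)).symm (u y)) ?_ _ ?_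
  · filter_upwards [hu] with y hy using mem_tr.1 hy
  · exact ((toEuclidean (E := V)).symm.continuous.tendsto v).comp hv

/-- A projection onto `W x`. -/
noncomputable def pr (W : X → Submodule ℝ V) (x : X) (v : V) : V :=
  (toEuclidean (E := V)).symm (proj (tr W) x (toEuclidean v))

lemma pr_mem (W : X → Submodule ℝ V) (x : X) (v : V) : pr W x v ∈ W x :=
  mem_tr.1 (proj_mem (tr W) x _)

lemma pr_eq_self {W : X → Submodule ℝ V} {x : X} {v : V} (h : v ∈ W x) : pr W x v = v := by
  have h1 : toEuclidean v ∈ tr W x := by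
    rw [mem_tr]
    simpa using h
  rw [pr, proj_eq_self h1]
  simp

lemma CF.mono {S T : Set X} {W : X → Submodule ℝ V} (h : CF S W) (hT : T ⊆ S) :
    CF T W := fun x hx F hF hle u hu v hv =>
  h x (hT hx) F hF (hle.trans (nhdsWithin_mono x hT)) u hu v hv

/-- The dimension is upper semicontinuous. -/
lemma CF.finrank_ge {S : Set X} {W : X → Submodule ℝ V} (h : CF S W) {x : X}
    (hx : x ∈ S) {k : ℕ} (hk : x ∈ closure {y ∈ S | k ≤ finrank ℝ (W y)}) :
    k ≤ finrank ℝ (W x) := by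
  rw [← finrank_tr]
  refine h.tr.finrank_ge hx ?_
  simpa only [finrank_tr] using hk

lemma CF.continuousOn {S : Set X} {W : X → Submodule ℝ V} (h : CF S W) {k : ℕ}
    (hk : ∀ x ∈ S, finrank ℝ (W x) = k) (v : V) : ContinuousOn (fun x => pr W x v) S := by
  have h1 : ContinuousOn (proj (MP_aa9b81_an.tr W)) S := h.tr.continuousOn (k := k) (fun x hx => by
    rw [finrank_tr]
    exact hk x hx)
  have h2 : ContinuousOn (fun x => proj (MP_aa9b81_an.tr W) x (toEuclidean v)) S :=
    h1.clm_apply continuousOn_const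
  exact (toEuclidean (E := V)).symm.continuous.comp_continuousOn h2

/-- Through every vector of `W x` there is a section of `W`, continuous at `x` along `S`. -/
def Sec (S : Set X) (W : X → Submodule ℝ V) : Prop :=
  ∀ x ∈ S, ∀ w ∈ W x, ∃ s : X → V, (∀ y, s y ∈ W y) ∧ Tendsto s (𝓝[S] x) (𝓝 w)

lemma Sec.mono {S T : Set X} {W : X → Submodule ℝ V} (h : Sec S W) (hT : T ⊆ S) : Sec T W := by
  intro x hx w hw
  obtain ⟨s, h1, h2⟩ := h x (hT hx) w hw
  exact ⟨s, h1, h2.mono_left (nhdsWithin_mono x hT)⟩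

lemma CF.sec {S : Set X} {W : X → Submodule ℝ V} (h : CF S W) {k : ℕ}
    (hk : ∀ x ∈ S, finrank ℝ (W x) = k) : Sec S W := by
  intro x hx w hw
  refine ⟨fun y => pr W y w, fun y => pr_mem W y w, ?_⟩
  have h1 := h.continuousOn hk w x hx
  rw [ContinuousWithinAt, pr_eq_self hw] at h1
  exact h1

lemma CF.of_sec {V' : Type*} [AddCommGroup V'] [TopologicalSpace V'] [Module ℝ V']
    {S : Set X} {W : X → Submodule ℝ V} {R : V → V' → Prop} (hR : IsClosed {p : V × V' | R p.1 p.2})
    (hW : Sec S W) {Z : X → Submodule ℝ V'} (hZ : ∀ x ∈ S, ∀ v, v ∈ Z x ↔ ∀ w ∈ W x, R w v) :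
    CF S Z := by
  intro x hx F hF hle u hu v hv
  rw [hZ x hx]
  intro w hw
  obtain ⟨s, hs1, hs2⟩ := hW x hx w hw
  have h1 : Tendsto (fun y => (s y, u y)) F (𝓝 (w, v)) := (hs2.mono_left hle).prodMk_nhds hv
  have h2 : ∀ᶠ y in F, (s y, u y) ∈ {p : V × V' | R p.1 p.2} := by
    have h3 : ∀ᶠ y in F, y ∈ S := hle self_mem_nhdsWithin
    filter_upwards [hu, h3] with y hy hyS
    exact (hZ y hyS (u y)).1 hy (s y) (hs1 y)
  exact hR.mem_of_tendsto h1 h2

lemma CF.inf {S : Set X} {W Z : X → Submodule ℝ V} (hW : CF S W) (hZ : CF S Z) :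
    CF S (fun x => W x ⊓ Z x) := by
  intro x hx F hF hle u hu v hv
  exact ⟨hW x hx F hF hle u (hu.mono fun y hy => hy.1) v hv,
    hZ x hx F hF hle u (hu.mono fun y hy => hy.2) v hv⟩

end Pool.Agent.Lib.MP_aa9b81_an
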