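import Mathlib

/-!
Polynomial functions on a group of matrices generated by exponentials: the ideal of the polynomials
vanishing on it is prime; invariant derivations.
-/

set_option autoImplicit false
set_option linter.unusedSectionVars false

open Matrix Filter Topology MvPolynomial

namespace Pool.Agent.Lib.MP_aa9b81_an.Z

/-- Real square matrices. -/
abbrev Mt (I : Type*) : Type _ := Matrix I I ℝ

/-- Real polynomials in the entries of a matrix. -/
abbrev Rx (I : Type*) : Type _ := MvPolynomial (I × I) ℝ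

variable {I : Type*} [Fintype I] [DecidableEq I]

/-- Evaluation of a polynomial at a matrix. -/
noncomputable def ev (g : Mt I) : Rx I →ₐ[ℝ] ℝ := aeval (fun p : I × I => g p.1 p.2)

@[simp] lemma ev_X (g : Mt I) (p : I × I) : ev g (X p) = g p.1 p.2 := aeval_X _ _

@[simp] lemma ev_C (g : Mt I) (a : ℝ) : ev g (C a) = a := by
  simp [ev]

/-- The monoid generated by the exponentials of the elements of `L`. -/
def Gen (L : Submodule ℝ (Mt I)) : Submonoid (Mt I) :=
  Submonoid.closure {g | ∃ A ∈ L, g = NormedSpace.exp A}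

lemma exp_mem_Gen {L : Submodule ℝ (Mt I)} {A : Mt I} (hA : A ∈ L) :
    NormedSpace.exp A ∈ Gen L := Submonoid.subset_closure ⟨A, hA, rfl⟩

section

open scoped Matrix.Norms.Operator

set_option backward.isDefEq.respectTransparency false in
lemma analytic_exp (A : Mt I) (i j : I) :
    AnalyticOnNhd ℝ (fun s : ℝ => (NormedSpace.exp (s • A) : Mt I) i j) Set.univ := by
  intro s _
  have h1 : AnalyticAt ℝ (fun M : Mt I => NormedSpace.exp M) (s • A) :=
    NormedSpace.exp_analytic (𝕂 := ℝ) (s • A)
  have h2 : AnalyticAt ℝ (fun s : ℝ => s • A) s := analyticAt_id.smul analyticAt_const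
  have h3 : AnalyticAt ℝ (fun s : ℝ => NormedSpace.exp (s • A)) s :=
    AnalyticAt.comp (g := fun M : Mt I => NormedSpace.exp M) (f := fun s : ℝ => s • A) h1 h2
  have h4 := ((Matrix.entryLinearMap ℝ ℝ i j).toContinuousLinearMap : Mt I →L[ℝ] ℝ).analyticAt
    (NormedSpace.exp (s • A))
  exact AnalyticAt.comp (g := fun M : Mt I => M i j) (f := fun s : ℝ => NormedSpace.exp (s • A))
    h4 h3

set_option backward.isDefEq.respectTransparency false in
lemma hasDerivAt_exp_entry (A : Mt I) (s : ℝ) (i j : I) :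
    HasDerivAt (fun s : ℝ => (NormedSpace.exp (s • A) : Mt I) i j)
      ((NormedSpace.exp (s • A) * A : Mt I) i j) s := by
  have h1 : HasDerivAt (fun u : ℝ => NormedSpace.exp (u • A))
      (NormedSpace.exp (s • A) * A) s := hasDerivAt_exp_smul_const A s
  exact (((Matrix.entryLinearMap ℝ ℝ i j).toContinuousLinearMap :
    Mt I →L[ℝ] ℝ).hasFDerivAt.comp_hasDerivAt s h1)

set_option backward.isDefEq.respectTransparency false in
lemma exp_mul_exp_neg' (A : Mt I) : NormedSpace.exp A * NormedSpace.exp (-A) = 1 := by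
  have h := Matrix.exp_add_of_commute A (-A) (Commute.neg_right (Commute.refl A))
  rw [add_neg_cancel, NormedSpace.exp_zero] at h
  exact h.symm

end

lemma exists_path {L : Submodule ℝ (Mt I)} {g : Mt I} (hg : g ∈ Gen L) :
    ∃ γ : ℝ → Mt I, (∀ i j, AnalyticOnNhd ℝ (fun s => γ s i j) Set.univ) ∧ γ 0 = 1 ∧ γ 1 = g ∧
      ∀ s, γ s ∈ Gen L := by
  induction hg using Submonoid.closure_induction with
  | mem g hg =>
    obtain ⟨A, hA, rfl⟩ := hg
    refine ⟨fun s => NormedSpace.exp (s • A), analytic_exp A, ?_, ?_, fun s =>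
      exp_mem_Gen (L.smul_mem s hA)⟩
    · simp only [zero_smul]
      exact NormedSpace.exp_zero
    · simp only [one_smul]
  | one => exact ⟨fun _ => 1, fun i j => analyticOnNhd_const, rfl, rfl, fun _ => (Gen L).one_mem⟩
  | mul g h _ _ hg hh =>
    obtain ⟨γ, h1, h2, h3, h4⟩ := hg
    obtain ⟨δ, k1, k2, k3, k4⟩ := hh
    refine ⟨fun s => γ s * δ s, fun i j => ?_, ?_, ?_, fun s => (Gen L).mul_mem (h4 s) (k4 s)⟩
    · have h5 : (fun s => (γ s * δ s) i j) = fun s => ∑ k, γ s i k * δ s k j := by
        funext s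
        rw [Matrix.mul_apply]
      rw [h5]
      refine Finset.analyticOnNhd_fun_sum _ fun k _ => ?_
      exact (h1 i k).mul (k1 k j)
    · simp only [h2, k2, mul_one]
    · simp only [h3, k3]

lemma analytic_ev {γ : ℝ → Mt I} {S : Set ℝ} (h : ∀ i j, AnalyticOnNhd ℝ (fun s => γ s i j) S)
    (P : Rx I) : AnalyticOnNhd ℝ (fun s => ev (γ s) P) S := by
  induction P using MvPolynomial.induction_on with
  | C a =>
    simp only [ev_C]
    exact analyticOnNhd_const
  | add p q hp hq =>
    simp only [map_add]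
    exact hp.add hq
  | mul_X p n hp =>
    simp only [map_mul, ev_X]
    exact hp.mul (h n.1 n.2)

/-- The ideal of the polynomials vanishing on the group generated by the exponentials. -/
noncomputable def J (L : Submodule ℝ (Mt I)) : Ideal (Rx I) where
  carrier := {P | ∀ g ∈ Gen L, ev g P = 0}
  zero_mem' := fun g _ => map_zero _
  add_mem' := fun ha hb g hg => by rw [map_add, ha g hg, hb g hg, add_zero]
  smul_mem' := fun c P hP g hg => by rw [smul_eq_mul, map_mul, hP g hg, mul_zero]

lemma mem_J {L : Submodule ℝ (Mt I)} {P : Rx I} : P ∈ J L ↔ ∀ g ∈ Gen L, ev g P = 0 := Iff.rfl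

theorem J_prime (L : Submodule ℝ (Mt I)) : (J L).IsPrime := by
  refine ⟨?_, ?_⟩
  · intro h
    have h1 : (1 : Rx I) ∈ J L := h ▸ Submodule.mem_top
    have h2 := h1 1 (Gen L).one_mem
    rw [map_one] at h2
    exact one_ne_zero h2
  · intro P Q hPQ
    by_contra hcon
    push Not at hcon
    obtain ⟨hP, hQ⟩ := hcon
    rw [mem_J] at hP hQ
    push Not at hP hQ
    obtain ⟨g, hg, hgP⟩ := hP
    obtain ⟨h, hh, hhQ⟩ := hQ
    obtain ⟨γ, h1, h2, h3, h4⟩ := exists_path hg
    obtain ⟨δ, k1, k2, k3, k4⟩ := exists_path hh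
    -- the path from `h` to `g`
    set c : ℝ → Mt I := fun s => γ s * δ (1 - s) with hc
    have hca : ∀ i j, AnalyticOnNhd ℝ (fun s => c s i j) Set.univ := by
      intro i j
      have h5 : (fun s => c s i j) = fun s => ∑ k, γ s i k * δ (1 - s) k j := by
        funext s
        change (γ s * δ (1 - s)) i j = _
        rw [Matrix.mul_apply]
      rw [h5]
      refine Finset.analyticOnNhd_fun_sum _ fun k _ => ?_
      refine (h1 i k).mul ?_
      intro s _
      have h6 : AnalyticAt ℝ (fun s : ℝ => 1 - s) s := analyticAt_const.sub analyticAt_id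
      exact AnalyticAt.comp (g := fun u => δ u k j) (k1 k j (1 - s) (Set.mem_univ _)) h6
    have hcG : ∀ s, c s ∈ Gen L := fun s => (Gen L).mul_mem (h4 s) (k4 (1 - s))
    have hc1 : c 1 = g := by simp only [hc, sub_self, k2, mul_one, h3]
    have hc0 : c 0 = h := by simp only [hc, sub_zero, h2, one_mul, k3]
    have hPa := analytic_ev hca P
    have hQa := analytic_ev hca Q
    have hne : ∀ᶠ s in 𝓝 (1 : ℝ), ev (c s) P ≠ 0 := by
      refine (hPa 1 (Set.mem_univ _)).continuousAt.eventually_ne ?_
      rw [hc1]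
      exact hgP
    have hQ0 : ∀ᶠ s in 𝓝 (1 : ℝ), ev (c s) Q = 0 := by
      filter_upwards [hne] with s hs
      have h5 := hPQ (c s) (hcG s)
      rw [map_mul] at h5
      exact (mul_eq_zero.1 h5).resolve_left hs
    have h6 := hQa.eqOn_zero_of_preconnected_of_eventuallyEq_zero isPreconnected_univ
      (Set.mem_univ 1) hQ0
    have h7 := h6 (Set.mem_univ 0)
    simp only [hc0, Pi.zero_apply] at h7
    exact hhQ h7

/-! ### Invariant derivations -/

/-- The derivation `P ↦ (d/ds) P (x (1 + s A))`. -/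
noncomputable def dA (A : Mt I) : Derivation ℝ (Rx I) (Rx I) :=
  mkDerivation ℝ fun p : I × I => ∑ k, X (p.1, k) * C (A k p.2)

lemma dA_X (A : Mt I) (p : I × I) : dA A (X p) = ∑ k, X (p.1, k) * C (A k p.2) :=
  mkDerivation_X _ _ _

lemma ev_dA_X (A g : Mt I) (p : I × I) : ev g (dA A (X p)) = (g * A) p.1 p.2 := by
  rw [dA_X, map_sum, Matrix.mul_apply]
  refine Finset.sum_congr rfl fun k _ => ?_
  rw [map_mul, ev_X, ev_C]

lemma mkDerivation_eq_sum {σ : Type*} [Fintype σ] [DecidableEq σ] {S : Type*} [CommRing S]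
    [Algebra (MvPolynomial σ ℝ) S] [Algebra ℝ S] [IsScalarTower ℝ (MvPolynomial σ ℝ) S]
    (D : Derivation ℝ (MvPolynomial σ ℝ) S) (P : MvPolynomial σ ℝ) :
    D P = ∑ p, pderiv p P • D (X p) := by
  induction P using MvPolynomial.induction_on with
  | C a =>
    rw [MvPolynomial.derivation_C]
    simp
  | add p q hp hq =>
    rw [map_add, hp, hq, ← Finset.sum_add_distrib]
    refine Finset.sum_congr rfl fun i _ => ?_
    rw [map_add, add_smul]
  | mul_X p n hp =>
    rw [Derivation.leibniz, hp]
    have h1 : ∀ i, pderiv i (p * X n) • D (X i) =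
        p • (pderiv i (X n : MvPolynomial σ ℝ) • D (X i)) + (X n : MvPolynomial σ ℝ) • (pderiv i p • D (X i)) := by
      intro i
      rw [Derivation.leibniz, add_smul, smul_eq_mul, smul_eq_mul, mul_smul, mul_smul]
    rw [Finset.sum_congr rfl fun i _ => h1 i, Finset.sum_add_distrib, ← Finset.smul_sum,
      ← Finset.smul_sum]
    congr 2
    rw [Finset.sum_eq_single n]
    · rw [pderiv_X_self, one_smul]
    · intro i _ hi
      rw [pderiv_X_of_ne hi.symm, zero_smul]
    · intro h
      exact absurd (Finset.mem_univ n) h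

lemma dA_eq_sum (A : Mt I) (P : Rx I) : dA A P = ∑ p, pderiv p P * dA A (X p) := by
  exact mkDerivation_eq_sum _ P

lemma ev_dA (A g : Mt I) (P : Rx I) :
    ev g (dA A P) = ∑ p : I × I, ev g (pderiv p P) * (g * A) p.1 p.2 := by
  rw [dA_eq_sum, map_sum]
  refine Finset.sum_congr rfl fun p _ => ?_
  rw [map_mul, ev_dA_X]

/-- Left translation of polynomials. -/
noncomputable def trl (g : Mt I) : Rx I →ₐ[ℝ] Rx I :=
  aeval fun p : I × I => ∑ k, C (g p.1 k) * X (k, p.2)

lemma trl_X (g : Mt I) (p : I × I) : trl g (X p) = ∑ k, C (g p.1 k) * X (k, p.2) := aeval_X _ _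

lemma ev_trl (g y : Mt I) (P : Rx I) : ev y (trl g P) = ev (g * y) P := by
  have h : (ev y).comp (trl g) = ev (g * y) := by
    refine MvPolynomial.algHom_ext fun p => ?_
    rw [AlgHom.comp_apply, trl_X, map_sum, ev_X, Matrix.mul_apply]
    refine Finset.sum_congr rfl fun k _ => ?_
    rw [map_mul, ev_X, ev_C]
  exact DFunLike.congr_fun h P

lemma dA_trl (A g : Mt I) (P : Rx I) : dA A (trl g P) = trl g (dA A P) := by
  induction P using MvPolynomial.induction_on with
  | C a =>
    have h1 : trl g (C a) = C a := by simp [trl, MvPolynomial.algebraMap_eq]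
    rw [h1, MvPolynomial.derivation_C, map_zero]
  | add p q hp hq => rw [map_add, map_add, hp, hq, map_add, map_add]
  | mul_X p n hp =>
    rw [map_mul, Derivation.leibniz, Derivation.leibniz, map_add, hp, smul_eq_mul, smul_eq_mul,
      smul_eq_mul, smul_eq_mul, map_mul, map_mul]
    congr 2
    rw [trl_X, map_sum, dA_X, map_sum]
    have h1 : ∀ k, dA A (C (g n.1 k) * X (k, n.2)) =
        ∑ l, C (g n.1 k) * (X (k, l) * C (A l n.2)) := by
      intro k
      rw [Derivation.leibniz, dA_X, MvPolynomial.derivation_C, smul_zero, add_zero, smul_eq_mul,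
        Finset.mul_sum]
    rw [Finset.sum_congr rfl fun k _ => h1 k, Finset.sum_comm]
    refine Finset.sum_congr rfl fun l _ => ?_
    have h2 : trl g (C (A l n.2)) = C (A l n.2) := by simp [trl, MvPolynomial.algebraMap_eq]
    rw [map_mul, trl_X, h2, Finset.sum_mul]
    refine Finset.sum_congr rfl fun k _ => ?_
    ring

lemma trl_mem_J {L : Submodule ℝ (Mt I)} {P : Rx I} (hP : P ∈ J L) {g : Mt I} (hg : g ∈ Gen L) :
    trl g P ∈ J L := fun y hy => by
  rw [ev_trl]
  exact hP _ ((Gen L).mul_mem hg hy)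

lemma hasDerivAt_ev (g A : Mt I) (P : Rx I) (s : ℝ) :
    HasDerivAt (fun s : ℝ => ev (g * NormedSpace.exp (s • A)) P)
      (ev (g * NormedSpace.exp (s • A)) (dA A P)) s := by
  induction P using MvPolynomial.induction_on with
  | C a =>
    simp only [ev_C]
    rw [MvPolynomial.derivation_C, map_zero]
    exact hasDerivAt_const s a
  | add p q hp hq =>
    simp only [map_add]
    exact hp.add hq
  | mul_X p n hp =>
    have h1 : HasDerivAt (fun s : ℝ => (g * NormedSpace.exp (s • A)) n.1 n.2)
        ((g * NormedSpace.exp (s • A) * A) n.1 n.2) s := by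
      have h2 : (fun s : ℝ => (g * NormedSpace.exp (s • A)) n.1 n.2) =
          fun s : ℝ => ∑ k, g n.1 k * (NormedSpace.exp (s • A) : Mt I) k n.2 := by
        funext s
        rw [Matrix.mul_apply]
      rw [h2, mul_assoc, Matrix.mul_apply]
      refine HasDerivAt.fun_sum fun k _ => ?_
      exact (hasDerivAt_exp_entry A s k n.2).const_mul (g n.1 k)
    have h3 := hp.mul h1
    rw [Derivation.leibniz, smul_eq_mul, smul_eq_mul, map_add, map_mul, map_mul, ev_dA_X, ev_X]
    have h4 : (fun s : ℝ => ev (g * NormedSpace.exp (s • A)) (p * X n)) =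
        fun s : ℝ => ev (g * NormedSpace.exp (s • A)) p * (g * NormedSpace.exp (s • A)) n.1 n.2 := by
      funext s
      rw [map_mul, ev_X]
    rw [h4]
    have h5 : ev (g * NormedSpace.exp (s • A)) p * (g * NormedSpace.exp (s • A) * A) n.1 n.2 +
        (g * NormedSpace.exp (s • A)) n.1 n.2 * ev (g * NormedSpace.exp (s • A)) (dA A p) =
        ev (g * NormedSpace.exp (s • A)) (dA A p) * (g * NormedSpace.exp (s • A)) n.1 n.2 +
        ev (g * NormedSpace.exp (s • A)) p * (g * NormedSpace.exp (s • A) * A) n.1 n.2 := by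
      ring
    rw [h5]
    exact h3

end Pool.Agent.Lib.MP_aa9b81_an.Z
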