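import Mathlib
import Pool.Agent.Lib.MP_aa9b81_an.Zar1

/-!
Tangent vectors at the identity of the Zariski closure of a group generated by exponentials.
-/

set_option autoImplicit false
set_option linter.unusedSectionVars false

open Matrix Filter Topology MvPolynomial

namespace Pool.Agent.Lib.MP_aa9b81_an.Z

variable {I : Type*} [Fintype I] [DecidableEq I]

/-- The Lie algebra of the Zariski closure is `L`. -/
def IsAlg (L : Submodule ℝ (Mt I)) : Prop :=
  ∀ A : Mt I, (∀ P ∈ J L, ∀ t : ℝ, ev (NormedSpace.exp (t • A)) P = 0) → A ∈ L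

lemma dA_mem_J {L : Submodule ℝ (Mt I)} {A : Mt I} (hA : A ∈ L) {P : Rx I} (hP : P ∈ J L) :
    dA A P ∈ J L := by
  intro g hg
  have h1 := hasDerivAt_ev g A P 0
  have h2 : (fun s : ℝ => ev (g * NormedSpace.exp (s • A)) P) = fun _ => 0 := by
    funext s
    exact hP _ ((Gen L).mul_mem hg (exp_mem_Gen (L.smul_mem s hA)))
  rw [h2] at h1
  have h3 := h1.unique (hasDerivAt_const (0 : ℝ) (0 : ℝ))
  rw [zero_smul, NormedSpace.exp_zero, mul_one] at h3
  exact h3

lemma dA_mem_J_of_tangent {L : Submodule ℝ (Mt I)} {A : Mt I}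
    (hA : ∀ P ∈ J L, ev 1 (dA A P) = 0) {P : Rx I} (hP : P ∈ J L) : dA A P ∈ J L := by
  intro g hg
  have h1 := hA _ (trl_mem_J hP hg)
  rw [dA_trl, ev_trl, mul_one] at h1
  exact h1

lemma ev_exp_eq_zero {L : Submodule ℝ (Mt I)} {A : Mt I} (h : ∀ P ∈ J L, dA A P ∈ J L)
    {P : Rx I} (hP : P ∈ J L) (t : ℝ) : ev (NormedSpace.exp (t • A)) P = 0 := by
  have han : ∀ Q : Rx I, AnalyticOnNhd ℝ (fun s : ℝ => ev (NormedSpace.exp (s • A)) Q) Set.univ :=
    fun Q => analytic_ev (analytic_exp A) Q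
  have hder : ∀ Q : Rx I, deriv (fun s : ℝ => ev (NormedSpace.exp (s • A)) Q) =
      fun s : ℝ => ev (NormedSpace.exp (s • A)) (dA A Q) := by
    intro Q
    funext s
    have h1 := hasDerivAt_ev 1 A Q s
    simp only [one_mul] at h1
    exact h1.deriv
  have hzero : ∀ Q ∈ J L, ev (NormedSpace.exp ((0 : ℝ) • A)) Q = 0 := by
    intro Q hQ
    rw [zero_smul, NormedSpace.exp_zero]
    exact hQ 1 (Gen L).one_mem
  have key : ∀ n : ℕ, ∀ Q ∈ J L,
      analyticOrderAt (fun s : ℝ => ev (NormedSpace.exp (s • A)) Q) 0 ≠ n := by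
    intro n
    induction n with
    | zero =>
      intro Q hQ h0
      rw [Nat.cast_zero, AnalyticAt.analyticOrderAt_eq_zero (han Q 0 (Set.mem_univ _))] at h0
      exact h0 (hzero Q hQ)
    | succ n ih =>
      intro Q hQ h0
      have h1 := (han Q 0 (Set.mem_univ _)).analyticOrderAt_deriv_add_one
      simp only [hzero Q hQ, sub_zero] at h1
      rw [h0, hder] at h1
      apply ih (dA A Q) (h Q hQ)
      have h2 : analyticOrderAt (fun s : ℝ => ev (NormedSpace.exp (s • A)) (dA A Q)) 0 + 1 =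
          (n : ℕ∞) + 1 := by
        rw [h1]
        push_cast
        rfl
      exact (ENat.add_left_injective_of_ne_top ENat.one_ne_top) h2
  have htop : analyticOrderAt (fun s : ℝ => ev (NormedSpace.exp (s • A)) P) 0 = ⊤ := by
    by_contra hne
    obtain ⟨n, hn⟩ := ENat.ne_top_iff_exists.1 hne
    exact key n P hP hn.symm
  rw [analyticOrderAt_eq_top] at htop
  have h6 := (han P).eqOn_zero_of_preconnected_of_eventuallyEq_zero isPreconnected_univ
    (Set.mem_univ 0) htop
  exact h6 (Set.mem_univ t)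

theorem mem_of_tangent {L : Submodule ℝ (Mt I)} (hL : IsAlg L) {A : Mt I}
    (hA : ∀ P ∈ J L, ev 1 (dA A P) = 0) : A ∈ L :=
  hL A fun _ hP t => ev_exp_eq_zero (fun _ hQ => dA_mem_J_of_tangent hA hQ) hP t

/-- The gradients at the identity of the elements of the ideal, together with `L`, span. -/
lemma exists_split {L : Submodule ℝ (Mt I)} (hL : IsAlg L) (u : I × I → ℝ) :
    ∃ P ∈ J L, ∃ l ∈ L, ∀ p : I × I, ev 1 (pderiv p P) + l p.1 p.2 = u p := by
  -- the subspace of all such vectors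
  let S : Submodule ℝ (I × I → ℝ) :=
    { carrier := {u | ∃ P ∈ J L, ∃ l ∈ L, ∀ p : I × I, ev 1 (pderiv p P) + l p.1 p.2 = u p}
      zero_mem' := ⟨0, (J L).zero_mem, 0, L.zero_mem, fun p => by simp⟩
      add_mem' := by
        rintro u v ⟨P, hP, l, hl, h⟩ ⟨Q, hQ, m, hm, k⟩
        refine ⟨P + Q, (J L).add_mem hP hQ, l + m, L.add_mem hl hm, fun p => ?_⟩
        rw [map_add, map_add, Matrix.add_apply, Pi.add_apply, ← h, ← k]
        ring
      smul_mem' := by
        rintro c u ⟨P, hP, l, hl, h⟩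
        refine ⟨C c * P, (J L).mul_mem_left _ hP, c • l, L.smul_mem c hl, fun p => ?_⟩
        rw [Derivation.leibniz, MvPolynomial.pderiv_C, smul_zero, add_zero, smul_eq_mul, map_mul,
          ev_C, Matrix.smul_apply, smul_eq_mul, Pi.smul_apply, smul_eq_mul, ← h]
        ring }
  have hS : S = ⊤ := by
    by_contra hne
    obtain ⟨f, hf0, hf⟩ := Submodule.exists_le_ker_of_lt_top S (lt_top_iff_ne_top.2 hne)
    apply hf0
    have hsum : ∀ v : I × I → ℝ, f v = ∑ p, v p * f (Pi.single p 1) := by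
      intro v
      conv_lhs => rw [← Finset.univ_sum_single v]
      rw [map_sum]
      refine Finset.sum_congr rfl fun p _ => ?_
      have : (Pi.single p (v p) : I × I → ℝ) = v p • Pi.single p 1 := by
        rw [← Pi.single_smul, smul_eq_mul, mul_one]
      rw [this, map_smul, smul_eq_mul]
    set w : Mt I := fun i j => f (Pi.single (i, j) 1) with hw
    have hwL : w ∈ L := by
      refine mem_of_tangent hL fun P hP => ?_
      rw [ev_dA]
      have h1 : (fun p : I × I => ev 1 (pderiv p P)) ∈ S := ⟨P, hP, 0, L.zero_mem, fun p => by simp⟩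
      have h2 := hf h1
      rw [LinearMap.mem_ker, hsum] at h2
      rw [one_mul]
      exact h2
    have h3 : (fun p : I × I => w p.1 p.2) ∈ S := ⟨0, (J L).zero_mem, w, hwL, fun p => by simp⟩
    have h4 := hf h3
    rw [LinearMap.mem_ker, hsum] at h4
    have h5 : ∀ p : I × I, f (Pi.single p 1) = 0 := by
      intro p
      have h6 : ∀ q ∈ (Finset.univ : Finset (I × I)), 0 ≤ w q.1 q.2 * f (Pi.single q 1) := by
        intro q _
        exact mul_self_nonneg _
      have h7 := (Finset.sum_eq_zero_iff_of_nonneg h6).1 h4 p (Finset.mem_univ p)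
      exact mul_self_eq_zero.1 h7
    ext p
    simp [h5]
  have hu : u ∈ S := hS ▸ Submodule.mem_top
  exact hu

end Pool.Agent.Lib.MP_aa9b81_an.Z
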