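import Mathlib
import Pool.Agent.Lib.MP_aa9b81_an.Zar2

/-!
The function field: every tangent vector is a combination of the invariant ones.
-/

set_option autoImplicit false
set_option linter.unusedSectionVars false

open Matrix Filter Topology MvPolynomial Module

namespace Pool.Agent.Lib.MP_aa9b81_an.Z

variable {I : Type} [Fintype I] [DecidableEq I]

variable {K : Type} [Field K] [Algebra ℝ K]

lemma pi_C (π : Rx I →ₐ[ℝ] K) (a : ℝ) : π (C a) = algebraMap ℝ K a := by
  have h := π.commutes a
  rw [MvPolynomial.algebraMap_eq] at h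
  exact h

/-- Tangent vectors at the generic point. -/
def TK (L : Submodule ℝ (Mt I)) (π : Rx I →ₐ[ℝ] K) : Submodule K (I × I → K) where
  carrier := {w | ∀ P ∈ J L, ∑ p, π (pderiv p P) * w p = 0}
  zero_mem' := fun P _ => by simp
  add_mem' := fun {v w} hv hw P hP => by
    have h1 := hv P hP
    have h2 := hw P hP
    simp only [Pi.add_apply, mul_add, Finset.sum_add_distrib, h1, h2, add_zero]
  smul_mem' := fun c w hw P hP => by
    have h1 := hw P hP
    have h2 : ∑ p, π (pderiv p P) * (c • w) p = c * ∑ p, π (pderiv p P) * w p := by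
      rw [Finset.mul_sum]
      refine Finset.sum_congr rfl fun p _ => ?_
      rw [Pi.smul_apply, smul_eq_mul]
      ring
    rw [h2, h1, mul_zero]

lemma mem_TK {L : Submodule ℝ (Mt I)} {π : Rx I →ₐ[ℝ] K} {w : I × I → K} :
    w ∈ TK L π ↔ ∀ P ∈ J L, ∑ p, π (pderiv p P) * w p = 0 := Iff.rfl

/-- The invariant tangent vectors at the generic point. -/
noncomputable def va (π : Rx I →ₐ[ℝ] K) (A : Mt I) : I × I → K :=
  fun p => π (dA A (X p))

lemma sum_va {π : Rx I →ₐ[ℝ] K} (A : Mt I) (P : Rx I) :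
    ∑ p, π (pderiv p P) * va π A p = π (dA A P) := by
  rw [dA_eq_sum, map_sum]
  refine Finset.sum_congr rfl fun p _ => ?_
  rw [map_mul]
  rfl

lemma va_mem {L : Submodule ℝ (Mt I)} {π : Rx I →ₐ[ℝ] K} (h0 : ∀ P ∈ J L, π P = 0) {A : Mt I}
    (hA : A ∈ L) : va π A ∈ TK L π := by
  intro P hP
  rw [sum_va]
  exact h0 _ (dA_mem_J hA hP)

lemma eq_zero_of_orth {L : Submodule ℝ (Mt I)} (hL : IsAlg L) {π : Rx I →ₐ[ℝ] K}
    (hone : ∀ P, ev 1 P ≠ 0 → π P ≠ 0) {w : I × I → K} (hw : w ∈ TK L π)
    (h : ∀ A ∈ L, ∑ p : I × I, algebraMap ℝ (K) (A p.1 p.2) * w p = 0) : w = 0 := by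
  classical
  have h1 := fun q : I × I => exists_split hL (Pi.single q 1)
  choose P hP l hl hPl using h1
  let M : Matrix (I × I) (I × I) (Rx I) := fun q p => pderiv p (P q) + C (l q p.1 p.2)
  have hM1 : (M.map (ev 1)) = 1 := by
    ext q p
    rw [Matrix.map_apply]
    change ev 1 (pderiv p (P q) + C (l q p.1 p.2)) = _
    rw [map_add, ev_C, hPl, Matrix.one_apply, Pi.single_apply]
    simp only [eq_comm]
  have hdet : (M.map (π)).det ≠ 0 := by
    have h2 : (M.map (π)).det = π M.det := by
      have := (RingHom.map_det (π : Rx I →+* K) M).symm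
      exact this
    rw [h2]
    apply hone
    have h3 : ev 1 M.det = (M.map (ev 1)).det := by
      have := (RingHom.map_det ((ev (1 : Mt I)).toRingHom) M)
      exact this
    rw [h3, hM1, Matrix.det_one]
    exact one_ne_zero
  apply Matrix.eq_zero_of_mulVec_eq_zero hdet
  ext q
  rw [Matrix.mulVec, dotProduct, Pi.zero_apply]
  have h4 : ∀ p, M.map (π) q p * w p =
      π (pderiv p (P q)) * w p + algebraMap ℝ (K) (l q p.1 p.2) * w p := by
    intro p
    rw [Matrix.map_apply]
    change π (pderiv p (P q) + C (l q p.1 p.2)) * w p = _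
    rw [map_add, pi_C, add_mul]
  rw [Finset.sum_congr rfl fun p _ => h4 p, Finset.sum_add_distrib, hw _ (hP q), h _ (hl q),
    add_zero]

lemma exists_dual {L : Submodule ℝ (Mt I)} {σ : Type} [Fintype σ] [DecidableEq σ]
    (b : Basis σ ℝ L) :
    ∃ N : σ → I × I → ℝ, ∀ a a', ∑ p, N a p * (b a' : Mt I) p.1 p.2 = if a = a' then 1 else 0 := by
  classical
  have h1 := fun a : σ => LinearMap.exists_extend (b.coord a)
  choose f hf using h1
  refine ⟨fun a p => f a (Matrix.single p.1 p.2 1), fun a a' => ?_⟩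
  have h2 : f a (b a' : Mt I) = b.coord a (b a') := by
    rw [← hf a]
    rfl
  have h3 : (b a' : Mt I) = ∑ p : I × I, (b a' : Mt I) p.1 p.2 • Matrix.single p.1 p.2 1 := by
    conv_lhs => rw [Matrix.matrix_eq_sum_single (b a' : Mt I)]
    rw [Fintype.sum_prod_type]
    refine Finset.sum_congr rfl fun i _ => Finset.sum_congr rfl fun j _ => ?_
    rw [Matrix.smul_single, smul_eq_mul, mul_one]
  have h4 : f a (b a' : Mt I) = ∑ p : I × I, f a (Matrix.single p.1 p.2 1) * (b a' : Mt I) p.1 p.2 := by
    conv_lhs => rw [h3]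
    rw [map_sum]
    refine Finset.sum_congr rfl fun p _ => ?_
    rw [map_smul, smul_eq_mul, mul_comm]
  rw [← h4, h2, Basis.coord_apply, Basis.repr_self, Finsupp.single_apply]
  simp only [eq_comm]

lemma va_indep {L : Submodule ℝ (Mt I)} {π : Rx I →ₐ[ℝ] K}
    (hone : ∀ P, ev 1 P ≠ 0 → π P ≠ 0) {σ : Type} [Fintype σ] [DecidableEq σ]
    (b : Basis σ ℝ L) : LinearIndependent (K) (fun a => va π (b a : Mt I)) := by
  classical
  obtain ⟨N, hN⟩ := exists_dual b
  rw [Fintype.linearIndependent_iff]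
  intro c hc
  -- the matrix `∑ c_a A_a`
  let Y : Matrix I I (K) := fun i j => ∑ a, c a * algebraMap ℝ (K) ((b a : Mt I) i j)
  let x : Matrix I I (K) := fun i j => π (X (i, j))
  have hx : x.det ≠ 0 := by
    have h2 : x.det = π (Matrix.det (fun i j => X (i, j) : Matrix I I (Rx I))) := by
      have := (RingHom.map_det (π : Rx I →+* K) (fun i j => X (i, j) : Matrix I I (Rx I))).symm
      exact this
    rw [h2]
    apply hone
    have h3 : ev 1 (Matrix.det (fun i j => X (i, j) : Matrix I I (Rx I))) =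
        ((1 : Mt I)).det := by
      have h4 := (RingHom.map_det ((ev (1 : Mt I)).toRingHom)
        (fun i j => X (i, j) : Matrix I I (Rx I)))
      have h5 : (RingHom.mapMatrix (ev (1 : Mt I)).toRingHom)
          (fun i j => X (i, j) : Matrix I I (Rx I)) = (1 : Mt I) := by
        ext i j
        exact ev_X 1 (i, j)
      rw [h5] at h4
      exact h4
    rw [h3, Matrix.det_one]
    exact one_ne_zero
  have hxY : x * Y = 0 := by
    ext i j
    rw [Matrix.mul_apply, Matrix.zero_apply]
    have h6 := congrFun hc (i, j)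
    rw [Finset.sum_apply, Pi.zero_apply] at h6
    rw [← h6]
    have h7 : ∀ a, (c a • va π (b a : Mt I)) (i, j) =
        ∑ k, c a * (x i k * algebraMap ℝ (K) ((b a : Mt I) k j)) := by
      intro a
      rw [Pi.smul_apply, smul_eq_mul, ← Finset.mul_sum]
      congr 1
      rw [va, dA_X, map_sum]
      refine Finset.sum_congr rfl fun k _ => ?_
      rw [map_mul, pi_C]
    rw [Finset.sum_congr rfl fun a _ => h7 a, Finset.sum_comm]
    refine Finset.sum_congr rfl fun k _ => ?_
    change x i k * ∑ a, c a * algebraMap ℝ (K) ((b a : Mt I) k j) = _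
    rw [Finset.mul_sum]
    refine Finset.sum_congr rfl fun a _ => ?_
    ring
  have hY : Y = 0 := by
    have h8 : x⁻¹ * (x * Y) = Y := by
      rw [← mul_assoc, Matrix.nonsing_inv_mul _ (isUnit_iff_ne_zero.2 hx), one_mul]
    rw [hxY, mul_zero] at h8
    exact h8.symm
  intro a
  have h9 : ∑ p : I × I, algebraMap ℝ (K) (N a p) * Y p.1 p.2 = c a := by
    have h10 : ∀ p : I × I, algebraMap ℝ (K) (N a p) * Y p.1 p.2 =
        ∑ a', c a' * algebraMap ℝ (K) (N a p * (b a' : Mt I) p.1 p.2) := by
      intro p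
      change algebraMap ℝ (K) (N a p) * ∑ a', c a' * algebraMap ℝ (K) ((b a' : Mt I) p.1 p.2) = _
      rw [Finset.mul_sum]
      refine Finset.sum_congr rfl fun a' _ => ?_
      rw [map_mul]
      ring
    rw [Finset.sum_congr rfl fun p _ => h10 p, Finset.sum_comm]
    have h11 : ∀ a', ∑ p : I × I, c a' * algebraMap ℝ (K) (N a p * (b a' : Mt I) p.1 p.2) =
        c a' * if a = a' then 1 else 0 := by
      intro a'
      rw [← Finset.mul_sum, ← map_sum, hN]
      split_ifs
      · rw [map_one]
      · rw [map_zero]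
    rw [Finset.sum_congr rfl fun a' _ => h11 a', Finset.sum_eq_single a]
    · rw [if_pos rfl, mul_one]
    · intro a' _ ha
      rw [if_neg ha.symm, mul_zero]
    · intro h
      exact absurd (Finset.mem_univ a) h
  rw [hY] at h9
  simpa using h9.symm

lemma TK_le_span {L : Submodule ℝ (Mt I)} (hL : IsAlg L) {π : Rx I →ₐ[ℝ] K}
    (h0 : ∀ P ∈ J L, π P = 0) (hone : ∀ P, ev 1 P ≠ 0 → π P ≠ 0) {σ : Type} [Fintype σ] [DecidableEq σ]
    (b : Basis σ ℝ L) : TK L π ≤ Submodule.span (K) (Set.range fun a => va π (b a : Mt I)) := by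
  classical
  let Θ : TK L π →ₗ[K] (σ → K) :=
    { toFun := fun w a => ∑ p : I × I, algebraMap ℝ (K) ((b a : Mt I) p.1 p.2) * (w : I × I → K) p
      map_add' := fun v w => by
        ext a
        rw [Pi.add_apply, ← Finset.sum_add_distrib]
        refine Finset.sum_congr rfl fun p _ => ?_
        rw [Submodule.coe_add, Pi.add_apply, mul_add]
      map_smul' := fun c w => by
        ext a
        rw [Pi.smul_apply, smul_eq_mul, Finset.mul_sum]
        refine Finset.sum_congr rfl fun p _ => ?_
        rw [Submodule.coe_smul, Pi.smul_apply, smul_eq_mul, RingHom.id_apply]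
        ring }
  have hinj : Function.Injective Θ := by
    rw [← LinearMap.ker_eq_bot, LinearMap.ker_eq_bot']
    intro w hw
    apply Subtype.ext
    refine eq_zero_of_orth hL hone w.2 fun A hA => ?_
    have h1 : A = ∑ a, b.repr ⟨A, hA⟩ a • (b a : Mt I) := by
      have h2 := congrArg (Subtype.val) (b.sum_repr ⟨A, hA⟩)
      rw [AddSubmonoidClass.coe_finsetSum] at h2
      exact h2.symm
    have h3 : ∀ p : I × I, algebraMap ℝ (K) (A p.1 p.2) * (w : I × I → K) p =
        ∑ a, algebraMap ℝ (K) (b.repr ⟨A, hA⟩ a) *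
          (algebraMap ℝ (K) ((b a : Mt I) p.1 p.2) * (w : I × I → K) p) := by
      intro p
      have h4 : A p.1 p.2 = ∑ a, b.repr ⟨A, hA⟩ a * (b a : Mt I) p.1 p.2 := by
        conv_lhs => rw [h1]
        rw [Matrix.sum_apply]
        rfl
      rw [h4, map_sum, Finset.sum_mul]
      refine Finset.sum_congr rfl fun a _ => ?_
      rw [map_mul, mul_assoc]
    rw [Finset.sum_congr rfl fun p _ => h3 p, Finset.sum_comm]
    refine Finset.sum_eq_zero fun a _ => ?_
    rw [← Finset.mul_sum]
    have h5 := congrFun hw a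
    change ∑ p : I × I, algebraMap ℝ (K) ((b a : Mt I) p.1 p.2) * (w : I × I → K) p = 0 at h5
    rw [h5, mul_zero]
  have h1 : finrank (K) (TK L π) ≤ Fintype.card σ := by
    have := LinearMap.finrank_le_finrank_of_injective hinj
    rwa [Module.finrank_fintype_fun_eq_card] at this
  have h2 : Submodule.span (K) (Set.range fun a => va π (b a : Mt I)) ≤ TK L π := by
    rw [Submodule.span_le]
    rintro _ ⟨a, rfl⟩
    exact va_mem h0 (b a).2
  have h3 : finrank (K) (Submodule.span (K) (Set.range fun a => va π (b a : Mt I))) =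
      Fintype.card σ := finrank_span_eq_card (va_indep hone b)
  rw [Submodule.eq_of_le_of_finrank_le h2 (by rw [h3]; exact h1)]

end Pool.Agent.Lib.MP_aa9b81_an.Z
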