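import Mathlib
import Pool.Agent.Lib.MP_aa9b81_an.Zar3

/-!
Extension of derivations.
-/

set_option autoImplicit false
set_option linter.unusedSectionVars false

open Matrix Filter Topology MvPolynomial Module

namespace Pool.Agent.Lib.MP_aa9b81_an.Z

/-- Dual numbers, without their scalar structures. -/
def EE (K : Type) [Field K] : Type := TrivSqZeroExt K K

noncomputable instance (K : Type) [Field K] : CommRing (EE K) :=
  inferInstanceAs (CommRing (TrivSqZeroExt K K))

/-- First component. -/
noncomputable def efst (K : Type) [Field K] : EE K →+* K where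
  toFun := TrivSqZeroExt.fst
  map_one' := rfl
  map_mul' := fun _ _ => rfl
  map_zero' := rfl
  map_add' := fun _ _ => rfl

/-- Second component. -/
def esnd {K : Type} [Field K] (x : EE K) : K := TrivSqZeroExt.snd x

/-- Pairs. -/
def emk {K : Type} [Field K] (a b : K) : EE K := (a, b)

lemma efst_emk {K : Type} [Field K] (a b : K) : efst K (emk a b) = a := rfl

lemma esnd_emk {K : Type} [Field K] (a b : K) : esnd (emk a b) = b := rfl

lemma e_ext {K : Type} [Field K] {x y : EE K} (h1 : efst K x = efst K y) (h2 : esnd x = esnd y) :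
    x = y := TrivSqZeroExt.ext h1 h2

lemma esnd_add {K : Type} [Field K] (x y : EE K) : esnd (x + y) = esnd x + esnd y := rfl

lemma esnd_mul {K : Type} [Field K] (x y : EE K) :
    esnd (x * y) = efst K x * esnd y + efst K y * esnd x := by
  have h := TrivSqZeroExt.snd_mul (R := K) (M := K) x y
  refine h.trans ?_
  rw [op_smul_eq_smul, smul_eq_mul, smul_eq_mul]
  rfl

lemma efst_surjective (K : Type) [Field K] : Function.Surjective (efst K) :=
  fun a => ⟨emk a 0, rfl⟩

lemma ker_efst_nilpotent (K : Type) [Field K] : IsNilpotent (RingHom.ker (efst K)) := by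
  refine ⟨2, ?_⟩
  rw [pow_two, Ideal.zero_eq_bot, eq_bot_iff, Ideal.mul_le]
  intro x hx y hy
  rw [RingHom.mem_ker] at hx hy
  rw [Ideal.mem_bot]
  apply e_ext
  · rw [map_mul, hx, zero_mul, map_zero]
  · rw [esnd_mul, hx, hy, zero_mul, zero_mul, add_zero]
    rfl

/-- Algebra map to the dual numbers. -/
noncomputable def einl (K : Type) [Field K] : K →+* EE K where
  toFun := fun a => emk a 0
  map_one' := rfl
  map_mul' := fun a b => by
    apply e_ext
    · rfl
    · rw [esnd_mul, esnd_emk, esnd_emk, esnd_emk, mul_zero, mul_zero, add_zero]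
  map_zero' := rfl
  map_add' := fun a b => by
    apply e_ext
    · rfl
    · rw [esnd_add, esnd_emk, esnd_emk, esnd_emk, add_zero]

variable {ι : Type} [Fintype ι] [DecidableEq ι] {K : Type} [Field K] [Algebra ℝ K]

/-- The map to the dual numbers given by a vector. -/
noncomputable def psE (ψ : MvPolynomial ι ℝ →ₐ[ℝ] K) (w : ι → K) : MvPolynomial ι ℝ →+* EE K :=
  MvPolynomial.eval₂Hom ((einl K).comp (algebraMap ℝ K)) fun i => emk (ψ (X i)) (w i)

lemma efst_psE (ψ : MvPolynomial ι ℝ →ₐ[ℝ] K) (w : ι → K) (f : MvPolynomial ι ℝ) :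
    efst K (psE ψ w f) = ψ f := by
  have h : (efst K).comp (psE ψ w) = (ψ : MvPolynomial ι ℝ →+* K) := by
    refine MvPolynomial.ringHom_ext (fun r => ?_) fun i => ?_
    · rw [RingHom.comp_apply, psE, MvPolynomial.coe_eval₂Hom, MvPolynomial.eval₂_C]
      have h1 := ψ.commutes r
      rw [MvPolynomial.algebraMap_eq] at h1
      exact h1.symm
    · rw [RingHom.comp_apply, psE, MvPolynomial.coe_eval₂Hom, MvPolynomial.eval₂_X]
      rfl
  exact RingHom.congr_fun h f

lemma esnd_psE (ψ : MvPolynomial ι ℝ →ₐ[ℝ] K) (w : ι → K) (f : MvPolynomial ι ℝ) :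
    esnd (psE ψ w f) = ∑ i, ψ (pderiv i f) * w i := by
  induction f using MvPolynomial.induction_on with
  | C a =>
    have h1 : psE ψ w (C a) = einl K (algebraMap ℝ K a) := by
      rw [psE, MvPolynomial.coe_eval₂Hom, MvPolynomial.eval₂_C]
      rfl
    rw [h1]
    simp only [MvPolynomial.pderiv_C, map_zero, zero_mul, Finset.sum_const_zero]
    rfl
  | add p q hp hq =>
    rw [map_add, esnd_add, hp, hq, ← Finset.sum_add_distrib]
    refine Finset.sum_congr rfl fun i _ => ?_
    rw [map_add, map_add, add_mul]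
  | mul_X p n hp =>
    have h1 : psE ψ w (X n) = emk (ψ (X n)) (w n) := by
      rw [psE, MvPolynomial.coe_eval₂Hom, MvPolynomial.eval₂_X]
    rw [map_mul, esnd_mul, efst_psE, hp, h1, esnd_emk, efst_emk]
    have h2 : ∀ i, ψ (pderiv i (p * X n)) * w i =
        ψ p * (ψ (pderiv i (X n : MvPolynomial ι ℝ)) * w i) + ψ (X n) * (ψ (pderiv i p) * w i) := by
      intro i
      rw [Derivation.leibniz, smul_eq_mul, smul_eq_mul, map_add, map_mul, map_mul]
      ring
    rw [Finset.sum_congr rfl fun i _ => h2 i, Finset.sum_add_distrib, ← Finset.mul_sum,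
      ← Finset.mul_sum]
    congr 2
    rw [Finset.sum_eq_single n]
    · rw [pderiv_X_self, map_one, one_mul]
    · intro i _ hi
      rw [pderiv_X_of_ne hi.symm, map_zero, zero_mul]
    · intro h
      exact absurd (Finset.mem_univ n) h

section

variable [Algebra.EssFiniteType ℝ K] (ψ : MvPolynomial ι ℝ →ₐ[ℝ] K)

/-- The image ring. -/
abbrev S0 : Type := MvPolynomial ι ℝ ⧸ RingHom.ker (ψ : MvPolynomial ι ℝ →+* K)

theorem formallySmooth_S0 :
    letI : Algebra (S0 ψ) K := (RingHom.kerLift (ψ : MvPolynomial ι ℝ →+* K)).toAlgebra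
    Algebra.FormallySmooth (S0 ψ) K := by
  let _ : Algebra (S0 ψ) K := (RingHom.kerLift (ψ : MvPolynomial ι ℝ →+* K)).toAlgebra
  have hinj : Function.Injective (algebraMap (S0 ψ) K) := RingHom.kerLift_injective _
  have : (RingHom.ker (ψ : MvPolynomial ι ℝ →+* K)).IsPrime := RingHom.ker_isPrime _
  have : FaithfulSMul (S0 ψ) K := (faithfulSMul_iff_algebraMap_injective _ _).2 hinj
  let _ : Algebra (FractionRing (S0 ψ)) K := FractionRing.liftAlgebra (S0 ψ) K
  have : IsScalarTower (S0 ψ) (FractionRing (S0 ψ)) K := FractionRing.isScalarTower_liftAlgebra _ _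
  have : IsScalarTower ℝ (FractionRing (S0 ψ)) K := by
    refine IsScalarTower.of_algebraMap_eq fun r => ?_
    rw [IsScalarTower.algebraMap_apply ℝ (S0 ψ) (FractionRing (S0 ψ)),
      ← IsScalarTower.algebraMap_apply (S0 ψ) (FractionRing (S0 ψ)) K]
    have h1 := ψ.commutes r
    exact h1.symm
  have : Algebra.EssFiniteType (FractionRing (S0 ψ)) K :=
    Algebra.EssFiniteType.of_comp ℝ (FractionRing (S0 ψ)) K
  have : CharZero (FractionRing (S0 ψ)) :=
    charZero_of_injective_algebraMap (algebraMap ℝ (FractionRing (S0 ψ))).injective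
  have : Algebra.FormallySmooth (S0 ψ) (FractionRing (S0 ψ)) :=
    Algebra.FormallySmooth.of_isLocalization (nonZeroDivisors (S0 ψ))
  exact Algebra.FormallySmooth.comp (S0 ψ) (FractionRing (S0 ψ)) K

/-- Extension of derivations. -/
theorem exists_derivation (w : ι → K)
    (hw : ∀ f : MvPolynomial ι ℝ, ψ f = 0 → ∑ i, ψ (pderiv i f) * w i = 0) :
    ∃ D : K → K, (∀ x y, D (x + y) = D x + D y) ∧ (∀ x y, D (x * y) = x * D y + y * D x) ∧
      (∀ a : ℝ, D (algebraMap ℝ K a) = 0) ∧ ∀ i, D (ψ (X i)) = w i := by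
  let i1 : Algebra (S0 ψ) K := (RingHom.kerLift (ψ : MvPolynomial ι ℝ →+* K)).toAlgebra
  have := formallySmooth_S0 ψ
  have hker : ∀ f ∈ RingHom.ker (ψ : MvPolynomial ι ℝ →+* K), psE ψ w f = 0 := by
    intro f hf
    have hf' : ψ f = 0 := hf
    apply e_ext
    · rw [efst_psE, hf', map_zero]
    · rw [esnd_psE, hw f hf']
      rfl
  let i2 : Algebra (S0 ψ) (EE K) := (Ideal.Quotient.lift _ (psE ψ w) hker).toAlgebra
  let q : EE K →ₐ[S0 ψ] K :=
    { efst K with
      commutes' := fun r => by
        obtain ⟨f, rfl⟩ := Ideal.Quotient.mk_surjective r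
        exact efst_psE ψ w f }
  have hq : Function.Surjective q := efst_surjective K
  have hnil : IsNilpotent (RingHom.ker (q : EE K →+* K)) := ker_efst_nilpotent K
  let l := Algebra.FormallySmooth.liftOfSurjective (AlgHom.id (S0 ψ) K) q hq hnil
  have hl : ∀ x, efst K (l x) = x := fun x =>
    Algebra.FormallySmooth.liftOfSurjective_apply (AlgHom.id (S0 ψ) K) q hq hnil x
  have hlf : ∀ f : MvPolynomial ι ℝ, l (ψ f) = psE ψ w f := by
    intro f
    exact l.commutes (Ideal.Quotient.mk _ f)
  refine ⟨fun x => esnd (l x), fun x y => ?_, fun x y => ?_, fun a => ?_, fun i => ?_⟩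
  · simp only [map_add, esnd_add]
  · simp only [map_mul, esnd_mul, hl]
  · have h1 : algebraMap ℝ K a = ψ (C a) := by
      have h1 := ψ.commutes a
      rw [MvPolynomial.algebraMap_eq] at h1
      exact h1.symm
    simp only
    rw [h1, hlf, esnd_psE]
    simp
  · simp only
    rw [hlf, psE, MvPolynomial.coe_eval₂Hom, MvPolynomial.eval₂_X, esnd_emk]

end

end Pool.Agent.Lib.MP_aa9b81_an.Z
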