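import Mathlib
import Pool.Agent.Lib.MP_aa9b81_an.Zar4

/-!
Polynomials on the product of the group and of a variety.
-/

set_option autoImplicit false
set_option linter.unusedSectionVars false

open Matrix Filter Topology MvPolynomial Module

namespace Pool.Agent.Lib.MP_aa9b81_an.Z

variable {I : Type} [Fintype I] [DecidableEq I] {ι : Type} [Fintype ι] [DecidableEq ι]

/-- Polynomials in the entries of a matrix and in further variables. -/
abbrev Ry (I ι : Type) : Type := MvPolynomial ((I × I) ⊕ ι) ℝ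

/-- Evaluation at a matrix and a vector. -/
noncomputable def ev2 (g : Mt I) (v : ι → ℝ) : Ry I ι →ₐ[ℝ] ℝ :=
  aeval (Sum.elim (fun p : I × I => g p.1 p.2) v)

lemma ev2_inl (g : Mt I) (v : ι → ℝ) (p : I × I) : ev2 g v (X (Sum.inl p)) = g p.1 p.2 := by
  rw [ev2, aeval_X]
  rfl

lemma ev2_inr (g : Mt I) (v : ι → ℝ) (j : ι) : ev2 g v (X (Sum.inr j)) = v j := by
  rw [ev2, aeval_X]
  rfl

lemma ev2_C (g : Mt I) (v : ι → ℝ) (a : ℝ) : ev2 g v (C a) = a := by
  rw [ev2, MvPolynomial.aeval_C]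
  rfl

/-- Inclusion of the polynomials in the entries of the matrix. -/
noncomputable def inx (I ι : Type) : Rx I →ₐ[ℝ] Ry I ι := rename Sum.inl

lemma ev2_inx (g : Mt I) (v : ι → ℝ) (P : Rx I) : ev2 g v (inx I ι P) = ev g P := by
  rw [ev2, inx, aeval_rename]
  rfl

/-- Specialization of the vector. -/
noncomputable def spx (v : ι → ℝ) : Ry I ι →ₐ[ℝ] Rx I :=
  aeval (Sum.elim (fun p => X p) (fun j => C (v j)))

/-- Specialization of the matrix. -/
noncomputable def spy (g : Mt I) : Ry I ι →ₐ[ℝ] MvPolynomial ι ℝ :=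
  aeval (Sum.elim (fun p => C (g p.1 p.2)) (fun j => X j))

lemma ev_spx (g : Mt I) (v : ι → ℝ) (P : Ry I ι) : ev g (spx v P) = ev2 g v P := by
  have h : (ev g).comp (spx v) = ev2 g v := by
    refine MvPolynomial.algHom_ext fun i => ?_
    rw [AlgHom.comp_apply, spx, aeval_X]
    rcases i with p | j
    · rw [ev2_inl]
      exact ev_X g p
    · rw [ev2_inr]
      exact ev_C g (v j)
  exact DFunLike.congr_fun h P

lemma eval_spy (g : Mt I) (v : ι → ℝ) (P : Ry I ι) :
    MvPolynomial.eval v (spy g P) = ev2 g v P := by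
  have h : ((aeval v : MvPolynomial ι ℝ →ₐ[ℝ] ℝ)).comp (spy g) = ev2 g v := by
    refine MvPolynomial.algHom_ext fun i => ?_
    rw [AlgHom.comp_apply, spy, aeval_X]
    rcases i with p | j
    · rw [ev2_inl, Sum.elim_inl, MvPolynomial.aeval_C]
      rfl
    · rw [ev2_inr, Sum.elim_inr, aeval_X]
  exact DFunLike.congr_fun h P

/-- The ideal of the polynomials vanishing on the product. -/
noncomputable def JZ (L : Submodule ℝ (Mt I)) (Z : Set (ι → ℝ)) : Ideal (Ry I ι) where
  carrier := {P | ∀ g ∈ Gen L, ∀ v ∈ Z, ev2 g v P = 0}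
  zero_mem' := fun g _ v _ => map_zero _
  add_mem' := fun ha hb g hg v hv => by rw [map_add, ha g hg v hv, hb g hg v hv, add_zero]
  smul_mem' := fun c P hP g hg v hv => by rw [smul_eq_mul, map_mul, hP g hg v hv, mul_zero]

lemma mem_JZ {L : Submodule ℝ (Mt I)} {Z : Set (ι → ℝ)} {P : Ry I ι} :
    P ∈ JZ L Z ↔ ∀ g ∈ Gen L, ∀ v ∈ Z, ev2 g v P = 0 := Iff.rfl

/-- The ideal of the polynomials vanishing on a set. -/
noncomputable def IZ (Z : Set (ι → ℝ)) : Ideal (MvPolynomial ι ℝ) where
  carrier := {P | ∀ v ∈ Z, MvPolynomial.eval v P = 0}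
  zero_mem' := fun v _ => map_zero _
  add_mem' := fun ha hb v hv => by rw [map_add, ha v hv, hb v hv, add_zero]
  smul_mem' := fun c P hP v hv => by rw [smul_eq_mul, map_mul, hP v hv, mul_zero]

lemma mem_IZ {Z : Set (ι → ℝ)} {P : MvPolynomial ι ℝ} :
    P ∈ IZ Z ↔ ∀ v ∈ Z, MvPolynomial.eval v P = 0 := Iff.rfl

/-- Every polynomial vanishing on the product splits the variety. -/
lemma split_of_mul_mem {L : Submodule ℝ (Mt I)} {v : ι → ℝ} {P Q : Ry I ι}
    (h : ∀ g ∈ Gen L, ev2 g v (P * Q) = 0) :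
    (∀ g ∈ Gen L, ev2 g v P = 0) ∨ (∀ g ∈ Gen L, ev2 g v Q = 0) := by
  have h1 : spx v P * spx v Q ∈ J L := by
    intro g hg
    rw [← map_mul, ev_spx]
    exact h g hg
  rcases (J_prime L).mem_or_mem h1 with h2 | h2
  · left
    intro g hg
    rw [← ev_spx]
    exact h2 g hg
  · right
    intro g hg
    rw [← ev_spx]
    exact h2 g hg

theorem JZ_prime {L : Submodule ℝ (Mt I)} {Z : Set (ι → ℝ)} (hZ : (IZ Z).IsPrime) :
    (JZ L Z).IsPrime := by
  have hne : Z.Nonempty := by
    by_contra hcon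
    rw [Set.not_nonempty_iff_eq_empty] at hcon
    apply hZ.ne_top
    rw [Ideal.eq_top_iff_one]
    intro v hv
    rw [hcon] at hv
    exact absurd hv (Set.notMem_empty v)
  refine ⟨?_, ?_⟩
  · intro h
    have h1 : (1 : Ry I ι) ∈ JZ L Z := h ▸ Submodule.mem_top
    obtain ⟨v, hv⟩ := hne
    have h2 := h1 1 (Gen L).one_mem v hv
    rw [map_one] at h2
    exact one_ne_zero h2
  · intro P Q hPQ
    -- the polynomials vanishing on one of the two parts
    have key : ∀ P : Ry I ι, (∀ a : MvPolynomial ι ℝ,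
        (∀ v ∈ Z, (∀ g ∈ Gen L, ev2 g v P = 0) → MvPolynomial.eval v a = 0) → a ∈ IZ Z) →
        P ∈ JZ L Z := by
      intro P h g hg v hv
      have h1 := h (spy g P) (fun v _ hP => by
        rw [eval_spy]
        exact hP g hg) v hv
      rwa [eval_spy] at h1
    by_contra hcon
    push Not at hcon
    obtain ⟨hP, hQ⟩ := hcon
    have hP' := mt (key P) hP
    have hQ' := mt (key Q) hQ
    push Not at hP' hQ'
    obtain ⟨a, ha, haZ⟩ := hP'
    obtain ⟨b, hb, hbZ⟩ := hQ'
    have hab : a * b ∈ IZ Z := by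
      intro v hv
      rw [map_mul]
      rcases split_of_mul_mem (fun g hg => hPQ g hg v hv) with h | h
      · rw [ha v hv h, zero_mul]
      · rw [hb v hv h, mul_zero]
    rcases hZ.mem_or_mem hab with h | h
    · exact haZ h
    · exact hbZ h

/-- The invariant derivation, constant on the further variables. -/
noncomputable def dB (A : Mt I) : Derivation ℝ (Ry I ι) (Ry I ι) :=
  mkDerivation ℝ (Sum.elim (fun p : I × I => ∑ k, X (Sum.inl (p.1, k)) * C (A k p.2))
    (fun _ => 0))

lemma dB_inl (A : Mt I) (p : I × I) :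
    dB A (X (Sum.inl p) : Ry I ι) = ∑ k, X (Sum.inl (p.1, k)) * C (A k p.2) := by
  rw [dB, mkDerivation_X]
  rfl

lemma dB_inr (A : Mt I) (j : ι) : dB A (X (Sum.inr j) : Ry I ι) = 0 := by
  rw [dB, mkDerivation_X]
  rfl

lemma inx_X (p : I × I) : inx I ι (X p) = X (Sum.inl p) := by
  rw [inx, rename_X]

lemma inx_C (a : ℝ) : inx I ι (C a) = C a := by
  rw [inx, rename_C]

lemma dB_inx (A : Mt I) (P : Rx I) : dB A (inx I ι P) = inx I ι (dA A P) := by
  induction P using MvPolynomial.induction_on with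
  | C a => rw [inx_C, MvPolynomial.derivation_C, MvPolynomial.derivation_C, map_zero]
  | add p q hp hq => rw [map_add, map_add, hp, hq, map_add, map_add]
  | mul_X p n hp =>
    rw [map_mul, Derivation.leibniz, Derivation.leibniz, map_add, hp, smul_eq_mul, smul_eq_mul,
      smul_eq_mul, smul_eq_mul, map_mul, map_mul]
    congr 2
    rw [inx_X, dB_inl, dA_X, map_sum]
    refine Finset.sum_congr rfl fun k _ => ?_
    rw [map_mul, inx_X, inx_C]

lemma spx_dB (v : ι → ℝ) (A : Mt I) (P : Ry I ι) : spx v (dB A P) = dA A (spx v P) := by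
  induction P using MvPolynomial.induction_on with
  | C a =>
    have h1 : spx v (C a : Ry I ι) = C a := by
      rw [spx, MvPolynomial.aeval_C, MvPolynomial.algebraMap_eq]
    rw [h1, MvPolynomial.derivation_C, MvPolynomial.derivation_C, map_zero]
  | add p q hp hq => rw [map_add, map_add, hp, hq, map_add, map_add]
  | mul_X p n hp =>
    rw [map_mul (spx v) p (X n), Derivation.leibniz, Derivation.leibniz, map_add, smul_eq_mul,
      smul_eq_mul, smul_eq_mul, smul_eq_mul, map_mul (spx v), map_mul (spx v), hp]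
    congr 2
    rcases n with q | j
    · have h2 : ∀ q, spx v (X (Sum.inl q) : Ry I ι) = X q := by
        intro q
        rw [spx, aeval_X]
        rfl
      rw [dB_inl, h2, dA_X, map_sum]
      refine Finset.sum_congr rfl fun k _ => ?_
      rw [map_mul, h2]
      congr 1
      rw [spx, MvPolynomial.aeval_C, MvPolynomial.algebraMap_eq]
    · have h3 : spx v (X (Sum.inr j) : Ry I ι) = C (v j) := by
        rw [spx, aeval_X]
        rfl
      rw [dB_inr, h3, map_zero, MvPolynomial.derivation_C]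

lemma ev2_dB (g : Mt I) (v : ι → ℝ) (A : Mt I) (P : Ry I ι) :
    ev2 g v (dB A P) = ev g (dA A (spx v P)) := by
  rw [← ev_spx, spx_dB]

lemma dB_mem_JZ {L : Submodule ℝ (Mt I)} {Z : Set (ι → ℝ)} {A : Mt I} (hA : A ∈ L)
    {P : Ry I ι} (hP : P ∈ JZ L Z) : dB A P ∈ JZ L Z := by
  intro g hg v hv
  rw [ev2_dB]
  refine dA_mem_J hA (P := spx v P) ?_ g hg
  intro h hh
  rw [ev_spx]
  exact hP h hh v hv

lemma dB_eq_sum (A : Mt I) (P : Ry I ι) :
    dB A P = ∑ p : I × I, pderiv (Sum.inl p) P * dB A (X (Sum.inl p)) := by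
  rw [mkDerivation_eq_sum (dB A) P, Fintype.sum_sum_type]
  have h1 : ∑ j : ι, pderiv (Sum.inr j) P • dB A (X (Sum.inr j) : Ry I ι) = 0 := by
    refine Finset.sum_eq_zero fun j _ => ?_
    rw [dB_inr, smul_zero]
  rw [h1, add_zero]
  rfl

/-- Chain rule. -/
lemma dB_aeval {τ : Type} [Fintype τ] [DecidableEq τ] (A : Mt I) (φ : τ → Ry I ι)
    (f : MvPolynomial τ ℝ) :
    dB A (aeval φ f) = ∑ i, aeval φ (pderiv i f) * dB A (φ i) := by
  induction f using MvPolynomial.induction_on with
  | C a =>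
    have h1 : aeval φ (C a) = (C a : Ry I ι) := by
      rw [MvPolynomial.aeval_C, MvPolynomial.algebraMap_eq]
    rw [h1, MvPolynomial.derivation_C]
    simp
  | add p q hp hq =>
    rw [map_add, map_add, hp, hq, ← Finset.sum_add_distrib]
    refine Finset.sum_congr rfl fun i _ => ?_
    rw [map_add, map_add, add_mul]
  | mul_X p n hp =>
    rw [map_mul, Derivation.leibniz, hp, aeval_X, smul_eq_mul, smul_eq_mul, Finset.mul_sum]
    have h2 : ∀ i, aeval φ (pderiv i (p * X n)) * dB A (φ i) =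
        aeval φ p * (aeval φ (pderiv i (X n : MvPolynomial τ ℝ)) * dB A (φ i)) +
          φ n * (aeval φ (pderiv i p) * dB A (φ i)) := by
      intro i
      rw [Derivation.leibniz, smul_eq_mul, smul_eq_mul, map_add, map_mul, map_mul, aeval_X]
      ring
    rw [Finset.sum_congr rfl fun i _ => h2 i, Finset.sum_add_distrib]
    congr 1
    rw [← Finset.mul_sum]
    congr 1
    rw [Finset.sum_eq_single n]
    · rw [pderiv_X_self, map_one, one_mul]
    · intro i _ hi
      rw [pderiv_X_of_ne hi.symm, map_zero, zero_mul]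
    · intro h
      exact absurd (Finset.mem_univ n) h

end Pool.Agent.Lib.MP_aa9b81_an.Z
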