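import Mathlib
import Pool.Agent.Lib.MP_aa9b81_an.Zar5

/-!
Generic points of families of orbits.
-/

set_option autoImplicit false
set_option linter.unusedSectionVars false

open Matrix Filter Topology MvPolynomial Module

namespace Pool.Agent.Lib.MP_aa9b81_an.Z

section General

variable {R : Type} [CommRing R] [Algebra ℝ R] (𝔓 : Ideal R) [h𝔓 : 𝔓.IsPrime]

/-- The residue field. -/
abbrev KF : Type := FractionRing (R ⧸ 𝔓)

/-- Restriction to the generic point. -/
noncomputable def pK : R →ₐ[ℝ] KF 𝔓 :=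
  (IsScalarTower.toAlgHom ℝ (R ⧸ 𝔓) (KF 𝔓)).comp (Ideal.Quotient.mkₐ ℝ 𝔓)

lemma pK_apply (P : R) :
    pK 𝔓 P = algebraMap (R ⧸ 𝔓) (KF 𝔓) (Ideal.Quotient.mk 𝔓 P) := rfl

lemma pK_eq_zero {P : R} : pK 𝔓 P = 0 ↔ P ∈ 𝔓 := by
  rw [pK_apply, map_eq_zero_iff _ (IsFractionRing.injective (R ⧸ 𝔓) (KF 𝔓)),
    Ideal.Quotient.eq_zero_iff_mem]

instance essFiniteType_KF [Algebra.FiniteType ℝ R] : Algebra.EssFiniteType ℝ (KF 𝔓) := by
  have : Algebra.EssFiniteType (R ⧸ 𝔓) (KF 𝔓) :=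
    Algebra.EssFiniteType.of_isLocalization (KF 𝔓) (nonZeroDivisors (R ⧸ 𝔓))
  have : Algebra.EssFiniteType ℝ (R ⧸ 𝔓) := inferInstance
  exact Algebra.EssFiniteType.comp ℝ (R ⧸ 𝔓) (KF 𝔓)

/-- Independence at the generic point gives independence at most points. -/
lemma generic_indep {κ ι : Type} [Fintype κ] [DecidableEq κ] [Fintype ι] [DecidableEq ι]
    (u : κ → ι → R) (h : LinearIndependent (KF 𝔓) (fun k i => pK 𝔓 (u k i))) :
    ∃ m : R, m ∉ 𝔓 ∧ ∀ e : R →ₐ[ℝ] ℝ, (∀ P ∈ 𝔓, e P = 0) → e m ≠ 0 →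
      LinearIndependent ℝ (fun k i => e (u k i)) := by
  classical
  let T : (κ → KF 𝔓) →ₗ[KF 𝔓] (ι → KF 𝔓) :=
    Fintype.linearCombination (KF 𝔓) (fun k i => pK 𝔓 (u k i))
  have hT : LinearMap.ker T = ⊥ := by
    rw [LinearMap.ker_eq_bot']
    intro c hc
    rw [Fintype.linearIndependent_iff] at h
    ext k
    exact h c hc k
  obtain ⟨T', hT'⟩ := T.exists_leftInverse_of_injective hT
  let N : κ × ι → KF 𝔓 := fun q => T' (Pi.single q.2 1) q.1
  have hN : ∀ k k', ∑ i, N (k, i) * pK 𝔓 (u k' i) = if k = k' then 1 else 0 := by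
    intro k k'
    have h1 : T' (T (Pi.single k' 1)) = Pi.single k' 1 := by
      have := LinearMap.congr_fun hT' (Pi.single k' 1)
      exact this
    have h2 : T (Pi.single k' 1) = fun i => pK 𝔓 (u k' i) := by
      change Fintype.linearCombination (KF 𝔓) (fun k i => pK 𝔓 (u k i)) (Pi.single k' 1) = _
      rw [Fintype.linearCombination_apply_single, one_smul]
    rw [h2] at h1
    have h3 : (fun i => pK 𝔓 (u k' i)) = ∑ i, pK 𝔓 (u k' i) • (Pi.single i 1 : ι → KF 𝔓) := by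
      conv_lhs => rw [← Finset.univ_sum_single (fun i => pK 𝔓 (u k' i))]
      refine Finset.sum_congr rfl fun i _ => ?_
      rw [← Pi.single_smul, smul_eq_mul, mul_one]
    rw [h3, map_sum] at h1
    have h4 := congrFun h1 k
    rw [Finset.sum_apply, Pi.single_apply] at h4
    rw [← h4]
    refine Finset.sum_congr rfl fun i _ => ?_
    rw [map_smul, Pi.smul_apply, smul_eq_mul, mul_comm]
  obtain ⟨β, hβ⟩ := IsLocalization.exist_integer_multiples_of_finite
    (nonZeroDivisors (R ⧸ 𝔓)) N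
  choose r hr using hβ
  obtain ⟨m, hm⟩ := Ideal.Quotient.mk_surjective (β : R ⧸ 𝔓)
  have h5 := fun q => Ideal.Quotient.mk_surjective (r q)
  choose N' hN' using h5
  have hmr : pK 𝔓 m ≠ 0 := by
    rw [pK_apply, hm]
    exact IsLocalization.to_map_ne_zero_of_mem_nonZeroDivisors (KF 𝔓) le_rfl β.2
  have hNN : ∀ q, pK 𝔓 (N' q) = pK 𝔓 m * N q := by
    intro q
    rw [pK_apply, hN', hr, pK_apply, hm, Algebra.smul_def]
  have hrel : ∀ k k', ∀ e : R →ₐ[ℝ] ℝ, (∀ P ∈ 𝔓, e P = 0) →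
      ∑ i, e (N' (k, i)) * e (u k' i) = if k = k' then e m else 0 := by
    intro k k' e he
    have h6 : (∑ i, N' (k, i) * u k' i) - (if k = k' then m else 0) ∈ 𝔓 := by
      rw [← pK_eq_zero 𝔓, map_sub, map_sum]
      have h7 : ∀ i, pK 𝔓 (N' (k, i) * u k' i) = pK 𝔓 m * (N (k, i) * pK 𝔓 (u k' i)) := by
        intro i
        rw [map_mul, hNN, mul_assoc]
      rw [Finset.sum_congr rfl fun i _ => h7 i, ← Finset.mul_sum, hN]
      split_ifs
      · rw [mul_one, sub_self]
      · rw [mul_zero, map_zero, sub_self]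
    have h8 := he _ h6
    rw [map_sub, sub_eq_zero, map_sum] at h8
    simp only [map_mul] at h8
    rw [h8]
    split_ifs
    · rfl
    · rw [map_zero]
  refine ⟨m, fun h0 => hmr ((pK_eq_zero 𝔓).2 h0), fun e he hem => ?_⟩
  rw [Fintype.linearIndependent_iff]
  intro c hc k
  have h9 : ∑ i, e (N' (k, i)) * ∑ k', c k' * e (u k' i) = c k * e m := by
    have h10 : ∀ i, e (N' (k, i)) * ∑ k', c k' * e (u k' i) =
        ∑ k', c k' * (e (N' (k, i)) * e (u k' i)) := by
      intro i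
      rw [Finset.mul_sum]
      refine Finset.sum_congr rfl fun k' _ => ?_
      ring
    rw [Finset.sum_congr rfl fun i _ => h10 i, Finset.sum_comm]
    have h11 : ∀ k', ∑ i, c k' * (e (N' (k, i)) * e (u k' i)) =
        c k' * if k = k' then e m else 0 := by
      intro k'
      rw [← Finset.mul_sum, hrel k k' e he]
    rw [Finset.sum_congr rfl fun k' _ => h11 k', Finset.sum_eq_single k]
    · rw [if_pos rfl]
    · intro k' _ hk
      rw [if_neg hk.symm, mul_zero]
    · intro h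
      exact absurd (Finset.mem_univ k) h
  have h12 : ∀ i, ∑ k', c k' * e (u k' i) = 0 := by
    intro i
    have := congrFun hc i
    rw [Finset.sum_apply] at this
    exact this
  simp only [h12, mul_zero, Finset.sum_const_zero] at h9
  exact (mul_eq_zero.1 h9.symm).resolve_right hem

end General

variable {I : Type} [Fintype I] [DecidableEq I] {ι : Type} [Fintype ι] [DecidableEq ι]

/-- Substitution in a relation. -/
noncomputable def sb (φ : ι → Ry I ι) : MvPolynomial (ι ⊕ ι) ℝ →ₐ[ℝ] Ry I ι :=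
  aeval (Sum.elim φ (fun j => X (Sum.inr j)))

lemma sb_inl (φ : ι → Ry I ι) (i : ι) : sb φ (X (Sum.inl i)) = φ i := by
  rw [sb, aeval_X]
  rfl

lemma sb_inr (φ : ι → Ry I ι) (j : ι) : sb φ (X (Sum.inr j)) = X (Sum.inr j) := by
  rw [sb, aeval_X]
  rfl

lemma dB_sb (A : Mt I) (φ : ι → Ry I ι) (f : MvPolynomial (ι ⊕ ι) ℝ) :
    dB A (sb φ f) = ∑ i, sb φ (pderiv (Sum.inl i) f) * dB A (φ i) := by
  rw [sb, dB_aeval, Fintype.sum_sum_type]
  have h1 : ∑ j : ι, aeval (Sum.elim φ (fun j => X (Sum.inr j))) (pderiv (Sum.inr j) f) *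
      dB A ((Sum.elim φ (fun j => X (Sum.inr j)) : ι ⊕ ι → Ry I ι) (Sum.inr j)) = 0 := by
    refine Finset.sum_eq_zero fun j _ => ?_
    rw [Sum.elim_inr, dB_inr, mul_zero]
  rw [h1, add_zero]
  rfl

/-- Solutions of the equations at the generic point come from the Lie algebra. -/
theorem mem_span_of_relations {L : Submodule ℝ (Mt I)} (hL : IsAlg L) {σ : Type} [Fintype σ]
    [DecidableEq σ] (b : Basis σ ℝ L) {Z : Set (ι → ℝ)} (hne : Z.Nonempty)
    [hP : (JZ L Z).IsPrime] (φ : ι → Ry I ι) (w : ι → KF (JZ L Z))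
    (hw : ∀ f : MvPolynomial (ι ⊕ ι) ℝ, sb φ f ∈ JZ L Z →
      ∑ i, pK (JZ L Z) (sb φ (pderiv (Sum.inl i) f)) * w i = 0) :
    w ∈ Submodule.span (KF (JZ L Z))
      (Set.range fun a => fun i => pK (JZ L Z) (dB (b a : Mt I) (φ i))) := by
  obtain ⟨D, hadd, hmul, hconst, hD⟩ := exists_derivation ((pK (JZ L Z)).comp (sb φ))
    (Sum.elim w 0) (fun f hf => by
      rw [Fintype.sum_sum_type]
      simp only [Sum.elim_inl, Sum.elim_inr, Pi.zero_apply, mul_zero, Finset.sum_const_zero,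
        add_zero]
      exact hw f ((pK_eq_zero _).1 hf))
  have hDl : ∀ i, D (pK (JZ L Z) (φ i)) = w i := by
    intro i
    have h1 := hD (Sum.inl i)
    rw [AlgHom.comp_apply, sb_inl] at h1
    exact h1
  have hDr : ∀ j, D (pK (JZ L Z) (X (Sum.inr j))) = 0 := by
    intro j
    have h1 := hD (Sum.inr j)
    rw [AlgHom.comp_apply, sb_inr] at h1
    exact h1
  have hpC : ∀ a : ℝ, pK (JZ L Z) (C a : Ry I ι) = algebraMap ℝ _ a := by
    intro a
    have h := (pK (JZ L Z)).commutes a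
    rw [MvPolynomial.algebraMap_eq] at h
    exact h
  have hDQ : ∀ Q : Ry I ι, D (pK (JZ L Z) Q) =
      ∑ p, pK (JZ L Z) (pderiv (Sum.inl p) Q) * D (pK (JZ L Z) (X (Sum.inl p))) := by
    intro Q
    induction Q using MvPolynomial.induction_on with
    | C a =>
      rw [hpC, hconst]
      simp
    | add p q hp hq =>
      rw [map_add, hadd, hp, hq, ← Finset.sum_add_distrib]
      refine Finset.sum_congr rfl fun i _ => ?_
      rw [map_add, map_add, add_mul]
    | mul_X p n hp =>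
      rw [map_mul (pK (JZ L Z)) p (X n), hmul, hp, Finset.mul_sum]
      have h2 : ∀ i, pK (JZ L Z) (pderiv (Sum.inl i) (p * X n)) * D (pK (JZ L Z) (X (Sum.inl i))) =
          pK (JZ L Z) p * (pK (JZ L Z) (pderiv (Sum.inl i) (X n : Ry I ι)) *
            D (pK (JZ L Z) (X (Sum.inl i)))) +
            pK (JZ L Z) (X n) * (pK (JZ L Z) (pderiv (Sum.inl i) p) *
              D (pK (JZ L Z) (X (Sum.inl i)))) := by
        intro i
        rw [Derivation.leibniz, smul_eq_mul, smul_eq_mul, map_add, map_mul (pK (JZ L Z)),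
          map_mul (pK (JZ L Z))]
        ring
      rw [Finset.sum_congr rfl fun i _ => h2 i, Finset.sum_add_distrib]
      congr 1
      rw [← Finset.mul_sum]
      congr 1
      rcases n with q | j
      · rw [Finset.sum_eq_single q]
        · rw [pderiv_X_self, map_one, one_mul]
        · intro i _ hi
          rw [pderiv_X_of_ne (fun h => hi (Sum.inl.inj h).symm), map_zero, zero_mul]
        · intro h
          exact absurd (Finset.mem_univ q) h
      · rw [hDr]
        symm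
        refine Finset.sum_eq_zero fun i _ => ?_
        rw [pderiv_X_of_ne (by simp), map_zero, zero_mul]
  have hD0 : D 0 = 0 := by
    have := hadd 0 0
    rw [add_zero] at this
    exact left_eq_add.1 this
  let π : Rx I →ₐ[ℝ] KF (JZ L Z) := (pK (JZ L Z)).comp (inx I ι)
  have hπ : ∀ P, π P = pK (JZ L Z) (inx I ι P) := fun _ => rfl
  have h0 : ∀ P ∈ J L, π P = 0 := by
    intro P hP
    rw [hπ, pK_eq_zero]
    intro g hg v _
    rw [ev2_inx]
    exact hP g hg
  have hone : ∀ P, ev 1 P ≠ 0 → π P ≠ 0 := by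
    intro P hP h
    rw [hπ, pK_eq_zero] at h
    obtain ⟨v, hv⟩ := hne
    have h1 := h 1 (Gen L).one_mem v hv
    rw [ev2_inx] at h1
    exact hP h1
  have hpd : ∀ (p : I × I) (P : Rx I), pderiv (Sum.inl p) (inx I ι P) = inx I ι (pderiv p P) := by
    intro p P
    rw [inx, pderiv_rename Sum.inl_injective]
  have hT : (fun p => D (pK (JZ L Z) (X (Sum.inl p)))) ∈ TK L π := by
    intro P hP
    have h1 := hDQ (inx I ι P)
    have h2 : pK (JZ L Z) (inx I ι P) = 0 := h0 P hP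
    rw [h2, hD0] at h1
    simp only [hpd] at h1
    exact h1.symm
  have h1 := TK_le_span hL h0 hone b hT
  rw [Submodule.mem_span_range_iff_exists_fun] at h1 ⊢
  obtain ⟨c, hc⟩ := h1
  refine ⟨c, ?_⟩
  ext i
  rw [← hDl i, hDQ]
  have hva : ∀ (A : Mt I) (p : I × I), va π A p = pK (JZ L Z) (dB A (X (Sum.inl p))) := by
    intro A p
    change pK (JZ L Z) (inx I ι (dA A (X p))) = _
    rw [← dB_inx, inx_X]
  have h3 : ∀ p, D (pK (JZ L Z) (X (Sum.inl p))) = ∑ a, c a * va π (b a : Mt I) p := by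
    intro p
    have h4 := congrFun hc p
    rw [Finset.sum_apply] at h4
    exact h4.symm
  have h5 : ∀ p, pK (JZ L Z) (pderiv (Sum.inl p) (φ i)) * D (pK (JZ L Z) (X (Sum.inl p))) =
      ∑ a, c a * pK (JZ L Z) (pderiv (Sum.inl p) (φ i) * dB (b a : Mt I) (X (Sum.inl p))) := by
    intro p
    rw [h3, Finset.mul_sum]
    refine Finset.sum_congr rfl fun a _ => ?_
    rw [map_mul, hva]
    ring
  rw [Finset.sum_congr rfl fun p _ => h5 p, Finset.sum_comm, Finset.sum_apply]
  refine Finset.sum_congr rfl fun a _ => ?_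
  rw [← Finset.mul_sum, ← map_sum, ← dB_eq_sum]
  rfl

theorem exists_generic {L : Submodule ℝ (Mt I)} (hL : IsAlg L) {Z : Set (ι → ℝ)}
    (hne : Z.Nonempty) [hP : (JZ L Z).IsPrime] (φ : ι → Ry I ι) :
    ∃ (κ₁ κ₂ : Type) (_ : Fintype κ₁) (_ : Fintype κ₂) (A : κ₁ → Mt I)
      (f : κ₂ → MvPolynomial (ι ⊕ ι) ℝ) (m : Ry I ι), m ∉ JZ L Z ∧ (∀ k, A k ∈ L) ∧
      (∀ k, sb φ (f k) ∈ JZ L Z) ∧ Fintype.card κ₁ + Fintype.card κ₂ = Fintype.card ι ∧
      ∀ g ∈ Gen L, ∀ v ∈ Z, ev2 g v m ≠ 0 →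
        LinearIndependent ℝ (fun k i => ev2 g v (dB (A k) (φ i))) ∧
        LinearIndependent ℝ (fun k i => ev2 g v (sb φ (pderiv (Sum.inl i) (f k)))) := by
  classical
  let b := Module.finBasis ℝ L
  let u : Fin (finrank ℝ L) → ι → KF (JZ L Z) := fun a i => pK (JZ L Z) (dB (b a : Mt I) (φ i))
  let γ : {f : MvPolynomial (ι ⊕ ι) ℝ // sb φ f ∈ JZ L Z} → ι → KF (JZ L Z) :=
    fun f i => pK (JZ L Z) (sb φ (pderiv (Sum.inl i) f.1))
  obtain ⟨κ₁, a₁, -, hs₁, hi₁⟩ := exists_linearIndependent' (KF (JZ L Z)) u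
  obtain ⟨κ₂, a₂, -, hs₂, hi₂⟩ := exists_linearIndependent' (KF (JZ L Z)) γ
  have hf₁ : Finite κ₁ := hi₁.finite
  have hf₂ : Finite κ₂ := hi₂.finite
  let _ : Fintype κ₁ := Fintype.ofFinite κ₁
  let _ : Fintype κ₂ := Fintype.ofFinite κ₂
  let M : Matrix κ₂ ι (KF (JZ L Z)) := fun k i => γ (a₂ k) i
  have hker : LinearMap.ker M.mulVecLin = Submodule.span (KF (JZ L Z)) (Set.range (u ∘ a₁)) := by
    rw [hs₁]
    apply le_antisymm
    · intro w hw
      apply mem_span_of_relations hL b hne φ w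
      intro f hf
      have h1 : γ ⟨f, hf⟩ ∈ Submodule.span (KF (JZ L Z)) (Set.range (γ ∘ a₂)) := by
        rw [hs₂]
        exact Submodule.subset_span ⟨_, rfl⟩
      rw [Submodule.mem_span_range_iff_exists_fun] at h1
      obtain ⟨c, hc⟩ := h1
      have h2 : ∀ i, pK (JZ L Z) (sb φ (pderiv (Sum.inl i) f)) = ∑ k, c k * M k i := by
        intro i
        have := congrFun hc i
        rw [Finset.sum_apply] at this
        exact this.symm
      have h3 : ∀ i, pK (JZ L Z) (sb φ (pderiv (Sum.inl i) f)) * w i =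
          ∑ k, c k * (M k i * w i) := by
        intro i
        rw [h2, Finset.sum_mul]
        refine Finset.sum_congr rfl fun k _ => ?_
        rw [mul_assoc]
      rw [Finset.sum_congr rfl fun i _ => h3 i, Finset.sum_comm]
      refine Finset.sum_eq_zero fun k _ => ?_
      rw [← Finset.mul_sum]
      have h4 : ∑ i, M k i * w i = 0 := by
        have := congrFun (LinearMap.mem_ker.1 hw) k
        exact this
      rw [h4, mul_zero]
    · rw [Submodule.span_le]
      rintro _ ⟨a, rfl⟩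
      rw [SetLike.mem_coe, LinearMap.mem_ker]
      ext k
      change ∑ i, pK (JZ L Z) (sb φ (pderiv (Sum.inl i) (a₂ k).1)) *
        pK (JZ L Z) (dB (b a : Mt I) (φ i)) = 0
      have h5 : ∀ i, pK (JZ L Z) (sb φ (pderiv (Sum.inl i) (a₂ k).1)) *
          pK (JZ L Z) (dB (b a : Mt I) (φ i)) =
          pK (JZ L Z) (sb φ (pderiv (Sum.inl i) (a₂ k).1) * dB (b a : Mt I) (φ i)) := by
        intro i
        rw [map_mul]
      rw [Finset.sum_congr rfl fun i _ => h5 i, ← map_sum, ← dB_sb]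
      exact (pK_eq_zero _).2 (dB_mem_JZ (b a).2 (a₂ k).2)
  have hrank : M.rank = Fintype.card κ₂ := LinearIndependent.rank_matrix hi₂
  have hcard : Fintype.card κ₁ + Fintype.card κ₂ = Fintype.card ι := by
    have h1 := M.mulVecLin.finrank_range_add_finrank_ker
    rw [hker, finrank_span_eq_card hi₁, Module.finrank_fintype_fun_eq_card] at h1
    have h2 : finrank (KF (JZ L Z)) (LinearMap.range M.mulVecLin) = Fintype.card κ₂ := hrank
    omega
  obtain ⟨m₁, hm₁, hg₁⟩ := generic_indep (JZ L Z) (fun k i => dB (b (a₁ k) : Mt I) (φ i)) hi₁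
  obtain ⟨m₂, hm₂, hg₂⟩ := generic_indep (JZ L Z)
    (fun k i => sb φ (pderiv (Sum.inl i) (a₂ k).1)) hi₂
  have hm : m₁ * m₂ ∉ JZ L Z := by
    intro h
    rcases hP.mem_or_mem h with h | h
    · exact hm₁ h
    · exact hm₂ h
  refine ⟨κ₁, κ₂, inferInstance, inferInstance, fun k => (b (a₁ k) : Mt I), fun k => (a₂ k).1,
    m₁ * m₂, hm, fun k => (b (a₁ k)).2, fun k => (a₂ k).2, hcard, fun g hg v hv hne => ?_⟩
  rw [map_mul] at hne
  exact ⟨hg₁ (ev2 g v) (fun P hP => hP g hg v hv) (left_ne_zero_of_mul hne),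
    hg₂ (ev2 g v) (fun P hP => hP g hg v hv) (right_ne_zero_of_mul hne)⟩

end Pool.Agent.Lib.MP_aa9b81_an.Z
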