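import Mathlib
import Pool.Agent.Lib.MP_aa9b81_an.Zar6

/-!
Near a generic point the common zeros of the relations lie in the image.
-/

set_option autoImplicit false
set_option linter.unusedSectionVars false

open Matrix Filter Topology MvPolynomial Module

namespace Pool.Agent.Lib.MP_aa9b81_an.Z

variable {ι : Type} [Fintype ι] [DecidableEq ι]

lemma hasStrictFDerivAt_eval (f : MvPolynomial ι ℝ) (z : ι → ℝ) :
    HasStrictFDerivAt (fun z : ι → ℝ => MvPolynomial.eval z f)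
      (∑ i, MvPolynomial.eval z (pderiv i f) •
        (ContinuousLinearMap.proj i : (ι → ℝ) →L[ℝ] ℝ)) z := by
  induction f using MvPolynomial.induction_on with
  | C a =>
    simp only [MvPolynomial.eval_C, MvPolynomial.pderiv_C, map_zero, zero_smul,
      Finset.sum_const_zero]
    exact hasStrictFDerivAt_const a z
  | add p q hp hq =>
    have h := hp.add hq
    rw [← Finset.sum_add_distrib] at h
    simp only [map_add, add_smul]
    exact h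
  | mul_X p n hp =>
    have h1 : HasStrictFDerivAt (fun z : ι → ℝ => z n)
        (ContinuousLinearMap.proj n : (ι → ℝ) →L[ℝ] ℝ) z :=
      (ContinuousLinearMap.proj n : (ι → ℝ) →L[ℝ] ℝ).hasStrictFDerivAt
    have h := hp.mul h1
    have h2 : (∑ i, MvPolynomial.eval z (pderiv i (p * X n)) •
        (ContinuousLinearMap.proj i : (ι → ℝ) →L[ℝ] ℝ)) =
        MvPolynomial.eval z p • (ContinuousLinearMap.proj n : (ι → ℝ) →L[ℝ] ℝ) +
        z n • ∑ i, MvPolynomial.eval z (pderiv i p) •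
        (ContinuousLinearMap.proj i : (ι → ℝ) →L[ℝ] ℝ) := by
      have h3 : ∀ i, MvPolynomial.eval z (pderiv i (p * X n)) •
          (ContinuousLinearMap.proj i : (ι → ℝ) →L[ℝ] ℝ) =
          MvPolynomial.eval z p • (MvPolynomial.eval z (pderiv i (X n : MvPolynomial ι ℝ)) •
            (ContinuousLinearMap.proj i : (ι → ℝ) →L[ℝ] ℝ)) +
          z n • (MvPolynomial.eval z (pderiv i p) •
            (ContinuousLinearMap.proj i : (ι → ℝ) →L[ℝ] ℝ)) := by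
        intro i
        rw [Derivation.leibniz, smul_eq_mul, smul_eq_mul, map_add, map_mul, map_mul,
          MvPolynomial.eval_X, add_smul, mul_smul, mul_smul]
      rw [Finset.sum_congr rfl fun i _ => h3 i, Finset.sum_add_distrib, ← Finset.smul_sum,
        ← Finset.smul_sum]
      congr 2
      rw [Finset.sum_eq_single n]
      · rw [pderiv_X_self, map_one, one_smul]
      · intro i _ hi
        rw [pderiv_X_of_ne hi.symm, map_zero, zero_smul]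
      · intro h
        exact absurd (Finset.mem_univ n) h
    rw [h2]
    have h4 : (fun z : ι → ℝ => MvPolynomial.eval z (p * X n)) =
        fun z : ι → ℝ => MvPolynomial.eval z p * z n := by
      funext z
      rw [map_mul, MvPolynomial.eval_X]
    rw [h4]
    exact h

variable {κ₁ κ₂ : Type} [Fintype κ₁] [Fintype κ₂]

theorem local_cover (hcard : Fintype.card κ₁ + Fintype.card κ₂ = Fintype.card ι)
    {Ψ : (κ₁ → ℝ) → (ι → ℝ)} {F : (ι → ℝ) → (κ₂ → ℝ)}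
    {Ψ' : (κ₁ → ℝ) →L[ℝ] (ι → ℝ)} {F' : (ι → ℝ) →L[ℝ] (κ₂ → ℝ)}
    (hΨ : HasStrictFDerivAt Ψ Ψ' 0) (hF : HasStrictFDerivAt F F' (Ψ 0))
    (hinj : Function.Injective Ψ') (hsurj : Function.Surjective F')
    (hz : ∀ t, F (Ψ t) = 0) {N : Set (κ₁ → ℝ)} (hN : N ∈ 𝓝 (0 : κ₁ → ℝ)) :
    ∀ᶠ z in 𝓝 (Ψ 0), F z = 0 → ∃ t ∈ N, Ψ t = z := by
  -- the derivative of the composition vanishes
  have hcomp : ∀ a, F' (Ψ' a) = 0 := by
    intro a
    have h1 : HasStrictFDerivAt (fun t => F (Ψ t)) (F'.comp Ψ') 0 := hF.comp 0 hΨ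
    have h2 : (fun t => F (Ψ t)) = fun _ => 0 := funext hz
    rw [h2] at h1
    have h3 := h1.hasFDerivAt.unique (hasFDerivAt_const (0 : κ₂ → ℝ) (0 : κ₁ → ℝ))
    have h4 := congrArg (fun f : (κ₁ → ℝ) →L[ℝ] (κ₂ → ℝ) => f a) h3
    exact h4
  -- a right inverse
  obtain ⟨C₀, hC₀⟩ := (F' : (ι → ℝ) →ₗ[ℝ] (κ₂ → ℝ)).exists_rightInverse_of_surjective
    (LinearMap.range_eq_top.2 hsurj)
  let C : (κ₂ → ℝ) →L[ℝ] (ι → ℝ) := LinearMap.toContinuousLinearMap C₀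
  have hC : ∀ s, F' (C s) = s := fun s => LinearMap.congr_fun hC₀ s
  let H' : ((κ₁ → ℝ) × (κ₂ → ℝ)) →L[ℝ] (ι → ℝ) :=
    Ψ'.comp (ContinuousLinearMap.fst ℝ (κ₁ → ℝ) (κ₂ → ℝ)) +
      C.comp (ContinuousLinearMap.snd ℝ (κ₁ → ℝ) (κ₂ → ℝ))
  have hH'inj : Function.Injective H' := by
    rw [injective_iff_map_eq_zero]
    rintro ⟨a, s⟩ h
    have h1 : Ψ' a + C s = 0 := h
    have h2 := congrArg F' h1
    rw [map_add, hcomp, hC, zero_add, map_zero] at h2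
    rw [h2, map_zero, add_zero] at h1
    have h3 := hinj (h1.trans (map_zero Ψ').symm)
    rw [h2, h3]
    rfl
  have hdim : finrank ℝ ((κ₁ → ℝ) × (κ₂ → ℝ)) = finrank ℝ (ι → ℝ) := by
    rw [Module.finrank_prod, Module.finrank_fintype_fun_eq_card, Module.finrank_fintype_fun_eq_card,
      Module.finrank_fintype_fun_eq_card, hcard]
  let e : ((κ₁ → ℝ) × (κ₂ → ℝ)) ≃L[ℝ] (ι → ℝ) :=
    (LinearEquiv.ofInjectiveOfFinrankEq (H' : ((κ₁ → ℝ) × (κ₂ → ℝ)) →ₗ[ℝ] (ι → ℝ)) hH'inj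
      hdim).toContinuousLinearEquiv
  have he : (e : ((κ₁ → ℝ) × (κ₂ → ℝ)) →L[ℝ] (ι → ℝ)) = H' :=
    ContinuousLinearMap.ext fun _ => rfl
  let H : (κ₁ → ℝ) × (κ₂ → ℝ) → (ι → ℝ) := fun p => Ψ p.1 + C p.2
  have hH : HasStrictFDerivAt H (e : ((κ₁ → ℝ) × (κ₂ → ℝ)) →L[ℝ] (ι → ℝ)) (0, 0) := by
    rw [he]
    have h1 : HasStrictFDerivAt (fun p : (κ₁ → ℝ) × (κ₂ → ℝ) => Ψ p.1)
        (Ψ'.comp (ContinuousLinearMap.fst ℝ (κ₁ → ℝ) (κ₂ → ℝ))) (0, 0) :=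
      HasStrictFDerivAt.comp (g := Ψ) (f := fun p : (κ₁ → ℝ) × (κ₂ → ℝ) => p.1) (0, 0) hΨ
        hasStrictFDerivAt_fst
    have h2 : HasStrictFDerivAt (fun p : (κ₁ → ℝ) × (κ₂ → ℝ) => C p.2)
        (C.comp (ContinuousLinearMap.snd ℝ (κ₁ → ℝ) (κ₂ → ℝ))) (0, 0) :=
      (C.comp (ContinuousLinearMap.snd ℝ (κ₁ → ℝ) (κ₂ → ℝ))).hasStrictFDerivAt
    exact h1.add h2
  have hmap := hH.map_nhds_eq_of_equiv
  have hH0 : H (0, 0) = Ψ 0 := by
    simp only [H, map_zero, add_zero]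
  rw [hH0] at hmap
  -- the estimate
  obtain ⟨c, hc0, hc⟩ : ∃ c : ℝ, 0 < c ∧ c * ‖C‖ < 1 := by
    refine ⟨1 / (‖C‖ + 1), by positivity, ?_⟩
    rw [one_div, inv_mul_lt_iff₀ (by positivity)]
    linarith [norm_nonneg C]
  have hest : ∀ᶠ q in 𝓝 (Ψ 0, Ψ 0), ‖F q.1 - F q.2 - F' (q.1 - q.2)‖ ≤ c * ‖q.1 - q.2‖ :=
    hF.isLittleO.def hc0
  have hcont : Tendsto (fun p : (κ₁ → ℝ) × (κ₂ → ℝ) => (H p, Ψ p.1)) (𝓝 (0, 0))
      (𝓝 (Ψ 0, Ψ 0)) := by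
    have h1 : Tendsto H (𝓝 (0, 0)) (𝓝 (Ψ 0)) := by
      have := hH.continuousAt
      rw [ContinuousAt, hH0] at this
      exact this
    have h2 : Tendsto (fun p : (κ₁ → ℝ) × (κ₂ → ℝ) => Ψ p.1) (𝓝 (0, 0)) (𝓝 (Ψ 0)) :=
      hΨ.continuousAt.tendsto.comp continuousAt_fst
    exact h1.prodMk_nhds h2
  have hgood : ∀ᶠ p in 𝓝 ((0, 0) : (κ₁ → ℝ) × (κ₂ → ℝ)),
      p.1 ∈ N ∧ ‖F (H p) - F (Ψ p.1) - F' (H p - Ψ p.1)‖ ≤ c * ‖H p - Ψ p.1‖ :=
    (continuousAt_fst.eventually (show ∀ᶠ t in 𝓝 (0 : κ₁ → ℝ), t ∈ N from hN)).and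
      (hcont.eventually hest)
  have h5 : H '' {p | p.1 ∈ N ∧ ‖F (H p) - F (Ψ p.1) - F' (H p - Ψ p.1)‖ ≤ c * ‖H p - Ψ p.1‖} ∈
      𝓝 (Ψ 0) := by
    rw [← hmap]
    exact image_mem_map hgood
  filter_upwards [h5] with z hzz hFz
  obtain ⟨⟨t, s⟩, ⟨ht, hle⟩, rfl⟩ := hzz
  refine ⟨t, ht, ?_⟩
  have h6 : H (t, s) - Ψ t = C s := by
    simp only [H, add_sub_cancel_left]
  have hle' : ‖F (H (t, s)) - F (Ψ t) - F' (H (t, s) - Ψ t)‖ ≤ c * ‖H (t, s) - Ψ t‖ := hle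
  rw [h6, hC, hFz, hz, sub_zero, zero_sub, norm_neg] at hle'
  have h7 : ‖s‖ ≤ c * ‖C‖ * ‖s‖ := by
    calc ‖s‖ ≤ c * ‖C s‖ := hle'
      _ ≤ c * (‖C‖ * ‖s‖) := mul_le_mul_of_nonneg_left (C.le_opNorm s) hc0.le
      _ = c * ‖C‖ * ‖s‖ := by ring
  have h8 : s = 0 := by
    by_contra hne
    have h9 : 0 < ‖s‖ := norm_pos_iff.2 hne
    nlinarith
  rw [h8]
  simp only [H, map_zero, add_zero]

end Pool.Agent.Lib.MP_aa9b81_an.Z
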