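import Mathlib
import Pool.Agent.Lib.MP_aa9b81_an.Expo

/-!
The Lie algebra of a closed subgroup of `SL(n, ℝ)`.
-/

set_option autoImplicit false
set_option linter.unusedSectionVars false

open Filter Topology Matrix

namespace Pool.Agent.Lib.MP_aa9b81_an.N

/-- Real `n × n` matrices. -/
abbrev MM (n : ℕ) : Type := Matrix (Fin n) (Fin n) ℝ

/-- The group `SL(n, ℝ)` with its usual topology. -/
abbrev SLn (n : ℕ) : Type := Matrix.SpecialLinearGroup (Fin n) ℝ

variable {n : ℕ} [NeZero n]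

/-- The matrices `A` all of whose exponentials `exp (t A)`, `t ∈ ℝ`, lie in `H`. -/
def lieSet (H : Set (SLn n)) : Set (MM n) := {A | ∀ t : ℝ, ∃ g ∈ H, (g : (MM n)) = NormedSpace.exp (t • A)}

lemma exists_mem_of_tendsto {ι : Type*} {l : Filter ι} [l.NeBot] {H : Set (SLn n)} (hH : IsClosed H)
    {g : ι → (SLn n)} (hg : ∀ᶠ i in l, g i ∈ H) {B : (MM n)} (hB : Tendsto (fun i => (g i : (MM n))) l (𝓝 B)) :
    ∃ h ∈ H, (h : (MM n)) = B := by
  have h1 : IsClosed ((fun g : (SLn n) => (g : (MM n))) '' H) :=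
    (Matrix.SpecialLinearGroup.isClosedEmbedding_val).isClosedMap H hH
  have h2 : B ∈ (fun g : (SLn n) => (g : (MM n))) '' H :=
    h1.mem_of_tendsto hB (hg.mono fun i hi => ⟨g i, hi, rfl⟩)
  exact h2

section

open scoped Matrix.Norms.Operator

set_option backward.isDefEq.respectTransparency false in
theorem tendsto_pow_exp_matrix {ι : Type*} {l : Filter ι} (x : ι → (MM n)) (ε : ι → ℝ) (C : (MM n))
    (m : ι → ℕ) (t : ℝ) (hε : Tendsto ε l (𝓝 0)) (hε0 : ∀ᶠ i in l, 0 < ε i)
    (hx : Tendsto (fun i => (ε i)⁻¹ • (x i - 1)) l (𝓝 C))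
    (hm : Tendsto (fun i => (m i : ℝ) * ε i) l (𝓝 t)) :
    Tendsto (fun i => x i ^ m i) l (𝓝 (NormedSpace.exp (t • C))) :=
  tendsto_pow_exp x ε C m t hε hε0 hx hm

set_option backward.isDefEq.respectTransparency false in
theorem tendsto_slope_exp_matrix (A : (MM n)) :
    Tendsto (fun u : ℝ => u⁻¹ • (NormedSpace.exp (u • A) - 1)) (𝓝[≠] 0) (𝓝 A) := by
  have h1 : HasDerivAt (fun u : ℝ => NormedSpace.exp (u • A))
      (NormedSpace.exp ((0 : ℝ) • A) * A) 0 := hasDerivAt_exp_smul_const A (0 : ℝ)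
  rw [hasDerivAt_iff_tendsto_slope] at h1
  simp only [zero_smul, NormedSpace.exp_zero, one_mul] at h1
  refine h1.congr fun i => ?_
  simp [slope, NormedSpace.exp_zero]

set_option backward.isDefEq.respectTransparency false in
theorem continuous_exp_matrix : Continuous (fun A : (MM n) => NormedSpace.exp A) :=
  NormedSpace.exp_continuous

end

lemma exp_mul_exp_neg (A : (MM n)) : NormedSpace.exp A * NormedSpace.exp (-A) = 1 := by
  have h := Matrix.exp_add_of_commute A (-A) (Commute.neg_right (Commute.refl A))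
  rw [add_neg_cancel, NormedSpace.exp_zero] at h
  exact h.symm

/-- The key lemma: a limit of difference quotients of elements of a closed subgroup belongs to
its Lie algebra. -/
theorem mem_lieSet_of_tendsto {ι : Type*} {l : Filter ι} [l.NeBot] {H : Subgroup (SLn n)}
    (hH : IsClosed (H : Set (SLn n))) (x : ι → (SLn n)) (hx : ∀ i, x i ∈ H) (ε : ι → ℝ) (C : (MM n))
    (hε : Tendsto ε l (𝓝 0)) (hε0 : ∀ᶠ i in l, 0 < ε i)
    (hC : Tendsto (fun i => (ε i)⁻¹ • ((x i : (MM n)) - 1)) l (𝓝 C)) :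
    C ∈ lieSet (H : Set (SLn n)) := by
  have hpos : ∀ t : ℝ, 0 ≤ t → ∃ g ∈ H, (g : (MM n)) = NormedSpace.exp (t • C) := by
    intro t ht
    have hm : Tendsto (fun i => ((⌊t / ε i⌋₊ : ℕ) : ℝ) * ε i) l (𝓝 t) := by
      have h1 : ∀ᶠ i in l, t - ε i ≤ ((⌊t / ε i⌋₊ : ℕ) : ℝ) * ε i := by
        filter_upwards [hε0] with i hi
        have h2 := Nat.lt_floor_add_one (t / ε i)
        have h3 : t / ε i * ε i = t := div_mul_cancel₀ t hi.ne'
        nlinarith
      have h2 : ∀ᶠ i in l, ((⌊t / ε i⌋₊ : ℕ) : ℝ) * ε i ≤ t := by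
        filter_upwards [hε0] with i hi
        have h2 := Nat.floor_le (div_nonneg ht hi.le)
        have h3 : t / ε i * ε i = t := div_mul_cancel₀ t hi.ne'
        nlinarith
      refine tendsto_of_tendsto_of_tendsto_of_le_of_le' ?_ tendsto_const_nhds h1 h2
      have := (tendsto_const_nhds (x := t)).sub hε
      simpa using this
    have h4 := tendsto_pow_exp_matrix (fun i => (x i : (MM n))) ε C _ t hε hε0 hC hm
    refine exists_mem_of_tendsto (l := l) hH (g := fun i => x i ^ ⌊t / ε i⌋₊) ?_ ?_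
    · exact Eventually.of_forall fun i => H.pow_mem (hx i) _
    · refine h4.congr fun i => ?_
      simp
  intro t
  rcases le_total 0 t with ht | ht
  · exact hpos t ht
  · obtain ⟨g, hg, hgt⟩ := hpos (-t) (by linarith)
    refine ⟨g⁻¹, H.inv_mem hg, ?_⟩
    have h1 : (g : (MM n)) * ((g⁻¹ : (SLn n)) : (MM n)) = 1 := by
      rw [← Matrix.SpecialLinearGroup.coe_mul, mul_inv_cancel, Matrix.SpecialLinearGroup.coe_one]
    have h2 : (g : (MM n)) * NormedSpace.exp (t • C) = 1 := by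
      rw [hgt]
      have h3 := exp_mul_exp_neg (-t • C)
      rwa [← neg_smul, neg_neg] at h3
    have h5 : IsUnit (g : (MM n)) := by
      rw [Matrix.isUnit_iff_isUnit_det]
      simp
    exact h5.mul_left_cancel (h1.trans h2.symm)

lemma zero_mem_lieSet (H : Subgroup (SLn n)) : (0 : (MM n)) ∈ lieSet (H : Set (SLn n)) := by
  intro t
  exact ⟨1, H.one_mem, by simp [NormedSpace.exp_zero]⟩

lemma smul_mem_lieSet {H : Set (SLn n)} {A : (MM n)} (hA : A ∈ lieSet H) (c : ℝ) : c • A ∈ lieSet H := by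
  intro t
  obtain ⟨g, hg, h⟩ := hA (t * c)
  exact ⟨g, hg, by rw [h, smul_smul]⟩

lemma add_mem_lieSet {H : Subgroup (SLn n)} (hH : IsClosed (H : Set (SLn n))) {A B : (MM n)}
    (hA : A ∈ lieSet (H : Set (SLn n))) (hB : B ∈ lieSet (H : Set (SLn n))) :
    A + B ∈ lieSet (H : Set (SLn n)) := by
  choose a ha haA using hA
  choose b hb hbB using hB
  refine mem_lieSet_of_tendsto (l := 𝓝[>] (0 : ℝ)) hH (fun u : ℝ => a u * b u)
    (fun u => H.mul_mem (ha u) (hb u)) (fun u => u) (A + B) ?_ ?_ ?_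
  · exact tendsto_nhdsWithin_of_tendsto_nhds tendsto_id
  · exact self_mem_nhdsWithin
  · have h1 : Tendsto (fun u : ℝ => u⁻¹ • (NormedSpace.exp (u • A) - 1)) (𝓝[>] 0) (𝓝 A) :=
      (tendsto_slope_exp_matrix A).mono_left (nhdsWithin_mono _ fun u hu => ne_of_gt hu)
    have h2 : Tendsto (fun u : ℝ => u⁻¹ • (NormedSpace.exp (u • B) - 1)) (𝓝[>] 0) (𝓝 B) :=
      (tendsto_slope_exp_matrix B).mono_left (nhdsWithin_mono _ fun u hu => ne_of_gt hu)
    have h3 : Tendsto (fun u : ℝ => NormedSpace.exp (u • B)) (𝓝[>] 0) (𝓝 (1 : (MM n))) := by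
      have h4 : Tendsto (fun u : ℝ => u • B) (𝓝[>] 0) (𝓝 ((0 : ℝ) • B)) :=
        ((continuous_id.smul continuous_const).tendsto (0 : ℝ)).mono_left nhdsWithin_le_nhds
      have h5 := (continuous_exp_matrix.tendsto _).comp h4
      rw [zero_smul, NormedSpace.exp_zero] at h5
      exact h5
    have h6 := (h1.mul h3).add h2
    rw [mul_one] at h6
    refine h6.congr fun u => ?_
    rw [Matrix.SpecialLinearGroup.coe_mul, haA, hbB, smul_mul_assoc, ← smul_add]
    congr 1
    noncomm_ring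

/-- The Lie algebra of a closed subgroup, as a subspace. -/
def lieSub (H : Subgroup (SLn n)) (hH : IsClosed (H : Set (SLn n))) : Submodule ℝ (MM n) where
  carrier := lieSet (H : Set (SLn n))
  zero_mem' := zero_mem_lieSet H
  add_mem' := add_mem_lieSet hH
  smul_mem' := fun c _ hA => smul_mem_lieSet hA c


lemma coe_mul_coe_inv (g : (SLn n)) : (g : (MM n)) * ((g⁻¹ : (SLn n)) : (MM n)) = 1 := by
  rw [← Matrix.SpecialLinearGroup.coe_mul, mul_inv_cancel, Matrix.SpecialLinearGroup.coe_one]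

lemma coe_inv_mul_coe (g : (SLn n)) : ((g⁻¹ : (SLn n)) : (MM n)) * (g : (MM n)) = 1 := by
  rw [← Matrix.SpecialLinearGroup.coe_mul, inv_mul_cancel, Matrix.SpecialLinearGroup.coe_one]

/-- Conjugation of matrices by elements of `SL(n, ℝ)`. -/
def cj (g : (SLn n)) : (MM n) →ₐ[ℝ] (MM n) where
  toFun A := (g : (MM n)) * A * ((g⁻¹ : (SLn n)) : (MM n))
  map_one' := by rw [mul_one, coe_mul_coe_inv]
  map_mul' A B := by
    calc (g : (MM n)) * (A * B) * ((g⁻¹ : (SLn n)) : (MM n))
        = (g : (MM n)) * A * 1 * B * ((g⁻¹ : (SLn n)) : (MM n)) := by noncomm_ring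
      _ = (g : (MM n)) * A * (((g⁻¹ : (SLn n)) : (MM n)) * (g : (MM n))) * B * ((g⁻¹ : (SLn n)) : (MM n)) := by
          rw [coe_inv_mul_coe]
      _ = _ := by noncomm_ring
  map_zero' := by simp
  map_add' A B := by noncomm_ring
  commutes' r := by
    rw [Algebra.algebraMap_eq_smul_one]
    simp only [mul_smul_comm, smul_mul_assoc, mul_one]
    rw [coe_mul_coe_inv]

lemma cj_apply (g : (SLn n)) (A : (MM n)) : cj g A = (g : (MM n)) * A * ((g⁻¹ : (SLn n)) : (MM n)) := rfl

lemma cj_mul (g h : (SLn n)) (A : (MM n)) : cj (g * h) A = cj g (cj h A) := by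
  simp only [cj_apply, _root_.mul_inv_rev, Matrix.SpecialLinearGroup.coe_mul]
  noncomm_ring

lemma cj_one (A : (MM n)) : cj 1 A = A := by
  simp [cj_apply]

lemma cj_inv_cj (g : (SLn n)) (A : (MM n)) : cj g⁻¹ (cj g A) = A := by
  rw [← cj_mul, inv_mul_cancel, cj_one]

lemma cj_cj_inv (g : (SLn n)) (A : (MM n)) : cj g (cj g⁻¹ A) = A := by
  rw [← cj_mul, mul_inv_cancel, cj_one]

lemma trace_cj (g : (SLn n)) (A : (MM n)) : (cj g A).trace = A.trace := by
  rw [cj_apply, Matrix.trace_mul_cycle, coe_inv_mul_coe, one_mul]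

lemma exp_cj (g : (SLn n)) (A : (MM n)) : NormedSpace.exp (cj g A) = cj g (NormedSpace.exp A) := by
  let U : (MM n)ˣ := ⟨(g : (MM n)), ((g⁻¹ : (SLn n)) : (MM n)), coe_mul_coe_inv g, coe_inv_mul_coe g⟩
  exact Matrix.exp_units_conj U A

lemma cj_mem_lieSet {H : Subgroup (SLn n)} {g : (SLn n)} (hg : g ∈ H) {A : (MM n)}
    (hA : A ∈ lieSet (H : Set (SLn n))) : cj g A ∈ lieSet (H : Set (SLn n)) := by
  intro t
  obtain ⟨h, hh, hhA⟩ := hA t
  refine ⟨g * h * g⁻¹, H.mul_mem (H.mul_mem hg hh) (H.inv_mem hg), ?_⟩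
  rw [Matrix.SpecialLinearGroup.coe_mul, Matrix.SpecialLinearGroup.coe_mul, hhA, ← map_smul,
    exp_cj, cj_apply]

lemma bracket_mem_lieSet {H : Subgroup (SLn n)} (hH : IsClosed (H : Set (SLn n))) {A B : (MM n)}
    (hA : A ∈ lieSet (H : Set (SLn n))) (hB : B ∈ lieSet (H : Set (SLn n))) :
    A * B - B * A ∈ lieSet (H : Set (SLn n)) := by
  have hcl : IsClosed ((lieSub H hH : Submodule ℝ (MM n)) : Set (MM n)) :=
    Submodule.closed_of_finiteDimensional _
  have hmem : ∀ s : ℝ, s⁻¹ • (NormedSpace.exp (s • A) * B * NormedSpace.exp (-(s • A)) - B) ∈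
      lieSub H hH := by
    intro s
    refine (lieSub H hH).smul_mem _ ((lieSub H hH).sub_mem ?_ hB)
    obtain ⟨g, hg, hgA⟩ := hA s
    have h1 : ((g⁻¹ : (SLn n)) : (MM n)) = NormedSpace.exp (-(s • A)) := by
      have h2 : (g : (MM n)) * ((g⁻¹ : (SLn n)) : (MM n)) = (g : (MM n)) * NormedSpace.exp (-(s • A)) := by
        rw [coe_mul_coe_inv, hgA, exp_mul_exp_neg]
      have h5 : IsUnit (g : (MM n)) := by
        rw [Matrix.isUnit_iff_isUnit_det]
        simp
      exact h5.mul_left_cancel h2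
    have h3 := cj_mem_lieSet hg hB
    rw [cj_apply, h1, hgA] at h3
    exact h3
  have hlim : Tendsto (fun s : ℝ =>
      s⁻¹ • (NormedSpace.exp (s • A) * B * NormedSpace.exp (-(s • A)) - B)) (𝓝[≠] 0)
      (𝓝 (A * B - B * A)) := by
    have h1 := tendsto_slope_exp_matrix A
    have h2 := tendsto_slope_exp_matrix (-A)
    have h3 : Tendsto (fun u : ℝ => NormedSpace.exp (-(u • A))) (𝓝[≠] 0) (𝓝 (1 : (MM n))) := by
      have h4 : Tendsto (fun u : ℝ => -(u • A)) (𝓝[≠] 0) (𝓝 (-((0 : ℝ) • A))) :=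
        (((continuous_id.smul continuous_const).neg).tendsto (0 : ℝ)).mono_left nhdsWithin_le_nhds
      have h5 := (continuous_exp_matrix.tendsto _).comp h4
      rw [zero_smul, neg_zero, NormedSpace.exp_zero] at h5
      exact h5
    have h6 := ((h1.mul_const B).mul h3).add (h2.const_mul B)
    rw [mul_one, mul_neg, ← sub_eq_add_neg] at h6
    refine h6.congr fun u => ?_
    rw [smul_mul_assoc, smul_mul_assoc, mul_smul_comm, ← smul_add, smul_neg]
    congr 1
    noncomm_ring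
  exact hcl.mem_of_tendsto hlim (Eventually.of_forall hmem)

section

open scoped Matrix.Norms.Operator

set_option backward.isDefEq.respectTransparency false in
/-- A closed subgroup that is not discrete has a nonzero Lie algebra. -/
theorem exists_ne_zero_of_not_discrete {H : Subgroup (SLn n)} (hH : IsClosed (H : Set (SLn n)))
    (hd : ¬ DiscreteTopology H) : ∃ A ∈ lieSet (H : Set (SLn n)), A ≠ 0 := by
  have hne : (𝓝[≠] (1 : H)).NeBot := by
    by_contra hcon
    rw [not_neBot, ← isOpen_singleton_iff_punctured_nhds] at hcon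
    exact hd (discreteTopology_of_isOpen_singleton_one hcon)
  obtain ⟨U, hU⟩ := Ultrafilter.exists_le (𝓝[≠] (1 : H))
  have hval : Tendsto (fun h : H => ((h : (SLn n)) : (MM n))) (𝓝[≠] (1 : H)) (𝓝 1) := by
    have hc : Continuous (fun h : H => ((h : (SLn n)) : (MM n))) :=
      (Matrix.SpecialLinearGroup.isClosedEmbedding_val).continuous.comp continuous_subtype_val
    have := (hc.tendsto 1).mono_left (nhdsWithin_le_nhds (s := {1}ᶜ))
    simpa using this
  set ε : H → ℝ := fun h => ‖((h : (SLn n)) : (MM n)) - 1‖ with hε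
  have hε0 : Tendsto ε U (𝓝 0) := by
    have h1 := ((hval.mono_left hU).sub_const 1).norm
    simpa using h1
  have hεpos : ∀ᶠ h in (U : Filter H), 0 < ε h := by
    have h1 : ∀ᶠ h in (U : Filter H), h ≠ 1 := hU self_mem_nhdsWithin
    filter_upwards [h1] with h hh
    rw [hε]
    simp only [norm_pos_iff]
    intro h2
    apply hh
    have h3 : ((h : (SLn n)) : (MM n)) = ((1 : (SLn n)) : (MM n)) := by
      rw [Matrix.SpecialLinearGroup.coe_one]
      exact sub_eq_zero.1 h2
    exact Subtype.ext (Subtype.ext h3)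
  have hc : IsCompact (Metric.sphere (0 : (MM n)) 1) := isCompact_sphere _ _
  have hmem : Metric.sphere (0 : (MM n)) 1 ∈
      U.map (fun h : H => (ε h)⁻¹ • (((h : (SLn n)) : (MM n)) - 1)) := by
    rw [Ultrafilter.mem_map]
    filter_upwards [hεpos] with h hh
    simp only [Set.mem_preimage, mem_sphere_zero_iff_norm]
    rw [norm_smul, norm_inv, Real.norm_of_nonneg hh.le]
    exact inv_mul_cancel₀ hh.ne'
  obtain ⟨C, hC1, hC2⟩ := hc.ultrafilter_le_nhds' _ hmem
  refine ⟨C, ?_, ?_⟩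
  · exact mem_lieSet_of_tendsto (l := (U : Filter H)) hH (fun h => (h : (SLn n))) (fun h => h.2) ε C
      hε0 hεpos hC2
  · rintro rfl
    simp at hC1

end

end Pool.Agent.Lib.MP_aa9b81_an.N
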