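import Mathlib
import Pool.Agent.Lib.MP_aa9b81_an.NLie

/-!
Associative algebras of real matrices, their trace form and its radical.
-/

set_option autoImplicit false
set_option linter.unusedSectionVars false

open Matrix Module Polynomial

namespace Pool.Agent.Lib.MP_aa9b81_an.N

variable {n : ℕ}

/-- Column vectors. -/
abbrev VV (n : ℕ) : Type := Fin n → ℝ

lemma idem_eq_zero {E : MM n} (h : E * E = E) (ht : E.trace = 0) : E = 0 := by
  have hp : LinearMap.IsProj (LinearMap.range (Matrix.toLin' E)) (Matrix.toLin' E) := by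
    constructor
    · intro v
      exact ⟨v, rfl⟩
    · rintro _ ⟨v, rfl⟩
      rw [Matrix.toLin'_apply, Matrix.toLin'_apply, Matrix.mulVec_mulVec, h]
  have h1 := hp.trace
  rw [Matrix.trace_toLin'_eq, ht] at h1
  have h2 : finrank ℝ (LinearMap.range (Matrix.toLin' E)) = 0 := by
    exact_mod_cast h1.symm
  have h3 := Submodule.finrank_eq_zero.1 h2
  rw [LinearMap.range_eq_bot] at h3
  exact (LinearEquiv.map_eq_zero_iff Matrix.toLin').1 h3

/-- A matrix all of whose power traces vanish is nilpotent. -/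
theorem isNilpotent_of_trace {A : MM n} (h : ∀ k : ℕ, (A ^ (k + 1)).trace = 0) : IsNilpotent A := by
  obtain ⟨q, hq, hq0⟩ := exists_eq_pow_rootMultiplicity_mul_and_not_dvd (minpoly ℝ A)
    (minpoly.ne_zero (Matrix.isIntegral A)) 0
  set m := rootMultiplicity 0 (minpoly ℝ A) with hm
  rw [map_zero, sub_zero] at hq hq0
  have hcop : IsCoprime ((X : ℝ[X]) ^ (m + 1)) q := by
    apply IsCoprime.pow_left
    exact (Polynomial.irreducible_X.coprime_iff_not_dvd).2 hq0
  obtain ⟨u, v, huv⟩ := hcop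
  have hA0 : aeval A (minpoly ℝ A) = 0 := minpoly.aeval ℝ A
  set E : MM n := aeval A (u * X ^ (m + 1)) with hE
  have h1 : E + aeval A (v * q) = 1 := by
    rw [hE, ← map_add, huv, map_one]
  have h2 : E * aeval A (v * q) = 0 := by
    rw [hE, ← map_mul]
    have : u * X ^ (m + 1) * (v * q) = (u * X * v) * (X ^ m * q) := by ring
    rw [this, ← hq, map_mul, hA0, mul_zero]
  have hEE : E * E = E := by
    have h3 : E * (E + aeval A (v * q)) = E := by rw [h1, mul_one]
    rw [mul_add, h2, add_zero] at h3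
    exact h3
  have hEt : E.trace = 0 := by
    rw [hE, map_mul, aeval_X_pow, aeval_eq_sum_range, Finset.sum_mul, Matrix.trace_sum]
    apply Finset.sum_eq_zero
    intro i _
    rw [smul_mul_assoc, ← pow_add, Matrix.trace_smul, ← add_assoc, h, smul_zero]
  have hE0 := idem_eq_zero hEE hEt
  rw [hE0, zero_add] at h1
  refine ⟨m, ?_⟩
  have e1 : X ^ m * (v * q) = v * (X ^ m * q) := by ring
  have e2 : aeval A (X ^ m * (v * q)) = A ^ m * aeval A (v * q) := by
    rw [map_mul (aeval A) (X ^ m) (v * q), aeval_X_pow]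
  have e3 : aeval A (v * (X ^ m * q)) = 0 := by
    rw [← hq, map_mul, hA0, mul_zero]
  rw [e1, e3, h1, mul_one] at e2
  exact e2.symm

lemma trace_eq_zero_of_nilp {A : MM n} (h : IsNilpotent A) : A.trace = 0 :=
  (Matrix.isNilpotent_trace_of_isNilpotent h).eq_zero

/-- The trace form. -/
noncomputable def tf : LinearMap.BilinForm ℝ (MM n) :=
  LinearMap.mk₂ ℝ (fun A B => (A * B).trace)
    (fun A A' B => by simp [add_mul]) (fun c A B => by simp)
    (fun A B B' => by simp [mul_add]) (fun c A B => by simp)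

lemma tf_apply (A B : MM n) : tf A B = (A * B).trace := rfl

lemma tf_symm : (tf (n := n)).IsSymm := ⟨fun A B => by
  simp only [tf_apply]
  exact Matrix.trace_mul_comm A B⟩

lemma tf_nondeg : (tf (n := n)).Nondegenerate := by
  refine tf_symm.isRefl.nondegenerate_iff_separatingLeft.2 ?_
  intro A hA
  have h1 : (Aᵀ * A).trace = 0 := by
    rw [Matrix.trace_mul_comm]
    exact hA Aᵀ
  have h2 : (Aᴴ * A).trace = 0 := by
    rw [Matrix.conjTranspose_eq_transpose_of_trivial]
    exact h1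
  exact Matrix.trace_conjTranspose_mul_self_eq_zero_iff.1 h2

/-- The unital algebra generated by `W`. -/
noncomputable def alg (W : Submodule ℝ (MM n)) : Submodule ℝ (MM n) :=
  Subalgebra.toSubmodule (Algebra.adjoin ℝ (W : Set (MM n)))

variable {W : Submodule ℝ (MM n)}

lemma mem_alg {A : MM n} : A ∈ alg W ↔ A ∈ Algebra.adjoin ℝ (W : Set (MM n)) :=
  Iff.rfl

lemma le_alg (W : Submodule ℝ (MM n)) : W ≤ alg W := fun _ h => Algebra.subset_adjoin h

lemma one_mem_alg (W : Submodule ℝ (MM n)) : (1 : MM n) ∈ alg W :=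
  (Algebra.adjoin ℝ (W : Set (MM n))).one_mem

lemma mul_mem_alg {A B : MM n} (hA : A ∈ alg W) (hB : B ∈ alg W) :
    A * B ∈ alg W := (Algebra.adjoin ℝ (W : Set (MM n))).mul_mem hA hB

lemma pow_mem_alg {A : MM n} (hA : A ∈ alg W) (k : ℕ) : A ^ k ∈ alg W :=
  (Algebra.adjoin ℝ (W : Set (MM n))).pow_mem hA k

/-- The orthogonal of the algebra. -/
noncomputable def nu (W : Submodule ℝ (MM n)) : Submodule ℝ (MM n) := tf.orthogonal (alg W)

lemma mem_nu {B : MM n} : B ∈ nu W ↔ ∀ a ∈ alg W, (a * B).trace = 0 := Iff.rfl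

lemma mem_alg_iff {A : MM n} :
    A ∈ alg W ↔ ∀ B ∈ nu W, (B * A).trace = 0 := by
  have h : tf.orthogonal (nu W) = alg W :=
    LinearMap.BilinForm.orthogonal_orthogonal tf_nondeg tf_symm.isRefl (alg W)
  rw [← h]
  rfl

/-- The radical of the trace form of the algebra. -/
noncomputable def rd (W : Submodule ℝ (MM n)) : Submodule ℝ (MM n) := alg W ⊓ nu W

lemma mem_rd {A : MM n} :
    A ∈ rd W ↔ A ∈ alg W ∧ ∀ a ∈ alg W, (a * A).trace = 0 := Iff.rfl

/-- Elements of the radical are nilpotent. -/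
lemma rd_nilp {A : MM n} (h : A ∈ rd W) : IsNilpotent A := by
  apply isNilpotent_of_trace
  intro k
  rw [pow_succ]
  exact (mem_rd.1 h).2 _ (pow_mem_alg h.1 k)

lemma mul_mem_rd_left {A B : MM n} (hA : A ∈ alg W) (hB : B ∈ rd W) :
    A * B ∈ rd W := by
  rw [mem_rd]
  refine ⟨mul_mem_alg hA hB.1, fun a ha => ?_⟩
  rw [← mul_assoc]
  exact (mem_rd.1 hB).2 _ (mul_mem_alg ha hA)

lemma mul_mem_rd_right {A B : MM n} (hA : A ∈ alg W) (hB : B ∈ rd W) :
    B * A ∈ rd W := by
  rw [mem_rd]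
  refine ⟨mul_mem_alg hB.1 hA, fun a ha => ?_⟩
  rw [← mul_assoc, Matrix.trace_mul_comm, ← mul_assoc]
  exact (mem_rd.1 hB).2 _ (mul_mem_alg hA ha)

/-- If all products `a * A`, `a` in the algebra, are nilpotent, then `A` is in the radical. -/
lemma mem_rd_of_nilp {A : MM n} (hA : A ∈ alg W) (h : ∀ a ∈ alg W, IsNilpotent (a * A)) :
    A ∈ rd W := mem_rd.2 ⟨hA, fun a ha => trace_eq_zero_of_nilp (h a ha)⟩

/-- A central nilpotent element of the algebra is in the radical. -/
lemma mem_rd_of_central {A : MM n} (hA : A ∈ alg W) (hc : ∀ B ∈ W, B * A = A * B)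
    (hn : IsNilpotent A) : A ∈ rd W := by
  refine mem_rd_of_nilp hA fun a ha => ?_
  have hcomm : a * A = A * a := by
    rw [mem_alg] at ha
    induction ha using Algebra.adjoin_induction with
    | mem a ha => exact hc a ha
    | algebraMap r => exact Algebra.commutes r A
    | add a b _ _ h1 h2 => rw [add_mul, mul_add, h1, h2]
    | mul a b _ _ h1 h2 => rw [mul_assoc, h2, ← mul_assoc, h1, mul_assoc]
  exact (show Commute a A from hcomm).isNilpotent_mul_left hn

/-- The algebra leaves a subspace invariant as soon as the generators do. -/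
lemma alg_mulVec_mem {U : Submodule ℝ (VV n)}
    (h : ∀ A ∈ W, ∀ v ∈ U, A *ᵥ v ∈ U) {A : MM n} (hA : A ∈ alg W) : ∀ v ∈ U, A *ᵥ v ∈ U := by
  rw [mem_alg] at hA
  induction hA using Algebra.adjoin_induction with
  | mem A hA => exact h A hA
  | algebraMap r =>
    intro v hv
    rw [Algebra.algebraMap_eq_smul_one, Matrix.smul_mulVec, Matrix.one_mulVec]
    exact U.smul_mem _ hv
  | add A B _ _ h1 h2 =>
    intro v hv
    rw [Matrix.add_mulVec]
    exact U.add_mem (h1 v hv) (h2 v hv)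
  | mul A B _ _ h1 h2 =>
    intro v hv
    rw [← Matrix.mulVec_mulVec]
    exact h1 _ (h2 v hv)

/-- A family of nilpotent matrices closed under multiplication kills a nonzero vector in every
nonzero invariant subspace. -/
lemma exists_killed {N : Submodule ℝ (MM n)} (hmul : ∀ a ∈ N, ∀ b ∈ N, a * b ∈ N)
    (hnil : ∀ a ∈ N, IsNilpotent a) {U : Submodule ℝ (VV n)} (hU : ∀ a ∈ N, ∀ v ∈ U, a *ᵥ v ∈ U)
    (hU0 : U ≠ ⊥) : ∃ v ∈ U, v ≠ 0 ∧ ∀ a ∈ N, a *ᵥ v = 0 := by
  let ev : VV n → (MM n →ₗ[ℝ] VV n) := fun v =>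
    { toFun := fun A => A *ᵥ v
      map_add' := fun A B => Matrix.add_mulVec A B v
      map_smul' := fun c A => Matrix.smul_mulVec c A v }
  obtain ⟨v₀, hv₀, hv₀0⟩ := Submodule.exists_mem_ne_zero_of_ne_bot hU0
  have key : ∀ k : ℕ, ∀ v ∈ U, v ≠ 0 → finrank ℝ (N.map (ev v)) ≤ k →
      ∃ v ∈ U, v ≠ 0 ∧ ∀ a ∈ N, a *ᵥ v = 0 := by
    intro k
    induction k with
    | zero =>
      intro v hv hv0 hk
      refine ⟨v, hv, hv0, fun a ha => ?_⟩
      have h1 : N.map (ev v) = ⊥ := Submodule.finrank_eq_zero.1 (Nat.le_zero.1 hk)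
      have h2 : ev v a ∈ N.map (ev v) := Submodule.mem_map_of_mem ha
      rw [h1, Submodule.mem_bot] at h2
      exact h2
    | succ k ih =>
      intro v hv hv0 hk
      by_cases hz : ∀ a ∈ N, a *ᵥ v = 0
      · exact ⟨v, hv, hv0, hz⟩
      · push Not at hz
        obtain ⟨a, ha, hav⟩ := hz
        have hle : N.map (ev (a *ᵥ v)) ≤ N.map (ev v) := by
          rintro _ ⟨b, hb, rfl⟩
          refine ⟨b * a, hmul b hb a ha, ?_⟩
          exact (Matrix.mulVec_mulVec v b a).symm
        have hne : N.map (ev (a *ᵥ v)) ≠ N.map (ev v) := by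
          intro heq
          have h1 : a *ᵥ v ∈ N.map (ev (a *ᵥ v)) := by
            rw [heq]
            exact ⟨a, ha, rfl⟩
          obtain ⟨b, hb, hbv⟩ := h1
          have hbv' : b *ᵥ (a *ᵥ v) = a *ᵥ v := hbv
          obtain ⟨j, hj⟩ := hnil b hb
          have h2 : ∀ i : ℕ, (b ^ i) *ᵥ (a *ᵥ v) = a *ᵥ v := by
            intro i
            induction i with
            | zero => rw [pow_zero, Matrix.one_mulVec]
            | succ i ih2 => rw [pow_succ, ← Matrix.mulVec_mulVec, hbv', ih2]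
          have h3 := h2 j
          rw [hj, Matrix.zero_mulVec] at h3
          exact hav h3.symm
        have hlt := Submodule.finrank_lt_finrank_of_lt (lt_of_le_of_ne hle hne)
        exact ih (a *ᵥ v) (hU a ha v hv) hav (by omega)
  exact key _ v₀ hv₀ hv₀0 le_rfl

/-- The vectors killed by the radical. -/
noncomputable def kr (W : Submodule ℝ (MM n)) : Submodule ℝ (VV n) where
  carrier := {v | ∀ B ∈ rd W, B *ᵥ v = 0}
  zero_mem' := fun B _ => by simp
  add_mem' := fun {v w} hv hw B hB => by rw [Matrix.mulVec_add, hv B hB, hw B hB, add_zero]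
  smul_mem' := fun c v hv B hB => by rw [Matrix.mulVec_smul, hv B hB, smul_zero]

lemma mem_kr {v : VV n} : v ∈ kr W ↔ ∀ B ∈ rd W, B *ᵥ v = 0 := Iff.rfl

/-- The vectors orthogonal to the image of the radical. -/
noncomputable def an (W : Submodule ℝ (MM n)) : Submodule ℝ (VV n) where
  carrier := {v | ∀ B ∈ rd W, Bᵀ *ᵥ v = 0}
  zero_mem' := fun B _ => by simp
  add_mem' := fun {v w} hv hw B hB => by rw [Matrix.mulVec_add, hv B hB, hw B hB, add_zero]
  smul_mem' := fun c v hv B hB => by rw [Matrix.mulVec_smul, hv B hB, smul_zero]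

lemma mem_an {v : VV n} : v ∈ an W ↔ ∀ B ∈ rd W, Bᵀ *ᵥ v = 0 := Iff.rfl

/-- The dot product form. -/
noncomputable def dpf : LinearMap.BilinForm ℝ (VV n) :=
  LinearMap.mk₂ ℝ (fun v w => v ⬝ᵥ w)
    (fun v v' w => by simp [add_dotProduct]) (fun c v w => by simp)
    (fun v w w' => by simp [dotProduct_add]) (fun c v w => by simp)

lemma dpf_apply (v w : VV n) : dpf v w = v ⬝ᵥ w := rfl

lemma dpf_symm : (dpf (n := n)).IsSymm := ⟨fun v w => by
  simp only [dpf_apply]
  exact dotProduct_comm v w⟩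

lemma dpf_nondeg : (dpf (n := n)).Nondegenerate := by
  refine dpf_symm.isRefl.nondegenerate_iff_separatingLeft.2 ?_
  intro v hv
  exact dotProduct_self_eq_zero.1 (hv v)

/-- The image of the radical, as the orthogonal of `an W`. -/
noncomputable def rg (W : Submodule ℝ (MM n)) : Submodule ℝ (VV n) := dpf.orthogonal (an W)

lemma mem_rg {v : VV n} : v ∈ rg W ↔ ∀ w ∈ an W, w ⬝ᵥ v = 0 := Iff.rfl

lemma mulVec_mem_rg {B : MM n} (hB : B ∈ rd W) (v : VV n) : B *ᵥ v ∈ rg W := by
  rw [mem_rg]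
  intro w hw
  rw [Matrix.dotProduct_mulVec, ← Matrix.mulVec_transpose, hw B hB, zero_dotProduct]

lemma rg_eq_span : rg W = Submodule.span ℝ {v | ∃ B ∈ rd W, ∃ w : VV n, v = B *ᵥ w} := by
  set S := Submodule.span ℝ {v : VV n | ∃ B ∈ rd W, ∃ w : VV n, v = B *ᵥ w} with hS
  have h1 : dpf.orthogonal S = an W := by
    ext v
    constructor
    · intro h B hB
      have h2 : ∀ w : VV n, (Bᵀ *ᵥ v) ⬝ᵥ w = 0 := by
        intro w
        have h3 : dpf (B *ᵥ w) v = 0 := h _ (Submodule.subset_span ⟨B, hB, w, rfl⟩)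
        rw [dpf_apply, dotProduct_comm, Matrix.dotProduct_mulVec, ← Matrix.mulVec_transpose] at h3
        exact h3
      exact dotProduct_self_eq_zero.1 (h2 _)
    · intro h w hw
      change dpf w v = 0
      rw [dpf_apply]
      induction hw using Submodule.span_induction with
      | mem w hw =>
        obtain ⟨B, hB, w', rfl⟩ := hw
        rw [dotProduct_comm, Matrix.dotProduct_mulVec, ← Matrix.mulVec_transpose, h B hB,
          zero_dotProduct]
      | zero => rw [zero_dotProduct]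
      | add x y _ _ hx hy => rw [add_dotProduct, hx, hy, add_zero]
      | smul a x _ hx => rw [smul_dotProduct, hx, smul_zero]
  rw [rg, ← h1]
  exact LinearMap.BilinForm.orthogonal_orthogonal dpf_nondeg dpf_symm.isRefl S

/-- The canonical subspace. -/
noncomputable def ws (W : Submodule ℝ (MM n)) : Submodule ℝ (VV n) := kr W ⊓ rg W

lemma ws_ne_bot (h : rd W ≠ ⊥) : ws W ≠ ⊥ := by
  have hrg : rg W ≠ ⊥ := by
    intro h0
    apply h
    rw [Submodule.eq_bot_iff]
    intro B hB
    have h1 : ∀ v : VV n, B *ᵥ v = 0 := by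
      intro v
      have h2 := mulVec_mem_rg hB v
      rwa [h0, Submodule.mem_bot] at h2
    apply Matrix.toLin'.injective
    ext v : 1
    ext i
    simp [h1]
  obtain ⟨v, hv, hv0, hvk⟩ := exists_killed (N := rd W)
    (fun a ha b hb => mul_mem_rd_left ha.1 hb) (fun a ha => rd_nilp ha)
    (fun a ha v _ => mulVec_mem_rg ha v) hrg
  intro h0
  apply hv0
  have : v ∈ ws W := ⟨hvk, hv⟩
  rwa [h0, Submodule.mem_bot] at this

lemma ws_ne_top (h : rd W ≠ ⊥) : ws W ≠ ⊤ := by
  intro h0
  apply h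
  rw [Submodule.eq_bot_iff]
  intro B hB
  have h1 : ∀ v : VV n, B *ᵥ v = 0 := by
    intro v
    have h2 : v ∈ ws W := by rw [h0]; exact Submodule.mem_top
    exact h2.1 B hB
  apply Matrix.toLin'.injective
  ext v : 1
  ext i
  simp [h1]

end Pool.Agent.Lib.MP_aa9b81_an.N
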