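import Mathlib

/-!
Finite decompositions of invariant sets into relatively closed layers.
-/

set_option autoImplicit false
set_option linter.unusedSectionVars false

open Filter Topology

namespace Pool.Agent.Lib.MP_aa9b81_an

variable {G X : Type*} [TopologicalSpace X] [Group G] [MulAction G X] [ContinuousConstSMul G X]

/-- Invariant sets. -/
def Inv (G : Type*) {X : Type*} [Group G] [MulAction G X] (Y : Set X) : Prop :=
  ∀ (g : G), ∀ x ∈ Y, g • x ∈ Y

lemma Inv.iff {Y : Set X} (h : Inv G Y) (g : G) (x : X) : g • x ∈ Y ↔ x ∈ Y := by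
  refine ⟨fun hx => ?_, h g x⟩
  have := h g⁻¹ _ hx
  rwa [inv_smul_smul] at this

lemma Inv.cl {Y : Set X} (h : Inv G Y) : Inv G (closure Y) := by
  intro g x hx
  have h1 : (fun y => g • y) '' closure Y ⊆ closure ((fun y => g • y) '' Y) :=
    image_closure_subset_closure_image (continuous_const_smul g)
  have h2 : (fun y => g • y) '' Y ⊆ Y := by
    rintro _ ⟨y, hy, rfl⟩
    exact h g y hy
  exact closure_mono h2 (h1 ⟨x, hx, rfl⟩)

lemma Inv.inter {Y Z : Set X} (hY : Inv G Y) (hZ : Inv G Z) : Inv G (Y ∩ Z) :=
  fun g x hx => ⟨hY g x hx.1, hZ g x hx.2⟩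

lemma Inv.union {Y Z : Set X} (hY : Inv G Y) (hZ : Inv G Z) : Inv G (Y ∪ Z) := by
  intro g x hx
  rcases hx with hx | hx
  · exact Or.inl (hY g x hx)
  · exact Or.inr (hZ g x hx)

lemma Inv.diff {Y Z : Set X} (hY : Inv G Y) (hZ : Inv G Z) : Inv G (Y \ Z) :=
  fun g x hx => ⟨hY g x hx.1, fun h => hx.2 ((hZ.iff g x).1 h)⟩

/-- Sets obtained from good invariant sets by finitely many extensions along relatively closed
invariant subsets. -/
inductive Dec (G : Type*) {X : Type*} [TopologicalSpace X] [Group G] [MulAction G X]
    (Good : Set X → Prop) : Set X → Prop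
  | good {Y : Set X} : Inv G Y → Good Y → Dec G Good Y
  | glue {Y T : Set X} : T ⊆ Y → Inv G Y → Inv G T → Y ∩ closure T ⊆ T → Dec G Good T →
      Dec G Good (Y \ T) → Dec G Good Y

variable {Good : Set X → Prop}

lemma Dec.inv {Y : Set X} (h : Dec G Good Y) : Inv G Y := by
  cases h with
  | good h _ => exact h
  | glue _ h _ _ _ _ => exact h

/-- Decomposition along the level sets of a semicontinuous function with natural values. -/
lemma dec_levels {Y : Set X} (hY : Inv G Y) (h0 : Good ∅) (r : X → ℕ) (N : ℕ)
    (hN : ∀ x ∈ Y, r x ≤ N) (hr : ∀ (g : G), ∀ x ∈ Y, r (g • x) = r x)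
    (hc : ∀ k, Y ∩ closure {x ∈ Y | k ≤ r x} ⊆ {x | k ≤ r x})
    (hd : ∀ k, Dec G Good {x ∈ Y | r x = k}) : Dec G Good Y := by
  have key : ∀ n, Dec G Good {x ∈ Y | r x < n} := by
    intro n
    induction n with
    | zero =>
      have : {x ∈ Y | r x < 0} = (∅ : Set X) := by
        ext x
        simp
      rw [this]
      exact Dec.good (fun g x hx => absurd hx (Set.notMem_empty x)) h0
    | succ n ih =>
      have hI : Inv G {x ∈ Y | r x < n + 1} := fun g x hx => ⟨hY g x hx.1, by
        rw [hr g x hx.1]; exact hx.2⟩
      have hT : Inv G {x ∈ Y | r x = n} := fun g x hx => ⟨hY g x hx.1, by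
        rw [hr g x hx.1]; exact hx.2⟩
      refine Dec.glue (T := {x ∈ Y | r x = n}) ?_ hI hT ?_ (hd n) ?_
      · rintro x ⟨hx, hx2⟩
        exact ⟨hx, by omega⟩
      · rintro x ⟨⟨hx1, hx2⟩, hx3⟩
        refine ⟨hx1, ?_⟩
        have h1 : x ∈ closure {x ∈ Y | n ≤ r x} := by
          refine closure_mono ?_ hx3
          rintro y ⟨hy1, hy2⟩
          exact ⟨hy1, hy2.ge⟩
        have h2 : n ≤ r x := hc n ⟨hx1, h1⟩
        omega
      · have : {x ∈ Y | r x < n + 1} \ {x ∈ Y | r x = n} = {x ∈ Y | r x < n} := by
          ext x
          simp only [Set.mem_sdiff, Set.mem_ofPred_eq, not_and]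
          constructor
          · rintro ⟨⟨h1, h2⟩, h3⟩
            exact ⟨h1, by have := h3 h1; omega⟩
          · rintro ⟨h1, h2⟩
            exact ⟨⟨h1, by omega⟩, fun _ => by omega⟩
        rw [this]
        exact ih
  have := key (N + 1)
  have h2 : {x ∈ Y | r x < N + 1} = Y := by
    ext x
    simp only [Set.mem_ofPred_eq, and_iff_left_iff_imp]
    intro hx
    have := hN x hx
    omega
  rwa [h2] at this

/-- Two-piece version. -/
lemma dec_pair {Y : Set X} (hY : Inv G Y) {T : Set X} (hTY : T ⊆ Y) (hT : Inv G T)
    (hc : Y ∩ closure T ⊆ T) (h1 : Dec G Good T) (h2 : Dec G Good (Y \ T)) : Dec G Good Y :=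
  Dec.glue hTY hY hT hc h1 h2

/-- From a decomposition to a finite increasing sequence of closed invariant sets. -/
theorem Dec.filt {Y : Set X} (h : Dec G Good Y) : ∃ (n : ℕ) (C : ℕ → Set X),
    (∀ i, IsClosed (C i)) ∧ (∀ i, Inv G (C i)) ∧ Monotone C ∧ Y ∩ C 0 = ∅ ∧ Y ⊆ C n ∧
    ∀ i < n, Good (Y ∩ (C (i + 1) \ C i)) := by
  induction h with
  | @good Y hI hG =>
    refine ⟨1, fun i => if i = 0 then ∅ else Set.univ, ?_, ?_, ?_, ?_, ?_, ?_⟩
    · intro i
      by_cases hi : i = 0 <;> simp [hi]
    · intro i
      by_cases hi : i = 0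
      · simp only [hi, if_true]
        exact fun g x hx => absurd hx (Set.notMem_empty x)
      · simp only [hi, if_false]
        exact fun g x _ => trivial
    · intro i j hij
      by_cases hi : i = 0
      · simp [hi]
      · have hj : j ≠ 0 := by omega
        simp [hi, hj]
    · simp
    · simp
    · intro i hi
      have : i = 0 := by omega
      subst this
      simpa using hG
  | @glue Y T hTY hIY hIT hc _ _ ih1 ih2 =>
    obtain ⟨n, C, hC1, hC2, hC3, hC4, hC5, hC6⟩ := ih1
    obtain ⟨m, D, hD1, hD2, hD3, hD4, hD5, hD6⟩ := ih2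
    have hTc : Y ∩ closure T = T :=
      Set.Subset.antisymm hc fun x hx => ⟨hTY hx, subset_closure hx⟩
    refine ⟨n + m, fun i => if i < n then closure T ∩ C i else closure T ∪ D (i - n),
      ?_, ?_, ?_, ?_, ?_, ?_⟩
    · intro i
      by_cases hi : i < n
      · simp only [hi, if_true]
        exact isClosed_closure.inter (hC1 i)
      · simp only [hi, if_false]
        exact isClosed_closure.union (hD1 _)
    · intro i
      by_cases hi : i < n
      · simp only [hi, if_true]
        exact hIT.cl.inter (hC2 i)
      · simp only [hi, if_false]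
        exact hIT.cl.union (hD2 _)
    · intro i j hij
      by_cases hi : i < n
      · by_cases hj : j < n
        · simp only [hi, hj, if_true]
          exact Set.inter_subset_inter_right _ (hC3 hij)
        · simp only [hi, hj, if_true, if_false]
          exact fun x hx => Or.inl hx.1
      · have hj : ¬ j < n := by omega
        simp only [hi, hj, if_false]
        exact Set.union_subset_union_right _ (hD3 (by omega))
    · by_cases hn : 0 < n
      · simp only [hn, if_true]
        rw [← Set.inter_assoc, hTc, hC4]
      · have hn0 : n = 0 := by omega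
        subst hn0
        have hTe : T = ∅ := by
          rw [← hC4]
          exact (Set.inter_eq_left.2 hC5).symm
        simp only [lt_irrefl, if_false, Nat.sub_zero]
        rw [hTe, closure_empty, Set.empty_union]
        rw [hTe, Set.sdiff_empty] at hD4
        exact hD4
    · have h1 : ¬ (n + m < n) := by omega
      simp only [h1, if_false, Nat.add_sub_cancel_left]
      intro x hx
      by_cases hxT : x ∈ T
      · exact Or.inl (subset_closure hxT)
      · exact Or.inr (hD5 ⟨hx, hxT⟩)
    · intro i hi
      by_cases h1 : i + 1 < n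
      · have h2 : i < n := by omega
        have h3 : Y ∩ ((if i + 1 < n then closure T ∩ C (i + 1) else closure T ∪ D (i + 1 - n)) \
            (if i < n then closure T ∩ C i else closure T ∪ D (i - n))) =
            T ∩ (C (i + 1) \ C i) := by
          rw [if_pos h1, if_pos h2]
          conv_rhs => rw [← hTc]
          ext x
          simp only [Set.mem_inter_iff, Set.mem_sdiff, not_and]
          tauto
        simp only [h3]
        exact hC6 i h2
      · by_cases h2 : i < n
        · have h4 : i + 1 = n := by omega
          have h3 : Y ∩ ((if i + 1 < n then closure T ∩ C (i + 1) else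
              closure T ∪ D (i + 1 - n)) \
              (if i < n then closure T ∩ C i else closure T ∪ D (i - n))) =
              T ∩ (C (i + 1) \ C i) := by
            rw [if_neg h1, if_pos h2]
            ext x
            have hDx : x ∈ Y → x ∉ T → x ∉ D 0 := by
              intro hxY hxT hxD
              have : x ∈ (Y \ T) ∩ D 0 := ⟨⟨hxY, hxT⟩, hxD⟩
              rw [hD4] at this
              exact this
            have hCx : x ∈ T → x ∈ C (i + 1) := fun hx => by
              rw [h4]; exact hC5 hx
            have hcl : x ∈ Y → x ∈ closure T → x ∈ T := fun h5 h6 => hc ⟨h5, h6⟩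
            have hcl2 : x ∈ T → x ∈ closure T := fun h5 => subset_closure h5
            have hTY' : x ∈ T → x ∈ Y := fun h5 => hTY h5
            have h5 : i + 1 - n = 0 := by omega
            rw [h5]
            simp only [Set.mem_inter_iff, Set.mem_sdiff, Set.mem_union, not_and]
            tauto
          simp only [h3]
          exact hC6 i h2
        · have h5 : i + 1 - n = (i - n) + 1 := by omega
          have h3 : Y ∩ ((if i + 1 < n then closure T ∩ C (i + 1) else
              closure T ∪ D (i + 1 - n)) \
              (if i < n then closure T ∩ C i else closure T ∪ D (i - n))) =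
              (Y \ T) ∩ (D (i - n + 1) \ D (i - n)) := by
            rw [if_neg h1, if_neg h2, h5]
            ext x
            have hcl : x ∈ Y → x ∈ closure T → x ∈ T := fun h5 h6 => hc ⟨h5, h6⟩
            have hcl2 : x ∈ T → x ∈ closure T := fun h5 => subset_closure h5
            simp only [Set.mem_inter_iff, Set.mem_sdiff, Set.mem_union, not_or]
            tauto
          simp only [h3]
          exact hD6 (i - n) (by omega)

end Pool.Agent.Lib.MP_aa9b81_an
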