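import Mathlib
import Pool.Agent.Lib.MP_aa9b81_an.NLie
import Pool.Agent.Lib.MP_aa9b81_an.Fam2
import Pool.Agent.Lib.MP_aa9b81_an.Dec

/-!
The family of isotropy algebras of a Hausdorff space with an action of a closed linear group.
-/

set_option autoImplicit false
set_option linter.unusedSectionVars false

open Filter Topology Matrix Module

namespace Pool.Agent.Lib.MP_aa9b81_an.N

variable {n : ℕ} [NeZero n]
variable {G : Type*} [Group G] [TopologicalSpace G] [IsTopologicalGroup G]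
variable {X : Type*} [TopologicalSpace X] [T2Space X] [MulAction G X] [ContinuousSMul G X]

/-- The image of the stabilizer in the linear group. -/
def imStab (ρ : G →* SLn n) (x : X) : Subgroup (SLn n) := (MulAction.stabilizer G x).map ρ

lemma mem_imStab {ρ : G →* SLn n} {x : X} {h : SLn n} :
    h ∈ imStab ρ x ↔ ∃ g : G, g • x = x ∧ ρ g = h := by
  constructor
  · rintro ⟨g, hg, rfl⟩
    exact ⟨g, MulAction.mem_stabilizer_iff.1 hg, rfl⟩
  · rintro ⟨g, hg, rfl⟩
    exact ⟨g, MulAction.mem_stabilizer_iff.2 hg, rfl⟩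

variable {ρ : G →* SLn n} (hρ : IsClosedEmbedding ρ)

include hρ

lemma isClosed_imStab (x : X) : IsClosed (imStab ρ x : Set (SLn n)) := by
  have h1 : IsClosed {g : G | g • x = x} := isClosed_eq (by fun_prop) continuous_const
  have h2 := hρ.isClosedMap _ h1
  have h3 : (imStab ρ x : Set (SLn n)) = ρ '' {g : G | g • x = x} := by
    ext h
    exact mem_imStab
  rw [h3]
  exact h2

/-- The isotropy algebra. -/
def iso (x : X) : Submodule ℝ (MM n) := lieSub (imStab ρ x) (isClosed_imStab hρ x)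

lemma mem_iso {x : X} {A : MM n} :
    A ∈ iso hρ x ↔ ∀ t : ℝ, ∃ g : G, g • x = x ∧ (ρ g : MM n) = NormedSpace.exp (t • A) := by
  constructor
  · intro h t
    obtain ⟨g, hg, hgA⟩ := h t
    obtain ⟨g', h1, h2⟩ := mem_imStab.1 hg
    exact ⟨g', h1, by rw [h2, hgA]⟩
  · intro h t
    obtain ⟨g, hg, hgA⟩ := h t
    exact ⟨ρ g, mem_imStab.2 ⟨g, hg, rfl⟩, hgA⟩

omit [T2Space X] [MulAction G X] [ContinuousSMul G X] in
lemma tendsto_of_coe {F : Filter X} {γ : X → G} {B : MM n}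
    (h : Tendsto (fun y => (ρ (γ y) : MM n)) F (𝓝 B)) (hne : F.NeBot) :
    ∃ g : G, (ρ g : MM n) = B ∧ Tendsto γ F (𝓝 g) := by
  have hcl : IsClosed (Set.range ρ) := hρ.isClosed_range
  obtain ⟨h', hh', hB⟩ := exists_mem_of_tendsto (H := Set.range ρ) hcl
    (Eventually.of_forall fun y => Set.mem_range_self (γ y)) h
  obtain ⟨g, rfl⟩ := hh'
  refine ⟨g, hB, ?_⟩
  rw [← hB] at h
  have h2 : Tendsto (fun y => ρ (γ y)) F (𝓝 (ρ g)) :=
    (Matrix.SpecialLinearGroup.isClosedEmbedding_val (n := Fin n) (R := ℝ)).tendsto_nhds_iff.2 h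
  exact hρ.tendsto_nhds_iff.2 h2

lemma cf_iso : CF (Set.univ : Set X) (iso (X := X) hρ) := by
  intro x _ F hF hle u hu A hA
  rw [nhdsWithin_univ] at hle
  rw [mem_iso]
  intro t
  have h1 : ∀ᶠ y in F, ∃ g : G, g • y = y ∧ (ρ g : MM n) = NormedSpace.exp (t • u y) :=
    hu.mono fun y hy => (mem_iso hρ).1 hy t
  obtain ⟨γ, hγ⟩ := h1.choice
  have h2 : Tendsto (fun y => NormedSpace.exp (t • u y)) F (𝓝 (NormedSpace.exp (t • A))) :=
    (continuous_exp_matrix.tendsto _).comp (hA.const_smul t)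
  have h3 : Tendsto (fun y => (ρ (γ y) : MM n)) F (𝓝 (NormedSpace.exp (t • A))) := by
    refine h2.congr' ?_
    filter_upwards [hγ] with y hy using hy.2.symm
  obtain ⟨g, hg, h4⟩ := tendsto_of_coe hρ h3 hF
  refine ⟨g, ?_, hg⟩
  have h5 : Tendsto (fun y => γ y • y) F (𝓝 (g • x)) := h4.smul hle
  have h6 : Tendsto (fun y => γ y • y) F (𝓝 x) := by
    refine Tendsto.congr' ?_ hle
    filter_upwards [hγ] with y hy using hy.1.symm
  exact tendsto_nhds_unique h5 h6

lemma mem_iso_smul {x : X} {g : G} {A : MM n} :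
    A ∈ iso hρ (g • x) ↔ cj (ρ g)⁻¹ A ∈ iso hρ x := by
  constructor
  · intro h
    rw [mem_iso] at h ⊢
    intro t
    obtain ⟨h', h1, h2⟩ := h t
    refine ⟨g⁻¹ * h' * g, ?_, ?_⟩
    · rw [mul_smul, mul_smul, h1, inv_smul_smul]
    · rw [map_mul, map_mul, map_inv, Matrix.SpecialLinearGroup.coe_mul,
        Matrix.SpecialLinearGroup.coe_mul, h2, ← map_smul, exp_cj, cj_apply, inv_inv]
  · intro h
    rw [mem_iso] at h ⊢
    intro t
    obtain ⟨h', h1, h2⟩ := h t
    refine ⟨g * h' * g⁻¹, ?_, ?_⟩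
    · rw [mul_smul, mul_smul, inv_smul_smul, h1]
    · rw [map_mul, map_mul, map_inv, Matrix.SpecialLinearGroup.coe_mul,
        Matrix.SpecialLinearGroup.coe_mul, h2, ← map_smul, exp_cj, ← cj_apply, cj_cj_inv]

lemma bracket_iso {x : X} {A B : MM n} (hA : A ∈ iso hρ x) (hB : B ∈ iso hρ x) :
    A * B - B * A ∈ iso hρ x := bracket_mem_lieSet (isClosed_imStab hρ x) hA hB

lemma exists_ne_zero_iso {x : X} (h : ¬ DiscreteTopology (MulAction.stabilizer G x)) :
    ∃ A ∈ iso hρ x, A ≠ 0 := by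
  refine exists_ne_zero_of_not_discrete (isClosed_imStab hρ x) ?_
  intro hd
  apply h
  let f : MulAction.stabilizer G x → imStab ρ x :=
    fun g => ⟨ρ g, mem_imStab.2 ⟨g, MulAction.mem_stabilizer_iff.1 g.2, rfl⟩⟩
  have hf : IsEmbedding f := by
    refine IsEmbedding.of_comp (g := fun h : imStab ρ x => (h : SLn n)) ?_ continuous_subtype_val ?_
    · exact Continuous.subtype_mk (hρ.continuous.comp continuous_subtype_val) _
    · exact hρ.isEmbedding.comp IsEmbedding.subtypeVal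
  exact hf.discreteTopology

/-- A point whose isotropy algebra is nonzero has a nondiscrete isotropy group. -/
lemma not_discrete_of_ne_zero {x : X} {A : MM n} (hA : A ∈ iso hρ x) (hA0 : A ≠ 0) :
    ¬ DiscreteTopology (MulAction.stabilizer G x) := by
  intro hd
  choose γ hγ1 hγ2 using (mem_iso hρ).1 hA
  have h2 : Tendsto (fun t : ℝ => NormedSpace.exp (t • A)) (𝓝[≠] 0) (𝓝 (1 : MM n)) := by
    have h4 : Tendsto (fun u : ℝ => u • A) (𝓝[≠] 0) (𝓝 ((0 : ℝ) • A)) :=
      ((continuous_id.smul continuous_const).tendsto (0 : ℝ)).mono_left nhdsWithin_le_nhds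
    have h5 := (continuous_exp_matrix.tendsto _).comp h4
    rw [zero_smul, NormedSpace.exp_zero] at h5
    exact h5
  have h3 : Tendsto (fun t : ℝ => (ρ (γ t) : MM n)) (𝓝[≠] 0) (𝓝 1) := by
    refine h2.congr fun t => (hγ2 t).symm
  obtain ⟨g, hg, h4⟩ := tendsto_of_coe hρ h3 inferInstance
  have hg1 : g = 1 := by
    apply hρ.injective
    rw [map_one]
    apply Subtype.ext
    rw [hg]
    rfl
  subst hg1
  have h5 : Tendsto (fun t : ℝ => (⟨γ t, MulAction.mem_stabilizer_iff.2 (hγ1 t)⟩ :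
      MulAction.stabilizer G x)) (𝓝[≠] 0) (𝓝 1) := by
    rw [tendsto_subtype_rng]
    exact h4
  have h6 : ∀ᶠ t in 𝓝[≠] (0 : ℝ), γ t = 1 := by
    have h7 := h5 (isOpen_discrete ({1} : Set (MulAction.stabilizer G x)) |>.mem_nhds rfl)
    filter_upwards [h7] with t ht
    exact congrArg Subtype.val ht
  have h8 : Tendsto (fun u : ℝ => u⁻¹ • (NormedSpace.exp (u • A) - 1)) (𝓝[≠] 0) (𝓝 0) := by
    refine tendsto_const_nhds.congr' ?_
    filter_upwards [h6] with t ht
    rw [← hγ2 t, ht, map_one, Matrix.SpecialLinearGroup.coe_one, sub_self, smul_zero]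
  exact hA0 (tendsto_nhds_unique (tendsto_slope_exp_matrix A) h8)

end Pool.Agent.Lib.MP_aa9b81_an.N
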