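import Mathlib
import Pool.Agent.Lib.MP_aa9b81_an.NAlg
import Pool.Agent.Lib.MP_aa9b81_an.NIso

/-!
Equivariance and continuity of the canonical subspaces.
-/

set_option autoImplicit false
set_option linter.unusedSectionVars false

open Filter Topology Matrix Module

namespace Pool.Agent.Lib.MP_aa9b81_an.N

variable {n : ℕ} [NeZero n]

lemma cj_injective (g : SLn n) : Function.Injective (cj g) := fun A B h => by
  rw [← cj_inv_cj g A, h, cj_inv_cj]

/-- Conjugate of a subspace of matrices. -/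
def cjs (g : SLn n) (W : Submodule ℝ (MM n)) : Submodule ℝ (MM n) := W.map (cj g).toLinearMap

lemma mem_cjs {g : SLn n} {W : Submodule ℝ (MM n)} {A : MM n} : A ∈ cjs g W ↔ cj g⁻¹ A ∈ W := by
  constructor
  · rintro ⟨B, hB, rfl⟩
    have : cj g⁻¹ ((cj g).toLinearMap B) = B := cj_inv_cj g B
    rw [this]
    exact hB
  · intro h
    exact ⟨cj g⁻¹ A, h, cj_cj_inv g A⟩

lemma cj_mem_cjs {g : SLn n} {W : Submodule ℝ (MM n)} {A : MM n} : cj g A ∈ cjs g W ↔ A ∈ W := by
  rw [mem_cjs, cj_inv_cj]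

lemma cjs_one (W : Submodule ℝ (MM n)) : cjs 1 W = W := by
  ext A
  rw [mem_cjs, inv_one, cj_one]

lemma cjs_mul (g h : SLn n) (W : Submodule ℝ (MM n)) : cjs (g * h) W = cjs g (cjs h W) := by
  ext A
  rw [mem_cjs, mem_cjs, mem_cjs, _root_.mul_inv_rev, cj_mul]

lemma finrank_cjs (g : SLn n) (W : Submodule ℝ (MM n)) : finrank ℝ (cjs g W) = finrank ℝ W :=
  (Submodule.equivMapOfInjective (cj g).toLinearMap (cj_injective g) W).finrank_eq.symm

/-- Image of a subspace of column vectors. -/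
noncomputable def actL (g : SLn n) (L : Submodule ℝ (VV n)) : Submodule ℝ (VV n) :=
  L.map (Matrix.toLin' (g : MM n))

lemma mem_actL {g : SLn n} {L : Submodule ℝ (VV n)} {v : VV n} :
    v ∈ actL g L ↔ ((g⁻¹ : SLn n) : MM n) *ᵥ v ∈ L := by
  constructor
  · rintro ⟨w, hw, rfl⟩
    rw [Matrix.toLin'_apply, Matrix.mulVec_mulVec, coe_inv_mul_coe, Matrix.one_mulVec]
    exact hw
  · intro h
    refine ⟨_, h, ?_⟩
    rw [Matrix.toLin'_apply, Matrix.mulVec_mulVec, coe_mul_coe_inv, Matrix.one_mulVec]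

lemma actL_one (L : Submodule ℝ (VV n)) : actL 1 L = L := by
  ext v
  rw [mem_actL, inv_one, Matrix.SpecialLinearGroup.coe_one, Matrix.one_mulVec]

lemma actL_mul (g h : SLn n) (L : Submodule ℝ (VV n)) : actL (g * h) L = actL g (actL h L) := by
  ext v
  rw [mem_actL, mem_actL, mem_actL, _root_.mul_inv_rev, Matrix.SpecialLinearGroup.coe_mul,
    Matrix.mulVec_mulVec]

lemma mulVec_inj (g : SLn n) : Function.Injective (fun v : VV n => (g : MM n) *ᵥ v) := by
  intro v w h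
  have h1 : ((g⁻¹ : SLn n) : MM n) *ᵥ ((g : MM n) *ᵥ v) =
      ((g⁻¹ : SLn n) : MM n) *ᵥ ((g : MM n) *ᵥ w) := congrArg _ h
  rwa [Matrix.mulVec_mulVec, Matrix.mulVec_mulVec, coe_inv_mul_coe, Matrix.one_mulVec,
    Matrix.one_mulVec] at h1

lemma finrank_actL (g : SLn n) (L : Submodule ℝ (VV n)) :
    finrank ℝ (actL g L) = finrank ℝ L :=
  (Submodule.equivMapOfInjective (Matrix.toLin' (g : MM n)) (fun v w h => mulVec_inj g (by
    simpa only [Matrix.toLin'_apply] using h)) L).finrank_eq.symm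

lemma alg_cjs (g : SLn n) (W : Submodule ℝ (MM n)) : alg (cjs g W) = cjs g (alg W) := by
  ext A
  have h := AlgHom.map_adjoin (cj g) (W : Set (MM n))
  have h2 : ((cjs g W : Submodule ℝ (MM n)) : Set (MM n)) = (cj g) '' (W : Set (MM n)) := by
    ext B
    exact Iff.rfl
  rw [mem_alg, h2, ← h]
  exact Iff.rfl

lemma nu_cjs (g : SLn n) (W : Submodule ℝ (MM n)) : nu (cjs g W) = cjs g (nu W) := by
  ext B
  rw [mem_cjs, mem_nu, mem_nu]
  constructor
  · intro h a ha
    have h1 := h (cj g a) (by rw [alg_cjs]; exact cj_mem_cjs.2 ha)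
    rw [← trace_cj g⁻¹, map_mul, cj_inv_cj] at h1
    exact h1
  · intro h a ha
    rw [alg_cjs, mem_cjs] at ha
    have h1 := h _ ha
    rwa [← map_mul, trace_cj] at h1

lemma rd_cjs (g : SLn n) (W : Submodule ℝ (MM n)) : rd (cjs g W) = cjs g (rd W) := by
  ext A
  rw [mem_cjs]
  change (A ∈ alg (cjs g W) ∧ A ∈ nu (cjs g W)) ↔ (cj g⁻¹ A ∈ alg W ∧ cj g⁻¹ A ∈ nu W)
  rw [alg_cjs, nu_cjs, mem_cjs, mem_cjs]

lemma cj_mulVec (g : SLn n) (A : MM n) (v : VV n) :
    (cj g A) *ᵥ ((g : MM n) *ᵥ v) = (g : MM n) *ᵥ (A *ᵥ v) := by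
  rw [cj_apply, Matrix.mulVec_mulVec, Matrix.mulVec_mulVec, mul_assoc, coe_inv_mul_coe, mul_one]

lemma mem_actL' {g : SLn n} {L : Submodule ℝ (VV n)} {v : VV n} :
    v ∈ actL g L ↔ ∃ w ∈ L, v = (g : MM n) *ᵥ w := by
  constructor
  · rintro ⟨w, hw, rfl⟩
    exact ⟨w, hw, Matrix.toLin'_apply _ _⟩
  · rintro ⟨w, hw, rfl⟩
    exact ⟨w, hw, Matrix.toLin'_apply _ _⟩

lemma kr_cjs (g : SLn n) (W : Submodule ℝ (MM n)) : kr (cjs g W) = actL g (kr W) := by
  ext v
  rw [mem_actL, mem_kr, mem_kr, rd_cjs]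
  have hv : v = (g : MM n) *ᵥ (((g⁻¹ : SLn n) : MM n) *ᵥ v) := by
    rw [Matrix.mulVec_mulVec, coe_mul_coe_inv, Matrix.one_mulVec]
  constructor
  · intro h B hB
    have h1 := h (cj g B) (cj_mem_cjs.2 hB)
    rw [hv, cj_mulVec] at h1
    refine mulVec_inj g ?_
    simp only
    rw [h1, Matrix.mulVec_zero]
  · intro h B hB
    rw [mem_cjs] at hB
    have h1 := h _ hB
    rw [hv, ← cj_cj_inv g B, cj_mulVec, h1, Matrix.mulVec_zero]

lemma rg_cjs (g : SLn n) (W : Submodule ℝ (MM n)) : rg (cjs g W) = actL g (rg W) := by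
  rw [rg_eq_span, rg_eq_span, actL, Submodule.map_span]
  congr 1
  ext v
  constructor
  · rintro ⟨B, hB, w, rfl⟩
    rw [rd_cjs, mem_cjs] at hB
    refine ⟨(cj g⁻¹ B) *ᵥ (((g⁻¹ : SLn n) : MM n) *ᵥ w), ⟨_, hB, _, rfl⟩, ?_⟩
    have e0 : (g : MM n) *ᵥ (((g⁻¹ : SLn n) : MM n) *ᵥ w) = w := by
      rw [Matrix.mulVec_mulVec, coe_mul_coe_inv, Matrix.one_mulVec]
    rw [Matrix.toLin'_apply, ← cj_mulVec, cj_cj_inv, e0]
  · rintro ⟨_, ⟨B, hB, w, rfl⟩, rfl⟩
    refine ⟨cj g B, by rw [rd_cjs]; exact cj_mem_cjs.2 hB, (g : MM n) *ᵥ w, ?_⟩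
    rw [cj_mulVec, Matrix.toLin'_apply]

lemma actL_inf (g : SLn n) (L M : Submodule ℝ (VV n)) : actL g (L ⊓ M) = actL g L ⊓ actL g M := by
  ext v
  rw [Submodule.mem_inf, mem_actL, mem_actL, mem_actL, Submodule.mem_inf]

lemma ws_cjs (g : SLn n) (W : Submodule ℝ (MM n)) : ws (cjs g W) = actL g (ws W) := by
  rw [ws, ws, kr_cjs, rg_cjs, actL_inf]

/-- The span of the brackets. -/
def br (W : Submodule ℝ (MM n)) : Submodule ℝ (MM n) :=
  Submodule.span ℝ {C | ∃ A ∈ W, ∃ B ∈ W, C = A * B - B * A}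

lemma mul_sub_mem_br {W : Submodule ℝ (MM n)} {A B : MM n} (hA : A ∈ W) (hB : B ∈ W) :
    A * B - B * A ∈ br W := Submodule.subset_span ⟨A, hA, B, hB, rfl⟩

lemma br_cjs (g : SLn n) (W : Submodule ℝ (MM n)) : br (cjs g W) = cjs g (br W) := by
  change Submodule.span ℝ _ = Submodule.map _ (Submodule.span ℝ _)
  rw [Submodule.map_span]
  congr 1
  ext C
  constructor
  · rintro ⟨A, hA, B, hB, rfl⟩
    rw [mem_cjs] at hA hB
    refine ⟨_, ⟨_, hA, _, hB, rfl⟩, ?_⟩
    rw [AlgHom.toLinearMap_apply, map_sub, map_mul, map_mul, cj_cj_inv, cj_cj_inv]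
  · rintro ⟨_, ⟨A, hA, B, hB, rfl⟩, rfl⟩
    refine ⟨cj g A, cj_mem_cjs.2 hA, cj g B, cj_mem_cjs.2 hB, ?_⟩
    rw [AlgHom.toLinearMap_apply, map_sub, map_mul, map_mul]

/-- The orthogonal of the span of the brackets. -/
noncomputable def bp (W : Submodule ℝ (MM n)) : Submodule ℝ (MM n) := tf.orthogonal (br W)

lemma mem_bp {W : Submodule ℝ (MM n)} {v : MM n} : v ∈ bp W ↔ ∀ s ∈ br W, (s * v).trace = 0 :=
  Iff.rfl

lemma mem_bp' {W : Submodule ℝ (MM n)} {v : MM n} :
    v ∈ bp W ↔ ∀ A ∈ W, ((v * A - A * v) : MM n) ∈ tf.orthogonal W := by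
  rw [mem_bp]
  constructor
  · intro h A hA B hB
    change (B * (v * A - A * v)).trace = 0
    have h1 := h _ (mul_sub_mem_br hA hB)
    rw [sub_mul, Matrix.trace_sub] at h1
    rw [mul_sub, Matrix.trace_sub, ← mul_assoc, Matrix.trace_mul_comm (B * v) A, ← mul_assoc,
      ← mul_assoc]
    exact h1
  · intro h s hs
    induction hs using Submodule.span_induction with
    | mem s hs =>
      obtain ⟨A, hA, B, hB, rfl⟩ := hs
      have h1 : (B * (v * A - A * v)).trace = 0 := h A hA B hB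
      rw [mul_sub, Matrix.trace_sub, ← mul_assoc, Matrix.trace_mul_comm (B * v) A, ← mul_assoc,
        ← mul_assoc] at h1
      rw [sub_mul, Matrix.trace_sub]
      exact h1
    | zero => rw [zero_mul, Matrix.trace_zero]
    | add x y _ _ hx hy => rw [add_mul, Matrix.trace_add, hx, hy, add_zero]
    | smul a x _ hx => rw [smul_mul_assoc, Matrix.trace_smul, hx, smul_zero]

lemma mem_br_iff {W : Submodule ℝ (MM n)} {A : MM n} :
    A ∈ br W ↔ ∀ B ∈ bp W, (B * A).trace = 0 := by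
  have h : tf.orthogonal (bp W) = br W :=
    LinearMap.BilinForm.orthogonal_orthogonal tf_nondeg tf_symm.isRefl (br W)
  rw [← h]
  rfl

lemma bp_cjs (g : SLn n) (W : Submodule ℝ (MM n)) : bp (cjs g W) = cjs g (bp W) := by
  ext B
  rw [mem_cjs, mem_bp, mem_bp]
  constructor
  · intro h a ha
    have h1 := h (cj g a) (by rw [br_cjs]; exact cj_mem_cjs.2 ha)
    rw [← trace_cj g⁻¹, map_mul, cj_inv_cj] at h1
    exact h1
  · intro h a ha
    rw [br_cjs, mem_cjs] at ha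
    have h1 := h _ ha
    rwa [← map_mul, trace_cj] at h1

/-- The centralizer of `W` in `E`. -/
def cg (E W : Submodule ℝ (MM n)) : Submodule ℝ (MM n) where
  carrier := {A | A ∈ E ∧ ∀ B ∈ W, A * B = B * A}
  zero_mem' := ⟨E.zero_mem, fun B _ => by simp⟩
  add_mem' := fun {A A'} h h' => ⟨E.add_mem h.1 h'.1, fun B hB => by
    rw [add_mul, mul_add, h.2 B hB, h'.2 B hB]⟩
  smul_mem' := fun c A h => ⟨E.smul_mem c h.1, fun B hB => by
    rw [smul_mul_assoc, mul_smul_comm, h.2 B hB]⟩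

lemma mem_cg {E W : Submodule ℝ (MM n)} {A : MM n} :
    A ∈ cg E W ↔ A ∈ E ∧ ∀ B ∈ W, A * B = B * A := Iff.rfl

lemma cg_cjs (g : SLn n) {E : Submodule ℝ (MM n)} (hE : cjs g E = E) (W : Submodule ℝ (MM n)) :
    cg E (cjs g W) = cjs g (cg E W) := by
  ext A
  rw [mem_cjs, mem_cg, mem_cg]
  constructor
  · rintro ⟨h1, h2⟩
    rw [← hE, mem_cjs] at h1
    refine ⟨h1, fun B hB => ?_⟩
    have h3 := h2 (cj g B) (cj_mem_cjs.2 hB)
    have h4 := congrArg (cj g⁻¹) h3
    rwa [map_mul, map_mul, cj_inv_cj] at h4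
  · rintro ⟨h1, h2⟩
    refine ⟨by rw [← hE, mem_cjs]; exact h1, fun B hB => ?_⟩
    rw [mem_cjs] at hB
    have h3 := congrArg (cj g) (h2 _ hB)
    rwa [map_mul, map_mul, cj_cj_inv, cj_cj_inv] at h3

section Fam

variable {X : Type*} [TopologicalSpace X] {S : Set X} {W : X → Submodule ℝ (MM n)}

lemma sec_alg (h : Sec S W) : Sec S (fun x => alg (W x)) := by
  intro x hx A hA
  rw [mem_alg] at hA
  induction hA using Algebra.adjoin_induction with
  | mem A hA =>
    obtain ⟨s, hs1, hs2⟩ := h x hx A hA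
    exact ⟨s, fun y => le_alg _ (hs1 y), hs2⟩
  | algebraMap r =>
    refine ⟨fun _ => algebraMap ℝ (MM n) r, fun y => ?_, tendsto_const_nhds⟩
    exact (Algebra.adjoin ℝ (W y : Set (MM n))).algebraMap_mem r
  | add A B _ _ h1 h2 =>
    obtain ⟨s, hs1, hs2⟩ := h1
    obtain ⟨t, ht1, ht2⟩ := h2
    exact ⟨fun y => s y + t y, fun y => (alg (W y)).add_mem (hs1 y) (ht1 y), hs2.add ht2⟩
  | mul A B _ _ h1 h2 =>
    obtain ⟨s, hs1, hs2⟩ := h1
    obtain ⟨t, ht1, ht2⟩ := h2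
    exact ⟨fun y => s y * t y, fun y => mul_mem_alg (hs1 y) (ht1 y), hs2.mul ht2⟩

lemma sec_br (h : Sec S W) : Sec S (fun x => br (W x)) := by
  intro x hx A hA
  change A ∈ Submodule.span ℝ _ at hA
  induction hA using Submodule.span_induction with
  | mem A hA =>
    obtain ⟨B, hB, C, hC, rfl⟩ := hA
    obtain ⟨s, hs1, hs2⟩ := h x hx B hB
    obtain ⟨t, ht1, ht2⟩ := h x hx C hC
    exact ⟨fun y => s y * t y - t y * s y, fun y => mul_sub_mem_br (hs1 y) (ht1 y),
      (hs2.mul ht2).sub (ht2.mul hs2)⟩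
  | zero => exact ⟨fun _ => 0, fun y => (br (W y)).zero_mem, tendsto_const_nhds⟩
  | add A B _ _ h1 h2 =>
    obtain ⟨s, hs1, hs2⟩ := h1
    obtain ⟨t, ht1, ht2⟩ := h2
    exact ⟨fun y => s y + t y, fun y => (br (W y)).add_mem (hs1 y) (ht1 y), hs2.add ht2⟩
  | smul a A _ h1 =>
    obtain ⟨s, hs1, hs2⟩ := h1
    exact ⟨fun y => a • s y, fun y => (br (W y)).smul_mem _ (hs1 y), hs2.const_smul a⟩

lemma cf_nu (h : Sec S (fun x => alg (W x))) : CF S (fun x => nu (W x)) := by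
  refine CF.of_sec (R := fun A B : MM n => (A * B).trace = 0) ?_ h (fun x _ v => mem_nu)
  exact isClosed_eq (by fun_prop) continuous_const

lemma cf_alg (h : Sec S (fun x => nu (W x))) : CF S (fun x => alg (W x)) := by
  refine CF.of_sec (R := fun A B : MM n => (A * B).trace = 0) ?_ h (fun x _ v => mem_alg_iff)
  exact isClosed_eq (by fun_prop) continuous_const

lemma cf_bp (h : Sec S (fun x => br (W x))) : CF S (fun x => bp (W x)) := by
  refine CF.of_sec (R := fun A B : MM n => (A * B).trace = 0) ?_ h (fun x _ v => mem_bp)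
  exact isClosed_eq (by fun_prop) continuous_const

lemma cf_br (h : Sec S (fun x => bp (W x))) : CF S (fun x => br (W x)) := by
  refine CF.of_sec (R := fun A B : MM n => (A * B).trace = 0) ?_ h (fun x _ v => mem_br_iff)
  exact isClosed_eq (by fun_prop) continuous_const

lemma cf_rd (h1 : CF S (fun x => alg (W x))) (h2 : CF S (fun x => nu (W x))) :
    CF S (fun x => rd (W x)) := h1.inf h2

lemma cf_kr (h : Sec S (fun x => rd (W x))) : CF S (fun x => kr (W x)) := by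
  refine CF.of_sec (R := fun (B : MM n) (v : VV n) => B *ᵥ v = 0) ?_ h (fun x _ v => mem_kr)
  exact isClosed_eq (by fun_prop) continuous_const

lemma cf_an (h : Sec S (fun x => rd (W x))) : CF S (fun x => an (W x)) := by
  refine CF.of_sec (R := fun (B : MM n) (v : VV n) => Bᵀ *ᵥ v = 0) ?_ h (fun x _ v => mem_an)
  exact isClosed_eq (by fun_prop) continuous_const

lemma cf_rg (h : Sec S (fun x => an (W x))) : CF S (fun x => rg (W x)) := by
  refine CF.of_sec (R := fun (w : VV n) (v : VV n) => w ⬝ᵥ v = 0) ?_ h (fun x _ v => mem_rg)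
  exact isClosed_eq (by fun_prop) continuous_const

lemma cf_ws (h1 : CF S (fun x => kr (W x))) (h2 : CF S (fun x => rg (W x))) :
    CF S (fun x => ws (W x)) := h1.inf h2

/-- Auxiliary commutant. -/
def comm (W : Submodule ℝ (MM n)) : Submodule ℝ (MM n) where
  carrier := {A | ∀ B ∈ W, A * B = B * A}
  zero_mem' := fun B _ => by simp
  add_mem' := fun {A A'} h h' => fun B hB => by
    rw [add_mul, mul_add, h B hB, h' B hB]
  smul_mem' := fun c A h => fun B hB => by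
    rw [smul_mul_assoc, mul_smul_comm, h B hB]

lemma cf_cg (E : Submodule ℝ (MM n)) (h : Sec S W) : CF S (fun x => cg E (W x)) := by
  have h1 : CF S (fun x => comm (W x)) := by
    refine CF.of_sec (R := fun B A : MM n => A * B = B * A) ?_ h (fun x _ v => Iff.rfl)
    exact isClosed_eq (by fun_prop) (by fun_prop)
  have h2 : CF S (fun _ : X => E) := by
    intro x _ F hF _ u hu v hv
    exact (Submodule.closed_of_finiteDimensional E).mem_of_tendsto hv hu
  exact h2.inf h1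

end Fam

section Iso

variable {G : Type*} [Group G] [TopologicalSpace G] [IsTopologicalGroup G]
variable {X : Type*} [TopologicalSpace X] [T2Space X] [MulAction G X] [ContinuousSMul G X]
variable {ρ : G →* SLn n} (hρ : IsClosedEmbedding ρ)

include hρ

lemma iso_smul (g : G) (x : X) : iso hρ (g • x) = cjs (ρ g) (iso hρ x) := by
  ext A
  rw [mem_cjs]
  exact mem_iso_smul hρ

omit [T2Space X] [MulAction G X] [ContinuousSMul G X] in
lemma isClosed_rng : IsClosed (ρ.range : Set (SLn n)) := by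
  have : (ρ.range : Set (SLn n)) = Set.range ρ := by
    ext x
    simp
  rw [this]
  exact hρ.isClosed_range

/-- The Lie algebra of the group. -/
def gal : Submodule ℝ (MM n) := lieSub ρ.range (isClosed_rng hρ)

omit [T2Space X] [MulAction G X] [ContinuousSMul G X] in
lemma mem_gal {A : MM n} : A ∈ gal hρ ↔ ∀ t : ℝ, ∃ g : G, (ρ g : MM n) = NormedSpace.exp (t • A) := by
  constructor
  · intro h t
    obtain ⟨g, ⟨g', rfl⟩, hgA⟩ := h t
    exact ⟨g', hgA⟩
  · intro h t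
    obtain ⟨g, hg⟩ := h t
    exact ⟨ρ g, ⟨g, rfl⟩, hg⟩

lemma iso_le_gal (x : X) : iso hρ x ≤ gal hρ := by
  intro A hA
  rw [mem_gal]
  intro t
  obtain ⟨g, -, hg⟩ := (mem_iso hρ).1 hA t
  exact ⟨g, hg⟩

omit [T2Space X] [MulAction G X] [ContinuousSMul G X] in
lemma cjs_gal (g : G) : cjs (ρ g) (gal hρ) = gal hρ := by
  have h1 : ∀ g : G, ∀ A ∈ gal hρ, cj (ρ g) A ∈ gal hρ := by
    intro g A hA
    rw [mem_gal] at hA ⊢
    intro t
    obtain ⟨h, hh⟩ := hA t
    refine ⟨g * h * g⁻¹, ?_⟩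
    rw [map_mul, map_mul, map_inv, Matrix.SpecialLinearGroup.coe_mul,
      Matrix.SpecialLinearGroup.coe_mul, hh, ← map_smul, exp_cj, cj_apply]
  apply le_antisymm
  · intro A hA
    rw [mem_cjs] at hA
    have := h1 g _ hA
    rwa [cj_cj_inv] at this
  · intro A hA
    rw [mem_cjs, ← map_inv]
    exact h1 g⁻¹ A hA

omit [T2Space X] [MulAction G X] [ContinuousSMul G X] in
lemma bracket_gal {A B : MM n} (hA : A ∈ gal hρ) (hB : B ∈ gal hρ) :
    A * B - B * A ∈ gal hρ := bracket_mem_lieSet (isClosed_rng hρ) hA hB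

end Iso

end Pool.Agent.Lib.MP_aa9b81_an.N
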