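import Mathlib

/-!
From locally constant orbit type to maps to homogeneous spaces.
-/

set_option autoImplicit false
set_option linter.unusedSectionVars false
set_option maxHeartbeats 4000000

open Filter Topology

namespace Pool.Agent.Lib.MP_aa9b81_an.N

variable {Γ S X : Type*} [Group Γ] [TopologicalSpace Γ] [IsTopologicalGroup Γ] [TopologicalSpace X]

/-- Locally, the values of `V` are moved by small group elements. -/
def LocAct (act : Γ → S → S) (L : Set X) (V : X → S) : Prop :=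
  ∀ x ∈ L, ∀ N ∈ 𝓝 (1 : Γ), ∀ᶠ y in 𝓝[L] x, ∃ h ∈ N, V y = act h (V x)

theorem lift_act {act : Γ → S → S} (h1 : ∀ s, act 1 s = s)
    (hm : ∀ g h s, act (g * h) s = act g (act h s)) {L : Set X} {V : X → S}
    (hloc : LocAct act L V) (s₀ : S) (H : Subgroup Γ) (hH : ∀ g, g ∈ H ↔ act g s₀ = s₀) :
    ∃ U : Set X, IsOpen U ∧ {y | y ∈ L ∧ ∃ g, V y = act g s₀} = L ∩ U ∧
      ∃ f : X → Γ ⧸ H, ContinuousOn f (L ∩ U) ∧
        ∀ y ∈ L ∩ U, ∀ g : Γ, f y = (g : Γ ⧸ H) ↔ V y = act g s₀ := by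
  classical
  set P : Set X := {y | y ∈ L ∧ ∃ g, V y = act g s₀} with hP
  have hPL : ∀ y ∈ P, P ∈ 𝓝[L] y := by
    rintro y ⟨hy, g, hg⟩
    filter_upwards [hloc y hy Set.univ univ_mem, self_mem_nhdsWithin] with z hz hzL
    obtain ⟨h, -, hh⟩ := hz
    exact ⟨hzL, h * g, by rw [hh, hg, hm]⟩
  have heq : P = L ∩ interior (P ∪ Lᶜ) := by
    ext y
    constructor
    · intro hy
      refine ⟨hy.1, ?_⟩
      rw [mem_interior_iff_mem_nhds]
      have h2 := hPL y hy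
      rw [mem_nhdsWithin_iff_exists_mem_nhds_inter] at h2
      obtain ⟨O, hO, hOP⟩ := h2
      filter_upwards [hO] with z hz
      by_cases hzL : z ∈ L
      · exact Or.inl (hOP ⟨hz, hzL⟩)
      · exact Or.inr hzL
    · rintro ⟨hy, hy2⟩
      rcases interior_subset hy2 with h | h
      · exact h
      · exact absurd hy h
  refine ⟨interior (P ∪ Lᶜ), isOpen_interior, heq, ?_⟩
  rw [← heq]
  let f : X → Γ ⧸ H := fun y => if h : ∃ g, V y = act g s₀ then (h.choose : Γ ⧸ H) else ((1 : Γ) : Γ ⧸ H)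
  have hcoset : ∀ g g' : Γ, ((g : Γ ⧸ H) = (g' : Γ ⧸ H)) ↔ act g s₀ = act g' s₀ := by
    intro g g'
    rw [QuotientGroup.eq, hH, hm]
    constructor
    · intro h
      rw [← h, ← hm, mul_inv_cancel, h1, h]
    · intro h
      rw [← h, ← hm, inv_mul_cancel, h1]
  have hf : ∀ y ∈ P, ∀ g : Γ, f y = (g : Γ ⧸ H) ↔ V y = act g s₀ := by
    rintro y ⟨hy, hex⟩ g
    have h2 : f y = (hex.choose : Γ ⧸ H) := by simp only [f, dif_pos hex]
    rw [h2, hcoset, ← hex.choose_spec]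
  refine ⟨f, ?_, hf⟩
  intro y hy
  rw [ContinuousWithinAt, tendsto_def]
  intro O hO
  have hy' := hy
  obtain ⟨hyL, g, hg⟩ := hy'
  have hfy : f y = (g : Γ ⧸ H) := (hf y hy g).2 hg
  have hN : (fun h : Γ => h • (g : Γ ⧸ H)) ⁻¹' O ∈ 𝓝 (1 : Γ) := by
    have hc : Continuous (fun h : Γ => h • (g : Γ ⧸ H)) := by fun_prop
    have h3 := hc.continuousAt (x := 1)
    rw [ContinuousAt, one_smul] at h3
    rw [hfy] at hO
    exact h3 hO
  have h4 := hloc y hyL _ hN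
  have h5 : 𝓝[P] y ≤ 𝓝[L] y := nhdsWithin_mono y fun z hz => hz.1
  filter_upwards [h5 h4, self_mem_nhdsWithin] with z hz hzP
  obtain ⟨h, hhN, hh⟩ := hz
  have h6 : V z = act (h * g) s₀ := by rw [hh, hg, hm]
  have h7 := (hf z hzP (h * g)).2 h6
  change f z ∈ O
  rw [h7]
  exact hhN

end Pool.Agent.Lib.MP_aa9b81_an.N
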