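import Mathlib
import Pool.Agent.Lib.MP_aa9b81_an.Mg.G037
import Pool.Agent.Lib.MP_aa9b81_an.NEqui
import Pool.Agent.Lib.MP_aa9b81_an.NLift

/-!
Transfer of the stratification of the space of frames to spaces with a group action.
-/

set_option autoImplicit false
set_option linter.unusedSectionVars false

open Matrix Filter Topology MvPolynomial Module

namespace Pool.Agent.Lib.MP_aa9b81_an.Z

open Pool.Agent.Lib.MP_aa9b81_an.N

section

variable {I : Type} [Fintype I] [DecidableEq I]

open scoped Matrix.Norms.Operator in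
set_option backward.isDefEq.respectTransparency false in
lemma range_exp_mem_nhds : Set.range (fun A : Mt I => NormedSpace.exp A) ∈ 𝓝 (1 : Mt I) := by
  have h0 : HasStrictFDerivAt (fun A : Mt I => NormedSpace.exp A)
      ((ContinuousLinearEquiv.refl ℝ (Mt I) : Mt I ≃L[ℝ] Mt I) : Mt I →L[ℝ] Mt I) 0 := by
    have h1 : HasStrictFDerivAt (fun A : Mt I => NormedSpace.exp A) (1 : Mt I →L[ℝ] Mt I) 0 :=
      hasStrictFDerivAt_exp_zero
    exact h1
  have h2 := h0.map_nhds_eq_of_equiv
  have h3 : (fun A : Mt I => NormedSpace.exp A) '' Set.univ ∈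
      𝓝 ((fun A : Mt I => NormedSpace.exp A) 0) := by
    rw [← h2]
    exact image_mem_map univ_mem
  rw [Set.image_univ] at h3
  simpa only [NormedSpace.exp_zero] using h3

end

section Frames

variable {k n : ℕ} {g : Submodule ℝ (Mt (Fin n))}

/-- A relation of the orbit holds for all values of the first block. -/
lemma eval_ac_bd {v : JK k n → ℝ} {F : MvPolynomial (JK k n) ℝ}
    (hF : ∀ M ∈ Gen (LB (Fin k) g), MvPolynomial.eval (ac (fk k n) M v) F = 0)
    {h : Mt (Fin n)} (hh : h ∈ Gen g) (S : Mt (Fin k)) :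
    MvPolynomial.eval (ac (fk k n) (bd S h) v) F = 0 := by
  let γ : ℝ → Mt (IK k n) := fun u => bd (1 + u • (S - 1)) h
  have hγ : ∀ i j, AnalyticOnNhd ℝ (fun u => γ u i j) Set.univ := by
    intro i j
    rcases i with i | i <;> rcases j with j | j
    · have h1 : (fun u => γ u (Sum.inl i) (Sum.inl j)) =
          fun u : ℝ => (1 : Mt (Fin k)) i j + u * (S - 1) i j := rfl
      rw [h1]
      exact analyticOnNhd_const.add (analyticOnNhd_id.mul analyticOnNhd_const)
    · exact analyticOnNhd_const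
    · exact analyticOnNhd_const
    · exact analyticOnNhd_const
  have h1 := analytic_ev hγ (spx v (aeval (fk k n) F))
  have h2 : ∀ u, ev (γ u) (spx v (aeval (fk k n) F)) =
      MvPolynomial.eval (ac (fk k n) (γ u) v) F := by
    intro u
    rw [ev_spx, ev2_aeval]
  have hcont : Continuous fun u : ℝ => 1 + u • (S - 1) := by fun_prop
  have h3 : ∀ᶠ u in 𝓝 (0 : ℝ), ev (γ u) (spx v (aeval (fk k n) F)) = 0 := by
    have h4 : (fun u : ℝ => 1 + u • (S - 1)) ⁻¹' Set.range (fun A : Mt (Fin k) =>
        NormedSpace.exp A) ∈ 𝓝 (0 : ℝ) := by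
      apply hcont.continuousAt.preimage_mem_nhds
      simp only [zero_smul, add_zero]
      exact range_exp_mem_nhds
    filter_upwards [h4] with u hu
    obtain ⟨A, hA⟩ := hu
    rw [h2]
    have h5 : γ u = bd (NormedSpace.exp A) h := by
      have hA' : NormedSpace.exp A = 1 + u • (S - 1) := hA
      rw [hA']
    rw [h5]
    exact hF _ (bd_mem_Gen hh A)
  have h6 := h1.eqOn_zero_of_preconnected_of_eventuallyEq_zero isPreconnected_univ
    (Set.mem_univ 0) h3
  have h7 := h6 (Set.mem_univ 1)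
  simp only [h2, Pi.zero_apply] at h7
  have h8 : γ 1 = bd S h := by
    simp only [γ, one_smul, add_sub_cancel]
  rwa [h8] at h7

lemma ZC_frames {b b' : Fin k → Mt (Fin n)} {h : Mt (Fin n)} (hh : h ∈ Gen g)
    (hb : ∀ i, b' i ∈ Submodule.span ℝ (Set.range fun l => h * b l * h.adjugate)) :
    ZC (LB (Fin k) g) (fk k n) (co b) (co b') := by
  have h1 : ∀ i, ∃ c : Fin k → ℝ, ∑ l, c l • (h * b l * h.adjugate) = b' i := fun i =>
    (Submodule.mem_span_range_iff_exists_fun ℝ).1 (hb i)
  obtain ⟨S, hS⟩ : ∃ S : Mt (Fin k), ∀ i, ∑ l, S i l • (h * b l * h.adjugate) = b' i := by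
    choose S hS using h1
    exact ⟨S, hS⟩
  intro F hF
  have h2 := eval_ac_bd (v := co b) hF hh S
  rw [ac_fk, mt_co] at h2
  have h3 : (fun i => ∑ l, S i l • (h * b l * h.adjugate)) = b' := funext hS
  rwa [h3] at h2

end Frames

end Pool.Agent.Lib.MP_aa9b81_an.Z
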