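import Mathlib
import Pool.Agent.Lib.MP_aa9b81_an.Zar12

/-!
Stratification of spaces with a group action by the conjugacy classes of isotropy algebras.
-/

set_option autoImplicit false
set_option linter.unusedSectionVars false

open Matrix Filter Topology MvPolynomial Module

namespace Pool.Agent.Lib.MP_aa9b81_an.Z

open Pool.Agent.Lib.MP_aa9b81_an.N

variable {n : ℕ} [NeZero n]
variable {G : Type*} [Group G] [TopologicalSpace G] [IsTopologicalGroup G]
variable {X : Type*} [TopologicalSpace X] [T2Space X] [MulAction G X] [ContinuousSMul G X]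
variable {ρ : G →* SLn n} (hρ : IsClosedEmbedding ρ)

section Group

omit [T2Space X] [MulAction G X] [ContinuousSMul G X]

include hρ

lemma conj_gal : ∀ A ∈ gal hρ, ∀ B ∈ gal hρ,
    NormedSpace.exp (-B) * A * NormedSpace.exp B ∈ gal hρ := by
  intro A hA B hB
  obtain ⟨g, hg⟩ := (mem_gal hρ).1 hB 1
  rw [one_smul] at hg
  have h1 : ((ρ g⁻¹ : SLn n) : MM n) = NormedSpace.exp (-B) := by
    have h2 : (ρ g : MM n) * ((ρ g⁻¹ : SLn n) : MM n) = 1 := by
      rw [map_inv, coe_mul_coe_inv]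
    have h3 : (ρ g : MM n) * NormedSpace.exp (-B) = 1 := by
      rw [hg]
      exact exp_mul_exp_neg B
    have h5 : IsUnit (ρ g : MM n) := by
      rw [Matrix.isUnit_iff_isUnit_det]
      simp
    exact h5.mul_left_cancel (h2.trans h3.symm)
  have h4 : NormedSpace.exp (-B) * A * NormedSpace.exp B = cj (ρ g⁻¹) A := by
    rw [cj_apply, h1, ← map_inv, inv_inv, hg]
  rw [h4]
  have h5 : cj (ρ g⁻¹) A ∈ cjs (ρ g⁻¹) (gal hρ) := cj_mem_cjs.2 hA
  rwa [cjs_gal] at h5

lemma exists_of_mem_Gen_gal {h : Mt (Fin n)} (hh : h ∈ Gen (gal hρ)) : ∃ g : G, (ρ g : MM n) = h := by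
  induction hh using Submonoid.closure_induction with
  | mem h hh =>
    obtain ⟨B, hB, rfl⟩ := hh
    obtain ⟨g, hg⟩ := (mem_gal hρ).1 hB 1
    rw [one_smul] at hg
    exact ⟨g, hg⟩
  | one => exact ⟨1, by rw [map_one, Matrix.SpecialLinearGroup.coe_one]⟩
  | mul a b _ _ ha hb =>
    obtain ⟨g, rfl⟩ := ha
    obtain ⟨g', rfl⟩ := hb
    exact ⟨g * g', by rw [map_mul, Matrix.SpecialLinearGroup.coe_mul]⟩

/-- Exponentials of small elements of the Lie algebra come from small group elements. -/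
lemma small_exp {N : Set G} (hN : N ∈ 𝓝 (1 : G)) :
    ∃ U ∈ 𝓝 (0 : MM n), ∀ B ∈ U, ∀ g : G, (ρ g : MM n) = NormedSpace.exp B → g ∈ N := by
  have h1 : 𝓝 (1 : G) = comap ρ (𝓝 (ρ 1)) := hρ.isInducing.nhds_eq_comap 1
  rw [h1, mem_comap] at hN
  obtain ⟨V, hV, hVN⟩ := hN
  have h2 : 𝓝 (ρ 1) = comap (fun g : SLn n => (g : MM n)) (𝓝 ((ρ 1 : SLn n) : MM n)) :=
    (Matrix.SpecialLinearGroup.isClosedEmbedding_val (n := Fin n) (R := ℝ)).isInducing.nhds_eq_comap _
  rw [h2, mem_comap] at hV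
  obtain ⟨V', hV', hV'V⟩ := hV
  rw [map_one, Matrix.SpecialLinearGroup.coe_one] at hV'
  refine ⟨(fun B : MM n => NormedSpace.exp B) ⁻¹' V', ?_, ?_⟩
  · apply continuous_exp_matrix.continuousAt.preimage_mem_nhds
    rw [NormedSpace.exp_zero]
    exact hV'
  · intro B hB g hg
    apply hVN
    apply hV'V
    change ((ρ g : SLn n) : MM n) ∈ V'
    rw [hg]
    exact hB

end Group

/-- The span of a family of matrices, conjugated. -/
lemma span_conj (g : SLn n) {k : ℕ} (b : Fin k → MM n) :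
    Submodule.span ℝ (Set.range fun l => (g : MM n) * b l * (g : MM n).adjugate) =
      cjs g (Submodule.span ℝ (Set.range b)) := by
  rw [cjs, Submodule.map_span, ← Set.range_comp]
  rfl

/-- Saturated sets. -/
def SatX (T : Set X) : Prop :=
  ∀ y y' : X, y ∈ T → (∃ g : G, iso hρ y' = cjs (ρ g) (iso hρ y)) → y' ∈ T

/-- Layers. -/
def LayerX (S : Set X) : Prop :=
  ∃ (κ : Type) (_ : Fintype κ) (q : X → (κ → ℝ)), ContinuousOn q S ∧
    (∀ y y' : X, (∃ g : G, iso hρ y' = cjs (ρ g) (iso hρ y)) → q y = q y') ∧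
    ∀ x ∈ S, LocAct (Γ := G) (fun g => cjs (ρ g)) {y | y ∈ S ∧ q y = q x} (iso (X := X) hρ)

/-- Finite stratifications. -/
inductive StratX : Set X → Prop
  | empty : StratX ∅
  | step (B T : Set X) : StratX B → IsClosed T → SatX hρ T → B ⊆ T →
      LayerX hρ (T \ B) → StratX T

variable {hρ}

lemma StratX.isClosed {T : Set X} (h : StratX hρ T) : IsClosed T := by
  cases h with
  | empty => exact isClosed_empty
  | step B _ _ h1 _ _ _ => exact h1

lemma StratX.sat {T : Set X} (h : StratX hρ T) : SatX hρ T := by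
  cases h with
  | empty => exact fun v v' hv _ => absurd hv (Set.notMem_empty v)
  | step B _ _ _ h2 _ _ => exact h2

variable (hρ)

/-- A frame of the isotropy algebra, if it has dimension `k`. -/
noncomputable def fr (k : ℕ) (y : X) : Fin k → MM n := by
  classical
  exact if h : finrank ℝ (iso hρ y) = k then
    fun i => ((Module.finBasisOfFinrankEq ℝ (iso hρ y) h i : iso hρ y) : MM n) else 0

lemma span_fr {k : ℕ} {y : X} (h : finrank ℝ (iso hρ y) = k) :
    Submodule.span ℝ (Set.range (fr hρ k y)) = iso hρ y := by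
  have h1 : fr hρ k y = Subtype.val ∘ (Module.finBasisOfFinrankEq ℝ (iso hρ y) h) := by
    rw [fr, dif_pos h]
    rfl
  rw [h1, Set.range_comp]
  have h2 := (Module.finBasisOfFinrankEq ℝ (iso hρ y) h).span_eq
  have h3 := congrArg (Submodule.map (iso hρ y).subtype) h2
  rw [Submodule.map_span, Submodule.map_top, Submodule.range_subtype] at h3
  exact h3

lemma indep_fr {k : ℕ} {y : X} (h : finrank ℝ (iso hρ y) = k) :
    LinearIndependent ℝ (fr hρ k y) := by
  have h1 : fr hρ k y = (iso hρ y).subtype ∘ (Module.finBasisOfFinrankEq ℝ (iso hρ y) h) := by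
    rw [fr, dif_pos h]
    rfl
  rw [h1]
  exact (Module.finBasisOfFinrankEq ℝ (iso hρ y) h).linearIndependent.map'
    (iso hρ y).subtype (Submodule.ker_subtype _)

lemma fr_mem {k : ℕ} {y : X} (h : finrank ℝ (iso hρ y) = k) (i : Fin k) :
    fr hρ k y i ∈ iso hρ y := by
  have h1 := span_fr hρ h
  have h2 : fr hρ k y i ∈ Submodule.span ℝ (Set.range (fr hρ k y)) := Submodule.subset_span ⟨i, rfl⟩
  rwa [h1] at h2

omit [T2Space X] [MulAction G X] [ContinuousSMul G X] in
lemma eventually_indep {k : ℕ} {b₀ : Fin k → MM n} (h : LinearIndependent ℝ b₀) :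
    ∀ᶠ b in 𝓝 b₀, LinearIndependent ℝ b := by
  have h1 : Continuous fun b : Fin k → MM n => fun i => toEuclidean (b i) :=
    continuous_pi fun i => toEuclidean.continuous.comp (continuous_apply i)
  have h2 : LinearIndependent ℝ (fun i => toEuclidean (b₀ i)) :=
    h.map' (toEuclidean (E := MM n)).toLinearEquiv.toLinearMap
      (toEuclidean (E := MM n)).toLinearEquiv.ker
  have h3 := (isOpen_setOfPred_linearIndependent (𝕜 := ℝ)).mem_nhds
    (show (fun i => toEuclidean (b₀ i)) ∈ {f : Fin k → _ | LinearIndependent ℝ f} from h2)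
  filter_upwards [h1.continuousAt.preimage_mem_nhds h3] with b hb
  exact LinearIndependent.of_comp (toEuclidean (E := MM n)).toLinearEquiv.toLinearMap hb

/-- The nearby frame. -/
noncomputable def nf (k : ℕ) (y₀ y : X) : Fin k → MM n :=
  fun i => MP_aa9b81_an.pr (iso (X := X) hρ) y (fr hρ k y₀ i)

lemma tendsto_nf {k : ℕ} {S : Set X} (hS : ∀ y ∈ S, finrank ℝ (iso hρ y) = k) {y₀ : X}
    (hy₀ : y₀ ∈ S) : Tendsto (nf hρ k y₀) (𝓝[S] y₀) (𝓝 (fr hρ k y₀)) := by
  rw [tendsto_pi_nhds]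
  intro i
  have h1 := ((cf_iso (X := X) hρ).mono (Set.subset_univ S)).continuousOn hS (fr hρ k y₀ i) y₀ hy₀
  rw [ContinuousWithinAt, MP_aa9b81_an.pr_eq_self (fr_mem hρ (hS y₀ hy₀) i)] at h1
  exact h1

lemma span_nf {k : ℕ} {S : Set X} (hS : ∀ y ∈ S, finrank ℝ (iso hρ y) = k) {y₀ : X}
    (hy₀ : y₀ ∈ S) :
    ∀ᶠ y in 𝓝[S] y₀, Submodule.span ℝ (Set.range (nf hρ k y₀ y)) = iso hρ y := by
  have h1 : ∀ᶠ b in 𝓝 (fr hρ k y₀), LinearIndependent ℝ b :=
    eventually_indep (indep_fr hρ (hS y₀ hy₀))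
  filter_upwards [(tendsto_nf hρ hS hy₀).eventually h1, self_mem_nhdsWithin] with y hy hyS
  apply Submodule.eq_of_le_of_finrank_eq
  · rw [Submodule.span_le]
    rintro _ ⟨i, rfl⟩
    exact MP_aa9b81_an.pr_mem (iso (X := X) hρ) y _
  · rw [finrank_span_eq_card hy, Fintype.card_fin, hS y hyS]

omit [T2Space X] [MulAction G X] [ContinuousSMul G X] in
lemma continuous_co {k : ℕ} : Continuous (co : (Fin k → Mt (Fin n)) → JK k n → ℝ) := by
  refine continuous_pi fun a => ?_
  change Continuous fun b : Fin k → Mt (Fin n) => b a.1 a.2.1 a.2.2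
  fun_prop

lemma ZC_of_span (hgen : ∀ g : G, (ρ g : MM n) ∈ Gen (gal hρ)) {k : ℕ} {b b' : Fin k → MM n}
    {g : G} (h : Submodule.span ℝ (Set.range b') = cjs (ρ g) (Submodule.span ℝ (Set.range b))) :
    ZC (LB (Fin k) (gal hρ)) (fk k n) (co b) (co b') := by
  refine ZC_frames (hgen g) fun i => ?_
  rw [span_conj, ← h]
  exact Submodule.subset_span ⟨i, rfl⟩

lemma ZC_of_span' (hgen : ∀ g : G, (ρ g : MM n) ∈ Gen (gal hρ)) {k : ℕ} {b b' : Fin k → MM n}
    {g : G} (h : Submodule.span ℝ (Set.range b') = cjs (ρ g) (Submodule.span ℝ (Set.range b))) :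
    ZC (LB (Fin k) (gal hρ)) (fk k n) (co b') (co b) := by
  refine ZC_of_span hρ hgen (g := g⁻¹) ?_
  rw [h, ← cjs_mul, ← map_mul, inv_mul_cancel, map_one, cjs_one]

end Pool.Agent.Lib.MP_aa9b81_an.Z
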