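import Mathlib
import Pool.Agent.Lib.MP_aa9b81_an.Mg.G046

/-!
Coverings of closed linear groups: the exponential map.
-/

set_option autoImplicit false
set_option linter.unusedSectionVars false
set_option maxHeartbeats 4000000

open Matrix Filter Topology Module

namespace Pool.Agent.Lib.MP_aa9b81_an.Cv

open Pool.Agent.Lib.MP_aa9b81_an.N Pool.Agent.Lib.MP_aa9b81_an.Z

variable {n : ℕ} [NeZero n]
variable {G : Type*} [Group G] [TopologicalSpace G] [IsTopologicalGroup G]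
variable {ρ : G →* SLn n}

lemma isClosed_rg (hcl : IsClosed (Set.range ρ)) : IsClosed (ρ.range : Set (SLn n)) := by
  rwa [MonoidHom.coe_range]

/-- The Lie algebra of the image. -/
def gl (hcl : IsClosed (Set.range ρ)) : Submodule ℝ (MM n) := lieSub ρ.range (isClosed_rg hcl)

lemma mem_gl (hcl : IsClosed (Set.range ρ)) {A : MM n} :
    A ∈ gl hcl ↔ ∀ t : ℝ, ∃ g : G, (ρ g : MM n) = NormedSpace.exp (t • A) := by
  constructor
  · intro h t
    obtain ⟨g, ⟨g', rfl⟩, hgA⟩ := h t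
    exact ⟨g', hgA⟩
  · intro h t
    obtain ⟨g, hg⟩ := h t
    exact ⟨ρ g, ⟨g, rfl⟩, hg⟩

lemma exists_exp (hcl : IsClosed (Set.range ρ)) {A : MM n} (hA : A ∈ gl hcl) :
    ∃ g : G, (ρ g : MM n) = NormedSpace.exp A := by
  obtain ⟨g, hg⟩ := (mem_gl hcl).1 hA 1
  rw [one_smul] at hg
  exact ⟨g, hg⟩

lemma coe_inj {g h : SLn n} (H : (g : MM n) = (h : MM n)) : g = h := Subtype.ext H

/-- The exponential map of the covering. -/
theorem exists_EX (hρ : IsCoveringMap ρ.rangeRestrict) (hcl : IsClosed (Set.range ρ)) :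
    ∃ e : gl hcl → G, Continuous e ∧ e 0 = 1 ∧
      ∀ A : gl hcl, (ρ (e A) : MM n) = NormedSpace.exp (A : MM n) := by
  have hex : ∀ A : gl hcl, ∃ g : G, (ρ g : MM n) = NormedSpace.exp (A : MM n) := fun A =>
    exists_exp hcl A.2
  choose γ hγ using hex
  let f : gl hcl → ρ.range := fun A => ρ.rangeRestrict (γ A)
  have hf : Continuous f := by
    refine Continuous.subtype_mk ?_ _
    refine (Matrix.SpecialLinearGroup.isClosedEmbedding_val (n := Fin n)
      (R := ℝ)).isInducing.continuous_iff.2 ?_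
    have h1 : ((fun g : SLn n => (g : MM n)) ∘ fun A : gl hcl => ρ (γ A)) =
        fun A : gl hcl => NormedSpace.exp (A : MM n) := by
      funext A
      exact hγ A
    change Continuous ((fun g : SLn n => (g : MM n)) ∘ fun A : gl hcl => ρ (γ A))
    rw [h1]
    exact continuous_exp_matrix.comp continuous_subtype_val
  let L : gl hcl ≃L[ℝ] EuclideanSpace ℝ (Fin (finrank ℝ (gl hcl))) := toEuclidean
  let f' : C(EuclideanSpace ℝ (Fin (finrank ℝ (gl hcl))), ρ.range) :=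
    ⟨fun v => f (L.symm v), hf.comp L.symm.continuous⟩
  have h0 : ρ.rangeRestrict (1 : G) = f' 0 := by
    apply Subtype.ext
    apply coe_inj
    change ((ρ 1 : SLn n) : MM n) = ((ρ (γ (L.symm 0)) : SLn n) : MM n)
    rw [hγ, map_zero, map_one, Matrix.SpecialLinearGroup.coe_one]
    change (1 : MM n) = NormedSpace.exp (0 : MM n)
    rw [NormedSpace.exp_zero]
  obtain ⟨F, ⟨hF0, hF1⟩, -⟩ := hρ.existsUnique_continuousMap_lifts f' 0 1 h0
  refine ⟨fun A => F (L A), F.continuous.comp L.continuous, ?_, ?_⟩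
  · change F (L 0) = 1
    rw [map_zero, hF0]
  · intro A
    have h1 : ρ.rangeRestrict (F (L A)) = f' (L A) := congrFun hF1 (L A)
    have h2 := congrArg (fun g : ρ.range => ((g : SLn n) : MM n)) h1
    have h3 : ((ρ (F (L A)) : SLn n) : MM n) = ((ρ (γ (L.symm (L A))) : SLn n) : MM n) := h2
    rw [h3, ContinuousLinearEquiv.symm_apply_apply, hγ]

lemma lift_unique (hρ : IsCoveringMap ρ.rangeRestrict) {T : Type*} [TopologicalSpace T]
    [PreconnectedSpace T] {g₁ g₂ : T → G} (h₁ : Continuous g₁) (h₂ : Continuous g₂)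
    (he : ∀ a, (ρ (g₁ a) : MM n) = (ρ (g₂ a) : MM n)) (a₀ : T) (ha : g₁ a₀ = g₂ a₀) :
    g₁ = g₂ := by
  refine hρ.eq_of_comp_eq h₁ h₂ ?_ a₀ ha
  funext a
  apply Subtype.ext
  exact coe_inj (he a)

/-- Elements with image near the identity. -/
lemma exists_small (hρ : IsCoveringMap ρ.rangeRestrict) {N : Set G} (hN : N ∈ 𝓝 (1 : G)) :
    ∃ U ∈ 𝓝 (1 : MM n), ∀ g : G, (ρ g : MM n) ∈ U → ∃ g' ∈ N, ρ g' = ρ g := by
  have h1 := hρ.isOpenMap.image_mem_nhds hN
  rw [map_one, nhds_subtype_eq_comap, mem_comap] at h1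
  obtain ⟨V, hV, hVN⟩ := h1
  have h2 : 𝓝 ((1 : ρ.range) : SLn n) = comap (fun g : SLn n => (g : MM n))
      (𝓝 (((1 : ρ.range) : SLn n) : MM n)) :=
    (Matrix.SpecialLinearGroup.isClosedEmbedding_val (n := Fin n) (R := ℝ)).isInducing.nhds_eq_comap _
  rw [h2, mem_comap] at hV
  obtain ⟨U, hU, hUV⟩ := hV
  refine ⟨U, ?_, ?_⟩
  · rw [Subgroup.coe_one, Matrix.SpecialLinearGroup.coe_one] at hU
    exact hU
  · intro g hg
    have h3 : ρ.rangeRestrict g ∈ ρ.rangeRestrict '' N := hVN (hUV hg)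
    obtain ⟨g', hg', h4⟩ := h3
    refine ⟨g', hg', ?_⟩
    exact congrArg Subtype.val h4

/-- Local injectivity. -/
lemma exists_inj (hρ : IsCoveringMap ρ.rangeRestrict) :
    ∃ N ∈ 𝓝 (1 : G), ∀ g ∈ N, ∀ h ∈ N, ρ g = ρ h → g = h := by
  obtain ⟨e, he, heq⟩ := hρ.isLocalHomeomorph 1
  refine ⟨e.source, e.open_source.mem_nhds he, ?_⟩
  intro g hg h hh hgh
  apply e.injOn hg hh
  rw [← heq]
  exact Subtype.ext hgh

end Pool.Agent.Lib.MP_aa9b81_an.Cv
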