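import Mathlib
import Pool.Agent.Lib.MP_aa9b81_an.Cov1

/-!
Coverings of closed linear groups: closed subgroups and their Lie algebras.
-/

set_option autoImplicit false
set_option linter.unusedSectionVars false
set_option maxHeartbeats 4000000

open Matrix Filter Topology Module

namespace Pool.Agent.Lib.MP_aa9b81_an.Cv

open Pool.Agent.Lib.MP_aa9b81_an.N Pool.Agent.Lib.MP_aa9b81_an.Z

variable {n : ℕ} [NeZero n]
variable {G : Type*} [Group G] [TopologicalSpace G] [IsTopologicalGroup G]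
variable {ρ : G →* SLn n}

section Ex

variable (hρ : IsCoveringMap ρ.rangeRestrict) (hcl : IsClosed (Set.range ρ))

/-- The exponential map of the covering. -/
noncomputable def EX : gl hcl → G := (exists_EX hρ hcl).choose

lemma continuous_EX : Continuous (EX hρ hcl) := (exists_EX hρ hcl).choose_spec.1

lemma EX_zero : EX hρ hcl 0 = 1 := (exists_EX hρ hcl).choose_spec.2.1

lemma coe_EX (A : gl hcl) : (ρ (EX hρ hcl A) : MM n) = NormedSpace.exp (A : MM n) :=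
  (exists_EX hρ hcl).choose_spec.2.2 A

lemma EX_add (A : gl hcl) (s t : ℝ) :
    EX hρ hcl ((s + t) • A) = EX hρ hcl (s • A) * EX hρ hcl (t • A) := by
  have hc := continuous_EX hρ hcl
  have h1 := lift_unique hρ (g₁ := fun t : ℝ => EX hρ hcl ((s + t) • A))
    (g₂ := fun t : ℝ => EX hρ hcl (s • A) * EX hρ hcl (t • A))
    (hc.comp (by fun_prop)) (continuous_const.mul (hc.comp (by fun_prop))) ?_ 0 ?_
  · exact congrFun h1 t
  · intro t
    rw [map_mul, Matrix.SpecialLinearGroup.coe_mul, coe_EX, coe_EX, coe_EX]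
    change NormedSpace.exp ((s + t) • (A : MM n)) = NormedSpace.exp (s • (A : MM n)) *
      NormedSpace.exp (t • (A : MM n))
    rw [add_smul, Matrix.exp_add_of_commute]
    exact ((Commute.refl (A : MM n)).smul_left s).smul_right t
  · simp only [add_zero, zero_smul, EX_zero, mul_one]

lemma EX_neg (A : gl hcl) (t : ℝ) : EX hρ hcl ((-t) • A) = (EX hρ hcl (t • A))⁻¹ := by
  have h1 := EX_add hρ hcl A (-t) t
  rw [neg_add_cancel, zero_smul, EX_zero] at h1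
  exact eq_inv_of_mul_eq_one_left h1.symm

lemma EX_nsmul (A : gl hcl) (s : ℝ) (k : ℕ) :
    EX hρ hcl (((k : ℝ) * s) • A) = EX hρ hcl (s • A) ^ k := by
  induction k with
  | zero => simp [EX_zero]
  | succ k ih =>
    have h1 : ((k + 1 : ℕ) : ℝ) * s = (k : ℝ) * s + s := by push_cast; ring
    rw [h1, EX_add, ih, pow_succ]

lemma cj_mem_gl (g : G) {A : MM n} (hA : A ∈ gl hcl) : cj (ρ g) A ∈ gl hcl :=
  cj_mem_lieSet (H := ρ.range) ⟨g, rfl⟩ hA

lemma EX_conj (g : G) (A : gl hcl) :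
    EX hρ hcl ⟨cj (ρ g) (A : MM n), cj_mem_gl hcl g A.2⟩ = g * EX hρ hcl A * g⁻¹ := by
  have hc := continuous_EX hρ hcl
  have h1 := lift_unique hρ (g₁ := fun t : ℝ => EX hρ hcl
      (t • (⟨cj (ρ g) (A : MM n), cj_mem_gl hcl g A.2⟩ : gl hcl)))
    (g₂ := fun t : ℝ => g * EX hρ hcl (t • A) * g⁻¹)
    (hc.comp (by fun_prop)) ((continuous_const.mul (hc.comp (by fun_prop))).mul
      continuous_const) ?_ 0 ?_
  · have h2 := congrFun h1 1
    simpa only [one_smul] using h2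
  · intro t
    rw [map_mul, map_mul, Matrix.SpecialLinearGroup.coe_mul, Matrix.SpecialLinearGroup.coe_mul,
      coe_EX, coe_EX, map_inv]
    change NormedSpace.exp (t • cj (ρ g) (A : MM n)) =
      (ρ g : MM n) * NormedSpace.exp (t • (A : MM n)) * ((ρ g)⁻¹ : SLn n)
    rw [← map_smul, exp_cj, cj_apply]
  · simp only [zero_smul, EX_zero, mul_one, mul_inv_cancel]

lemma EX_unique {c : ℝ → G} (hc : Continuous c) (h0 : c 0 = 1) {A : MM n}
    (hA : ∀ t : ℝ, (ρ (c t) : MM n) = NormedSpace.exp (t • A)) :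
    ∃ h : A ∈ gl hcl, ∀ t : ℝ, c t = EX hρ hcl (t • (⟨A, h⟩ : gl hcl)) := by
  have h : A ∈ gl hcl := (mem_gl hcl).2 fun t => ⟨c t, hA t⟩
  refine ⟨h, fun t => ?_⟩
  have h1 := lift_unique hρ (g₁ := c) (g₂ := fun t : ℝ => EX hρ hcl (t • (⟨A, h⟩ : gl hcl)))
    hc ((continuous_EX hρ hcl).comp (by fun_prop)) ?_ 0 ?_
  · exact congrFun h1 t
  · intro t
    rw [hA, coe_EX]
    rfl
  · simp only [zero_smul, EX_zero, h0]

end Ex

section Norm

open scoped Matrix.Norms.Operator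

lemma norm_pow_sub_one_le (a : MM n) (k : ℕ) : ‖a ^ k - 1‖ ≤ (1 + ‖a - 1‖) ^ k - 1 := by
  induction k with
  | zero => simp
  | succ k ih =>
    have h1 : a ^ (k + 1) - 1 = (a ^ k - 1) * (a - 1) + (a - 1) + (a ^ k - 1) := by
      rw [pow_succ]
      noncomm_ring
    have h2 : ‖a ^ (k + 1) - 1‖ ≤ ‖a ^ k - 1‖ * ‖a - 1‖ + ‖a - 1‖ + ‖a ^ k - 1‖ := by
      rw [h1]
      refine (norm_add_le _ _).trans (add_le_add ((norm_add_le _ _).trans
        (add_le_add (norm_mul_le _ _) le_rfl)) le_rfl)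
    have h3 : 0 ≤ ‖a - 1‖ := norm_nonneg _
    calc ‖a ^ (k + 1) - 1‖ ≤ ‖a ^ k - 1‖ * ‖a - 1‖ + ‖a - 1‖ + ‖a ^ k - 1‖ := h2
      _ = (‖a ^ k - 1‖ + 1) * (1 + ‖a - 1‖) - 1 := by ring
      _ ≤ ((1 + ‖a - 1‖) ^ k - 1 + 1) * (1 + ‖a - 1‖) - 1 := by gcongr
      _ = (1 + ‖a - 1‖) ^ (k + 1) - 1 := by ring

lemma norm_pow_sub_one_lt {a : MM n} {k : ℕ} {ε R t r : ℝ} (hR : 0 ≤ R)
    (ha : ‖a - 1‖ ≤ ε * R) (hk : (k : ℝ) * ε ≤ t) (hr : Real.exp (t * R) - 1 < r) :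
    ‖a ^ k - 1‖ < r := by
  refine lt_of_le_of_lt ?_ hr
  refine (norm_pow_sub_one_le a k).trans ?_
  have h1 : (1 + ‖a - 1‖) ^ k ≤ Real.exp (t * R) := by
    have h2 : 1 + ‖a - 1‖ ≤ Real.exp ‖a - 1‖ := by
      have := Real.add_one_le_exp ‖a - 1‖
      linarith
    calc (1 + ‖a - 1‖) ^ k ≤ (Real.exp ‖a - 1‖) ^ k := by gcongr
      _ = Real.exp ((k : ℝ) * ‖a - 1‖) := by rw [← Real.exp_nat_mul]
      _ ≤ Real.exp (t * R) := by
        apply Real.exp_le_exp.2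
        calc (k : ℝ) * ‖a - 1‖ ≤ (k : ℝ) * (ε * R) := by gcongr
          _ = (k : ℝ) * ε * R := by ring
          _ ≤ t * R := by gcongr
  linarith

end Norm

lemma tendsto_floor_mul {ι : Type*} {l : Filter ι} {ε : ι → ℝ} (hε : Tendsto ε l (𝓝 0))
    (hε0 : ∀ᶠ i in l, 0 < ε i) {t : ℝ} (ht : 0 ≤ t) :
    Tendsto (fun i => ((⌊t / ε i⌋₊ : ℕ) : ℝ) * ε i) l (𝓝 t) := by
  have h1 : ∀ᶠ i in l, t - ε i ≤ ((⌊t / ε i⌋₊ : ℕ) : ℝ) * ε i := by
    filter_upwards [hε0] with i hi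
    have h2 := Nat.lt_floor_add_one (t / ε i)
    have h3 : t / ε i * ε i = t := div_mul_cancel₀ t hi.ne'
    nlinarith
  have h2 : ∀ᶠ i in l, ((⌊t / ε i⌋₊ : ℕ) : ℝ) * ε i ≤ t := by
    filter_upwards [hε0] with i hi
    have h2 := Nat.floor_le (div_nonneg ht hi.le)
    have h3 : t / ε i * ε i = t := div_mul_cancel₀ t hi.ne'
    nlinarith
  refine tendsto_of_tendsto_of_tendsto_of_le_of_le' ?_ tendsto_const_nhds h1 h2
  have := (tendsto_const_nhds (x := t)).sub hε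
  simpa using this

end Pool.Agent.Lib.MP_aa9b81_an.Cv
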