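import Mathlib
import Pool.Agent.Lib.MP_aa9b81_an.Cov2

/-!
Coverings of closed linear groups: limits of difference quotients.
-/

set_option autoImplicit false
set_option linter.unusedSectionVars false
set_option maxHeartbeats 4000000

open Matrix Filter Topology Module

namespace Pool.Agent.Lib.MP_aa9b81_an.Cv

open Pool.Agent.Lib.MP_aa9b81_an.N Pool.Agent.Lib.MP_aa9b81_an.Z

variable {n : ℕ} [NeZero n]
variable {G : Type*} [Group G] [TopologicalSpace G] [IsTopologicalGroup G]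
variable {ρ : G →* SLn n}
variable (hρ : IsCoveringMap ρ.rangeRestrict) (hcl : IsClosed (Set.range ρ))

include hρ in
lemma continuous_rho : Continuous fun g : G => (ρ g : MM n) := by
  have h1 : Continuous fun g : G => ((ρ.rangeRestrict g : ρ.range) : SLn n) :=
    continuous_subtype_val.comp hρ.continuous
  exact (Matrix.SpecialLinearGroup.isClosedEmbedding_val (n := Fin n)
    (R := ℝ)).continuous.comp h1

include hρ in
/-- Convergence in the covering, from convergence of the images. -/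
lemma tendsto_one_of {ι : Type*} {l : Filter ι} {N₀ : Set G} (hN₀ : N₀ ∈ 𝓝 (1 : G))
    (hinj : ∀ g ∈ N₀, ∀ h ∈ N₀, ρ g = ρ h → g = h) {z : ι → G} (hz : ∀ᶠ i in l, z i ∈ N₀)
    (hz1 : Tendsto (fun i => (ρ (z i) : MM n)) l (𝓝 1)) : Tendsto z l (𝓝 1) := by
  intro N' hN'
  obtain ⟨U, hU, hUN⟩ := exists_small hρ (inter_mem hN' hN₀)
  have h1 : ∀ᶠ i in l, (ρ (z i) : MM n) ∈ U := hz1 hU
  change ∀ᶠ i in l, z i ∈ N'
  filter_upwards [hz, h1] with i h2 h3
  obtain ⟨g', hg', h4⟩ := hUN (z i) h3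
  rw [← hinj g' hg'.2 (z i) h2 h4]
  exact hg'.1

section

open scoped Matrix.Norms.Operator

set_option backward.isDefEq.respectTransparency false in
lemma exists_ball {U : Set (MM n)} (hU : U ∈ 𝓝 (1 : MM n)) :
    ∃ r > 0, ∀ a : MM n, ‖a - 1‖ < r → a ∈ U := by
  obtain ⟨r, hr, h⟩ := Metric.mem_nhds_iff.1 hU
  refine ⟨r, hr, fun a ha => h ?_⟩
  rw [Metric.mem_ball, dist_eq_norm]
  exact ha

set_option backward.isDefEq.respectTransparency false in
lemma eventually_norm_le {ι : Type*} {l : Filter ι} {a : ι → MM n} {ε : ι → ℝ} {C : MM n}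
    (hε0 : ∀ᶠ i in l, 0 < ε i) (hC : Tendsto (fun i => (ε i)⁻¹ • (a i - 1)) l (𝓝 C)) :
    ∀ᶠ i in l, ‖a i - 1‖ ≤ ε i * (‖C‖ + 1) := by
  have h1 : ∀ᶠ i in l, ‖(ε i)⁻¹ • (a i - 1)‖ < ‖C‖ + 1 :=
    hC.norm.eventually_lt_const (by linarith)
  filter_upwards [h1, hε0] with i hi hi0
  rw [norm_smul, norm_inv, Real.norm_of_nonneg hi0.le, inv_mul_lt_iff₀ hi0] at hi
  exact hi.le

/-- The small powers stay in a small neighbourhood and converge. -/
theorem EX_mem_small {ι : Type*} {l : Filter ι} [l.NeBot] {H : Subgroup G}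
    (hH : IsClosed (H : Set G)) (x : ι → G) (hx : ∀ i, x i ∈ H) (hx1 : Tendsto x l (𝓝 1))
    (ε : ι → ℝ) (C : gl hcl) (hε : Tendsto ε l (𝓝 0)) (hε0 : ∀ᶠ i in l, 0 < ε i)
    (hC : Tendsto (fun i => (ε i)⁻¹ • ((ρ (x i) : MM n) - 1)) l (𝓝 (C : MM n))) :
    ∃ δ > 0, ∀ t : ℝ, 0 ≤ t → t < δ → EX hρ hcl (t • C) ∈ H := by
  obtain ⟨N₀, hN₀, hinj⟩ := exists_inj hρ
  obtain ⟨N₁, hN₁, -, hN₁i, hN₁m⟩ := exists_closed_nhds_one_inv_eq_mul_subset hN₀
  have hmul : ∀ a ∈ N₁, ∀ b ∈ N₁, a * b ∈ N₀ := fun a ha b hb => hN₁m (Set.mul_mem_mul ha hb)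
  have h1N₁ : (1 : G) ∈ N₁ := mem_of_mem_nhds hN₁
  have hinv : ∀ a ∈ N₁, a⁻¹ ∈ N₁ := by
    intro a ha
    rw [← hN₁i]
    exact Set.inv_mem_inv.2 ha
  have hsub : ∀ a ∈ N₁, a ∈ N₀ := fun a ha => by
    have := hmul a ha 1 h1N₁
    rwa [mul_one] at this
  obtain ⟨U, hU, hUN⟩ := exists_small hρ hN₁
  obtain ⟨r, hr, hball⟩ := exists_ball hU
  set R : ℝ := ‖(C : MM n)‖ + 1 with hR
  have hR0 : 0 ≤ R := by positivity
  have hc := continuous_EX hρ hcl
  have e1 : ∀ᶠ t : ℝ in 𝓝 0, EX hρ hcl (t • C) ∈ N₁ := by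
    have h2 : Continuous fun t : ℝ => EX hρ hcl (t • C) := hc.comp (by fun_prop)
    have h3 := h2.tendsto 0
    rw [zero_smul, EX_zero] at h3
    exact h3 hN₁
  have e2 : ∀ᶠ t : ℝ in 𝓝 0, Real.exp (t * R) - 1 < r := by
    have h2 : Continuous fun t : ℝ => Real.exp (t * R) - 1 := by fun_prop
    have h3 := h2.tendsto 0
    simp only [zero_mul, Real.exp_zero, sub_self] at h3
    exact h3.eventually_lt_const hr
  obtain ⟨δ, hδ, hδ2⟩ := Metric.eventually_nhds_iff.1 (e1.and e2)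
  refine ⟨δ, hδ, fun t ht0 htδ => ?_⟩
  have ht : dist t 0 < δ := by rwa [dist_zero_right, Real.norm_of_nonneg ht0]
  obtain ⟨ht1, ht2⟩ := hδ2 ht
  set m : ι → ℕ := fun i => ⌊t / ε i⌋₊ with hm
  have hpow : ∀ᶠ i in l, ∀ k : ℕ, k ≤ m i → x i ^ k ∈ N₁ := by
    filter_upwards [hx1 hN₁, eventually_norm_le hε0 hC, hε0] with i h2 h3 h4
    intro k
    induction k with
    | zero =>
      intro _
      rw [pow_zero]
      exact h1N₁
    | succ k ih =>
      intro hk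
      have h5 : x i ^ (k + 1) ∈ N₀ := by
        rw [pow_succ]
        exact hmul _ (ih (by omega)) _ h2
      have h6 : (ρ (x i ^ (k + 1)) : MM n) ∈ U := by
        apply hball
        rw [map_pow, Matrix.SpecialLinearGroup.coe_pow]
        refine norm_pow_sub_one_lt hR0 h3 ?_ ht2
        have h7 : ((k + 1 : ℕ) : ℝ) ≤ t / ε i :=
          (Nat.cast_le.2 hk).trans (Nat.floor_le (div_nonneg ht0 h4.le))
        calc ((k + 1 : ℕ) : ℝ) * ε i ≤ t / ε i * ε i := by gcongr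
          _ = t := div_mul_cancel₀ t h4.ne'
      obtain ⟨g', hg', h7⟩ := hUN _ h6
      rw [← hinj g' (hsub _ hg') _ h5 h7]
      exact hg'
  set z : ι → G := fun i => x i ^ m i * (EX hρ hcl (t • C))⁻¹ with hz
  have hzN : ∀ᶠ i in l, z i ∈ N₀ := by
    filter_upwards [hpow] with i hi
    exact hmul _ (hi (m i) le_rfl) _ (hinv _ ht1)
  have hlim : Tendsto (fun i => (ρ (x i) : MM n) ^ m i) l
      (𝓝 (NormedSpace.exp (t • (C : MM n)))) :=
    tendsto_pow_exp_matrix (fun i => (ρ (x i) : MM n)) ε C m t hε hε0 hC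
      (tendsto_floor_mul hε hε0 ht0)
  have hz1 : Tendsto (fun i => (ρ (z i) : MM n)) l (𝓝 1) := by
    have h2 := hlim.mul_const ((ρ (EX hρ hcl (t • C))⁻¹ : SLn n) : MM n)
    have h3 : NormedSpace.exp (t • (C : MM n)) * ((ρ (EX hρ hcl (t • C))⁻¹ : SLn n) : MM n) =
        1 := by
      have h4 := coe_EX hρ hcl (t • C)
      change (ρ (EX hρ hcl (t • C)) : MM n) = NormedSpace.exp (t • (C : MM n)) at h4
      rw [← h4, ← Matrix.SpecialLinearGroup.coe_mul, ← map_mul, mul_inv_cancel, map_one,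
        Matrix.SpecialLinearGroup.coe_one]
    rw [h3] at h2
    refine h2.congr fun i => ?_
    rw [← Matrix.SpecialLinearGroup.coe_pow, ← Matrix.SpecialLinearGroup.coe_mul, ← map_pow,
      ← map_mul]
  have hz2 : Tendsto z l (𝓝 1) := tendsto_one_of hρ hN₀ hinj hzN hz1
  have hy : Tendsto (fun i => x i ^ m i) l (𝓝 (EX hρ hcl (t • C))) := by
    have h2 := hz2.mul_const (EX hρ hcl (t • C))
    rw [one_mul] at h2
    refine h2.congr fun i => ?_
    simp only [hz, inv_mul_cancel_right]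
  exact hH.mem_of_tendsto hy (Eventually.of_forall fun i => H.pow_mem (hx i) _)

end

/-- Limits of difference quotients of elements of a closed subgroup. -/
theorem EX_mem_of_tendsto {ι : Type*} {l : Filter ι} [l.NeBot] {H : Subgroup G}
    (hH : IsClosed (H : Set G)) (x : ι → G) (hx : ∀ i, x i ∈ H) (hx1 : Tendsto x l (𝓝 1))
    (ε : ι → ℝ) (C : gl hcl) (hε : Tendsto ε l (𝓝 0)) (hε0 : ∀ᶠ i in l, 0 < ε i)
    (hC : Tendsto (fun i => (ε i)⁻¹ • ((ρ (x i) : MM n) - 1)) l (𝓝 (C : MM n))) (t : ℝ) :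
    EX hρ hcl (t • C) ∈ H := by
  obtain ⟨δ, hδ, h1⟩ := EX_mem_small hρ hcl hH x hx hx1 ε C hε hε0 hC
  have hpos : ∀ t : ℝ, 0 ≤ t → EX hρ hcl (t • C) ∈ H := by
    intro t ht
    obtain ⟨k, hk⟩ := exists_nat_gt (t / δ)
    have hk0 : 0 < (k : ℝ) := lt_of_le_of_lt (div_nonneg ht hδ.le) hk
    have h2 : t / k < δ := by
      rw [div_lt_iff₀ hk0]
      rw [div_lt_iff₀ hδ] at hk
      linarith [mul_comm δ (k : ℝ)]
    have h3 := h1 (t / k) (div_nonneg ht hk0.le) h2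
    have h4 := EX_nsmul hρ hcl C (t / k) k
    rw [mul_div_cancel₀ t hk0.ne'] at h4
    rw [h4]
    exact H.pow_mem h3 k
  rcases le_total 0 t with ht | ht
  · exact hpos t ht
  · have h2 := EX_neg hρ hcl C (-t)
    rw [neg_neg] at h2
    rw [h2]
    exact H.inv_mem (hpos (-t) (by linarith))

end Pool.Agent.Lib.MP_aa9b81_an.Cv
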