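import Mathlib
import Pool.Agent.Lib.MP_aa9b81_an.Cov3

/-!
Coverings of closed linear groups: isotropy algebras.
-/

set_option autoImplicit false
set_option linter.unusedSectionVars false
set_option maxHeartbeats 4000000

open Matrix Filter Topology Module

namespace Pool.Agent.Lib.MP_aa9b81_an.Cv

open Pool.Agent.Lib.MP_aa9b81_an.N Pool.Agent.Lib.MP_aa9b81_an.Z

variable {n : ℕ} [NeZero n]
variable {G : Type*} [Group G] [TopologicalSpace G] [IsTopologicalGroup G]
variable {ρ : G →* SLn n}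
variable (hρ : IsCoveringMap ρ.rangeRestrict) (hcl : IsClosed (Set.range ρ))

section Group

include hρ in
lemma small_lift {N : Set G} (hN : N ∈ 𝓝 (1 : G)) :
    ∃ U ∈ 𝓝 (0 : MM n), ∀ B ∈ U, B ∈ gl hcl → ∃ g ∈ N, (ρ g : MM n) = NormedSpace.exp B := by
  have h1 := (continuous_EX hρ hcl).tendsto 0
  rw [EX_zero] at h1
  have h2 := h1 hN
  rw [mem_map, nhds_subtype_eq_comap, mem_comap] at h2
  obtain ⟨U, hU, hUN⟩ := h2
  refine ⟨U, hU, fun B hB hBg => ⟨EX hρ hcl ⟨B, hBg⟩, ?_, coe_EX hρ hcl ⟨B, hBg⟩⟩⟩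
  exact hUN (show (⟨B, hBg⟩ : gl hcl) ∈ Subtype.val ⁻¹' U from hB)

lemma conj_gl : ∀ A ∈ gl hcl, ∀ B ∈ gl hcl,
    NormedSpace.exp (-B) * A * NormedSpace.exp B ∈ gl hcl := by
  intro A hA B hB
  obtain ⟨g, hg⟩ := exists_exp hcl hB
  have h1 : ((ρ g⁻¹ : SLn n) : MM n) = NormedSpace.exp (-B) := by
    have h2 : (ρ g : MM n) * ((ρ g⁻¹ : SLn n) : MM n) = 1 := by
      rw [map_inv, coe_mul_coe_inv]
    have h3 : (ρ g : MM n) * NormedSpace.exp (-B) = 1 := by
      rw [hg]
      exact exp_mul_exp_neg B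
    have h5 : IsUnit (ρ g : MM n) := by
      rw [Matrix.isUnit_iff_isUnit_det]
      simp
    exact h5.mul_left_cancel (h2.trans h3.symm)
  have h4 : NormedSpace.exp (-B) * A * NormedSpace.exp B = cj (ρ g⁻¹) A := by
    rw [cj_apply, h1, ← map_inv, inv_inv, hg]
  rw [h4]
  exact cj_mem_gl hcl g⁻¹ hA

lemma exists_of_mem_Gen_gl {h : Mt (Fin n)} (hh : h ∈ Gen (gl hcl)) :
    ∃ g : G, (ρ g : MM n) = h := by
  induction hh using Submonoid.closure_induction with
  | mem h hh =>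
    obtain ⟨B, hB, rfl⟩ := hh
    exact exists_exp hcl hB
  | one => exact ⟨1, by rw [map_one, Matrix.SpecialLinearGroup.coe_one]⟩
  | mul a b _ _ ha hb =>
    obtain ⟨g, rfl⟩ := ha
    obtain ⟨g', rfl⟩ := hb
    exact ⟨g * g', by rw [map_mul, Matrix.SpecialLinearGroup.coe_mul]⟩

include hρ in
/-- A connected group is generated by the exponentials of its Lie algebra. -/
theorem mem_Gen_gl [PreconnectedSpace G] (g : G) : (ρ g : MM n) ∈ Gen (gl hcl) := by
  let S : Subgroup G :=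
    { carrier := {g | (ρ g : MM n) ∈ Gen (gl hcl)}
      one_mem' := by
        change ((ρ 1 : SLn n) : MM n) ∈ Gen (gl hcl)
        rw [map_one, Matrix.SpecialLinearGroup.coe_one]
        exact (Gen _).one_mem
      mul_mem' := by
        intro a b ha hb
        change ((ρ (a * b) : SLn n) : MM n) ∈ Gen (gl hcl)
        rw [map_mul, Matrix.SpecialLinearGroup.coe_mul]
        exact (Gen _).mul_mem ha hb
      inv_mem' := by
        intro a ha
        change ((ρ a⁻¹ : SLn n) : MM n) ∈ Gen (gl hcl)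
        obtain ⟨M', hM', h1⟩ := exists_inv_Gen (show (ρ a : MM n) ∈ Gen (gl hcl) from ha)
        have h2 : (ρ a : MM n) * ((ρ a⁻¹ : SLn n) : MM n) = 1 := by
          rw [map_inv, coe_mul_coe_inv]
        have h5 : IsUnit (ρ a : MM n) := by
          rw [Matrix.isUnit_iff_isUnit_det]
          simp
        rw [h5.mul_left_cancel (h2.trans h1.symm)]
        exact hM' }
  have h1 : (S : Set G) ∈ 𝓝 (1 : G) := by
    have h2 := eventually_mem_Gen (isClosed_rg hcl)
    have h3 : Tendsto ρ (𝓝 (1 : G)) (𝓝[(ρ.range : Set (SLn n))] (1 : SLn n)) := by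
      refine tendsto_nhdsWithin_iff.2 ⟨?_, Eventually.of_forall fun g => ⟨g, rfl⟩⟩
      have h4 : Continuous fun g : G => ((ρ.rangeRestrict g : ρ.range) : SLn n) :=
        continuous_subtype_val.comp hρ.continuous
      have h5 := h4.tendsto (1 : G)
      rw [map_one] at h5
      exact h5
    exact h3.eventually h2
  have h2 : IsOpen (S : Set G) := S.isOpen_of_mem_nhds h1
  have h3 : IsClopen (S : Set G) := ⟨S.isClosed_of_isOpen h2, h2⟩
  have h4 := h3.eq_univ ⟨1, S.one_mem⟩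
  have h5 : g ∈ (S : Set G) := by
    rw [h4]
    exact Set.mem_univ g
  exact h5

end Group

section Iso

variable {X : Type*} [TopologicalSpace X] [T2Space X] [MulAction G X] [ContinuousSMul G X]

lemma isClosed_stab (x : X) : IsClosed (MulAction.stabilizer G x : Set G) := by
  have h1 : IsClosed {g : G | g • x = x} := isClosed_eq (by fun_prop) continuous_const
  exact h1

/-- The isotropy algebra. -/
noncomputable def isoC (x : X) : Submodule ℝ (MM n) where
  carrier := {A | ∃ h : A ∈ gl hcl, ∀ t : ℝ,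
    EX hρ hcl (t • (⟨A, h⟩ : gl hcl)) ∈ MulAction.stabilizer G x}
  zero_mem' := by
    refine ⟨(gl hcl).zero_mem, fun t => ?_⟩
    have h1 : (t • (⟨0, (gl hcl).zero_mem⟩ : gl hcl)) = 0 := by
      apply Subtype.ext
      simp
    rw [h1, EX_zero]
    exact Subgroup.one_mem _
  smul_mem' := by
    rintro c A ⟨h, hA⟩
    refine ⟨(gl hcl).smul_mem c h, fun t => ?_⟩
    have h1 : (t • (⟨c • A, (gl hcl).smul_mem c h⟩ : gl hcl)) = (t * c) • (⟨A, h⟩ : gl hcl) := by
      apply Subtype.ext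
      simp [smul_smul]
    rw [h1]
    exact hA _
  add_mem' := by
    rintro A B ⟨h, hA⟩ ⟨h', hB⟩
    refine ⟨(gl hcl).add_mem h h', fun t => ?_⟩
    have hc := continuous_EX hρ hcl
    refine EX_mem_of_tendsto (l := 𝓝[>] (0 : ℝ)) hρ hcl (isClosed_stab x)
      (fun u : ℝ => EX hρ hcl (u • (⟨A, h⟩ : gl hcl)) * EX hρ hcl (u • (⟨B, h'⟩ : gl hcl)))
      (fun u => Subgroup.mul_mem _ (hA u) (hB u)) ?_ (fun u => u)
      ⟨A + B, (gl hcl).add_mem h h'⟩ ?_ ?_ ?_ t
    · have h1 : Continuous fun u : ℝ => EX hρ hcl (u • (⟨A, h⟩ : gl hcl)) *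
          EX hρ hcl (u • (⟨B, h'⟩ : gl hcl)) :=
        (hc.comp (by fun_prop)).mul (hc.comp (by fun_prop))
      have h2 := h1.tendsto 0
      rw [zero_smul, zero_smul, EX_zero, mul_one] at h2
      exact h2.mono_left nhdsWithin_le_nhds
    · exact tendsto_nhdsWithin_of_tendsto_nhds tendsto_id
    · exact self_mem_nhdsWithin
    · have h1 : Tendsto (fun u : ℝ => u⁻¹ • (NormedSpace.exp (u • A) - 1)) (𝓝[>] 0) (𝓝 A) :=
        (tendsto_slope_exp_matrix A).mono_left (nhdsWithin_mono _ fun u hu => ne_of_gt hu)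
      have h2 : Tendsto (fun u : ℝ => u⁻¹ • (NormedSpace.exp (u • B) - 1)) (𝓝[>] 0) (𝓝 B) :=
        (tendsto_slope_exp_matrix B).mono_left (nhdsWithin_mono _ fun u hu => ne_of_gt hu)
      have h3 : Tendsto (fun u : ℝ => NormedSpace.exp (u • B)) (𝓝[>] 0) (𝓝 (1 : (MM n))) := by
        have h4 : Tendsto (fun u : ℝ => u • B) (𝓝[>] 0) (𝓝 ((0 : ℝ) • B)) :=
          ((continuous_id.smul continuous_const).tendsto (0 : ℝ)).mono_left nhdsWithin_le_nhds
        have h5 := (continuous_exp_matrix.tendsto _).comp h4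
        rw [zero_smul, NormedSpace.exp_zero] at h5
        exact h5
      have h6 := (h1.mul h3).add h2
      rw [mul_one] at h6
      refine h6.congr fun u => ?_
      rw [map_mul, Matrix.SpecialLinearGroup.coe_mul, coe_EX, coe_EX]
      change u⁻¹ • (NormedSpace.exp (u • A) - 1) * NormedSpace.exp (u • B) +
        u⁻¹ • (NormedSpace.exp (u • B) - 1) = u⁻¹ • (NormedSpace.exp (u • A) *
          NormedSpace.exp (u • B) - 1)
      rw [smul_mul_assoc, ← smul_add]
      congr 1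
      noncomm_ring

lemma mem_isoC {x : X} {A : MM n} : A ∈ isoC hρ hcl x ↔ ∃ h : A ∈ gl hcl, ∀ t : ℝ,
    EX hρ hcl (t • (⟨A, h⟩ : gl hcl)) • x = x := Iff.rfl

lemma mem_isoC' {x : X} {A : MM n} : A ∈ isoC hρ hcl x ↔ ∃ c : ℝ → G, Continuous c ∧
    (∀ s t, c (s + t) = c s * c t) ∧
    ∀ t, (ρ (c t) : MM n) = NormedSpace.exp (t • A) ∧ c t • x = x := by
  rw [mem_isoC]
  constructor
  · rintro ⟨h, hA⟩
    refine ⟨fun t => EX hρ hcl (t • (⟨A, h⟩ : gl hcl)),
      (continuous_EX hρ hcl).comp (by fun_prop), fun s t => EX_add hρ hcl _ s t,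
      fun t => ⟨coe_EX hρ hcl _, hA t⟩⟩
  · rintro ⟨c, hc, hadd, hA⟩
    have h0 : c 0 = 1 := by
      have h1 := hadd 0 0
      rw [add_zero] at h1
      exact (mul_eq_left.1 h1.symm)
    obtain ⟨h, h2⟩ := EX_unique hρ hcl hc h0 fun t => (hA t).1
    refine ⟨h, fun t => ?_⟩
    rw [← h2 t]
    exact (hA t).2

lemma isoC_le (x : X) : isoC hρ hcl x ≤ gl hcl := fun _ hA => hA.choose

lemma cf_isoC : CF (Set.univ : Set X) (isoC (X := X) hρ hcl) := by
  intro x _ F hF hle u hu A hA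
  rw [nhdsWithin_univ] at hle
  have hAg : A ∈ gl hcl := by
    have hc : IsClosed ((gl hcl : Submodule ℝ (MM n)) : Set (MM n)) :=
      Submodule.closed_of_finiteDimensional _
    exact hc.mem_of_tendsto hA (hu.mono fun y hy => isoC_le hρ hcl y hy)
  refine ⟨hAg, fun t => ?_⟩
  classical
  let u' : X → gl hcl := fun y => if h : u y ∈ gl hcl then ⟨u y, h⟩ else 0
  have hu' : ∀ᶠ y in F, (u' y : MM n) = u y := by
    filter_upwards [hu] with y hy
    simp only [u', dif_pos (isoC_le hρ hcl y hy)]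
  have h1 : Tendsto u' F (𝓝 (⟨A, hAg⟩ : gl hcl)) := by
    rw [tendsto_subtype_rng]
    exact hA.congr' (hu'.mono fun y hy => hy.symm)
  have h2 : Tendsto (fun y => EX hρ hcl (t • u' y)) F
      (𝓝 (EX hρ hcl (t • (⟨A, hAg⟩ : gl hcl)))) :=
    ((continuous_EX hρ hcl).tendsto _).comp (h1.const_smul t)
  have h5 : Tendsto (fun y => EX hρ hcl (t • u' y) • y) F
      (𝓝 (EX hρ hcl (t • (⟨A, hAg⟩ : gl hcl)) • x)) := h2.smul hle
  have h6 : Tendsto (fun y => EX hρ hcl (t • u' y) • y) F (𝓝 x) := by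
    refine Tendsto.congr' ?_ hle
    filter_upwards [hu] with y hy
    obtain ⟨h, h7⟩ := (mem_isoC hρ hcl).1 hy
    have h8 : u' y = ⟨u y, h⟩ := by simp only [u', dif_pos h]
    rw [h8, h7 t]
  exact tendsto_nhds_unique h5 h6

lemma isoC_smul (g : G) (x : X) : isoC hρ hcl (g • x) = cjs (ρ g) (isoC hρ hcl x) := by
  have key : ∀ (g : G) (x : X) (A : MM n), A ∈ isoC hρ hcl x →
      cj (ρ g) A ∈ isoC hρ hcl (g • x) := by
    rintro g x A ⟨h, hA⟩
    refine ⟨cj_mem_gl hcl g h, fun t => ?_⟩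
    have h1 : (t • (⟨cj (ρ g) A, cj_mem_gl hcl g h⟩ : gl hcl)) =
        ⟨cj (ρ g) ((t • (⟨A, h⟩ : gl hcl) : gl hcl) : MM n),
          cj_mem_gl hcl g (t • (⟨A, h⟩ : gl hcl)).2⟩ := by
      apply Subtype.ext
      change t • cj (ρ g) A = cj (ρ g) (t • A)
      rw [map_smul]
    rw [h1, EX_conj]
    change (g * EX hρ hcl (t • (⟨A, h⟩ : gl hcl)) * g⁻¹) • g • x = g • x
    rw [mul_smul, mul_smul, inv_smul_smul]
    congr 1
    exact hA t
  apply le_antisymm
  · intro A hA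
    rw [mem_cjs]
    have h1 := key g⁻¹ _ A hA
    rwa [inv_smul_smul, map_inv] at h1
  · intro A hA
    rw [mem_cjs] at hA
    have h1 := key g _ _ hA
    rwa [cj_cj_inv] at h1

end Iso

end Pool.Agent.Lib.MP_aa9b81_an.Cv
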