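import Mathlib
import Pool.Agent.Lib.MP_aa9b81_an.Cov4

/-!
Stratification of a space by the conjugacy classes of a closed family of subspaces of matrices,
under a group acting by conjugation.
-/

set_option autoImplicit false
set_option linter.unusedSectionVars false
set_option maxHeartbeats 4000000

open Matrix Filter Topology Module

namespace Pool.Agent.Lib.MP_aa9b81_an.Cv

open Pool.Agent.Lib.MP_aa9b81_an.N
open Pool.Agent.Lib.MP_aa9b81_an.Z (Gen IsAlg LB fk co ZC ZC_frames Strat Layer Sat JK IK bd exp_bd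
  ac ac_fk mt_co mt Mt act_fk isAlg_LB strat_univ span_conj eventually_indep continuous_co
  Strat.sat)

variable {n : ℕ} [NeZero n]
variable {G : Type*} [Group G] [TopologicalSpace G] [IsTopologicalGroup G]
variable {X : Type*} [TopologicalSpace X]
variable {ρ : G →* SLn n} {L : Submodule ℝ (MM n)} (W : X → Submodule ℝ (MM n))

/-- Saturated sets. -/
def SatX (ρ : G →* SLn n) (W : X → Submodule ℝ (MM n)) (T : Set X) : Prop :=
  ∀ y y' : X, y ∈ T → (∃ g : G, W y' = cjs (ρ g) (W y)) → y' ∈ T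

/-- Layers. -/
def LayerX (ρ : G →* SLn n) (W : X → Submodule ℝ (MM n)) (S : Set X) : Prop :=
  ∃ (κ : Type) (_ : Fintype κ) (q : X → (κ → ℝ)), ContinuousOn q S ∧
    (∀ y y' : X, (∃ g : G, W y' = cjs (ρ g) (W y)) → q y = q y') ∧
    ∀ x ∈ S, LocAct (Γ := G) (fun g => cjs (ρ g)) {y | y ∈ S ∧ q y = q x} W

/-- Finite stratifications. -/
inductive StratX (ρ : G →* SLn n) (W : X → Submodule ℝ (MM n)) : Set X → Prop
  | empty : StratX ρ W ∅
  | step (B T : Set X) : StratX ρ W B → IsClosed T → SatX ρ W T → B ⊆ T →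
      LayerX ρ W (T \ B) → StratX ρ W T

variable {W}

lemma StratX.isClosed {T : Set X} (h : StratX ρ W T) : IsClosed T := by
  cases h with
  | empty => exact isClosed_empty
  | step B _ _ h1 _ _ _ => exact h1

lemma StratX.sat {T : Set X} (h : StratX ρ W T) : SatX ρ W T := by
  cases h with
  | empty => exact fun v v' hv _ => absurd hv (Set.notMem_empty v)
  | step B _ _ _ h2 _ _ => exact h2

variable (W)

/-- A frame of the isotropy algebra, if it has dimension `k`. -/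
noncomputable def fr (k : ℕ) (y : X) : Fin k → MM n := by
  classical
  exact if h : finrank ℝ (W y) = k then
    fun i => ((Module.finBasisOfFinrankEq ℝ (W y) h i : W y) : MM n) else 0

lemma span_fr {k : ℕ} {y : X} (h : finrank ℝ (W y) = k) :
    Submodule.span ℝ (Set.range (fr W k y)) = W y := by
  have h1 : fr W k y = Subtype.val ∘ (Module.finBasisOfFinrankEq ℝ (W y) h) := by
    rw [fr, dif_pos h]
    rfl
  rw [h1, Set.range_comp]
  have h2 := (Module.finBasisOfFinrankEq ℝ (W y) h).span_eq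
  have h3 := congrArg (Submodule.map (W y).subtype) h2
  rw [Submodule.map_span, Submodule.map_top, Submodule.range_subtype] at h3
  exact h3

lemma indep_fr {k : ℕ} {y : X} (h : finrank ℝ (W y) = k) :
    LinearIndependent ℝ (fr W k y) := by
  have h1 : fr W k y = (W y).subtype ∘ (Module.finBasisOfFinrankEq ℝ (W y) h) := by
    rw [fr, dif_pos h]
    rfl
  rw [h1]
  exact (Module.finBasisOfFinrankEq ℝ (W y) h).linearIndependent.map'
    (W y).subtype (Submodule.ker_subtype _)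

lemma fr_mem {k : ℕ} {y : X} (h : finrank ℝ (W y) = k) (i : Fin k) :
    fr W k y i ∈ W y := by
  have h1 := span_fr W h
  have h2 : fr W k y i ∈ Submodule.span ℝ (Set.range (fr W k y)) := Submodule.subset_span ⟨i, rfl⟩
  rwa [h1] at h2

/-- The nearby frame. -/
noncomputable def nf (k : ℕ) (y₀ y : X) : Fin k → MM n :=
  fun i => MP_aa9b81_an.pr W y (fr W k y₀ i)

lemma tendsto_nf (hW : CF (Set.univ : Set X) W) {k : ℕ} {S : Set X}
    (hS : ∀ y ∈ S, finrank ℝ (W y) = k) {y₀ : X}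
    (hy₀ : y₀ ∈ S) : Tendsto (nf W k y₀) (𝓝[S] y₀) (𝓝 (fr W k y₀)) := by
  rw [tendsto_pi_nhds]
  intro i
  have h1 := (hW.mono (Set.subset_univ S)).continuousOn hS (fr W k y₀ i) y₀ hy₀
  rw [ContinuousWithinAt, MP_aa9b81_an.pr_eq_self (fr_mem W (hS y₀ hy₀) i)] at h1
  exact h1

lemma span_nf (hW : CF (Set.univ : Set X) W) {k : ℕ} {S : Set X}
    (hS : ∀ y ∈ S, finrank ℝ (W y) = k) {y₀ : X}
    (hy₀ : y₀ ∈ S) :
    ∀ᶠ y in 𝓝[S] y₀, Submodule.span ℝ (Set.range (nf W k y₀ y)) = W y := by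
  have h1 : ∀ᶠ b in 𝓝 (fr W k y₀), LinearIndependent ℝ b :=
    eventually_indep (indep_fr W (hS y₀ hy₀))
  filter_upwards [(tendsto_nf W hW hS hy₀).eventually h1, self_mem_nhdsWithin] with y hy hyS
  apply Submodule.eq_of_le_of_finrank_eq
  · rw [Submodule.span_le]
    rintro _ ⟨i, rfl⟩
    exact MP_aa9b81_an.pr_mem W y _
  · rw [finrank_span_eq_card hy, Fintype.card_fin, hS y hyS]

lemma ZC_of_span (hgen : ∀ g : G, (ρ g : MM n) ∈ Gen L) {k : ℕ} {b b' : Fin k → MM n}
    {g : G} (h : Submodule.span ℝ (Set.range b') = cjs (ρ g) (Submodule.span ℝ (Set.range b))) :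
    ZC (LB (Fin k) L) (fk k n) (co b) (co b') := by
  refine ZC_frames (hgen g) fun i => ?_
  rw [span_conj, ← h]
  exact Submodule.subset_span ⟨i, rfl⟩

lemma ZC_of_span' (hgen : ∀ g : G, (ρ g : MM n) ∈ Gen L) {k : ℕ} {b b' : Fin k → MM n}
    {g : G} (h : Submodule.span ℝ (Set.range b') = cjs (ρ g) (Submodule.span ℝ (Set.range b))) :
    ZC (LB (Fin k) L) (fk k n) (co b') (co b) := by
  refine ZC_of_span hgen (g := g⁻¹) ?_
  rw [h, ← cjs_mul, ← map_mul, inv_mul_cancel, map_one, cjs_one]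

lemma isClosed_ge (hW : CF (Set.univ : Set X) W) (k : ℕ) : IsClosed {y : X | k ≤ finrank ℝ (W y)} := by
  rw [← closure_subset_iff_isClosed]
  intro x hx
  refine hW.finrank_ge (Set.mem_univ x) ?_
  have h1 : {y : X | y ∈ Set.univ ∧ k ≤ finrank ℝ (W y)} =
      {y : X | k ≤ finrank ℝ (W y)} := by
    ext y
    simp
  rw [h1]
  exact hx

/-- The subset of `X` given by a set of frames. -/
def TX (k : ℕ) (T : Set (JK k n → ℝ)) : Set X :=
  {y | k + 1 ≤ finrank ℝ (W y)} ∪ {y | finrank ℝ (W y) = k ∧ co (fr W k y) ∈ T}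

lemma co_nf_mem (hgen : ∀ g : G, (ρ g : MM n) ∈ Gen L) {k : ℕ}
    {T : Set (JK k n → ℝ)} (hT : Sat (LB (Fin k) L) (fk k n) T) {y₀ y : X}
    (hy : finrank ℝ (W y) = k)
    (hs : Submodule.span ℝ (Set.range (nf W k y₀ y)) = W y) :
    co (nf W k y₀ y) ∈ T ↔ co (fr W k y) ∈ T := by
  have h1 : Submodule.span ℝ (Set.range (nf W k y₀ y)) =
      cjs (ρ 1) (Submodule.span ℝ (Set.range (fr W k y))) := by
    rw [hs, span_fr W hy, map_one, cjs_one]
  exact ⟨fun h => hT _ _ h (ZC_of_span' hgen h1), fun h => hT _ _ h (ZC_of_span hgen h1)⟩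

lemma isClosed_TX (hW : CF (Set.univ : Set X) W) (hgen : ∀ g : G, (ρ g : MM n) ∈ Gen L) {k : ℕ}
    {T : Set (JK k n → ℝ)} (hT : Sat (LB (Fin k) L) (fk k n) T) (hTc : IsClosed T) :
    IsClosed (TX W k T) := by
  rw [← closure_subset_iff_isClosed]
  intro y₀ hy₀
  rw [TX, closure_union, (isClosed_ge W hW (k + 1)).closure_eq] at hy₀
  rcases hy₀ with hy₀ | hy₀
  · exact Or.inl hy₀
  by_cases hk : k + 1 ≤ finrank ℝ (W y₀)
  · exact Or.inl hk
  have h1 : k ≤ finrank ℝ (W y₀) := by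
    have h2 := closure_mono (show {y : X | finrank ℝ (W y) = k ∧ co (fr W k y) ∈ T} ⊆
      {y : X | k ≤ finrank ℝ (W y)} from fun y hy => hy.1.ge) hy₀
    rwa [(isClosed_ge W hW k).closure_eq] at h2
  have h2 : finrank ℝ (W y₀) = k := by omega
  refine Or.inr ⟨h2, ?_⟩
  set S : Set X := {y : X | finrank ℝ (W y) = k} with hS
  set P : Set X := {y : X | finrank ℝ (W y) = k ∧ co (fr W k y) ∈ T} with hP
  have hPS : P ⊆ S := fun y hy => hy.1
  have hne : (𝓝[P] y₀).NeBot := mem_closure_iff_nhdsWithin_neBot.1 hy₀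
  have hle : 𝓝[P] y₀ ≤ 𝓝[S] y₀ := nhdsWithin_mono _ hPS
  have h3 : Tendsto (fun y => co (nf W k y₀ y)) (𝓝[P] y₀) (𝓝 (co (fr W k y₀))) :=
    (continuous_co.tendsto _).comp ((tendsto_nf W hW (S := S) (fun y hy => hy) h2).mono_left hle)
  refine hTc.mem_of_tendsto h3 ?_
  filter_upwards [hle (span_nf W hW (S := S) (fun y hy => hy) h2), self_mem_nhdsWithin] with y hy hyP
  exact (co_nf_mem W hgen hT hyP.1 hy).2 hyP.2

lemma satX_TX (hgen : ∀ g : G, (ρ g : MM n) ∈ Gen L) {k : ℕ}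
    {T : Set (JK k n → ℝ)} (hT : Sat (LB (Fin k) L) (fk k n) T) :
    SatX ρ W (TX W k T) := by
  rintro y y' (hy | hy) ⟨g, hg⟩
  · left
    change k + 1 ≤ finrank ℝ (W y')
    rw [hg, finrank_cjs]
    exact hy
  · right
    have h1 : finrank ℝ (W y') = k := by rw [hg, finrank_cjs, hy.1]
    refine ⟨h1, hT _ _ hy.2 (ZC_of_span hgen (g := g) ?_)⟩
    rw [span_fr W h1, span_fr W hy.1, hg]

lemma TX_mono {k : ℕ} {B T : Set (JK k n → ℝ)} (h : B ⊆ T) :
    TX W k B ⊆ TX W k T := by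
  rintro y (hy | hy)
  · exact Or.inl hy
  · exact Or.inr ⟨hy.1, h hy.2⟩

lemma TX_diff {k : ℕ} {B T : Set (JK k n → ℝ)} :
    TX W k T \ TX W k B =
      {y | finrank ℝ (W y) = k ∧ co (fr W k y) ∈ T \ B} := by
  ext y
  constructor
  · rintro ⟨hy | hy, hn⟩
    · exact absurd (Or.inl hy) hn
    · exact ⟨hy.1, hy.2, fun h => hn (Or.inr ⟨hy.1, h⟩)⟩
  · rintro ⟨h1, h2, h3⟩
    refine ⟨Or.inr ⟨h1, h2⟩, ?_⟩
    rintro (h | h)
    · have h4 : k + 1 ≤ finrank ℝ (W y) := h
      omega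
    · exact h3 h.2

/-- Exponentials of the block matrices act on the span. -/
lemma span_of_ac {k : ℕ} {b b' : Fin k → MM n} {S : Mt (Fin k)} {g : SLn n}
    (h : ac (fk k n) (bd S (g : MM n)) (co b) = co b') :
    Submodule.span ℝ (Set.range b') ≤ cjs g (Submodule.span ℝ (Set.range b)) := by
  rw [ac_fk, mt_co] at h
  have h1 : (fun i => ∑ l, S i l • ((g : MM n) * b l * (g : MM n).adjugate)) = b' := by
    have h2 := congrArg (fun v => mt (k := k) (n := n) v) h
    exact h2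
  rw [← span_conj, Submodule.span_le]
  rintro _ ⟨i, rfl⟩
  rw [← h1]
  exact Submodule.sum_mem _ fun l _ => Submodule.smul_mem _ _ (Submodule.subset_span ⟨l, rfl⟩)

lemma layerX_TX (hW : CF (Set.univ : Set X) W) (hgen : ∀ g : G, (ρ g : MM n) ∈ Gen L)
    (hsm : ∀ N ∈ 𝓝 (1 : G), ∃ U ∈ 𝓝 (0 : MM n),
    ∀ B ∈ U, B ∈ L → ∃ g ∈ N, (ρ g : MM n) = NormedSpace.exp B) {k : ℕ}
    {B T : Set (JK k n → ℝ)} (hT : Sat (LB (Fin k) L) (fk k n) T)
    (hB : Sat (LB (Fin k) L) (fk k n) B)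
    (hL : Layer (LB (Fin k) L) (fk k n) (T \ B)) :
    LayerX ρ W (TX W k T \ TX W k B) := by
  rw [TX_diff]
  obtain ⟨κ, iκ, q, hq1, hq2, hq3⟩ := hL
  set S : Set X := {y : X | finrank ℝ (W y) = k} with hS
  set P : Set X := {y : X | finrank ℝ (W y) = k ∧ co (fr W k y) ∈ T \ B} with hP
  have hPS : P ⊆ S := fun y hy => hy.1
  have hkey : ∀ y₀ ∈ P, ∀ y ∈ P, Submodule.span ℝ (Set.range (nf W k y₀ y)) = W y →
      co (nf W k y₀ y) ∈ T \ B ∧ q (co (nf W k y₀ y)) = q (co (fr W k y)) := by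
    intro y₀ hy₀ y hy hs
    refine ⟨⟨(co_nf_mem W hgen hT hy.1 hs).2 hy.2.1, fun h => hy.2.2
      ((co_nf_mem W hgen hB hy.1 hs).1 h)⟩, ?_⟩
    have h1 : Submodule.span ℝ (Set.range (nf W k y₀ y)) =
        cjs (ρ 1) (Submodule.span ℝ (Set.range (fr W k y))) := by
      rw [hs, span_fr W hy.1, map_one, cjs_one]
    exact hq2 _ _ (ZC_of_span' hgen h1) (ZC_of_span hgen h1)
  refine ⟨κ, iκ, fun y => q (co (fr W k y)), ?_, ?_, ?_⟩
  · intro y₀ hy₀
    have hle : 𝓝[P] y₀ ≤ 𝓝[S] y₀ := nhdsWithin_mono _ hPS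
    have h3 : Tendsto (fun y => co (nf W k y₀ y)) (𝓝[P] y₀) (𝓝 (co (fr W k y₀))) :=
      (continuous_co.tendsto _).comp
        ((tendsto_nf W hW (S := S) (fun y hy => hy) hy₀.1).mono_left hle)
    have h4 := hle (span_nf W hW (S := S) (fun y hy => hy) hy₀.1)
    have h5 : Tendsto (fun y => co (nf W k y₀ y)) (𝓝[P] y₀) (𝓝[T \ B] (co (fr W k y₀))) := by
      refine tendsto_nhdsWithin_iff.2 ⟨h3, ?_⟩
      filter_upwards [h4, self_mem_nhdsWithin] with y hy hyP
      exact (hkey y₀ hy₀ y hyP hy).1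
    have h6 : Tendsto (fun y => q (co (nf W k y₀ y))) (𝓝[P] y₀) (𝓝 (q (co (fr W k y₀)))) :=
      (hq1 _ hy₀.2).tendsto.comp h5
    refine h6.congr' ?_
    filter_upwards [h4, self_mem_nhdsWithin] with y hy hyP
    exact (hkey y₀ hy₀ y hyP hy).2
  · rintro y y' ⟨g, hg⟩
    by_cases hy : finrank ℝ (W y) = k
    · have hy' : finrank ℝ (W y') = k := by rw [hg, finrank_cjs, hy]
      have h1 : Submodule.span ℝ (Set.range (fr W k y')) =
          cjs (ρ g) (Submodule.span ℝ (Set.range (fr W k y))) := by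
        rw [span_fr W hy', span_fr W hy, hg]
      exact hq2 _ _ (ZC_of_span hgen h1) (ZC_of_span' hgen h1)
    · have hy' : finrank ℝ (W y') ≠ k := by rwa [hg, finrank_cjs]
      have h1 : fr W k y = 0 := by rw [fr, dif_neg hy]
      have h2 : fr W k y' = 0 := by rw [fr, dif_neg hy']
      change q (co (fr W k y)) = q (co (fr W k y'))
      rw [h1, h2]
  · intro x _ y₀ hy₀ N hN
    obtain ⟨hy₀P, hy₀q⟩ := hy₀
    obtain ⟨U, hU, hUN⟩ := hsm N hN
    have hU' : (fun M : Mt (IK k n) => (M.toBlocks₂₂ : MM n)) ⁻¹' U ∈ 𝓝 (0 : Mt (IK k n)) := by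
      have hc : Continuous fun M : Mt (IK k n) => (M.toBlocks₂₂ : MM n) := by
        refine continuous_matrix fun i j => ?_
        exact continuous_apply_apply _ _
      apply hc.continuousAt.preimage_mem_nhds
      exact hU
    have h1 := hq3 (co (fr W k y₀)) hy₀P.2 _ hU'
    set P' : Set X := {y | y ∈ P ∧ q (co (fr W k y)) = q (co (fr W k x))} with hP'
    have hle : 𝓝[P'] y₀ ≤ 𝓝[S] y₀ := nhdsWithin_mono _ fun y hy => hPS hy.1
    have h3 : Tendsto (fun y => co (nf W k y₀ y)) (𝓝[P'] y₀) (𝓝 (co (fr W k y₀))) :=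
      (continuous_co.tendsto _).comp
        ((tendsto_nf W hW (S := S) (fun y hy => hy) hy₀P.1).mono_left hle)
    have h4 := hle (span_nf W hW (S := S) (fun y hy => hy) hy₀P.1)
    filter_upwards [h4, h3.eventually h1, self_mem_nhdsWithin] with y hy hy1 hyP
    have h5 := hkey y₀ hy₀P y hyP.1 hy
    obtain ⟨A, hA, hAU, hAe⟩ := hy1 h5.1 (h5.2.trans (hyP.2.trans hy₀q.symm))
    obtain ⟨S', C, hC, rfl⟩ := hA
    have hCU : C ∈ U := by
      have h6 : (bd S' C).toBlocks₂₂ = C := by rw [bd, Matrix.toBlocks_fromBlocks₂₂]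
      rw [Set.mem_preimage, h6] at hAU
      exact hAU
    obtain ⟨g, hgN, hg⟩ := hUN C hCU hC
    refine ⟨g, hgN, ?_⟩
    rw [exp_bd, ← hg] at hAe
    have h6 := span_of_ac hAe
    rw [hy, span_fr W hy₀P.1] at h6
    apply Submodule.eq_of_le_of_finrank_eq h6
    rw [finrank_cjs, hy₀P.1, hyP.1.1]

lemma stratX_TX (hW : CF (Set.univ : Set X) W) (hgen : ∀ g : G, (ρ g : MM n) ∈ Gen L)
    (hsm : ∀ N ∈ 𝓝 (1 : G), ∃ U ∈ 𝓝 (0 : MM n),
    ∀ B ∈ U, B ∈ L → ∃ g ∈ N, (ρ g : MM n) = NormedSpace.exp B) {k : ℕ}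
    (hD : StratX ρ W {y : X | k + 1 ≤ finrank ℝ (W y)}) {T : Set (JK k n → ℝ)}
    (hT : Strat (LB (Fin k) L) (fk k n) T) : StratX ρ W (TX W k T) := by
  induction hT with
  | empty =>
    have h1 : TX W k ∅ = {y : X | k + 1 ≤ finrank ℝ (W y)} := by
      rw [TX]
      simp
    rw [h1]
    exact hD
  | step B T hB h1 h2 h3 h4 ih =>
    exact StratX.step (TX W k B) (TX W k T) ih (isClosed_TX W hW hgen h2 h1)
      (satX_TX W hgen h2) (TX_mono W h3) (layerX_TX W hW hgen hsm h2 hB.sat h4)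

/-- The whole space has a finite stratification. -/
theorem stratX_univ (hW : CF (Set.univ : Set X) W) (hgen : ∀ g : G, (ρ g : MM n) ∈ Gen L)
    (hsm : ∀ N ∈ 𝓝 (1 : G), ∃ U ∈ 𝓝 (0 : MM n),
    ∀ B ∈ U, B ∈ L → ∃ g ∈ N, (ρ g : MM n) = NormedSpace.exp B)
    (hconj : ∀ A ∈ L, ∀ B ∈ L, NormedSpace.exp (-B) * A * NormedSpace.exp B ∈ L)
    (hg : IsAlg L) :
    StratX ρ W (Set.univ : Set X) := by
  have h1 : ∀ j : ℕ, j ≤ n * n + 1 →
      StratX ρ W {y : X | n * n + 1 - j ≤ finrank ℝ (W y)} := by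
    intro j
    induction j with
    | zero =>
      intro _
      have h2 : {y : X | n * n + 1 - 0 ≤ finrank ℝ (W y)} = ∅ := by
        ext y
        simp only [Nat.sub_zero, Set.mem_ofPred_eq, Set.mem_empty_iff_false, iff_false, not_le]
        have h3 := Submodule.finrank_le (W y)
        have h4 : finrank ℝ (MM n) = n * n := by
          rw [Module.finrank_matrix, Fintype.card_fin, Module.finrank_self, mul_one]
        rw [h4] at h3
        omega
      rw [h2]
      exact StratX.empty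
    | succ j ih =>
      intro hj
      have h2 := ih (by omega)
      obtain ⟨k, hk⟩ : ∃ k, n * n + 1 - j = k + 1 := ⟨n * n + 1 - (j + 1), by omega⟩
      have hk' : n * n + 1 - (j + 1) = k := by omega
      rw [hk] at h2
      rw [hk']
      have h3 := stratX_TX W hW hgen hsm h2
        (strat_univ (isAlg_LB (I := Fin k) hg) (act_fk (k := k) hconj))
      have h4 : TX W k Set.univ = {y : X | k ≤ finrank ℝ (W y)} := by
        ext y
        simp only [TX, Set.mem_union, Set.mem_ofPred_eq, Set.mem_univ, and_true]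
        omega
      rwa [h4] at h3
  have h2 := h1 (n * n + 1) le_rfl
  have h3 : {y : X | n * n + 1 - (n * n + 1) ≤ finrank ℝ (W y)} = Set.univ := by
    ext y
    simp
  rwa [h3] at h2

/-- A stratification as a sequence. -/
theorem exists_seq {T : Set X} (hT : StratX ρ W T) : ∃ (m : ℕ) (F : ℕ → Set X), F 0 = ∅ ∧
    F m = T ∧ (∀ i, IsClosed (F i)) ∧ (∀ i, SatX ρ W (F i)) ∧ (∀ i, F i ⊆ F (i + 1)) ∧
    ∀ i < m, LayerX ρ W (F (i + 1) \ F i) := by
  induction hT with
  | empty =>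
    exact ⟨0, fun _ => ∅, rfl, rfl, fun _ => isClosed_empty,
      fun _ v v' hv _ => absurd hv (Set.notMem_empty v), fun _ => subset_rfl,
      fun i hi => absurd hi (Nat.not_lt_zero i)⟩
  | step B T hB h1 h2 h3 h4 ih =>
    obtain ⟨m, F, f0, fm, f1, f2, f3, f4⟩ := ih
    refine ⟨m + 1, fun i => if i ≤ m then F i else T, ?_, ?_, ?_, ?_, ?_, ?_⟩
    · simp only [Nat.zero_le, if_true]
      exact f0
    · simp
    · intro i
      by_cases hi : i ≤ m
      · simp only [if_pos hi]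
        exact f1 i
      · simp only [if_neg hi]
        exact h1
    · intro i
      by_cases hi : i ≤ m
      · simp only [if_pos hi]
        exact f2 i
      · simp only [if_neg hi]
        exact h2
    · intro i
      rcases lt_trichotomy i m with hi | hi | hi
      · simp only [if_pos hi.le, if_pos (Nat.succ_le_of_lt hi)]
        exact f3 i
      · subst hi
        have : ¬ (i + 1 ≤ i) := by omega
        simp only [le_refl, if_true, if_neg this]
        rw [fm]
        exact h3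
      · have h5 : ¬ (i ≤ m) := by omega
        have h6 : ¬ (i + 1 ≤ m) := by omega
        simp only [if_neg h5, if_neg h6]
        exact subset_rfl
    · intro i hi
      rcases Nat.lt_succ_iff_lt_or_eq.1 hi with hi | hi
      · simp only [if_pos hi.le, if_pos (Nat.succ_le_of_lt hi)]
        exact f4 i hi
      · subst hi
        have : ¬ (i + 1 ≤ i) := by omega
        simp only [le_refl, if_true, if_neg this]
        rw [fm]
        exact h4

end Pool.Agent.Lib.MP_aa9b81_an.Cv
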