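import Mathlib

/-!
A slowly varying proper continuous function on a second countable locally compact group.
-/

open Filter Topology Set
open scoped Pointwise

set_option linter.unusedSectionVars false

namespace Pool.MP_aa9b81_an

section Slow

variable {G : Type*} [Group G] [TopologicalSpace G] [IsTopologicalGroup G]
  [LocallyCompactSpace G] [SecondCountableTopology G] [T2Space G]

/-- One step of the exhaustion. -/
def stepSet (E V : Set G) (K : Set G) : Set G :=
  ((K ∪ (E ∪ V)) ∪ (K ∪ (E ∪ V))⁻¹) * ((K ∪ (E ∪ V)) ∪ (K ∪ (E ∪ V))⁻¹)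

/-- The exhaustion. -/
def exhSet (E : ℕ → Set G) (V : Set G) : ℕ → Set G
  | 0 => {1}
  | n + 1 => stepSet (E n) V (exhSet E V n)

theorem exists_exhaustion : ∃ K : ℕ → Set G, (∀ n, IsCompact (K n)) ∧
    (∀ n g, g ∈ K n → g⁻¹ ∈ K n) ∧ (∀ n g h, g ∈ K n → h ∈ K n → g * h ∈ K (n + 1)) ∧
    (∀ n, K n ⊆ interior (K (n + 1))) ∧ (∀ C, IsCompact C → ∃ n, C ⊆ K n) := by
  let E : CompactExhaustion G := CompactExhaustion.choice G
  obtain ⟨V, hV1, hV2⟩ := exists_compact_mem_nhds (1 : G)
  let K : ℕ → Set G := exhSet E V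
  have hKs : ∀ n, K (n + 1) = stepSet (E n) V (K n) := fun n => rfl
  have hcpt : ∀ n, IsCompact (K n) := by
    intro n
    induction n with
    | zero => exact isCompact_singleton
    | succ n ih =>
      rw [hKs]
      have h1 : IsCompact (K n ∪ (E n ∪ V)) := ih.union ((E.isCompact n).union hV1)
      have h2 := h1.union h1.inv
      exact h2.mul h2
  have hmul : ∀ n g h, g ∈ K n → h ∈ K n → g * h ∈ K (n + 1) := by
    intro n g h hg hh
    rw [hKs]
    exact mul_mem_mul (Or.inl (Or.inl hg)) (Or.inl (Or.inl hh))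
  have hV1' : (1 : G) ∈ V := mem_of_mem_nhds hV2
  have hint : ∀ n, K n ⊆ interior (K (n + 1)) := by
    intro n g hg
    rw [mem_interior]
    refine ⟨K n * interior V, ?_, isOpen_interior.mul_left, ?_⟩
    · rw [hKs]
      rintro _ ⟨a, ha, b, hb, rfl⟩
      exact mul_mem_mul (Or.inl (Or.inl ha)) (Or.inl (Or.inr (Or.inr (interior_subset hb))))
    · exact ⟨g, hg, 1, mem_interior_iff_mem_nhds.2 hV2, mul_one g⟩
  refine ⟨K, hcpt, ?_, hmul, hint, ?_⟩
  · intro n
    cases n with
    | zero =>
      intro g hg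
      have : g = 1 := hg
      subst this
      simpa using hg
    | succ n =>
      intro g hg
      rw [hKs] at hg ⊢
      obtain ⟨a, ha, b, hb, rfl⟩ := hg
      simp only [mul_inv_rev]
      refine mul_mem_mul ?_ ?_
      · rcases hb with hb | hb
        · exact Or.inr (by simpa using hb)
        · exact Or.inl (by simpa using hb)
      · rcases ha with ha | ha
        · exact Or.inr (by simpa using ha)
        · exact Or.inl (by simpa using ha)
  · intro C hC
    have hmono : Monotone K := monotone_nat_of_le_succ fun n => (hint n).trans interior_subset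
    obtain ⟨n, hn⟩ := E.exists_superset_of_isCompact hC
    refine ⟨n + 1, fun g hg => ?_⟩
    rw [hKs]
    have := mul_mem_mul (s := ((K n ∪ (E n ∪ V)) ∪ (K n ∪ (E n ∪ V))⁻¹))
      (t := ((K n ∪ (E n ∪ V)) ∪ (K n ∪ (E n ∪ V))⁻¹))
      (Or.inl (Or.inr (Or.inl (hn hg)))) (Or.inl (Or.inr (Or.inr hV1')))
    rw [mul_one] at this
    exact this

theorem exists_coarse : ∃ (K : ℕ → Set G) (s : G → ℝ), Continuous s ∧ (∀ g, 0 ≤ s g) ∧
    (∀ n, IsCompact (K n)) ∧ (∀ n g, g ∈ K n → g⁻¹ ∈ K n) ∧
    (∀ n g h, g ∈ K n → h ∈ K n → g * h ∈ K (n + 1)) ∧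
    (∀ n, K n ⊆ interior (K (n + 1))) ∧ (∀ C, IsCompact C → ∃ n, C ⊆ K n) ∧
    (∀ n g, g ∈ K n → s g ≤ n) ∧ (∀ n g, g ∉ K n → (n : ℝ) ≤ s g) := by
  obtain ⟨K, h1, h2, h3, h4, h5⟩ := exists_exhaustion (G := G)
  have hmono : Monotone K := monotone_nat_of_le_succ fun n => (h4 n).trans interior_subset
  have hU : ∀ n, ∃ f : C(G, ℝ), EqOn f 0 (K n) ∧ EqOn f 1 (interior (K (n + 1)))ᶜ ∧
      ∀ x, f x ∈ Icc (0 : ℝ) 1 := fun n =>
    exists_continuous_zero_one_of_isCompact (h1 n) isOpen_interior.isClosed_compl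
      (disjoint_compl_right.mono_left (h4 n))
  choose f hf0 hf1 hf using hU
  have hcov : ∀ g : G, ∃ n, g ∈ K n := by
    intro g
    obtain ⟨n, hn⟩ := h5 {g} isCompact_singleton
    exact ⟨n, hn rfl⟩
  have hsum : ∀ a g, g ∈ K a → (∑' n, f n g) = ∑ n ∈ Finset.range a, f n g := by
    intro a g hg
    apply tsum_eq_sum
    intro n hn
    rw [Finset.mem_range, not_lt] at hn
    exact hf0 n (hmono hn hg)
  have hsummable : ∀ g, Summable fun n => f n g := by
    intro g
    obtain ⟨a, ha⟩ := hcov g
    apply summable_of_ne_finset_zero (s := Finset.range a)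
    intro n hn
    rw [Finset.mem_range, not_lt] at hn
    exact hf0 n (hmono hn ha)
  refine ⟨K, fun g => ∑' n, f n g, ?_, ?_, h1, h2, h3, h4, h5, ?_, ?_⟩
  · rw [continuous_iff_continuousAt]
    intro g
    obtain ⟨a, ha⟩ := hcov g
    have hc : Continuous fun g => ∑ n ∈ Finset.range (a + 1), f n g :=
      continuous_finsetSum _ fun n _ => (f n).continuous
    refine hc.continuousAt.congr ?_
    filter_upwards [isOpen_interior.mem_nhds (h4 a ha)] with x hx
    exact (hsum _ x (interior_subset hx)).symm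
  · intro g
    exact tsum_nonneg fun n => (hf n g).1
  · intro a g hg
    show (∑' n, f n g) ≤ a
    rw [hsum a g hg]
    calc _ ≤ ∑ n ∈ Finset.range a, (1 : ℝ) := Finset.sum_le_sum fun n _ => (hf n g).2
      _ = a := by simp
  · intro b g hg
    show (b : ℝ) ≤ ∑' n, f n g
    calc (b : ℝ) = ∑ n ∈ Finset.range b, (1 : ℝ) := by simp
      _ = ∑ n ∈ Finset.range b, f n g := by
        apply Finset.sum_congr rfl
        intro n hn
        have : g ∈ (interior (K (n + 1)))ᶜ := by
          intro h
          exact hg (hmono (by rw [Finset.mem_range] at hn; omega) (interior_subset h))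
        exact (hf1 n this).symm
      _ ≤ _ := (hsummable g).sum_le_tsum _ fun n _ => (hf n g).1

/-- A slowly varying proper function. -/
theorem exists_slow : ∃ s : G → ℝ, Continuous s ∧ (∀ g, 0 ≤ s g) ∧
    Tendsto s (cocompact G) atTop ∧
    ∀ C : Set G, IsCompact C → ∀ ε > 0, ∀ᶠ g in cocompact G, ∀ h ∈ C, |s (h * g) - s g| < ε := by
  obtain ⟨K, s, hs, hs0, h1, h2, h3, h4, h5, h6, h7⟩ := exists_coarse (G := G)
  have hmono : Monotone K := monotone_nat_of_le_succ fun n => (h4 n).trans interior_subset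
  have hcov : ∀ g : G, ∃ n, g ∈ K n := by
    intro g
    obtain ⟨n, hn⟩ := h5 {g} isCompact_singleton
    exact ⟨n, hn rfl⟩
  have hev : ∀ n : ℕ, ∀ᶠ g in cocompact G, (n : ℝ) ≤ s g := by
    intro n
    filter_upwards [(h1 n).compl_mem_cocompact] with g hg
    exact h7 n g hg
  refine ⟨fun g => Real.log (1 + s g), ?_, ?_, ?_, ?_⟩
  · exact Continuous.log (by fun_prop) fun g => by have := hs0 g; positivity
  · intro g
    exact Real.log_nonneg (by linarith [hs0 g])
  · apply Real.tendsto_log_atTop.comp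
    rw [tendsto_atTop]
    intro b
    obtain ⟨n, hn⟩ := exists_nat_ge b
    filter_upwards [hev n] with g hg
    linarith
  · intro C hC ε hε
    obtain ⟨c, hc⟩ := h5 C hC
    obtain ⟨n, hn⟩ := exists_nat_gt (3 / ε + 3)
    filter_upwards [hev (n + c + 3)] with g hg h hh
    -- the level of g
    classical
    let a := Nat.find (hcov g)
    have ha : g ∈ K a := Nat.find_spec (hcov g)
    have ha' : ∀ m, m < a → g ∉ K m := fun m hm => Nat.find_min (hcov g) hm
    have hsa : s g ≤ a := h6 a g ha
    have hca : n + c + 3 ≤ a := by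
      have : ((n + c + 3 : ℕ) : ℝ) ≤ a := hg.trans hsa
      exact_mod_cast this
    have hsa' : (a : ℝ) - 1 ≤ s g := by
      have := h7 (a - 1) g (ha' _ (by omega))
      rw [Nat.cast_sub (by omega)] at this
      simpa using this
    have hu : s (h * g) ≤ a + 1 := by
      have := h6 (a + 1) (h * g) (h3 a h g (hmono (by omega) (hc hh)) ha)
      simpa using this
    have hl : (a : ℝ) - 2 ≤ s (h * g) := by
      have : h * g ∉ K (a - 2) := by
        intro hk
        have h8 := h3 (a - 2) h⁻¹ (h * g) (h2 _ _ (hmono (by omega) (hc hh))) hk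
        rw [inv_mul_cancel_left] at h8
        exact ha' (a - 2 + 1) (by omega) h8
      have := h7 (a - 2) _ this
      rw [Nat.cast_sub (by omega)] at this
      simpa using this
    have hna : (n : ℝ) + 3 ≤ a := by
      have : n + 3 ≤ a := by omega
      exact_mod_cast this
    have h3n : 3 / ε + 3 < n := hn
    have hpos : 0 < 3 / ε := by positivity
    -- log estimate
    have key : ∀ u v : ℝ, 0 < u → 0 < v → |Real.log u - Real.log v| ≤ |u - v| / min u v := by
      intro u v hu hv
      have aux : ∀ u v : ℝ, 0 < u → u ≤ v → Real.log v - Real.log u ≤ (v - u) / u := by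
        intro u v hu huv
        have hv : 0 < v := lt_of_lt_of_le hu huv
        rw [← Real.log_div hv.ne' hu.ne']
        have := Real.log_le_sub_one_of_pos (div_pos hv hu)
        calc _ ≤ v / u - 1 := this
          _ = (v - u) / u := by field_simp
      rcases le_total u v with huv | huv
      · rw [min_eq_left huv, abs_sub_comm, abs_of_nonneg, abs_sub_comm, abs_of_nonneg]
        · exact aux u v hu huv
        · linarith
        · exact sub_nonneg.2 (Real.log_le_log hu huv)
      · rw [min_eq_right huv, abs_of_nonneg, abs_of_nonneg]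
        · exact aux v u hv huv
        · linarith
        · exact sub_nonneg.2 (Real.log_le_log hv huv)
    have hpa : 0 < 1 + s (h * g) := by linarith [hs0 (h * g)]
    have hpb : 0 < 1 + s g := by linarith [hs0 g]
    refine lt_of_le_of_lt (key _ _ hpa hpb) ?_
    have hmin : 3 / ε < min (1 + s (h * g)) (1 + s g) := by
      rw [lt_min_iff]
      constructor <;> linarith
    have hmp : 0 < min (1 + s (h * g)) (1 + s g) := lt_min hpa hpb
    rw [div_lt_iff₀ hmp]
    have habs : |1 + s (h * g) - (1 + s g)| ≤ 3 := by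
      rw [abs_le]; constructor <;> linarith
    have : 3 < ε * min (1 + s (h * g)) (1 + s g) := by
      rw [div_lt_iff₀ hε] at hmin
      linarith
    linarith

omit [IsTopologicalGroup G] [LocallyCompactSpace G] [SecondCountableTopology G] [T2Space G] in
theorem exists_slow_eq [ConnectedSpace G] [NoncompactSpace G] {s : G → ℝ} (hs : Continuous s)
    (ht : Tendsto s (cocompact G) atTop) {y : ℝ} (hy : s 1 ≤ y) : ∃ g, s g = y := by
  have hpre : IsPreconnected (range s) := isPreconnected_range hs
  obtain ⟨g, hg⟩ := (ht.eventually (eventually_ge_atTop y)).exists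
  have := hpre.ordConnected.out ⟨1, rfl⟩ ⟨g, rfl⟩ ⟨hy, hg⟩
  exact this

end Slow

end Pool.MP_aa9b81_an
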