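import Pool.Agent.Lib.MP_aa9b81_an.CptOne
import Pool.Agent.Lib.MP_aa9b81_an.CptSlow

/-!
The map from the group to the one point compactification of `X × ℝ`.
-/

open Filter Topology Set OnePoint

set_option linter.unusedSectionVars false

namespace Pool.MP_aa9b81_an

/-- The cosine controlling the distance to the integers. -/
noncomputable def cc (u : ℝ) : ℝ := Real.cos (Real.pi * (u - 1 / 2))

/-- The reparametrization of the open unit intervals. -/
noncomputable def tt (u : ℝ) : ℝ := Real.tan (Real.pi * (u - 1 / 2))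

theorem continuous_cc : Continuous cc := by
  unfold cc
  fun_prop

theorem cc_lip (u v : ℝ) : |cc u - cc v| ≤ Real.pi * |u - v| := by
  unfold cc
  have h1 : ∀ a b : ℝ, |Real.cos a - Real.cos b| ≤ |a - b| := by
    intro a b
    have := Real.abs_cos_sub_cos_le a b
    exact this
  refine (h1 _ _).trans (le_of_eq ?_)
  rw [show Real.pi * (u - 1 / 2) - Real.pi * (v - 1 / 2) = Real.pi * (u - v) by ring, abs_mul,
    abs_of_pos Real.pi_pos]

theorem cc_int (k : ℤ) : cc k = 0 := by
  unfold cc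
  rw [Real.cos_eq_zero_iff]
  refine ⟨k - 1, ?_⟩
  push_cast
  ring

theorem cc_mem (u : ℝ) : cc u ∈ Icc (-1 : ℝ) 1 := ⟨Real.neg_one_le_cos _, Real.cos_le_one _⟩

theorem tt_sq {u : ℝ} (h : cc u ≠ 0) : (1 + tt u ^ 2) * cc u ^ 2 = 1 := by
  unfold tt cc at *
  rw [Real.tan_eq_sin_div_cos]
  have := Real.sin_sq_add_cos_sq (Real.pi * (u - 1 / 2))
  generalize Real.sin (Real.pi * (u - 1 / 2)) = a at *
  generalize Real.cos (Real.pi * (u - 1 / 2)) = b at *
  field_simp
  linarith

theorem tt_sub {u v : ℝ} (hu : cc u ≠ 0) (hv : cc v ≠ 0) :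
    tt u - tt v = Real.sin (Real.pi * (u - v)) / (cc u * cc v) := by
  unfold tt cc at *
  rw [Real.tan_eq_sin_div_cos, Real.tan_eq_sin_div_cos,
    show Real.pi * (u - v) = Real.pi * (u - 1 / 2) - Real.pi * (v - 1 / 2) by ring, Real.sin_sub]
  generalize Real.pi * (u - 1 / 2) = a at *
  generalize Real.pi * (v - 1 / 2) = b at *
  field_simp

theorem floor_eq_of_close {u v δ : ℝ} (hu : δ ≤ |cc u|) (h : Real.pi * |u - v| < δ) :
    ⌊u⌋ = ⌊v⌋ := by
  have aux : ∀ k : ℤ, ∀ a b : ℝ, a < k → (k : ℝ) ≤ b → (u = a ∧ v = b ∨ u = b ∧ v = a) → False := by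
    intro k a b hak hkb hab
    have h1 : |u - k| ≤ |u - v| := by
      rcases hab with ⟨rfl, rfl⟩ | ⟨rfl, rfl⟩
      · rw [abs_sub_comm, abs_of_pos (by linarith), abs_sub_comm, abs_of_pos (by linarith)]
        linarith
      · rw [abs_of_nonneg (by linarith), abs_of_nonneg (by linarith)]
        linarith
    have h2 := cc_lip u k
    rw [cc_int, sub_zero] at h2
    have h3 : Real.pi * |u - k| ≤ Real.pi * |u - v| :=
      mul_le_mul_of_nonneg_left h1 Real.pi_pos.le
    linarith
  rcases lt_trichotomy ⌊u⌋ ⌊v⌋ with hlt | heq | hgt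
  · exfalso
    exact aux ⌊v⌋ u v (Int.floor_lt.1 hlt) (Int.floor_le v) (Or.inl ⟨rfl, rfl⟩)
  · exact heq
  · exfalso
    exact aux ⌊u⌋ v u (Int.floor_lt.1 hgt) (Int.floor_le u) (Or.inr ⟨rfl, rfl⟩)

theorem tt_surj (n : ℕ) (t : ℝ) : ∃ u : ℝ, (n : ℝ) < u ∧ u < n + 1 ∧ cc u ≠ 0 ∧ tt u = t ∧
    ⌊u⌋₊ = n := by
  have hpi := Real.pi_pos
  have h1 := Real.neg_pi_div_two_lt_arctan t
  have h2 := Real.arctan_lt_pi_div_two t
  have h3 : -(1 / 2) < Real.arctan t / Real.pi := by
    rw [lt_div_iff₀ hpi]; linarith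
  have h4 : Real.arctan t / Real.pi < 1 / 2 := by
    rw [div_lt_iff₀ hpi]; linarith
  have h5 : Real.pi * (n + 1 / 2 + Real.arctan t / Real.pi - 1 / 2) =
      Real.arctan t + n * Real.pi := by
    field_simp; ring
  refine ⟨n + 1 / 2 + Real.arctan t / Real.pi, by linarith, by linarith, ?_, ?_, ?_⟩
  · unfold cc
    rw [h5, Real.cos_add_nat_mul_pi]
    have := (Real.cos_arctan_pos t).ne'
    positivity
  · unfold tt
    rw [h5, Real.tan_add_nat_mul_pi, Real.tan_arctan]
  · have hn : (0 : ℝ) ≤ n := Nat.cast_nonneg n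
    rw [Nat.floor_eq_iff (by linarith)]
    constructor <;> linarith

section F

variable {G X : Type*} [Group G] [TopologicalSpace G] [TopologicalSpace X] [MulAction G X]

open Classical in
/-- The map to the one point compactification of `X × ℝ`. -/
noncomputable def FF (s : G → ℝ) (x : ℕ → X) (g : G) : OnePoint (X × ℝ) :=
  if cc (s g) = 0 then ∞ else ((g • x ⌊s g⌋₊, tt (s g)) : X × ℝ)

/-- The extended action. -/
def ea (g : G) (w : OnePoint (X × ℝ)) : OnePoint (X × ℝ) :=
  OnePoint.map (fun z => (g • z.1, z.2)) w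

/-- The extended action of the product with the line. -/
def ea2 (p : G × ℝ) (w : OnePoint (X × ℝ)) : OnePoint (X × ℝ) :=
  OnePoint.map (fun z => (p.1 • z.1, z.2 + p.2)) w

theorem ea_eq (g : G) (w : OnePoint (X × ℝ)) : ea g w = ea2 (g, 0) w := by
  simp [ea, ea2]

theorem FF_zero {s : G → ℝ} {x : ℕ → X} {g : G} (h : cc (s g) = 0) : FF s x g = ∞ := by
  rw [FF, if_pos h]

theorem FF_ne {s : G → ℝ} {x : ℕ → X} {g : G} (h : cc (s g) ≠ 0) :
    FF s x g = ((g • x ⌊s g⌋₊, tt (s g)) : X × ℝ) := by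
  rw [FF, if_neg h]

theorem ea_one (w : OnePoint (X × ℝ)) : ea (1 : G) w = w := by
  induction w using OnePoint.rec with
  | infty => rfl
  | coe z => simp [ea]

theorem ea_mul (g h : G) (w : OnePoint (X × ℝ)) : ea (g * h) w = ea g (ea h w) := by
  induction w using OnePoint.rec with
  | infty => rfl
  | coe z => simp [ea, mul_smul]

theorem continuous_ea2 [LocallyCompactSpace G] [T2Space X] [ContinuousSMul G X]
    [IsTopologicalGroup G] :
    Continuous (fun q : (G × ℝ) × OnePoint (X × ℝ) => ea2 q.1 q.2) := by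
  refine continuous_extend (P := G × ℝ) (Z := X × ℝ)
    (fun q => (q.1.1 • q.2.1, q.2.2 + q.1.2)) (fun q => (q.1.1⁻¹ • q.2.1, q.2.2 - q.1.2)) ?_ ?_ ?_
  · fun_prop
  · fun_prop
  · intro p z
    simp

theorem continuous_ea [LocallyCompactSpace G] [T2Space X] [ContinuousSMul G X]
    [IsTopologicalGroup G] :
    Continuous (fun q : G × OnePoint (X × ℝ) => ea q.1 q.2) := by
  have h1 : Continuous fun q : G × OnePoint (X × ℝ) => (((q.1, 0), q.2) : (G × ℝ) × OnePoint (X × ℝ)) := by
    fun_prop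
  have h2 := continuous_ea2 (G := G) (X := X).comp h1
  refine h2.congr ?_
  intro q
  exact (ea_eq q.1 q.2).symm

theorem FF_tendsto_infty {s : G → ℝ} {x : ℕ → X} {α : Type*} {l : Filter α} {f : α → G}
    (h : Tendsto (fun a => cc (s (f a))) l (𝓝 0)) :
    Tendsto (fun a => FF s x (f a)) l (𝓝 ∞) := by
  rw [(OnePoint.hasBasis_nhds_infty (X := X × ℝ)).tendsto_right_iff]
  rintro K ⟨-, hK⟩
  obtain ⟨M, hM⟩ := hK.exists_bound_of_continuousOn (f := fun z : X × ℝ => z.2)
    continuous_snd.continuousOn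
  have h1 : Tendsto (fun a => (1 + M ^ 2) * cc (s (f a)) ^ 2) l (𝓝 ((1 + M ^ 2) * 0 ^ 2)) :=
    (h.pow 2).const_mul _
  have h2 : (1 + M ^ 2) * (0 : ℝ) ^ 2 < 1 := by norm_num
  filter_upwards [h1.eventually (gt_mem_nhds h2)] with a ha
  by_cases hc : cc (s (f a)) = 0
  · rw [FF_zero hc]; right; rfl
  · rw [FF_ne hc]
    left
    refine ⟨_, ?_, rfl⟩
    intro hk
    have h3 := hM _ hk
    have h4 := tt_sq hc
    simp only [Real.norm_eq_abs] at h3
    have h5 : tt (s (f a)) ^ 2 ≤ M ^ 2 := by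
      rw [← sq_abs]
      exact pow_le_pow_left₀ (abs_nonneg _) h3 2
    nlinarith [sq_nonneg (cc (s (f a)))]

theorem continuous_FF [ContinuousSMul G X] {s : G → ℝ} (hs : Continuous s) (x : ℕ → X) :
    Continuous (FF s x) := by
  rw [continuous_iff_continuousAt]
  intro g
  have hcs : Continuous fun g => cc (s g) := continuous_cc.comp hs
  by_cases hc : cc (s g) = 0
  · rw [ContinuousAt, FF_zero hc]
    apply FF_tendsto_infty (f := fun g => g)
    have := hcs.tendsto g
    rwa [hc] at this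
  · have hpos : 0 < |cc (s g)| := abs_pos.2 hc
    have e1 : ∀ᶠ g' in 𝓝 g, Real.pi * |s g - s g'| < |cc (s g)| := by
      have : Tendsto (fun g' => Real.pi * |s g - s g'|) (𝓝 g) (𝓝 (Real.pi * |s g - s g|)) := by
        apply Continuous.tendsto
        fun_prop
      rw [sub_self, abs_zero, mul_zero] at this
      exact this.eventually (gt_mem_nhds hpos)
    have e2 : ∀ᶠ g' in 𝓝 g, cc (s g') ≠ 0 := hcs.continuousAt.eventually_ne hc
    have e3 : FF s x =ᶠ[𝓝 g] fun g' => ((g' • x ⌊s g⌋₊, tt (s g')) : X × ℝ) := by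
      filter_upwards [e1, e2] with g' h1 h2
      rw [FF_ne h2]
      have := floor_eq_of_close le_rfl h1
      have h3 : ⌊s g⌋₊ = ⌊s g'⌋₊ := by
        rw [← Int.floor_toNat, ← Int.floor_toNat, this]
      rw [h3]
    refine ContinuousAt.congr ?_ e3.symm
    apply OnePoint.continuous_coe.continuousAt.comp
    apply ContinuousAt.prodMk
    · fun_prop
    · unfold tt
      apply ContinuousAt.comp (g := Real.tan)
      · exact Real.continuousAt_tan.2 hc
      · fun_prop

theorem FF_asym [LocallyCompactSpace G] [IsTopologicalGroup G] [T2Space X]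
    [LocallyCompactSpace X] [ContinuousSMul G X] {s : G → ℝ}
    (hslow : ∀ C : Set G, IsCompact C → ∀ ε > 0, ∀ᶠ g in cocompact G, ∀ h ∈ C,
      |s (h * g) - s g| < ε) (x : ℕ → X) (h₀ : G) (w : OnePoint (X × ℝ)) :
    Tendsto (fun p : G × G => FF s x (p.1 * p.2))
      ((𝓝 h₀ ×ˢ cocompact G) ⊓ comap (fun p => FF s x p.2) (𝓝 w)) (𝓝 (ea h₀ w)) := by
  rw [tendsto_iff_ultrafilter]
  intro U hU
  have hU1 : (U : Filter (G × G)) ≤ 𝓝 h₀ ×ˢ cocompact G := hU.trans inf_le_left
  have hU2 : Tendsto (fun p : G × G => FF s x p.2) U (𝓝 w) :=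
    tendsto_iff_comap.2 (hU.trans inf_le_right)
  have hU3 : Tendsto (fun p : G × G => p.1) U (𝓝 h₀) := tendsto_fst.mono_left hU1
  have hd : Tendsto (fun p : G × G => s (p.1 * p.2) - s p.2) U (𝓝 0) := by
    obtain ⟨C, hC1, hC2⟩ := exists_compact_mem_nhds h₀
    rw [Metric.tendsto_nhds]
    intro ε hε
    apply hU1
    have := prod_mem_prod hC2 (hslow C hC1 ε hε)
    filter_upwards [this] with p hp
    rw [Real.dist_eq, sub_zero]
    exact hp.2 p.1 hp.1
  obtain ⟨c, -, hc⟩ := isCompact_Icc.ultrafilter_le_nhds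
    (U.map fun p : G × G => cc (s p.2)) (by
      rw [le_principal_iff]
      exact Filter.univ_mem' (f := (U : Filter (G × G))) fun p => cc_mem (s p.2))
  have hc : Tendsto (fun p : G × G => cc (s p.2)) U (𝓝 c) := hc
  have hc' : Tendsto (fun p : G × G => cc (s (p.1 * p.2))) U (𝓝 c) := by
    have h1 : Tendsto (fun p : G × G => cc (s (p.1 * p.2)) - cc (s p.2)) U (𝓝 0) := by
      rw [tendsto_zero_iff_abs_tendsto_zero]
      refine squeeze_zero (fun _ => abs_nonneg _) (fun p => cc_lip _ _) ?_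
      have := (hd.abs).const_mul Real.pi
      simpa using this
    have := h1.add hc
    simpa using this
  by_cases hc0 : c = 0
  · subst hc0
    have h1 : Tendsto (fun p : G × G => FF s x p.2) U (𝓝 ∞) :=
      FF_tendsto_infty (f := fun p : G × G => p.2) hc
    have h2 : w = ∞ := tendsto_nhds_unique hU2 h1
    subst h2
    exact FF_tendsto_infty (f := fun p : G × G => p.1 * p.2) hc'
  · have hpos : 0 < |c| := abs_pos.2 hc0
    have e1 : ∀ᶠ p : G × G in U, |c| / 2 < |cc (s p.2)| :=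
      (hc.abs).eventually (lt_mem_nhds (half_lt_self hpos))
    have e2 : ∀ᶠ p : G × G in U, cc (s (p.1 * p.2)) ≠ 0 := hc'.eventually_ne hc0
    have e3 : ∀ᶠ p : G × G in U, Real.pi * |s (p.1 * p.2) - s p.2| < |c| / 2 := by
      have := (hd.abs).const_mul Real.pi
      simp only [abs_zero, mul_zero] at this
      exact this.eventually (gt_mem_nhds (half_pos hpos))
    have e4 : (fun p : G × G => FF s x (p.1 * p.2)) =ᶠ[U]
        fun p => ea2 (p.1, tt (s (p.1 * p.2)) - tt (s p.2)) (FF s x p.2) := by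
      filter_upwards [e1, e2, e3] with p h1 h2 h3
      have h4 : cc (s p.2) ≠ 0 := by
        rw [← abs_pos]
        linarith
      rw [FF_ne h2, FF_ne h4]
      have h5 := floor_eq_of_close h1.le (by rwa [abs_sub_comm] at h3)
      have h6 : ⌊s p.2⌋₊ = ⌊s (p.1 * p.2)⌋₊ := by
        rw [← Int.floor_toNat, ← Int.floor_toNat, h5]
      simp [ea2, h6, mul_smul]
    refine Tendsto.congr' e4.symm ?_
    have h7 : Tendsto (fun p : G × G => tt (s (p.1 * p.2)) - tt (s p.2)) U (𝓝 0) := by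
      have e5 : (fun p : G × G => Real.sin (Real.pi * (s (p.1 * p.2) - s p.2)) /
          (cc (s (p.1 * p.2)) * cc (s p.2))) =ᶠ[U]
          fun p : G × G => tt (s (p.1 * p.2)) - tt (s p.2) := by
        filter_upwards [e1, e2] with p h1 h2
        have h4 : cc (s p.2) ≠ 0 := by
          rw [← abs_pos]
          linarith
        rw [tt_sub h2 h4]
      refine Tendsto.congr' e5 ?_
      have h8 : Tendsto (fun p : G × G => Real.sin (Real.pi * (s (p.1 * p.2) - s p.2))) U
          (𝓝 (Real.sin (Real.pi * 0))) :=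
        (Real.continuous_sin.tendsto _).comp (hd.const_mul Real.pi)
      have := h8.div (hc'.mul hc) (mul_ne_zero hc0 hc0)
      rw [mul_zero, Real.sin_zero, zero_div] at this
      exact this
    have h9 : Tendsto (fun p : G × G => (((p.1, tt (s (p.1 * p.2)) - tt (s p.2)), FF s x p.2) :
        (G × ℝ) × OnePoint (X × ℝ))) U (𝓝 ((h₀, 0), w)) :=
      (hU3.prodMk_nhds h7).prodMk_nhds hU2
    have := (continuous_ea2 (G := G) (X := X)).continuousAt.tendsto.comp h9
    rw [ea_eq]
    exact this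

end F

end Pool.MP_aa9b81_an
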