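import Mathlib

/-!
Extending families of homeomorphisms to one point compactifications, and second countability of
the one point compactification.
-/

open Filter Topology Set OnePoint

namespace Pool.MP_aa9b81_an

section Ext

variable {P Z : Type*} [TopologicalSpace P] [TopologicalSpace Z]

/-- A jointly continuous family of maps with a jointly continuous family of left inverses extends
to the one point compactification. -/
theorem continuous_extend [LocallyCompactSpace P] [T2Space Z]
    (Φ Ψ : P × Z → Z) (hΦ : Continuous Φ) (hΨ : Continuous Ψ)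
    (h : ∀ p z, Ψ (p, Φ (p, z)) = z) :
    Continuous (fun q : P × OnePoint Z => OnePoint.map (fun z => Φ (q.1, z)) q.2) := by
  rw [continuous_iff_continuousAt]
  rintro ⟨p, w⟩
  induction w using OnePoint.rec with
  | coe z =>
    have he : IsOpenEmbedding (fun q : P × Z => (q.1, (q.2 : OnePoint Z))) :=
      (IsOpenEmbedding.id (X := P)).prodMap OnePoint.isOpenEmbedding_coe
    have := he.continuousAt_iff (x := (p, z))
      (g := fun q : P × OnePoint Z => OnePoint.map (fun z => Φ (q.1, z)) q.2)
    refine this.1 ?_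
    have h2 : ((fun q : P × OnePoint Z => OnePoint.map (fun z => Φ (q.1, z)) q.2) ∘
        (fun q : P × Z => (q.1, (q.2 : OnePoint Z)))) = fun q => ((Φ q : Z) : OnePoint Z) := by
      funext q; rfl
    rw [h2]
    exact (OnePoint.continuous_coe.comp hΦ).continuousAt
  | infty =>
    rw [ContinuousAt, OnePoint.map_infty]
    rw [(OnePoint.hasBasis_nhds_infty (X := Z)).tendsto_right_iff]
    rintro K ⟨hK1, hK2⟩
    obtain ⟨C, hC1, hC2⟩ := exists_compact_mem_nhds p
    have hK' : IsCompact (Ψ '' (C ×ˢ K)) := (hC1.prod hK2).image hΨ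
    have hN : ((↑) '' (Ψ '' (C ×ˢ K)) : Set (OnePoint Z))ᶜ ∈ 𝓝 (∞ : OnePoint Z) := by
      rw [(OnePoint.hasBasis_nhds_infty (X := Z)).mem_iff]
      refine ⟨Ψ '' (C ×ˢ K), ⟨hK'.isClosed, hK'⟩, ?_⟩
      intro w hw
      rcases hw with hw | hw
      · rintro ⟨z, hz, hzw⟩
        obtain ⟨z', hz', hzw'⟩ := hw
        have : z = z' := by
          rw [← OnePoint.coe_eq_coe, hzw, hzw']
        exact hz' (this ▸ hz)
      · rintro ⟨z, hz, hzw⟩
        rw [mem_singleton_iff.1 hw] at hzw
        exact OnePoint.coe_ne_infty _ hzw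
    filter_upwards [prod_mem_nhds hC2 hN] with q hq
    obtain ⟨q1, q2⟩ := q
    induction q2 using OnePoint.rec with
    | infty => right; rfl
    | coe z =>
      left
      refine ⟨Φ (q1, z), ?_, rfl⟩
      intro hz
      apply hq.2
      exact ⟨z, ⟨(q1, Φ (q1, z)), ⟨hq.1, hz⟩, h q1 z⟩, rfl⟩

end Ext

section SC

variable {Z : Type*} [TopologicalSpace Z]

theorem secondCountable_onePoint [T2Space Z] [LocallyCompactSpace Z]
    [SecondCountableTopology Z] : SecondCountableTopology (OnePoint Z) := by
  obtain ⟨B, hB1, -, hB2⟩ := TopologicalSpace.exists_countable_basis Z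
  let K : CompactExhaustion Z := CompactExhaustion.choice Z
  let S : Set (Set (OnePoint Z)) := ((fun b => (↑) '' b) '' B) ∪
    (range fun n => ((↑) '' (K n) : Set (OnePoint Z))ᶜ)
  have hS : TopologicalSpace.IsTopologicalBasis S := by
    apply TopologicalSpace.isTopologicalBasis_of_isOpen_of_nhds
    · rintro u (⟨b, hb, rfl⟩ | ⟨n, rfl⟩)
      · exact OnePoint.isOpen_image_coe.2 (hB2.isOpen hb)
      · exact OnePoint.isOpen_compl_image_coe.2 ⟨(K.isCompact n).isClosed, K.isCompact n⟩
    · intro a u ha hu
      induction a using OnePoint.rec with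
      | coe z =>
        have h1 : IsOpen ((↑) ⁻¹' u : Set Z) := hu.preimage OnePoint.continuous_coe
        obtain ⟨b, hb, hzb, hbu⟩ := hB2.exists_subset_of_mem_open (show z ∈ _ from ha) h1
        exact ⟨_, Or.inl ⟨b, hb, rfl⟩, ⟨z, hzb, rfl⟩, image_subset_iff.2 hbu⟩
      | infty =>
        obtain ⟨h1, h2⟩ := (OnePoint.isOpen_iff_of_mem ha).1 hu
        obtain ⟨n, hn⟩ := K.exists_superset_of_isCompact h2
        refine ⟨_, Or.inr ⟨n, rfl⟩, ?_, ?_⟩
        · rintro ⟨z, -, hz⟩
          exact OnePoint.coe_ne_infty _ hz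
        · intro w hw
          induction w using OnePoint.rec with
          | infty => exact ha
          | coe z =>
            by_contra hz
            exact hw ⟨z, hn hz, rfl⟩
  refine hS.secondCountableTopology ?_
  exact (hB1.image _).union (countable_range _)

end SC

end Pool.MP_aa9b81_an
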