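import Pool.Agent.Lib.MP_aa9b81_an.CptF

/-!
The compactification.
-/

open Filter Topology Set OnePoint

set_option linter.unusedSectionVars false

namespace Pool.MP_aa9b81_an

section Y

variable {G X : Type*} [Group G] [TopologicalSpace G] [IsTopologicalGroup G] [T2Space G]
  [LocallyCompactSpace G] [TopologicalSpace X] [T2Space X] [LocallyCompactSpace X]
  [MulAction G X] [ContinuousSMul G X]

/-- The underlying set of the compactification. -/
def YY (s : G → ℝ) (x : ℕ → X) : Set (OnePoint G × OnePoint (X × ℝ)) :=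
  {p | p.1 = ∞ ∨ ∃ g : G, p = ((g : OnePoint G), FF s x g)}

theorem isClosed_YY {s : G → ℝ} (hs : Continuous s) (x : ℕ → X) : IsClosed (YY s x) := by
  rw [← isOpen_compl_iff]
  have h1 : IsOpen {q : G × OnePoint (X × ℝ) | q.2 ≠ FF s x q.1} :=
    isOpen_ne_fun continuous_snd ((continuous_FF hs x).comp continuous_fst)
  have he : IsOpenEmbedding (fun q : G × OnePoint (X × ℝ) => ((q.1 : OnePoint G), q.2)) :=
    OnePoint.isOpenEmbedding_coe.prodMap IsOpenEmbedding.id
  have h2 := he.isOpenMap _ h1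
  convert h2 using 1
  ext ⟨a, w⟩
  simp only [YY, mem_compl_iff, mem_ofPred_eq, not_or, mem_image, Prod.mk.injEq, Prod.exists]
  constructor
  · rintro ⟨h3, h4⟩
    obtain ⟨g, rfl⟩ := OnePoint.ne_infty_iff_exists.1 h3
    refine ⟨g, w, ?_, rfl, rfl⟩
    intro h5
    exact h4 ⟨g, rfl, h5⟩
  · rintro ⟨g, w', h3, rfl, rfl⟩
    refine ⟨OnePoint.coe_ne_infty _, ?_⟩
    rintro ⟨g', h4, h5⟩
    rw [OnePoint.coe_eq_coe] at h4
    subst h4
    exact h3 h5

/-- The action on the product. -/
noncomputable def act (s : G → ℝ) (x : ℕ → X) (g : G) (p : OnePoint G × OnePoint (X × ℝ)) :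
    OnePoint G × OnePoint (X × ℝ) :=
  p.1.elim (∞, ea g p.2) (fun g' => (((g * g' : G) : OnePoint G), FF s x (g * g')))

theorem act_infty (s : G → ℝ) (x : ℕ → X) (g : G) (w : OnePoint (X × ℝ)) :
    act s x g (∞, w) = (∞, ea g w) := rfl

theorem act_coe (s : G → ℝ) (x : ℕ → X) (g g' : G) (w : OnePoint (X × ℝ)) :
    act s x g ((g' : OnePoint G), w) = (((g * g' : G) : OnePoint G), FF s x (g * g')) := rfl

theorem act_mem (s : G → ℝ) (x : ℕ → X) (g : G) {p : OnePoint G × OnePoint (X × ℝ)}
    (hp : p ∈ YY s x) : act s x g p ∈ YY s x := by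
  obtain ⟨a, w⟩ := p
  rcases hp with hp | ⟨g', hp⟩
  · simp only at hp
    subst hp
    rw [act_infty]
    exact Or.inl rfl
  · rw [hp, act_coe]
    exact Or.inr ⟨_, rfl⟩

/-- The action on the compactification. -/
@[reducible] noncomputable def actionYY (s : G → ℝ) (x : ℕ → X) : MulAction G (YY s x) where
  smul g p := ⟨act s x g p.1, act_mem s x g p.2⟩
  one_smul := by
    rintro ⟨⟨a, w⟩, hp⟩
    apply Subtype.ext
    show act s x 1 (a, w) = (a, w)
    rcases hp with hp | ⟨g', hp⟩
    · simp only at hp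
      subst hp
      rw [act_infty, ea_one]
    · rw [hp, act_coe, one_mul]
  mul_smul := by
    rintro g h ⟨⟨a, w⟩, hp⟩
    apply Subtype.ext
    show act s x (g * h) (a, w) = act s x g (act s x h (a, w))
    rcases hp with hp | ⟨g', hp⟩
    · simp only at hp
      subst hp
      rw [act_infty, act_infty, act_infty, ea_mul]
    · rw [hp, act_coe, act_coe, act_coe, mul_assoc]

theorem continuous_act {s : G → ℝ} (hs : Continuous s)
    (hslow : ∀ C : Set G, IsCompact C → ∀ ε > 0, ∀ᶠ g in cocompact G, ∀ h ∈ C,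
      |s (h * g) - s g| < ε) (x : ℕ → X) :
    Continuous (fun q : G × YY s x => act s x q.1 q.2.1) := by
  rw [continuous_iff_continuousAt]
  rintro ⟨h₀, ⟨⟨a, w⟩, hp⟩⟩
  by_cases ha : a = ∞
  · subst ha
    -- at infinity
    show Tendsto (fun q : G × YY s x => act s x q.1 q.2.1) _ (𝓝 (act s x h₀ (∞, w)))
    rw [act_infty]
    set L : Filter (G × YY s x) := 𝓝 (h₀, ⟨(∞, w), hp⟩) with hL
    have hLfst : Tendsto (fun q : G × YY s x => q.1) L (𝓝 h₀) :=
      continuous_fst.continuousAt.tendsto
    have hLa : Tendsto (fun q : G × YY s x => q.2.1.1) L (𝓝 ∞) := by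
      have : Continuous (fun q : G × YY s x => q.2.1.1) := by fun_prop
      exact this.continuousAt.tendsto
    have hLw : Tendsto (fun q : G × YY s x => q.2.1.2) L (𝓝 w) := by
      have : Continuous (fun q : G × YY s x => q.2.1.2) := by fun_prop
      exact this.continuousAt.tendsto
    rw [tendsto_iff_ultrafilter]
    intro U hU
    rcases U.em (fun q => q.2.1.1 = ∞) with h1 | h1
    · have e1 : (fun q : G × YY s x => act s x q.1 q.2.1) =ᶠ[U]
          fun q => (∞, ea q.1 q.2.1.2) := by
        filter_upwards [h1] with q hq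
        have : q.2.1 = (∞, q.2.1.2) := Prod.ext hq rfl
        rw [this, act_infty]
      refine Tendsto.congr' e1.symm ?_
      refine tendsto_const_nhds.prodMk_nhds ?_
      have := (continuous_ea (G := G) (X := X)).continuousAt.tendsto.comp
        ((hLfst.mono_left hU).prodMk_nhds (hLw.mono_left hU))
      exact this
    · -- points of the group
      classical
      let φ : G × YY s x → G × G := fun q => (q.1, q.2.1.1.elim 1 id)
      have hφ : ∀ᶠ q in (U : Filter (G × YY s x)), q.2.1 = (((φ q).2 : OnePoint G), FF s x (φ q).2) := by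
        filter_upwards [h1] with q hq
        rcases q.2.2 with h2 | ⟨g, h2⟩
        · exact absurd h2 hq
        · have h3 : q.2.1.1 = (g : OnePoint G) := by rw [h2]
          have h4 : (φ q).2 = g := by
            show q.2.1.1.elim 1 id = g
            rw [h3]; rfl
          rw [h4]; exact h2
      have e1 : (fun q : G × YY s x => act s x q.1 q.2.1) =ᶠ[U]
          fun q => ((((φ q).1 * (φ q).2 : G) : OnePoint G), FF s x ((φ q).1 * (φ q).2)) := by
        filter_upwards [hφ] with q hq
        rw [hq, act_coe]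
      refine Tendsto.congr' e1.symm ?_
      have hφ1 : Tendsto (fun q => (φ q).1) U (𝓝 h₀) := hLfst.mono_left hU
      have hφ2 : Tendsto (fun q => (φ q).2) U (cocompact G) := by
        have h2 : Tendsto (fun q => ((φ q).2 : OnePoint G)) U (𝓝 ∞) := by
          refine Tendsto.congr' ?_ (hLa.mono_left hU)
          filter_upwards [hφ] with q hq
          rw [hq]
        rw [← Filter.coclosedCompact_eq_cocompact, ← OnePoint.comap_coe_nhds_infty,
          tendsto_comap_iff]
        exact h2
      have hφ3 : Tendsto (fun q => FF s x (φ q).2) U (𝓝 w) := by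
        refine Tendsto.congr' ?_ (hLw.mono_left hU)
        filter_upwards [hφ] with q hq
        rw [hq]
      refine Tendsto.prodMk_nhds ?_ ?_
      · have h5 : Tendsto (fun q => (φ q).1 * (φ q).2) U (cocompact G) := by
          obtain ⟨C, hC1, hC2⟩ := exists_compact_mem_nhds h₀
          rw [hasBasis_cocompact.tendsto_right_iff]
          intro K hK
          have hK' : IsCompact ((fun p : G × G => p.1⁻¹ * p.2) '' (C ×ˢ K)) :=
            (hC1.prod hK).image (by fun_prop)
          filter_upwards [hφ1 hC2, hφ2 hK'.compl_mem_cocompact] with q hq1 hq2 hq3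
          apply hq2
          exact ⟨((φ q).1, (φ q).1 * (φ q).2), ⟨hq1, hq3⟩, by simp⟩
        have h6 : Tendsto ((↑) : G → OnePoint G) (cocompact G) (𝓝 ∞) := by
          rw [← Filter.coclosedCompact_eq_cocompact]
          exact OnePoint.tendsto_coe_infty
        exact h6.comp h5
      · have h5 : Tendsto φ U ((𝓝 h₀ ×ˢ cocompact G) ⊓ comap (fun p => FF s x p.2) (𝓝 w)) := by
          rw [tendsto_inf]
          refine ⟨hφ1.prodMk hφ2, ?_⟩
          rw [tendsto_comap_iff]
          exact hφ3
        exact (FF_asym hslow x h₀ w).comp h5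
  · -- at points of the group
    obtain ⟨g₀, rfl⟩ := OnePoint.ne_infty_iff_exists.1 ha
    have hw : w = FF s x g₀ := by
      rcases hp with hp | ⟨g', hp⟩
      · exact absurd hp (OnePoint.coe_ne_infty _)
      · rw [Prod.mk.injEq, OnePoint.coe_eq_coe] at hp
        rw [hp.1, hp.2]
    subst hw
    show Tendsto (fun q : G × YY s x => act s x q.1 q.2.1) _ (𝓝 (act s x h₀ ((g₀ : OnePoint G), _)))
    rw [act_coe]
    set L : Filter (G × YY s x) := 𝓝 (h₀, ⟨((g₀ : OnePoint G), FF s x g₀), hp⟩) with hL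
    have hLfst : Tendsto (fun q : G × YY s x => q.1) L (𝓝 h₀) :=
      continuous_fst.continuousAt.tendsto
    have hLa : Tendsto (fun q : G × YY s x => q.2.1.1) L (𝓝 (g₀ : OnePoint G)) := by
      have : Continuous (fun q : G × YY s x => q.2.1.1) := by fun_prop
      exact this.continuousAt.tendsto
    have h1 : ∀ᶠ q in L, q.2.1.1 ∈ range ((↑) : G → OnePoint G) :=
      hLa.eventually (OnePoint.isOpen_range_coe.mem_nhds ⟨g₀, rfl⟩)
    let φ : G × YY s x → G × G := fun q => (q.1, q.2.1.1.elim 1 id)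
    have hφ : ∀ᶠ q in L, q.2.1.1 = ((φ q).2 : OnePoint G) := by
      filter_upwards [h1] with q ⟨g, hq⟩
      show q.2.1.1 = ((q.2.1.1.elim 1 id : G) : OnePoint G)
      rw [← hq]; rfl
    have e1 : (fun q : G × YY s x => act s x q.1 q.2.1) =ᶠ[L]
        fun q => ((((φ q).1 * (φ q).2 : G) : OnePoint G), FF s x ((φ q).1 * (φ q).2)) := by
      filter_upwards [hφ] with q hq
      have : q.2.1 = (((φ q).2 : OnePoint G), q.2.1.2) := Prod.ext hq rfl
      rw [this, act_coe]
    refine Tendsto.congr' e1.symm ?_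
    have hφ2 : Tendsto (fun q => (φ q).2) L (𝓝 g₀) := by
      have h2 : Tendsto (fun q => ((φ q).2 : OnePoint G)) L (𝓝 (g₀ : OnePoint G)) := by
        refine Tendsto.congr' ?_ hLa
        exact hφ
      rw [← OnePoint.comap_coe_nhds, tendsto_comap_iff]
      exact h2
    have h3 : Tendsto (fun q => (φ q).1 * (φ q).2) L (𝓝 (h₀ * g₀)) := hLfst.mul hφ2
    refine Tendsto.prodMk_nhds ?_ ?_
    · exact (OnePoint.continuous_coe.tendsto _).comp h3
    · exact ((continuous_FF hs x).tendsto _).comp h3

/-- Every countable sequence of targets is visited far out. -/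
theorem exists_targets [ConnectedSpace G] [NoncompactSpace G] {s : G → ℝ} (hs : Continuous s)
    (ht : Tendsto s (cocompact G) atTop) (z : ℕ → X × ℝ) :
    ∃ (x : ℕ → X) (γ : ℕ → G), (∀ n : ℕ, s 1 ≤ n → FF s x (γ n) = (z n : OnePoint (X × ℝ))) ∧
      (∀ n : ℕ, s 1 ≤ n → (n : ℝ) ≤ s (γ n)) := by
  choose u hu1 hu2 hu3 hu4 hu5 using fun n => tt_surj n (z n).2
  have h1 : ∀ n : ℕ, ∃ g : G, s 1 ≤ n → s g = u n := by
    intro n
    by_cases hn : s 1 ≤ n
    · obtain ⟨g, hg⟩ := exists_slow_eq hs ht (hn.trans (hu1 n).le)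
      exact ⟨g, fun _ => hg⟩
    · exact ⟨1, fun h => absurd h hn⟩
  choose γ hγ using h1
  refine ⟨fun n => (γ n)⁻¹ • (z n).1, γ, ?_, ?_⟩
  · intro n hn
    have h2 : cc (s (γ n)) ≠ 0 := by
      rw [hγ n hn]
      exact hu3 n
    rw [FF_ne h2, hγ n hn, hu5, hu4, smul_inv_smul]
  · intro n hn
    rw [hγ n hn]
    exact (hu1 n).le

theorem tendsto_cocompact_of_slow {s : G → ℝ} (hs : Continuous s) {α : Type*} {l : Filter α}
    {f : α → G} (h : Tendsto (fun a => s (f a)) l atTop) : Tendsto f l (cocompact G) := by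
  rw [hasBasis_cocompact.tendsto_right_iff]
  intro K hK
  obtain ⟨M, hM⟩ := hK.exists_bound_of_continuousOn hs.continuousOn
  filter_upwards [h.eventually (eventually_gt_atTop M)] with a ha hk
  have := hM _ hk
  rw [Real.norm_eq_abs] at this
  linarith [le_abs_self (s (f a))]

end Y

end Pool.MP_aa9b81_an
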