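import Mathlib
import Pool.Agent.Lib.MP_aa9b81_an.LieSub

/-!
The Lie algebra of a closed subgroup of `SL(3, ℝ)`: conjugation, trace, brackets, nontriviality.
-/

set_option autoImplicit false
set_option linter.unusedSectionVars false

open Filter Topology Matrix

namespace Pool.Agent.Lib.MP_aa9b81_an

lemma coe_mul_coe_inv (g : SL3) : (g : M3) * ((g⁻¹ : SL3) : M3) = 1 := by
  rw [← Matrix.SpecialLinearGroup.coe_mul, mul_inv_cancel, Matrix.SpecialLinearGroup.coe_one]

lemma coe_inv_mul_coe (g : SL3) : ((g⁻¹ : SL3) : M3) * (g : M3) = 1 := by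
  rw [← Matrix.SpecialLinearGroup.coe_mul, inv_mul_cancel, Matrix.SpecialLinearGroup.coe_one]

/-- Conjugation of matrices by elements of `SL(3, ℝ)`. -/
def cj (g : SL3) : M3 →ₐ[ℝ] M3 where
  toFun A := (g : M3) * A * ((g⁻¹ : SL3) : M3)
  map_one' := by rw [mul_one, coe_mul_coe_inv]
  map_mul' A B := by
    calc (g : M3) * (A * B) * ((g⁻¹ : SL3) : M3)
        = (g : M3) * A * 1 * B * ((g⁻¹ : SL3) : M3) := by noncomm_ring
      _ = (g : M3) * A * (((g⁻¹ : SL3) : M3) * (g : M3)) * B * ((g⁻¹ : SL3) : M3) := by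
          rw [coe_inv_mul_coe]
      _ = _ := by noncomm_ring
  map_zero' := by simp
  map_add' A B := by noncomm_ring
  commutes' r := by
    rw [Algebra.algebraMap_eq_smul_one]
    simp only [mul_smul_comm, smul_mul_assoc, mul_one]
    rw [coe_mul_coe_inv]

lemma cj_apply (g : SL3) (A : M3) : cj g A = (g : M3) * A * ((g⁻¹ : SL3) : M3) := rfl

lemma cj_mul (g h : SL3) (A : M3) : cj (g * h) A = cj g (cj h A) := by
  simp only [cj_apply, _root_.mul_inv_rev, Matrix.SpecialLinearGroup.coe_mul]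
  noncomm_ring

lemma cj_one (A : M3) : cj 1 A = A := by
  simp [cj_apply]

lemma cj_inv_cj (g : SL3) (A : M3) : cj g⁻¹ (cj g A) = A := by
  rw [← cj_mul, inv_mul_cancel, cj_one]

lemma cj_cj_inv (g : SL3) (A : M3) : cj g (cj g⁻¹ A) = A := by
  rw [← cj_mul, mul_inv_cancel, cj_one]

lemma trace_cj (g : SL3) (A : M3) : (cj g A).trace = A.trace := by
  rw [cj_apply, Matrix.trace_mul_cycle, coe_inv_mul_coe, one_mul]

lemma exp_cj (g : SL3) (A : M3) : NormedSpace.exp (cj g A) = cj g (NormedSpace.exp A) := by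
  let U : M3ˣ := ⟨(g : M3), ((g⁻¹ : SL3) : M3), coe_mul_coe_inv g, coe_inv_mul_coe g⟩
  exact Matrix.exp_units_conj U A

lemma cj_mem_lieSet {H : Subgroup SL3} {g : SL3} (hg : g ∈ H) {A : M3}
    (hA : A ∈ lieSet (H : Set SL3)) : cj g A ∈ lieSet (H : Set SL3) := by
  intro t
  obtain ⟨h, hh, hhA⟩ := hA t
  refine ⟨g * h * g⁻¹, H.mul_mem (H.mul_mem hg hh) (H.inv_mem hg), ?_⟩
  rw [Matrix.SpecialLinearGroup.coe_mul, Matrix.SpecialLinearGroup.coe_mul, hhA, ← map_smul,
    exp_cj, cj_apply]

lemma det_one_add_smul3 (B : M3) (u : ℝ) :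
    (1 + u • B).det = 1 + u * B.trace + u ^ 2 * ((B.trace ^ 2 - (B * B).trace) / 2) +
      u ^ 3 * B.det := by
  simp only [Matrix.det_fin_three, Matrix.trace_fin_three, Matrix.mul_apply, Fin.sum_univ_three,
    Matrix.add_apply, Matrix.smul_apply, Matrix.one_apply, smul_eq_mul]
  simp
  ring

lemma trace_eq_zero_of_mem_lieSet {H : Set SL3} {A : M3} (hA : A ∈ lieSet H) : A.trace = 0 := by
  have h1 := tendsto_slope_exp_matrix A
  set B : ℝ → M3 := fun u => u⁻¹ • (NormedSpace.exp (u • A) - 1) with hB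
  have h2 : ∀ᶠ u in 𝓝[≠] (0 : ℝ), (B u).trace + u * (((B u).trace ^ 2 - (B u * B u).trace) / 2) +
      u ^ 2 * (B u).det = 0 := by
    filter_upwards [self_mem_nhdsWithin] with u hu
    have hu' : u ≠ 0 := hu
    obtain ⟨g, _, hg⟩ := hA u
    have h3 : (1 + u • B u).det = 1 := by
      have : 1 + u • B u = (g : M3) := by
        rw [hg, hB]
        simp only
        rw [smul_smul, mul_inv_cancel₀ hu', one_smul]
        abel
      rw [this]
      exact g.2
    rw [det_one_add_smul3] at h3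
    have h4 : u * ((B u).trace + u * (((B u).trace ^ 2 - (B u * B u).trace) / 2) +
      u ^ 2 * (B u).det) = 0 := by linarith
    exact (mul_eq_zero.1 h4).resolve_left hu'
  have hcont : Continuous (fun M : M3 => M.trace) := by fun_prop
  have hcont2 : Continuous (fun M : M3 => (M * M).trace) := by fun_prop
  have hcont3 : Continuous (fun M : M3 => M.det) := by fun_prop
  have hu0 : Tendsto (fun u : ℝ => u) (𝓝[≠] 0) (𝓝 0) := tendsto_id.mono_left nhdsWithin_le_nhds
  have t1 := (hcont.tendsto A).comp h1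
  have t2 := (hcont2.tendsto A).comp h1
  have t3 := (hcont3.tendsto A).comp h1
  have h5 := (t1.add (hu0.mul (((t1.pow 2).sub t2).div_const 2))).add ((hu0.pow 2).mul t3)
  have h6 : Tendsto (fun u : ℝ => (B u).trace + u * (((B u).trace ^ 2 - (B u * B u).trace) / 2) +
      u ^ 2 * (B u).det) (𝓝[≠] 0) (𝓝 0) := by
    refine tendsto_const_nhds.congr' ?_
    filter_upwards [h2] with u hu using hu.symm
  have h7 := tendsto_nhds_unique h5 h6
  simpa using h7

lemma bracket_mem_lieSet {H : Subgroup SL3} (hH : IsClosed (H : Set SL3)) {A B : M3}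
    (hA : A ∈ lieSet (H : Set SL3)) (hB : B ∈ lieSet (H : Set SL3)) :
    A * B - B * A ∈ lieSet (H : Set SL3) := by
  have hcl : IsClosed ((lieSub H hH : Submodule ℝ M3) : Set M3) :=
    Submodule.closed_of_finiteDimensional _
  have hmem : ∀ s : ℝ, s⁻¹ • (NormedSpace.exp (s • A) * B * NormedSpace.exp (-(s • A)) - B) ∈
      lieSub H hH := by
    intro s
    refine (lieSub H hH).smul_mem _ ((lieSub H hH).sub_mem ?_ hB)
    obtain ⟨g, hg, hgA⟩ := hA s
    have h1 : ((g⁻¹ : SL3) : M3) = NormedSpace.exp (-(s • A)) := by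
      have h2 : (g : M3) * ((g⁻¹ : SL3) : M3) = (g : M3) * NormedSpace.exp (-(s • A)) := by
        rw [coe_mul_coe_inv, hgA, exp_mul_exp_neg]
      have h5 : IsUnit (g : M3) := by
        rw [Matrix.isUnit_iff_isUnit_det]
        simp
      exact h5.mul_left_cancel h2
    have h3 := cj_mem_lieSet hg hB
    rw [cj_apply, h1, hgA] at h3
    exact h3
  have hlim : Tendsto (fun s : ℝ =>
      s⁻¹ • (NormedSpace.exp (s • A) * B * NormedSpace.exp (-(s • A)) - B)) (𝓝[≠] 0)
      (𝓝 (A * B - B * A)) := by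
    have h1 := tendsto_slope_exp_matrix A
    have h2 := tendsto_slope_exp_matrix (-A)
    have h3 : Tendsto (fun u : ℝ => NormedSpace.exp (-(u • A))) (𝓝[≠] 0) (𝓝 (1 : M3)) := by
      have h4 : Tendsto (fun u : ℝ => -(u • A)) (𝓝[≠] 0) (𝓝 (-((0 : ℝ) • A))) :=
        (((continuous_id.smul continuous_const).neg).tendsto (0 : ℝ)).mono_left nhdsWithin_le_nhds
      have h5 := (continuous_exp_matrix.tendsto _).comp h4
      rw [zero_smul, neg_zero, NormedSpace.exp_zero] at h5
      exact h5
    have h6 := ((h1.mul_const B).mul h3).add (h2.const_mul B)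
    rw [mul_one, mul_neg, ← sub_eq_add_neg] at h6
    refine h6.congr fun u => ?_
    rw [smul_mul_assoc, smul_mul_assoc, mul_smul_comm, ← smul_add, smul_neg]
    congr 1
    noncomm_ring
  exact hcl.mem_of_tendsto hlim (Eventually.of_forall hmem)

section

open scoped Matrix.Norms.Operator

set_option backward.isDefEq.respectTransparency false in
/-- A closed subgroup that is not discrete has a nonzero Lie algebra. -/
theorem exists_ne_zero_of_not_discrete {H : Subgroup SL3} (hH : IsClosed (H : Set SL3))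
    (hd : ¬ DiscreteTopology H) : ∃ A ∈ lieSet (H : Set SL3), A ≠ 0 := by
  have hne : (𝓝[≠] (1 : H)).NeBot := by
    by_contra hcon
    rw [not_neBot, ← isOpen_singleton_iff_punctured_nhds] at hcon
    exact hd (discreteTopology_of_isOpen_singleton_one hcon)
  obtain ⟨U, hU⟩ := Ultrafilter.exists_le (𝓝[≠] (1 : H))
  have hval : Tendsto (fun h : H => ((h : SL3) : M3)) (𝓝[≠] (1 : H)) (𝓝 1) := by
    have hc : Continuous (fun h : H => ((h : SL3) : M3)) :=
      (Matrix.SpecialLinearGroup.isClosedEmbedding_val).continuous.comp continuous_subtype_val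
    have := (hc.tendsto 1).mono_left (nhdsWithin_le_nhds (s := {1}ᶜ))
    simpa using this
  set ε : H → ℝ := fun h => ‖((h : SL3) : M3) - 1‖ with hε
  have hε0 : Tendsto ε U (𝓝 0) := by
    have h1 := ((hval.mono_left hU).sub_const 1).norm
    simpa using h1
  have hεpos : ∀ᶠ h in (U : Filter H), 0 < ε h := by
    have h1 : ∀ᶠ h in (U : Filter H), h ≠ 1 := hU self_mem_nhdsWithin
    filter_upwards [h1] with h hh
    rw [hε]
    simp only [norm_pos_iff]
    intro h2
    apply hh
    have h3 : ((h : SL3) : M3) = ((1 : SL3) : M3) := by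
      rw [Matrix.SpecialLinearGroup.coe_one]
      exact sub_eq_zero.1 h2
    exact Subtype.ext (Subtype.ext h3)
  have hc : IsCompact (Metric.sphere (0 : M3) 1) := isCompact_sphere _ _
  have hmem : Metric.sphere (0 : M3) 1 ∈
      U.map (fun h : H => (ε h)⁻¹ • (((h : SL3) : M3) - 1)) := by
    rw [Ultrafilter.mem_map]
    filter_upwards [hεpos] with h hh
    simp only [Set.mem_preimage, mem_sphere_zero_iff_norm]
    rw [norm_smul, norm_inv, Real.norm_of_nonneg hh.le]
    exact inv_mul_cancel₀ hh.ne'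
  obtain ⟨C, hC1, hC2⟩ := hc.ultrafilter_le_nhds' _ hmem
  refine ⟨C, ?_, ?_⟩
  · exact mem_lieSet_of_tendsto (l := (U : Filter H)) hH (fun h => (h : SL3)) (fun h => h.2) ε C
      hε0 hεpos hC2
  · rintro rfl
    simp at hC1

end

end Pool.Agent.Lib.MP_aa9b81_an
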