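import Mathlib
import Pool.Agent.Lib.MP_aa9b81_an.Alg5
import Pool.Agent.Lib.MP_aa9b81_an.LieSub2

/-!
Frames: centres of dimension three that are conjugate to the diagonal matrices.
-/

set_option autoImplicit false
set_option linter.unusedSectionVars false

open Matrix Module

namespace Pool.Agent.Lib.MP_aa9b81_an

/-- The matrix with given columns. -/
def colm (v : Fin 3 → V3) : M3 := Matrix.of (fun i j => v j i)

lemma colm_mulVec_single (v : Fin 3 → V3) (j : Fin 3) : colm v *ᵥ (Pi.single j 1) = v j := by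
  ext i
  simp [colm, Matrix.mulVec_single]

/-- Rescale the first column so as to get determinant one. -/
noncomputable def toSL (P : M3) (h : P.det ≠ 0) : SL3 :=
  ⟨P * Matrix.diagonal ![P.det⁻¹, 1, 1], by
    rw [Matrix.det_mul, Matrix.det_diagonal, Fin.prod_univ_three]
    simp [h]⟩

lemma toSL_coe (P : M3) (h : P.det ≠ 0) :
    (toSL P h : M3) = P * Matrix.diagonal ![P.det⁻¹, 1, 1] := rfl

lemma det_colm_ne_zero {v : Fin 3 → V3} (h : LinearIndependent ℝ v) : (colm v).det ≠ 0 := by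
  have h1 : IsUnit (colm v) := Matrix.linearIndependent_cols_iff_isUnit.1 h
  have h2 := (Matrix.isUnit_iff_isUnit_det _).1 h1
  exact h2.ne_zero

lemma mul_colm {D : M3} {v : Fin 3 → V3} {c : Fin 3 → ℝ} (h : ∀ i, D *ᵥ v i = c i • v i) :
    D * colm v = colm v * Matrix.diagonal c := by
  ext i j
  rw [Matrix.mul_diagonal]
  have := congrFun (h j) i
  simp only [Matrix.mulVec, dotProduct, Pi.smul_apply, smul_eq_mul] at this
  rw [Matrix.mul_apply]
  simp only [colm, Matrix.of_apply]
  rw [this, mul_comm]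

lemma cj_toSL {D : M3} {P : M3} (h : P.det ≠ 0) {c : Fin 3 → ℝ} (hP : D * P = P * Matrix.diagonal c) :
    D = cj (toSL P h) (Matrix.diagonal c) := by
  have h1 : D * (toSL P h : M3) = (toSL P h : M3) * Matrix.diagonal c := by
    rw [toSL_coe, ← mul_assoc, hP, mul_assoc, mul_assoc]
    congr 1
    rw [Matrix.diagonal_mul_diagonal, Matrix.diagonal_mul_diagonal]
    congr 1
    ext i
    exact mul_comm _ _
  rw [cj_apply, ← h1, mul_assoc, coe_mul_coe_inv, mul_one]

lemma linearIndependent_of_eigen {D : M3} {v : Fin 3 → V3} {c : Fin 3 → ℝ}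
    (hc : Function.Injective c) (hv : ∀ i, v i ≠ 0) (h : ∀ i, D *ᵥ v i = c i • v i) :
    LinearIndependent ℝ v := by
  refine Module.End.eigenvectors_linearIndependent' (Matrix.toLin' D) c hc v fun i => ?_
  refine ⟨?_, hv i⟩
  rw [Module.End.mem_eigenspace_iff, Matrix.toLin'_apply]
  exact h i

/-- Diagonal matrices as a submodule. -/
noncomputable def diag3 : Submodule ℝ M3 := LinearMap.range (Matrix.diagonalLinearMap (Fin 3) ℝ ℝ)

lemma mem_diag3 {A : M3} : A ∈ diag3 ↔ ∃ c : Fin 3 → ℝ, A = Matrix.diagonal c := by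
  constructor
  · rintro ⟨c, rfl⟩
    exact ⟨c, rfl⟩
  · rintro ⟨c, rfl⟩
    exact ⟨c, rfl⟩

lemma finrank_diag3 : finrank ℝ diag3 = 3 := by
  rw [diag3, LinearMap.finrank_range_of_inj]
  · simp
  · exact Matrix.diagonal_injective

lemma three_roots {p q : ℝ} (h : 0 < (2 * p) ^ 3 / 2 - 27 * q ^ 2) :
    ∃ c : Fin 3 → ℝ, Function.Injective c ∧ ∀ i, c i ^ 3 = p * c i + q := by
  obtain ⟨l, hl⟩ := exists_root p q
  rw [disc_identity hl] at h
  have h1 : 0 < 4 * p - 3 * l ^ 2 := by
    by_contra hcon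
    push Not at hcon
    exact absurd h (not_lt.2 (mul_nonpos_of_nonpos_of_nonneg hcon (sq_nonneg _)))
  have h2 : 3 * l ^ 2 - p ≠ 0 := by
    intro h0
    rw [h0] at h
    norm_num at h
  set s := Real.sqrt (4 * p - 3 * l ^ 2) with hs
  have hs0 : 0 < s := Real.sqrt_pos.2 h1
  have hss : s ^ 2 = 4 * p - 3 * l ^ 2 := Real.sq_sqrt h1.le
  have hq : q = l ^ 3 - p * l := by linarith
  have hm : ∀ m : ℝ, m ^ 2 + l * m + l ^ 2 - p = 0 → m ^ 3 = p * m + q := by
    intro m hm
    have : m ^ 3 - (p * m + q) = (m - l) * (m ^ 2 + l * m + l ^ 2 - p) := by rw [hq]; ring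
    rw [hm, mul_zero] at this
    linarith
  have hne : ∀ m : ℝ, m ^ 2 + l * m + l ^ 2 - p = 0 → l ≠ m := by
    rintro m hm rfl
    apply h2
    linarith
  have hm1 : ((-l + s) / 2) ^ 2 + l * ((-l + s) / 2) + l ^ 2 - p = 0 := by nlinarith
  have hm2 : ((-l - s) / 2) ^ 2 + l * ((-l - s) / 2) + l ^ 2 - p = 0 := by nlinarith
  refine ⟨![l, (-l + s) / 2, (-l - s) / 2], ?_, ?_⟩
  · intro i j hij
    have h12 : (-l + s) / 2 ≠ (-l - s) / 2 := by
      intro h0
      linarith
    fin_cases i <;> fin_cases j <;> simp at hij ⊢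
    · exact hne _ hm1 hij
    · exact hne _ hm2 hij
    · exact hne _ hm1 hij.symm
    · exact h12 (by linarith)
    · exact hne _ hm2 hij.symm
    · exact h12 (by linarith)
  · intro i
    fin_cases i
    · exact hl
    · exact hm _ hm1
    · exact hm _ hm2

lemma exists_frame {D : M3} (hD : D.trace = 0) (h : 0 < dsc D) :
    ∃ (g : SL3) (c : Fin 3 → ℝ), Function.Injective c ∧ D = cj g (Matrix.diagonal c) := by
  rw [dsc_of_trace hD] at h
  have hp2 : (D * D).trace = 2 * ((D * D).trace / 2) := by ring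
  rw [hp2] at h
  obtain ⟨c, hc, hr⟩ := three_roots h
  choose v hv0 hv using fun i => exists_eigvec hD (hr i)
  have hli := linearIndependent_of_eigen hc hv0 hv
  exact ⟨toSL (colm v) (det_colm_ne_zero hli), c, hc, cj_toSL _ (mul_colm hv)⟩

/-- A matrix commuting with a diagonal matrix with distinct entries is diagonal. -/
lemma diag_of_comm {c : Fin 3 → ℝ} (hc : Function.Injective c) {A : M3}
    (h : A * Matrix.diagonal c = Matrix.diagonal c * A) : A ∈ diag3 := by
  rw [mem_diag3]
  refine ⟨fun i => A i i, ?_⟩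
  ext i j
  by_cases hij : i = j
  · rw [hij, Matrix.diagonal_apply_eq]
  · rw [Matrix.diagonal_apply_ne _ hij]
    have := congrFun (congrFun h i) j
    rw [Matrix.mul_diagonal, Matrix.diagonal_mul] at this
    have h1 : A i j * (c j - c i) = 0 := by rw [mul_sub, this]; ring
    rcases mul_eq_zero.1 h1 with h2 | h2
    · exact h2
    · exact absurd (hc (sub_eq_zero.1 h2)) (Ne.symm hij)

lemma cj_injective (g : SL3) : Function.Injective (cj g) := fun A B h => by
  rw [← cj_inv_cj g A, h, cj_inv_cj]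

/-- The split case. -/
theorem split {W : Submodule ℝ M3} (h : 3 ≤ finrank ℝ (cen W))
    (hs : ∃ A ∈ cen W, 0 < dsc A) :
    ∃ g : SL3, cen W = diag3.map (cj g).toLinearMap := by
  obtain ⟨A, hA, hd⟩ := hs
  rw [← dsc_tz] at hd
  obtain ⟨g, c, hc, hgc⟩ := exists_frame (trace_tz A) hd
  refine ⟨g, ?_⟩
  have hle : cen W ≤ diag3.map (cj g).toLinearMap := by
    intro B hB
    refine ⟨cj g⁻¹ B, ?_, cj_cj_inv g B⟩
    have h1 : B * tz A = tz A * B := cen_comm hB (tz_mem_cen hA)
    refine diag_of_comm hc ?_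
    apply cj_injective g
    rw [map_mul, map_mul, ← hgc, cj_cj_inv, h1]
  have hf : finrank ℝ (diag3.map (cj g).toLinearMap) = 3 := by
    have e := (Submodule.equivMapOfInjective (cj g).toLinearMap (cj_injective g) diag3)
    rw [← e.finrank_eq, finrank_diag3]
  exact Submodule.eq_of_le_of_finrank_le hle (by rw [hf]; exact h)

end Pool.Agent.Lib.MP_aa9b81_an
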