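import Mathlib
import Pool.Agent.Lib.MP_aa9b81_an.Fam2
import Pool.Agent.Lib.MP_aa9b81_an.Frame

/-!
Closed graph properties of the families of algebras, radicals, centres and lines.
-/

set_option autoImplicit false
set_option linter.unusedSectionVars false

open Filter Topology Matrix Module

namespace Pool.Agent.Lib.MP_aa9b81_an

variable {X : Type*} [TopologicalSpace X] {S : Set X} {W : X → Submodule ℝ M3}

lemma Sec.alg (h : Sec S W) : Sec S (fun x => MP_aa9b81_an.alg (W x)) := by
  intro x hx A hA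
  rw [mem_alg] at hA
  induction hA using Algebra.adjoin_induction with
  | mem A hA =>
    obtain ⟨s, hs1, hs2⟩ := h x hx A hA
    exact ⟨s, fun y => le_alg _ (hs1 y), hs2⟩
  | algebraMap r =>
    refine ⟨fun _ => algebraMap ℝ M3 r, fun y => ?_, tendsto_const_nhds⟩
    exact (Algebra.adjoin ℝ (W y : Set M3)).algebraMap_mem r
  | add A B _ _ hA hB =>
    obtain ⟨s, hs1, hs2⟩ := hA
    obtain ⟨t, ht1, ht2⟩ := hB
    exact ⟨fun y => s y + t y, fun y => Submodule.add_mem _ (hs1 y) (ht1 y), hs2.add ht2⟩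
  | mul A B _ _ hA hB =>
    obtain ⟨s, hs1, hs2⟩ := hA
    obtain ⟨t, ht1, ht2⟩ := hB
    exact ⟨fun y => s y * t y, fun y => mul_mem_alg (hs1 y) (ht1 y), hs2.mul ht2⟩

lemma cf_nu (h : Sec S (fun x => alg (W x))) : CF S (fun x => nu (W x)) := by
  refine CF.of_sec (R := fun A B : M3 => (A * B).trace = 0) ?_ h (fun x _ v => mem_nu)
  exact isClosed_eq (by fun_prop) continuous_const

lemma cf_alg (h : Sec S (fun x => nu (W x))) : CF S (fun x => alg (W x)) := by
  refine CF.of_sec (R := fun A B : M3 => (A * B).trace = 0) ?_ h (fun x _ v => mem_alg_iff)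
  exact isClosed_eq (by fun_prop) continuous_const

/-- The commutant of the algebra. -/
def com (W : Submodule ℝ M3) : Submodule ℝ M3 where
  carrier := {A | ∀ B ∈ alg W, A * B = B * A}
  zero_mem' := fun B _ => by simp
  add_mem' := fun {A A'} h h' => fun B hB => by
    rw [add_mul, mul_add, h B hB, h' B hB]
  smul_mem' := fun c A h => fun B hB => by
    rw [smul_mul_assoc, mul_smul_comm, h B hB]

lemma cen_eq (W : Submodule ℝ M3) : cen W = alg W ⊓ com W := by
  ext A
  exact Iff.rfl

lemma cf_com (h : Sec S (fun x => alg (W x))) : CF S (fun x => com (W x)) := by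
  refine CF.of_sec (R := fun B A : M3 => A * B = B * A) ?_ h (fun x _ v => Iff.rfl)
  exact isClosed_eq (by fun_prop) (by fun_prop)

lemma cf_cen (h1 : CF S (fun x => alg (W x))) (h2 : Sec S (fun x => alg (W x))) :
    CF S (fun x => cen (W x)) := by
  have := h1.inf (cf_com h2)
  simpa only [← cen_eq] using this

lemma cf_rd (h1 : CF S (fun x => alg (W x))) (h2 : CF S (fun x => nu (W x))) :
    CF S (fun x => rd (W x)) := h1.inf h2

lemma cf_kr (h : Sec S (fun x => rd (W x))) : CF S (fun x => kr (W x)) := by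
  refine CF.of_sec (R := fun (B : M3) (v : V3) => B *ᵥ v = 0) ?_ h (fun x _ v => mem_kr)
  exact isClosed_eq (by fun_prop) continuous_const

lemma cf_Lz (h : Sec S (fun x => cen (W x))) : CF S (fun x => Lz (W x)) := by
  refine CF.of_sec (R := fun (A : M3) (v : V3) =>
    (3 : ℝ) • ((tz A * tz A) *ᵥ v) = (2 * (tz A * tz A).trace) • v) ?_ h (fun x _ v => mem_Lz)
  have h1 : Continuous (fun p : M3 × V3 => tz p.1) := continuous_tz.comp continuous_fst
  exact isClosed_eq (by fun_prop) (by fun_prop)

lemma isClosed_par : IsClosed {p : M3 × V3 | Par p.1 p.2} := by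
  unfold Par
  exact isClosed_eq (by fun_prop) (by fun_prop)

lemma cf_Ln (h : Sec S (fun x => cen (W x)))
    (h2 : ∀ x ∈ S, ∀ v, v ∈ Ln (W x) ↔ ∀ A ∈ cen (W x), Par A v) :
    CF S (fun x => Ln (W x)) :=
  CF.of_sec (R := fun (A : M3) (v : V3) => Par A v) isClosed_par h h2

end Pool.Agent.Lib.MP_aa9b81_an
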