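import Mathlib
import Pool.Agent.Lib.MP_aa9b81_an.LieSub2
import Pool.Agent.Lib.MP_aa9b81_an.Fam2

/-!
The family of isotropy algebras of a Hausdorff space with an action of `SL(3, ℝ)`.
-/

set_option autoImplicit false
set_option linter.unusedSectionVars false

open Filter Topology Matrix Module

namespace Pool.Agent.Lib.MP_aa9b81_an

variable {X : Type*} [TopologicalSpace X] [T2Space X] [MulAction SL3 X] [ContinuousSMul SL3 X]

lemma isClosed_stab (x : X) : IsClosed (MulAction.stabilizer SL3 x : Set SL3) := by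
  have : (MulAction.stabilizer SL3 x : Set SL3) = {g | g • x = x} := by
    ext g
    simp
  rw [this]
  exact isClosed_eq (by fun_prop) continuous_const

/-- The isotropy algebra. -/
def iso (x : X) : Submodule ℝ M3 := lieSub (MulAction.stabilizer SL3 x) (isClosed_stab x)

lemma mem_iso {x : X} {A : M3} :
    A ∈ iso x ↔ ∀ t : ℝ, ∃ g : SL3, g • x = x ∧ (g : M3) = NormedSpace.exp (t • A) := by
  constructor
  · intro h t
    obtain ⟨g, hg, hgA⟩ := h t
    exact ⟨g, MulAction.mem_stabilizer_iff.1 hg, hgA⟩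
  · intro h t
    obtain ⟨g, hg, hgA⟩ := h t
    exact ⟨g, MulAction.mem_stabilizer_iff.2 hg, hgA⟩

lemma mem_iso_iff {x : X} {A : M3} :
    A ∈ iso x ↔ A ∈ lieSet (MulAction.stabilizer SL3 x : Set SL3) := Iff.rfl

lemma cf_iso : CF (Set.univ : Set X) (iso (X := X)) := by
  intro x _ F hF hle u hu A hA
  rw [nhdsWithin_univ] at hle
  rw [mem_iso]
  intro t
  have h1 : ∀ᶠ y in F, ∃ g : SL3, g • y = y ∧ (g : M3) = NormedSpace.exp (t • u y) :=
    hu.mono fun y hy => mem_iso.1 hy t
  obtain ⟨γ, hγ⟩ := h1.choice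
  have h2 : Tendsto (fun y => NormedSpace.exp (t • u y)) F (𝓝 (NormedSpace.exp (t • A))) :=
    (continuous_exp_matrix.tendsto _).comp (hA.const_smul t)
  have h3 : Tendsto (fun y => (γ y : M3)) F (𝓝 (NormedSpace.exp (t • A))) := by
    refine h2.congr' ?_
    filter_upwards [hγ] with y hy using hy.2.symm
  obtain ⟨g, -, hg⟩ := exists_mem_of_tendsto (H := Set.univ) isClosed_univ
    (Eventually.of_forall fun y => Set.mem_univ (γ y)) h3
  refine ⟨g, ?_, hg⟩
  have h4 : Tendsto γ F (𝓝 g) := by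
    rw [← hg] at h3
    exact (Matrix.SpecialLinearGroup.isClosedEmbedding_val (n := Fin 3) (R := ℝ)).tendsto_nhds_iff.2 h3
  have h5 : Tendsto (fun y => γ y • y) F (𝓝 (g • x)) := h4.smul hle
  have h6 : Tendsto (fun y => γ y • y) F (𝓝 x) := by
    refine Tendsto.congr' ?_ hle
    filter_upwards [hγ] with y hy using hy.1.symm
  exact tendsto_nhds_unique h5 h6

lemma mem_iso_smul {x : X} {g : SL3} {A : M3} : A ∈ iso (g • x) ↔ cj g⁻¹ A ∈ iso x := by
  constructor
  · intro h
    rw [mem_iso] at h ⊢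
    intro t
    obtain ⟨h', h1, h2⟩ := h t
    refine ⟨g⁻¹ * h' * g, ?_, ?_⟩
    · rw [mul_smul, mul_smul, h1, inv_smul_smul]
    · rw [Matrix.SpecialLinearGroup.coe_mul, Matrix.SpecialLinearGroup.coe_mul, h2, ← map_smul,
        exp_cj, cj_apply, inv_inv]
  · intro h
    rw [mem_iso] at h ⊢
    intro t
    obtain ⟨h', h1, h2⟩ := h t
    refine ⟨g * h' * g⁻¹, ?_, ?_⟩
    · rw [mul_smul, mul_smul, inv_smul_smul, h1]
    · rw [Matrix.SpecialLinearGroup.coe_mul, Matrix.SpecialLinearGroup.coe_mul, h2, ← map_smul,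
        exp_cj, ← cj_apply, cj_cj_inv]

/-- The isotropy algebra is stable under conjugation by the isotropy group. -/
lemma trace_iso {x : X} {A : M3} (hA : A ∈ iso x) : A.trace = 0 :=
  trace_eq_zero_of_mem_lieSet hA

lemma bracket_iso {x : X} {A B : M3} (hA : A ∈ iso x) (hB : B ∈ iso x) :
    A * B - B * A ∈ iso x := bracket_mem_lieSet (isClosed_stab x) hA hB

lemma exists_ne_zero_iso {x : X} (h : ¬ DiscreteTopology (MulAction.stabilizer SL3 x)) :
    ∃ A ∈ iso x, A ≠ 0 := exists_ne_zero_of_not_discrete (isClosed_stab x) h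

end Pool.Agent.Lib.MP_aa9b81_an
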