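import Mathlib
import Pool.Agent.Lib.MP_aa9b81_an.Fam3
import Pool.Agent.Lib.MP_aa9b81_an.Iso

/-!
Equivariance of the constructions under conjugation.
-/

set_option autoImplicit false
set_option linter.unusedSectionVars false

open Filter Topology Matrix Module

namespace Pool.Agent.Lib.MP_aa9b81_an

/-- Conjugate of a space of matrices. -/
def cjs (g : SL3) (W : Submodule ℝ M3) : Submodule ℝ M3 := W.map (cj g).toLinearMap

lemma mem_cjs {g : SL3} {W : Submodule ℝ M3} {A : M3} : A ∈ cjs g W ↔ cj g⁻¹ A ∈ W := by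
  constructor
  · rintro ⟨B, hB, rfl⟩
    have : cj g⁻¹ ((cj g).toLinearMap B) = B := cj_inv_cj g B
    rw [this]
    exact hB
  · intro h
    exact ⟨_, h, cj_cj_inv g A⟩

lemma cj_mem_cjs {g : SL3} {W : Submodule ℝ M3} {A : M3} : cj g A ∈ cjs g W ↔ A ∈ W := by
  rw [mem_cjs, cj_inv_cj]

lemma cjs_one (W : Submodule ℝ M3) : cjs 1 W = W := by
  ext A
  rw [mem_cjs, inv_one, cj_one]

lemma cjs_mul (g h : SL3) (W : Submodule ℝ M3) : cjs (g * h) W = cjs g (cjs h W) := by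
  ext A
  rw [mem_cjs, mem_cjs, mem_cjs, _root_.mul_inv_rev, cj_mul]

lemma finrank_cjs (g : SL3) (W : Submodule ℝ M3) : finrank ℝ (cjs g W) = finrank ℝ W :=
  (Submodule.equivMapOfInjective (cj g).toLinearMap (cj_injective g) W).finrank_eq.symm

/-- Image of a subspace of column vectors. -/
noncomputable def actL (g : SL3) (L : Submodule ℝ V3) : Submodule ℝ V3 :=
  L.map (Matrix.toLin' (g : M3))

lemma mem_actL {g : SL3} {L : Submodule ℝ V3} {v : V3} :
    v ∈ actL g L ↔ ((g⁻¹ : SL3) : M3) *ᵥ v ∈ L := by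
  constructor
  · rintro ⟨w, hw, rfl⟩
    rw [Matrix.toLin'_apply, Matrix.mulVec_mulVec, coe_inv_mul_coe, Matrix.one_mulVec]
    exact hw
  · intro h
    refine ⟨_, h, ?_⟩
    rw [Matrix.toLin'_apply, Matrix.mulVec_mulVec, coe_mul_coe_inv, Matrix.one_mulVec]

lemma actL_one (L : Submodule ℝ V3) : actL 1 L = L := by
  ext v
  rw [mem_actL, inv_one, Matrix.SpecialLinearGroup.coe_one, Matrix.one_mulVec]

lemma actL_mul (g h : SL3) (L : Submodule ℝ V3) : actL (g * h) L = actL g (actL h L) := by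
  ext v
  rw [mem_actL, mem_actL, mem_actL, _root_.mul_inv_rev, Matrix.SpecialLinearGroup.coe_mul,
    Matrix.mulVec_mulVec]

lemma mulVec_inj (g : SL3) : Function.Injective (fun v : V3 => (g : M3) *ᵥ v) := by
  intro v w h
  have h1 : ((g⁻¹ : SL3) : M3) *ᵥ ((g : M3) *ᵥ v) = ((g⁻¹ : SL3) : M3) *ᵥ ((g : M3) *ᵥ w) :=
    congrArg _ h
  rwa [Matrix.mulVec_mulVec, Matrix.mulVec_mulVec, coe_inv_mul_coe, Matrix.one_mulVec,
    Matrix.one_mulVec] at h1

lemma finrank_actL (g : SL3) (L : Submodule ℝ V3) : finrank ℝ (actL g L) = finrank ℝ L :=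
  (Submodule.equivMapOfInjective (Matrix.toLin' (g : M3)) (fun v w h => mulVec_inj g (by
    simpa only [Matrix.toLin'_apply] using h)) L).finrank_eq.symm

lemma alg_cjs (g : SL3) (W : Submodule ℝ M3) : alg (cjs g W) = cjs g (alg W) := by
  ext A
  have h := AlgHom.map_adjoin (cj g) (W : Set M3)
  have h2 : ((cjs g W : Submodule ℝ M3) : Set M3) = (cj g) '' (W : Set M3) := by
    ext B
    exact Iff.rfl
  rw [mem_alg, h2, ← h]
  exact Iff.rfl

lemma nu_cjs (g : SL3) (W : Submodule ℝ M3) : nu (cjs g W) = cjs g (nu W) := by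
  ext B
  rw [mem_cjs, mem_nu, mem_nu]
  constructor
  · intro h a ha
    have h1 := h (cj g a) (by rw [alg_cjs]; exact cj_mem_cjs.2 ha)
    rw [← trace_cj g⁻¹, map_mul, cj_inv_cj] at h1
    exact h1
  · intro h a ha
    rw [alg_cjs, mem_cjs] at ha
    have h1 := h _ ha
    rw [← map_mul, trace_cj] at h1
    exact h1

lemma rd_cjs (g : SL3) (W : Submodule ℝ M3) : rd (cjs g W) = cjs g (rd W) := by
  ext A
  rw [mem_cjs]
  change (A ∈ alg (cjs g W) ∧ A ∈ nu (cjs g W)) ↔ (cj g⁻¹ A ∈ alg W ∧ cj g⁻¹ A ∈ nu W)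
  rw [alg_cjs, nu_cjs, mem_cjs, mem_cjs]

lemma cen_cjs (g : SL3) (W : Submodule ℝ M3) : cen (cjs g W) = cjs g (cen W) := by
  ext A
  rw [mem_cjs, mem_cen, mem_cen, alg_cjs, mem_cjs]
  refine and_congr_right fun _ => ?_
  constructor
  · intro h B hB
    have h1 := h (cj g B) (cj_mem_cjs.2 hB)
    apply cj_injective g
    rw [map_mul, map_mul, cj_cj_inv, h1]
  · intro h B hB
    have h1 := h _ (mem_cjs.1 hB)
    apply cj_injective g⁻¹
    rw [map_mul, map_mul, h1]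

lemma kr_cjs (g : SL3) (W : Submodule ℝ M3) : kr (cjs g W) = actL g (kr W) := by
  ext v
  rw [mem_actL, mem_kr, mem_kr, rd_cjs]
  constructor
  · intro h B hB
    have h1 := h (cj g B) (cj_mem_cjs.2 hB)
    rw [cj_apply, ← Matrix.mulVec_mulVec, ← Matrix.mulVec_mulVec] at h1
    have h2 : (g : M3) *ᵥ (B *ᵥ (((g⁻¹ : SL3) : M3) *ᵥ v)) = (g : M3) *ᵥ 0 := by
      rw [h1, Matrix.mulVec_zero]
    exact mulVec_inj g h2
  · intro h B hB
    have h1 := h _ (mem_cjs.1 hB)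
    rw [cj_apply, inv_inv] at h1
    rw [← Matrix.mulVec_mulVec, ← Matrix.mulVec_mulVec, Matrix.mulVec_mulVec _ (g : M3),
      coe_mul_coe_inv, Matrix.one_mulVec] at h1
    have h2 : ((g⁻¹ : SL3) : M3) *ᵥ (B *ᵥ v) = ((g⁻¹ : SL3) : M3) *ᵥ 0 := by
      rw [h1, Matrix.mulVec_zero]
    exact mulVec_inj g⁻¹ h2

lemma tz_cj (g : SL3) (A : M3) : tz (cj g A) = cj g (tz A) := by
  rw [tz, tz, trace_cj, map_sub, map_smul, map_one]

lemma cj_mulVec (g : SL3) (A : M3) (v : V3) :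
    (cj g A) *ᵥ ((g : M3) *ᵥ v) = (g : M3) *ᵥ (A *ᵥ v) := by
  rw [cj_apply, Matrix.mulVec_mulVec, Matrix.mulVec_mulVec, mul_assoc, coe_inv_mul_coe, mul_one]

lemma mem_actL' {g : SL3} {L : Submodule ℝ V3} {v : V3} :
    v ∈ actL g L ↔ ∃ w ∈ L, v = (g : M3) *ᵥ w := by
  constructor
  · rintro ⟨w, hw, rfl⟩
    exact ⟨w, hw, Matrix.toLin'_apply _ _⟩
  · rintro ⟨w, hw, rfl⟩
    exact ⟨w, hw, Matrix.toLin'_apply _ _⟩

/-- A general principle: a subspace of vectors defined by an invariant condition against a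
subspace of matrices is transported correctly. -/
lemma equi_of_rel {R : M3 → V3 → Prop} (hR : ∀ (g : SL3) (A : M3) (v : V3),
    R (cj g A) ((g : M3) *ᵥ v) ↔ R A v) {Z Z' : Submodule ℝ M3} {L L' : Submodule ℝ V3} {g : SL3}
    (hZ : Z' = cjs g Z) (hL : ∀ v, v ∈ L ↔ ∀ A ∈ Z, R A v) (hL' : ∀ v, v ∈ L' ↔ ∀ A ∈ Z', R A v) :
    L' = actL g L := by
  ext v
  rw [mem_actL, hL, hL', hZ]
  have hv : v = (g : M3) *ᵥ (((g⁻¹ : SL3) : M3) *ᵥ v) := by
    rw [Matrix.mulVec_mulVec, coe_mul_coe_inv, Matrix.one_mulVec]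
  constructor
  · intro h A hA
    have h1 := h (cj g A) (cj_mem_cjs.2 hA)
    rw [hv, hR] at h1
    exact h1
  · intro h A hA
    have h1 := h _ (mem_cjs.1 hA)
    rw [← hR g, cj_cj_inv, ← hv] at h1
    exact h1

lemma Lz_cjs (g : SL3) (W : Submodule ℝ M3) : Lz (cjs g W) = actL g (Lz W) := by
  refine equi_of_rel (R := fun (A : M3) (v : V3) =>
    (3 : ℝ) • ((tz A * tz A) *ᵥ v) = (2 * (tz A * tz A).trace) • v) ?_ (cen_cjs g W)
    (fun v => mem_Lz) (fun v => mem_Lz)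
  intro g A v
  have e1 : (3 : ℝ) • ((tz (cj g A) * tz (cj g A)) *ᵥ ((g : M3) *ᵥ v)) =
      (g : M3) *ᵥ ((3 : ℝ) • ((tz A * tz A) *ᵥ v)) := by
    rw [tz_cj, ← map_mul, cj_mulVec, Matrix.mulVec_smul]
  have e2 : (2 * (tz (cj g A) * tz (cj g A)).trace) • ((g : M3) *ᵥ v) =
      (g : M3) *ᵥ ((2 * (tz A * tz A).trace) • v) := by
    rw [tz_cj, ← map_mul, trace_cj, Matrix.mulVec_smul]
  rw [e1, e2]
  exact (mulVec_inj g).eq_iff

lemma par_cj (g : SL3) (A : M3) (v : V3) : Par (cj g A) ((g : M3) *ᵥ v) ↔ Par A v := by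
  rw [par_iff, par_iff]
  refine exists_congr fun c => ?_
  rw [cj_mulVec, ← Matrix.mulVec_smul]
  exact (mulVec_inj g).eq_iff

lemma Ln_cjs (g : SL3) (W : Submodule ℝ M3) : Ln (cjs g W) = actL g (Ln W) := by
  have h : {v : V3 | ∀ A ∈ cen (cjs g W), Par A v} =
      (Matrix.toLin' (g : M3)) '' {v : V3 | ∀ A ∈ cen W, Par A v} := by
    ext v
    constructor
    · intro hv
      refine ⟨((g⁻¹ : SL3) : M3) *ᵥ v, ?_, ?_⟩
      · intro A hA
        have h1 := hv (cj g A) (by rw [cen_cjs]; exact cj_mem_cjs.2 hA)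
        rw [← par_cj g, Matrix.mulVec_mulVec, coe_mul_coe_inv, Matrix.one_mulVec]
        exact h1
      · rw [Matrix.toLin'_apply, Matrix.mulVec_mulVec, coe_mul_coe_inv, Matrix.one_mulVec]
    · rintro ⟨w, hw, rfl⟩ A hA
      rw [cen_cjs] at hA
      have h1 := hw _ (mem_cjs.1 hA)
      rw [Matrix.toLin'_apply, ← cj_cj_inv g A, par_cj]
      exact h1
  rw [Ln, h, actL, Ln, Submodule.map_span]

lemma dsc_cj (g : SL3) (A : M3) : dsc (cj g A) = dsc A := by
  have hdet : ∀ B : M3, (cj g B).det = B.det := by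
    intro B
    have h1 : (g : M3).det = 1 := g.2
    have h2 : ((g⁻¹ : SL3) : M3).det = 1 := (g⁻¹ : SL3).2
    rw [cj_apply, Matrix.det_mul, Matrix.det_mul, h1, h2, one_mul, mul_one]
  rw [dsc, dsc, tz_cj, ← map_mul, trace_cj, hdet]

variable {X : Type*} [TopologicalSpace X] [T2Space X] [MulAction SL3 X] [ContinuousSMul SL3 X]

lemma iso_smul (g : SL3) (x : X) : iso (g • x) = cjs g (iso x) := by
  ext A
  rw [mem_cjs]
  exact mem_iso_smul

end Pool.Agent.Lib.MP_aa9b81_an
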