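import Mathlib
import Pool.Agent.Lib.MP_aa9b81_an.Equi
import Pool.Agent.Lib.MP_aa9b81_an.Dec

/-!
Continuous equivariant maps to homogeneous spaces.
-/

set_option autoImplicit false
set_option linter.unusedSectionVars false

open Filter Topology Matrix Module

namespace Pool.Agent.Lib.MP_aa9b81_an

variable {X : Type*} [TopologicalSpace X] [MulAction SL3 X]

/-- Existence of a continuous equivariant map to `SL3 ⧸ H` on an invariant set. -/
def MapsTo (H : Subgroup SL3) (Y : Set X) : Prop :=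
  ∃ f : X → SL3 ⧸ H, ContinuousOn f Y ∧ ∀ (g : SL3), ∀ x ∈ Y, f (g • x) = g • f x

/-- Abstract lifting lemma. -/
theorem exists_lift {Z : Type*} (act : SL3 → Z → Z) (hmul : ∀ g h z, act (g * h) z = act g (act h z))
    (hone : ∀ z, act 1 z = z) (z₀ : Z) (H : Subgroup SL3) (hH : ∀ g, g ∈ H ↔ act g z₀ = z₀)
    {Y : Set X} (hY : Inv SL3 Y) (φ : X → Z) (hφ : ∀ g, ∀ x ∈ Y, φ (g • x) = act g (φ x))
    (hor : ∀ x ∈ Y, ∃ g, φ x = act g z₀)
    (hcont : ∀ x ∈ Y, ∀ U : Ultrafilter X, (U : Filter X) ≤ 𝓝[Y] x →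
      ∃ (γ : X → SL3) (γ₀ : SL3), (∀ᶠ y in (U : Filter X), φ y = act (γ y) z₀) ∧
        φ x = act γ₀ z₀ ∧ Tendsto γ U (𝓝 γ₀)) : MapsTo H Y := by
  classical
  have huniq : ∀ g h : SL3, act g z₀ = act h z₀ → (g : SL3 ⧸ H) = (h : SL3 ⧸ H) := by
    intro g h hgh
    rw [QuotientGroup.eq, hH, hmul, ← hgh, ← hmul, inv_mul_cancel, hone]
  set c : X → SL3 := fun x => if h : ∃ g, φ x = act g z₀ then h.choose else 1 with hc
  have hcs : ∀ x ∈ Y, φ x = act (c x) z₀ := by
    intro x hx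
    have h1 := hor x hx
    have : c x = h1.choose := by
      rw [hc]
      simp only [dif_pos h1]
    rw [this]
    exact h1.choose_spec
  have hf : ∀ x ∈ Y, ∀ g, φ x = act g z₀ → (c x : SL3 ⧸ H) = (g : SL3 ⧸ H) := by
    intro x hx g hg
    exact huniq _ _ (by rw [← hcs x hx, hg])
  refine ⟨fun x => (c x : SL3 ⧸ H), ?_, ?_⟩
  · intro x hx
    rw [ContinuousWithinAt, tendsto_iff_ultrafilter]
    intro U hU
    obtain ⟨γ, γ₀, h1, h2, h3⟩ := hcont x hx U hU
    have h4 : ((c x : SL3) : SL3 ⧸ H) = (γ₀ : SL3 ⧸ H) := hf x hx γ₀ h2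
    rw [h4]
    have h5 : Tendsto (fun y => ((γ y : SL3) : SL3 ⧸ H)) U (𝓝 (γ₀ : SL3 ⧸ H)) :=
      (QuotientGroup.continuous_mk.tendsto γ₀).comp h3
    have hYU : ∀ᶠ y in (U : Filter X), y ∈ Y := hU self_mem_nhdsWithin
    refine h5.congr' ?_
    filter_upwards [h1, hYU] with y hy hyY
    exact (hf y hyY (γ y) hy).symm
  · intro g x hx
    change (c (g • x) : SL3 ⧸ H) = ((g * c x : SL3) : SL3 ⧸ H)
    refine hf (g • x) (hY g x hx) _ ?_
    rw [hφ g x hx, hcs x hx, hmul]

/-- Convergence of rescaled matrices. -/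
lemma tendsto_toSL {ι : Type*} {l : Filter ι} {P : ι → M3} {P₀ : M3} (hP : Tendsto P l (𝓝 P₀))
    (h₀ : P₀.det ≠ 0) : ∃ γ : ι → SL3, Tendsto γ l (𝓝 (toSL P₀ h₀)) ∧
      ∀ᶠ y in l, ∃ h : (P y).det ≠ 0, γ y = toSL (P y) h := by
  classical
  have hdet : Tendsto (fun y => (P y).det) l (𝓝 P₀.det) := by
    have hc : Continuous (fun M : M3 => M.det) := by fun_prop
    exact (hc.tendsto P₀).comp hP
  have hne : ∀ᶠ y in l, (P y).det ≠ 0 := hdet.eventually_ne h₀
  refine ⟨fun y => if h : (P y).det ≠ 0 then toSL (P y) h else 1, ?_, ?_⟩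
  · apply (Matrix.SpecialLinearGroup.isClosedEmbedding_val (n := Fin 3) (R := ℝ)).tendsto_nhds_iff.2
    have h1 : Tendsto (fun y => P y * Matrix.diagonal ![(P y).det⁻¹, 1, 1]) l
        (𝓝 (P₀ * Matrix.diagonal ![P₀.det⁻¹, 1, 1])) := by
      refine hP.mul ?_
      have h2 : Tendsto (fun y => ![(P y).det⁻¹, 1, 1]) l (𝓝 ![P₀.det⁻¹, 1, 1]) := by
        rw [tendsto_pi_nhds]
        intro i
        fin_cases i
        · exact hdet.inv₀ h₀
        · exact tendsto_const_nhds
        · exact tendsto_const_nhds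
      have hc : Continuous (fun v : Fin 3 → ℝ => Matrix.diagonal v) := by fun_prop
      exact (hc.tendsto _).comp h2
    refine h1.congr' ?_
    filter_upwards [hne] with y hy
    have h3 : (if h : (P y).det ≠ 0 then toSL (P y) h else (1 : SL3)) = toSL (P y) hy :=
      dif_pos hy
    exact (congrArg (fun g : SL3 => (g : M3)) h3).symm
  · filter_upwards [hne] with y hy
    exact ⟨hy, by simp only [dif_pos hy]⟩

/-- The coordinate subspace spanned by the first `k` basis vectors. -/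
def zk (k : ℕ) : Submodule ℝ V3 where
  carrier := {v | ∀ j : Fin 3, k ≤ (j : ℕ) → v j = 0}
  zero_mem' := fun j _ => rfl
  add_mem' := fun {v w} hv hw j hj => by rw [Pi.add_apply, hv j hj, hw j hj, add_zero]
  smul_mem' := fun c v hv j hj => by rw [Pi.smul_apply, hv j hj, smul_zero]

lemma mem_zk {k : ℕ} {v : V3} : v ∈ zk k ↔ ∀ j : Fin 3, k ≤ (j : ℕ) → v j = 0 := Iff.rfl

lemma single_mem_zk {k : ℕ} {j : Fin 3} (h : (j : ℕ) < k) : (Pi.single j 1 : V3) ∈ zk k := by
  intro i hi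
  rw [Pi.single_apply, if_neg]
  rintro rfl
  omega

lemma eq_sum_single (v : V3) : v = ∑ j, v j • (Pi.single j 1 : V3) := by
  ext i
  simp [Finset.sum_apply, Pi.single_apply]

/-- The standard parabolic subgroups: the stabilizers of the coordinate subspaces. -/
def parab (k : ℕ) : Subgroup SL3 where
  carrier := {g | actL g (zk k) = zk k}
  one_mem' := actL_one _
  mul_mem' := fun {g h} hg hh => by
    change actL (g * h) (zk k) = zk k
    rw [actL_mul, hh, hg]
  inv_mem' := fun {g} hg => by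
    change actL g⁻¹ (zk k) = zk k
    have : actL g⁻¹ (actL g (zk k)) = actL g⁻¹ (zk k) := by rw [hg]
    rw [← this, ← actL_mul, inv_mul_cancel, actL_one]

lemma mem_parab {k : ℕ} {g : SL3} : g ∈ parab k ↔ actL g (zk k) = zk k := Iff.rfl

lemma zk_le_of_cols {k : ℕ} {g : SL3} {L : Submodule ℝ V3}
    (h : ∀ j : Fin 3, (j : ℕ) < k → (g : M3) *ᵥ (Pi.single j 1) ∈ L) : actL g (zk k) ≤ L := by
  intro v hv
  obtain ⟨w, hw, rfl⟩ := mem_actL'.1 hv
  rw [eq_sum_single w, Matrix.mulVec_sum]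
  refine L.sum_mem fun j _ => ?_
  rw [Matrix.mulVec_smul]
  by_cases hj : (j : ℕ) < k
  · exact L.smul_mem _ (h j hj)
  · rw [hw j (by omega), zero_smul]
    exact L.zero_mem

/-- Explicit description of the parabolic subgroups. -/
lemma mem_parab_iff {k : ℕ} {g : SL3} :
    g ∈ parab k ↔ ∀ i j : Fin 3, (j : ℕ) < k → k ≤ (i : ℕ) → (g : M3) i j = 0 := by
  rw [mem_parab]
  constructor
  · intro h i j hj hi
    have h1 : (g : M3) *ᵥ (Pi.single j 1) ∈ zk k := by
      rw [← h]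
      exact mem_actL'.2 ⟨_, single_mem_zk hj, rfl⟩
    have h2 := h1 i hi
    simpa [Matrix.mulVec_single] using h2
  · intro h
    refine Submodule.eq_of_le_of_finrank_eq (zk_le_of_cols fun j hj i hi => ?_) (finrank_actL _ _)
    have := h i j hj hi
    simpa [Matrix.mulVec_single] using this

lemma finrank_zk_one : finrank ℝ (zk 1) = 1 := by
  rw [finrank_eq_one_iff']
  refine ⟨⟨Pi.single 0 1, single_mem_zk (by norm_num)⟩, ?_, ?_⟩
  · intro h
    have := congrFun (congrArg Subtype.val h) 0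
    simp at this
  · rintro ⟨w, hw⟩
    refine ⟨w 0, ?_⟩
    ext i
    fin_cases i
    · simp
    · have := hw 1 (by simp)
      simp [this]
    · have := hw 2 (by simp)
      simp [this]

end Pool.Agent.Lib.MP_aa9b81_an
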