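import Mathlib
import Pool.Agent.Lib.MP_aa9b81_an.Lift

/-!
Fields of lines and planes, and fields of split Cartan algebras, give maps to homogeneous spaces.
-/

set_option autoImplicit false
set_option linter.unusedSectionVars false

open Filter Topology Matrix Module

namespace Pool.Agent.Lib.MP_aa9b81_an

variable {X : Type*} [TopologicalSpace X] [MulAction SL3 X]

lemma finrank_zk_two : finrank ℝ (zk 2) = 2 := by
  have h : zk 2 = LinearMap.ker (LinearMap.proj (2 : Fin 3) : V3 →ₗ[ℝ] ℝ) := by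
    ext v
    rw [mem_zk, LinearMap.mem_ker, LinearMap.proj_apply]
    constructor
    · intro hv
      exact hv 2 (by simp)
    · intro hv j hj
      have : j = 2 := by
        apply Fin.ext
        have := j.2
        simp only [Fin.val_two]
        omega
      rw [this, hv]
  have h1 := LinearMap.finrank_range_add_finrank_ker (LinearMap.proj (2 : Fin 3) : V3 →ₗ[ℝ] ℝ)
  have h2 : LinearMap.range (LinearMap.proj (2 : Fin 3) : V3 →ₗ[ℝ] ℝ) = ⊤ := by
    rw [LinearMap.range_eq_top]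
    intro c
    exact ⟨fun _ => c, rfl⟩
  have h3 : finrank ℝ (Fin 3 → ℝ) = 3 := by simp
  rw [h2, finrank_top, Module.finrank_self, ← h, h3] at h1
  exact Nat.add_left_cancel (h1 : 1 + finrank ℝ (zk 2) = 1 + 2)

lemma continuous_colm : Continuous colm :=
  continuous_matrix fun i j => by
    simp only [colm, Matrix.of_apply]
    fun_prop

lemma exists_adapted {m n : ℕ} (hmn : m + n = 3) {U : Submodule ℝ V3} (hU : finrank ℝ U = m) :
    ∃ v : Fin 3 → V3, LinearIndependent ℝ v ∧ ∀ j : Fin 3, (j : ℕ) < m → v j ∈ U := by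
  obtain ⟨K, hK⟩ := Submodule.exists_isCompl U
  have hKn : finrank ℝ K = n := by
    have h1 := Submodule.finrank_add_eq_of_isCompl hK
    have h3 : finrank ℝ V3 = 3 := by simp
    omega
  let b : Basis (Fin m) ℝ U := finBasisOfFinrankEq ℝ U hU
  let b' : Basis (Fin n) ℝ K := finBasisOfFinrankEq ℝ K hKn
  let B : Basis (Fin m ⊕ Fin n) ℝ V3 := (b.prod b').map (Submodule.prodEquivOfIsCompl U K hK)
  let e : Fin m ⊕ Fin n ≃ Fin 3 := finSumFinEquiv.trans (finCongr hmn)
  refine ⟨fun j => B (e.symm j), B.linearIndependent.comp _ e.symm.injective, ?_⟩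
  intro j hj
  have h1 : e.symm j = Sum.inl ⟨j, hj⟩ := by
    rw [Equiv.symm_apply_eq]
    apply Fin.ext
    simp [e]
  simp only [h1]
  change (Submodule.prodEquivOfIsCompl U K hK) ((b.prod b') (Sum.inl ⟨j, hj⟩)) ∈ U
  rw [Basis.prod_apply]
  simp

lemma actL_eq_of_cols {k : ℕ} (hk : k = 1 ∨ k = 2) {g : SL3} {L : Submodule ℝ V3}
    (hL : finrank ℝ L = k)
    (h : ∀ j : Fin 3, (j : ℕ) < k → (g : M3) *ᵥ (Pi.single j 1) ∈ L) : L = actL g (zk k) := by
  have h1 : finrank ℝ (zk k) = k := by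
    rcases hk with rfl | rfl
    · exact finrank_zk_one
    · exact finrank_zk_two
  exact (Submodule.eq_of_le_of_finrank_eq (zk_le_of_cols h) (by rw [finrank_actL, h1, hL])).symm

lemma toSL_mulVec_single {P : M3} (h : P.det ≠ 0) (j : Fin 3) :
    ∃ c : ℝ, (toSL P h : M3) *ᵥ (Pi.single j 1) = c • (P *ᵥ (Pi.single j 1)) := by
  refine ⟨(![P.det⁻¹, 1, 1] : Fin 3 → ℝ) j, ?_⟩
  rw [toSL_coe, ← Matrix.mulVec_mulVec, ← Matrix.mulVec_smul]
  congr 1
  ext i
  simp only [Matrix.mulVec_diagonal, Pi.smul_apply, smul_eq_mul]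
  by_cases hij : i = j
  · rw [hij]
  · simp [hij]

/-- A continuous equivariant field of lines or planes. -/
theorem lift_field {k : ℕ} (hk : k = 1 ∨ k = 2) {Y : Set X} (hY : Inv SL3 Y)
    (L : X → Submodule ℝ V3) (hL : ∀ x ∈ Y, finrank ℝ (L x) = k) (hcf : CF Y L)
    (heq : ∀ (g : SL3), ∀ x ∈ Y, L (g • x) = actL g (L x)) : MapsTo (parab k) Y := by
  have hsec := hcf.sec hL
  have hmn : k + (3 - k) = 3 := by omega
  have hcols : ∀ (P : M3) (h : P.det ≠ 0) (U : Submodule ℝ V3), finrank ℝ U = k →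
      (∀ j : Fin 3, (j : ℕ) < k → P *ᵥ (Pi.single j 1) ∈ U) → U = actL (toSL P h) (zk k) := by
    intro P h U hU hP
    refine actL_eq_of_cols hk hU fun j hj => ?_
    obtain ⟨c, hc⟩ := toSL_mulVec_single h j
    rw [hc]
    exact U.smul_mem c (hP j hj)
  refine exists_lift actL actL_mul actL_one (zk k) (parab k) (fun g => mem_parab) hY L heq ?_ ?_
  · intro x hx
    obtain ⟨v, hv, hvU⟩ := exists_adapted hmn (hL x hx)
    refine ⟨toSL (colm v) (det_colm_ne_zero hv), hcols _ _ _ (hL x hx) fun j hj => ?_⟩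
    rw [colm_mulVec_single]
    exact hvU j hj
  · intro x hx U hU
    obtain ⟨v, hv, hvU⟩ := exists_adapted hmn (hL x hx)
    have hs : ∀ j : Fin 3, ∃ s : X → V3, ((j : ℕ) < k → ∀ y, s y ∈ L y) ∧
        Tendsto s U (𝓝 (v j)) := by
      intro j
      by_cases hj : (j : ℕ) < k
      · obtain ⟨s, hs1, hs2⟩ := hsec x hx (v j) (hvU j hj)
        exact ⟨s, fun _ => hs1, hs2.mono_left hU⟩
      · exact ⟨fun _ => v j, fun h => absurd h hj, tendsto_const_nhds⟩
    choose s hs1 hs2 using hs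
    have hP : Tendsto (fun y => colm (fun j => s j y)) U (𝓝 (colm v)) :=
      (continuous_colm.tendsto v).comp (tendsto_pi_nhds.2 hs2)
    obtain ⟨γ, hγ1, hγ2⟩ := tendsto_toSL hP (det_colm_ne_zero hv)
    refine ⟨γ, toSL (colm v) (det_colm_ne_zero hv), ?_, ?_, hγ1⟩
    · have hYU : ∀ᶠ y in (U : Filter X), y ∈ Y := hU self_mem_nhdsWithin
      filter_upwards [hγ2, hYU] with y hy hyY
      obtain ⟨h, hh⟩ := hy
      rw [hh]
      refine hcols _ _ _ (hL y hyY) fun j hj => ?_
      rw [colm_mulVec_single]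
      exact hs1 j hj y
    · refine hcols _ _ _ (hL x hx) fun j hj => ?_
      rw [colm_mulVec_single]
      exact hvU j hj

end Pool.Agent.Lib.MP_aa9b81_an
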