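import Mathlib
import Pool.Agent.Lib.MP_aa9b81_an.Lift2

/-!
Fields of split Cartan algebras give maps to the homogeneous space of the normalizer of the
diagonal matrices.
-/

set_option autoImplicit false
set_option linter.unusedSectionVars false

open Filter Topology Matrix Module

namespace Pool.Agent.Lib.MP_aa9b81_an

variable {X : Type*} [TopologicalSpace X] [MulAction SL3 X]

/-- The normalizer of the algebra of diagonal matrices. -/
def nrmD : Subgroup SL3 where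
  carrier := {g | cjs g diag3 = diag3}
  one_mem' := cjs_one _
  mul_mem' := fun {g h} hg hh => by
    change cjs (g * h) diag3 = diag3
    rw [cjs_mul, hh, hg]
  inv_mem' := fun {g} hg => by
    change cjs g⁻¹ diag3 = diag3
    have : cjs g⁻¹ (cjs g diag3) = cjs g⁻¹ diag3 := by rw [hg]
    rw [← this, ← cjs_mul, inv_mul_cancel, cjs_one]

lemma mem_nrmD {g : SL3} : g ∈ nrmD ↔ cjs g diag3 = diag3 := Iff.rfl

lemma dsc_diagonal (c : Fin 3 → ℝ) :
    dsc (Matrix.diagonal c) = ((c 0 - c 1) * (c 1 - c 2) * (c 0 - c 2)) ^ 2 := by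
  have h : tz (Matrix.diagonal c) =
      Matrix.diagonal (fun i => c i - (c 0 + c 1 + c 2) / 3) := by
    rw [tz, Matrix.trace_fin_three]
    ext i j
    by_cases hij : i = j
    · subst hij
      simp
    · simp [hij]
  rw [dsc, h, Matrix.diagonal_mul_diagonal, Matrix.det_diagonal, Matrix.trace_fin_three,
    Fin.prod_univ_three]
  simp only [Matrix.diagonal_apply_eq]
  ring

lemma diagonal_mulVec_single (c : Fin 3 → ℝ) (i : Fin 3) :
    Matrix.diagonal c *ᵥ (Pi.single i 1 : V3) = c i • (Pi.single i 1 : V3) := by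
  ext j
  simp only [Matrix.mulVec_diagonal, Pi.smul_apply, smul_eq_mul]
  by_cases hij : j = i
  · rw [hij]
  · simp [hij]

lemma cartan_of_cols {Z : Submodule ℝ M3} {g : SL3} (hZ : Z = cjs g diag3) {v : Fin 3 → V3}
    (h : (colm v).det ≠ 0) (hv : ∀ i, ∀ B ∈ Z, Par B (v i)) : Z = cjs (toSL (colm v) h) diag3 := by
  have hle : Z ≤ cjs (toSL (colm v) h) diag3 := by
    intro B hB
    choose b hb using fun i => par_iff.1 (hv i B hB)
    have h1 := cj_toSL h (mul_colm hb)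
    rw [h1]
    exact cj_mem_cjs.2 (mem_diag3.2 ⟨b, rfl⟩)
  exact Submodule.eq_of_le_of_finrank_eq hle (by rw [hZ, finrank_cjs, finrank_cjs])

/-- The Rayleigh quotient. -/
noncomputable def rayq (p : M3 × V3) : ℝ := ((p.1 *ᵥ p.2) ⬝ᵥ p.2) / (p.2 ⬝ᵥ p.2)

lemma rayq_eq {A : M3} {w : V3} (hw : w ≠ 0) {μ : ℝ} (hμ : A *ᵥ w = μ • w) :
    rayq (A, w) = μ := by
  have h3 : w ⬝ᵥ w ≠ 0 := fun h => hw (dotProduct_self_eq_zero.1 h)
  rw [rayq, hμ, smul_dotProduct, smul_eq_mul, mul_div_assoc, div_self h3, mul_one]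

lemma continuousAt_rayq {p : M3 × V3} (hp : p.2 ≠ 0) : ContinuousAt rayq p := by
  have h3 : p.2 ⬝ᵥ p.2 ≠ 0 := fun h => hp (dotProduct_self_eq_zero.1 h)
  have h1 : Continuous (fun p : M3 × V3 => (p.1 *ᵥ p.2) ⬝ᵥ p.2) := by fun_prop
  have h2 : Continuous (fun p : M3 × V3 => p.2 ⬝ᵥ p.2) := by fun_prop
  exact h1.continuousAt.div h2.continuousAt h3

lemma tendsto_ray {ι : Type*} {l : Filter ι} {a : ι → M3} {v : ι → V3} {A : M3} {w : V3}
    (ha : Tendsto a l (𝓝 A)) (hv : Tendsto v l (𝓝 w)) (hw : w ≠ 0) {μ : ℝ}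
    (hμ : A *ᵥ w = μ • w) :
    Tendsto (fun y => rayq (a y, v y)) l (𝓝 μ) := by
  have h0 : Tendsto (fun y => (a y, v y)) l (𝓝 (A, w)) := ha.prodMk_nhds hv
  have h1 := (continuousAt_rayq (p := (A, w)) hw).tendsto.comp h0
  rw [rayq_eq hw hμ] at h1
  exact h1

/-- A continuous equivariant field of split Cartan algebras. -/
theorem lift_cartan {Y : Set X} (hY : Inv SL3 Y) (Z : X → Submodule ℝ M3)
    (hZ : ∀ x ∈ Y, ∃ g, Z x = cjs g diag3) (hcf : CF Y Z)
    (heq : ∀ (g : SL3), ∀ x ∈ Y, Z (g • x) = cjs g (Z x)) : MapsTo nrmD Y := by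
  classical
  have hfin : ∀ x ∈ Y, finrank ℝ (Z x) = 3 := by
    intro x hx
    obtain ⟨g, hg⟩ := hZ x hx
    rw [hg, finrank_cjs, finrank_diag3]
  have hsec := hcf.sec hfin
  refine exists_lift cjs cjs_mul cjs_one diag3 nrmD (fun g => mem_nrmD) hY Z heq hZ ?_
  intro x hx U hU
  have hYU : ∀ᶠ y in (U : Filter X), y ∈ Y := hU self_mem_nhdsWithin
  set G : X → SL3 := fun y => if h : ∃ g, Z y = cjs g diag3 then h.choose else 1 with hG
  have hGs : ∀ y ∈ Y, Z y = cjs (G y) diag3 := by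
    intro y hy
    have h1 := hZ y hy
    have : G y = h1.choose := by
      rw [hG]
      simp only [dif_pos h1]
    rw [this]
    exact h1.choose_spec
  set v : Fin 3 → X → V3 := fun i y =>
    ‖(G y : M3) *ᵥ (Pi.single i 1 : V3)‖⁻¹ • ((G y : M3) *ᵥ (Pi.single i 1 : V3)) with hv
  have hcol0 : ∀ i y, (G y : M3) *ᵥ (Pi.single i 1 : V3) ≠ 0 := by
    intro i y h
    have h1 : (G y : M3) *ᵥ (Pi.single i 1 : V3) = (G y : M3) *ᵥ 0 := by
      rw [h, Matrix.mulVec_zero]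
    have h2 := congrFun (mulVec_inj (G y) h1) i
    simp at h2
  have hv1 : ∀ i y, ‖v i y‖ = 1 := by
    intro i y
    rw [hv]
    simp only [norm_smul, norm_inv, norm_norm]
    exact inv_mul_cancel₀ (norm_ne_zero_iff.2 (hcol0 i y))
  have hvpar : ∀ i y (c : Fin 3 → ℝ), (cj (G y) (Matrix.diagonal c)) *ᵥ (v i y) =
      c i • v i y := by
    intro i y c
    rw [hv]
    simp only
    rw [Matrix.mulVec_smul, cj_mulVec, diagonal_mulVec_single, Matrix.mulVec_smul, smul_comm]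
  have hvP : ∀ i, ∀ y ∈ Y, ∀ B ∈ Z y, Par B (v i y) := by
    intro i y hy B hB
    rw [hGs y hy] at hB
    obtain ⟨B', hB', rfl⟩ := hB
    obtain ⟨c, rfl⟩ := mem_diag3.1 hB'
    exact par_iff.2 ⟨c i, hvpar i y c⟩
  clear_value v
  clear_value G
  -- limits of the unit eigenvectors
  have hw : ∀ i, ∃ w : V3, ‖w‖ = 1 ∧ Tendsto (v i) U (𝓝 w) := by
    intro i
    have hc : IsCompact (Metric.sphere (0 : V3) 1) := isCompact_sphere _ _
    have hmem : Metric.sphere (0 : V3) 1 ∈ U.map (v i) := by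
      rw [Ultrafilter.mem_map]
      refine Filter.univ_mem' fun y => ?_
      simp only [Set.mem_preimage, mem_sphere_zero_iff_norm]
      exact hv1 i y
    obtain ⟨w, hw1, hw2⟩ := hc.ultrafilter_le_nhds' _ hmem
    exact ⟨w, by simpa using hw1, hw2⟩
  choose w hw1 hw2 using hw
  have hw0 : ∀ i, w i ≠ 0 := fun i h => by
    have := hw1 i
    rw [h, norm_zero] at this
    exact absurd this (by norm_num)
  have hwP : ∀ i, ∀ B ∈ Z x, Par B (w i) := by
    intro i B hB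
    obtain ⟨s, hs1, hs2⟩ := hsec x hx B hB
    have h1 : Tendsto (fun y => (s y, v i y)) U (𝓝 (B, w i)) :=
      (hs2.mono_left hU).prodMk_nhds (hw2 i)
    refine isClosed_par.mem_of_tendsto h1 ?_
    filter_upwards [hYU] with y hy
    exact hvP i y hy _ (hs1 y)
  -- an element with distinct eigenvalues
  obtain ⟨g₀, hg₀⟩ := hZ x hx
  obtain ⟨c₀, hc0, hc1, hc2⟩ : ∃ c₀ : Fin 3 → ℝ, c₀ 0 = 1 ∧ c₀ 1 = 0 ∧ c₀ 2 = -1 :=
    ⟨![1, 0, -1], rfl, rfl, rfl⟩
  set A₀ : M3 := cj g₀ (Matrix.diagonal c₀) with hA₀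
  have hA₀Z : A₀ ∈ Z x := by
    rw [hg₀]
    exact cj_mem_cjs.2 (mem_diag3.2 ⟨_, rfl⟩)
  have hdA : 0 < dsc A₀ := by
    rw [hA₀, dsc_cj, dsc_diagonal, hc0, hc1, hc2]
    norm_num
  obtain ⟨a, ha1, ha2⟩ := hsec x hx A₀ hA₀Z
  have ha3 : Tendsto a U (𝓝 A₀) := ha2.mono_left hU
  choose μ hμ using fun i => par_iff.1 (hwP i A₀ hA₀Z)
  set m : Fin 3 → X → ℝ := fun i y => rayq (a y, v i y) with hm
  have hmlim : ∀ i, Tendsto (m i) U (𝓝 (μ i)) := fun i =>
    tendsto_ray ha3 (hw2 i) (hw0 i) (hμ i)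
  have hdisc : ∀ᶠ y in (U : Filter X), dsc (a y) =
      ((m 0 y - m 1 y) * (m 1 y - m 2 y) * (m 0 y - m 2 y)) ^ 2 := by
    filter_upwards [hYU] with y hy
    have h1 := ha1 y
    rw [hGs y hy] at h1
    obtain ⟨B', hB', hB2⟩ := h1
    obtain ⟨c, rfl⟩ := mem_diag3.1 hB'
    have hB3 : a y = cj (G y) (Matrix.diagonal c) := hB2.symm
    have h2 : ∀ i, m i y = c i := by
      intro i
      have h3 : v i y ≠ 0 := by
        intro h
        have h5 := hv1 i y
        rw [h, norm_zero] at h5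
        exact absurd h5 (by norm_num)
      refine rayq_eq h3 ?_
      rw [hB3, hvpar i y c]
    rw [hB3, dsc_cj, dsc_diagonal, h2, h2, h2]
  have hdlim : dsc A₀ = ((μ 0 - μ 1) * (μ 1 - μ 2) * (μ 0 - μ 2)) ^ 2 := by
    have h1 : Tendsto (fun y => dsc (a y)) U (𝓝 (dsc A₀)) :=
      (continuous_dsc.tendsto A₀).comp ha3
    have h2 : Tendsto (fun y => ((m 0 y - m 1 y) * (m 1 y - m 2 y) * (m 0 y - m 2 y)) ^ 2) U
        (𝓝 (((μ 0 - μ 1) * (μ 1 - μ 2) * (μ 0 - μ 2)) ^ 2)) :=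
      (((((hmlim 0).sub (hmlim 1)).mul ((hmlim 1).sub (hmlim 2))).mul
        ((hmlim 0).sub (hmlim 2))).pow 2)
    exact tendsto_nhds_unique h1 (h2.congr' (hdisc.mono fun y hy => hy.symm))
  have hμinj : Function.Injective μ := by
    have hne : (μ 0 - μ 1) * (μ 1 - μ 2) * (μ 0 - μ 2) ≠ 0 := by
      intro h
      rw [hdlim, h] at hdA
      norm_num at hdA
    have h1 : μ 0 ≠ μ 1 := fun h => hne (by rw [h]; ring)
    have h2 : μ 1 ≠ μ 2 := fun h => hne (by rw [h]; ring)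
    have h3 : μ 0 ≠ μ 2 := fun h => hne (by rw [h]; ring)
    intro i j hij
    fin_cases i <;> fin_cases j <;> simp at hij ⊢
    · exact h1 hij
    · exact h3 hij
    · exact h1 hij.symm
    · exact h2 hij
    · exact h3 hij.symm
    · exact h2 hij.symm
  have hli := linearIndependent_of_eigen hμinj hw0 hμ
  have hP : Tendsto (fun y => colm (fun j => v j y)) U (𝓝 (colm w)) :=
    (continuous_colm.tendsto w).comp (tendsto_pi_nhds.2 hw2)
  obtain ⟨γ, hγ1, hγ2⟩ := tendsto_toSL hP (det_colm_ne_zero hli)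
  refine ⟨γ, toSL (colm w) (det_colm_ne_zero hli), ?_, ?_, hγ1⟩
  · filter_upwards [hγ2, hYU] with y hy hyY
    obtain ⟨h, hh⟩ := hy
    rw [hh]
    exact cartan_of_cols (hGs y hyY) h (fun i => hvP i y hyY)
  · exact cartan_of_cols hg₀ _ hwP

end Pool.Agent.Lib.MP_aa9b81_an
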