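import Mathlib
import Pool.Agent.Lib.MP_aa9b81_an.CReg
import Pool.Agent.Lib.MP_aa9b81_an.Equi

/-!
Irreducible real Lie algebras of trace-free 3 by 3 matrices: the invariant symmetric form.
-/

set_option autoImplicit false
set_option linter.unusedSectionVars false

open Matrix Module

namespace Pool.Agent.Lib.MP_aa9b81_an

/-- Real part of a matrix. -/
def re3 (A : MC) : M3 := Matrix.of (fun i j => (A i j).re)

/-- Imaginary part of a matrix. -/
def im3 (A : MC) : M3 := Matrix.of (fun i j => (A i j).im)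

/-- Complexification of matrices. -/
noncomputable def ofR : M3 →ₐ[ℝ] MC := AlgHom.mapMatrix (Algebra.ofId ℝ ℂ)

lemma ofR_apply (A : M3) (i j : Fin 3) : ofR A i j = (A i j : ℂ) := rfl

lemma re3_ofR (A : M3) : re3 (ofR A) = A := by
  ext i j
  simp [re3, ofR_apply]

lemma im3_ofR (A : M3) : im3 (ofR A) = 0 := by
  ext i j
  simp [im3, ofR_apply]

lemma re3_add (A B : MC) : re3 (A + B) = re3 A + re3 B := by
  ext i j
  simp [re3]

lemma im3_add (A B : MC) : im3 (A + B) = im3 A + im3 B := by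
  ext i j
  simp [im3]

lemma re3_sub (A B : MC) : re3 (A - B) = re3 A - re3 B := by
  ext i j
  simp [re3]

lemma im3_sub (A B : MC) : im3 (A - B) = im3 A - im3 B := by
  ext i j
  simp [im3]

lemma re3_smul (c : ℂ) (A : MC) : re3 (c • A) = c.re • re3 A - c.im • im3 A := by
  ext i j
  simp [re3, im3]

lemma im3_smul (c : ℂ) (A : MC) : im3 (c • A) = c.re • im3 A + c.im • re3 A := by
  ext i j
  simp [re3, im3]

lemma re3_mul (A B : MC) : re3 (A * B) = re3 A * re3 B - im3 A * im3 B := by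
  ext i j
  simp [re3, im3, Matrix.mul_apply, Fin.sum_univ_three]
  ring

lemma im3_mul (A B : MC) : im3 (A * B) = re3 A * im3 B + im3 A * re3 B := by
  ext i j
  simp [re3, im3, Matrix.mul_apply, Fin.sum_univ_three]
  ring

lemma re3_transpose (A : MC) : re3 Aᵀ = (re3 A)ᵀ := rfl

lemma im3_transpose (A : MC) : im3 Aᵀ = (im3 A)ᵀ := rfl

lemma ofR_transpose (A : M3) : ofR Aᵀ = (ofR A)ᵀ := rfl

lemma eq_zero_of_re_im {A : MC} (h1 : re3 A = 0) (h2 : im3 A = 0) : A = 0 := by
  ext i j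
  apply Complex.ext
  · exact congrFun (congrFun h1 i) j
  · exact congrFun (congrFun h2 i) j

/-- The complexification of a real space of matrices. -/
def cplx (W : Submodule ℝ M3) : Submodule ℂ MC where
  carrier := {A | re3 A ∈ W ∧ im3 A ∈ W}
  zero_mem' := by
    have h1 : re3 0 = 0 := by ext i j; simp [re3]
    have h2 : im3 0 = 0 := by ext i j; simp [im3]
    exact ⟨by rw [h1]; exact W.zero_mem, by rw [h2]; exact W.zero_mem⟩
  add_mem' := fun {A B} hA hB => ⟨by rw [re3_add]; exact W.add_mem hA.1 hB.1,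
    by rw [im3_add]; exact W.add_mem hA.2 hB.2⟩
  smul_mem' := fun c A hA => ⟨by
    rw [re3_smul]; exact W.sub_mem (W.smul_mem _ hA.1) (W.smul_mem _ hA.2), by
    rw [im3_smul]; exact W.add_mem (W.smul_mem _ hA.2) (W.smul_mem _ hA.1)⟩

lemma mem_cplx {W : Submodule ℝ M3} {A : MC} : A ∈ cplx W ↔ re3 A ∈ W ∧ im3 A ∈ W := Iff.rfl

lemma ofR_mem_cplx {W : Submodule ℝ M3} {A : M3} : ofR A ∈ cplx W ↔ A ∈ W := by
  rw [mem_cplx, re3_ofR, im3_ofR]
  exact ⟨fun h => h.1, fun h => ⟨h, W.zero_mem⟩⟩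

lemma no_common_ev {W : Submodule ℝ M3} (htop : alg W = ⊤) {v : VC} (hv : v ≠ 0) :
    ∃ A ∈ W, ∀ c : ℂ, ofR A *ᵥ v ≠ c • v := by
  by_contra hcon
  push Not at hcon
  have h1 : ∀ A : M3, ∃ c : ℂ, ofR A *ᵥ v = c • v := by
    intro A
    have hA : A ∈ alg W := by rw [htop]; trivial
    rw [mem_alg] at hA
    induction hA using Algebra.adjoin_induction with
    | mem A hA => exact hcon A hA
    | algebraMap r =>
      refine ⟨r, ?_⟩
      rw [Algebra.algebraMap_eq_smul_one, map_smul, map_one, Matrix.smul_mulVec,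
        Matrix.one_mulVec]
      ext i
      simp
    | add A B _ _ hA hB =>
      obtain ⟨c, hc⟩ := hA
      obtain ⟨d, hd⟩ := hB
      exact ⟨c + d, by rw [map_add, Matrix.add_mulVec, hc, hd, add_smul]⟩
    | mul A B _ _ hA hB =>
      obtain ⟨c, hc⟩ := hA
      obtain ⟨d, hd⟩ := hB
      exact ⟨d * c, by
        rw [map_mul, ← Matrix.mulVec_mulVec, hd, Matrix.mulVec_smul, hc, smul_smul]⟩
  obtain ⟨j, hj⟩ : ∃ j, v j ≠ 0 := by
    by_contra h0
    push Not at h0
    exact hv (funext h0)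
  obtain ⟨k, hk⟩ : ∃ k : Fin 3, k ≠ j := ⟨j + 1, by fin_cases j <;> decide⟩
  obtain ⟨c, hc⟩ := h1 (Matrix.single k j 1)
  obtain ⟨d, hd⟩ := h1 (Matrix.single j j 1)
  have e1 := congrFun hc k
  have e2 := congrFun hc j
  have e3 := congrFun hd k
  have e4 := congrFun hd j
  have s1 : (ofR (Matrix.single k j 1) *ᵥ v) k = v j := by
    simp only [Matrix.mulVec, dotProduct, ofR_apply, Matrix.single_apply]
    rw [Finset.sum_eq_single j]
    · simp
    · intro b _ hb
      simp [Ne.symm hb]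
    · simp
  have s2 : (ofR (Matrix.single k j 1) *ᵥ v) j = 0 := by
    simp only [Matrix.mulVec, dotProduct, ofR_apply, Matrix.single_apply]
    refine Finset.sum_eq_zero fun b _ => ?_
    simp [hk]
  rw [s1, Pi.smul_apply, smul_eq_mul] at e1
  rw [s2, Pi.smul_apply, smul_eq_mul] at e2
  have hc0 : c = 0 := by
    rcases mul_eq_zero.1 e2.symm with h | h
    · exact h
    · exact absurd h hj
  rw [hc0, zero_mul] at e1
  exact hj e1

lemma no_common_ef {W : Submodule ℝ M3} (htop : alg W = ⊤) {v : VC} (hv : v ≠ 0) :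
    ∃ A ∈ W, ∀ c : ℂ, v ᵥ* ofR A ≠ c • v := by
  by_contra hcon
  push Not at hcon
  have h1 : ∀ A : M3, ∃ c : ℂ, v ᵥ* ofR A = c • v := by
    intro A
    have hA : A ∈ alg W := by rw [htop]; trivial
    rw [mem_alg] at hA
    induction hA using Algebra.adjoin_induction with
    | mem A hA => exact hcon A hA
    | algebraMap r =>
      refine ⟨r, ?_⟩
      rw [Algebra.algebraMap_eq_smul_one, map_smul, map_one, Matrix.vecMul_smul,
        Matrix.vecMul_one]
      ext i
      simp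
    | add A B _ _ hA hB =>
      obtain ⟨c, hc⟩ := hA
      obtain ⟨d, hd⟩ := hB
      exact ⟨c + d, by rw [map_add, Matrix.vecMul_add, hc, hd, add_smul]⟩
    | mul A B _ _ hA hB =>
      obtain ⟨c, hc⟩ := hA
      obtain ⟨d, hd⟩ := hB
      exact ⟨c * d, by
        rw [map_mul, ← Matrix.vecMul_vecMul, hc, Matrix.smul_vecMul, hd, smul_smul]⟩
  obtain ⟨j, hj⟩ : ∃ j, v j ≠ 0 := by
    by_contra h0
    push Not at h0
    exact hv (funext h0)
  obtain ⟨k, hk⟩ : ∃ k : Fin 3, k ≠ j := ⟨j + 1, by fin_cases j <;> decide⟩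
  obtain ⟨c, hc⟩ := h1 (Matrix.single j k 1)
  have e1 := congrFun hc k
  have e2 := congrFun hc j
  have s1 : (v ᵥ* ofR (Matrix.single j k 1)) k = v j := by
    simp only [Matrix.vecMul, dotProduct, ofR_apply, Matrix.single_apply]
    rw [Finset.sum_eq_single j]
    · simp
    · intro b _ hb
      simp [Ne.symm hb]
    · simp
  have s2 : (v ᵥ* ofR (Matrix.single j k 1)) j = 0 := by
    simp only [Matrix.vecMul, dotProduct, ofR_apply, Matrix.single_apply]
    refine Finset.sum_eq_zero fun b _ => ?_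
    simp [hk]
  rw [s1, Pi.smul_apply, smul_eq_mul] at e1
  rw [s2, Pi.smul_apply, smul_eq_mul] at e2
  have hc0 : c = 0 := by
    rcases mul_eq_zero.1 e2.symm with h | h
    · exact h
    · exact absurd h hj
  rw [hc0, zero_mul] at e1
  exact hj e1

lemma irr_cplx {W : Submodule ℝ M3} (hb : ∀ A ∈ W, ∀ B ∈ W, A * B - B * A ∈ W)
    (ht : ∀ A ∈ W, A.trace = 0) (htop : alg W = ⊤) : Irr (cplx W) := by
  constructor
  · intro A hA B hB
    rw [mem_cplx, re3_sub, im3_sub, re3_mul, re3_mul, im3_mul, im3_mul]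
    constructor
    · have : re3 A * re3 B - im3 A * im3 B - (re3 B * re3 A - im3 B * im3 A) =
        (re3 A * re3 B - re3 B * re3 A) - (im3 A * im3 B - im3 B * im3 A) := by abel
      rw [this]
      exact W.sub_mem (hb _ hA.1 _ hB.1) (hb _ hA.2 _ hB.2)
    · have : re3 A * im3 B + im3 A * re3 B - (re3 B * im3 A + im3 B * re3 A) =
        (re3 A * im3 B - im3 B * re3 A) + (im3 A * re3 B - re3 B * im3 A) := by abel
      rw [this]
      exact W.add_mem (hb _ hA.1 _ hB.2) (hb _ hA.2 _ hB.1)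
  · intro A hA
    have h1 := ht _ hA.1
    have h2 := ht _ hA.2
    rw [Matrix.trace_fin_three] at h1 h2 ⊢
    apply Complex.ext
    · simpa [re3] using h1
    · simpa [im3] using h2
  · intro v hv
    obtain ⟨A, hA, hc⟩ := no_common_ev htop hv
    exact ⟨ofR A, ofR_mem_cplx.2 hA, hc⟩
  · intro v hv
    obtain ⟨A, hA, hc⟩ := no_common_ef htop hv
    exact ⟨ofR A, ofR_mem_cplx.2 hA, hc⟩

/-- The forms invariant under a space of matrices. -/
def fm (W : Submodule ℝ M3) : Submodule ℝ M3 where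
  carrier := {S | ∀ A ∈ W, A * S + S * Aᵀ = 0}
  zero_mem' := fun A _ => by simp
  add_mem' := fun {S T} hS hT A hA => by
    have : A * (S + T) + (S + T) * Aᵀ = (A * S + S * Aᵀ) + (A * T + T * Aᵀ) := by noncomm_ring
    rw [this, hS A hA, hT A hA, add_zero]
  smul_mem' := fun c S hS A hA => by
    rw [mul_smul_comm, smul_mul_assoc, ← smul_add, hS A hA, smul_zero]

lemma mem_fm {W : Submodule ℝ M3} {S : M3} : S ∈ fm W ↔ ∀ A ∈ W, A * S + S * Aᵀ = 0 := Iff.rfl

lemma exists_real_form {W : Submodule ℝ M3} (hb : ∀ A ∈ W, ∀ B ∈ W, A * B - B * A ∈ W)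
    (ht : ∀ A ∈ W, A.trace = 0) (htop : alg W = ⊤) {M : M3} (hM : M.trace = 0) (hMW : M ∉ W) :
    ∃ S ∈ fm W, S ≠ 0 := by
  have hMt : (ofR M).trace = 0 := by
    rw [Matrix.trace_fin_three] at hM ⊢
    simp only [ofR_apply]
    exact_mod_cast hM
  obtain ⟨S, hS0, hS⟩ := exists_form (irr_cplx hb ht htop) hMt (fun h => hMW (ofR_mem_cplx.1 h))
  have hre : re3 S ∈ fm W := by
    intro A hA
    have h1 := congrArg re3 (hS _ (ofR_mem_cplx.2 hA))
    rw [re3_add, re3_mul, re3_mul, re3_transpose, im3_transpose, re3_ofR, im3_ofR] at h1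
    have h2 : re3 (0 : MC) = 0 := by ext i j; simp [re3]
    simpa [h2] using h1
  have him : im3 S ∈ fm W := by
    intro A hA
    have h1 := congrArg im3 (hS _ (ofR_mem_cplx.2 hA))
    rw [im3_add, im3_mul, im3_mul, re3_transpose, im3_transpose, re3_ofR, im3_ofR] at h1
    have h2 : im3 (0 : MC) = 0 := by ext i j; simp [im3]
    simpa [h2] using h1
  by_cases h0 : re3 S = 0
  · exact ⟨im3 S, him, fun h1 => hS0 (eq_zero_of_re_im h0 h1)⟩
  · exact ⟨re3 S, hre, h0⟩

/-- Singular invariant forms vanish. -/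
lemma fm_det {W : Submodule ℝ M3} (htop : alg W = ⊤) {S : M3} (hS : S ∈ fm W)
    (hdet : S.det = 0) : S = 0 := by
  obtain ⟨v, hv0, hv⟩ := Matrix.exists_mulVec_eq_zero_iff.2 hdet
  have h1 : ∀ A ∈ alg W, ∀ w : V3, S *ᵥ w = 0 → S *ᵥ (Aᵀ *ᵥ w) = 0 := by
    intro A hA
    rw [mem_alg] at hA
    induction hA using Algebra.adjoin_induction with
    | mem A hA =>
      intro w hw
      have h2 : (A * S + S * Aᵀ) *ᵥ w = (0 : M3) *ᵥ w := by rw [hS A hA]
      rw [Matrix.add_mulVec, ← Matrix.mulVec_mulVec, ← Matrix.mulVec_mulVec, hw,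
        Matrix.mulVec_zero, zero_add, Matrix.zero_mulVec] at h2
      exact h2
    | algebraMap r =>
      intro w hw
      rw [Algebra.algebraMap_eq_smul_one, Matrix.transpose_smul, Matrix.transpose_one,
        Matrix.smul_mulVec, Matrix.one_mulVec, Matrix.mulVec_smul, hw, smul_zero]
    | add A B _ _ hA hB =>
      intro w hw
      rw [Matrix.transpose_add, Matrix.add_mulVec, Matrix.mulVec_add, hA w hw, hB w hw, add_zero]
    | mul A B _ _ hA hB =>
      intro w hw
      rw [Matrix.transpose_mul, ← Matrix.mulVec_mulVec]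
      exact hB _ (hA w hw)
  obtain ⟨j, hj⟩ : ∃ j, v j ≠ 0 := by
    by_contra h0
    push Not at h0
    exact hv0 (funext h0)
  ext i k
  have h2 := h1 (Matrix.single j k 1) (by rw [htop]; trivial) v hv
  have h3 : (Matrix.single j k (1 : ℝ))ᵀ *ᵥ v = v j • (Pi.single k 1 : V3) := by
    rw [Matrix.transpose_single]
    ext l
    simp only [Matrix.mulVec, dotProduct, Matrix.single_apply, Pi.smul_apply, smul_eq_mul]
    by_cases hl : l = k
    · subst hl
      rw [Finset.sum_eq_single j]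
      · simp
      · intro b _ hb
        simp [Ne.symm hb]
      · simp
    · rw [Finset.sum_eq_zero]
      · simp [hl]
      · intro b _
        simp [Ne.symm hl]
  rw [h3, Matrix.mulVec_smul] at h2
  have h4 := (smul_eq_zero.1 h2).resolve_left hj
  have h5 := congrFun h4 i
  simpa [Matrix.mulVec_single] using h5

lemma fm_transpose {W : Submodule ℝ M3} {S : M3} (hS : S ∈ fm W) : Sᵀ ∈ fm W := by
  intro A hA
  have h1 := congrArg Matrix.transpose (hS A hA)
  rw [Matrix.transpose_add, Matrix.transpose_mul, Matrix.transpose_mul, Matrix.transpose_transpose,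
    Matrix.transpose_zero, add_comm] at h1
  exact h1

lemma fm_symm {W : Submodule ℝ M3} (htop : alg W = ⊤) {S : M3} (hS : S ∈ fm W) : Sᵀ = S := by
  have h1 : S - Sᵀ ∈ fm W := (fm W).sub_mem hS (fm_transpose hS)
  have h2 : (S - Sᵀ).det = 0 := by
    simp [Matrix.det_fin_three]
    ring
  exact (sub_eq_zero.1 (fm_det htop h1 h2)).symm

lemma tadj (T S : M3) : (T * S.adjugate).trace =
    T 0 0 * (S 1 1 * S 2 2 - S 1 2 * S 2 1) + T 0 1 * (-(S 1 0 * S 2 2) + S 1 2 * S 2 0) +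
    T 0 2 * (S 1 0 * S 2 1 - S 1 1 * S 2 0) + T 1 0 * (-(S 0 1 * S 2 2) + S 0 2 * S 2 1) +
    T 1 1 * (S 0 0 * S 2 2 - S 0 2 * S 2 0) + T 1 2 * (-(S 0 0 * S 2 1) + S 0 1 * S 2 0) +
    T 2 0 * (S 0 1 * S 1 2 - S 0 2 * S 1 1) + T 2 1 * (-(S 0 0 * S 1 2) + S 0 2 * S 1 0) +
    T 2 2 * (S 0 0 * S 1 1 - S 0 1 * S 1 0) := by
  rw [Matrix.adjugate_fin_three, Matrix.trace_fin_three, Matrix.mul_apply, Matrix.mul_apply,
    Matrix.mul_apply, Fin.sum_univ_three, Fin.sum_univ_three, Fin.sum_univ_three]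
  simp
  ring

lemma det_sub_smul (S T : M3) (t : ℝ) : (T - t • S).det =
    -(S.det * t ^ 3 - (T * S.adjugate).trace * t ^ 2 + (S * T.adjugate).trace * t - T.det) := by
  rw [tadj, tadj, Matrix.det_fin_three, Matrix.det_fin_three, Matrix.det_fin_three]
  simp only [Matrix.sub_apply, Matrix.smul_apply, smul_eq_mul]
  ring

lemma det_sub_smul_cubic (S T : M3) (hS : S.det ≠ 0) : ∃ t : ℝ, (T - t • S).det = 0 := by
  obtain ⟨t, ht⟩ := cubic_root
    (-(((T * S.adjugate).trace) / S.det)) ((S * T.adjugate).trace / S.det) (-(T.det / S.det))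
  refine ⟨t, ?_⟩
  have e : S.det * (t ^ 3 + (-(((T * S.adjugate).trace) / S.det)) * t ^ 2 +
      ((S * T.adjugate).trace / S.det) * t + (-(T.det / S.det))) =
      S.det * t ^ 3 - (T * S.adjugate).trace * t ^ 2 + (S * T.adjugate).trace * t - T.det := by
    field_simp
    ring
  rw [det_sub_smul, ← e, ht, mul_zero, neg_zero]

lemma fm_unique {W : Submodule ℝ M3} (htop : alg W = ⊤) {S T : M3} (hS : S ∈ fm W) (hS0 : S ≠ 0)
    (hT : T ∈ fm W) : ∃ t : ℝ, T = t • S := by
  have hdet : S.det ≠ 0 := fun h => hS0 (fm_det htop hS h)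
  obtain ⟨t, ht⟩ := det_sub_smul_cubic S T hdet
  exact ⟨t, sub_eq_zero.1 (fm_det htop ((fm W).sub_mem hT ((fm W).smul_mem t hS)) ht)⟩

end Pool.Agent.Lib.MP_aa9b81_an
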