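import Mathlib
import Pool.Agent.Lib.MP_aa9b81_an.RForm
import Pool.Agent.Lib.MP_aa9b81_an.Lift3

/-!
Symmetric matrices of determinant one: orbits and local sections.
-/

set_option autoImplicit false
set_option linter.unusedSectionVars false

open Filter Topology Matrix Module

namespace Pool.Agent.Lib.MP_aa9b81_an

/-- The diagonal matrix with entries `1, e, e`. -/
noncomputable def Jm (e : ℝ) : M3 := Matrix.diagonal ![1, e, e]

lemma Jm_one : Jm 1 = 1 := by
  ext i j
  fin_cases i <;> fin_cases j <;> simp [Jm]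

/-- Action on symmetric matrices. -/
def act4 (g : SL3) (S : M3) : M3 := (g : M3) * S * (g : M3)ᵀ

lemma act4_mul (g h : SL3) (S : M3) : act4 (g * h) S = act4 g (act4 h S) := by
  simp only [act4, Matrix.SpecialLinearGroup.coe_mul, Matrix.transpose_mul]
  noncomm_ring

lemma act4_one (S : M3) : act4 1 S = S := by
  simp [act4]

/-- The special orthogonal group of the form `Jm e`. -/
def orth (e : ℝ) : Subgroup SL3 where
  carrier := {g | act4 g (Jm e) = Jm e}
  one_mem' := act4_one _
  mul_mem' := fun {g h} hg hh => by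
    change act4 (g * h) (Jm e) = Jm e
    rw [act4_mul, hh, hg]
  inv_mem' := fun {g} hg => by
    change act4 g⁻¹ (Jm e) = Jm e
    have : act4 g⁻¹ (act4 g (Jm e)) = act4 g⁻¹ (Jm e) := by rw [hg]
    rw [← this, ← act4_mul, inv_mul_cancel, act4_one]

lemma mem_orth {e : ℝ} {g : SL3} : g ∈ orth e ↔ act4 g (Jm e) = Jm e := Iff.rfl

/-- From a square root up to sign of the determinant to an element of the special linear group. -/
lemma exists_SL_of_sq {S D g : M3} (hS : S.det = 1) (hD : D.det = 1) (hg : S = g * D * gᵀ) :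
    ∃ k : SL3, S = act4 k D := by
  have h1 : g.det * g.det = 1 := by
    have := congrArg Matrix.det hg
    rw [hS, Matrix.det_mul, Matrix.det_mul, hD, Matrix.det_transpose] at this
    linarith
  rcases mul_self_eq_one_iff.1 h1 with h2 | h2
  · exact ⟨⟨g, h2⟩, hg⟩
  · refine ⟨⟨-g, ?_⟩, ?_⟩
    · rw [Matrix.det_neg, h2]
      simp
      norm_num
    · change S = (-g) * D * (-g)ᵀ
      rw [hg]
      simp

/-- Diagonalization of symmetric matrices. -/
lemma exists_diag {S : M3} (hS : Sᵀ = S) : ∃ (U : M3) (l : Fin 3 → ℝ),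
    S = U * Matrix.diagonal l * Uᵀ ∧ U * Uᵀ = 1 := by
  have hH : S.IsHermitian := by
    rw [Matrix.IsHermitian, Matrix.conjTranspose_eq_transpose_of_trivial]
    exact hS
  refine ⟨hH.eigenvectorUnitary, hH.eigenvalues, ?_, ?_⟩
  · have h := hH.spectral_theorem
    rw [Unitary.conjStarAlgAut_apply] at h
    exact h
  · have h := (Matrix.mem_unitaryGroup_iff).1 hH.eigenvectorUnitary.2
    exact h

lemma diag_form {S U : M3} {l : Fin 3 → ℝ} (hS : S = U * Matrix.diagonal l * Uᵀ) (a b : Fin 3) :
    S a b = ∑ i, l i * U a i * U b i := by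
  rw [hS, Matrix.mul_apply]
  refine Finset.sum_congr rfl fun i _ => ?_
  rw [Matrix.mul_diagonal, Matrix.transpose_apply]
  ring

/-- Reordering and rescaling the eigenvectors. -/
lemma exists_SL_of_perm {S U : M3} {l : Fin 3 → ℝ} (hdet : S.det = 1)
    (hS : S = U * Matrix.diagonal l * Uᵀ) (e : ℝ) (he : e * e = 1) (σ : Equiv.Perm (Fin 3))
    (hσ : ∀ j, l (σ j) = |l (σ j)| * (![1, e, e] : Fin 3 → ℝ) j) :
    ∃ k : SL3, S = act4 k (Jm e) := by
  have hJ : (Jm e).det = 1 := by
    rw [Jm, Matrix.det_diagonal, Fin.prod_univ_three]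
    simp [he]
  refine exists_SL_of_sq (g := colm fun j => Real.sqrt |l (σ j)| • fun a => U a (σ j)) hdet hJ ?_
  ext a b
  rw [diag_form hS, Matrix.mul_apply, ← Equiv.sum_comp σ]
  refine Finset.sum_congr rfl fun j _ => ?_
  rw [Jm, Matrix.mul_diagonal, Matrix.transpose_apply]
  simp only [colm, Matrix.of_apply, Pi.smul_apply, smul_eq_mul]
  have h1 := Real.mul_self_sqrt (abs_nonneg (l (σ j)))
  have h2 := hσ j
  calc l (σ j) * U a (σ j) * U b (σ j)
      = (|l (σ j)| * (![1, e, e] : Fin 3 → ℝ) j) * U a (σ j) * U b (σ j) := by rw [← h2]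
    _ = ((Real.sqrt |l (σ j)| * Real.sqrt |l (σ j)|) * (![1, e, e] : Fin 3 → ℝ) j) *
        U a (σ j) * U b (σ j) := by rw [h1]
    _ = _ := by ring

/-- Nonnegativity of a form. -/
def PosF (S : M3) : Prop := ∀ v : V3, 0 ≤ v ⬝ᵥ (S *ᵥ v)

/-- Orbits of symmetric matrices of determinant one. -/
lemma orbits {S : M3} (hS : Sᵀ = S) (hdet : S.det = 1) :
    (PosF S → ∃ k : SL3, S = act4 k (Jm 1)) ∧ (¬ PosF S → ∃ k : SL3, S = act4 k (Jm (-1))) := by
  obtain ⟨U, l, hU, hUU⟩ := exists_diag hS
  have hprod : l 0 * l 1 * l 2 = 1 := by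
    have h1 := congrArg Matrix.det hU
    rw [hdet, Matrix.det_mul, Matrix.det_mul, Matrix.det_diagonal, Fin.prod_univ_three,
      Matrix.det_transpose] at h1
    have h2 : U.det * U.det = 1 := by
      have := congrArg Matrix.det hUU
      rwa [Matrix.det_mul, Matrix.det_transpose, Matrix.det_one] at this
    have h3 : (l 0 * l 1 * l 2) * (U.det * U.det) = 1 := by rw [h1]; ring
    rwa [h2, mul_one] at h3
  have hUtU : Uᵀ * U = 1 := mul_eq_one_comm.1 hUU
  have hval : ∀ i, (U *ᵥ (Pi.single i 1 : V3)) ⬝ᵥ (S *ᵥ (U *ᵥ (Pi.single i 1 : V3))) = l i := by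
    intro i
    have h1 : S *ᵥ (U *ᵥ (Pi.single i 1 : V3)) = U *ᵥ (l i • (Pi.single i 1 : V3)) := by
      rw [hU, Matrix.mulVec_mulVec, mul_assoc, hUtU, mul_one, ← Matrix.mulVec_mulVec,
        diagonal_mulVec_single]
    rw [h1, Matrix.dotProduct_mulVec, Matrix.vecMul_mulVec, hUtU, Matrix.vecMul_one]
    simp
  have key : ∀ a b c : ℝ, a * b * c = 1 → 0 < a → (0 < b ∧ 0 < c) ∨ (b < 0 ∧ c < 0) := by
    intro a b c habc ha
    have hbc : 0 < b * c := by
      by_contra h
      push Not at h
      nlinarith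
    rcases lt_trichotomy b 0 with hb | hb | hb
    · right
      exact ⟨hb, by nlinarith⟩
    · rw [hb] at hbc
      norm_num at hbc
    · left
      exact ⟨hb, by nlinarith⟩
  constructor
  · intro hpos
    have hl : ∀ i, 0 ≤ l i := fun i => by
      rw [← hval i]
      exact hpos _
    refine exists_SL_of_perm hdet hU 1 (by norm_num) (Equiv.refl _) fun j => ?_
    rw [Equiv.refl_apply, abs_of_nonneg (hl j)]
    fin_cases j <;> simp
  · intro hneg
    have hnpos : ¬ (0 < l 0 ∧ 0 < l 1 ∧ 0 < l 2) := by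
      rintro ⟨h0, h1, h2⟩
      apply hneg
      intro v
      have h3 : v ⬝ᵥ (S *ᵥ v) = ∑ i, l i * ((Uᵀ *ᵥ v) i) ^ 2 := by
        rw [hU, ← Matrix.mulVec_mulVec, ← Matrix.mulVec_mulVec, Matrix.dotProduct_mulVec,
          ← Matrix.mulVec_transpose, dotProduct]
        refine Finset.sum_congr rfl fun i _ => ?_
        rw [Matrix.mulVec_diagonal]
        ring
      rw [h3, Fin.sum_univ_three]
      positivity
    rcases lt_trichotomy (l 0) 0 with h0 | h0 | h0
    · have h1 : l 1 * l 0 * l 2 = 1 := by linarith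
      have h2 : l 2 * l 0 * l 1 = 1 := by linarith
      rcases lt_trichotomy (l 1) 0 with h3 | h3 | h3
      · -- l 2 positive
        have h4 : 0 < l 2 := by
          by_contra h
          push Not at h
          have : 0 < l 0 * l 1 := mul_pos_of_neg_of_neg h0 h3
          nlinarith
        refine exists_SL_of_perm hdet hU (-1) (by norm_num) (Equiv.swap 0 2) fun j => ?_
        fin_cases j
        · simp [abs_of_pos h4]
        · have : (Equiv.swap (0 : Fin 3) 2) 1 = 1 := by decide
          simp [this, abs_of_neg h3]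
        · simp [abs_of_neg h0]
      · rw [h3] at hprod
        norm_num at hprod
      · have h4 : l 2 < 0 := by
          rcases key _ _ _ h1 h3 with h | h
          · exact absurd h.1 (by linarith)
          · exact h.2
        refine exists_SL_of_perm hdet hU (-1) (by norm_num) (Equiv.swap 0 1) fun j => ?_
        fin_cases j
        · simp [abs_of_pos h3]
        · simp [abs_of_neg h0]
        · have : (Equiv.swap (0 : Fin 3) 1) 2 = 2 := by decide
          simp [this, abs_of_neg h4]
    · rw [h0] at hprod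
      norm_num at hprod
    · rcases key _ _ _ hprod h0 with h | h
      · exact absurd ⟨h0, h.1, h.2⟩ hnpos
      · refine exists_SL_of_perm hdet hU (-1) (by norm_num) (Equiv.refl _) fun j => ?_
        rw [Equiv.refl_apply]
        fin_cases j
        · simp [abs_of_pos h0]
        · simp [abs_of_neg h.1]
        · simp [abs_of_neg h.2]

end Pool.Agent.Lib.MP_aa9b81_an
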