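import Mathlib
import Pool.Agent.Lib.MP_aa9b81_an.Quad

/-!
Local sections for the orbits of symmetric matrices, and maps to the homogeneous spaces of the
orthogonal groups.
-/

set_option autoImplicit false
set_option linter.unusedSectionVars false

open Filter Topology Matrix Module

namespace Pool.Agent.Lib.MP_aa9b81_an

/-- The lower triangular factor. -/
noncomputable def sg (e : ℝ) (R : M3) : M3 :=
  !![Real.sqrt (R 0 0), 0, 0;
    R 1 0 / R 0 0 * Real.sqrt (R 0 0), Real.sqrt (e * (R 1 1 - R 1 0 ^ 2 / R 0 0)), 0;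
    R 2 0 / R 0 0 * Real.sqrt (R 0 0),
      (R 2 1 - R 1 0 * R 2 0 / R 0 0) / (R 1 1 - R 1 0 ^ 2 / R 0 0) *
        Real.sqrt (e * (R 1 1 - R 1 0 ^ 2 / R 0 0)),
      1 / (Real.sqrt (R 0 0) * Real.sqrt (e * (R 1 1 - R 1 0 ^ 2 / R 0 0)))]

lemma sg_Jm {e : ℝ} (he : e * e = 1) : sg e (Jm e) = 1 := by
  have h00 : Jm e 0 0 = 1 := by simp [Jm]
  have h11 : Jm e 1 1 = e := by simp [Jm]
  have h10 : Jm e 1 0 = 0 := by simp [Jm]
  have h20 : Jm e 2 0 = 0 := by simp [Jm]
  have h21 : Jm e 2 1 = 0 := by simp [Jm]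
  ext i j
  fin_cases i <;> fin_cases j <;> simp [sg, h00, h11, h10, h20, h21, he]

lemma continuousAt_sg {e : ℝ} (he : e * e = 1) : ContinuousAt (sg e) (Jm e) := by
  have h00 : Jm e 0 0 = 1 := by simp [Jm]
  have h11 : Jm e 1 1 = e := by simp [Jm]
  have h10 : Jm e 1 0 = 0 := by simp [Jm]
  have he0 : e ≠ 0 := by
    rintro rfl
    norm_num at he
  have c00 : ContinuousAt (fun R : M3 => R 0 0) (Jm e) :=
    (continuous_id.matrix_elem 0 0).continuousAt
  have c10 : ContinuousAt (fun R : M3 => R 1 0) (Jm e) :=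
    (continuous_id.matrix_elem 1 0).continuousAt
  have c11 : ContinuousAt (fun R : M3 => R 1 1) (Jm e) :=
    (continuous_id.matrix_elem 1 1).continuousAt
  have c20 : ContinuousAt (fun R : M3 => R 2 0) (Jm e) :=
    (continuous_id.matrix_elem 2 0).continuousAt
  have c21 : ContinuousAt (fun R : M3 => R 2 1) (Jm e) :=
    (continuous_id.matrix_elem 2 1).continuousAt
  have n00 : Jm e 0 0 ≠ 0 := by rw [h00]; exact one_ne_zero
  have cs : ContinuousAt (fun R : M3 => Real.sqrt (R 0 0)) (Jm e) :=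
    Real.continuous_sqrt.continuousAt.comp c00
  have cd : ContinuousAt (fun R : M3 => R 1 1 - R 1 0 ^ 2 / R 0 0) (Jm e) :=
    c11.sub ((c10.pow 2).div c00 n00)
  have nd : Jm e 1 1 - Jm e 1 0 ^ 2 / Jm e 0 0 ≠ 0 := by
    rw [h11, h10]
    simpa using he0
  have cds : ContinuousAt (fun R : M3 => Real.sqrt (e * (R 1 1 - R 1 0 ^ 2 / R 0 0))) (Jm e) :=
    Real.continuous_sqrt.continuousAt.comp (continuousAt_const.mul cd)
  have nds : Real.sqrt (Jm e 0 0) *
      Real.sqrt (e * (Jm e 1 1 - Jm e 1 0 ^ 2 / Jm e 0 0)) ≠ 0 := by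
    rw [h00, h11, h10]
    simp [he]
  refine continuousAt_pi.2 fun i => continuousAt_pi.2 fun j => ?_
  fin_cases i <;> fin_cases j
  · exact cs
  · exact continuousAt_const
  · exact continuousAt_const
  · exact (c10.div c00 n00).mul cs
  · exact cds
  · exact continuousAt_const
  · exact (c20.div c00 n00).mul cs
  · exact ((c21.sub ((c10.mul c20).div c00 n00)).div cd nd).mul cds
  · exact continuousAt_const.div (cs.mul cds) nds

lemma sg_spec {e : ℝ} (he : e * e = 1) {R : M3} (hR : Rᵀ = R) (hdet : R.det = 1)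
    (h0 : 0 < R 0 0) (h1 : 0 < e * (R 1 1 - R 1 0 ^ 2 / R 0 0)) :
    (sg e R).det = 1 ∧ R = sg e R * Jm e * (sg e R)ᵀ := by
  have e01 : R 0 1 = R 1 0 := congrFun (congrFun hR 1) 0
  have e02 : R 0 2 = R 2 0 := congrFun (congrFun hR 2) 0
  have e12 : R 1 2 = R 2 1 := congrFun (congrFun hR 2) 1
  have he0 : e ≠ 0 := by
    rintro rfl
    norm_num at he
  set a := Real.sqrt (R 0 0) with ha
  set d := R 1 1 - R 1 0 ^ 2 / R 0 0 with hd
  set r := Real.sqrt (e * d) with hr
  have ha2 : a * a = R 0 0 := Real.mul_self_sqrt h0.le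
  have hr2 : r * r = e * d := Real.mul_self_sqrt h1.le
  have ha0 : a ≠ 0 := (Real.sqrt_pos.2 h0).ne'
  have hr0 : r ≠ 0 := (Real.sqrt_pos.2 h1).ne'
  have hd0 : d ≠ 0 := by
    intro h
    rw [h, mul_zero] at h1
    exact lt_irrefl _ h1
  have h00 : R 0 0 ≠ 0 := h0.ne'
  have hsg : sg e R = !![a, 0, 0; R 1 0 / R 0 0 * a, r, 0; R 2 0 / R 0 0 * a,
      (R 2 1 - R 1 0 * R 2 0 / R 0 0) / d * r, 1 / (a * r)] := rfl
  have hdet' : R 0 0 * d * (R 2 2 - R 2 0 ^ 2 / R 0 0 -
      (R 2 1 - R 1 0 * R 2 0 / R 0 0) ^ 2 / d) = 1 := by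
    rw [Matrix.det_fin_three, e01, e02, e12] at hdet
    have h2 : R 0 0 * d = R 0 0 * R 1 1 - R 1 0 ^ 2 := by
      rw [hd]
      field_simp
    have h3 : R 0 0 * d * (R 2 2 - R 2 0 ^ 2 / R 0 0 -
      (R 2 1 - R 1 0 * R 2 0 / R 0 0) ^ 2 / d) = R 0 0 * d * R 2 2 - d * R 2 0 ^ 2 -
        R 0 0 * (R 2 1 - R 1 0 * R 2 0 / R 0 0) ^ 2 := by
      field_simp
    rw [h3, h2, hd]
    field_simp
    nlinarith
  constructor
  · rw [hsg, Matrix.det_fin_three]
    simp
    field_simp
  · rw [hsg]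
    have hJ : Jm e = !![1, 0, 0; 0, e, 0; 0, 0, e] := by
      ext i j
      fin_cases i <;> fin_cases j <;> simp [Jm]
    rw [hJ]
    have hed : e * (r * r) = d := by rw [hr2, ← mul_assoc, he, one_mul]
    have hx : ∀ p q : ℝ, p / R 0 0 * a * (q / R 0 0 * a) = p * q / R 0 0 := by
      intro p q
      have e1 : p / R 0 0 * a * (q / R 0 0 * a) = p * q / R 0 0 * ((a * a) / R 0 0) := by ring
      rw [e1, ha2, div_self h00, mul_one]
    have hy : ∀ X : ℝ, r * e * (X / d * r) = X := by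
      intro X
      have e1 : r * e * (X / d * r) = (e * (r * r)) / d * X := by ring
      rw [e1, hed, div_self hd0, one_mul]
    ext i j
    rw [Matrix.mul_apply, Fin.sum_univ_three, Matrix.mul_apply, Matrix.mul_apply, Matrix.mul_apply,
      Fin.sum_univ_three, Fin.sum_univ_three, Fin.sum_univ_three]
    fin_cases i <;> fin_cases j <;> simp [e01, e02, e12]
    · exact ha2.symm
    · rw [← ha2]
      field_simp
    · rw [← ha2]
      field_simp
    · rw [← ha2]
      field_simp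
    · have : R 1 1 = d + R 1 0 ^ 2 / R 0 0 := by rw [hd]; ring
      rw [this, ← hed, ← ha2]
      field_simp
      ring
    · rw [hx, hy]
      ring
    · rw [← ha2]
      field_simp
    · have e1 : R 2 0 / R 0 0 * a * (R 1 0 / R 0 0 * a) +
          (R 2 1 - R 1 0 * R 2 0 / R 0 0) / d * r * e * r =
          R 2 0 / R 0 0 * a * (R 1 0 / R 0 0 * a) +
          r * e * ((R 2 1 - R 1 0 * R 2 0 / R 0 0) / d * r) := by ring
      rw [e1, hx, hy]
      ring
    · set X : ℝ := R 2 1 - R 1 0 * R 2 0 / R 0 0 with hX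
      have e1 : X / d * r * e * (X / d * r) = X / d * (r * e * (X / d * r)) := by ring
      have e2 : R 0 0 * d ≠ 0 := mul_ne_zero h00 hd0
      have e3 : R 2 2 = R 2 0 ^ 2 / R 0 0 + X ^ 2 / d + 1 / (R 0 0 * d) := by
        have e4 : R 2 2 - R 2 0 ^ 2 / R 0 0 - X ^ 2 / d = 1 / (R 0 0 * d) := by
          rw [eq_div_iff e2, mul_comm]
          exact hdet'
        linarith
      have e5 : e / (a * r * (a * r)) = 1 / (R 0 0 * d) := by
        rw [← ha2, ← hed]
        field_simp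
        nlinarith
      have e6 : r⁻¹ * a⁻¹ * e * (r⁻¹ * a⁻¹) = 1 / (R 0 0 * d) := by
        rw [← e5]
        field_simp
      rw [e3, e6, hx, e1, hy]
      ring

lemma act4_transpose {g : SL3} {S : M3} (h : Sᵀ = S) : (act4 g S)ᵀ = act4 g S := by
  simp only [act4, Matrix.transpose_mul, Matrix.transpose_transpose, h, mul_assoc]

lemma act4_det (g : SL3) (S : M3) : (act4 g S).det = S.det := by
  have h1 : (g : M3).det = 1 := g.2
  rw [act4, Matrix.det_mul, Matrix.det_mul, Matrix.det_transpose, h1, one_mul, mul_one]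

lemma continuous_act4 (g : SL3) : Continuous (act4 g) := by
  unfold act4
  fun_prop

variable {X : Type*} [TopologicalSpace X] [MulAction SL3 X]

/-- A continuous equivariant field of symmetric matrices of determinant one and fixed type. -/
theorem lift_orth {e : ℝ} (he : e * e = 1) {Y : Set X} (hY : Inv SL3 Y) (φ : X → M3)
    (hφc : ContinuousOn φ Y) (hφ : ∀ (g : SL3), ∀ x ∈ Y, φ (g • x) = act4 g (φ x))
    (hsym : ∀ x ∈ Y, (φ x)ᵀ = φ x) (hdet : ∀ x ∈ Y, (φ x).det = 1)
    (hor : ∀ x ∈ Y, ∃ k, φ x = act4 k (Jm e)) : MapsTo (orth e) Y := by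
  refine exists_lift act4 act4_mul act4_one (Jm e) (orth e) (fun g => mem_orth) hY φ hφ hor ?_
  intro x hx U hU
  have hYU : ∀ᶠ y in (U : Filter X), y ∈ Y := hU self_mem_nhdsWithin
  obtain ⟨k, hk⟩ := hor x hx
  set R : X → M3 := fun y => act4 k⁻¹ (φ y) with hR
  have hRx : act4 k⁻¹ (φ x) = Jm e := by rw [hk, ← act4_mul, inv_mul_cancel, act4_one]
  have hRlim : Tendsto R U (𝓝 (Jm e)) := by
    have h1 : Tendsto φ U (𝓝 (φ x)) := (hφc x hx).mono_left hU
    have h2 := ((continuous_act4 k⁻¹).tendsto (φ x)).comp h1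
    rw [hRx] at h2
    exact h2
  have hsg : Tendsto (fun y => sg e (R y)) U (𝓝 1) := by
    have h1 := (continuousAt_sg he).tendsto.comp hRlim
    rw [sg_Jm he] at h1
    exact h1
  have hd1 : (1 : M3).det ≠ 0 := by simp
  obtain ⟨γ, hγ1, hγ2⟩ := tendsto_toSL hsg hd1
  have hto1 : toSL 1 hd1 = 1 := by
    apply Subtype.ext
    change (1 : M3) * Matrix.diagonal ![(1 : M3).det⁻¹, 1, 1] = 1
    rw [one_mul]
    ext i j
    fin_cases i <;> fin_cases j <;> simp
  rw [hto1] at hγ1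
  have hev0 : ∀ᶠ y in (U : Filter X), 0 < R y 0 0 := by
    have h1 : Tendsto (fun y => R y 0 0) U (𝓝 1) := by
      have h2 := ((continuous_id.matrix_elem (0 : Fin 3) (0 : Fin 3)).tendsto (Jm e)).comp hRlim
      have h3 : Jm e 0 0 = 1 := by simp [Jm]
      simp only [id_eq] at h2
      rw [h3] at h2
      exact h2
    exact h1.eventually (lt_mem_nhds one_pos)
  have hev1 : ∀ᶠ y in (U : Filter X), 0 < e * (R y 1 1 - R y 1 0 ^ 2 / R y 0 0) := by
    have h00 : Tendsto (fun y => R y 0 0) U (𝓝 1) := by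
      have h2 := ((continuous_id.matrix_elem (0 : Fin 3) (0 : Fin 3)).tendsto (Jm e)).comp hRlim
      have h3 : Jm e 0 0 = 1 := by simp [Jm]
      simp only [id_eq] at h2
      rw [h3] at h2
      exact h2
    have h11 : Tendsto (fun y => R y 1 1) U (𝓝 e) := by
      have h2 := ((continuous_id.matrix_elem (1 : Fin 3) (1 : Fin 3)).tendsto (Jm e)).comp hRlim
      have h3 : Jm e 1 1 = e := by simp [Jm]
      simp only [id_eq] at h2
      rw [h3] at h2
      exact h2
    have h10 : Tendsto (fun y => R y 1 0) U (𝓝 0) := by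
      have h2 := ((continuous_id.matrix_elem (1 : Fin 3) (0 : Fin 3)).tendsto (Jm e)).comp hRlim
      have h3 : Jm e 1 0 = 0 := by simp [Jm]
      simp only [id_eq] at h2
      rw [h3] at h2
      exact h2
    have h4 : Tendsto (fun y => e * (R y 1 1 - R y 1 0 ^ 2 / R y 0 0)) U
        (𝓝 (e * (e - 0 ^ 2 / 1))) :=
      tendsto_const_nhds.mul (h11.sub ((h10.pow 2).div h00 one_ne_zero))
    have h5 : e * (e - 0 ^ 2 / 1) = 1 := by
      rw [← he]
      ring
    rw [h5] at h4
    exact h4.eventually (lt_mem_nhds one_pos)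
  have hspec : ∀ᶠ y in (U : Filter X), R y = act4 (γ y) (Jm e) := by
    filter_upwards [hγ2, hYU, hev0, hev1] with y hy hyY h0 h1
    obtain ⟨h, hh⟩ := hy
    have hRs : (R y)ᵀ = R y := act4_transpose (hsym y hyY)
    have hRd : (R y).det = 1 := by
      rw [hR]
      simp only
      rw [act4_det, hdet y hyY]
    obtain ⟨h2, h3⟩ := sg_spec he hRs hRd h0 h1
    have h4 : (γ y : M3) = sg e (R y) := by
      rw [hh, toSL_coe, h2]
      have : Matrix.diagonal ![(1 : ℝ)⁻¹, 1, 1] = (1 : M3) := by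
        ext i j
        fin_cases i <;> fin_cases j <;> simp
      rw [this, mul_one]
    rw [act4, h4]
    exact h3
  refine ⟨fun y => k * γ y, k, ?_, hk, ?_⟩
  · filter_upwards [hspec] with y hy
    rw [act4_mul, ← hy, hR]
    simp only
    rw [← act4_mul, mul_inv_cancel, act4_one]
  · have := hγ1.const_mul k
    simpa using this

end Pool.Agent.Lib.MP_aa9b81_an
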