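import Mathlib
import Pool.Agent.Lib.MP_aa9b81_an.Lift3

/-!
The stratification of the set of points with nonzero isotropy algebra.
-/

set_option autoImplicit false
set_option linter.unusedSectionVars false

open Filter Topology Matrix Module

namespace Pool.Agent.Lib.MP_aa9b81_an

variable {X : Type*} [TopologicalSpace X] [T2Space X] [MulAction SL3 X] [ContinuousSMul SL3 X]

lemma dec_cf {Good : Set X → Prop} (h0 : Good ∅) {V : Type*} [AddCommGroup V] [TopologicalSpace V]
    [IsTopologicalAddGroup V] [T2Space V] [Module ℝ V] [ContinuousSMul ℝ V] [FiniteDimensional ℝ V]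
    {Y : Set X} (hY : Inv SL3 Y) (W : X → Submodule ℝ V) (hcf : CF Y W)
    (hinv : ∀ (g : SL3), ∀ x ∈ Y, finrank ℝ (W (g • x)) = finrank ℝ (W x))
    (hd : ∀ k, Dec SL3 Good {x ∈ Y | finrank ℝ (W x) = k}) : Dec SL3 Good Y := by
  refine dec_levels hY h0 (fun x => finrank ℝ (W x)) (finrank ℝ V)
    (fun x _ => Submodule.finrank_le (W x)) hinv ?_ hd
  rintro k x ⟨hx, hxc⟩
  exact hcf.finrank_ge hx hxc

lemma inv_level {Y : Set X} (hY : Inv SL3 Y) {r : X → ℕ}
    (hr : ∀ (g : SL3), ∀ x ∈ Y, r (g • x) = r x) (k : ℕ) : Inv SL3 {x ∈ Y | r x = k} :=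
  fun g x hx => ⟨hY g x hx.1, by rw [hr g x hx.1]; exact hx.2⟩

/-- The good layers. -/
def GoodT (T : Set X → Prop) (Y : Set X) : Prop :=
  MapsTo (parab 1) Y ∨ MapsTo (parab 2) Y ∨ MapsTo nrmD Y ∨ T Y

lemma good_empty_of {H : Subgroup SL3} : MapsTo H (∅ : Set X) :=
  ⟨fun _ => ((1 : SL3) : SL3 ⧸ H), continuousOn_empty _, fun g x hx =>
    absurd hx (Set.notMem_empty x)⟩

lemma finrank_iso_smul (g : SL3) (x : X) : finrank ℝ (iso (g • x)) = finrank ℝ (iso x) := by
  rw [iso_smul, finrank_cjs]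

/-- The decomposition, given a decomposition of the irreducible strata. -/
theorem dec_main (T : Set X → Prop)
    (hirr : ∀ (Y : Set X) (d : ℕ), Inv SL3 Y → (∀ x ∈ Y, finrank ℝ (iso x) = d) →
      (∀ x ∈ Y, alg (iso x) = ⊤) → Dec SL3 (GoodT T) Y) :
    Dec SL3 (GoodT T) {x : X | iso x ≠ ⊥} := by
  have h0 : GoodT T (∅ : Set X) := Or.inl good_empty_of
  set N : Set X := {x : X | iso x ≠ ⊥} with hN
  have hNinv : Inv SL3 N := by
    intro g x hx h
    apply hx
    have h1 : finrank ℝ (iso (g • x)) = 0 := by rw [h, finrank_bot]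
    rw [finrank_iso_smul] at h1
    exact Submodule.finrank_eq_zero.1 h1
  have cfN : CF N (iso (X := X)) := cf_iso.mono (Set.subset_univ _)
  refine dec_cf h0 hNinv iso cfN (fun g x _ => finrank_iso_smul g x) fun d => ?_
  set Y1 : Set X := {x ∈ N | finrank ℝ (iso x) = d} with hY1
  have hY1i : Inv SL3 Y1 := inv_level hNinv (fun g x _ => finrank_iso_smul g x) d
  have sec1 : Sec Y1 (iso (X := X)) := (cfN.mono fun x hx => hx.1).sec (k := d) fun x hx => hx.2
  have seca : Sec Y1 (fun x : X => alg (iso x)) := sec1.alg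
  have cfnu : CF Y1 (fun x : X => nu (iso x)) := cf_nu seca
  have inu : ∀ (g : SL3), ∀ x ∈ Y1, finrank ℝ (nu (iso (g • x))) = finrank ℝ (nu (iso x)) :=
    fun g x _ => by rw [iso_smul, nu_cjs, finrank_cjs]
  refine dec_cf h0 hY1i (fun x => nu (iso x)) cfnu inu fun b => ?_
  set Y2 : Set X := {x ∈ Y1 | finrank ℝ (nu (iso x)) = b} with hY2
  have hY2i : Inv SL3 Y2 := inv_level hY1i inu b
  have sub21 : Y2 ⊆ Y1 := fun x hx => hx.1
  have secnu : Sec Y2 (fun x : X => nu (iso x)) := (cfnu.mono sub21).sec (k := b) fun x hx => hx.2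
  have cfa : CF Y2 (fun x : X => alg (iso x)) := cf_alg secnu
  have cfr : CF Y2 (fun x : X => rd (iso x)) := cf_rd cfa (cfnu.mono sub21)
  have ird : ∀ (g : SL3), ∀ x ∈ Y2, finrank ℝ (rd (iso (g • x))) = finrank ℝ (rd (iso x)) :=
    fun g x _ => by rw [iso_smul, rd_cjs, finrank_cjs]
  refine dec_cf h0 hY2i (fun x => rd (iso x)) cfr ird fun j => ?_
  set Y3 : Set X := {x ∈ Y2 | finrank ℝ (rd (iso x)) = j} with hY3
  have hY3i : Inv SL3 Y3 := inv_level hY2i ird j
  have sub32 : Y3 ⊆ Y2 := fun x hx => hx.1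
  by_cases hj : j = 0
  · -- zero radical
    have hrd0 : ∀ x ∈ Y3, rd (iso x) = ⊥ := fun x hx =>
      Submodule.finrank_eq_zero.1 (by rw [hx.2, hj])
    have cfc : CF Y3 (fun x : X => cen (iso x)) :=
      cf_cen (cfa.mono sub32) (seca.mono (sub32.trans sub21))
    have icen : ∀ (g : SL3), ∀ x ∈ Y3, finrank ℝ (cen (iso (g • x))) = finrank ℝ (cen (iso x)) :=
      fun g x _ => by rw [iso_smul, cen_cjs, finrank_cjs]
    refine dec_cf h0 hY3i (fun x => cen (iso x)) cfc icen fun z => ?_
    set Y4 : Set X := {x ∈ Y3 | finrank ℝ (cen (iso x)) = z} with hY4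
    have hY4i : Inv SL3 Y4 := inv_level hY3i icen z
    have sub43 : Y4 ⊆ Y3 := fun x hx => hx.1
    have cfc4 : CF Y4 (fun x : X => cen (iso x)) := cfc.mono sub43
    have secc : Sec Y4 (fun x : X => cen (iso x)) := cfc4.sec (k := z) fun x hx => hx.2
    have htr : ∀ x : X, ∀ A ∈ iso x, A.trace = 0 := fun x A hA => trace_iso hA
    have hne : ∀ x ∈ Y4, iso x ≠ ⊥ := fun x hx => (sub21 (sub32 (sub43 hx))).1
    rcases Nat.lt_or_ge z 2 with hz | hz
    · -- irreducible strata
      refine hirr Y4 d hY4i (fun x hx => (sub21 (sub32 (sub43 hx))).2) fun x hx => ?_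
      by_contra hcon
      have := two_le_finrank_cen (htr x) (hne x hx) (hrd0 x (sub43 hx)) hcon
      have h2 : finrank ℝ (cen (iso x)) = z := hx.2
      omega
    · rcases Nat.lt_or_ge z 3 with hz3 | hz3
      · have hz2 : z = 2 := by omega
        subst hz2
        refine Dec.good hY4i (Or.inl ?_)
        refine lift_field (Or.inl rfl) hY4i (fun x => Lz (iso x)) ?_ (cf_Lz secc) ?_
        · exact fun x hx => finrank_Lz (hrd0 x (sub43 hx)) hx.2
        · intro g x _
          rw [iso_smul, Lz_cjs]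
      · -- split and nonsplit parts
        set S : Set X := {x ∈ Y4 | ∀ A ∈ cen (iso x), 0 ≤ dsc A} with hS
        have hSi : Inv SL3 S := by
          rintro g x ⟨hx, hx2⟩
          refine ⟨hY4i g x hx, fun A hA => ?_⟩
          rw [iso_smul, cen_cjs] at hA
          have h1 := hx2 _ (mem_cjs.1 hA)
          rwa [dsc_cj] at h1
        refine Dec.glue (T := S) (fun x hx => hx.1) hY4i hSi ?_ ?_ ?_
        · rintro x ⟨hx, hxc⟩
          refine ⟨hx, fun A hA => ?_⟩
          obtain ⟨s, hs1, hs2⟩ := secc x hx A hA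
          have hne : (𝓝[S] x).NeBot := mem_closure_iff_nhdsWithin_neBot.1 hxc
          have h1 : Tendsto s (𝓝[S] x) (𝓝 A) :=
            hs2.mono_left (nhdsWithin_mono x fun y hy => hy.1)
          have h2 : Tendsto (fun y => dsc (s y)) (𝓝[S] x) (𝓝 (dsc A)) :=
            (continuous_dsc.tendsto A).comp h1
          refine ge_of_tendsto h2 ?_
          filter_upwards [self_mem_nhdsWithin] with y hy
          exact hy.2 _ (hs1 y)
        · refine Dec.good hSi (Or.inr (Or.inr (Or.inl ?_)))
          refine lift_cartan hSi (fun x => cen (iso x)) ?_ (cfc4.mono fun x hx => hx.1) ?_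
          · rintro x ⟨hx, hx2⟩
            have h1 : 3 ≤ finrank ℝ (cen (iso x)) := by
              have h2 : finrank ℝ (cen (iso x)) = z := hx.2
              omega
            exact split h1 (exists_dsc_pos (hrd0 x (sub43 hx)) h1 hx2)
          · intro g x _
            rw [iso_smul, cen_cjs]
        · have hYS : Inv SL3 (Y4 \ S) := hY4i.diff hSi
          refine Dec.good hYS (Or.inl ?_)
          have hex : ∀ x ∈ Y4 \ S, ∃ A ∈ cen (iso x), dsc A < 0 := by
            rintro x ⟨hx, hx2⟩
            by_contra hcon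
            push Not at hcon
            exact hx2 ⟨hx, hcon⟩
          refine lift_field (Or.inl rfl) hYS (fun x => Ln (iso x)) ?_
            (cf_Ln (secc.mono fun x hx => hx.1) ?_) ?_
          · intro x hx
            obtain ⟨A, hA, hd⟩ := hex x hx
            exact (nonsplit hA hd).2
          · intro x hx
            obtain ⟨A, hA, hd⟩ := hex x hx
            exact (nonsplit hA hd).1
          · intro g x _
            rw [iso_smul, Ln_cjs]
  · -- nonzero radical
    have hrd0 : ∀ x ∈ Y3, rd (iso x) ≠ ⊥ := fun x hx h => hj (by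
      have h1 : finrank ℝ (rd (iso x)) = j := hx.2
      rw [h, finrank_bot] at h1
      exact h1.symm)
    have secr : Sec Y3 (fun x : X => rd (iso x)) := (cfr.mono sub32).sec (k := j) fun x hx => hx.2
    have cfk : CF Y3 (fun x : X => kr (iso x)) := cf_kr secr
    have ikr : ∀ (g : SL3), ∀ x ∈ Y3, finrank ℝ (kr (iso (g • x))) = finrank ℝ (kr (iso x)) :=
      fun g x _ => by rw [iso_smul, kr_cjs, finrank_actL]
    refine dec_cf h0 hY3i (fun x => kr (iso x)) cfk ikr fun κ => ?_
    set Y4 : Set X := {x ∈ Y3 | finrank ℝ (kr (iso x)) = κ} with hY4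
    have hY4i : Inv SL3 Y4 := inv_level hY3i ikr κ
    by_cases hκ : κ = 1 ∨ κ = 2
    · have hmt : MapsTo (parab κ) Y4 := by
        refine lift_field hκ hY4i (fun x => kr (iso x)) (fun x hx => hx.2)
          (cfk.mono fun x hx => hx.1) ?_
        intro g x _
        rw [iso_smul, kr_cjs]
      rcases hκ with rfl | rfl
      · exact Dec.good hY4i (Or.inl hmt)
      · exact Dec.good hY4i (Or.inr (Or.inl hmt))
    · have hemp : Y4 = ∅ := by
        ext x
        simp only [Set.mem_empty_iff_false, iff_false]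
        intro hx
        apply hκ
        have h1 := finrank_kr (hrd0 x hx.1)
        have h2 : finrank ℝ (kr (iso x)) = κ := hx.2
        rwa [h2] at h1
      rw [hemp]
      exact Dec.good (fun g x hx => absurd hx (Set.notMem_empty x)) h0

end Pool.Agent.Lib.MP_aa9b81_an
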