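import Mathlib
import Pool.Agent.Lib.MP_aa9b81_an.Quad2
import Pool.Agent.Lib.MP_aa9b81_an.Strata

/-!
The canonical invariant symmetric matrix of an irreducible isotropy algebra, and the
decomposition of the irreducible strata.
-/

set_option autoImplicit false
set_option linter.unusedSectionVars false

open Filter Topology Matrix Module

namespace Pool.Agent.Lib.MP_aa9b81_an

/-- Spaces generating the full matrix algebra and leaving a nonzero form invariant. -/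
def HasForm (W : Submodule ℝ M3) : Prop := alg W = ⊤ ∧ ∃ S ∈ fm W, S ≠ 0

lemma exists_det_one {W : Submodule ℝ M3} (h : HasForm W) : ∃ S ∈ fm W, S.det = 1 := by
  obtain ⟨htop, S, hS, hS0⟩ := h
  have hdet : S.det ≠ 0 := fun h => hS0 (fm_det htop hS h)
  obtain ⟨t, ht⟩ := cubic_root 0 0 (-(S.det)⁻¹)
  refine ⟨t • S, (fm W).smul_mem t hS, ?_⟩
  rw [Matrix.det_smul]
  simp only [Fintype.card_fin]
  have h1 : t ^ 3 = (S.det)⁻¹ := by linarith
  rw [h1, inv_mul_cancel₀ hdet]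

lemma cube_eq_one {t : ℝ} (h : t ^ 3 = 1) : t = 1 := by
  have h1 : (t - 1) * (t ^ 2 + t + 1) = 0 := by
    have : (t - 1) * (t ^ 2 + t + 1) = t ^ 3 - 1 := by ring
    rw [this, h, sub_self]
  rcases mul_eq_zero.1 h1 with h2 | h2
  · linarith
  · nlinarith [sq_nonneg (t + 1 / 2)]

lemma det_one_unique {W : Submodule ℝ M3} (htop : alg W = ⊤) {S T : M3} (hS : S ∈ fm W)
    (hT : T ∈ fm W) (hS1 : S.det = 1) (hT1 : T.det = 1) : S = T := by
  have hS0 : S ≠ 0 := by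
    rintro rfl
    simp at hS1
  obtain ⟨t, ht⟩ := fm_unique htop hS hS0 hT
  have h1 : t ^ 3 = 1 := by
    rw [ht, Matrix.det_smul, hS1] at hT1
    simpa using hT1
  rw [ht, cube_eq_one h1, one_smul]

open Classical in
/-- The invariant matrix of determinant one. -/
noncomputable def sf (W : Submodule ℝ M3) : M3 := if h : ∃ S ∈ fm W, S.det = 1 then h.choose else 0

lemma sf_spec {W : Submodule ℝ M3} (h : HasForm W) : sf W ∈ fm W ∧ (sf W).det = 1 := by
  have h1 := exists_det_one h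
  have h2 : sf W = h1.choose := by
    rw [sf]
    exact dif_pos h1
  rw [h2]
  exact h1.choose_spec

lemma fm_cjs (g : SL3) (W : Submodule ℝ M3) {S : M3} (hS : S ∈ fm W) :
    act4 g S ∈ fm (cjs g W) := by
  intro A hA
  obtain ⟨B, hB, rfl⟩ := hA
  have h1 := hS B hB
  change cj g B * act4 g S + act4 g S * (cj g B)ᵀ = 0
  rw [cj_apply, act4, Matrix.transpose_mul, Matrix.transpose_mul]
  have e1 : ((g⁻¹ : SL3) : M3) * (g : M3) = 1 := coe_inv_mul_coe g
  have e2 : (g : M3)ᵀ * ((g⁻¹ : SL3) : M3)ᵀ = 1 := by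
    rw [← Matrix.transpose_mul, e1, Matrix.transpose_one]
  calc (g : M3) * B * ((g⁻¹ : SL3) : M3) * ((g : M3) * S * (g : M3)ᵀ) +
      (g : M3) * S * (g : M3)ᵀ * (((g⁻¹ : SL3) : M3)ᵀ * (Bᵀ * (g : M3)ᵀ))
      = (g : M3) * B * (((g⁻¹ : SL3) : M3) * (g : M3)) * S * (g : M3)ᵀ +
        (g : M3) * S * ((g : M3)ᵀ * ((g⁻¹ : SL3) : M3)ᵀ) * Bᵀ * (g : M3)ᵀ := by noncomm_ring
    _ = (g : M3) * (B * S + S * Bᵀ) * (g : M3)ᵀ := by rw [e1, e2]; noncomm_ring
    _ = 0 := by rw [h1]; simp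

lemma cjs_inj_bot {g : SL3} {W : Submodule ℝ M3} (h : alg W = ⊤) : alg (cjs g W) = ⊤ := by
  rw [alg_cjs, h]
  ext A
  simp [mem_cjs]

lemma HasForm.cjs {g : SL3} {W : Submodule ℝ M3} (h : HasForm W) :
    HasForm (MP_aa9b81_an.cjs g W) := by
  obtain ⟨S, hS, hS1⟩ := exists_det_one h
  refine ⟨cjs_inj_bot h.1, act4 g S, fm_cjs g W hS, ?_⟩
  intro h0
  have h1 := act4_det g S
  rw [h0, hS1] at h1
  simp at h1

lemma sf_cjs {g : SL3} {W : Submodule ℝ M3} (h : HasForm W) : sf (cjs g W) = act4 g (sf W) := by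
  obtain ⟨h1, h2⟩ := sf_spec h
  obtain ⟨h3, h4⟩ := sf_spec (h.cjs (g := g))
  exact det_one_unique (cjs_inj_bot h.1) h3 (fm_cjs g W h1) h4 (by rw [act4_det, h2])

variable {X : Type*} [TopologicalSpace X]

lemma cf_fm {S : Set X} {W : X → Submodule ℝ M3} (h : Sec S W) : CF S (fun x => fm (W x)) := by
  refine CF.of_sec (R := fun (A : M3) (T : M3) => A * T + T * Aᵀ = 0) ?_ h (fun x _ v => mem_fm)
  exact isClosed_eq (by fun_prop) continuous_const

lemma finrank_fm {W : Submodule ℝ M3} (h : HasForm W) : finrank ℝ (fm W) = 1 := by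
  obtain ⟨S, hS, hS1⟩ := exists_det_one h
  have hS0 : S ≠ 0 := by
    rintro rfl
    simp at hS1
  rw [finrank_eq_one_iff']
  refine ⟨⟨S, hS⟩, fun h0 => hS0 (congrArg Subtype.val h0), ?_⟩
  rintro ⟨T, hT⟩
  obtain ⟨t, ht⟩ := fm_unique h.1 hS hS0 hT
  exact ⟨t, Subtype.ext ht.symm⟩

lemma continuousOn_sf {Y : Set X} {W : X → Submodule ℝ M3} (h : Sec Y W)
    (hf : ∀ x ∈ Y, HasForm (W x)) : ContinuousOn (fun x => sf (W x)) Y := by
  have hsec : Sec Y (fun x => fm (W x)) := (cf_fm h).sec fun x hx => finrank_fm (hf x hx)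
  intro x hx
  obtain ⟨h1, h2⟩ := sf_spec (hf x hx)
  obtain ⟨s, hs1, hs2⟩ := hsec x hx _ h1
  have hdet : Tendsto (fun y => (s y).det) (𝓝[Y] x) (𝓝 1) := by
    have hc : Continuous (fun M : M3 => M.det) := by fun_prop
    have h3 := (hc.tendsto _).comp hs2
    rw [h2] at h3
    exact h3
  have hc : Tendsto (fun y => (s y).det ^ (-(1 / 3) : ℝ)) (𝓝[Y] x) (𝓝 1) := by
    have h3 := hdet.rpow_const (p := (-(1 / 3) : ℝ)) (Or.inl one_ne_zero)
    rwa [Real.one_rpow] at h3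
  have hpos : ∀ᶠ y in 𝓝[Y] x, 0 < (s y).det := hdet.eventually (lt_mem_nhds one_pos)
  have hlim : Tendsto (fun y => ((s y).det ^ (-(1 / 3) : ℝ)) • s y) (𝓝[Y] x)
      (𝓝 ((1 : ℝ) • sf (W x))) := hc.smul hs2
  rw [one_smul] at hlim
  refine hlim.congr' ?_
  filter_upwards [hpos, self_mem_nhdsWithin] with y hy hyY
  obtain ⟨h3, h4⟩ := sf_spec (hf y hyY)
  refine det_one_unique (hf y hyY).1 ((fm (W y)).smul_mem _ (hs1 y)) h3 ?_ h4
  rw [Matrix.det_smul]
  simp only [Fintype.card_fin]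
  rw [← Real.rpow_natCast, ← Real.rpow_mul hy.le]
  norm_num
  rw [Real.rpow_neg hy.le, Real.rpow_one, inv_mul_cancel₀ hy.ne']

end Pool.Agent.Lib.MP_aa9b81_an
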