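import Mathlib
import Pool.Agent.Lib.MP_aa9b81_an.Quad3

/-!
Points whose isotropy algebra is everything are fixed; the decomposition of irreducible strata.
-/

set_option autoImplicit false
set_option linter.unusedSectionVars false

open Filter Topology Matrix Module

namespace Pool.Agent.Lib.MP_aa9b81_an

lemma exp_of_sq_zero {A : M3} (h : A * A = 0) : NormedSpace.exp A = 1 + A := by
  rw [NormedSpace.exp_eq_tsum ℝ]
  simp only
  rw [tsum_eq_sum (s := Finset.range 2)]
  · simp [Finset.sum_range_succ]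
  · intro n hn
    have h2 : 2 ≤ n := by
      simp only [Finset.mem_range, not_lt] at hn
      exact hn
    obtain ⟨k, rfl⟩ := Nat.exists_eq_add_of_le h2
    rw [pow_add, pow_two, h, zero_mul, smul_zero]

lemma single_sq {i j : Fin 3} (hij : i ≠ j) (c : ℝ) :
    (Matrix.single i j c : M3) * Matrix.single i j c = 0 :=
  Matrix.single_mul_single_of_ne _ _ _ _ (Ne.symm hij) _

lemma diag2n_eq {i j : Fin 3} (hij : i ≠ j) {c : ℝ} (hc : c ≠ 0) :
    Matrix.SpecialLinearGroup.diag2n hij c hc =
      Matrix.SpecialLinearGroup.transvection hij c *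
      Matrix.SpecialLinearGroup.transvection hij.symm (-c⁻¹) *
      Matrix.SpecialLinearGroup.transvection hij c *
      (Matrix.SpecialLinearGroup.transvection hij (-1) *
      Matrix.SpecialLinearGroup.transvection hij.symm 1 *
      Matrix.SpecialLinearGroup.transvection hij (-1)) := by
  apply Subtype.ext
  simp only [Matrix.SpecialLinearGroup.coe_mul, Matrix.SpecialLinearGroup.transvection_coe,
    Matrix.SpecialLinearGroup.diag2n_coe]
  ext a b
  fin_cases i <;> fin_cases j <;> first | exact absurd rfl hij | skip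
  all_goals
    fin_cases a <;> fin_cases b <;>
      simp [Matrix.mul_apply, Fin.sum_univ_three, Matrix.single_apply, Matrix.one_apply, hc]

variable {X : Type*} [TopologicalSpace X] [T2Space X] [MulAction SL3 X] [ContinuousSMul SL3 X]

lemma fixed_of_iso {x : X} (h : ∀ M : M3, M.trace = 0 → M ∈ iso x) (g : SL3) : g • x = x := by
  have htr : ∀ (i j : Fin 3) (hij : i ≠ j) (c : ℝ),
      Matrix.SpecialLinearGroup.transvection hij c • x = x := by
    intro i j hij c
    have h1 : (Matrix.single i j c : M3) ∈ iso x := by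
      apply h
      rw [Matrix.trace_fin_three]
      fin_cases i <;> fin_cases j <;> first | exact absurd rfl hij | simp
    obtain ⟨k, hk1, hk2⟩ := mem_iso.1 h1 1
    rw [one_smul, exp_of_sq_zero (single_sq hij c)] at hk2
    have h2 : k = Matrix.SpecialLinearGroup.transvection hij c := by
      apply Subtype.ext
      rw [hk2, Matrix.SpecialLinearGroup.transvection_coe]
    rw [← h2]
    exact hk1
  refine Matrix.SpecialLinearGroup.diagonal_transvection_induction' (fun g : SL3 => g • x = x) g
    ?_ htr ?_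
  · intro i j hij c hc
    rw [diag2n_eq hij hc]
    simp only [mul_smul, htr]
  · intro A B hA hB
    rw [mul_smul, hB, hA]

/-- Trace-free matrices. -/
noncomputable def sl3 : Submodule ℝ M3 := LinearMap.ker (Matrix.traceLinearMap (Fin 3) ℝ ℝ)

lemma mem_sl3 {A : M3} : A ∈ sl3 ↔ A.trace = 0 := by
  rw [sl3, LinearMap.mem_ker]
  exact Iff.rfl

lemma isClosed_posF : IsClosed {S : M3 | PosF S} := by
  have : {S : M3 | PosF S} = ⋂ v : V3, {S : M3 | 0 ≤ v ⬝ᵥ (S *ᵥ v)} := by
    ext S
    simp [PosF]
  rw [this]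
  exact isClosed_iInter fun v => isClosed_le continuous_const (by fun_prop)

lemma posF_act4 {g : SL3} {S : M3} (h : PosF S) : PosF (act4 g S) := by
  intro v
  have h1 := h ((g : M3)ᵀ *ᵥ v)
  rw [act4, ← Matrix.mulVec_mulVec, ← Matrix.mulVec_mulVec, Matrix.dotProduct_mulVec,
    ← Matrix.mulVec_transpose]
  exact h1

/-- The three types of layers occurring in the irreducible strata. -/
def TType (Y : Set X) : Prop :=
  MapsTo (orth 1) Y ∨ MapsTo (orth (-1)) Y ∨ ∀ x ∈ Y, ∀ g : SL3, g • x = x

lemma dec_irr (Y : Set X) (d : ℕ) (hY : Inv SL3 Y) (hd : ∀ x ∈ Y, finrank ℝ (iso x) = d)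
    (htop : ∀ x ∈ Y, alg (iso x) = ⊤) : Dec SL3 (GoodT (TType (X := X))) Y := by
  have hle : ∀ x : X, iso x ≤ sl3 := fun x A hA => mem_sl3.2 (trace_iso hA)
  by_cases hfull : ∀ x ∈ Y, sl3 ≤ iso x
  · refine Dec.good hY (Or.inr (Or.inr (Or.inr (Or.inr (Or.inr ?_)))))
    intro x hx g
    exact fixed_of_iso (fun M hM => hfull x hx (mem_sl3.2 hM)) g
  · push Not at hfull
    obtain ⟨x₀, hx₀, hx₀2⟩ := hfull
    have hlt : d < finrank ℝ sl3 := by
      rw [← hd x₀ hx₀]
      exact Submodule.finrank_lt_finrank_of_lt (lt_of_le_not_ge (hle x₀) hx₀2)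
    have hform : ∀ x ∈ Y, HasForm (iso x) := by
      intro x hx
      refine ⟨htop x hx, ?_⟩
      have h1 : ¬ sl3 ≤ iso x := by
        intro h2
        have h3 := Submodule.finrank_mono h2
        rw [hd x hx] at h3
        omega
      obtain ⟨M, hM, hMx⟩ := Set.not_subset.1 h1
      exact exists_real_form (fun A hA B hB => bracket_iso hA hB) (fun A hA => trace_iso hA)
        (htop x hx) (mem_sl3.1 hM) hMx
    have hsec : Sec Y (iso (X := X)) := (cf_iso.mono (Set.subset_univ _)).sec hd
    have hcont := continuousOn_sf hsec hform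
    have heq : ∀ (g : SL3), ∀ x ∈ Y, sf (iso (g • x)) = act4 g (sf (iso x)) := by
      intro g x hx
      rw [iso_smul, sf_cjs (hform x hx)]
    have hsym : ∀ x ∈ Y, (sf (iso x))ᵀ = sf (iso x) := fun x hx =>
      fm_symm (htop x hx) (sf_spec (hform x hx)).1
    have hdet : ∀ x ∈ Y, (sf (iso x)).det = 1 := fun x hx => (sf_spec (hform x hx)).2
    set T : Set X := {x ∈ Y | PosF (sf (iso x))} with hT
    have hTi : Inv SL3 T := by
      rintro g x ⟨hx, hx2⟩
      refine ⟨hY g x hx, ?_⟩
      rw [heq g x hx]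
      exact posF_act4 hx2
    refine Dec.glue (T := T) (fun x hx => hx.1) hY hTi ?_ ?_ ?_
    · rintro x ⟨hx, hxc⟩
      refine ⟨hx, ?_⟩
      have hne : (𝓝[T] x).NeBot := mem_closure_iff_nhdsWithin_neBot.1 hxc
      have h1 : Tendsto (fun y => sf (iso y)) (𝓝[T] x) (𝓝 (sf (iso x))) :=
        (hcont x hx).mono_left (nhdsWithin_mono x fun y hy => hy.1)
      refine isClosed_posF.mem_of_tendsto h1 ?_
      filter_upwards [self_mem_nhdsWithin] with y hy using hy.2
    · refine Dec.good hTi (Or.inr (Or.inr (Or.inr (Or.inl ?_))))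
      refine lift_orth (by norm_num) hTi (fun x => sf (iso x)) (hcont.mono fun x hx => hx.1)
        (fun g x hx => heq g x hx.1) (fun x hx => hsym x hx.1) (fun x hx => hdet x hx.1) ?_
      rintro x ⟨hx, hx2⟩
      exact (orbits (hsym x hx) (hdet x hx)).1 hx2
    · have hYT : Inv SL3 (Y \ T) := hY.diff hTi
      refine Dec.good hYT (Or.inr (Or.inr (Or.inr (Or.inr (Or.inl ?_)))))
      refine lift_orth (by norm_num) hYT (fun x => sf (iso x)) (hcont.mono fun x hx => hx.1)
        (fun g x hx => heq g x hx.1) (fun x hx => hsym x hx.1) (fun x hx => hdet x hx.1) ?_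
      rintro x ⟨hx, hx2⟩
      exact (orbits (hsym x hx) (hdet x hx)).2 fun h => hx2 ⟨hx, h⟩

/-- The decomposition of the set of points with nonzero isotropy algebra. -/
theorem dec_all : Dec SL3 (GoodT (TType (X := X))) {x : X | iso x ≠ ⊥} :=
  dec_main _ dec_irr

end Pool.Agent.Lib.MP_aa9b81_an
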