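import Mathlib
import Pool.Agent.Lib.MP_aa9b81_an.Triv

/-!
The set of points with nondiscrete isotropy group, and the final filtration.
-/

set_option autoImplicit false
set_option linter.unusedSectionVars false

open Filter Topology Matrix Module

namespace Pool.Agent.Lib.MP_aa9b81_an

/-- A nonzero isotropy algebra makes the isotropy group nondiscrete. -/
lemma not_discrete_of_ne_zero {H : Subgroup SL3} {A : M3} (hA : A ∈ lieSet (H : Set SL3))
    (hA0 : A ≠ 0) : ¬ DiscreteTopology H := by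
  intro hd
  choose a ha haA using hA
  have hlim : Tendsto (fun u : ℝ => a u) (𝓝[≠] 0) (𝓝 (1 : SL3)) := by
    apply (Matrix.SpecialLinearGroup.isClosedEmbedding_val (n := Fin 3) (R := ℝ)).tendsto_nhds_iff.2
    have h4 : Tendsto (fun u : ℝ => u • A) (𝓝[≠] 0) (𝓝 ((0 : ℝ) • A)) :=
      ((continuous_id.smul continuous_const).tendsto (0 : ℝ)).mono_left nhdsWithin_le_nhds
    have h5 := (continuous_exp_matrix.tendsto _).comp h4
    rw [zero_smul, NormedSpace.exp_zero] at h5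
    refine h5.congr fun u => ?_
    exact (haA u).symm
  have hlim2 : Tendsto (fun u : ℝ => (⟨a u, ha u⟩ : H)) (𝓝[≠] 0) (𝓝 (1 : H)) := by
    rw [tendsto_subtype_rng]
    exact hlim
  have hev : ∀ᶠ u in 𝓝[≠] (0 : ℝ), (⟨a u, ha u⟩ : H) = 1 := by
    have h1 : ({1} : Set H) ∈ 𝓝 (1 : H) := (isOpen_discrete _).mem_nhds rfl
    exact hlim2 h1
  have hzero : ∀ᶠ u in 𝓝[≠] (0 : ℝ), u⁻¹ • (NormedSpace.exp (u • A) - 1) = 0 := by
    filter_upwards [hev] with u hu
    have h1 : a u = 1 := congrArg Subtype.val hu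
    rw [← haA u, h1, Matrix.SpecialLinearGroup.coe_one, sub_self, smul_zero]
  have h2 := tendsto_slope_exp_matrix A
  have h3 : Tendsto (fun u : ℝ => u⁻¹ • (NormedSpace.exp (u • A) - 1)) (𝓝[≠] 0) (𝓝 0) :=
    tendsto_const_nhds.congr' (hzero.mono fun u hu => hu.symm)
  exact hA0 (tendsto_nhds_unique h2 h3)

variable {X : Type*} [TopologicalSpace X] [T2Space X] [MulAction SL3 X] [ContinuousSMul SL3 X]

lemma iso_ne_bot_iff {x : X} :
    iso x ≠ ⊥ ↔ ¬ DiscreteTopology (MulAction.stabilizer SL3 x) := by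
  constructor
  · intro h
    obtain ⟨A, hA, hA0⟩ := Submodule.exists_mem_ne_zero_of_ne_bot h
    exact not_discrete_of_ne_zero (mem_iso_iff.1 hA) hA0
  · intro h h0
    obtain ⟨A, hA, hA0⟩ := exists_ne_zero_iso h
    rw [h0] at hA
    exact hA0 hA

lemma isClosed_nondiscrete :
    IsClosed {x : X | ¬ DiscreteTopology (MulAction.stabilizer SL3 x)} := by
  have : {x : X | ¬ DiscreteTopology (MulAction.stabilizer SL3 x)} = {x : X | iso x ≠ ⊥} := by
    ext x
    exact iso_ne_bot_iff.symm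
  rw [this, ← closure_subset_iff_isClosed]
  intro x hx
  have h1 : x ∈ closure {y ∈ (Set.univ : Set X) | 1 ≤ finrank ℝ (iso y)} := by
    refine closure_mono ?_ hx
    intro y hy
    refine ⟨trivial, ?_⟩
    have : finrank ℝ (iso y) ≠ 0 := fun h => hy (Submodule.finrank_eq_zero.1 h)
    omega
  have h2 := cf_iso.finrank_ge (Set.mem_univ x) h1
  intro h
  rw [h, finrank_bot] at h2
  omega

/-- The final filtration. -/
theorem filtration : ∃ (n : ℕ) (F : ℕ → Set X), (∀ i, IsClosed (F i)) ∧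
    (∀ i (g : SL3), ∀ x ∈ F i, g • x ∈ F i) ∧ (∀ i, F i ⊆ F (i + 1)) ∧ F 0 = ∅ ∧
    F n = {x : X | ¬ DiscreteTopology (MulAction.stabilizer SL3 x)} ∧
    ∀ i < n, GoodT (TType (X := X)) (F (i + 1) \ F i) := by
  obtain ⟨n, C, h1, h2, h3, h4, h5, h6⟩ := (dec_all (X := X)).filt
  have hN : {x : X | iso x ≠ ⊥} = {x : X | ¬ DiscreteTopology (MulAction.stabilizer SL3 x)} := by
    ext x
    exact iso_ne_bot_iff
  have hNi : Inv SL3 {x : X | iso x ≠ ⊥} := (dec_all (X := X)).inv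
  rw [hN] at h4 h5 h6 hNi
  set N : Set X := {x : X | ¬ DiscreteTopology (MulAction.stabilizer SL3 x)} with hNd
  refine ⟨n, fun i => N ∩ C i, fun i => isClosed_nondiscrete.inter (h1 i),
    fun i g x hx => ⟨hNi g x hx.1, h2 i g x hx.2⟩,
    fun i => Set.inter_subset_inter_right _ (h3 (Nat.le_succ i)), h4,
    Set.inter_eq_left.2 h5, fun i hi => ?_⟩
  have : (N ∩ C (i + 1)) \ (N ∩ C i) = N ∩ (C (i + 1) \ C i) := by
    ext x
    simp only [Set.mem_sdiff, Set.mem_inter_iff, not_and]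
    tauto
  rw [this]
  exact h6 i hi

lemma mem_nrmD_iff {g : SL3} : g ∈ nrmD ↔ ∀ d : Fin 3 → ℝ, ∃ d' : Fin 3 → ℝ,
    (g : M3) * Matrix.diagonal d * ((g⁻¹ : SL3) : M3) = Matrix.diagonal d' := by
  rw [mem_nrmD]
  constructor
  · intro h d
    have h1 : cj g (Matrix.diagonal d) ∈ cjs g diag3 := cj_mem_cjs.2 (mem_diag3.2 ⟨d, rfl⟩)
    rw [h] at h1
    exact mem_diag3.1 h1
  · intro h
    have hle : cjs g diag3 ≤ diag3 := by
      intro A hA
      obtain ⟨B, hB, rfl⟩ := hA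
      obtain ⟨d, rfl⟩ := mem_diag3.1 hB
      exact mem_diag3.2 (h d)
    exact Submodule.eq_of_le_of_finrank_eq hle (finrank_cjs g diag3)

end Pool.Agent.Lib.MP_aa9b81_an
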