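import Mathlib
import Pool.Agent.Lib.MP_aa9b81_an.NAlg

/-!
Large spaces of matrices closed under commutators contain transvections: if the codimension of
`S` in the `n × n` matrices is less than `d (n - d)` for some `d ≤ n`, then `S` contains a matrix
of rank one and trace zero.
-/

set_option autoImplicit false
set_option linter.unusedSectionVars false

open Matrix Module

namespace Pool.Agent.Lib.MP_aa9b81_an.L

open Pool.Agent.Lib.MP_aa9b81_an.N

variable {n : ℕ}

/-- The matrix `x ↦ (φ · x) u`. -/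
def T (φ u : VV n) : MM n := Matrix.vecMulVec u φ

lemma T_mulVec (φ u x : VV n) : T φ u *ᵥ x = (φ ⬝ᵥ x) • u := by
  ext i
  simp only [T, Matrix.mulVec, dotProduct, Matrix.vecMulVec_apply, Pi.smul_apply, smul_eq_mul,
    Finset.sum_mul]
  exact Finset.sum_congr rfl fun j _ => by ring

lemma vecMul_T (φ u x : VV n) : x ᵥ* T φ u = (u ⬝ᵥ x) • φ := by
  ext i
  simp only [T, Matrix.vecMul, dotProduct, Matrix.vecMulVec_apply, Pi.smul_apply, smul_eq_mul,
    Finset.sum_mul]
  exact Finset.sum_congr rfl fun j _ => by ring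

lemma mul_T (A : MM n) (φ u : VV n) : A * T φ u = T φ (A *ᵥ u) := by
  ext i j
  simp only [T, Matrix.mul_apply, Matrix.mulVec, dotProduct, Matrix.vecMulVec_apply,
    Finset.sum_mul]
  exact Finset.sum_congr rfl fun k _ => by ring

lemma T_mul (A : MM n) (φ u : VV n) : T φ u * A = T (φ ᵥ* A) u := by
  ext i j
  simp only [T, Matrix.mul_apply, Matrix.vecMul, dotProduct, Matrix.vecMulVec_apply,
    Finset.mul_sum]
  exact Finset.sum_congr rfl fun k _ => by ring

lemma trace_T (φ u : VV n) : (T φ u).trace = φ ⬝ᵥ u := by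
  simp only [T, Matrix.trace, Matrix.diag_apply, Matrix.vecMulVec_apply, dotProduct]
  exact Finset.sum_congr rfl fun k _ => by ring

lemma T_add_left (φ ψ u : VV n) : T (φ + ψ) u = T φ u + T ψ u := by
  ext i j; simp [T, Matrix.vecMulVec_apply, mul_add]

lemma T_add_right (φ u w : VV n) : T φ (u + w) = T φ u + T φ w := by
  ext i j; simp [T, Matrix.vecMulVec_apply, add_mul]

lemma T_smul_left (c : ℝ) (φ u : VV n) : T (c • φ) u = c • T φ u := by
  ext i j; simp [T, Matrix.vecMulVec_apply]; ring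

lemma T_smul_right (c : ℝ) (φ u : VV n) : T φ (c • u) = c • T φ u := by
  ext i j; simp [T, Matrix.vecMulVec_apply]; ring

lemma T_neg_right (φ u : VV n) : T φ (-u) = - T φ u := by
  ext i j; simp [T, Matrix.vecMulVec_apply]

lemma T_sub_left (φ ψ u : VV n) : T (φ - ψ) u = T φ u - T ψ u := by
  ext i j; simp [T, Matrix.vecMulVec_apply, mul_sub]

lemma T_sub_right (φ u w : VV n) : T φ (u - w) = T φ u - T φ w := by
  ext i j; simp [T, Matrix.vecMulVec_apply, sub_mul]

lemma T_zero_left (u : VV n) : T 0 u = 0 := by ext i j; simp [T, Matrix.vecMulVec_apply]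

lemma T_zero_right (φ : VV n) : T φ 0 = 0 := by ext i j; simp [T, Matrix.vecMulVec_apply]

lemma transpose_T (φ u : VV n) : (T φ u)ᵀ = T u φ := by
  ext i j; simp [T, Matrix.vecMulVec_apply, mul_comm]

/-- A matrix is determined by its values on the standard basis vectors. -/
lemma ext_single {A B : MM n} (h : ∀ j : Fin n, A *ᵥ (Pi.single j 1) = B *ᵥ (Pi.single j 1)) :
    A = B := by
  ext i j
  have := congrFun (h j) i
  simpa using this

/-- A matrix all of whose values are multiples of `w` is some `T φ w`. -/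
lemma T_of_range {M : MM n} {w : VV n} (h : ∀ x, M *ᵥ x ∈ Submodule.span ℝ {w}) :
    ∃ φ, M = T φ w := by
  have h1 : ∀ j : Fin n, ∃ s : ℝ, s • w = M *ᵥ (Pi.single j 1) := fun j =>
    Submodule.mem_span_singleton.1 (h _)
  choose φ hφ using h1
  refine ⟨φ, ext_single fun j => ?_⟩
  rw [T_mulVec, ← hφ j]
  simp

/-- Closed under commutators. -/
def Br (S : Submodule ℝ (MM n)) : Prop := ∀ A ∈ S, ∀ B ∈ S, A * B - B * A ∈ S

/-- Every subspace of dimension `j` contains the range, and is contained in the kernel, of some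
nonzero element of `S`. -/
def Cl (S : Submodule ℝ (MM n)) (j : ℕ) : Prop :=
  ∀ W : Submodule ℝ (VV n), finrank ℝ W = j → ∃ A ∈ S, A ≠ 0 ∧ (∀ x, A *ᵥ x ∈ W) ∧
    ∀ x ∈ W, A *ᵥ x = 0

lemma finrank_sup_span {L : Submodule ℝ (VV n)} {c : VV n} (hc : c ∉ L) :
    finrank ℝ ↥(L ⊔ Submodule.span ℝ {c}) = finrank ℝ L + 1 := by
  have hc0 : c ≠ 0 := fun h => hc (h ▸ L.zero_mem)
  have h1 := Submodule.finrank_sup_add_finrank_inf_eq L (Submodule.span ℝ {c})
  have h2 : L ⊓ Submodule.span ℝ {c} = ⊥ := by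
    rw [eq_bot_iff]
    rintro x ⟨hx1, hx2⟩
    obtain ⟨s, rfl⟩ := Submodule.mem_span_singleton.1 hx2
    by_cases hs : s = 0
    · simp [hs]
    · exfalso
      apply hc
      have := L.smul_mem s⁻¹ hx1
      rwa [smul_smul, inv_mul_cancel₀ hs, one_smul] at this
  rw [h2, finrank_bot, add_zero, finrank_span_singleton hc0] at h1
  exact h1

/-- The union of finitely many proper subspaces is not everything. -/
lemma exists_avoid {ι : Type*} (t : Finset ι) (p : ι → Submodule ℝ (VV n)) (h : ∀ i ∈ t, p i ≠ ⊤) :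
    ∃ b, ∀ i ∈ t, b ∉ p i := by
  classical
  by_contra hcon
  push Not at hcon
  have h1 : ⋃ q ∈ t.image p, (q : Set (VV n)) = Set.univ := by
    rw [Set.eq_univ_iff_forall]
    intro b
    obtain ⟨i, hi, hb⟩ := hcon b
    exact Set.mem_iUnion₂.2 ⟨p i, Finset.mem_image_of_mem _ hi, hb⟩
  have h2 := Subspace.top_mem_of_biUnion_eq_univ (k := ℝ) h1
  obtain ⟨i, hi, hi2⟩ := Finset.mem_image.1 h2
  exact h i hi hi2

/-- The kernel of a matrix as a subspace. -/
def kerM (A : MM n) : Submodule ℝ (VV n) where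
  carrier := {x | A *ᵥ x = 0}
  zero_mem' := by simp
  add_mem' := fun {a b} ha hb => by
    change _ *ᵥ _ = 0 at ha
    change _ *ᵥ _ = 0 at hb
    change _ *ᵥ _ = 0
    rw [Matrix.mulVec_add, ha, hb, add_zero]
  smul_mem' := fun c x hx => by
    change _ *ᵥ _ = 0 at hx
    change _ *ᵥ _ = 0
    rw [Matrix.mulVec_smul, hx, smul_zero]

lemma mem_kerM {A : MM n} {x : VV n} : x ∈ kerM A ↔ A *ᵥ x = 0 := Iff.rfl

lemma kerM_ne_top {A : MM n} (hA : A ≠ 0) : kerM A ≠ ⊤ := by
  intro h
  apply hA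
  refine ext_single fun j => ?_
  have : (Pi.single j 1 : VV n) ∈ kerM A := h ▸ Submodule.mem_top
  rw [mem_kerM.1 this, Matrix.zero_mulVec]

lemma sandwich {S : Submodule ℝ (MM n)} (hS : Br S) {A B : MM n} (hA : A ∈ S) (hB : B ∈ S)
    (h0 : A * A = 0) : A * B * A ∈ S := by
  have h1 := hS A hA _ (hS A hA B hB)
  have h2 : A * (A * B - B * A) - (A * B - B * A) * A = (-2 : ℝ) • (A * B * A) := by
    have e1 : A * (A * B - B * A) - (A * B - B * A) * A =
        (A * A) * B - A * B * A - A * B * A + B * (A * A) := by noncomm_ring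
    rw [e1, h0, zero_mul, mul_zero, zero_sub, add_zero, neg_smul, two_smul]
    abel
  rw [h2] at h1
  have h3 := S.smul_mem (-(1 / 2) : ℝ) h1
  rw [smul_smul] at h3
  norm_num at h3
  exact h3

/-- There are no transvections in `S`. -/
def NoT (S : Submodule ℝ (MM n)) : Prop :=
  ∀ φ u : VV n, φ ⬝ᵥ u = 0 → T φ u ∈ S → T φ u = 0

theorem descent {S : Submodule ℝ (MM n)} (hS : Br S) (hno : NoT S) {j : ℕ} (hj : j < n)
    (h : Cl S (j + 1)) : Cl S j := by
  classical
  intro L hL
  by_contra hcon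
  push Not at hcon
  have hC : ∀ c : VV n, c ∉ L → ∃ A ∈ S, A ≠ 0 ∧ (∀ x, A *ᵥ x ∈ L ⊔ Submodule.span ℝ {c}) ∧
      ∀ x ∈ L ⊔ Submodule.span ℝ {c}, A *ᵥ x = 0 := fun c hc =>
    h _ (by rw [finrank_sup_span hc, hL])
  choose! A hAS hA0 hAr hAk using hC
  have hsq : ∀ c, c ∉ L → A c * A c = 0 := fun c hc => ext_single fun i => by
    rw [← Matrix.mulVec_mulVec, hAk c hc _ (hAr c hc _), Matrix.zero_mulVec]
  -- the vectors of the standard basis outside `L`
  let t : Finset (Fin n) := Finset.univ.filter fun i => (Pi.single i 1 : VV n) ∉ L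
  have hLtop : L ≠ ⊤ := by
    rintro rfl
    rw [finrank_top, Module.finrank_fin_fun] at hL
    omega
  obtain ⟨b, hb⟩ := exists_avoid (insert none (t.map Function.Embedding.some))
    (fun o => match o with
      | none => L
      | some i => kerM (A (Pi.single i 1))) (by
      intro o ho
      match o with
      | none => exact hLtop
      | some i =>
        have hi : i ∈ t := by simpa using ho
        exact kerM_ne_top (hA0 _ (Finset.mem_filter.1 hi).2))
  have hbL : b ∉ L := hb none (by simp)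
  have hbk : ∀ i, (Pi.single i 1 : VV n) ∉ L → A (Pi.single i 1) *ᵥ b ≠ 0 := fun i hi =>
    hb (some i) (by simp [t, hi])
  have hLb : L ≤ L ⊔ Submodule.span ℝ {b} := le_sup_left
  have key : ∀ i : Fin n, A b *ᵥ (Pi.single i 1) ∈ L := by
    intro i
    by_cases hi : (Pi.single i 1 : VV n) ∈ L
    · rw [hAk b hbL _ (hLb hi)]
      exact L.zero_mem
    set c : VV n := Pi.single i 1 with hc
    have hw : A c *ᵥ (A b *ᵥ c) = 0 := by
      set w := A c *ᵥ (A b *ᵥ c) with hwd
      by_contra hw0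
      have hM : A c * A b * A c ∈ S := sandwich hS (hAS c hi) (hAS b hbL) (hsq c hi)
      have hMx : ∀ x : VV n, ∀ l ∈ L, ∀ s : ℝ, A c *ᵥ x = l + s • c →
          (A c * A b * A c) *ᵥ x = s • w := by
        intro x l hl s hx
        rw [mul_assoc, ← Matrix.mulVec_mulVec, ← Matrix.mulVec_mulVec, hx, Matrix.mulVec_add,
          hAk b hbL l (hLb hl), zero_add, Matrix.mulVec_smul, Matrix.mulVec_smul]
      have hdec : ∀ x : VV n, ∃ l ∈ L, ∃ s : ℝ, A c *ᵥ x = l + s • c := by
        intro x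
        obtain ⟨l, hl, y, hy, hxy⟩ := Submodule.mem_sup.1 (hAr c hi x)
        obtain ⟨s, rfl⟩ := Submodule.mem_span_singleton.1 hy
        exact ⟨l, hl, s, hxy.symm⟩
      obtain ⟨φ, hφ⟩ := T_of_range (M := A c * A b * A c) (w := w) fun x => by
        obtain ⟨l, hl, s, hs⟩ := hdec x
        rw [hMx x l hl s hs]
        exact Submodule.smul_mem _ _ (Submodule.mem_span_singleton_self w)
      have hφw : φ ⬝ᵥ w = 0 := by
        have h1 : (A c * A b * A c) *ᵥ w = 0 := by
          rw [← Matrix.mulVec_mulVec, hwd, hAk c hi _ (hAr c hi _), Matrix.mulVec_zero]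
        rw [hφ, T_mulVec] at h1
        exact (smul_eq_zero.1 h1).resolve_right hw0
      have h0 := hno φ w hφw (hφ ▸ hM)
      -- some value of `A c` is outside `L`
      have hex : ∃ x, A c *ᵥ x ∉ L := by
        by_contra hall
        push Not at hall
        obtain ⟨x, hx, hx2⟩ := hcon (A c) (hAS c hi) (hA0 c hi) hall
        exact hx2 (hAk c hi x ((le_sup_left : L ≤ L ⊔ Submodule.span ℝ {c}) hx))
      obtain ⟨x, hx⟩ := hex
      obtain ⟨l, hl, s, hs⟩ := hdec x
      have hs0 : s ≠ 0 := by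
        rintro rfl
        apply hx
        rw [hs, zero_smul, add_zero]
        exact hl
      have h3 := hMx x l hl s hs
      rw [hφ, h0, Matrix.zero_mulVec] at h3
      exact (smul_ne_zero hs0 hw0) h3.symm
    obtain ⟨l, hl, y, hy, hxy⟩ := Submodule.mem_sup.1 (hAr b hbL c)
    obtain ⟨s, rfl⟩ := Submodule.mem_span_singleton.1 hy
    rw [← hxy, Matrix.mulVec_add, hAk c hi l ((le_sup_left : L ≤ L ⊔ Submodule.span ℝ {c}) hl),
      zero_add, Matrix.mulVec_smul] at hw
    have hs : s = 0 := (smul_eq_zero.1 hw).resolve_right (hbk i hi)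
    rw [← hxy, hs, zero_smul, add_zero]
    exact hl
  obtain ⟨x, hx, hx2⟩ := hcon (A b) (hAS b hbL) (hA0 b hbL) (by
    intro x
    have h1 : x = ∑ i, x i • (Pi.single i 1 : VV n) := by
      ext k
      simp [Finset.sum_apply, Pi.single_apply]
    rw [h1, Matrix.mulVec_sum]
    refine Submodule.sum_mem _ fun i _ => ?_
    rw [Matrix.mulVec_smul]
    exact L.smul_mem _ (key i))
  exact hx2 (hAk b hbL x (hLb hx))

/-- The matrices with range in `W` and kernel containing `W`. -/
def sq (W : Submodule ℝ (VV n)) : Submodule ℝ (MM n) where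
  carrier := {A | (∀ x, A *ᵥ x ∈ W) ∧ ∀ x ∈ W, A *ᵥ x = 0}
  zero_mem' := ⟨fun x => by rw [Matrix.zero_mulVec]; exact W.zero_mem, fun x _ => Matrix.zero_mulVec x⟩
  add_mem' := fun {A B} hA hB => ⟨fun x => by rw [Matrix.add_mulVec]; exact W.add_mem (hA.1 x) (hB.1 x),
    fun x hx => by rw [Matrix.add_mulVec, hA.2 x hx, hB.2 x hx, add_zero]⟩
  smul_mem' := fun c A hA => ⟨fun x => by rw [Matrix.smul_mulVec]; exact W.smul_mem c (hA.1 x),
    fun x hx => by rw [Matrix.smul_mulVec, hA.2 x hx, smul_zero]⟩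

lemma finrank_sq (W : Submodule ℝ (VV n)) :
    (n - finrank ℝ W) * finrank ℝ W ≤ finrank ℝ (sq W) := by
  let F : ((VV n ⧸ W) →ₗ[ℝ] W) →ₗ[ℝ] MM n :=
    { toFun := fun f => LinearMap.toMatrix' (W.subtype ∘ₗ f ∘ₗ W.mkQ)
      map_add' := fun f g => by
        rw [LinearMap.add_comp, LinearMap.comp_add, map_add]
      map_smul' := fun c f => by
        rw [LinearMap.smul_comp, LinearMap.comp_smul, map_smul, RingHom.id_apply] }
  have hF : Function.Injective F := by
    intro f g hfg
    have h1 : W.subtype ∘ₗ f ∘ₗ W.mkQ = W.subtype ∘ₗ g ∘ₗ W.mkQ := LinearMap.toMatrix'.injective hfg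
    refine LinearMap.ext fun q => ?_
    obtain ⟨x, rfl⟩ := W.mkQ_surjective q
    have h2 := LinearMap.congr_fun h1 x
    exact Subtype.ext h2
  have hr : LinearMap.range F ≤ sq W := by
    rintro _ ⟨f, rfl⟩
    refine ⟨fun x => ?_, fun x hx => ?_⟩
    · change LinearMap.toMatrix' (W.subtype ∘ₗ f ∘ₗ W.mkQ) *ᵥ x ∈ W
      rw [LinearMap.toMatrix'_mulVec]
      exact (f (W.mkQ x)).2
    · change LinearMap.toMatrix' (W.subtype ∘ₗ f ∘ₗ W.mkQ) *ᵥ x = 0
      rw [LinearMap.toMatrix'_mulVec]
      have : W.mkQ x = 0 := (Submodule.Quotient.mk_eq_zero W).2 hx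
      simp only [LinearMap.comp_apply, this, map_zero]
  calc (n - finrank ℝ W) * finrank ℝ W = finrank ℝ ((VV n ⧸ W) →ₗ[ℝ] W) := by
        rw [Module.finrank_linearMap]
        congr 1
        have := Submodule.finrank_quotient_add_finrank W
        rw [Module.finrank_fin_fun] at this
        omega
    _ = finrank ℝ (LinearMap.range F) := (LinearMap.finrank_range_of_inj hF).symm
    _ ≤ finrank ℝ (sq W) := Submodule.finrank_mono hr

lemma finrank_MM : finrank ℝ (MM n) = n * n := by
  rw [Module.finrank_matrix]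
  simp

/-- Existence of a transvection in a large Lie algebra of matrices. -/
theorem exists_transvection {S : Submodule ℝ (MM n)} (hS : Br S) {d : ℕ} (hd : d ≤ n)
    (hdim : n * n < finrank ℝ S + (n - d) * d) :
    ∃ φ u : VV n, φ ≠ 0 ∧ u ≠ 0 ∧ φ ⬝ᵥ u = 0 ∧ T φ u ∈ S := by
  by_contra hcon
  have hno : NoT S := by
    intro φ u h1 h2
    by_contra h3
    apply hcon
    refine ⟨φ, u, ?_, ?_, h1, h2⟩
    · rintro rfl; exact h3 (T_zero_left u)
    · rintro rfl; exact h3 (T_zero_right φ)
  have hd' : Cl S d := by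
    intro W hW
    by_contra hW2
    push Not at hW2
    have hdis : Disjoint S (sq W) := by
      rw [Submodule.disjoint_def]
      intro A hA hA2
      by_contra hA0
      obtain ⟨x, hx, hx2⟩ := hW2 A hA hA0 hA2.1
      exact hx2 (hA2.2 x hx)
    have h1 := Submodule.finrank_add_finrank_le_of_disjoint hdis
    rw [finrank_MM] at h1
    have h2 := finrank_sq W
    rw [hW] at h2
    omega
  have hall : ∀ k, k ≤ d → Cl S (d - k) := by
    intro k
    induction k with
    | zero => intro _; simpa using hd'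
    | succ k ih =>
      intro hk
      refine descent hS hno (by omega) ?_
      have := ih (by omega)
      rwa [show d - k = d - (k + 1) + 1 by omega] at this
  obtain ⟨A, hA, hA0, hA1, -⟩ := (by simpa using hall d le_rfl : Cl S 0) ⊥ (by simp)
  apply hA0
  refine ext_single fun i => ?_
  rw [Matrix.zero_mulVec]
  exact (Submodule.mem_bot ℝ).1 (hA1 _)

end Pool.Agent.Lib.MP_aa9b81_an.L
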