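import Mathlib
import Pool.Agent.Lib.MP_aa9b81_an.LowE

/-!
The transvections in a Lie algebra of matrices which stabilises at most the line of `v`.
-/

set_option autoImplicit false
set_option linter.unusedSectionVars false

open Matrix Module Filter Topology

namespace Pool.Agent.Lib.MP_aa9b81_an.L

open Pool.Agent.Lib.MP_aa9b81_an.N

variable {n : ℕ} [NeZero n]

/-! ### Exponentials -/

lemma exp_neg_mul_exp' (A : MM n) : NormedSpace.exp (-A) * NormedSpace.exp A = 1 := by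
  have := exp_mul_exp_neg (-A)
  rwa [neg_neg] at this

section

open scoped Matrix.Norms.Operator

set_option backward.isDefEq.respectTransparency false in
lemma exp_hasSum (A : MM n) :
    HasSum (fun k : ℕ => ((k.factorial : ℝ)⁻¹) • A ^ k) (NormedSpace.exp A) :=
  NormedSpace.exp_series_hasSum_exp' (𝕂 := ℝ) A

end

lemma exp_mulVec_mem {W : Submodule ℝ (VV n)} {A : MM n} (hA : ∀ x ∈ W, A *ᵥ x ∈ W) :
    ∀ x ∈ W, NormedSpace.exp A *ᵥ x ∈ W := by
  intro x hx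
  have hcl : IsClosed {M : MM n | M *ᵥ x ∈ W} := by
    have h1 : Continuous fun M : MM n => M *ᵥ x := Continuous.matrix_mulVec continuous_id continuous_const
    exact (Submodule.closed_of_finiteDimensional W).preimage h1
  have hpow : ∀ k : ℕ, A ^ k *ᵥ x ∈ W := by
    intro k
    induction k with
    | zero => simpa using hx
    | succ k ih => rw [pow_succ', ← Matrix.mulVec_mulVec]; exact hA _ ih
  refine hcl.mem_of_tendsto (exp_hasSum A) (Eventually.of_forall fun s => ?_)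
  change (∑ k ∈ s, ((k.factorial : ℝ)⁻¹) • A ^ k) *ᵥ x ∈ W
  rw [Matrix.sum_mulVec]
  refine Submodule.sum_mem _ fun k _ => ?_
  rw [Matrix.smul_mulVec]
  exact W.smul_mem _ (hpow k)

lemma deriv_mulVec {N : Submodule ℝ (VV n)} {A : MM n} {w : VV n} (hw : w ∈ N)
    (h : ∀ᶠ t : ℝ in 𝓝[≠] 0, NormedSpace.exp (t • A) *ᵥ w ∈ N) : A *ᵥ w ∈ N := by
  have h1 := tendsto_slope_exp_matrix A
  have hc : Continuous fun M : MM n => M *ᵥ w := Continuous.matrix_mulVec continuous_id continuous_const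
  have h2 := (hc.tendsto _).comp h1
  refine (Submodule.closed_of_finiteDimensional N).mem_of_tendsto h2 (h.mono fun t ht => ?_)
  change (t⁻¹ • (NormedSpace.exp (t • A) - 1)) *ᵥ w ∈ N
  rw [Matrix.smul_mulVec, Matrix.sub_mulVec, Matrix.one_mulVec]
  exact N.smul_mem _ (N.sub_mem ht hw)

lemma deriv_vecMul {N : Submodule ℝ (VV n)} {A : MM n} {w : VV n} (hw : w ∈ N)
    (h : ∀ᶠ t : ℝ in 𝓝[≠] 0, w ᵥ* NormedSpace.exp (-(t • A)) ∈ N) : w ᵥ* A ∈ N := by
  have h1 := tendsto_slope_exp_matrix (-A)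
  have hc : Continuous fun M : MM n => w ᵥ* M := Continuous.matrix_vecMul continuous_const continuous_id
  have h2 := (hc.tendsto _).comp h1
  have h3 : w ᵥ* (-A) ∈ N := by
    refine (Submodule.closed_of_finiteDimensional N).mem_of_tendsto h2 (h.mono fun t ht => ?_)
    change w ᵥ* (t⁻¹ • (NormedSpace.exp (t • -A) - 1)) ∈ N
    rw [Matrix.vecMul_smul, Matrix.vecMul_sub, Matrix.vecMul_one, smul_neg]
    exact N.smul_mem _ (N.sub_mem ht hw)
  rw [Matrix.vecMul_neg] at h3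
  simpa using N.neg_mem h3

lemma tendsto_exp_zero (A : MM n) :
    Tendsto (fun t : ℝ => NormedSpace.exp (t • A)) (𝓝[≠] 0) (𝓝 (1 : MM n)) := by
  have h4 : Tendsto (fun u : ℝ => u • A) (𝓝[≠] 0) (𝓝 ((0 : ℝ) • A)) :=
    ((continuous_id.smul continuous_const).tendsto (0 : ℝ)).mono_left nhdsWithin_le_nhds
  have h5 := (continuous_exp_matrix.tendsto _).comp h4
  rw [zero_smul, NormedSpace.exp_zero] at h5
  exact h5

/-! ### Orthogonal subspaces -/

/-- The orthogonal of a space of vectors. -/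
noncomputable def an' (W : Submodule ℝ (VV n)) : Submodule ℝ (VV n) := dpf.orthogonal W

lemma mem_an' {W : Submodule ℝ (VV n)} {x : VV n} : x ∈ an' W ↔ ∀ φ ∈ W, φ ⬝ᵥ x = 0 := Iff.rfl

lemma an'_an' (W : Submodule ℝ (VV n)) : an' (an' W) = W :=
  LinearMap.BilinForm.orthogonal_orthogonal dpf_nondeg dpf_symm.isRefl W

lemma mem_of_an' {W : Submodule ℝ (VV n)} {x : VV n} (h : ∀ φ ∈ an' W, φ ⬝ᵥ x = 0) : x ∈ W := by
  rw [← an'_an' W]
  exact h

lemma exists_of_notMem {W : Submodule ℝ (VV n)} {x : VV n} (h : x ∉ W) :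
    ∃ φ, (∀ w ∈ W, φ ⬝ᵥ w = 0) ∧ φ ⬝ᵥ x ≠ 0 := by
  by_contra hcon
  push Not at hcon
  apply h
  refine mem_of_an' fun φ hφ => hcon φ fun w hw => ?_
  rw [dotProduct_comm]
  exact hφ w hw

/-! ### The functionals of transvections with a given vector -/

/-- The `φ` with `T φ u ∈ S`, `φ · v = 0` and `φ · u = 0`. -/
def F (S : Submodule ℝ (MM n)) (v u : VV n) : Submodule ℝ (VV n) where
  carrier := {φ | φ ⬝ᵥ v = 0 ∧ φ ⬝ᵥ u = 0 ∧ T φ u ∈ S}
  zero_mem' := ⟨zero_dotProduct _, zero_dotProduct _, by rw [T_zero_left]; exact S.zero_mem⟩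
  add_mem' := fun {a b} ha hb => ⟨by rw [add_dotProduct, ha.1, hb.1, add_zero],
    by rw [add_dotProduct, ha.2.1, hb.2.1, add_zero], by rw [T_add_left]; exact S.add_mem ha.2.2 hb.2.2⟩
  smul_mem' := fun c x hx => ⟨by rw [smul_dotProduct, hx.1, smul_zero],
    by rw [smul_dotProduct, hx.2.1, smul_zero], by rw [T_smul_left]; exact S.smul_mem c hx.2.2⟩

lemma mem_F {S : Submodule ℝ (MM n)} {v u φ : VV n} :
    φ ∈ F S v u ↔ φ ⬝ᵥ v = 0 ∧ φ ⬝ᵥ u = 0 ∧ T φ u ∈ S := Iff.rfl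

variable {S : Submodule ℝ (MM n)} {v : VV n}

lemma comm_T (φ a ψ b : VV n) :
    T φ a * T ψ b - T ψ b * T φ a = (φ ⬝ᵥ b) • T ψ a - (ψ ⬝ᵥ a) • T φ b := by
  rw [mul_T, mul_T, T_mulVec, T_mulVec, T_smul_right, T_smul_right]

lemma alpha (hS : Br S) {a b φ ψ : VV n} (hφ : φ ∈ F S v a) (hψ : ψ ∈ F S v b)
    (h1 : φ ⬝ᵥ b ≠ 0) (h2 : ψ ⬝ᵥ a = 0) : ψ ∈ F S v a := by
  have h := hS _ hφ.2.2 _ hψ.2.2
  rw [comm_T, h2, zero_smul, sub_zero] at h
  refine ⟨hψ.1, h2, ?_⟩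
  have h3 := S.smul_mem (φ ⬝ᵥ b)⁻¹ h
  rwa [smul_smul, inv_mul_cancel₀ h1, one_smul] at h3

lemma beta (hS : Br S) {a b φ ψ : VV n} (hφ : φ ∈ F S v a) (hψ : ψ ∈ F S v b)
    (h1 : φ ⬝ᵥ b = 0) (h2 : ψ ⬝ᵥ a ≠ 0) : φ ∈ F S v b :=
  alpha hS hψ hφ h2 h1

/-- Stability under conjugation by exponentials. -/
def Ex (S : Submodule ℝ (MM n)) : Prop :=
  ∀ A ∈ S, ∀ B ∈ S, NormedSpace.exp A * B * NormedSpace.exp (-A) ∈ S

lemma F_exp (hE : Ex S) (hv : ∀ A ∈ S, A *ᵥ v ∈ Submodule.span ℝ {v}) {A : MM n} (hA : A ∈ S)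
    {w φ : VV n} (hφ : φ ∈ F S v w) :
    φ ᵥ* NormedSpace.exp (-A) ∈ F S v (NormedSpace.exp A *ᵥ w) := by
  refine ⟨?_, ?_, ?_⟩
  · have h1 : ∀ x ∈ Submodule.span ℝ {v}, (-A) *ᵥ x ∈ Submodule.span ℝ {v} := by
      intro x hx
      obtain ⟨s, rfl⟩ := Submodule.mem_span_singleton.1 hx
      rw [Matrix.mulVec_smul]
      exact Submodule.smul_mem _ _ (hv _ (S.neg_mem hA))
    obtain ⟨s, hs⟩ := Submodule.mem_span_singleton.1
      (exp_mulVec_mem h1 v (Submodule.mem_span_singleton_self v))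
    rw [← Matrix.dotProduct_mulVec, ← hs, dotProduct_smul, hφ.1, smul_zero]
  · rw [← Matrix.dotProduct_mulVec, Matrix.mulVec_mulVec, exp_neg_mul_exp', Matrix.one_mulVec]
    exact hφ.2.1
  · have h1 := hE A hA _ hφ.2.2
    rwa [mul_T, T_mul] at h1

/-- The vectors outside `K` of transvections in `S`. -/
def D (S : Submodule ℝ (MM n)) (v : VV n) (K : Submodule ℝ (VV n)) : Set (VV n) :=
  {w | w ∉ K ∧ F S v w ≠ ⊥}

/-- The span of the functionals of transvections with vector outside `K`. -/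
def Sig (S : Submodule ℝ (MM n)) (v : VV n) (K : Submodule ℝ (VV n)) : Submodule ℝ (VV n) :=
  Submodule.span ℝ {φ | ∃ w ∉ K, φ ∈ F S v w}

lemma mem_Sig {K : Submodule ℝ (VV n)} {w φ : VV n} (hw : w ∉ K) (hφ : φ ∈ F S v w) :
    φ ∈ Sig S v K := Submodule.subset_span ⟨w, hw, hφ⟩

lemma Sig_inv (hE : Ex S) (hv : ∀ A ∈ S, A *ᵥ v ∈ Submodule.span ℝ {v}) {K : Submodule ℝ (VV n)}
    {A : MM n} (hA : A ∈ S) {φ : VV n} (hφ : φ ∈ Sig S v K) : φ ᵥ* A ∈ Sig S v K := by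
  induction hφ using Submodule.span_induction with
  | mem φ hφ =>
    obtain ⟨w, hw, hφ⟩ := hφ
    refine deriv_vecMul (mem_Sig hw hφ) ?_
    have h1 : ∀ᶠ t : ℝ in 𝓝[≠] 0, NormedSpace.exp (t • A) *ᵥ w ∉ K := by
      have hc : Continuous fun M : MM n => M *ᵥ w :=
        Continuous.matrix_mulVec continuous_id continuous_const
      have h2 := (hc.tendsto _).comp (tendsto_exp_zero A)
      simp only [Matrix.one_mulVec] at h2
      have h3 : (K : Set (VV n))ᶜ ∈ 𝓝 w :=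
        (Submodule.closed_of_finiteDimensional K).isOpen_compl.mem_nhds hw
      exact h2.eventually h3
    filter_upwards [h1] with t ht
    exact mem_Sig ht (F_exp hE hv (S.smul_mem t hA) hφ)
  | zero => rw [Matrix.zero_vecMul]; exact Submodule.zero_mem _
  | add x y _ _ hx hy => rw [Matrix.add_vecMul]; exact Submodule.add_mem _ hx hy
  | smul c x _ hx => rw [Matrix.smul_vecMul]; exact Submodule.smul_mem _ _ hx

/-- The only subspaces containing `v` and stable under `S` are the line of `v` and the whole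
space. -/
def Irr (S : Submodule ℝ (MM n)) (v : VV n) : Prop :=
  ∀ W : Submodule ℝ (VV n), v ∈ W → (∀ A ∈ S, ∀ x ∈ W, A *ᵥ x ∈ W) →
    W = Submodule.span ℝ {v} ∨ W = ⊤

lemma Sig_full (hE : Ex S) (hv : ∀ A ∈ S, A *ᵥ v ∈ Submodule.span ℝ {v}) (hirr : Irr S v)
    {K : Submodule ℝ (VV n)} (hK : (D S v K).Nonempty) {φ : VV n} (hφ : φ ⬝ᵥ v = 0) :
    φ ∈ Sig S v K := by
  have h1 : an' (Sig S v K) = Submodule.span ℝ {v} ∨ an' (Sig S v K) = ⊤ := by
    refine hirr _ ?_ ?_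
    · intro ψ hψ
      change ψ ⬝ᵥ v = 0
      induction hψ using Submodule.span_induction with
      | mem φ hφ =>
        obtain ⟨w, -, hφ⟩ := hφ
        exact hφ.1
      | zero => rw [zero_dotProduct]
      | add x y _ _ hx hy => rw [add_dotProduct, hx, hy, add_zero]
      | smul c x _ hx => rw [smul_dotProduct, hx, smul_zero]
    · intro A hA x hx ψ hψ
      change ψ ⬝ᵥ (A *ᵥ x) = 0
      rw [Matrix.dotProduct_mulVec]
      exact hx _ (Sig_inv hE hv hA hψ)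
  rcases h1 with h1 | h1
  · rw [← an'_an' (Sig S v K), h1]
    intro x hx
    obtain ⟨s, rfl⟩ := Submodule.mem_span_singleton.1 hx
    change (s • v) ⬝ᵥ φ = 0
    rw [smul_dotProduct, dotProduct_comm, hφ, smul_zero]
  · exfalso
    obtain ⟨w, hw, hF⟩ := hK
    apply hF
    rw [Submodule.eq_bot_iff]
    intro ψ hψ
    have h2 : ψ ∈ an' (Sig S v K) := h1 ▸ Submodule.mem_top
    exact dotProduct_self_eq_zero.1 (h2 ψ (mem_Sig hw hψ))

lemma D_nonempty (hE : Ex S) (hv : ∀ A ∈ S, A *ᵥ v ∈ Submodule.span ℝ {v}) (hirr : Irr S v)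
    (h0 : (D S v (Submodule.span ℝ {v})).Nonempty) {K : Submodule ℝ (VV n)} (hvK : v ∈ K)
    (hK : K ≠ ⊤) : (D S v K).Nonempty := by
  set N : Submodule ℝ (VV n) := Submodule.span ℝ (D S v (Submodule.span ℝ {v}) ∪ {v}) with hN
  have hvN : v ∈ N := Submodule.subset_span (Or.inr rfl)
  have hspan : Submodule.span ℝ {v} ≤ N := (Submodule.span_singleton_le_iff_mem _ _).2 hvN
  have h1 : N = Submodule.span ℝ {v} ∨ N = ⊤ := by
    refine hirr _ hvN ?_
    intro A hA x hx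
    induction hx using Submodule.span_induction with
    | mem w hw =>
      rcases hw with hw | rfl
      · obtain ⟨hw1, hw2⟩ := hw
        obtain ⟨φ, hφ, hφ0⟩ := (Submodule.ne_bot_iff _).1 hw2
        refine deriv_mulVec (Submodule.subset_span (Or.inl ⟨hw1, hw2⟩)) (Eventually.of_forall
          fun t => Submodule.subset_span (Or.inl ⟨?_, ?_⟩))
        · intro h2
          apply hw1
          have h3 : ∀ x ∈ Submodule.span ℝ {v}, (-(t • A)) *ᵥ x ∈ Submodule.span ℝ {v} := by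
            intro x hx
            obtain ⟨s, rfl⟩ := Submodule.mem_span_singleton.1 hx
            rw [Matrix.mulVec_smul]
            exact Submodule.smul_mem _ _ (hv _ (S.neg_mem (S.smul_mem t hA)))
          have h4 := exp_mulVec_mem h3 _ h2
          rwa [Matrix.mulVec_mulVec, exp_neg_mul_exp', Matrix.one_mulVec] at h4
        · intro h2
          have h3 := F_exp hE hv (S.smul_mem t hA) hφ
          rw [h2, Submodule.mem_bot] at h3
          apply hφ0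
          have h4 : (φ ᵥ* NormedSpace.exp (-(t • A))) ᵥ* NormedSpace.exp (t • A) = φ := by
            rw [Matrix.vecMul_vecMul, exp_neg_mul_exp', Matrix.vecMul_one]
          rw [← h4, h3, Matrix.zero_vecMul]
      · exact hspan (hv A hA)
    | zero => rw [Matrix.mulVec_zero]; exact N.zero_mem
    | add x y _ _ hx hy => rw [Matrix.mulVec_add]; exact N.add_mem hx hy
    | smul c x _ hx => rw [Matrix.mulVec_smul]; exact N.smul_mem _ hx
  rcases h1 with h1 | h1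
  · exfalso
    obtain ⟨w, hw1, hw2⟩ := h0
    apply hw1
    rw [← h1]
    exact Submodule.subset_span (Or.inl ⟨hw1, hw2⟩)
  · by_contra hcon
    apply hK
    rw [eq_top_iff, ← h1, hN, Submodule.span_le]
    rintro w (⟨hw1, hw2⟩ | rfl)
    · by_contra hw3
      exact hcon ⟨w, hw3, hw2⟩
    · exact hvK

lemma finrank_an' (W : Submodule ℝ (VV n)) : finrank ℝ (an' W) + finrank ℝ W = n := by
  have h := LinearMap.BilinForm.finrank_orthogonal (dpf_nondeg (n := n)) W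
  have h2 := Submodule.finrank_le W
  rw [Module.finrank_fin_fun] at h h2
  change finrank ℝ (an' W) = _ at h
  omega

lemma an'_ne_top {W : Submodule ℝ (VV n)} (h : 1 ≤ finrank ℝ W) : an' W ≠ ⊤ := by
  intro h2
  have h3 := finrank_an' W
  rw [h2, finrank_top, Module.finrank_fin_fun] at h3
  omega

/-- If two independent transvections have the vector `u₀`, then all transvections with this
vector which kill `v` belong to `S`. -/
theorem full_of_two (hS : Br S) (hE : Ex S) (hv : ∀ A ∈ S, A *ᵥ v ∈ Submodule.span ℝ {v})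
    (hirr : Irr S v) {u₀ : VV n} (hu : u₀ ∉ Submodule.span ℝ {v}) (h2 : 2 ≤ finrank ℝ (F S v u₀))
    {φ : VV n} (h1 : φ ⬝ᵥ v = 0) (h3 : φ ⬝ᵥ u₀ = 0) : φ ∈ F S v u₀ := by
  have hF0 : F S v u₀ ≠ ⊥ := by
    intro h
    rw [h, finrank_bot] at h2
    omega
  have hD0 : (D S v (Submodule.span ℝ {v})).Nonempty := ⟨u₀, hu, hF0⟩
  set K₀ := an' (F S v u₀) with hK₀
  have hvK : v ∈ K₀ := fun ψ hψ => hψ.1
  have hK₀r : finrank ℝ K₀ + finrank ℝ (F S v u₀) = n := finrank_an' _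
  have hK₀top : K₀ ≠ ⊤ := an'_ne_top (by omega)
  have hne := D_nonempty hE hv hirr hD0 hvK hK₀top
  -- a transvection with functional not vanishing at `u₀`
  obtain ⟨w, hw, ψ, hψ, hψu⟩ : ∃ w, w ∉ K₀ ∧ ∃ ψ ∈ F S v w, ψ ⬝ᵥ u₀ ≠ 0 := by
    by_contra hcon
    push Not at hcon
    obtain ⟨χ, hχv, hχu⟩ := exists_of_notMem hu
    have h4 := Sig_full hE hv hirr hne (hχv v (Submodule.mem_span_singleton_self v))
    apply hχu
    have h5 : Sig S v K₀ ≤ an' (Submodule.span ℝ {u₀}) := by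
      rw [Sig, Submodule.span_le]
      rintro φ ⟨w, hw, hφ⟩ x hx
      obtain ⟨s, rfl⟩ := Submodule.mem_span_singleton.1 hx
      change (s • u₀) ⬝ᵥ φ = 0
      rw [smul_dotProduct, dotProduct_comm, hcon w hw φ hφ, smul_zero]
    have h6 := h5 h4 u₀ (Submodule.mem_span_singleton_self u₀)
    rw [dotProduct_comm]
    exact h6
  -- functionals in `F u₀` from functionals vanishing on `K₀`
  have hmemF : ∀ χ : VV n, (∀ x ∈ K₀, χ ⬝ᵥ x = 0) → χ ∈ F S v u₀ := by
    intro χ hχ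
    refine mem_of_an' fun x hx => ?_
    rw [dotProduct_comm]
    exact hχ x hx
  -- a functional in `F u₀` not vanishing at a given vector outside `K₀`
  have hex : ∀ x : VV n, x ∉ K₀ → ∃ χ ∈ F S v u₀, χ ⬝ᵥ x ≠ 0 := by
    intro x hx
    obtain ⟨χ, h5, h6⟩ := exists_of_notMem hx
    exact ⟨χ, hmemF χ h5, h6⟩
  set Ψ := F S v u₀ ⊔ Submodule.span ℝ {ψ} with hΨ
  have hFΨ : F S v u₀ ≤ Ψ := le_sup_left
  have hψΨ : ψ ∈ Ψ := (le_sup_right : Submodule.span ℝ {ψ} ≤ Ψ) (Submodule.mem_span_singleton_self ψ)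
  have hsplit : ∀ x : VV n, x ∉ K₀ → ∀ χ ∈ F S v x, χ ⬝ᵥ u₀ = 0 → χ ∈ F S v u₀ := by
    intro x hx χ hχ h5
    obtain ⟨ρ, hρ, hρx⟩ := hex x hx
    exact alpha hS hρ hχ hρx h5
  have hwΨ : F S v w ≤ Ψ := by
    intro χ hχ
    have h5 : χ - (χ ⬝ᵥ u₀ / ψ ⬝ᵥ u₀) • ψ ∈ F S v u₀ := by
      refine hsplit w hw _ (Submodule.sub_mem _ hχ (Submodule.smul_mem _ _ hψ)) ?_
      rw [sub_dotProduct, smul_dotProduct, smul_eq_mul, div_mul_cancel₀ _ hψu, sub_self]
    have h6 := Ψ.add_mem (hFΨ h5) (Ψ.smul_mem (χ ⬝ᵥ u₀ / ψ ⬝ᵥ u₀) hψΨ)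
    rwa [sub_add_cancel] at h6
  set K' := K₀ ⊔ Submodule.span ℝ {w} with hK'
  have hK'top : K' ≠ ⊤ := by
    intro h
    have h5 := finrank_sup_span hw
    rw [← hK', h, finrank_top, Module.finrank_fin_fun] at h5
    omega
  have hvK' : v ∈ K' := (le_sup_left : K₀ ≤ K') hvK
  have hne' := D_nonempty hE hv hirr hD0 hvK' hK'top
  have hSg : Sig S v K' ≤ Ψ := by
    rw [Sig, Submodule.span_le]
    rintro ψ' ⟨w', hw', hψ'⟩
    have hw'K : w' ∉ K₀ := fun h => hw' ((le_sup_left : K₀ ≤ K') h)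
    by_cases h0 : ψ' ⬝ᵥ u₀ = 0
    · exact hFΨ (hsplit w' hw'K ψ' hψ' h0)
    have hww' : w ∉ K₀ ⊔ Submodule.span ℝ {w'} := by
      intro h
      obtain ⟨k, hk, y, hy, hky⟩ := Submodule.mem_sup.1 h
      obtain ⟨s, rfl⟩ := Submodule.mem_span_singleton.1 hy
      have hs : s ≠ 0 := by
        rintro rfl
        apply hw
        rw [← hky, zero_smul, add_zero]
        exact hk
      apply hw'
      have h5 : w' = s⁻¹ • (w - k) := by
        rw [← hky, add_sub_cancel_left, smul_smul, inv_mul_cancel₀ hs, one_smul]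
      rw [h5]
      refine K'.smul_mem _ (K'.sub_mem ?_ ((le_sup_left : K₀ ≤ K') hk))
      exact (le_sup_right : Submodule.span ℝ {w} ≤ K') (Submodule.mem_span_singleton_self w)
    obtain ⟨φ₂, h5, h6⟩ := exists_of_notMem hww'
    obtain ⟨φ₃, h7, h8⟩ := exists_of_notMem hw'
    have h9 : φ₂ ∈ F S v u₀ := hmemF _ fun x hx => h5 x ((le_sup_left : K₀ ≤ _) hx)
    have h10 : φ₃ ∈ F S v u₀ := hmemF _ fun x hx => h7 x ((le_sup_left : K₀ ≤ K') hx)
    have h11 : φ₂ ⬝ᵥ w' = 0 := h5 w'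
      ((le_sup_right : Submodule.span ℝ {w'} ≤ _) (Submodule.mem_span_singleton_self w'))
    have h12 : φ₃ ⬝ᵥ w = 0 := h7 w
      ((le_sup_right : Submodule.span ℝ {w} ≤ K') (Submodule.mem_span_singleton_self w))
    have h13 : φ₂ ∈ F S v w' := beta hS h9 hψ' h11 h0
    have h14 : φ₃ ∈ F S v w := beta hS h10 hψ h12 hψu
    have h15 : ψ' - (ψ' ⬝ᵥ w / φ₂ ⬝ᵥ w) • φ₂ ∈ F S v w := by
      refine alpha hS h14 (Submodule.sub_mem _ hψ' (Submodule.smul_mem _ _ h13)) h8 ?_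
      rw [sub_dotProduct, smul_dotProduct, smul_eq_mul, div_mul_cancel₀ _ h6, sub_self]
    have h16 := Ψ.add_mem (hwΨ h15) (Ψ.smul_mem (ψ' ⬝ᵥ w / φ₂ ⬝ᵥ w) (hFΨ h9))
    rwa [sub_add_cancel] at h16
  obtain ⟨f, hf, y, hy, hfy⟩ := Submodule.mem_sup.1 (hSg (Sig_full hE hv hirr hne' h1))
  obtain ⟨s, rfl⟩ := Submodule.mem_span_singleton.1 hy
  have h5 : s * (ψ ⬝ᵥ u₀) = 0 := by
    have h6 := h3
    rw [← hfy, add_dotProduct, hf.2.1, zero_add, smul_dotProduct, smul_eq_mul] at h6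
    exact h6
  have hs : s = 0 := (mul_eq_zero.1 h5).resolve_right hψu
  rw [← hfy, hs, zero_smul, add_zero]
  exact hf

end Pool.Agent.Lib.MP_aa9b81_an.L
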