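import Mathlib
import Pool.Agent.Lib.MP_aa9b81_an.LowF

/-!
Lie algebras of matrices of codimension at most `2n - 5`: they contain all transvections, or all
transvections killing a given vector, or all transvections with image in a given hyperplane.
-/

set_option autoImplicit false
set_option linter.unusedSectionVars false

open Matrix Module Filter Topology

namespace Pool.Agent.Lib.MP_aa9b81_an.L

open Pool.Agent.Lib.MP_aa9b81_an.N

variable {n : ℕ} [NeZero n]

/-- Dimension bound from a stable subspace. -/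
theorem inv_bound {S : Submodule ℝ (MM n)} {W : Submodule ℝ (VV n)}
    (h : ∀ A ∈ S, ∀ x ∈ W, A *ᵥ x ∈ W) :
    finrank ℝ S + finrank ℝ W * (n - finrank ℝ W) ≤ n * n := by
  obtain ⟨C, hC⟩ := Submodule.exists_isCompl W
  have hdis : Disjoint S (sq C) := by
    rw [Submodule.disjoint_def]
    intro A hA hA2
    refine ext_single fun j => ?_
    rw [Matrix.zero_mulVec]
    have hj : (Pi.single j 1 : VV n) ∈ W ⊔ C := hC.sup_eq_top ▸ Submodule.mem_top
    obtain ⟨w, hw, c, hc, hwc⟩ := Submodule.mem_sup.1 hj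
    rw [← hwc, Matrix.mulVec_add, hA2.2 c hc, add_zero]
    exact Submodule.disjoint_def.1 hC.disjoint _ (h A hA w hw) (hA2.1 w)
  have h1 := Submodule.finrank_add_finrank_le_of_disjoint hdis
  rw [finrank_MM] at h1
  have h2 := finrank_sq C
  have h3 := Submodule.finrank_add_eq_of_isCompl hC
  rw [Module.finrank_fin_fun] at h3
  have h4 : n - finrank ℝ C = finrank ℝ W := by omega
  have h5 : finrank ℝ C = n - finrank ℝ W := by omega
  rw [h4, h5] at h2
  omega

lemma exists_pair {S : Submodule ℝ (MM n)} {v : VV n} (hE : Ex S)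
    (hv : ∀ A ∈ S, A *ᵥ v ∈ Submodule.span ℝ {v}) (hirr : Irr S v) {u₀ : VV n}
    (hu : u₀ ∉ Submodule.span ℝ {v}) {K : Submodule ℝ (VV n)} (hne : (D S v K).Nonempty) :
    ∃ w, w ∉ K ∧ ∃ ψ ∈ F S v w, ψ ⬝ᵥ u₀ ≠ 0 := by
  by_contra hcon
  push Not at hcon
  obtain ⟨χ, hχv, hχu⟩ := exists_of_notMem hu
  have h4 := Sig_full hE hv hirr hne (hχv v (Submodule.mem_span_singleton_self v))
  apply hχu
  have h5 : Sig S v K ≤ an' (Submodule.span ℝ {u₀}) := by
    rw [Sig, Submodule.span_le]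
    rintro φ ⟨w, hw, hφ⟩ x hx
    obtain ⟨s, rfl⟩ := Submodule.mem_span_singleton.1 hx
    change (s • u₀) ⬝ᵥ φ = 0
    rw [smul_dotProduct, dotProduct_comm, hcon w hw φ hφ, smul_zero]
  have h6 := h5 h4 u₀ (Submodule.mem_span_singleton_self u₀)
  rw [dotProduct_comm]
  exact h6

lemma mem_span_of_finrank {N : Submodule ℝ (VV n)} (h : finrank ℝ N < 2) {a b : VV n} (ha : a ∈ N)
    (ha0 : a ≠ 0) (hb : b ∈ N) : b ∈ Submodule.span ℝ {a} := by
  have h1 : Submodule.span ℝ {a} ≤ N := (Submodule.span_singleton_le_iff_mem _ _).2 ha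
  have h2 : Submodule.span ℝ {a} = N := Submodule.eq_of_le_of_finrank_le h1 (by
    rw [finrank_span_singleton ha0]
    omega)
  rw [h2]
  exact hb

/-- Some vector carries two independent transvections. -/
theorem two_of_irr {S : Submodule ℝ (MM n)} (hS : Br S) (hE : Ex S) (hirr : Irr S 0)
    {φ₀ u₀ : VV n} (hφ₀ : φ₀ ≠ 0) (hu₀ : u₀ ≠ 0) (h0 : φ₀ ⬝ᵥ u₀ = 0) (hT : T φ₀ u₀ ∈ S)
    (hdim : n * n + 5 ≤ finrank ℝ S + 2 * n) :
    ∃ u, u ≠ 0 ∧ 2 ≤ finrank ℝ (F S 0 u) := by
  by_contra hcon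
  push Not at hcon
  have hv : ∀ A ∈ S, A *ᵥ (0 : VV n) ∈ Submodule.span ℝ {(0 : VV n)} := fun A _ => by
    rw [Matrix.mulVec_zero]
    exact Submodule.zero_mem _
  have hspan0 : ∀ {x : VV n}, x ≠ 0 → x ∉ Submodule.span ℝ {(0 : VV n)} := by
    intro x hx h
    rw [Submodule.span_zero_singleton] at h
    exact hx ((Submodule.mem_bot ℝ).1 h)
  have hφF : φ₀ ∈ F S 0 u₀ := ⟨dotProduct_zero _, h0, hT⟩
  set K := an' (Submodule.span ℝ {φ₀}) with hK
  have hKm : ∀ {x : VV n}, x ∉ K → φ₀ ⬝ᵥ x ≠ 0 := by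
    intro x hx h
    apply hx
    intro φ hφ
    obtain ⟨s, rfl⟩ := Submodule.mem_span_singleton.1 hφ
    change (s • φ₀) ⬝ᵥ x = 0
    rw [smul_dotProduct, h, smul_zero]
  have hKtop : K ≠ ⊤ := an'_ne_top (by rw [finrank_span_singleton hφ₀])
  have hFne : F S 0 u₀ ≠ ⊥ := fun h => hφ₀ ((Submodule.eq_bot_iff _).1 h _ hφF)
  have hne := D_nonempty hE hv hirr ⟨u₀, hspan0 hu₀, hFne⟩ K.zero_mem hKtop
  obtain ⟨w, hw, ψ, hψ, hψu⟩ := exists_pair hE hv hirr (hspan0 hu₀) hne
  have hφw := hKm hw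
  have hw0 : w ≠ 0 := fun h => hw (h ▸ K.zero_mem)
  have hψ0 : ψ ≠ 0 := by
    rintro rfl
    exact hψu (zero_dotProduct _)
  -- the common kernel of `φ₀` and `ψ`
  set C := an' (Submodule.span ℝ {φ₀} ⊔ Submodule.span ℝ {ψ}) with hC
  have hCm : ∀ {x : VV n}, φ₀ ⬝ᵥ x = 0 → ψ ⬝ᵥ x = 0 → x ∈ C := by
    intro x h1 h2 χ hχ
    obtain ⟨a, ha, b, hb, hab⟩ := Submodule.mem_sup.1 hχ
    obtain ⟨s, rfl⟩ := Submodule.mem_span_singleton.1 ha
    obtain ⟨t, rfl⟩ := Submodule.mem_span_singleton.1 hb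
    change χ ⬝ᵥ x = 0
    rw [← hab, add_dotProduct, smul_dotProduct, smul_dotProduct, h1, h2, smul_zero, smul_zero,
      add_zero]
  have hψspan : ψ ∉ Submodule.span ℝ {φ₀} := by
    intro h
    obtain ⟨s, rfl⟩ := Submodule.mem_span_singleton.1 h
    apply hψu
    rw [smul_dotProduct, h0, smul_zero]
  have hCr : finrank ℝ C + 2 = n := by
    have h1 := finrank_an' (Submodule.span ℝ {φ₀} ⊔ Submodule.span ℝ {ψ})
    rw [finrank_sup_span hψspan, finrank_span_singleton hφ₀] at h1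
    exact h1
  -- the elements of `S` killing `u₀` and `w`
  have hkill : ∀ A ∈ S, A *ᵥ u₀ = 0 → A *ᵥ w = 0 → φ₀ ᵥ* A = 0 ∧ ψ ᵥ* A = 0 := by
    intro A hA h1 h2
    constructor
    · have h3 : φ₀ ᵥ* A ∈ F S 0 u₀ := by
        refine ⟨dotProduct_zero _, ?_, ?_⟩
        · rw [← Matrix.dotProduct_mulVec, h1, dotProduct_zero]
        · have h4 := hS _ hT A hA
          rwa [T_mul, mul_T, h1, T_zero_right, sub_zero] at h4
      obtain ⟨s, hs⟩ := Submodule.mem_span_singleton.1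
        (mem_span_of_finrank (hcon u₀ hu₀) hφF hφ₀ h3)
      have h4 : (φ₀ ᵥ* A) ⬝ᵥ w = 0 := by rw [← Matrix.dotProduct_mulVec, h2, dotProduct_zero]
      rw [← hs, smul_dotProduct, smul_eq_mul] at h4
      rw [← hs, (mul_eq_zero.1 h4).resolve_right hφw, zero_smul]
    · have h3 : ψ ᵥ* A ∈ F S 0 w := by
        refine ⟨dotProduct_zero _, ?_, ?_⟩
        · rw [← Matrix.dotProduct_mulVec, h2, dotProduct_zero]
        · have h4 := hS _ hψ.2.2 A hA
          rwa [T_mul, mul_T, h2, T_zero_right, sub_zero] at h4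
      obtain ⟨s, hs⟩ := Submodule.mem_span_singleton.1
        (mem_span_of_finrank (hcon w hw0) hψ hψ0 h3)
      have h4 : (ψ ᵥ* A) ⬝ᵥ u₀ = 0 := by rw [← Matrix.dotProduct_mulVec, h1, dotProduct_zero]
      rw [← hs, smul_dotProduct, smul_eq_mul] at h4
      rw [← hs, (mul_eq_zero.1 h4).resolve_right hψu, zero_smul]
  let E : S →ₗ[ℝ] VV n × VV n :=
    { toFun := fun A => ((A : MM n) *ᵥ u₀, (A : MM n) *ᵥ w)
      map_add' := fun A B => by
        simp only [Submodule.coe_add, Matrix.add_mulVec]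
        rfl
      map_smul' := fun c A => by
        simp only [Submodule.coe_smul, Matrix.smul_mulVec]
        rfl }
  have hEk : ∀ A : LinearMap.ker E, ((A : S) : MM n) *ᵥ u₀ = 0 ∧ ((A : S) : MM n) *ᵥ w = 0 := by
    intro A
    have h1 : E A = 0 := A.2
    exact ⟨congrArg Prod.fst h1, congrArg Prod.snd h1⟩
  have hEC : ∀ A : LinearMap.ker E, ∀ x : VV n, ((A : S) : MM n) *ᵥ x ∈ C := by
    intro A x
    obtain ⟨h1, h2⟩ := hkill _ (A : S).2 (hEk A).1 (hEk A).2
    refine hCm ?_ ?_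
    · rw [Matrix.dotProduct_mulVec, h1, zero_dotProduct]
    · rw [Matrix.dotProduct_mulVec, h2, zero_dotProduct]
  let R : LinearMap.ker E →ₗ[ℝ] (C →ₗ[ℝ] C) :=
    { toFun := fun A =>
        { toFun := fun x => ⟨((A : S) : MM n) *ᵥ (x : VV n), hEC A x⟩
          map_add' := fun x y => Subtype.ext (by
            simp only [Submodule.coe_add, Matrix.mulVec_add])
          map_smul' := fun c x => Subtype.ext (by
            simp only [Submodule.coe_smul, Matrix.mulVec_smul, RingHom.id_apply]) }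
      map_add' := fun A B => LinearMap.ext fun x => Subtype.ext (by
        simp only [Submodule.coe_add, Matrix.add_mulVec, LinearMap.coe_mk, AddHom.coe_mk,
          LinearMap.add_apply])
      map_smul' := fun c A => LinearMap.ext fun x => Subtype.ext (by
        simp only [Submodule.coe_smul, Matrix.smul_mulVec, LinearMap.coe_mk, AddHom.coe_mk,
          LinearMap.smul_apply, RingHom.id_apply]) }
  have hR : Function.Injective R := by
    intro A B hAB
    apply Subtype.ext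
    apply Subtype.ext
    refine ext_single fun j => ?_
    set x : VV n := Pi.single j 1 with hx
    set b := φ₀ ⬝ᵥ x / φ₀ ⬝ᵥ w with hb
    set a := (ψ ⬝ᵥ x - b * (ψ ⬝ᵥ w)) / ψ ⬝ᵥ u₀ with ha
    have h1 : x - b • w - a • u₀ ∈ C := by
      refine hCm ?_ ?_
      · rw [dotProduct_sub, dotProduct_sub, dotProduct_smul, dotProduct_smul, h0, smul_zero,
          sub_zero, smul_eq_mul, hb, div_mul_cancel₀ _ hφw, sub_self]
      · rw [dotProduct_sub, dotProduct_sub, dotProduct_smul, dotProduct_smul, smul_eq_mul,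
          smul_eq_mul, ha, div_mul_cancel₀ _ hψu]
        ring
    have h2 := congrArg Subtype.val (LinearMap.congr_fun hAB ⟨_, h1⟩)
    change ((A : S) : MM n) *ᵥ (x - b • w - a • u₀) = ((B : S) : MM n) *ᵥ (x - b • w - a • u₀) at h2
    rw [Matrix.mulVec_sub, Matrix.mulVec_sub, Matrix.mulVec_smul, Matrix.mulVec_smul, (hEk A).1,
      (hEk A).2, smul_zero, smul_zero, sub_zero, sub_zero, Matrix.mulVec_sub, Matrix.mulVec_sub,
      Matrix.mulVec_smul, Matrix.mulVec_smul, (hEk B).1, (hEk B).2, smul_zero, smul_zero, sub_zero,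
      sub_zero] at h2
    exact h2
  have h1 := LinearMap.finrank_le_finrank_of_injective hR
  rw [Module.finrank_linearMap] at h1
  have h2 := LinearMap.finrank_range_add_finrank_ker E
  have h3 : finrank ℝ (LinearMap.range E) ≤ n + n := by
    have := Submodule.finrank_le (LinearMap.range E)
    rwa [Module.finrank_prod, Module.finrank_fin_fun] at this
  obtain ⟨m, hm⟩ : ∃ m, m = finrank ℝ C := ⟨_, rfl⟩
  rw [← hm] at h1 hCr
  subst hCr
  nlinarith

/-! ### Vectors of which all transvections belong to `S` -/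

/-- All transvections with vector `u` belong to `S`. -/
def Fu (S : Submodule ℝ (MM n)) (u : VV n) : Prop := ∀ φ : VV n, φ ⬝ᵥ u = 0 → T φ u ∈ S

lemma Fu_zero (S : Submodule ℝ (MM n)) : Fu S 0 := fun φ _ => by
  rw [T_zero_right]
  exact S.zero_mem

lemma Fu_smul {S : Submodule ℝ (MM n)} {u : VV n} (c : ℝ) (h : Fu S u) : Fu S (c • u) := by
  intro φ hφ
  rw [T_smul_right]
  by_cases hc : c = 0
  · rw [hc, zero_smul]
    exact S.zero_mem
  · rw [dotProduct_smul, smul_eq_mul] at hφ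
    exact S.smul_mem c (h φ ((mul_eq_zero.1 hφ).resolve_left hc))

lemma Fu_add {S : Submodule ℝ (MM n)} (hS : Br S) {u w : VV n} (hu : Fu S u) (hw : Fu S w) :
    Fu S (u + w) := by
  by_cases h1 : w ∈ Submodule.span ℝ {u}
  · obtain ⟨c, rfl⟩ := Submodule.mem_span_singleton.1 h1
    rw [show u + c • u = (1 + c) • u by rw [add_smul, one_smul]]
    exact Fu_smul _ hu
  by_cases h2 : u ∈ Submodule.span ℝ {w}
  · obtain ⟨c, rfl⟩ := Submodule.mem_span_singleton.1 h2
    rw [show c • w + w = (c + 1) • w by rw [add_smul, one_smul]]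
    exact Fu_smul _ hw
  obtain ⟨p, hpu, hpw⟩ := exists_of_notMem h1
  obtain ⟨q, hqw, hqu⟩ := exists_of_notMem h2
  replace hpu := hpu u (Submodule.mem_span_singleton_self u)
  replace hqw := hqw w (Submodule.mem_span_singleton_self w)
  -- `p · u = 0`, `p · w ≠ 0`, `q · w = 0`, `q · u ≠ 0`
  have hpuS : T p u ∈ S := hu p hpu
  have hqwS : T q w ∈ S := hw q hqw
  have hcom := hS _ hpuS _ hqwS
  rw [comm_T] at hcom
  intro φ hφ
  rw [dotProduct_add] at hφ
  set a := q ⬝ᵥ u with ha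
  set b := p ⬝ᵥ w with hb
  set c := φ ⬝ᵥ u with hc
  have hc2 : φ ⬝ᵥ w = -c := by linarith
  have h3 : (φ - (c / a) • q + (c / b) • p) ⬝ᵥ u = 0 := by
    rw [add_dotProduct, sub_dotProduct, smul_dotProduct, smul_dotProduct, hpu, ← ha, ← hc,
      smul_zero, add_zero, smul_eq_mul, div_mul_cancel₀ _ hqu, sub_self]
  have h4 : (φ - (c / a) • q + (c / b) • p) ⬝ᵥ w = 0 := by
    rw [add_dotProduct, sub_dotProduct, smul_dotProduct, smul_dotProduct, hqw, ← hb, hc2,
      smul_zero, sub_zero, smul_eq_mul, div_mul_cancel₀ _ hpw, neg_add_cancel]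
  have h5 : T φ (u + w) = T (φ - (c / a) • q + (c / b) • p) u + T (φ - (c / a) • q + (c / b) • p) w
      + (c / a) • T q w - (c / b) • T p u + (c / (a * b)) • (b • T q u - a • T p w) := by
    rw [T_add_right, T_add_left, T_add_left, T_sub_left, T_sub_left, T_smul_left, T_smul_left,
      T_smul_left, T_smul_left, smul_sub, smul_smul, smul_smul,
      show c / (a * b) * b = c / a by field_simp, show c / (a * b) * a = c / b by field_simp]
    abel
  rw [h5]
  exact S.add_mem (S.sub_mem (S.add_mem (S.add_mem (hu _ h3) (hw _ h4)) (S.smul_mem _ hqwS))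
    (S.smul_mem _ hpuS)) (S.smul_mem _ hcom)

/-- The subspace of the vectors of which all transvections belong to `S`. -/
def FuM {S : Submodule ℝ (MM n)} (hS : Br S) : Submodule ℝ (VV n) where
  carrier := {u | Fu S u}
  zero_mem' := Fu_zero S
  add_mem' := fun hu hw => Fu_add hS hu hw
  smul_mem' := fun c _ hu => Fu_smul c hu

lemma Fu_exp {S : Submodule ℝ (MM n)} (hE : Ex S) {A : MM n} (hA : A ∈ S) {u : VV n}
    (hu : Fu S u) : Fu S (NormedSpace.exp A *ᵥ u) := by
  intro φ hφ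
  rw [Matrix.dotProduct_mulVec] at hφ
  have h1 := hE A hA _ (hu _ hφ)
  rwa [mul_T, T_mul, Matrix.vecMul_vecMul, exp_mul_exp_neg, Matrix.vecMul_one] at h1

/-- The irreducible case. -/
theorem irr_all {S : Submodule ℝ (MM n)} (hS : Br S) (hE : Ex S) (hirr : Irr S 0)
    (hdim : n * n + 5 ≤ finrank ℝ S + 2 * n) : ∀ φ u : VV n, φ ⬝ᵥ u = 0 → T φ u ∈ S := by
  have hle : finrank ℝ S ≤ n * n := by
    have := Submodule.finrank_le S
    rwa [finrank_MM] at this
  have hn : 3 ≤ n := by omega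
  obtain ⟨φ₀, u₀, hφ₀, hu₀, h0, hT⟩ := exists_transvection hS (d := 2) (by omega) (by omega)
  obtain ⟨u, hu, h2⟩ := two_of_irr hS hE hirr hφ₀ hu₀ h0 hT hdim
  have hv : ∀ A ∈ S, A *ᵥ (0 : VV n) ∈ Submodule.span ℝ {(0 : VV n)} := fun A _ => by
    rw [Matrix.mulVec_zero]
    exact Submodule.zero_mem _
  have hu' : u ∉ Submodule.span ℝ {(0 : VV n)} := by
    intro h
    rw [Submodule.span_zero_singleton] at h
    exact hu ((Submodule.mem_bot ℝ).1 h)
  have hFu : u ∈ FuM hS := fun φ hφ =>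
    (full_of_two hS hE hv hirr hu' h2 (dotProduct_zero φ) hφ).2.2
  rcases hirr (FuM hS) (FuM hS).zero_mem (fun A hA x hx =>
    deriv_mulVec hx (Eventually.of_forall fun t => Fu_exp hE (S.smul_mem t hA) hx)) with h | h
  · rw [h] at hFu
    exact absurd hFu hu'
  · intro φ u hφ
    have h3 : u ∈ FuM hS := h ▸ Submodule.mem_top
    exact h3 φ hφ

/-- The linear map `φ ↦ T φ u`. -/
def Tl (u : VV n) : VV n →ₗ[ℝ] MM n where
  toFun := fun φ => T φ u
  map_add' := fun a b => T_add_left a b u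
  map_smul' := fun c a => T_smul_left c a u

lemma Tl_inj {u : VV n} (hu : u ≠ 0) : Function.Injective (Tl u) := by
  rw [← LinearMap.ker_eq_bot, LinearMap.ker_eq_bot']
  intro φ hφ
  change T φ u = 0 at hφ
  have h1 : T φ u *ᵥ φ = 0 := by rw [hφ, Matrix.zero_mulVec]
  rw [T_mulVec] at h1
  exact dotProduct_self_eq_zero.1 ((smul_eq_zero.1 h1).resolve_right hu)

/-- The case of a stable line. -/
theorem line_all {S : Submodule ℝ (MM n)} (hS : Br S) (hE : Ex S) {v : VV n} (hv0 : v ≠ 0)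
    (hv : ∀ A ∈ S, A *ᵥ v ∈ Submodule.span ℝ {v})
    (hdim : n * n + 5 ≤ finrank ℝ S + 2 * n) :
    ∀ φ u : VV n, φ ⬝ᵥ v = 0 → φ ⬝ᵥ u = 0 → T φ u ∈ S := by
  have hle : finrank ℝ S ≤ n * n := by
    have := Submodule.finrank_le S
    rwa [finrank_MM] at this
  have hn : 3 ≤ n := by omega
  have h2 : ∀ u, u ∉ Submodule.span ℝ {v} → 2 ≤ finrank ℝ (F S v u) := by
    intro u hu
    have hu0 : u ≠ 0 := fun h => hu (h ▸ Submodule.zero_mem _)
    set Q := an' (Submodule.span ℝ {v} ⊔ Submodule.span ℝ {u}) with hQ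
    have hQr : finrank ℝ Q + 2 = n := by
      have h1 := finrank_an' (Submodule.span ℝ {v} ⊔ Submodule.span ℝ {u})
      rw [finrank_sup_span hu, finrank_span_singleton hv0] at h1
      exact h1
    have hQm : ∀ φ ∈ Q, φ ⬝ᵥ v = 0 ∧ φ ⬝ᵥ u = 0 := by
      intro φ hφ
      constructor
      · rw [dotProduct_comm]
        exact hφ v ((le_sup_left : Submodule.span ℝ {v} ≤ _) (Submodule.mem_span_singleton_self v))
      · rw [dotProduct_comm]
        exact hφ u ((le_sup_right : Submodule.span ℝ {u} ≤ _) (Submodule.mem_span_singleton_self u))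
    have h1 : finrank ℝ (Q.map (Tl u)) = finrank ℝ Q :=
      (Submodule.equivMapOfInjective _ (Tl_inj hu0) Q).finrank_eq.symm
    have h3 : finrank ℝ ↥(S ⊔ Q.map (Tl u)) + 1 * (n - 1) ≤ n * n := by
      have h4 := inv_bound (S := S ⊔ Q.map (Tl u)) (W := Submodule.span ℝ {v}) (by
        intro A hA x hx
        obtain ⟨s, rfl⟩ := Submodule.mem_span_singleton.1 hx
        rw [Matrix.mulVec_smul]
        refine Submodule.smul_mem _ _ ?_
        obtain ⟨B, hB, C, hC, rfl⟩ := Submodule.mem_sup.1 hA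
        obtain ⟨φ, hφ, rfl⟩ := (Submodule.mem_map).1 hC
        rw [Matrix.add_mulVec]
        refine Submodule.add_mem _ (hv B hB) ?_
        change T φ u *ᵥ v ∈ _
        rw [T_mulVec, (hQm φ hφ).1, zero_smul]
        exact Submodule.zero_mem _)
      rwa [finrank_span_singleton hv0] at h4
    have h4 := Submodule.finrank_sup_add_finrank_inf_eq S (Q.map (Tl u))
    have h5 : finrank ℝ ↥(S ⊓ Q.map (Tl u)) ≤ finrank ℝ (F S v u) := by
      refine le_trans (Submodule.finrank_mono (t := (F S v u).map (Tl u)) ?_)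
        (Submodule.finrank_map_le _ _)
      rintro _ ⟨hA, hA2⟩
      obtain ⟨φ, hφ, rfl⟩ := (Submodule.mem_map).1 hA2
      exact Submodule.mem_map_of_mem ⟨(hQm φ hφ).1, (hQm φ hφ).2, hA⟩
    omega
  have hirr : Irr S v := by
    intro W hvW hW
    by_contra hcon
    push Not at hcon
    obtain ⟨h3, h4⟩ := hcon
    obtain ⟨u, -, hu⟩ := SetLike.exists_of_lt (lt_top_iff_ne_top.2 h4)
    have hle1 : Submodule.span ℝ {v} ≤ W := (Submodule.span_singleton_le_iff_mem _ _).2 hvW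
    have hu1 : u ∉ Submodule.span ℝ {v} := fun h => hu (hle1 h)
    have h5 : F S v u ≤ an' W := by
      intro φ hφ x hx
      change x ⬝ᵥ φ = 0
      have h6 := hW _ hφ.2.2 x hx
      rw [T_mulVec] at h6
      by_contra h7
      rw [dotProduct_comm] at h7
      apply hu
      have h8 := W.smul_mem (φ ⬝ᵥ x)⁻¹ h6
      rwa [smul_smul, inv_mul_cancel₀ h7, one_smul] at h8
    have h6 := Submodule.finrank_mono h5
    have h7 := h2 u hu1
    have h8 := finrank_an' W
    have h9 : finrank ℝ (Submodule.span ℝ {v}) < finrank ℝ W :=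
      Submodule.finrank_lt_finrank_of_lt (lt_of_le_of_ne hle1 (Ne.symm h3))
    rw [finrank_span_singleton hv0] at h9
    have h10 := inv_bound hW
    obtain ⟨d, hd⟩ : ∃ d, d = finrank ℝ W := ⟨_, rfl⟩
    obtain ⟨e, he⟩ : ∃ e, e = finrank ℝ (an' W) := ⟨_, rfl⟩
    rw [← hd] at h9 h10 h8
    rw [← he] at h8 h6
    have h11 : n - d = e := by omega
    rw [h11] at h10
    obtain ⟨d', rfl⟩ : ∃ d', d = d' + 2 := ⟨d - 2, by omega⟩
    obtain ⟨e', rfl⟩ : ∃ e', e = e' + 2 := ⟨e - 2, by omega⟩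
    have h12 : (d' + 2) * (e' + 2) = d' * e' + 2 * (d' + e') + 4 := by ring
    rw [h12] at h10
    have h13 : 0 ≤ d' * e' := Nat.zero_le _
    omega
  have h3 : ∀ φ u : VV n, u ∉ Submodule.span ℝ {v} → φ ⬝ᵥ v = 0 → φ ⬝ᵥ u = 0 → T φ u ∈ S :=
    fun φ u hu h4 h5 => (full_of_two hS hE hv hirr hu (h2 u hu) h4 h5).2.2
  intro φ u h4 h5
  by_cases hu : u ∈ Submodule.span ℝ {v}
  · obtain ⟨w, hw, hw2⟩ : ∃ w, φ ⬝ᵥ w = 0 ∧ w ∉ Submodule.span ℝ {v} := by
      by_contra hcon
      push Not at hcon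
      have h6 : an' (Submodule.span ℝ {φ}) ≤ Submodule.span ℝ {v} := fun x hx =>
        hcon x (hx φ (Submodule.mem_span_singleton_self φ))
      have h7 := Submodule.finrank_mono h6
      have h8 := finrank_an' (Submodule.span ℝ {φ})
      have h9 : finrank ℝ (Submodule.span ℝ {φ}) ≤ 1 := finrank_span_le_card _ |>.trans (by simp)
      rw [finrank_span_singleton hv0] at h7
      omega
    have h6 : u + w ∉ Submodule.span ℝ {v} := fun h => hw2 (by
      have := Submodule.sub_mem _ h hu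
      rwa [add_sub_cancel_left] at this)
    have h7 : T φ u = T φ (u + w) - T φ w := by rw [T_add_right, add_sub_cancel_right]
    rw [h7]
    exact S.sub_mem (h3 φ _ h6 h4 (by rw [dotProduct_add, h5, hw, add_zero])) (h3 φ _ hw2 h4 hw)
  · exact h3 φ u hu h4 h5

/-- The space of transposes. -/
def tr' (S : Submodule ℝ (MM n)) : Submodule ℝ (MM n) where
  carrier := {A | Aᵀ ∈ S}
  zero_mem' := by
    change (0 : MM n)ᵀ ∈ S
    rw [Matrix.transpose_zero]
    exact S.zero_mem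
  add_mem' := fun {A B} hA hB => by
    change (A + B)ᵀ ∈ S
    rw [Matrix.transpose_add]
    exact S.add_mem hA hB
  smul_mem' := fun c A hA => by
    change (c • A)ᵀ ∈ S
    rw [Matrix.transpose_smul]
    exact S.smul_mem c hA

lemma mem_tr' {S : Submodule ℝ (MM n)} {A : MM n} : A ∈ tr' S ↔ Aᵀ ∈ S := Iff.rfl

lemma finrank_tr' (S : Submodule ℝ (MM n)) : finrank ℝ (tr' S) = finrank ℝ S := by
  let f : tr' S ≃ₗ[ℝ] S :=
    { toFun := fun A => ⟨(A : MM n)ᵀ, A.2⟩
      map_add' := fun A B => Subtype.ext (by simp)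
      map_smul' := fun c A => Subtype.ext (by simp)
      invFun := fun A => ⟨(A : MM n)ᵀ, by rw [mem_tr', Matrix.transpose_transpose]; exact A.2⟩
      left_inv := fun A => Subtype.ext (by simp)
      right_inv := fun A => Subtype.ext (by simp) }
  exact f.finrank_eq

lemma Br_tr' {S : Submodule ℝ (MM n)} (hS : Br S) : Br (tr' S) := by
  intro A hA B hB
  rw [mem_tr', Matrix.transpose_sub, Matrix.transpose_mul, Matrix.transpose_mul]
  exact hS _ hB _ hA

lemma Ex_tr' {S : Submodule ℝ (MM n)} (hE : Ex S) : Ex (tr' S) := by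
  intro A hA B hB
  rw [mem_tr', Matrix.transpose_mul, Matrix.transpose_mul, ← Matrix.exp_transpose,
    ← Matrix.exp_transpose, Matrix.transpose_neg, ← mul_assoc]
  have h1 := hE (-Aᵀ) (S.neg_mem hA) _ hB
  rwa [neg_neg] at h1

/-- The trichotomy. -/
theorem trichotomy {S : Submodule ℝ (MM n)} (hS : Br S) (hE : Ex S)
    (hdim : n * n + 5 ≤ finrank ℝ S + 2 * n) :
    (∀ φ u : VV n, φ ⬝ᵥ u = 0 → T φ u ∈ S) ∨
    (∃ v : VV n, v ≠ 0 ∧ ∀ φ u : VV n, φ ⬝ᵥ v = 0 → φ ⬝ᵥ u = 0 → T φ u ∈ S) ∨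
    (∃ χ : VV n, χ ≠ 0 ∧ ∀ φ u : VV n, χ ⬝ᵥ u = 0 → φ ⬝ᵥ u = 0 → T φ u ∈ S) := by
  have hle : finrank ℝ S ≤ n * n := by
    have := Submodule.finrank_le S
    rwa [finrank_MM] at this
  have hn : 3 ≤ n := by omega
  by_cases hirr : Irr S 0
  · exact Or.inl (irr_all hS hE hirr hdim)
  right
  rw [Irr] at hirr
  push Not at hirr
  obtain ⟨W, -, hW, hW0, hWtop⟩ := hirr
  rw [Submodule.span_zero_singleton] at hW0
  have h1 := inv_bound hW
  have h2 : finrank ℝ W < n := by
    have := Submodule.finrank_lt hWtop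
    rwa [Module.finrank_fin_fun] at this
  have h3 : 0 < finrank ℝ W := by
    rw [Nat.pos_iff_ne_zero]
    intro h
    exact hW0 (Submodule.finrank_eq_zero.1 h)
  have h4 : finrank ℝ W = 1 ∨ finrank ℝ W = n - 1 := by
    by_contra hcon
    push Not at hcon
    obtain ⟨d, hd⟩ : ∃ d, d = finrank ℝ W := ⟨_, rfl⟩
    rw [← hd] at h1 h2 h3 hcon
    obtain ⟨d', rfl⟩ : ∃ d', d = d' + 2 := ⟨d - 2, by omega⟩
    obtain ⟨e', he⟩ : ∃ e', n - (d' + 2) = e' + 2 := ⟨n - (d' + 2) - 2, by omega⟩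
    rw [he] at h1
    have h12 : (d' + 2) * (e' + 2) = d' * e' + 2 * (d' + e') + 4 := by ring
    rw [h12] at h1
    have h13 : 0 ≤ d' * e' := Nat.zero_le _
    omega
  rcases h4 with h4 | h4
  · left
    obtain ⟨⟨v, hvW⟩, hv0, hv1⟩ := finrank_eq_one_iff'.1 h4
    have hv0' : v ≠ 0 := fun h => hv0 (Subtype.ext h)
    refine ⟨v, hv0', line_all hS hE hv0' (fun A hA => ?_) hdim⟩
    obtain ⟨c, hc⟩ := hv1 ⟨A *ᵥ v, hW A hA v hvW⟩
    exact Submodule.mem_span_singleton.2 ⟨c, congrArg Subtype.val hc⟩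
  · right
    have h5 := finrank_an' W
    have h6 : finrank ℝ (an' W) = 1 := by omega
    obtain ⟨⟨χ, hχW⟩, hχ0, hχ1⟩ := finrank_eq_one_iff'.1 h6
    have hχ0' : χ ≠ 0 := fun h => hχ0 (Subtype.ext h)
    have h7 := line_all (Br_tr' hS) (Ex_tr' hE) hχ0' (fun A hA => ?_) (by rwa [finrank_tr'])
    · refine ⟨χ, hχ0', fun φ u h8 h9 => ?_⟩
      have h10 := h7 u φ (by rwa [dotProduct_comm]) (by rwa [dotProduct_comm])
      rwa [mem_tr', transpose_T] at h10
    · have h8 : A *ᵥ χ ∈ an' W := by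
        intro x hx
        change x ⬝ᵥ (A *ᵥ χ) = 0
        rw [Matrix.dotProduct_mulVec, ← Matrix.mulVec_transpose]
        rw [mem_tr'] at hA
        exact hχW _ (hW _ hA x hx)
      obtain ⟨c, hc⟩ := hχ1 ⟨A *ᵥ χ, h8⟩
      exact Submodule.mem_span_singleton.2 ⟨c, congrArg Subtype.val hc⟩

end Pool.Agent.Lib.MP_aa9b81_an.L
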