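import Mathlib

/-!
Rigidity of subalgebras with vanishing first cohomology, in a finite-dimensional normed algebra.
-/

set_option autoImplicit false
set_option linter.unusedSectionVars false
set_option maxHeartbeats 4000000

open Filter Topology Module

namespace Pool.Agent.Lib.MP_aa9b81_an.N

section Rig

variable {A : Type*} [NormedRing A] [NormedAlgebra ℝ A] [FiniteDimensional ℝ A]

/-- The product `x y - ε y x`. -/
def mm (ε : ℝ) (x y : A) : A := x * y - ε • (y * x)

lemma mm_add_left (ε : ℝ) (x x' y : A) : mm ε (x + x') y = mm ε x y + mm ε x' y := by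
  simp only [mm, add_mul, mul_add, smul_add]
  abel

lemma mm_add_right (ε : ℝ) (x y y' : A) : mm ε x (y + y') = mm ε x y + mm ε x y' := by
  simp only [mm, add_mul, mul_add, smul_add]
  abel

lemma mm_smul_left (ε : ℝ) (c : ℝ) (x y : A) : mm ε (c • x) y = c • mm ε x y := by
  simp only [mm, smul_mul_assoc, mul_smul_comm, smul_sub]
  rw [smul_comm ε c]

lemma mm_smul_right (ε : ℝ) (c : ℝ) (x y : A) : mm ε x (c • y) = c • mm ε x y := by
  simp only [mm, smul_mul_assoc, mul_smul_comm, smul_sub]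
  rw [smul_comm ε c]

lemma continuous_mm (ε : ℝ) : Continuous (fun p : A × A => mm ε p.1 p.2) := by
  unfold mm
  fun_prop

variable {K E : Type*} [NormedAddCommGroup K] [NormedSpace ℝ K] [FiniteDimensional ℝ K]
  [NormedAddCommGroup E] [NormedSpace ℝ E] [FiniteDimensional ℝ E]
variable {ε : ℝ} {jK : K →L[ℝ] A} {jE : E →L[ℝ] A} {mK : K → K → K}

/-- The cocycles with values in `E` modulo `K`. -/
def cocyc (ε : ℝ) (jK : K →L[ℝ] A) (jE : E →L[ℝ] A) (mK : K → K → K) :
    Submodule ℝ (K →L[ℝ] E) where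
  carrier := {u | ∀ x y : K, mm ε (jK x) (jE (u y)) + mm ε (jE (u x)) (jK y) -
    jE (u (mK x y)) ∈ LinearMap.range (jK : K →ₗ[ℝ] A)}
  zero_mem' := fun x y => by simp [mm]
  add_mem' := fun {u v} hu hv x y => by
    have := (LinearMap.range (jK : K →ₗ[ℝ] A)).add_mem (hu x y) (hv x y)
    convert this using 1
    simp only [add_apply, map_add, mm_add_left, mm_add_right]
    abel
  smul_mem' := fun c u hu x y => by
    have := (LinearMap.range (jK : K →ₗ[ℝ] A)).smul_mem c (hu x y)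
    convert this using 1
    simp only [smul_apply, map_smul, mm_smul_left, mm_smul_right, smul_sub, smul_add]

lemma mem_cocyc {u : K →L[ℝ] E} : u ∈ cocyc ε jK jE mK ↔ ∀ x y : K, mm ε (jK x) (jE (u y)) +
    mm ε (jE (u x)) (jK y) - jE (u (mK x y)) ∈ LinearMap.range (jK : K →ₗ[ℝ] A) := Iff.rfl

/-- The perturbed inclusion. -/
noncomputable def pin (jK : K →L[ℝ] A) (jE : E →L[ℝ] A) (s : K →L[ℝ] E) : K →L[ℝ] A :=
  jK + jE.comp s

lemma pin_apply (s : K →L[ℝ] E) (x : K) : pin jK jE s x = jK x + jE (s x) := rfl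

/-- An injective continuous linear map on a finite-dimensional space is bounded below. -/
lemma exists_bound (hj : Function.Injective jK) : ∃ C : ℝ, 0 < C ∧ ∀ x : K, ‖x‖ ≤ C * ‖jK x‖ := by
  obtain ⟨C, hC, h⟩ := (jK : K →ₗ[ℝ] A).exists_antilipschitzWith (LinearMap.ker_eq_bot.2 hj)
  refine ⟨C, hC, fun x => ?_⟩
  have := h.le_mul_dist x 0
  simpa [dist_eq_norm] using this

lemma tendsto_clm {ι : Type*} {l : Filter ι} {f : ι → K →L[ℝ] E} {g : ι → K} {f₀ : K →L[ℝ] E}
    {g₀ : K} (hf : Tendsto f l (𝓝 f₀)) (hg : Tendsto g l (𝓝 g₀)) :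
    Tendsto (fun i => f i (g i)) l (𝓝 (f₀ g₀)) := by
  have h1 : Continuous (fun p : (K →L[ℝ] E) × K => p.1 p.2) := by fun_prop
  exact (h1.tendsto (f₀, g₀)).comp (hf.prodMk_nhds hg)

/-- Small perturbations in a complement of the cocycles are never subalgebras. -/
lemma eventually_zero (hj : Function.Injective jK)
    (hmK : ∀ x y, jK (mK x y) = mm ε (jK x) (jK y))
    (S : Submodule ℝ (K →L[ℝ] E)) (hS : Disjoint (cocyc ε jK jE mK) S) :
    ∀ᶠ s : K →L[ℝ] E in 𝓝 0, s ∈ S → (∀ x y : K, ∃ z : K,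
      mm ε (pin jK jE s x) (pin jK jE s y) = pin jK jE s z) → s = 0 := by
  obtain ⟨C, hC0, hC⟩ := exists_bound hj
  have hEb : ∀ v : E, ‖jE v‖ ≤ ‖jE‖ * ‖v‖ := jE.le_opNorm
  by_contra hcon
  rw [not_eventually] at hcon
  set B : Set (K →L[ℝ] E) := {s | s ∈ S ∧ (∀ x y : K, ∃ z : K,
    mm ε (pin jK jE s x) (pin jK jE s y) = pin jK jE s z) ∧ s ≠ 0} with hB
  have hne : (𝓝 (0 : K →L[ℝ] E) ⊓ 𝓟 B).NeBot := by
    rw [← frequently_mem_iff_neBot]
    refine hcon.mono fun s hs => ?_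
    push Not at hs
    exact hs
  obtain ⟨U, hU⟩ := Ultrafilter.exists_le (𝓝 (0 : K →L[ℝ] E) ⊓ 𝓟 B)
  have hU0 : Tendsto (fun s : K →L[ℝ] E => s) U (𝓝 0) := hU.trans inf_le_left
  have hUB : ∀ᶠ s in (U : Filter (K →L[ℝ] E)), s ∈ B := hU (mem_inf_of_right (mem_principal_self B))
  have hn0 : Tendsto (fun s : K →L[ℝ] E => ‖s‖) U (𝓝 0) := by
    have := hU0.norm
    simpa using this
  have hnpos : ∀ᶠ s in (U : Filter (K →L[ℝ] E)), 0 < ‖s‖ :=
    hUB.mono fun s hs => norm_pos_iff.2 hs.2.2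
  have hsph : Metric.sphere (0 : K →L[ℝ] E) 1 ∈ U.map (fun s : K →L[ℝ] E => ‖s‖⁻¹ • s) := by
    rw [Ultrafilter.mem_map]
    filter_upwards [hnpos] with s hs
    simp only [Set.mem_preimage, mem_sphere_zero_iff_norm]
    rw [norm_smul, norm_inv, norm_norm]
    exact inv_mul_cancel₀ hs.ne'
  obtain ⟨w, hw1, hw2⟩ := (isCompact_sphere (0 : K →L[ℝ] E) 1).ultrafilter_le_nhds' _ hsph
  have hw2 : Tendsto (fun s : K →L[ℝ] E => ‖s‖⁻¹ • s) U (𝓝 w) := hw2
  have hw0 : w ≠ 0 := by
    rintro rfl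
    simp at hw1
  apply hw0
  have hwS : w ∈ S := by
    refine (Submodule.closed_of_finiteDimensional S).mem_of_tendsto hw2 ?_
    filter_upwards [hUB] with s hs
    exact S.smul_mem _ hs.1
  have hwZ : w ∈ cocyc ε jK jE mK := by
    rw [mem_cocyc]
    intro x y
    -- choose the products
    have hz : ∀ s : K →L[ℝ] E, ∃ z : K, s ∈ B →
        mm ε (pin jK jE s x) (pin jK jE s y) = pin jK jE s z := by
      intro s
      by_cases hs : s ∈ B
      · obtain ⟨z, hz⟩ := hs.2.1 x y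
        exact ⟨z, fun _ => hz⟩
      · exact ⟨0, fun h => absurd h hs⟩
    choose z hz using hz
    have happ : ∀ k : K, Tendsto (fun s : K →L[ℝ] E => jE (s k)) U (𝓝 0) := by
      intro k
      have h1 : Tendsto (fun s : K →L[ℝ] E => s k) U (𝓝 ((0 : K →L[ℝ] E) k)) :=
        ((ContinuousLinearMap.apply ℝ E k).continuous.tendsto 0).comp hU0
      have h2 := (jE.continuous.tendsto _).comp h1
      rw [zero_apply, map_zero] at h2
      exact h2
    have hpin : ∀ k : K, Tendsto (fun s : K →L[ℝ] E => pin jK jE s k) U (𝓝 (jK k)) := by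
      intro k
      have := (happ k).const_add (jK k)
      rw [add_zero] at this
      exact this
    have hR : Tendsto (fun s : K →L[ℝ] E => mm ε (pin jK jE s x) (pin jK jE s y)) U
        (𝓝 (mm ε (jK x) (jK y))) :=
      ((continuous_mm ε).tendsto (jK x, jK y)).comp ((hpin x).prodMk_nhds (hpin y))
    -- the products converge
    have hbd : ∀ᶠ s in (U : Filter (K →L[ℝ] E)), ‖z s‖ ≤ 2 * C * (‖mm ε (jK x) (jK y)‖ + 1) := by
      have h0 : Tendsto (fun s : K →L[ℝ] E => C * (‖jE‖ * ‖s‖)) U (𝓝 0) := by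
        simpa using (hn0.const_mul ‖jE‖).const_mul C
      have h1 : ∀ᶠ s in (U : Filter (K →L[ℝ] E)), C * (‖jE‖ * ‖s‖) < 1 / 2 :=
        h0.eventually (gt_mem_nhds (by norm_num))
      have h2 : ∀ᶠ s in (U : Filter (K →L[ℝ] E)), ‖mm ε (pin jK jE s x) (pin jK jE s y)‖ <
          ‖mm ε (jK x) (jK y)‖ + 1 := hR.norm.eventually (gt_mem_nhds (by linarith))
      filter_upwards [h1, h2, hUB] with s hs1 hs2 hs3
      rw [hz s hs3, pin_apply] at hs2
      have h3 : ‖jK (z s)‖ ≤ ‖jK (z s) + jE (s (z s))‖ + ‖jE (s (z s))‖ := by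
        have := norm_sub_le (jK (z s) + jE (s (z s))) (jE (s (z s)))
        rwa [add_sub_cancel_right] at this
      have h4 : ‖jE (s (z s))‖ ≤ ‖jE‖ * (‖s‖ * ‖z s‖) :=
        (hEb _).trans (mul_le_mul_of_nonneg_left (s.le_opNorm (z s)) (norm_nonneg _))
      have h5 := hC (z s)
      have h6 : 0 ≤ ‖z s‖ := norm_nonneg _
      have h7 : ‖z s‖ ≤ C * (‖mm ε (jK x) (jK y)‖ + 1) + C * (‖jE‖ * ‖s‖) * ‖z s‖ := by
        calc ‖z s‖ ≤ C * ‖jK (z s)‖ := h5
          _ ≤ C * ((‖mm ε (jK x) (jK y)‖ + 1) + ‖jE‖ * (‖s‖ * ‖z s‖)) := by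
            apply mul_le_mul_of_nonneg_left _ hC0.le
            linarith
          _ = _ := by ring
      nlinarith
    have hsz : Tendsto (fun s : K →L[ℝ] E => jE (s (z s))) U (𝓝 0) := by
      rw [tendsto_zero_iff_norm_tendsto_zero]
      have h1 : Tendsto (fun s : K →L[ℝ] E => ‖jE‖ * (‖s‖ * (2 * C * (‖mm ε (jK x) (jK y)‖ + 1))))
          U (𝓝 0) := by
        simpa using (hn0.mul_const (2 * C * (‖mm ε (jK x) (jK y)‖ + 1))).const_mul ‖jE‖
      refine squeeze_zero' (Eventually.of_forall fun _ => norm_nonneg _) ?_ h1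
      filter_upwards [hbd] with s hs
      refine (hEb _).trans (mul_le_mul_of_nonneg_left ?_ (norm_nonneg _))
      exact (s.le_opNorm (z s)).trans (mul_le_mul_of_nonneg_left hs (norm_nonneg _))
    have hzlim : Tendsto (fun s : K →L[ℝ] E => jK (z s)) U (𝓝 (jK (mK x y))) := by
      have h1 := hR.sub hsz
      rw [sub_zero, ← hmK] at h1
      refine h1.congr' ?_
      filter_upwards [hUB] with s hs
      rw [hz s hs, pin_apply, add_sub_cancel_right]
    have hzlim' : Tendsto z U (𝓝 (mK x y)) := by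
      rw [tendsto_iff_norm_sub_tendsto_zero]
      have h1 : Tendsto (fun s : K →L[ℝ] E => C * ‖jK (z s) - jK (mK x y)‖) U (𝓝 0) := by
        have := (tendsto_iff_norm_sub_tendsto_zero.1 hzlim).const_mul C
        simpa using this
      refine squeeze_zero (fun _ => norm_nonneg _) (fun s => ?_) h1
      rw [← map_sub]
      exact hC _
    -- the normalized cocycle identity
    have hwk : ∀ k : K, Tendsto (fun s : K →L[ℝ] E => jE ((‖s‖⁻¹ • s) k)) U (𝓝 (jE (w k))) := by
      intro k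
      have h1 : Tendsto (fun s : K →L[ℝ] E => (‖s‖⁻¹ • s) k) U (𝓝 (w k)) :=
        ((ContinuousLinearMap.apply ℝ E k).continuous.tendsto _).comp hw2
      exact (jE.continuous.tendsto _).comp h1
    have hwz : Tendsto (fun s : K →L[ℝ] E => jE ((‖s‖⁻¹ • s) (z s))) U (𝓝 (jE (w (mK x y)))) := by
      have h1 : Tendsto (fun s : K →L[ℝ] E => (‖s‖⁻¹ • s) (z s)) U (𝓝 (w (mK x y))) :=
        tendsto_clm hw2 hzlim'
      exact (jE.continuous.tendsto _).comp h1
    have hlim : Tendsto (fun s : K →L[ℝ] E => mm ε (jK x) (jE ((‖s‖⁻¹ • s) y)) +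
        mm ε (jE ((‖s‖⁻¹ • s) x)) (pin jK jE s y) - jE ((‖s‖⁻¹ • s) (z s))) U
        (𝓝 (mm ε (jK x) (jE (w y)) + mm ε (jE (w x)) (jK y) - jE (w (mK x y)))) := by
      refine Tendsto.sub (Tendsto.add ?_ ?_) hwz
      · exact ((continuous_mm ε).tendsto (jK x, jE (w y))).comp
          (tendsto_const_nhds.prodMk_nhds (hwk y))
      · exact ((continuous_mm ε).tendsto (jE (w x), jK y)).comp
          ((hwk x).prodMk_nhds (hpin y))
    refine (Submodule.closed_of_finiteDimensional _).mem_of_tendsto hlim ?_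
    filter_upwards [hUB, hnpos] with s hs hs2
    have h1 := hz s hs
    have h2 : mm ε (jK x) (jE ((‖s‖⁻¹ • s) y)) +
        mm ε (jE ((‖s‖⁻¹ • s) x)) (pin jK jE s y) - jE ((‖s‖⁻¹ • s) (z s)) =
        jK (‖s‖⁻¹ • (z s - mK x y)) := by
      have h3 : jK (z s) - mm ε (jK x) (jK y) = mm ε (jK x) (jE (s y)) +
          mm ε (jE (s x)) (pin jK jE s y) - jE (s (z s)) := by
        have h4 : jK (z s) = mm ε (pin jK jE s x) (pin jK jE s y) - jE (s (z s)) := by
          rw [h1, pin_apply, add_sub_cancel_right]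
        rw [h4, pin_apply s x, mm_add_left, pin_apply s y, mm_add_right]
        abel
      rw [map_smul, map_sub, hmK, h3, smul_sub, smul_add,
        ← mm_smul_left ε _ (jE (s x)) (pin jK jE s y), ← mm_smul_right ε _ (jK x) (jE (s y))]
      simp only [smul_apply, map_smul]
    rw [h2]
    exact ⟨_, rfl⟩
  exact (Submodule.disjoint_def.1 hS) _ hwZ hwS

end Rig

end Pool.Agent.Lib.MP_aa9b81_an.N
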