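import Mathlib
import Pool.Agent.Lib.MP_aa9b81_an.NRig

/-!
The rigidity theorem for subalgebras.
-/

set_option autoImplicit false
set_option linter.unusedSectionVars false
set_option maxHeartbeats 4000000

open Filter Topology Module

namespace Pool.Agent.Lib.MP_aa9b81_an.N

section Rig

variable {A : Type*} [NormedRing A] [NormedAlgebra ℝ A] [FiniteDimensional ℝ A] [CompleteSpace A]
variable {K E : Type*} [NormedAddCommGroup K] [NormedSpace ℝ K] [FiniteDimensional ℝ K]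
  [NormedAddCommGroup E] [NormedSpace ℝ E] [FiniteDimensional ℝ E]
variable {ε : ℝ} {jK : K →L[ℝ] A} {jE : E →L[ℝ] A} {mK : K → K → K}

/-- The parameter space. -/
abbrev PP (K E : Type*) [NormedAddCommGroup K] [NormedSpace ℝ K]
  [NormedAddCommGroup E] [NormedSpace ℝ E] : Type _ := (K →L[ℝ] K) × E × (K →L[ℝ] E)

/-- The parametrization of the maps near the inclusion. -/
noncomputable def Psi (jK : K →L[ℝ] A) (jE : E →L[ℝ] A) (π : A →L[ℝ] E)
    (q : (K →L[ℝ] E) →L[ℝ] (K →L[ℝ] E)) (p : (K →L[ℝ] K) × E × (K →L[ℝ] E)) : K →L[ℝ] E :=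
  π.comp ((ContinuousLinearMap.mul ℝ A (NormedSpace.exp (jE p.2.1))).comp
    (((ContinuousLinearMap.mul ℝ A).flip (NormedSpace.exp (-(jE p.2.1)))).comp
      ((pin jK jE (q p.2.2)).comp (1 + p.1))))

lemma Psi_apply (π : A →L[ℝ] E) (q : (K →L[ℝ] E) →L[ℝ] (K →L[ℝ] E))
    (p : (K →L[ℝ] K) × E × (K →L[ℝ] E)) (x : K) :
    Psi jK jE π q p x = π (NormedSpace.exp (jE p.2.1) *
      (pin jK jE (q p.2.2) (x + p.1 x) * NormedSpace.exp (-(jE p.2.1)))) := rfl

/-- The derivative of the parametrization at the origin. -/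
noncomputable def dPsi (jK : K →L[ℝ] A) (jE : E →L[ℝ] A) (π : A →L[ℝ] E)
    (q : (K →L[ℝ] E) →L[ℝ] (K →L[ℝ] E)) :
    ((K →L[ℝ] K) × E × (K →L[ℝ] E)) →ₗ[ℝ] (K →L[ℝ] E) where
  toFun p := π.comp ((ContinuousLinearMap.mul ℝ A (jE p.2.1)).comp jK -
    ((ContinuousLinearMap.mul ℝ A).flip (jE p.2.1)).comp jK + jE.comp (q p.2.2) + jK.comp p.1)
  map_add' p p' := by
    refine ContinuousLinearMap.ext fun x => ?_
    simp [add_mul, mul_add]
    abel
  map_smul' c p := by
    refine ContinuousLinearMap.ext fun x => ?_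
    simp [smul_sub]

theorem hasStrictFDerivAt_Psi (π : A →L[ℝ] E) (q : (K →L[ℝ] E) →L[ℝ] (K →L[ℝ] E)) :
    HasStrictFDerivAt (Psi jK jE π q) (LinearMap.toContinuousLinearMap (dPsi jK jE π q)) 0 := by
  have hm : HasStrictFDerivAt (fun p : PP K E => jE p.2.1)
      (jE.comp ((ContinuousLinearMap.fst ℝ E (K →L[ℝ] E)).comp
        (ContinuousLinearMap.snd ℝ (K →L[ℝ] K) (E × (K →L[ℝ] E))))) 0 := by
    have := ContinuousLinearMap.hasStrictFDerivAt (x := (0 : PP K E))
      (jE.comp ((ContinuousLinearMap.fst ℝ E (K →L[ℝ] E)).comp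
        (ContinuousLinearMap.snd ℝ (K →L[ℝ] K) (E × (K →L[ℝ] E)))))
    exact this
  have he0 : HasStrictFDerivAt (NormedSpace.exp : A → A) (1 : A →L[ℝ] A) (jE (0 : PP K E).2.1) := by
    have : jE (0 : PP K E).2.1 = 0 := by simp
    rw [this]
    exact hasStrictFDerivAt_exp_zero
  have he0' : HasStrictFDerivAt (NormedSpace.exp : A → A) (1 : A →L[ℝ] A) (-(jE (0 : PP K E).2.1)) := by
    have : -(jE (0 : PP K E).2.1) = 0 := by simp
    rw [this]
    exact hasStrictFDerivAt_exp_zero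
  have h1 := he0.comp (0 : PP K E) hm
  have h2 := he0'.comp (0 : PP K E) hm.neg
  have f1 := (ContinuousLinearMap.mul ℝ A).hasStrictFDerivAt.comp (0 : PP K E) h1
  have f2 := ((ContinuousLinearMap.mul ℝ A).flip).hasStrictFDerivAt.comp (0 : PP K E) h2
  have f3 : HasStrictFDerivAt (fun p : PP K E => pin jK jE (q p.2.2))
      ((ContinuousLinearMap.compL ℝ K E A jE).comp (q.comp
        ((ContinuousLinearMap.snd ℝ E (K →L[ℝ] E)).comp
        (ContinuousLinearMap.snd ℝ (K →L[ℝ] K) (E × (K →L[ℝ] E)))))) 0 := by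
    have := (ContinuousLinearMap.hasStrictFDerivAt ((ContinuousLinearMap.compL ℝ K E A jE).comp
      (q.comp ((ContinuousLinearMap.snd ℝ E (K →L[ℝ] E)).comp
        (ContinuousLinearMap.snd ℝ (K →L[ℝ] K) (E × (K →L[ℝ] E)))))) (x := (0 : PP K E))).const_add jK
    exact this
  have f4 : HasStrictFDerivAt (fun p : PP K E => (1 : K →L[ℝ] K) + p.1)
      (ContinuousLinearMap.fst ℝ (K →L[ℝ] K) (E × (K →L[ℝ] E))) 0 := by
    have := (ContinuousLinearMap.hasStrictFDerivAt
      (ContinuousLinearMap.fst ℝ (K →L[ℝ] K) (E × (K →L[ℝ] E))) (x := (0 : PP K E))).const_add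
      (1 : K →L[ℝ] K)
    exact this
  have h34 := f3.clm_comp f4
  have h234 := f2.clm_comp h34
  have h1234 := f1.clm_comp h234
  have hfin := (ContinuousLinearMap.compL ℝ K A E π).hasStrictFDerivAt.comp (0 : PP K E) h1234
  refine HasStrictFDerivAt.congr_fderiv hfin ?_
  clear hfin h1234 h234 h34 f1 f2 f3 f4 h1 h2 he0 he0' hm
  refine ContinuousLinearMap.ext fun p => ContinuousLinearMap.ext fun x => ?_
  obtain ⟨φ, m, s⟩ := p
  simp [dPsi, pin, NormedSpace.exp_zero]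
  abel

end Rig

end Pool.Agent.Lib.MP_aa9b81_an.N
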