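import Mathlib
import Pool.Agent.Lib.MP_aa9b81_an.NRig2

/-!
The rigidity theorem for subalgebras, conclusion.
-/

set_option autoImplicit false
set_option linter.unusedSectionVars false
set_option maxHeartbeats 4000000

open Filter Topology Module

namespace Pool.Agent.Lib.MP_aa9b81_an.N

section Rig

variable {A : Type*} [NormedRing A] [NormedAlgebra ℝ A] [FiniteDimensional ℝ A] [CompleteSpace A]
  [NormedAlgebra ℚ A]
variable {K E : Type*} [NormedAddCommGroup K] [NormedSpace ℝ K] [FiniteDimensional ℝ K]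
  [NormedAddCommGroup E] [NormedSpace ℝ E] [FiniteDimensional ℝ E]
variable {ε : ℝ} {jK : K →L[ℝ] A} {jE : E →L[ℝ] A} {mK : K → K → K}

lemma exp_neg_mul_exp (a : A) : NormedSpace.exp (-a) * NormedSpace.exp a = 1 := by
  have h := NormedSpace.exp_add_of_commute (x := -a) (y := a) (Commute.neg_left (Commute.refl a))
  rw [neg_add_cancel, NormedSpace.exp_zero] at h
  exact h.symm

lemma exp_mul_exp_neg' (a : A) : NormedSpace.exp a * NormedSpace.exp (-a) = 1 := by
  have h := NormedSpace.exp_add_of_commute (x := a) (y := -a) (Commute.neg_right (Commute.refl a))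
  rw [add_neg_cancel, NormedSpace.exp_zero] at h
  exact h.symm

lemma conj_mm (a x y : A) : NormedSpace.exp a * (mm ε x y) * NormedSpace.exp (-a) =
    mm ε (NormedSpace.exp a * x * NormedSpace.exp (-a))
      (NormedSpace.exp a * y * NormedSpace.exp (-a)) := by
  have h := exp_neg_mul_exp a
  generalize NormedSpace.exp a = g at *
  generalize NormedSpace.exp (-a) = g' at *
  have h1 : ∀ u v : A, g * u * g' * (g * v * g') = g * (u * v) * g' := by
    intro u v
    calc g * u * g' * (g * v * g') = g * u * (g' * g) * v * g' := by noncomm_ring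
      _ = _ := by rw [h]; noncomm_ring
  simp only [mm]
  rw [h1, h1, mul_sub, sub_mul]
  congr 1
  rw [mul_smul_comm, smul_mul_assoc]

/-- Rigidity. -/
theorem rigid (hjK : Function.Injective jK) (hjE : Function.Injective jE)
    (hmK : ∀ x y, jK (mK x y) = mm ε (jK x) (jK y))
    (iKE : K →L[ℝ] E) (hiKE : ∀ x, jE (iKE x) = jK x)
    (hE : ∀ m v : E, ∃ v' : E, NormedSpace.exp (jE m) * jE v * NormedSpace.exp (-(jE m)) = jE v')
    (hinn : ∀ u ∈ cocyc ε jK jE mK, ∃ m : E, ∀ x : K,
      jE (u x) - (jE m * jK x - jK x * jE m) ∈ LinearMap.range (jK : K →ₗ[ℝ] A))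
    {N : Set E} (hN : N ∈ 𝓝 (0 : E)) :
    ∀ᶠ τ : K →L[ℝ] E in 𝓝 iKE, (∀ x y, ∃ z, mm ε (jE (τ x)) (jE (τ y)) = jE (τ z)) →
      ∃ m ∈ N, ∀ a : A, (∃ x, a = jE (τ x)) ↔
        (∃ x, a = NormedSpace.exp (jE m) * jK x * NormedSpace.exp (-(jE m))) := by
  -- a left inverse of the inclusion
  obtain ⟨π₀, hπ₀⟩ := (jE : E →ₗ[ℝ] A).exists_leftInverse_of_injective (LinearMap.ker_eq_bot.2 hjE)
  let π : A →L[ℝ] E := LinearMap.toContinuousLinearMap π₀
  have hπ : ∀ v : E, π (jE v) = v := fun v => LinearMap.congr_fun hπ₀ v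
  -- a complement of the cocycles
  obtain ⟨S, hS⟩ := Submodule.exists_isCompl (cocyc ε jK jE mK)
  obtain ⟨q, hq1, hq2, hq3⟩ : ∃ q : (K →L[ℝ] E) →L[ℝ] (K →L[ℝ] E), (∀ s, q s ∈ S) ∧
      (∀ s ∈ S, q s = s) ∧ ∀ v, v - q v ∈ cocyc ε jK jE mK := by
    let q₀ : (K →L[ℝ] E) →ₗ[ℝ] (K →L[ℝ] E) := S.subtype ∘ₗ (S.projectionOnto _ hS.symm)
    refine ⟨LinearMap.toContinuousLinearMap q₀, ?_, ?_, ?_⟩
    · intro s
      exact (S.projectionOnto _ hS.symm s).2
    · intro s hs
      have := Submodule.projectionOnto_apply_left hS.symm ⟨s, hs⟩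
      exact congrArg Subtype.val this
    · intro v
      have h1 : S.projectionOnto _ hS.symm (v - q₀ v) = 0 := by
        rw [map_sub]
        have := Submodule.projectionOnto_apply_left hS.symm (S.projectionOnto _ hS.symm v)
        rw [sub_eq_zero]
        exact this.symm
      exact (Submodule.projectionOnto_apply_eq_zero_iff hS.symm).1 h1
  have hder := hasStrictFDerivAt_Psi (jK := jK) (jE := jE) π q
  have hsurj : (LinearMap.toContinuousLinearMap (dPsi jK jE π q)).range = ⊤ := by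
    rw [LinearMap.range_eq_top]
    intro v
    obtain ⟨m, hm⟩ := hinn (v - q v) (hq3 v)
    choose f hf using hm
    have hf' : ∀ x, jK (f x) = jE ((v - q v) x) - (jE m * jK x - jK x * jE m) := hf
    let φ₀ : K →ₗ[ℝ] K :=
      { toFun := f
        map_add' := fun x y => by
          apply hjK
          rw [map_add, hf', hf', hf']
          simp only [map_add, mul_add, add_mul]
          abel
        map_smul' := fun c x => by
          apply hjK
          rw [RingHom.id_apply, map_smul, hf', hf']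
          simp only [map_smul, mul_smul_comm, smul_mul_assoc, smul_sub] }
    refine ⟨(LinearMap.toContinuousLinearMap φ₀, m, v), ?_⟩
    refine ContinuousLinearMap.ext fun x => ?_
    have h1 : dPsi jK jE π q (LinearMap.toContinuousLinearMap φ₀, m, v) x =
        π (jE m * jK x - jK x * jE m + jE (q v x) + jK (f x)) := rfl
    change dPsi jK jE π q (LinearMap.toContinuousLinearMap φ₀, m, v) x = v x
    rw [h1, hf']
    have h2 : jE m * jK x - jK x * jE m + jE (q v x) +
        (jE ((v - q v) x) - (jE m * jK x - jK x * jE m)) = jE (v x) := by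
      rw [sub_apply, map_sub]
      abel
    rw [h2, hπ]
  have hmap := hder.map_nhds_eq_of_surj hsurj
  have h0 : Psi jK jE π q 0 = iKE := by
    refine ContinuousLinearMap.ext fun x => ?_
    rw [Psi_apply]
    simp [pin, NormedSpace.exp_zero]
    rw [← hiKE, hπ]
  rw [h0] at hmap
  -- the good parameters
  have g1 : ∀ᶠ p : PP K E in 𝓝 0, p.2.1 ∈ N := by
    have h1 : Tendsto (fun p : PP K E => p.2.1) (𝓝 0) (𝓝 0) := by
      have : Continuous (fun p : PP K E => p.2.1) := by fun_prop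
      exact this.tendsto 0
    exact h1 hN
  have g2 : ∀ᶠ p : PP K E in 𝓝 0, IsUnit (1 + p.1 : K →L[ℝ] K) := by
    have h1 : Tendsto (fun p : PP K E => (1 + p.1 : K →L[ℝ] K)) (𝓝 0) (𝓝 1) := by
      have : Continuous (fun p : PP K E => (1 + p.1 : K →L[ℝ] K)) := by fun_prop
      have := this.tendsto 0
      simpa using this
    exact h1 (Units.nhds (1 : (K →L[ℝ] K)ˣ))
  have g3 : ∀ᶠ p : PP K E in 𝓝 0, (∀ x y : K, ∃ z : K, mm ε (pin jK jE (q p.2.2) x)
      (pin jK jE (q p.2.2) y) = pin jK jE (q p.2.2) z) → q p.2.2 = 0 := by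
    have h1 : Tendsto (fun p : PP K E => q p.2.2) (𝓝 0) (𝓝 0) := by
      have : Continuous (fun p : PP K E => q p.2.2) := by fun_prop
      have := this.tendsto 0
      simpa using this
    have h2 := eventually_zero (ε := ε) (mK := mK) (jE := jE) hjK hmK S hS.disjoint
    filter_upwards [h1.eventually h2] with p hp
    exact hp (hq1 _)
  have hgood := (g1.and (g2.and g3))
  have himg : Psi jK jE π q '' {p | p.2.1 ∈ N ∧ IsUnit (1 + p.1 : K →L[ℝ] K) ∧
      ((∀ x y : K, ∃ z : K, mm ε (pin jK jE (q p.2.2) x)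
      (pin jK jE (q p.2.2) y) = pin jK jE (q p.2.2) z) → q p.2.2 = 0)} ∈ 𝓝 iKE := by
    rw [← hmap]
    exact image_mem_map hgood
  filter_upwards [himg] with τ hτ hclosed
  obtain ⟨p, ⟨hp1, hp2, hp3⟩, rfl⟩ := hτ
  set g : A := NormedSpace.exp (jE p.2.1) with hg
  set g' : A := NormedSpace.exp (-(jE p.2.1)) with hg'
  have hgg' : g' * g = 1 := exp_neg_mul_exp _
  have hgg : g * g' = 1 := exp_mul_exp_neg' _
  -- surjectivity of the base change
  have hsur : Function.Surjective (1 + p.1 : K →L[ℝ] K) := by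
    obtain ⟨u, hu⟩ := hp2
    intro x
    refine ⟨(u⁻¹ : (K →L[ℝ] K)ˣ).1 x, ?_⟩
    rw [← hu]
    have h1 : (u : K →L[ℝ] K) * (u⁻¹ : (K →L[ℝ] K)ˣ).1 = 1 := u.mul_inv
    exact congrArg (fun f : K →L[ℝ] K => f x) h1
  -- the values
  have hval : ∀ x, jE (Psi jK jE π q p x) = g * pin jK jE (q p.2.2) (x + p.1 x) * g' := by
    intro x
    rw [Psi_apply]
    have h1 : pin jK jE (q p.2.2) (x + p.1 x) =
        jE (iKE (x + p.1 x) + q p.2.2 (x + p.1 x)) := by
      rw [pin_apply, map_add jE (iKE (x + p.1 x)), hiKE]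
    obtain ⟨v', hv'⟩ := hE p.2.1 (iKE (x + p.1 x) + q p.2.2 (x + p.1 x))
    rw [h1, ← mul_assoc, hv', hπ]
  have hval' : ∀ y, ∃ x, jE (Psi jK jE π q p x) = g * pin jK jE (q p.2.2) y * g' := by
    intro y
    obtain ⟨x, hx⟩ := hsur y
    refine ⟨x, ?_⟩
    rw [hval]
    have : x + p.1 x = y := hx
    rw [this]
  have hz : q p.2.2 = 0 := by
    apply hp3
    intro x y
    obtain ⟨x', hx'⟩ := hval' x
    obtain ⟨y', hy'⟩ := hval' y
    obtain ⟨z', hz'⟩ := hclosed x' y'
    refine ⟨z' + p.1 z', ?_⟩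
    rw [hx', hy', hval, ← conj_mm] at hz'
    have h1 : ∀ a b : A, g * a * g' = g * b * g' → a = b := by
      intro a b hab
      calc a = (g' * g) * a * (g' * g) := by rw [hgg']; noncomm_ring
        _ = g' * (g * a * g') * g := by noncomm_ring
        _ = g' * (g * b * g') * g := by rw [hab]
        _ = (g' * g) * b * (g' * g) := by noncomm_ring
        _ = b := by rw [hgg']; noncomm_ring
    exact h1 _ _ hz'
  refine ⟨p.2.1, hp1, fun a => ?_⟩
  have hpin0 : ∀ y, pin jK jE (q p.2.2) y = jK y := by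
    intro y
    rw [hz, pin_apply, zero_apply, map_zero, add_zero]
  constructor
  · rintro ⟨x, rfl⟩
    exact ⟨x + p.1 x, by rw [hval, hpin0]⟩
  · rintro ⟨y, rfl⟩
    obtain ⟨x, hx⟩ := hval' y
    exact ⟨x, by rw [hx, hpin0]⟩

end Rig

end Pool.Agent.Lib.MP_aa9b81_an.N
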