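import Mathlib
import Pool.Agent.Lib.MP_aa9b81_an.NRig3
import Pool.Agent.Lib.MP_aa9b81_an.NEqui

/-!
Application of the rigidity theorem to families of subspaces of matrices.
-/

set_option autoImplicit false
set_option linter.unusedSectionVars false
set_option maxHeartbeats 4000000

open Filter Topology Matrix Module

namespace Pool.Agent.Lib.MP_aa9b81_an.N

section Inj

variable {K E : Type*} [NormedAddCommGroup K] [NormedSpace ℝ K] [FiniteDimensional ℝ K]
  [NormedAddCommGroup E] [NormedSpace ℝ E] [FiniteDimensional ℝ E]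

/-- Injective maps form a neighbourhood of each injective map. -/
lemma eventually_injective {i : K →L[ℝ] E} (hi : Function.Injective i) :
    ∀ᶠ τ : K →L[ℝ] E in 𝓝 i, Function.Injective τ := by
  have : CompleteSpace K := FiniteDimensional.complete ℝ K
  obtain ⟨l₀, hl₀⟩ := (i : K →ₗ[ℝ] E).exists_leftInverse_of_injective (LinearMap.ker_eq_bot.2 hi)
  have hl : ∀ v : K, l₀ (i v) = v := fun v => LinearMap.congr_fun hl₀ v
  have h1 : Continuous (fun τ' : K →L[ℝ] E =>
      ((LinearMap.toContinuousLinearMap l₀).comp τ' : K →L[ℝ] K)) := by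
    fun_prop
  have h2 := h1.tendsto i
  have h3 : ((LinearMap.toContinuousLinearMap l₀).comp i : K →L[ℝ] K) = 1 := by
    refine ContinuousLinearMap.ext fun v => ?_
    exact hl v
  rw [h3] at h2
  have h4 : ∀ᶠ f : K →L[ℝ] K in 𝓝 1, IsUnit f := Units.nhds (1 : (K →L[ℝ] K)ˣ)
  filter_upwards [h2.eventually h4] with τ hτ
  obtain ⟨v, hv⟩ := hτ
  intro a b hab
  have h3 : ∀ c, (v : K →L[ℝ] K) c = (LinearMap.toContinuousLinearMap l₀) (τ c) := by
    intro c
    rw [hv]
    rfl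
  have h4 : (v : K →L[ℝ] K) a = (v : K →L[ℝ] K) b := by
    rw [h3, h3, hab]
  have h5 : ∀ c, (v⁻¹ : (K →L[ℝ] K)ˣ).1 ((v : K →L[ℝ] K) c) = c := by
    intro c
    have h6 : (v⁻¹ : (K →L[ℝ] K)ˣ).1 * (v : K →L[ℝ] K) = 1 := v.inv_mul
    exact congrArg (fun f : K →L[ℝ] K => f c) h6
  rw [← h5 a, h4, h5]

end Inj

section Lin

variable {X : Type*} [TopologicalSpace X]
variable {V : Type*} [AddCommGroup V] [TopologicalSpace V] [IsTopologicalAddGroup V] [T2Space V]
  [Module ℝ V] [ContinuousSMul ℝ V] [FiniteDimensional ℝ V]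

/-- The projection, as a linear map. -/
noncomputable def prL (W : X → Submodule ℝ V) (x : X) : V →ₗ[ℝ] V where
  toFun v := pr W x v
  map_add' v w := by simp only [pr, map_add]
  map_smul' c v := by simp only [pr, map_smul, RingHom.id_apply]

lemma prL_apply (W : X → Submodule ℝ V) (x : X) (v : V) : prL W x v = pr W x v := rfl

end Lin

variable {n : ℕ} [NeZero n]
variable {X : Type*} [TopologicalSpace X]

section

open scoped Matrix.Norms.Operator

set_option backward.isDefEq.respectTransparency false in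
/-- Local rigidity of a continuous family of subalgebras. -/
theorem rigid_fam {Y : Set X} {W : X → Submodule ℝ (MM n)} {E : Submodule ℝ (MM n)}
    (hcf : CF Y W) {k : ℕ} (hk : ∀ y ∈ Y, finrank ℝ (W y) = k) (hWE : ∀ y ∈ Y, W y ≤ E)
    (hbr : ∀ y ∈ Y, ∀ A ∈ W y, ∀ B ∈ W y, A * B - B * A ∈ W y)
    (hE : ∀ m ∈ E, ∀ v ∈ E, NormedSpace.exp m * v * NormedSpace.exp (-m) ∈ E)
    {x : X} (hx : x ∈ Y)
    (hinn : ∀ u : W x →ₗ[ℝ] E, (∀ a b c : W x, (c : MM n) = (a : MM n) * b - b * a →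
      ((a : MM n) * u b - u b * a) + ((u a : MM n) * b - b * u a) - u c ∈ W x) →
      ∃ m : E, ∀ a : W x, (u a : MM n) - ((m : MM n) * a - a * m) ∈ W x)
    {N : Set (MM n)} (hN : N ∈ 𝓝 (0 : MM n)) :
    ∀ᶠ y in 𝓝[Y] x, ∃ m ∈ E, m ∈ N ∧ ∀ A : MM n, A ∈ W y ↔
      ∃ B ∈ W x, A = NormedSpace.exp m * B * NormedSpace.exp (-m) := by
  let jK : W x →L[ℝ] MM n := (W x).subtypeL
  let jE : E →L[ℝ] MM n := E.subtypeL
  have hjK : Function.Injective jK := Subtype.val_injective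
  have hjE : Function.Injective jE := Subtype.val_injective
  let mK : W x → W x → W x := fun a b => ⟨(a : MM n) * b - b * a, hbr x hx a a.2 b b.2⟩
  have hmK : ∀ a b, jK (mK a b) = mm 1 (jK a) (jK b) := by
    intro a b
    change (a : MM n) * b - b * a = (a : MM n) * b - (1 : ℝ) • ((b : MM n) * a)
    rw [one_smul]
  let iKE : W x →L[ℝ] E := LinearMap.toContinuousLinearMap (Submodule.inclusion (hWE x hx))
  have hiKE : ∀ a, jE (iKE a) = jK a := fun a => rfl
  have hE' : ∀ m v : E, ∃ v' : E,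
      NormedSpace.exp (jE m) * jE v * NormedSpace.exp (-(jE m)) = jE v' :=
    fun m v => ⟨⟨_, hE m m.2 v v.2⟩, rfl⟩
  have hinn' : ∀ u ∈ cocyc 1 jK jE mK, ∃ m : E, ∀ a : W x,
      jE (u a) - (jE m * jK a - jK a * jE m) ∈ LinearMap.range (jK : W x →ₗ[ℝ] MM n) := by
    intro u hu
    have hr : ∀ A : MM n, A ∈ LinearMap.range (jK : W x →ₗ[ℝ] MM n) ↔ A ∈ W x := by
      intro A
      constructor
      · rintro ⟨a, rfl⟩
        exact a.2
      · intro hA
        exact ⟨⟨A, hA⟩, rfl⟩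
    obtain ⟨m, hm⟩ := hinn (u : W x →ₗ[ℝ] E) (by
      intro a b c hc
      have h1 := hu a b
      rw [hr] at h1
      have h2 : c = mK a b := Subtype.ext hc
      rw [h2]
      have h3 : mm 1 (jK a) (jE (u b)) = (a : MM n) * u b - u b * a := by
        change (a : MM n) * u b - (1 : ℝ) • ((u b : MM n) * a) = _
        rw [one_smul]
      have h4 : mm 1 (jE (u a)) (jK b) = (u a : MM n) * b - b * u a := by
        change (u a : MM n) * b - (1 : ℝ) • ((b : MM n) * u a) = _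
        rw [one_smul]
      rw [h3, h4] at h1
      exact h1)
    exact ⟨m, fun a => (hr _).2 (hm a)⟩
  have hN' : (fun m : E => (m : MM n)) ⁻¹' N ∈ 𝓝 (0 : E) := by
    have h1 : Tendsto (fun m : E => (m : MM n)) (𝓝 0) (𝓝 ((0 : E) : MM n)) :=
      continuous_subtype_val.tendsto 0
    exact h1 hN
  have key := rigid (ε := 1) hjK hjE hmK iKE hiKE hE' hinn' hN'
  -- the family of maps
  obtain ⟨π₀, hπ₀⟩ := (E.subtype).exists_leftInverse_of_injective (LinearMap.ker_eq_bot.2 hjE)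
  have hπ : ∀ v : E, π₀ (v : MM n) = v := fun v => LinearMap.congr_fun hπ₀ v
  let τ : X → W x →L[ℝ] E := fun y =>
    LinearMap.toContinuousLinearMap (π₀ ∘ₗ (prL W y) ∘ₗ (W x).subtype)
  have hτ : ∀ y v, τ y v = π₀ (pr W y (v : MM n)) := fun y v => rfl
  have hτ' : ∀ y ∈ Y, ∀ v, ((τ y v : E) : MM n) = pr W y (v : MM n) := by
    intro y hy v
    rw [hτ]
    have h1 : pr W y (v : MM n) ∈ E := hWE y hy (pr_mem W y _)
    exact congrArg Subtype.val (hπ ⟨_, h1⟩)
  have hcont : ContinuousOn τ Y := by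
    rw [continuousOn_clm_apply]
    intro v
    have h1 : Continuous π₀ := LinearMap.continuous_of_finiteDimensional π₀
    exact h1.comp_continuousOn (hcf.continuousOn hk (v : MM n))
  have hτx : τ x = iKE := by
    refine ContinuousLinearMap.ext fun v => Subtype.ext ?_
    rw [hτ' x hx, pr_eq_self v.2]
    rfl
  have hT : Tendsto τ (𝓝[Y] x) (𝓝 iKE) := by
    rw [← hτx]
    exact hcont x hx
  have hinj0 : Function.Injective iKE := Submodule.inclusion_injective (hWE x hx)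
  filter_upwards [hT.eventually key, hT.eventually (eventually_injective hinj0),
    self_mem_nhdsWithin] with y h1 hinj hy
  -- the range is `W y`
  let φ : W x →ₗ[ℝ] W y :=
    { toFun := fun v => ⟨(τ y v : E), by rw [hτ' y hy]; exact pr_mem W y _⟩
      map_add' := fun a b => by
        apply Subtype.ext
        simp
      map_smul' := fun c a => by
        apply Subtype.ext
        simp }
  have hφinj : Function.Injective φ := by
    intro a b hab
    apply hinj
    have h3 : ((φ a : W y) : MM n) = ((φ b : W y) : MM n) := by rw [hab]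
    exact Subtype.ext h3
  have hφsur : Function.Surjective φ := by
    have := (LinearMap.injective_iff_surjective_of_finrank_eq_finrank
      (by rw [hk x hx, hk y hy]) (f := φ)).1 hφinj
    exact this
  have hrange : ∀ A : MM n, A ∈ W y ↔ ∃ v : W x, A = jE (τ y v) := by
    intro A
    constructor
    · intro hA
      obtain ⟨v, hv⟩ := hφsur ⟨A, hA⟩
      exact ⟨v, (congrArg Subtype.val hv).symm⟩
    · rintro ⟨v, rfl⟩
      exact (φ v).2
  obtain ⟨m, hm, hmm⟩ := h1 (by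
    intro a b
    have h3 : mm 1 (jE (τ y a)) (jE (τ y b)) ∈ W y := by
      have h4 : mm 1 (jE (τ y a)) (jE (τ y b)) =
          (jE (τ y a)) * (jE (τ y b)) - (jE (τ y b)) * (jE (τ y a)) := by
        unfold mm
        rw [one_smul]
      rw [h4]
      exact hbr y hy _ ((hrange _).2 ⟨a, rfl⟩) _ ((hrange _).2 ⟨b, rfl⟩)
    exact (hrange _).1 h3)
  refine ⟨m, m.2, hm, fun A => ?_⟩
  rw [hrange, hmm A]
  constructor
  · rintro ⟨v, rfl⟩
    exact ⟨v, v.2, rfl⟩
  · rintro ⟨B, hB, rfl⟩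
    exact ⟨⟨B, hB⟩, rfl⟩

end

section Iso

variable {G : Type*} [Group G] [TopologicalSpace G] [IsTopologicalGroup G]
variable {ρ : G →* SLn n} (hρ : IsClosedEmbedding ρ)

include hρ

lemma exp_gal {m : MM n} (hm : m ∈ gal hρ) : ∃ g : G, (ρ g : MM n) = NormedSpace.exp m ∧
    ((ρ g⁻¹ : SLn n) : MM n) = NormedSpace.exp (-m) := by
  obtain ⟨g, hg⟩ := (mem_gal hρ).1 hm 1
  rw [one_smul] at hg
  refine ⟨g, hg, ?_⟩
  have h2 : (ρ g : MM n) * ((ρ g⁻¹ : SLn n) : MM n) = (ρ g : MM n) * NormedSpace.exp (-m) := by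
    rw [map_inv, coe_mul_coe_inv, hg, exp_mul_exp_neg]
  have h5 : IsUnit (ρ g : MM n) := by
    rw [Matrix.isUnit_iff_isUnit_det]
    simp
  exact h5.mul_left_cancel h2

lemma exists_nhds_of_nhds_one {N : Set G} (hN : N ∈ 𝓝 (1 : G)) :
    ∃ M ∈ 𝓝 (0 : MM n), ∀ m ∈ M, ∀ g : G, (ρ g : MM n) = NormedSpace.exp m → g ∈ N := by
  have h1 : IsClosedEmbedding (fun g : G => (ρ g : MM n)) :=
    (Matrix.SpecialLinearGroup.isClosedEmbedding_val (n := Fin n) (R := ℝ)).comp hρ
  have h2 := h1.isInducing.nhds_eq_comap 1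
  rw [h2, mem_comap] at hN
  obtain ⟨U, hU, hUN⟩ := hN
  have h3 : ((ρ 1 : SLn n) : MM n) = NormedSpace.exp 0 := by
    rw [map_one, Matrix.SpecialLinearGroup.coe_one, NormedSpace.exp_zero]
  rw [h3] at hU
  refine ⟨(fun m => NormedSpace.exp m) ⁻¹' U, continuous_exp_matrix.continuousAt hU, ?_⟩
  intro m hm g hg
  apply hUN
  change (ρ g : MM n) ∈ U
  rw [hg]
  exact hm

/-- Local rigidity, group version. -/
theorem rigid_grp {Y : Set X} {W : X → Submodule ℝ (MM n)}
    (hcf : CF Y W) {k : ℕ} (hk : ∀ y ∈ Y, finrank ℝ (W y) = k) (hWE : ∀ y ∈ Y, W y ≤ gal hρ)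
    (hbr : ∀ y ∈ Y, ∀ A ∈ W y, ∀ B ∈ W y, A * B - B * A ∈ W y) {x : X} (hx : x ∈ Y)
    (hinn : ∀ u : W x →ₗ[ℝ] gal hρ, (∀ a b c : W x, (c : MM n) = (a : MM n) * b - b * a →
      ((a : MM n) * u b - u b * a) + ((u a : MM n) * b - b * u a) - u c ∈ W x) →
      ∃ m : gal hρ, ∀ a : W x, (u a : MM n) - ((m : MM n) * a - a * m) ∈ W x)
    {N : Set G} (hN : N ∈ 𝓝 (1 : G)) :
    ∀ᶠ y in 𝓝[Y] x, ∃ g ∈ N, W y = cjs (ρ g) (W x) := by
  obtain ⟨M, hM, hMN⟩ := exists_nhds_of_nhds_one hρ hN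
  have hE : ∀ m ∈ gal hρ, ∀ v ∈ gal hρ,
      NormedSpace.exp m * v * NormedSpace.exp (-m) ∈ gal hρ := by
    intro m hm v hv
    obtain ⟨g, hg1, hg2⟩ := exp_gal hρ hm
    rw [← hg1, ← hg2, map_inv, ← cj_apply]
    have h1 := cjs_gal hρ g
    rw [← h1]
    exact cj_mem_cjs.2 hv
  filter_upwards [rigid_fam hcf hk hWE hbr hE hx hinn hM] with y hy
  obtain ⟨m, hm, hmM, hA⟩ := hy
  obtain ⟨g, hg1, hg2⟩ := exp_gal hρ hm
  refine ⟨g, hMN m hmM g hg1, ?_⟩
  ext A
  rw [hA]
  constructor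
  · rintro ⟨B, hB, rfl⟩
    rw [← hg1, ← hg2, map_inv, ← cj_apply]
    exact cj_mem_cjs.2 hB
  · intro h
    rw [mem_cjs] at h
    refine ⟨_, h, ?_⟩
    rw [← hg1, ← hg2, map_inv, ← cj_apply, cj_cj_inv]

end Iso

end Pool.Agent.Lib.MP_aa9b81_an.N
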