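import Mathlib
import Pool.Agent.Lib.MP_aa9b81_an.NEqui

/-!
Complete reducibility and semisimplicity for algebras of matrices with nondegenerate trace form.
-/

set_option autoImplicit false
set_option linter.unusedSectionVars false
set_option maxHeartbeats 4000000

open Matrix Module

namespace Pool.Agent.Lib.MP_aa9b81_an.N

variable {n : ℕ} [NeZero n] {W : Submodule ℝ (MM n)}

/-- The algebra, acting on column vectors. -/
noncomputable def algE (W : Submodule ℝ (MM n)) : Subalgebra ℝ (Module.End ℝ (VV n)) :=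
  (Algebra.adjoin ℝ (W : Set (MM n))).map (Matrix.toLinAlgEquiv' (R := ℝ) (n := Fin n)).toAlgHom

lemma toE_apply (A : MM n) (v : VV n) :
    (Matrix.toLinAlgEquiv' (R := ℝ) (n := Fin n)) A v = A *ᵥ v := Matrix.toLinAlgEquiv'_apply A v

lemma mem_algE {f : Module.End ℝ (VV n)} :
    f ∈ algE W ↔ ∃ A ∈ alg W, (Matrix.toLinAlgEquiv' (R := ℝ) (n := Fin n)) A = f := by
  constructor
  · rintro ⟨A, hA, rfl⟩
    exact ⟨A, hA, rfl⟩
  · rintro ⟨A, hA, rfl⟩
    exact ⟨A, hA, rfl⟩

theorem isSemisimple_algE (h : rd W = ⊥) : IsSemisimpleRing (algE W) := by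
  haveI : IsArtinianRing (algE W) := IsArtinianRing.of_finite ℝ (algE W)
  rw [IsArtinianRing.isSemisimpleRing_iff_jacobson, eq_bot_iff]
  have hnil : ∀ a ∈ Ring.jacobson (algE W), IsNilpotent a := by
    intro a ha
    obtain ⟨k, hk⟩ := (IsSemiprimaryRing.isNilpotent : IsNilpotent (Ring.jacobson (algE W)))
    refine ⟨k, ?_⟩
    have h1 : a ^ k ∈ Ring.jacobson (algE W) ^ k := Ideal.pow_mem_pow ha k
    rw [hk] at h1
    exact h1
  intro a ha
  obtain ⟨A, hA, hAa⟩ := mem_algE.1 a.2
  have h1 : A ∈ rd W := by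
    refine mem_rd_of_nilp hA fun B hB => ?_
    let b : algE W := ⟨(Matrix.toLinAlgEquiv' (R := ℝ) (n := Fin n)) B, mem_algE.2 ⟨B, hB, rfl⟩⟩
    obtain ⟨k, hk⟩ := hnil _ ((Ring.jacobson (algE W)).mul_mem_left b ha)
    refine ⟨k, ?_⟩
    apply (Matrix.toLinAlgEquiv' (R := ℝ) (n := Fin n)).injective
    rw [map_pow, map_mul, map_zero, hAa]
    exact congrArg Subtype.val hk
  rw [h, Submodule.mem_bot] at h1
  rw [Submodule.mem_bot]
  apply Subtype.ext
  rw [← hAa, h1, map_zero]
  rfl

/-- Complete reducibility. -/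
theorem exists_compl (h : rd W = ⊥) {U : Submodule ℝ (VV n)}
    (hU : ∀ A ∈ W, ∀ v ∈ U, A *ᵥ v ∈ U) :
    ∃ C : Submodule ℝ (VV n), (∀ A ∈ W, ∀ v ∈ C, A *ᵥ v ∈ C) ∧ IsCompl U C := by
  haveI := isSemisimple_algE h
  haveI hsm : IsSemisimpleModule (algE W) (VV n) := inferInstance
  haveI hcl : ComplementedLattice (Submodule (algE W) (VV n)) := hsm.toComplementedLattice
  let U' : Submodule (algE W) (VV n) :=
    { carrier := U
      add_mem' := fun {a b} ha hb => U.add_mem ha hb
      zero_mem' := U.zero_mem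
      smul_mem' := by
        rintro ⟨f, hf⟩ v hv
        obtain ⟨A, hA, rfl⟩ := mem_algE.1 hf
        change (Matrix.toLinAlgEquiv' (R := ℝ) (n := Fin n)) A v ∈ U
        rw [toE_apply]
        exact alg_mulVec_mem hU hA v hv }
  obtain ⟨C', hC'⟩ := exists_isCompl U'
  let C : Submodule ℝ (VV n) :=
    { carrier := C'
      add_mem' := fun {a b} ha hb => C'.add_mem ha hb
      zero_mem' := C'.zero_mem
      smul_mem' := by
        intro c v hv
        let b : algE W := algebraMap ℝ (algE W) c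
        have h1 : b • v ∈ C' := C'.smul_mem b hv
        have h2 : b • v = c • v := by
          change (algebraMap ℝ (Module.End ℝ (VV n)) c) v = c • v
          rw [Module.algebraMap_end_apply]
        rw [h2] at h1
        exact h1 }
  refine ⟨C, ?_, ?_⟩
  · intro A hA v hv
    let b : algE W := ⟨(Matrix.toLinAlgEquiv' (R := ℝ) (n := Fin n)) A,
      mem_algE.2 ⟨A, le_alg W hA, rfl⟩⟩
    have h1 : b • v ∈ C' := C'.smul_mem b hv
    have h2 : b • v = A *ᵥ v := toE_apply A v
    rw [h2] at h1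
    exact h1
  · constructor
    · rw [Submodule.disjoint_def]
      intro v hv1 hv2
      exact (Submodule.disjoint_def.1 hC'.disjoint) v hv1 hv2
    · rw [codisjoint_iff, eq_top_iff]
      intro v _
      have h1 : v ∈ U' ⊔ C' := by rw [hC'.sup_eq_top]; exact Submodule.mem_top
      obtain ⟨a, ha, b, hb, rfl⟩ := Submodule.mem_sup.1 h1
      exact Submodule.mem_sup.2 ⟨a, ha, b, hb, rfl⟩

/-- The vectors killed by a set of matrices. -/
def killed (N : Submodule ℝ (MM n)) : Submodule ℝ (VV n) where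
  carrier := {v | ∀ B ∈ N, B *ᵥ v = 0}
  zero_mem' := fun B _ => by simp
  add_mem' := fun {v w} hv hw B hB => by rw [Matrix.mulVec_add, hv B hB, hw B hB, add_zero]
  smul_mem' := fun c v hv B hB => by rw [Matrix.mulVec_smul, hv B hB, smul_zero]

lemma mem_killed {N : Submodule ℝ (MM n)} {v : VV n} : v ∈ killed N ↔ ∀ B ∈ N, B *ᵥ v = 0 :=
  Iff.rfl

/-- A family of operators in the algebra with a stable kernel, which kills a vector in each nonzero
invariant subspace, is zero. -/
theorem eq_bot_of_killed (h : rd W = ⊥) {N : Submodule ℝ (MM n)}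
    (hk : ∀ A ∈ W, ∀ v ∈ killed N, A *ᵥ v ∈ killed N)
    (hN : ∀ C : Submodule ℝ (VV n), (∀ A ∈ W, ∀ v ∈ C, A *ᵥ v ∈ C) → C ≠ ⊥ →
      ∃ v ∈ C, v ≠ 0 ∧ v ∈ killed N) : N = ⊥ := by
  obtain ⟨C, hC1, hC2⟩ := exists_compl h hk
  have hC : C = ⊥ := by
    by_contra hne
    obtain ⟨v, hv1, hv0, hv2⟩ := hN C hC1 hne
    exact hv0 ((Submodule.disjoint_def.1 hC2.disjoint) v hv2 hv1)
  have htop : killed N = ⊤ := by
    have := hC2.sup_eq_top
    rwa [hC, sup_bot_eq] at this
  rw [Submodule.eq_bot_iff]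
  intro B hB
  have h1 : ∀ v : VV n, B *ᵥ v = 0 := by
    intro v
    have : v ∈ killed N := by rw [htop]; exact Submodule.mem_top
    exact this B hB
  apply Matrix.toLin'.injective
  ext v : 1
  ext i
  simp [h1]

/-- Commuting nilpotent matrices kill a common vector. -/
lemma exists_killed_comm {N : Submodule ℝ (MM n)} (hcomm : ∀ a ∈ N, ∀ b ∈ N, a * b = b * a)
    (hnil : ∀ a ∈ N, IsNilpotent a) {C : Submodule ℝ (VV n)}
    (hC : ∀ a ∈ N, ∀ v ∈ C, a *ᵥ v ∈ C) (hC0 : C ≠ ⊥) : ∃ v ∈ C, v ≠ 0 ∧ v ∈ killed N := by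
  obtain ⟨v₀, hv₀, hv₀0⟩ := Submodule.exists_mem_ne_zero_of_ne_bot hC0
  have key : ∀ s : Finset (MM n), (∀ a ∈ s, a ∈ N) → ∃ v ∈ C, v ≠ 0 ∧ ∀ a ∈ s, a *ᵥ v = 0 := by
    intro s
    induction s using Finset.induction_on with
    | empty => intro _; exact ⟨v₀, hv₀, hv₀0, fun a ha => absurd ha (Finset.notMem_empty a)⟩
    | insert b s hb ih =>
      intro hs
      obtain ⟨v, hv, hv0, hvs⟩ := ih fun a ha => hs a (Finset.mem_insert_of_mem ha)
      have hbN : b ∈ N := hs b (Finset.mem_insert_self b s)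
      obtain ⟨k, hk⟩ := hnil b hbN
      have hex : ∃ j : ℕ, (b ^ j) *ᵥ v = 0 := ⟨k, by rw [hk, Matrix.zero_mulVec]⟩
      classical
      let j := Nat.find hex
      have hj : (b ^ j) *ᵥ v = 0 := Nat.find_spec hex
      have hj0 : j ≠ 0 := by
        intro h0
        rw [h0, pow_zero, Matrix.one_mulVec] at hj
        exact hv0 hj
      obtain ⟨i, hi⟩ := Nat.exists_eq_succ_of_ne_zero hj0
      have hi' : (b ^ i) *ᵥ v ≠ 0 := Nat.find_min hex (by omega)
      have hmemC : ∀ i : ℕ, (b ^ i) *ᵥ v ∈ C := by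
        intro i
        induction i with
        | zero => rw [pow_zero, Matrix.one_mulVec]; exact hv
        | succ i ih2 =>
          rw [pow_succ', ← Matrix.mulVec_mulVec]
          exact hC b hbN _ ih2
      refine ⟨(b ^ i) *ᵥ v, hmemC i, hi', fun a ha => ?_⟩
      rcases Finset.mem_insert.1 ha with rfl | ha
      · rw [Matrix.mulVec_mulVec, ← pow_succ', ← Nat.succ_eq_add_one, ← hi]
        exact hj
      · have h1 : Commute a (b ^ i) :=
          (show Commute a b from hcomm a (hs a (Finset.mem_insert_of_mem ha)) b hbN).pow_right i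
        rw [Matrix.mulVec_mulVec, h1.eq, ← Matrix.mulVec_mulVec, hvs a ha, Matrix.mulVec_zero]
  obtain ⟨s, hs⟩ := (IsNoetherian.noetherian N : N.FG)
  obtain ⟨v, hv, hv0, hvs⟩ := key s fun a ha => by
    rw [← hs]
    exact Submodule.subset_span ha
  refine ⟨v, hv, hv0, fun B hB => ?_⟩
  rw [← hs] at hB
  induction hB using Submodule.span_induction with
  | mem a ha => exact hvs a ha
  | zero => rw [Matrix.zero_mulVec]
  | add x y _ _ hx hy => rw [Matrix.add_mulVec, hx, hy, add_zero]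
  | smul c x _ hx => rw [Matrix.smul_mulVec, hx, smul_zero]

/-- If `S = [Y, X]` commutes with `X` then `S` is nilpotent. -/
lemma nilp_of_comm {X Y : MM n} (h : (Y * X - X * Y) * X = X * (Y * X - X * Y)) :
    IsNilpotent (Y * X - X * Y) := by
  set S := Y * X - X * Y with hS
  apply isNilpotent_of_trace
  intro k
  have h1 : Commute (S ^ k) X := (show Commute S X from h).pow_left k
  have h2 : S ^ (k + 1) = S ^ k * (Y * X) - S ^ k * (X * Y) := by
    rw [pow_succ, ← mul_sub]
  rw [h2, Matrix.trace_sub]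
  have h3 : (S ^ k * (X * Y)).trace = (S ^ k * (Y * X)).trace := by
    rw [← mul_assoc, h1.eq, mul_assoc, Matrix.trace_mul_comm, mul_assoc]
  rw [h3, sub_self]

/-- A commutative ideal of `W` is central in `W`. -/
theorem ideal_central (h : rd W = ⊥) {I : Submodule ℝ (MM n)} (hIW : I ≤ W)
    (hI : ∀ Y ∈ W, ∀ X ∈ I, Y * X - X * Y ∈ I) (hcomm : ∀ a ∈ I, ∀ b ∈ I, a * b = b * a) :
    ∀ Y ∈ W, ∀ X ∈ I, Y * X = X * Y := by
  set D : Submodule ℝ (MM n) := Submodule.span ℝ {C | ∃ Y ∈ W, ∃ X ∈ I, C = Y * X - X * Y} with hD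
  have hDI : D ≤ I := by
    rw [hD, Submodule.span_le]
    rintro _ ⟨Y, hY, X, hX, rfl⟩
    exact hI Y hY X hX
  have hDc : ∀ a ∈ D, ∀ b ∈ D, a * b = b * a := fun a ha b hb => hcomm a (hDI ha) b (hDI hb)
  have hDn : ∀ a ∈ D, IsNilpotent a := by
    intro a ha
    rw [hD] at ha
    induction ha using Submodule.span_induction with
    | mem a ha =>
      obtain ⟨Y, hY, X, hX, rfl⟩ := ha
      exact nilp_of_comm (hcomm _ (hI Y hY X hX) X hX)
    | zero => exact IsNilpotent.zero
    | add x y hx hy h1 h2 =>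
      exact (show Commute x y from hDc x hx y hy).isNilpotent_add h1 h2
    | smul c x _ h1 => exact h1.smul c
  have hDbot : D = ⊥ := by
    refine eq_bot_of_killed h ?_ ?_
    · intro A hA v hv B hB
      have h1 : B *ᵥ (A *ᵥ v) = A *ᵥ (B *ᵥ v) - (A * B - B * A) *ᵥ v := by
        rw [Matrix.sub_mulVec, Matrix.mulVec_mulVec, Matrix.mulVec_mulVec]
        abel
      have h2 : A * B - B * A ∈ D := Submodule.subset_span ⟨A, hA, B, hDI hB, rfl⟩
      rw [h1, hv B hB, hv _ h2, Matrix.mulVec_zero, sub_zero]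
    · intro C hC hC0
      exact exists_killed_comm hDc hDn (fun a ha v hv => hC a (hIW (hDI ha)) v hv) hC0
  intro Y hY X hX
  have h1 : Y * X - X * Y ∈ D := Submodule.subset_span ⟨Y, hY, X, hX, rfl⟩
  rw [hDbot, Submodule.mem_bot] at h1
  exact sub_eq_zero.1 h1

/-- A central element of `W` which is a sum of brackets is zero. -/
theorem central_bracket (h : rd W = ⊥) (hW : ∀ A ∈ W, ∀ B ∈ W, A * B - B * A ∈ W) {X : MM n}
    (hX : X ∈ br W) (hc : ∀ Y ∈ W, Y * X = X * Y) : X = 0 := by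
  have hbrW : br W ≤ W := by
    rw [br, Submodule.span_le]
    rintro _ ⟨A, hA, B, hB, rfl⟩
    exact hW A hA B hB
  have hnil : IsNilpotent X := by
    apply isNilpotent_of_trace
    intro k
    have hck : ∀ Y ∈ W, Y * X ^ k = X ^ k * Y := fun Y hY =>
      ((show Commute Y X from hc Y hY).pow_right k).eq
    have h1 : ∀ Z ∈ br W, (Z * X ^ k).trace = 0 := by
      intro Z hZ
      rw [br] at hZ
      induction hZ using Submodule.span_induction with
      | mem Z hZ =>
        obtain ⟨A, hA, B, hB, rfl⟩ := hZ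
        rw [sub_mul, Matrix.trace_sub, mul_assoc, hck B hB, ← mul_assoc, Matrix.trace_mul_comm,
          mul_assoc B A, ← mul_assoc, sub_self]
      | zero => rw [zero_mul, Matrix.trace_zero]
      | add x y _ _ hx hy => rw [add_mul, Matrix.trace_add, hx, hy, add_zero]
      | smul c x _ hx => rw [smul_mul_assoc, Matrix.trace_smul, hx, smul_zero]
    rw [pow_succ']
    exact h1 X hX
  have h2 := mem_rd_of_central (le_alg W (hbrW hX)) hc hnil
  rw [h, Submodule.mem_bot] at h2
  exact h2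

/-- The algebra generated by the brackets also has a nondegenerate trace form. -/
theorem rd_br (h : rd W = ⊥) (hW : ∀ A ∈ W, ∀ B ∈ W, A * B - B * A ∈ W) : rd (br W) = ⊥ := by
  have hbrW : br W ≤ W := by
    rw [br, Submodule.span_le]
    rintro _ ⟨A, hA, B, hB, rfl⟩
    exact hW A hA B hB
  have halg : alg (br W) ≤ alg W := fun A hA => Algebra.adjoin_mono hbrW hA
  -- `ad Y` preserves the algebra generated by the brackets
  have had : ∀ Y ∈ W, ∀ A ∈ alg (br W), Y * A - A * Y ∈ alg (br W) := by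
    intro Y hY A hA
    rw [mem_alg] at hA
    induction hA using Algebra.adjoin_induction with
    | mem A hA => exact le_alg _ (mul_sub_mem_br hY (hbrW hA))
    | algebraMap r =>
      rw [← Algebra.commutes, sub_self]
      exact (alg (br W)).zero_mem
    | add A B _ _ h1 h2 =>
      have := (alg (br W)).add_mem h1 h2
      convert this using 1
      noncomm_ring
    | mul A B hA hB h1 h2 =>
      have := (alg (br W)).add_mem (mul_mem_alg h1 (mem_alg.2 hB)) (mul_mem_alg (mem_alg.2 hA) h2)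
      convert this using 1
      noncomm_ring
  have hadr : ∀ Y ∈ W, ∀ A ∈ rd (br W), Y * A - A * Y ∈ rd (br W) := by
    intro Y hY A hA
    rw [mem_rd] at hA ⊢
    refine ⟨had Y hY A hA.1, fun a ha => ?_⟩
    have h1 := hA.2 _ (had Y hY a ha)
    have h2 : (a * (Y * A - A * Y)).trace = -((Y * a - a * Y) * A).trace := by
      rw [mul_sub, sub_mul, Matrix.trace_sub, Matrix.trace_sub, ← mul_assoc a A Y,
        Matrix.trace_mul_comm (a * A) Y, ← mul_assoc, ← mul_assoc]
      ring
    rw [h2, h1, neg_zero]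
  refine eq_bot_of_killed h ?_ ?_
  · intro A hA v hv B hB
    have h1 : B *ᵥ (A *ᵥ v) = A *ᵥ (B *ᵥ v) - (A * B - B * A) *ᵥ v := by
      rw [Matrix.sub_mulVec, Matrix.mulVec_mulVec, Matrix.mulVec_mulVec]
      abel
    rw [h1, hv B hB, hv _ (hadr A hA B hB), Matrix.mulVec_zero, sub_zero]
  · intro C hC hC0
    obtain ⟨v, hv, hv0, hvk⟩ := exists_killed (N := rd (br W))
      (fun a ha b hb => mul_mem_rd_left ha.1 hb) (fun a ha => rd_nilp ha)
      (fun a ha v hv => alg_mulVec_mem hC (halg ha.1) v hv) hC0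
    exact ⟨v, hv, hv0, hvk⟩

end Pool.Agent.Lib.MP_aa9b81_an.N
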