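import Mathlib

/-!
Whitehead's first lemma: the first cohomology of a semisimple Lie algebra over a field of
characteristic zero with values in a finite-dimensional module vanishes.
-/

set_option autoImplicit false
set_option linter.unusedSectionVars false
set_option maxHeartbeats 4000000

open Module LieAlgebra LieModule

namespace Pool.Agent.Lib.MP_aa9b81_an.N

variable {k L : Type*} [Field k] [CharZero k] [LieRing L] [LieAlgebra k L] [FiniteDimensional k L]
  [HasTrivialRadical k L]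

/-- A linear map killing all brackets is zero. -/
lemma eq_zero_of_bracket {M : Type*} [AddCommGroup M] [Module k M] (δ : L →ₗ[k] M)
    (h : ∀ x y : L, δ ⁅x, y⁆ = 0) : δ = 0 := by
  apply LinearMap.ext
  intro a
  by_contra ha
  obtain ⟨φ, hφ⟩ : ∃ φ : M →ₗ[k] k, φ (δ a) ≠ 0 := by
    by_contra hcon
    push Not at hcon
    exact ha ((Module.forall_dual_apply_eq_zero_iff k (δ a)).1 hcon)
  have hnd := IsKilling.killingForm_nondegenerate k L
  let f : L →ₗ[k] k := φ ∘ₗ δ
  obtain ⟨z, hz⟩ : ∃ z : L, killingForm k L z = f := by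
    have := (LinearMap.BilinForm.toDual (killingForm k L) hnd).surjective f
    obtain ⟨z, hz⟩ := this
    exact ⟨z, hz⟩
  have hzc : ∀ x : L, ⁅z, x⁆ = 0 := by
    intro x
    apply hnd.1
    intro y
    have h1 : killingForm k L ⁅z, x⁆ y = killingForm k L z ⁅x, y⁆ :=
      traceForm_apply_lie_apply k L L z x y
    rw [h1, hz]
    change φ (δ ⁅x, y⁆) = 0
    rw [h, map_zero]
  have hz0 : z = 0 := by
    have : z ∈ LieAlgebra.center k L := by
      rw [LieModule.mem_maxTrivSubmodule]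
      intro x
      rw [← lie_skew, hzc, neg_zero]
    rw [LieAlgebra.center_eq_bot, LieSubmodule.mem_bot] at this
    exact this
  apply hφ
  have : f a = 0 := by
    rw [← hz, hz0, map_zero]
    rfl
  exact this

section Irr

variable {M : Type*} [AddCommGroup M] [Module k M] [LieRingModule L M] [LieModule k L M]
  [FiniteDimensional k M]

/-- The annihilator of the module. -/
def annM (k L M : Type*) [Field k] [LieRing L] [LieAlgebra k L] [AddCommGroup M] [Module k M]
    [LieRingModule L M] [LieModule k L M] : LieIdeal k L where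
  carrier := {x | ∀ m : M, ⁅x, m⁆ = 0}
  zero_mem' := fun m => zero_lie m
  add_mem' := fun {x y} hx hy m => by rw [add_lie, hx m, hy m, add_zero]
  smul_mem' := fun c x hx m => by rw [smul_lie, hx m, smul_zero]
  lie_mem := fun {x y} hy m => by
    change ⁅⁅x, y⁆, m⁆ = 0
    rw [lie_lie, hy m, hy ⁅x, m⁆, lie_zero, sub_zero]

lemma mem_annM {x : L} : x ∈ annM k L M ↔ ∀ m : M, ⁅x, m⁆ = 0 := Iff.rfl

/-- The radical of the trace form on an ideal. -/
def radI (I : LieIdeal k L) (M : Type*) [AddCommGroup M] [Module k M]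
    [LieRingModule L M] [LieModule k L M] : LieIdeal k L where
  carrier := {x | x ∈ I ∧ ∀ y ∈ I, traceForm k L M x y = 0}
  zero_mem' := ⟨I.zero_mem, fun y _ => by simp⟩
  add_mem' := fun {x y} hx hy => ⟨I.add_mem hx.1 hy.1, fun z hz => by
    rw [map_add, LinearMap.add_apply, hx.2 z hz, hy.2 z hz, add_zero]⟩
  smul_mem' := fun c x hx => ⟨I.smul_mem c hx.1, fun z hz => by
    rw [map_smul, LinearMap.smul_apply, hx.2 z hz, smul_zero]⟩
  lie_mem := fun {x y} hy => ⟨lie_mem_right k L I x y hy.1, fun z hz => by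
    have h1 : ⁅x, y⁆ = -⁅y, x⁆ := (lie_skew _ _).symm
    rw [h1, map_neg, LinearMap.neg_apply, traceForm_apply_lie_apply, hy.2 _
      (lie_mem_right k L I x z hz), neg_zero]⟩

lemma mem_radI {I : LieIdeal k L} {x : L} :
    x ∈ radI I M ↔ x ∈ I ∧ ∀ y ∈ I, traceForm k L M x y = 0 := Iff.rfl

/-- The trace form is nondegenerate on a complement of the annihilator of an irreducible
module. -/
lemma radI_eq_bot (hirr : ∀ N : LieSubmodule k L M, N = ⊥ ∨ N = ⊤) [Nontrivial M]
    {I : LieIdeal k L} (hI : Disjoint (annM k L M) I) : radI I M = ⊥ := by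
  set R := radI I M with hR
  -- the trace form of `R` vanishes
  have htf : traceForm k R M = 0 := by
    ext x y
    have h1 : traceForm k R M x y = traceForm k L M x y := rfl
    rw [h1]
    exact (mem_radI.1 x.2).2 y (mem_radI.1 y.2).1
  have hnil : LieModule.IsNilpotent (derivedSeries k R 1) M :=
    isNilpotent_derivedSeries_of_traceForm_eq_zero htf
  -- the vectors killed by all brackets
  let T : LieSubmodule k L M :=
    { carrier := {m | ∀ a ∈ R, ∀ b ∈ R, ⁅⁅a, b⁆, m⁆ = 0}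
      zero_mem' := fun a _ b _ => lie_zero _
      add_mem' := fun {m m'} hm hm' a ha b hb => by
        rw [lie_add, hm a ha b hb, hm' a ha b hb, add_zero]
      smul_mem' := fun c m hm a ha b hb => by rw [lie_smul, hm a ha b hb, smul_zero]
      lie_mem := fun {x m} hm a ha b hb => by
        have h1 : ⁅x, a⁆ ∈ R := lie_mem_right k L R x a ha
        have h2 : ⁅x, b⁆ ∈ R := lie_mem_right k L R x b hb
        have h3 : ⁅⁅a, b⁆, ⁅x, m⁆⁆ = ⁅x, ⁅⁅a, b⁆, m⁆⁆ - ⁅⁅x, ⁅a, b⁆⁆, m⁆ := by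
          rw [lie_lie x ⁅a, b⁆ m]
          abel
        have h4 : ⁅x, ⁅a, b⁆⁆ = ⁅⁅x, a⁆, b⁆ + ⁅a, ⁅x, b⁆⁆ := leibniz_lie x a b
        change ⁅⁅a, b⁆, ⁅x, m⁆⁆ = 0
        rw [h3, h4, add_lie, hm a ha b hb, hm _ h1 b hb, hm a ha _ h2, lie_zero, add_zero,
          sub_zero] }
  have hT : T ≠ ⊥ := by
    have hnt := LieModule.nontrivial_max_triv_of_isNilpotent k (derivedSeries k R 1) M
    obtain ⟨⟨m, hm⟩, hm0⟩ := exists_ne (0 : maxTrivSubmodule k (derivedSeries k R 1) M)
    intro hbot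
    apply hm0
    have hmT : m ∈ T := by
      intro a ha b hb
      have h1 : (⁅(⟨a, ha⟩ : R), (⟨b, hb⟩ : R)⁆ : R) ∈ derivedSeries k R 1 := by
        rw [derivedSeries_def, derivedSeriesOfIdeal_succ, derivedSeriesOfIdeal_zero]
        exact LieSubmodule.lie_mem_lie (LieSubmodule.mem_top _) (LieSubmodule.mem_top _)
      have h2 := (mem_maxTrivSubmodule k (derivedSeries k R 1) M m).1 hm ⟨_, h1⟩
      exact h2
    rw [hbot, LieSubmodule.mem_bot] at hmT
    exact Subtype.ext hmT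
  have hT' : T = ⊤ := (hirr T).resolve_left hT
  -- so `R` is abelian
  have hab : ∀ a ∈ R, ∀ b ∈ R, ⁅a, b⁆ = 0 := by
    intro a ha b hb
    have h1 : ⁅a, b⁆ ∈ annM k L M := by
      intro m
      have hm : m ∈ T := by rw [hT']; exact LieSubmodule.mem_top m
      exact hm a ha b hb
    have h2 : ⁅a, b⁆ ∈ I := lie_mem_right k L I a b (mem_radI.1 hb).1
    have h3 : ⁅a, b⁆ ∈ annM k L M ⊓ I := ⟨h1, h2⟩
    rw [hI.eq_bot, LieSubmodule.mem_bot] at h3
    exact h3
  have hR2 : IsLieAbelian R := by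
    constructor
    rintro ⟨a, ha⟩ ⟨b, hb⟩
    apply Subtype.ext
    exact hab a ha b hb
  exact (hasTrivialRadical_iff_no_abelian_ideals k L).1 inferInstance R hR2

/-- Whitehead's lemma for an irreducible module with nontrivial action. -/
theorem whitehead_irr (hirr : ∀ N : LieSubmodule k L M, N = ⊥ ∨ N = ⊤) [Nontrivial M]
    (hnt : ∃ (x : L) (m : M), ⁅x, m⁆ ≠ 0) (δ : L →ₗ[k] M)
    (hδ : ∀ x y, δ ⁅x, y⁆ = ⁅x, δ y⁆ - ⁅y, δ x⁆) : ∃ m : M, ∀ x, δ x = ⁅x, m⁆ := by
  obtain ⟨I, hI⟩ : ∃ I : LieIdeal k L, IsCompl (annM k L M) I :=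
    ⟨(annM k L M)ᶜ, isCompl_compl⟩
  have hrad := radI_eq_bot hirr hI.disjoint
  -- the trace form on `I`
  let B : LinearMap.BilinForm k I := (traceForm k L M).restrict I.toSubmodule
  have hBap : ∀ x y : I, B x y = traceForm k L M x y := fun x y => rfl
  have hBsymm : B.IsSymm := ⟨fun x y => traceForm_comm k L M x y⟩
  have hBnd : B.Nondegenerate := by
    refine hBsymm.isRefl.nondegenerate_iff_separatingLeft.2 ?_
    intro x hx
    have h1 : (x : L) ∈ radI I M := ⟨x.2, fun y hy => hx ⟨y, hy⟩⟩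
    rw [hrad, LieSubmodule.mem_bot] at h1
    exact Subtype.ext h1
  have hIne : I ≠ ⊥ := by
    rintro rfl
    obtain ⟨x, m, hxm⟩ := hnt
    apply hxm
    have h1 : annM k L M = ⊤ := by simpa using hI.sup_eq_top
    have h2 : x ∈ annM k L M := by rw [h1]; exact LieSubmodule.mem_top x
    exact h2 m
  let b := Module.finBasis k I
  let b' := B.dualBasis hBnd b
  -- coordinates
  have hc1 : ∀ v : I, v = ∑ j, B v (b' j) • b j := by
    intro v
    conv_lhs => rw [← b.sum_repr v]
    apply Finset.sum_congr rfl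
    intro j _
    congr 1
    have : ∀ i, B (b i) (b' j) = if i = j then 1 else 0 := fun i =>
      LinearMap.BilinForm.apply_dualBasis_right hBnd hBsymm b i j
    conv_rhs => rw [← b.sum_repr v]
    rw [map_sum, LinearMap.sum_apply]
    simp only [map_smul, LinearMap.smul_apply, this, smul_eq_mul, mul_ite, mul_one, mul_zero]
    rw [Finset.sum_ite_eq' Finset.univ j]
    simp
  have hc2 : ∀ v : I, v = ∑ j, B v (b j) • b' j := by
    intro v
    conv_lhs => rw [← b'.sum_repr v]
    apply Finset.sum_congr rfl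
    intro j _
    congr 1
    exact LinearMap.BilinForm.dualBasis_repr_apply hBnd b v j
  -- the bracket of `L` on `I`
  have hinv : ∀ (z : L) {N : Type _} [AddCommGroup N] [Module k N] (F : I →ₗ[k] I →ₗ[k] N),
      ∑ i, (F ⁅z, b i⁆ (b' i) + F (b i) ⁅z, b' i⁆) = 0 := by
    intro z N _ _ F
    have h1 : ∑ i, F ⁅z, b i⁆ (b' i) = ∑ i, ∑ j, B ⁅z, b i⁆ (b' j) • F (b j) (b' i) := by
      apply Finset.sum_congr rfl
      intro i _
      conv_lhs => rw [hc1 ⁅z, b i⁆]
      rw [map_sum, LinearMap.sum_apply]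
      simp
    have h2 : ∑ i, F (b i) ⁅z, b' i⁆ = ∑ i, ∑ j, B ⁅z, b' i⁆ (b j) • F (b i) (b' j) := by
      apply Finset.sum_congr rfl
      intro i _
      conv_lhs => rw [hc2 ⁅z, b' i⁆]
      rw [map_sum]
      simp
    rw [Finset.sum_add_distrib, h1, h2, Finset.sum_comm (f := fun i j =>
      B ⁅z, b' i⁆ (b j) • F (b i) (b' j)), ← Finset.sum_add_distrib]
    apply Finset.sum_eq_zero
    intro i _
    rw [← Finset.sum_add_distrib]
    apply Finset.sum_eq_zero
    intro j _
    have h3 : B ⁅z, b i⁆ (b' j) = - B ⁅z, b' j⁆ (b i) := by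
      rw [hBap, hBap]
      have e1 : ((⁅z, b i⁆ : I) : L) = -⁅(b i : L), z⁆ := by
        rw [lie_skew]
        rfl
      have e2 : ((⁅z, b' j⁆ : I) : L) = ⁅z, (b' j : L)⁆ := rfl
      rw [e1, e2, map_neg, LinearMap.neg_apply, traceForm_apply_lie_apply,
        traceForm_comm k L M ⁅z, (b' j : L)⁆]
    rw [h3, neg_smul, neg_add_cancel]
  -- the Casimir operator
  let Ω : M →ₗ[k] M := ∑ i, (toEnd k L M (b i)) ∘ₗ (toEnd k L M (b' i))
  have hΩ : ∀ m, Ω m = ∑ i, ⁅(b i : L), ⁅(b' i : L), m⁆⁆ := by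
    intro m
    simp [Ω]
  let F : M →ₗ[k] (I →ₗ[k] I →ₗ[k] M) :=
    { toFun := fun m => LinearMap.mk₂ k (fun x y : I => ⁅(x : L), ⁅(y : L), m⁆⁆)
        (fun x x' y => by simp) (fun c x y => by simp) (fun x y y' => by simp)
        (fun c x y => by simp)
      map_add' := fun m m' => by ext x y; simp
      map_smul' := fun c m => by ext x y; simp }
  have hcomm : ∀ (z : L) (m : M), Ω ⁅z, m⁆ = ⁅z, Ω m⁆ := by
    intro z m
    rw [hΩ, hΩ, lie_sum]
    have h1 := hinv z (F m)
    have h2 : ∀ i, ⁅z, ⁅(b i : L), ⁅(b' i : L), m⁆⁆⁆ =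
        (F m ⁅z, b i⁆ (b' i) + F m (b i) ⁅z, b' i⁆) + ⁅(b i : L), ⁅(b' i : L), ⁅z, m⁆⁆⁆ := by
      intro i
      have e1 : F m ⁅z, b i⁆ (b' i) = ⁅⁅z, (b i : L)⁆, ⁅(b' i : L), m⁆⁆ := rfl
      have e2 : F m (b i) ⁅z, b' i⁆ = ⁅(b i : L), ⁅⁅z, (b' i : L)⁆, m⁆⁆ := rfl
      rw [e1, e2, leibniz_lie z (b i : L), leibniz_lie z (b' i : L) m, lie_add]
      abel
    rw [Finset.sum_congr rfl fun i _ => h2 i, Finset.sum_add_distrib, h1, zero_add]
  have htr : LinearMap.trace k M Ω = finrank k I := by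
    simp only [Ω, map_sum]
    have h1 : ∀ i, LinearMap.trace k M ((toEnd k L M (b i)) ∘ₗ (toEnd k L M (b' i))) = 1 := by
      intro i
      rw [← traceForm_apply_apply]
      have := LinearMap.BilinForm.apply_dualBasis_right hBnd hBsymm b i i
      rw [if_pos rfl] at this
      exact this
    rw [Finset.sum_congr rfl fun i _ => h1 i]
    simp
  -- its kernel
  let N : LieSubmodule k L M :=
    { LinearMap.ker Ω with
      lie_mem := fun {x m} hm => by
        have hm' : Ω m = 0 := hm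
        change Ω ⁅x, m⁆ = 0
        rw [hcomm, hm', lie_zero] }
  have hfr : finrank k I ≠ 0 := by
    intro h0
    apply hIne
    have : I.toSubmodule = ⊥ := Submodule.finrank_eq_zero.1 h0
    exact (LieSubmodule.toSubmodule_eq_bot I).1 this
  have hN : N = ⊥ := by
    rcases hirr N with h | h
    · exact h
    · exfalso
      have h1 : Ω = 0 := by
        apply LinearMap.ext
        intro m
        have : m ∈ N := by rw [h]; exact LieSubmodule.mem_top m
        exact this
      rw [h1, map_zero] at htr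
      exact hfr (by exact_mod_cast htr.symm)
  have hinj : Function.Injective Ω := by
    rw [← LinearMap.ker_eq_bot]
    have : N.toSubmodule = ⊥ := by rw [hN]; rfl
    exact this
  have hsurj : Function.Surjective Ω := LinearMap.injective_iff_surjective.1 hinj
  -- the primitive
  let D : I →ₗ[k] I →ₗ[k] M := LinearMap.mk₂ k (fun x y : I => ⁅(x : L), δ (y : L)⁆)
        (fun x x' y => by simp) (fun c x y => by simp) (fun x y y' => by simp)
        (fun c x y => by simp)
  obtain ⟨m, hm⟩ := hsurj (∑ i, ⁅(b i : L), δ (b' i : L)⁆)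
  refine ⟨m, fun z => hinj ?_⟩
  rw [hcomm, hm, lie_sum, hΩ]
  have h1 := hinv z D
  have h2 : ∀ i, ⁅z, ⁅(b i : L), δ (b' i : L)⁆⁆ =
      (D ⁅z, b i⁆ (b' i) + D (b i) ⁅z, b' i⁆) + ⁅(b i : L), ⁅(b' i : L), δ z⁆⁆ := by
    intro i
    have e1 : D ⁅z, b i⁆ (b' i) = ⁅⁅z, (b i : L)⁆, δ (b' i : L)⁆ := rfl
    have e2 : D (b i) ⁅z, b' i⁆ = ⁅(b i : L), δ ⁅z, (b' i : L)⁆⁆ := rfl
    rw [e1, e2, hδ, leibniz_lie z (b i : L), lie_sub]
    abel
  rw [Finset.sum_congr rfl fun i _ => h2 i, Finset.sum_add_distrib, h1, zero_add]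

end Irr

/-- **Whitehead's first lemma.** -/
theorem whitehead : ∀ (d : ℕ) {M : Type*} [AddCommGroup M] [Module k M] [LieRingModule L M]
    [LieModule k L M] [FiniteDimensional k M] (_ : finrank k M = d) (δ : L →ₗ[k] M)
    (_ : ∀ x y, δ ⁅x, y⁆ = ⁅x, δ y⁆ - ⁅y, δ x⁆), ∃ m : M, ∀ x, δ x = ⁅x, m⁆ := by
  intro d
  induction d using Nat.strong_induction_on with
  | _ d ih =>
    intro M _ _ _ _ _ hd δ hδ
    by_cases hred : ∃ N : LieSubmodule k L M, N ≠ ⊥ ∧ N ≠ ⊤
    · obtain ⟨N, hN1, hN2⟩ := hred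
      have hN1' : N.toSubmodule ≠ ⊥ := fun h => hN1 ((LieSubmodule.toSubmodule_eq_bot N).1 h)
      have hN2' : N.toSubmodule ≠ ⊤ := fun h => hN2 ((LieSubmodule.toSubmodule_eq_top N).1 h)
      have hfrN : finrank k N < d := by
        rw [← hd]
        exact Submodule.finrank_lt hN2'
      have hfrQ : finrank k (M ⧸ N) < d := by
        rw [← hd]
        have h1 : finrank k (M ⧸ N) + finrank k N = finrank k M :=
          Submodule.finrank_quotient_add_finrank N.toSubmodule
        have h2 : finrank k N ≠ 0 := fun h => hN1' (Submodule.finrank_eq_zero.1 h)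
        omega
      let p := LieSubmodule.Quotient.mk' N
      obtain ⟨mbar, hmbar⟩ := ih _ hfrQ (M := M ⧸ N) rfl ((p : M →ₗ[k] M ⧸ N) ∘ₗ δ) (by
        intro x y
        change p (δ ⁅x, y⁆) = ⁅x, p (δ y)⁆ - ⁅y, p (δ x)⁆
        rw [hδ, map_sub, LieModuleHom.map_lie, LieModuleHom.map_lie])
      obtain ⟨m, rfl⟩ := LieSubmodule.Quotient.surjective_mk' N mbar
      have hmem : ∀ x, δ x - ⁅x, m⁆ ∈ N.toSubmodule := by
        intro x
        have h1 : p (δ x) = ⁅x, p m⁆ := hmbar x
        have h2 : p (δ x - ⁅x, m⁆) = 0 := by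
          rw [map_sub, LieModuleHom.map_lie, h1, sub_self]
        exact (LieSubmodule.Quotient.mk_eq_zero' (N := N)).1 h2
      let act : L →ₗ[k] M := (LieModule.toEnd k L M : L →ₗ[k] End k M).flip m
      have hact : ∀ x, act x = ⁅x, m⁆ := fun x => rfl
      let δ' : L →ₗ[k] N := LinearMap.codRestrict N.toSubmodule (δ - act) hmem
      have hδ' : ∀ x, (δ' x : M) = δ x - ⁅x, m⁆ := fun x => rfl
      obtain ⟨m', hm'⟩ := ih _ hfrN (M := N) rfl δ' (by
        intro x y
        apply Subtype.ext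
        have e1 : ((⁅x, δ' y⁆ - ⁅y, δ' x⁆ : N) : M) = ⁅x, (δ' y : M)⁆ - ⁅y, (δ' x : M)⁆ := rfl
        rw [e1, hδ', hδ', hδ', hδ, lie_sub, lie_sub, lie_lie]
        abel)
      refine ⟨m + m', fun x => ?_⟩
      have h1 : (δ' x : M) = ⁅x, (m' : M)⁆ := congrArg Subtype.val (hm' x)
      rw [hδ', sub_eq_iff_eq_add] at h1
      rw [h1, lie_add]
      abel
    · have hirr : ∀ N : LieSubmodule k L M, N = ⊥ ∨ N = ⊤ := by
        intro N
        by_contra hcon
        push Not at hcon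
        exact hred ⟨N, hcon.1, hcon.2⟩
      by_cases hnt : ∃ (x : L) (m : M), ⁅x, m⁆ ≠ 0
      · haveI : Nontrivial M := by
          obtain ⟨x, m, hxm⟩ := hnt
          exact ⟨⟨_, _, hxm⟩⟩
        exact whitehead_irr hirr hnt δ hδ
      · push Not at hnt
        have h0 : δ = 0 := eq_zero_of_bracket δ fun x y => by
          rw [hδ, hnt, hnt, sub_zero]
        refine ⟨0, fun x => ?_⟩
        rw [h0, lie_zero]
        rfl

end Pool.Agent.Lib.MP_aa9b81_an.N
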