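import Mathlib
import Pool.Agent.Lib.MP_aa9b81_an.NSemi
import Pool.Agent.Lib.MP_aa9b81_an.NWh

/-!
Semisimplicity of the derived algebra and vanishing of the cohomology.
-/

set_option autoImplicit false
set_option linter.unusedSectionVars false
set_option maxHeartbeats 4000000

open Matrix Module LieAlgebra

namespace Pool.Agent.Lib.MP_aa9b81_an.N

attribute [local instance 100] LieRing.ofAssociativeRing

variable {n : ℕ} [NeZero n] {W : Submodule ℝ (MM n)}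

/-- The Lie subalgebra with a given carrier. -/
def lsub (W : Submodule ℝ (MM n)) (hW : ∀ A ∈ W, ∀ B ∈ W, A * B - B * A ∈ W) :
    LieSubalgebra ℝ (MM n) :=
  { W with lie_mem' := fun {A B} hA hB => hW A hA B hB }

lemma br_closed (hW : ∀ A ∈ W, ∀ B ∈ W, A * B - B * A ∈ W) :
    ∀ A ∈ br W, ∀ B ∈ br W, A * B - B * A ∈ br W := by
  have hbrW : br W ≤ W := by
    rw [br, Submodule.span_le]
    rintro _ ⟨A, hA, B, hB, rfl⟩
    exact hW A hA B hB
  exact fun A hA B hB => mul_sub_mem_br (hbrW hA) (hbrW hB)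

/-- The derived algebra has no nonzero commutative ideal. -/
theorem ideal_eq_bot (h : rd W = ⊥) (hW : ∀ A ∈ W, ∀ B ∈ W, A * B - B * A ∈ W)
    {I : Submodule ℝ (MM n)} (hI'br : I ≤ br W) (hid : ∀ Y ∈ br W, ∀ X ∈ I, Y * X - X * Y ∈ I)
    (hcomm : ∀ a ∈ I, ∀ b ∈ I, a * b = b * a) : I = ⊥ := by
  have hbrW : br W ≤ W := by
    rw [br, Submodule.span_le]
    rintro _ ⟨A, hA, B, hB, rfl⟩
    exact hW A hA B hB
  have hc1 := ideal_central (rd_br h hW) hI'br hid hcomm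
  -- the centre of the derived algebra
  have hZ : cg (br W) (br W) ≤ W := fun A hA => hbrW hA.1
  have hc2 := ideal_central h hZ (I := cg (br W) (br W)) (by
    intro Y hY X hX
    refine ⟨mul_sub_mem_br hY (hbrW hX.1), fun B hB => ?_⟩
    have h1 : X * B = B * X := hX.2 B hB
    have h2 : X * (Y * B - B * Y) = (Y * B - B * Y) * X := hX.2 _ (mul_sub_mem_br hY (hbrW hB))
    have h3 : (Y * X - X * Y) * B - B * (Y * X - X * Y) =
        Y * (X * B) - X * (Y * B) - (B * Y) * X + (B * X) * Y := by noncomm_ring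
    have h4 : X * (Y * B) - X * (B * Y) = Y * B * X - B * Y * X := by
      rw [mul_sub, sub_mul] at h2
      exact h2
    rw [← sub_eq_zero, h3, h1, ← h1]
    have h5 : Y * (X * B) = Y * (B * X) := by rw [h1]
    rw [h5]
    have h6 : X * B * Y = X * (B * Y) := mul_assoc _ _ _
    rw [h6]
    have h7 : Y * (B * X) = Y * B * X := (mul_assoc _ _ _).symm
    rw [h7]
    have : X * (Y * B) = X * (B * Y) + (Y * B * X - B * Y * X) := by rw [← h4]; abel
    rw [this]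
    abel) (fun a ha b hb => ha.2 b hb.1)
  rw [Submodule.eq_bot_iff]
  intro x hxI'
  have hxZ : x ∈ cg (br W) (br W) := ⟨hI'br hxI', fun B hB => (hc1 B hB _ hxI').symm⟩
  exact central_bracket h hW (hI'br hxI') (fun Y hY => hc2 Y hY _ hxZ)

theorem trivialRadical_br (h : rd W = ⊥) (hW : ∀ A ∈ W, ∀ B ∈ W, A * B - B * A ∈ W) :
    HasTrivialRadical ℝ (lsub (br W) (br_closed hW)) := by
  rw [hasTrivialRadical_iff_no_abelian_ideals]
  generalize hL : lsub (br W) (br_closed hW) = L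
  have hLmem : ∀ A, A ∈ L ↔ A ∈ br W := by
    intro A
    rw [← hL]
    exact Iff.rfl
  intro I hI
  let I' : Submodule ℝ (MM n) := I.toSubmodule.map L.toSubmodule.subtype
  have hI'mem : ∀ A, A ∈ I' ↔ ∃ x : L, x ∈ I ∧ (x : MM n) = A := by
    intro A
    constructor
    · rintro ⟨x, hx, rfl⟩
      exact ⟨x, hx, rfl⟩
    · rintro ⟨x, hx, rfl⟩
      exact ⟨x, hx, rfl⟩
  have hI'br : I' ≤ br W := by
    rintro _ ⟨x, -, rfl⟩
    exact (hLmem _).1 x.2
  have hcomm : ∀ a ∈ I', ∀ b ∈ I', a * b = b * a := by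
    intro a ha b hb
    obtain ⟨x, hx, rfl⟩ := (hI'mem a).1 ha
    obtain ⟨y, hy, rfl⟩ := (hI'mem b).1 hb
    have h1 : ⁅(⟨x, hx⟩ : I), (⟨y, hy⟩ : I)⁆ = 0 := trivial_lie_zero _ _ _ _
    have h2 : ⁅x, y⁆ = 0 := congrArg Subtype.val h1
    have h3 : ((⁅x, y⁆ : L) : MM n) = 0 := by rw [h2]; rfl
    have h4 : ((⁅x, y⁆ : L) : MM n) = (x : MM n) * y - y * x := rfl
    rw [h4] at h3
    exact sub_eq_zero.1 h3
  have hid : ∀ Y ∈ br W, ∀ X ∈ I', Y * X - X * Y ∈ I' := by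
    intro Y hY X hX
    obtain ⟨x, hx, rfl⟩ := (hI'mem X).1 hX
    rw [hI'mem]
    exact ⟨⁅(⟨Y, (hLmem Y).2 hY⟩ : L), x⁆, lie_mem_right ℝ L I _ x hx, rfl⟩
  have hbot : I' = ⊥ := ideal_eq_bot h hW hI'br hid hcomm
  rw [LieSubmodule.eq_bot_iff]
  intro x hx
  have hxI' : (x : MM n) ∈ I' := (hI'mem _).2 ⟨x, hx, rfl⟩
  rw [hbot, Submodule.mem_bot] at hxI'
  exact Subtype.ext hxI'

/-- Cocycles of a subalgebra with trivial radical are inner. -/
theorem inner_of_cocycle {E S : Submodule ℝ (MM n)} (hSE : S ≤ E)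
    (hE : ∀ A ∈ E, ∀ B ∈ E, A * B - B * A ∈ E) (hS : ∀ A ∈ S, ∀ B ∈ S, A * B - B * A ∈ S)
    (hrad : HasTrivialRadical ℝ (lsub S hS)) (u : S →ₗ[ℝ] E)
    (hu : ∀ x y : S, ((x : MM n) * u y - u y * x) + ((u x : MM n) * y - y * u x) -
      u ⟨(x : MM n) * y - y * x, hS x x.2 y y.2⟩ ∈ S) :
    ∃ m : E, ∀ x : S, (u x : MM n) - ((m : MM n) * x - x * m) ∈ S := by
  set L := lsub S hS with hL
  let E' : LieSubmodule ℝ L (MM n) :=
    { E with lie_mem := fun {x A} hA => hE x (hSE x.2) A hA }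
  let S' : LieSubmodule ℝ L (MM n) :=
    { S with lie_mem := fun {x A} hA => hS x x.2 A hA }
  let N : LieSubmodule ℝ L E' := S'.comap E'.incl
  have hN : ∀ a : E', a ∈ N ↔ (a : MM n) ∈ S := fun a => Iff.rfl
  let p := LieSubmodule.Quotient.mk' N
  let uL : L →ₗ[ℝ] E' := u
  let δ : L →ₗ[ℝ] E' ⧸ N := (p : E' →ₗ[ℝ] E' ⧸ N) ∘ₗ uL
  have hδ : ∀ x y : L, δ ⁅x, y⁆ = ⁅x, δ y⁆ - ⁅y, δ x⁆ := by
    intro x y
    change p (uL ⁅x, y⁆) = ⁅x, p (uL y)⁆ - ⁅y, p (uL x)⁆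
    rw [← LieModuleHom.map_lie, ← LieModuleHom.map_lie, ← map_sub, ← sub_eq_zero, ← map_sub]
    apply (LieSubmodule.Quotient.mk_eq_zero' (N := N)).2
    rw [hN]
    have h1 := S.neg_mem (hu x y)
    convert h1 using 1
    change ((uL ⁅x, y⁆ : E') : MM n) - (((x : MM n) * (uL y : MM n) - (uL y : MM n) * x) -
      ((y : MM n) * (uL x : MM n) - (uL x : MM n) * y)) = _
    have e1 : (u ⟨(x : MM n) * y - y * x, hS x x.2 y y.2⟩ : MM n) = ((uL ⁅x, y⁆ : E') : MM n) := rfl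
    have e2 : ((uL y : E') : MM n) = (u y : MM n) := rfl
    have e3 : ((uL x : E') : MM n) = (u x : MM n) := rfl
    rw [e1, e2, e3]
    abel
  obtain ⟨mbar, hm⟩ := whitehead _ rfl δ hδ
  obtain ⟨m, rfl⟩ := LieSubmodule.Quotient.surjective_mk' N mbar
  have hall : ∀ x : L, ((uL x - ⁅x, m⁆ : E') : MM n) ∈ S := by
    intro x
    have h1 : p (uL x) = ⁅x, p m⁆ := hm x
    have h2 : p (uL x - ⁅x, m⁆) = 0 := by
      rw [map_sub, LieModuleHom.map_lie, h1, sub_self]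
    have h3 := (LieSubmodule.Quotient.mk_eq_zero' (N := N)).1 h2
    rwa [hN] at h3
  refine ⟨-(⟨m.1, m.2⟩ : E), fun x => ?_⟩
  have h3 := hall x
  convert h3 using 1
  change (u x : MM n) - (-(m : MM n) * x - x * -(m : MM n)) =
    (u x : MM n) - ((x : MM n) * m - m * x)
  congr 1
  noncomm_ring

end Pool.Agent.Lib.MP_aa9b81_an.N
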