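import Mathlib
import Pool.Agent.Lib.MP_aa9b81_an.NSemi

/-!
The toral case: centralizers of commutative semisimple subspaces.
-/

set_option autoImplicit false
set_option linter.unusedSectionVars false
set_option maxHeartbeats 4000000

open Matrix Module Polynomial

namespace Pool.Agent.Lib.MP_aa9b81_an.N

variable {n : ℕ} [NeZero n] {W : Submodule ℝ (MM n)}

lemma aeval_mem_alg {t : MM n} (ht : t ∈ W) (p : ℝ[X]) : aeval t p ∈ alg W := by
  have h1 : aeval t p ∈ Algebra.adjoin ℝ {t} := aeval_mem_adjoin_singleton ℝ t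
  exact Algebra.adjoin_mono (Set.singleton_subset_iff.2 ht) h1

lemma aeval_comm {t B : MM n} (h : t * B = B * t) (p : ℝ[X]) :
    aeval t p * B = B * aeval t p := by
  induction p using Polynomial.induction_on' with
  | add p q hp hq => rw [map_add, add_mul, mul_add, hp, hq]
  | monomial k a =>
    have h2 : Commute (t ^ k) B := (show Commute t B from h).pow_left k
    rw [aeval_monomial, mul_assoc, h2.eq, ← mul_assoc, ← mul_assoc, Algebra.commutes]

/-- Elements of a commutative subspace with vanishing radical have a separable minimal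
polynomial. -/
lemma separable_minpoly (h : rd W = ⊥) (hc : ∀ a ∈ W, ∀ b ∈ W, a * b = b * a) {t : MM n}
    (ht : t ∈ W) : (minpoly ℝ t).Separable := by
  have hp0 : minpoly ℝ t ≠ 0 := minpoly.ne_zero (Matrix.isIntegral t)
  rw [PerfectField.separable_iff_squarefree, ← isRadical_iff_squarefree_of_ne_zero hp0]
  intro k y hy
  have h1 : (aeval t y) ^ k = 0 := by
    rw [← map_pow]
    obtain ⟨z, hz⟩ := hy
    rw [hz, map_mul, minpoly.aeval, zero_mul]
  have hcen : ∀ B ∈ W, B * aeval t y = aeval t y * B := by
    intro B hB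
    exact (aeval_comm (hc t ht B hB) y).symm
  have h3 := mem_rd_of_central (aeval_mem_alg ht y) hcen ⟨k, h1⟩
  rw [h, Submodule.mem_bot] at h3
  exact minpoly.dvd ℝ t h3

lemma aeval_bracket {t X : MM n} (hY : t * (t * X - X * t) = (t * X - X * t) * t) (p : ℝ[X]) :
    aeval t p * X - X * aeval t p = aeval t (derivative p) * (t * X - X * t) := by
  set Y := t * X - X * t with hYdef
  have hcomm : ∀ q : ℝ[X], aeval t q * Y = Y * aeval t q := by
    intro q
    exact aeval_comm hY q
  have hmul : ∀ q r : ℝ[X], aeval t q * X - X * aeval t q = aeval t (derivative q) * Y →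
      aeval t r * X - X * aeval t r = aeval t (derivative r) * Y →
      aeval t (q * r) * X - X * aeval t (q * r) = aeval t (derivative (q * r)) * Y := by
    intro q r hq hr
    rw [derivative_mul, map_add, map_mul, map_mul, map_mul]
    have e1 : aeval t q * aeval t r * X - X * (aeval t q * aeval t r) =
        aeval t q * (aeval t r * X - X * aeval t r) +
          (aeval t q * X - X * aeval t q) * aeval t r := by noncomm_ring
    rw [e1, hq, hr, mul_assoc (aeval t (derivative q)) Y, ← hcomm r]
    noncomm_ring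
  have hC : ∀ a : ℝ, aeval t (C a) * X - X * aeval t (C a) = aeval t (derivative (C a)) * Y := by
    intro a
    rw [derivative_C, map_zero, zero_mul, aeval_C, Algebra.commutes, sub_self]
  have hX : aeval t (Polynomial.X : ℝ[X]) * X - X * aeval t (Polynomial.X : ℝ[X]) =
      aeval t (derivative (Polynomial.X : ℝ[X])) * Y := by
    rw [derivative_X, map_one, one_mul, aeval_X]
  induction p using Polynomial.induction_on with
  | C a => exact hC a
  | add p q hp hq =>
    rw [map_add, derivative_add, map_add, add_mul, mul_add, add_mul, ← hp, ← hq]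
    abel
  | monomial k a ih =>
    rw [pow_succ, ← mul_assoc]
    exact hmul _ _ ih hX

/-- The adjoint action of such elements is semisimple. -/
lemma bracket_eq_zero (h : rd W = ⊥) (hc : ∀ a ∈ W, ∀ b ∈ W, a * b = b * a) {t : MM n}
    (ht : t ∈ W) {X : MM n} (h2 : t * (t * X - X * t) = (t * X - X * t) * t) :
    t * X - X * t = 0 := by
  have h3 := aeval_bracket h2 (minpoly ℝ t)
  rw [minpoly.aeval, zero_mul, mul_zero, sub_zero] at h3
  obtain ⟨u, v, huv⟩ := separable_minpoly h hc ht
  have h4 : aeval t v * aeval t (derivative (minpoly ℝ t)) = 1 := by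
    have := congrArg (aeval t) huv
    rwa [map_add, map_mul, map_mul, minpoly.aeval, mul_zero, zero_add, map_one] at this
  calc t * X - X * t = (aeval t v * aeval t (derivative (minpoly ℝ t))) * (t * X - X * t) := by
        rw [h4, one_mul]
    _ = 0 := by rw [mul_assoc, ← h3, mul_zero]

lemma exists_sq {V : Type*} [AddCommGroup V] [Module ℝ V] [FiniteDimensional ℝ V] (f : V →ₗ[ℝ] V)
    (hf : ∀ x, f (f x) = 0 → f x = 0) (v : V) : ∃ y, f v = f (f y) := by
  have hker : LinearMap.ker (f ∘ₗ f) = LinearMap.ker f := by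
    ext x
    constructor
    · intro hx
      exact hf x hx
    · intro hx
      have hx' : f x = 0 := hx
      change f (f x) = 0
      rw [hx', map_zero]
  have hle : LinearMap.range (f ∘ₗ f) ≤ LinearMap.range f := LinearMap.range_comp_le_range f f
  have h1 := LinearMap.finrank_range_add_finrank_ker f
  have h2 := LinearMap.finrank_range_add_finrank_ker (f ∘ₗ f)
  rw [hker] at h2
  have heq : LinearMap.range (f ∘ₗ f) = LinearMap.range f :=
    Submodule.eq_of_le_of_finrank_eq hle (by omega)
  have hv : f v ∈ LinearMap.range (f ∘ₗ f) := by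
    rw [heq]
    exact ⟨v, rfl⟩
  obtain ⟨y, hy⟩ := hv
  exact ⟨y, hy.symm⟩

/-- The vectors of `E` commuting with the elements of `T`. -/
def cT (E : Submodule ℝ (MM n)) (T : Set (MM n)) : Submodule ℝ (MM n) where
  carrier := {A | A ∈ E ∧ ∀ B ∈ T, A * B = B * A}
  zero_mem' := ⟨E.zero_mem, fun B _ => by simp⟩
  add_mem' := fun {A A'} h h' => ⟨E.add_mem h.1 h'.1, fun B hB => by
    rw [add_mul, mul_add, h.2 B hB, h'.2 B hB]⟩
  smul_mem' := fun c A h => ⟨E.smul_mem c h.1, fun B hB => by
    rw [smul_mul_assoc, mul_smul_comm, h.2 B hB]⟩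

lemma mem_cT {E : Submodule ℝ (MM n)} {T : Set (MM n)} {A : MM n} :
    A ∈ cT E T ↔ A ∈ E ∧ ∀ B ∈ T, A * B = B * A := Iff.rfl

lemma bracket_mem_cT {E : Submodule ℝ (MM n)} (hWE : W ≤ E)
    (hE : ∀ A ∈ E, ∀ B ∈ E, A * B - B * A ∈ E) (hc : ∀ a ∈ W, ∀ b ∈ W, a * b = b * a)
    {T : Set (MM n)} (hT : T ⊆ W) {s X : MM n} (hs : s ∈ W) (hX : X ∈ cT E T) :
    s * X - X * s ∈ cT E T := by
  refine ⟨hE s (hWE hs) X hX.1, fun B hB => ?_⟩
  have h1 : X * B = B * X := hX.2 B hB
  have h2 : s * B = B * s := hc s hs B (hT hB)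
  calc (s * X - X * s) * B = s * (X * B) - X * (s * B) := by noncomm_ring
    _ = s * (B * X) - X * (B * s) := by rw [h1, h2]
    _ = (s * B) * X - (X * B) * s := by noncomm_ring
    _ = (B * s) * X - (B * X) * s := by rw [h1, h2]
    _ = B * (s * X - X * s) := by noncomm_ring

/-- The successive correction of a cocycle. -/
theorem correct {E : Submodule ℝ (MM n)} (h : rd W = ⊥) (hWE : W ≤ E)
    (hE : ∀ A ∈ E, ∀ B ∈ E, A * B - B * A ∈ E) (hc : ∀ a ∈ W, ∀ b ∈ W, a * b = b * a)
    (u : MM n → MM n) (huE : ∀ s ∈ W, u s ∈ E)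
    (hu : ∀ s ∈ W, ∀ t ∈ W, (s * u t - u t * s) - (t * u s - u s * t) ∈ cT E W) :
    ∀ T : Finset (MM n), (T : Set (MM n)) ⊆ W →
      ∃ m ∈ E, ∀ s ∈ W, u s - (m * s - s * m) ∈ cT E T := by
  intro T
  induction T using Finset.induction_on with
  | empty =>
    intro _
    refine ⟨0, E.zero_mem, fun s hs => ?_⟩
    rw [zero_mul, mul_zero, sub_zero, sub_zero]
    exact ⟨huE s hs, fun B hB => absurd hB (by simp)⟩
  | insert t T _ ih =>
    intro hT
    have htW : t ∈ W := hT (Finset.mem_coe.2 (Finset.mem_insert_self t T))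
    have hTW : (T : Set (MM n)) ⊆ W := fun a ha => hT (by
      rw [Finset.coe_insert]
      exact Set.mem_insert_of_mem t ha)
    obtain ⟨m, hmE, hm⟩ := ih hTW
    -- the operator `ad t` on `cT E T`
    let f : cT E (T : Set (MM n)) →ₗ[ℝ] cT E (T : Set (MM n)) :=
      { toFun := fun X => ⟨t * X - X * t, bracket_mem_cT hWE hE hc hTW htW X.2⟩
        map_add' := fun X Y => by
          apply Subtype.ext
          simp only [Submodule.coe_add]
          noncomm_ring
        map_smul' := fun c X => by
          apply Subtype.ext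
          simp only [Submodule.coe_smul, RingHom.id_apply, mul_smul_comm, smul_mul_assoc,
            smul_sub] }
    have hfv : ∀ X, ((f X : cT E (T : Set (MM n))) : MM n) = t * X - X * t := fun X => rfl
    have hf : ∀ X, f (f X) = 0 → f X = 0 := by
      intro X hX
      apply Subtype.ext
      rw [hfv]
      refine bracket_eq_zero h hc htW ?_
      have h1 := congrArg Subtype.val hX
      rw [hfv, hfv] at h1
      exact sub_eq_zero.1 h1
    obtain ⟨y, hy⟩ := exists_sq f hf ⟨u t - (m * t - t * m), hm t htW⟩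
    have hy' : t * (u t - (m * t - t * m)) - (u t - (m * t - t * m)) * t =
        t * (t * (y : MM n) - y * t) - (t * (y : MM n) - y * t) * t := by
      have := congrArg Subtype.val hy
      rwa [hfv, hfv, hfv] at this
    have htt : t * (y : MM n) - y * t ∈ cT E (T : Set (MM n)) :=
      bracket_mem_cT hWE hE hc hTW htW y.2
    set m' : MM n := m - y with hm'
    have hm'E : m' ∈ E := E.sub_mem hmE y.2.1
    have hval : ∀ s, u s - (m' * s - s * m') = (u s - (m * s - s * m)) - (s * (y : MM n) - y * s) := by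
      intro s
      rw [hm']
      noncomm_ring
    have hC1 : ∀ s ∈ W, u s - (m' * s - s * m') ∈ cT E (T : Set (MM n)) := by
      intro s hs
      rw [hval]
      exact (cT E _).sub_mem (hm s hs) (bracket_mem_cT hWE hE hc hTW hs y.2)
    have ht0 : t * (u t - (m' * t - t * m')) - (u t - (m' * t - t * m')) * t = 0 := by
      rw [hval, mul_sub, sub_mul]
      rw [← sub_eq_zero] at hy'
      rw [← hy']
      noncomm_ring
    refine ⟨m', hm'E, fun s hs => ⟨(hC1 s hs).1, fun B hB => ?_⟩⟩
    rw [Finset.coe_insert] at hB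
    rcases Set.mem_insert_iff.1 hB with rfl | hB
    swap
    · exact (hC1 s hs).2 B hB
    -- the bracket with `t`
    have h1 := (hu s hs B htW).2 B htW
    have hsB : s * B = B * s := hc s hs B htW
    have hJ : ∀ m : MM n, s * (m * B - B * m) - (m * B - B * m) * s -
        (B * (m * s - s * m) - (m * s - s * m) * B) = 0 := by
      intro m
      have e : s * (m * B - B * m) - (m * B - B * m) * s -
        (B * (m * s - s * m) - (m * s - s * m) * B) =
          (B * s - s * B) * m - m * (B * s - s * B) := by noncomm_ring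
      rw [e, hsB, sub_self, zero_mul, mul_zero, sub_zero]
    set v := u s - (m' * s - s * m') with hv
    set w := u B - (m' * B - B * m') with hw
    have hBw : B * w - w * B = 0 := ht0
    have hsw : (s * w - w * s) - (B * v - v * B) = (s * u B - u B * s) - (B * u s - u s * B) := by
      have h2 := hJ m'
      rw [hv, hw, ← sub_eq_zero, ← neg_eq_zero, ← h2]
      noncomm_ring
    rw [← hsw] at h1
    have h3 : B * (s * w - w * s) = (s * w - w * s) * B := by
      have e : B * (s * w - w * s) - (s * w - w * s) * B =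
          s * (B * w - w * B) - (B * w - w * B) * s + (B * s - s * B) * w - w * (B * s - s * B) := by
        noncomm_ring
      rw [← sub_eq_zero, e, hBw, hsB]
      noncomm_ring
    have h4 : B * (B * v - v * B) = (B * v - v * B) * B := by
      have e : B * (B * v - v * B) - (B * v - v * B) * B =
          (B * (s * w - w * s) - (s * w - w * s) * B) +
          ((((s * w - w * s) - (B * v - v * B)) * B) - B * ((s * w - w * s) - (B * v - v * B))) := by
        noncomm_ring
      rw [← sub_eq_zero, e, h3, h1, sub_self, sub_self, add_zero]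
    have h5 := bracket_eq_zero h hc htW h4
    exact (sub_eq_zero.1 h5).symm

/-- Cocycles of the centralizer of a toral subspace are inner. -/
theorem inner_of_cocycle_toral {E : Submodule ℝ (MM n)} (h : rd W = ⊥) (hWE : W ≤ E)
    (hE : ∀ A ∈ E, ∀ B ∈ E, A * B - B * A ∈ E) (hc : ∀ a ∈ W, ∀ b ∈ W, a * b = b * a)
    (u : cg E W → E)
    (hu0 : ∀ x : cg E W, (x : MM n) = 0 → (u x : MM n) = 0)
    (hu : ∀ x y z : cg E W, (z : MM n) = (x : MM n) * y - y * x →
      ((x : MM n) * u y - u y * x) + ((u x : MM n) * y - y * u x) - u z ∈ cg E W) :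
    ∃ m : E, ∀ x : cg E W, (u x : MM n) - ((m : MM n) * x - x * m) ∈ cg E W := by
  classical
  have hcT : cT E (W : Set (MM n)) = cg E W := rfl
  have hWC : W ≤ cg E W := fun A hA => ⟨hWE hA, fun B hB => hc A hA B hB⟩
  let u' : MM n → MM n := fun s => if hs : s ∈ cg E W then (u ⟨s, hs⟩ : MM n) else 0
  have hu' : ∀ x : cg E W, u' x = u x := by
    intro x
    simp only [u', x.2, dif_pos]
  have hcomm : ∀ s ∈ W, ∀ a ∈ cg E W, s * u' a - u' a * s + (u' s * a - a * u' s) ∈ cg E W := by
    intro s hs a ha
    have h1 := hu ⟨s, hWC hs⟩ ⟨a, ha⟩ 0 (by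
      change (0 : MM n) = s * a - a * s
      rw [ha.2 s hs, sub_self])
    rw [hu0 0 rfl, sub_zero] at h1
    have e1 := hu' ⟨s, hWC hs⟩
    have e2 := hu' ⟨a, ha⟩
    simp only at e1 e2
    rw [e1, e2]
    exact h1
  obtain ⟨F, hF⟩ := (IsNoetherian.noetherian W : W.FG)
  have hFW : (F : Set (MM n)) ⊆ W := by
    rw [← hF]
    exact Submodule.subset_span
  obtain ⟨m, hmE, hm⟩ := correct h hWE hE hc u' (fun s hs => by
      have e1 := hu' ⟨s, hWC hs⟩
      simp only at e1
      rw [e1]
      exact (u _).2) (fun s hs t ht => by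
      rw [hcT]
      have := hcomm s hs t (hWC ht)
      convert this using 1
      noncomm_ring) F hFW
  have hm2 : ∀ s ∈ W, u' s - (m * s - s * m) ∈ cg E W := by
    intro s hs
    refine ⟨(hm s hs).1, fun B hB => ?_⟩
    rw [← hF] at hB
    induction hB using Submodule.span_induction with
    | mem B hB => exact (hm s hs).2 B hB
    | zero => rw [zero_mul, mul_zero]
    | add x y _ _ hx hy => rw [mul_add, add_mul, hx, hy]
    | smul a x _ hx => rw [mul_smul_comm, smul_mul_assoc, hx]
  refine ⟨⟨m, hmE⟩, fun x => ?_⟩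
  change (u x : MM n) - (m * x - x * m) ∈ cg E W
  rw [← hu' x]
  set v := u' x - (m * (x : MM n) - x * m) with hv
  refine ⟨E.sub_mem (by rw [hu' x]; exact (u x).2) (hE m hmE x x.2.1), fun s hs => ?_⟩
  -- `[s, v]` is in the centralizer
  have hxs : (x : MM n) * s = s * x := x.2.2 s hs
  set w := u' s - (m * s - s * m) with hw
  have hwx : w * (x : MM n) - x * w ∈ cg E W := by
    have hw' := hm2 s hs
    rw [← hw] at hw'
    refine ⟨hE w hw'.1 x x.2.1, fun B hB => ?_⟩
    have e1 : w * B = B * w := hw'.2 B hB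
    have e2 : (x : MM n) * B = B * x := x.2.2 B hB
    calc (w * (x : MM n) - x * w) * B = w * (x * B) - x * (w * B) := by noncomm_ring
      _ = w * (B * x) - x * (B * w) := by rw [e1, e2]
      _ = (w * B) * x - (x * B) * w := by noncomm_ring
      _ = (B * w) * x - (B * x) * w := by rw [e1, e2]
      _ = _ := by noncomm_ring
  have hsv : s * v - v * s ∈ cg E W := by
    have h1 := (cg E W).sub_mem (hcomm s hs x x.2) hwx
    convert h1 using 1
    have e : s * v - v * s - (s * u' x - u' x * s + (u' s * x - x * u' s) - (w * x - x * w)) =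
        (s * (x : MM n) - x * s) * m - m * (s * x - x * s) := by
      rw [hv, hw]
      noncomm_ring
    rw [← sub_eq_zero, e, hxs]
    noncomm_ring
  have h2 : s * (s * v - v * s) = (s * v - v * s) * s := (hsv.2 s hs).symm
  exact (sub_eq_zero.1 (bracket_eq_zero h hc hs h2)).symm

end Pool.Agent.Lib.MP_aa9b81_an.N
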