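import Mathlib
import Pool.Agent.Lib.MP_aa9b81_an.NApp
import Pool.Agent.Lib.MP_aa9b81_an.NLift
import Pool.Agent.Lib.MP_aa9b81_an.NTor
import Pool.Agent.Lib.MP_aa9b81_an.NCoh
import Pool.Agent.Lib.MP_aa9b81_an.Dec

/-!
The stratification of the set of points with nonzero isotropy algebra, for closed linear groups.
-/

set_option autoImplicit false
set_option linter.unusedSectionVars false
set_option maxHeartbeats 4000000

open Filter Topology Matrix Module

namespace Pool.Agent.Lib.MP_aa9b81_an.N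

variable {n : ℕ} [NeZero n]
variable {G : Type*} [Group G] [TopologicalSpace G] [IsTopologicalGroup G]
variable {X : Type*} [TopologicalSpace X] [T2Space X] [MulAction G X] [ContinuousSMul G X]

omit [IsTopologicalGroup G] [T2Space X] in
lemma dec_cf {Good : Set X → Prop} (h0 : Good ∅) {V : Type*} [AddCommGroup V] [TopologicalSpace V]
    [IsTopologicalAddGroup V] [T2Space V] [Module ℝ V] [ContinuousSMul ℝ V] [FiniteDimensional ℝ V]
    {Y : Set X} (hY : Inv G Y) (W : X → Submodule ℝ V) (hcf : CF Y W)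
    (hinv : ∀ (g : G), ∀ x ∈ Y, finrank ℝ (W (g • x)) = finrank ℝ (W x))
    (hd : ∀ k, Dec G Good {x ∈ Y | finrank ℝ (W x) = k}) : Dec G Good Y := by
  refine dec_levels hY h0 (fun x => finrank ℝ (W x)) (finrank ℝ V)
    (fun x _ => Submodule.finrank_le (W x)) hinv ?_ hd
  rintro k x ⟨hx, hxc⟩
  exact hcf.finrank_ge hx hxc

omit [TopologicalSpace G] [IsTopologicalGroup G] [TopologicalSpace X] [T2Space X]
  [ContinuousSMul G X] in
lemma inv_level {Y : Set X} (hY : Inv G Y) {r : X → ℕ}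
    (hr : ∀ (g : G), ∀ x ∈ Y, r (g • x) = r x) (k : ℕ) : Inv G {x ∈ Y | r x = k} :=
  fun g x hx => ⟨hY g x hx.1, by rw [hr g x hx.1]; exact hx.2⟩

variable {ρ : G →* SLn n} (hρ : IsClosedEmbedding ρ)

/-- Layers with a continuous field of canonical subspaces. -/
def LayA (L : Set X) : Prop := ∃ d : ℕ, 0 < d ∧ d < n ∧ CF L (fun y => ws (iso hρ y)) ∧
  ∀ y ∈ L, finrank ℝ (ws (iso hρ y)) = d

/-- Layers with semisimple derived isotropy algebras, locally conjugate. -/
def LayB (L : Set X) : Prop := (∀ y ∈ L, rd (iso hρ y) = ⊥ ∧ br (iso hρ y) ≠ ⊥) ∧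
  LocAct (Γ := G) (fun g => cjs (ρ g)) L (fun y => br (iso hρ y))

/-- Layers with toral isotropy algebras, whose centralizers are locally conjugate. -/
def LayC (L : Set X) : Prop :=
  (∀ y ∈ L, rd (iso hρ y) = ⊥ ∧ br (iso hρ y) = ⊥ ∧ iso hρ y ≠ ⊥) ∧
  LocAct (Γ := G) (fun g => cjs (ρ g)) L (fun y => cg (gal hρ) (iso hρ y))

/-- The good layers. -/
def LayG (L : Set X) : Prop := LayA hρ L ∨ LayB hρ L ∨ LayC hρ L

include hρ

lemma finrank_iso_smul (g : G) (x : X) : finrank ℝ (iso hρ (g • x)) = finrank ℝ (iso hρ x) := by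
  rw [iso_smul, finrank_cjs]

lemma iso_br_le {x : X} : br (iso hρ x) ≤ iso hρ x := by
  rw [br, Submodule.span_le]
  rintro _ ⟨A, hA, B, hB, rfl⟩
  exact bracket_iso hρ hA hB

lemma comm_of_br_bot {x : X} (h : br (iso hρ x) = ⊥) :
    ∀ a ∈ iso hρ x, ∀ b ∈ iso hρ x, a * b = b * a := by
  intro a ha b hb
  have h1 := mul_sub_mem_br ha hb
  rw [h, Submodule.mem_bot] at h1
  exact sub_eq_zero.1 h1

/-- Semisimple layers. -/
lemma layB_of {L : Set X} (hrd : ∀ y ∈ L, rd (iso hρ y) = ⊥) (hbr : ∀ y ∈ L, br (iso hρ y) ≠ ⊥)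
    (hcf : CF L (fun y => br (iso hρ y))) {k : ℕ} (hk : ∀ y ∈ L, finrank ℝ (br (iso hρ y)) = k) :
    LayB hρ L := by
  refine ⟨fun y hy => ⟨hrd y hy, hbr y hy⟩, ?_⟩
  intro x hx N hN
  refine rigid_grp hρ hcf hk (fun y _ => (iso_br_le hρ).trans (iso_le_gal hρ y))
    (fun y _ => br_closed (fun A hA B hB => bracket_iso hρ hA hB)) hx ?_ hN
  intro u hu
  refine inner_of_cocycle ((iso_br_le hρ).trans (iso_le_gal hρ x))
    (fun A hA B hB => bracket_gal hρ hA hB) (br_closed (fun A hA B hB => bracket_iso hρ hA hB))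
    (trivialRadical_br (hrd x hx) (fun A hA B hB => bracket_iso hρ hA hB)) u ?_
  intro a b
  exact hu a b _ rfl

/-- Toral layers. -/
lemma layC_of {L : Set X} (hrd : ∀ y ∈ L, rd (iso hρ y) = ⊥) (hbr : ∀ y ∈ L, br (iso hρ y) = ⊥)
    (hne : ∀ y ∈ L, iso hρ y ≠ ⊥)
    (hcf : CF L (fun y => cg (gal hρ) (iso hρ y))) {k : ℕ}
    (hk : ∀ y ∈ L, finrank ℝ (cg (gal hρ) (iso hρ y)) = k) :
    LayC hρ L := by
  refine ⟨fun y hy => ⟨hrd y hy, hbr y hy, hne y hy⟩, ?_⟩
  intro x hx N hN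
  refine rigid_grp hρ hcf hk (fun y _ A hA => hA.1) (fun y _ A hA B hB => ?_) hx ?_ hN
  · refine ⟨bracket_gal hρ hA.1 hB.1, fun C hC => ?_⟩
    have h1 : A * C = C * A := hA.2 C hC
    have h2 : B * C = C * B := hB.2 C hC
    calc (A * B - B * A) * C = A * (B * C) - B * (A * C) := by noncomm_ring
      _ = A * (C * B) - B * (C * A) := by rw [h1, h2]
      _ = (A * C) * B - (B * C) * A := by noncomm_ring
      _ = (C * A) * B - (C * B) * A := by rw [h1, h2]
      _ = _ := by noncomm_ring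
  · intro u hu
    refine inner_of_cocycle_toral (hrd x hx) (iso_le_gal hρ x)
      (fun A hA B hB => bracket_gal hρ hA hB) (comm_of_br_bot hρ (hbr x hx)) u ?_ ?_
    · intro y hy
      have : y = 0 := Subtype.ext hy
      rw [this, map_zero]
      rfl
    · intro a b c hc
      exact hu a b c hc

/-- The decomposition. -/
theorem dec_main : Dec G (LayG (X := X) hρ) {x : X | iso hρ x ≠ ⊥} := by
  have h0 : LayG hρ (∅ : Set X) := Or.inr (Or.inl
    ⟨fun y hy => absurd hy (Set.notMem_empty y), fun y hy => absurd hy (Set.notMem_empty y)⟩)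
  have hempty : Dec G (LayG (X := X) hρ) (∅ : Set X) :=
    Dec.good (fun g x hx => absurd hx (Set.notMem_empty x)) h0
  set N : Set X := {x : X | iso hρ x ≠ ⊥} with hN
  have hNinv : Inv G N := by
    intro g x hx h
    apply hx
    have h1 : finrank ℝ (iso hρ (g • x)) = 0 := by rw [h, finrank_bot]
    rw [finrank_iso_smul] at h1
    exact Submodule.finrank_eq_zero.1 h1
  have cfN : CF N (iso (X := X) hρ) := (cf_iso hρ).mono (Set.subset_univ _)
  refine dec_cf h0 hNinv (iso hρ) cfN (fun g x _ => finrank_iso_smul hρ g x) fun d => ?_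
  set Y1 : Set X := {x ∈ N | finrank ℝ (iso hρ x) = d} with hY1
  have hY1i : Inv G Y1 := inv_level hNinv (fun g x _ => finrank_iso_smul hρ g x) d
  have sec1 : Sec Y1 (iso (X := X) hρ) := (cfN.mono fun x hx => hx.1).sec (k := d) fun x hx => hx.2
  have seca : Sec Y1 (fun x : X => alg (iso hρ x)) := sec_alg sec1
  have cfnu : CF Y1 (fun x : X => nu (iso hρ x)) := cf_nu seca
  have inu : ∀ (g : G), ∀ x ∈ Y1, finrank ℝ (nu (iso hρ (g • x))) = finrank ℝ (nu (iso hρ x)) :=
    fun g x _ => by rw [iso_smul, nu_cjs, finrank_cjs]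
  refine dec_cf h0 hY1i (fun x => nu (iso hρ x)) cfnu inu fun b => ?_
  set Y2 : Set X := {x ∈ Y1 | finrank ℝ (nu (iso hρ x)) = b} with hY2
  have hY2i : Inv G Y2 := inv_level hY1i inu b
  have sub21 : Y2 ⊆ Y1 := fun x hx => hx.1
  have secnu : Sec Y2 (fun x : X => nu (iso hρ x)) :=
    (cfnu.mono sub21).sec (k := b) fun x hx => hx.2
  have cfa : CF Y2 (fun x : X => alg (iso hρ x)) := cf_alg secnu
  have cfr : CF Y2 (fun x : X => rd (iso hρ x)) := cf_rd cfa (cfnu.mono sub21)
  have ird : ∀ (g : G), ∀ x ∈ Y2, finrank ℝ (rd (iso hρ (g • x))) = finrank ℝ (rd (iso hρ x)) :=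
    fun g x _ => by rw [iso_smul, rd_cjs, finrank_cjs]
  refine dec_cf h0 hY2i (fun x => rd (iso hρ x)) cfr ird fun j => ?_
  set Y3 : Set X := {x ∈ Y2 | finrank ℝ (rd (iso hρ x)) = j} with hY3
  have hY3i : Inv G Y3 := inv_level hY2i ird j
  have sub32 : Y3 ⊆ Y2 := fun x hx => hx.1
  by_cases hj : j = 0
  · -- zero radical
    have hrd0 : ∀ x ∈ Y3, rd (iso hρ x) = ⊥ := fun x hx =>
      Submodule.finrank_eq_zero.1 (by rw [hx.2, hj])
    have sec3 : Sec Y3 (iso (X := X) hρ) := sec1.mono (sub32.trans sub21)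
    have secb : Sec Y3 (fun x : X => br (iso hρ x)) := sec_br sec3
    have cfp : CF Y3 (fun x : X => bp (iso hρ x)) := cf_bp secb
    have ibp : ∀ (g : G), ∀ x ∈ Y3, finrank ℝ (bp (iso hρ (g • x))) = finrank ℝ (bp (iso hρ x)) :=
      fun g x _ => by rw [iso_smul, bp_cjs, finrank_cjs]
    refine dec_cf h0 hY3i (fun x => bp (iso hρ x)) cfp ibp fun p => ?_
    set Y4 : Set X := {x ∈ Y3 | finrank ℝ (bp (iso hρ x)) = p} with hY4
    have hY4i : Inv G Y4 := inv_level hY3i ibp p
    have sub43 : Y4 ⊆ Y3 := fun x hx => hx.1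
    have secp : Sec Y4 (fun x : X => bp (iso hρ x)) :=
      (cfp.mono sub43).sec (k := p) fun x hx => hx.2
    have cfb : CF Y4 (fun x : X => br (iso hρ x)) := cf_br secp
    have hbrdim : ∀ x : X, finrank ℝ (br (iso hρ x)) = finrank ℝ (MM n) -
        finrank ℝ (bp (iso hρ x)) := by
      intro x
      have h1 := LinearMap.BilinForm.finrank_orthogonal (B := tf (n := n)) tf_nondeg
        (br (iso hρ x))
      have h2 : finrank ℝ (bp (iso hρ x)) = finrank ℝ (MM n) - finrank ℝ (br (iso hρ x)) := h1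
      have h3 := Submodule.finrank_le (br (iso hρ x))
      omega
    have hbk : ∀ x ∈ Y4, finrank ℝ (br (iso hρ x)) = finrank ℝ (MM n) - p := by
      intro x hx
      rw [hbrdim, hx.2]
    by_cases hp : finrank ℝ (MM n) - p = 0
    · -- toral isotropy
      have hb0 : ∀ x ∈ Y4, br (iso hρ x) = ⊥ := fun x hx =>
        Submodule.finrank_eq_zero.1 (by rw [hbk x hx, hp])
      have cfc : CF Y4 (fun x : X => cg (gal hρ) (iso hρ x)) := cf_cg _ (sec3.mono sub43)
      have icg : ∀ (g : G), ∀ x ∈ Y4, finrank ℝ (cg (gal hρ) (iso hρ (g • x))) =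
          finrank ℝ (cg (gal hρ) (iso hρ x)) :=
        fun g x _ => by rw [iso_smul, cg_cjs _ (cjs_gal hρ g), finrank_cjs]
      refine dec_cf h0 hY4i (fun x => cg (gal hρ) (iso hρ x)) cfc icg fun q => ?_
      set Y5 : Set X := {x ∈ Y4 | finrank ℝ (cg (gal hρ) (iso hρ x)) = q} with hY5
      have hY5i : Inv G Y5 := inv_level hY4i icg q
      have sub54 : Y5 ⊆ Y4 := fun x hx => hx.1
      refine Dec.good hY5i (Or.inr (Or.inr ?_))
      exact layC_of hρ (fun x hx => hrd0 x (sub43 (sub54 hx))) (fun x hx => hb0 x (sub54 hx))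
        (fun x hx => (sub21 (sub32 (sub43 (sub54 hx)))).1) (cfc.mono sub54) fun x hx => hx.2
    · refine Dec.good hY4i (Or.inr (Or.inl ?_))
      refine layB_of hρ (fun x hx => hrd0 x (sub43 hx)) (fun x hx h => hp ?_) cfb hbk
      rw [← hbk x hx, h, finrank_bot]
  · -- nonzero radical
    have hrd0 : ∀ x ∈ Y3, rd (iso hρ x) ≠ ⊥ := fun x hx h => hj (by
      have h1 : finrank ℝ (rd (iso hρ x)) = j := hx.2
      rw [h, finrank_bot] at h1
      exact h1.symm)
    have secr : Sec Y3 (fun x : X => rd (iso hρ x)) := (cfr.mono sub32).sec (k := j) fun x hx => hx.2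
    have cfk : CF Y3 (fun x : X => kr (iso hρ x)) := cf_kr secr
    have cfan : CF Y3 (fun x : X => an (iso hρ x)) := cf_an secr
    have irg : ∀ (g : G), ∀ x ∈ Y3, finrank ℝ (an (iso hρ (g • x))) =
        finrank ℝ (an (iso hρ x)) := by
      have hdim : ∀ x : X, finrank ℝ (rg (iso hρ x)) = finrank ℝ (VV n) -
          finrank ℝ (an (iso hρ x)) := fun x =>
        LinearMap.BilinForm.finrank_orthogonal (B := dpf (n := n)) dpf_nondeg (an (iso hρ x))
      intro g x _
      have h1 := hdim (g • x)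
      have h2 := hdim x
      rw [iso_smul, rg_cjs, finrank_actL] at h1
      have h3 := Submodule.finrank_le (an (iso hρ x))
      have h4 := Submodule.finrank_le (an (iso hρ (g • x)))
      rw [iso_smul] at h4 ⊢
      omega
    refine dec_cf h0 hY3i (fun x => an (iso hρ x)) cfan irg fun a => ?_
    set Y4 : Set X := {x ∈ Y3 | finrank ℝ (an (iso hρ x)) = a} with hY4
    have hY4i : Inv G Y4 := inv_level hY3i irg a
    have sub43 : Y4 ⊆ Y3 := fun x hx => hx.1
    have secan : Sec Y4 (fun x : X => an (iso hρ x)) :=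
      (cfan.mono sub43).sec (k := a) fun x hx => hx.2
    have cfrg : CF Y4 (fun x : X => rg (iso hρ x)) := cf_rg secan
    have cfw : CF Y4 (fun x : X => ws (iso hρ x)) := cf_ws (cfk.mono sub43) cfrg
    have iws : ∀ (g : G), ∀ x ∈ Y4, finrank ℝ (ws (iso hρ (g • x))) =
        finrank ℝ (ws (iso hρ x)) :=
      fun g x _ => by rw [iso_smul, ws_cjs, finrank_actL]
    refine dec_cf h0 hY4i (fun x => ws (iso hρ x)) cfw iws fun w => ?_
    set Y5 : Set X := {x ∈ Y4 | finrank ℝ (ws (iso hρ x)) = w} with hY5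
    have hY5i : Inv G Y5 := inv_level hY4i iws w
    have sub54 : Y5 ⊆ Y4 := fun x hx => hx.1
    rcases Set.eq_empty_or_nonempty Y5 with he | ⟨x₀, hx₀⟩
    · rw [he]
      exact hempty
    · refine Dec.good hY5i (Or.inl ⟨w, ?_, ?_, cfw.mono sub54, fun y hy => hy.2⟩)
      · rcases Nat.eq_zero_or_pos w with h | h
        · exfalso
          have h1 : finrank ℝ (ws (iso hρ x₀)) = w := hx₀.2
          rw [h] at h1
          exact ws_ne_bot (hrd0 x₀ (sub43 (sub54 hx₀))) (Submodule.finrank_eq_zero.1 h1)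
        · exact h
      · have h1 : finrank ℝ (ws (iso hρ x₀)) = w := hx₀.2
        have h2 := Submodule.finrank_lt (ws_ne_top (hrd0 x₀ (sub43 (sub54 hx₀)))).lt_top.ne
        have h3 : finrank ℝ (VV n) = n := by simp
        omega

end Pool.Agent.Lib.MP_aa9b81_an.N
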