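import Mathlib
import Pool.Agent.Lib.MP_aa9b81_an.NStrata

/-!
The set of points with nondiscrete isotropy group, and the final filtration, for closed linear
groups.
-/

set_option autoImplicit false
set_option linter.unusedSectionVars false

open Filter Topology Matrix Module

namespace Pool.Agent.Lib.MP_aa9b81_an.N

variable {n : ℕ} [NeZero n]
variable {G : Type*} [Group G] [TopologicalSpace G] [IsTopologicalGroup G]
variable {X : Type*} [TopologicalSpace X] [T2Space X] [MulAction G X] [ContinuousSMul G X]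
variable {ρ : G →* SLn n} (hρ : IsClosedEmbedding ρ)

include hρ

lemma iso_ne_bot_iff {x : X} :
    iso hρ x ≠ ⊥ ↔ ¬ DiscreteTopology (MulAction.stabilizer G x) := by
  constructor
  · intro h
    obtain ⟨A, hA, hA0⟩ := Submodule.exists_mem_ne_zero_of_ne_bot h
    exact not_discrete_of_ne_zero hρ hA hA0
  · intro h h0
    obtain ⟨A, hA, hA0⟩ := exists_ne_zero_iso hρ h
    rw [h0] at hA
    exact hA0 hA

lemma isClosed_nondiscrete :
    IsClosed {x : X | ¬ DiscreteTopology (MulAction.stabilizer G x)} := by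
  have : {x : X | ¬ DiscreteTopology (MulAction.stabilizer G x)} = {x : X | iso hρ x ≠ ⊥} := by
    ext x
    exact (iso_ne_bot_iff hρ).symm
  rw [this, ← closure_subset_iff_isClosed]
  intro x hx
  have h1 : x ∈ closure {y ∈ (Set.univ : Set X) | 1 ≤ finrank ℝ (iso hρ y)} := by
    refine closure_mono ?_ hx
    intro y hy
    refine ⟨trivial, ?_⟩
    have : finrank ℝ (iso hρ y) ≠ 0 := fun h => hy (Submodule.finrank_eq_zero.1 h)
    omega
  have h2 := (cf_iso hρ).finrank_ge (Set.mem_univ x) h1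
  intro h
  rw [h, finrank_bot] at h2
  omega

/-- The final filtration. -/
theorem filtration : ∃ (m : ℕ) (F : ℕ → Set X), (∀ i, IsClosed (F i)) ∧
    (∀ i, Inv G (F i)) ∧ (∀ i, F i ⊆ F (i + 1)) ∧ F 0 = ∅ ∧
    F m = {x : X | ¬ DiscreteTopology (MulAction.stabilizer G x)} ∧
    ∀ i < m, LayG hρ (F (i + 1) \ F i) := by
  obtain ⟨m, C, h1, h2, h3, h4, h5, h6⟩ := (dec_main (X := X) hρ).filt
  have hN : {x : X | iso hρ x ≠ ⊥} = {x : X | ¬ DiscreteTopology (MulAction.stabilizer G x)} := by
    ext x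
    exact iso_ne_bot_iff hρ
  have hNi : Inv G {x : X | iso hρ x ≠ ⊥} := (dec_main (X := X) hρ).inv
  rw [hN] at h4 h5 h6 hNi
  set N : Set X := {x : X | ¬ DiscreteTopology (MulAction.stabilizer G x)} with hNd
  refine ⟨m, fun i => N ∩ C i, fun i => (isClosed_nondiscrete hρ).inter (h1 i),
    fun i g x hx => ⟨hNi g x hx.1, h2 i g x hx.2⟩,
    fun i => Set.inter_subset_inter_right _ (h3 (Nat.le_succ i)), h4,
    Set.inter_eq_left.2 h5, fun i hi => ?_⟩
  have : (N ∩ C (i + 1)) \ (N ∩ C i) = N ∩ (C (i + 1) \ C i) := by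
    ext x
    simp only [Set.mem_sdiff, Set.mem_inter_iff, not_and]
    tauto
  rw [this]
  exact h6 i hi

end Pool.Agent.Lib.MP_aa9b81_an.N
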