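import Mathlib
import Pool.Agent.Lib.MP_aa9b81_an.NApp
import Pool.Agent.Lib.MP_aa9b81_an.NLift

/-!
Continuous fields of subspaces of constant dimension and maps to Grassmannians.
-/

set_option autoImplicit false
set_option linter.unusedSectionVars false
set_option maxHeartbeats 4000000

open Filter Topology Matrix Module

namespace Pool.Agent.Lib.MP_aa9b81_an.N

/-- The coordinate subspace of vectors supported in the first `d` coordinates. -/
def std (n d : ℕ) : Submodule ℝ (VV n) where
  carrier := {v | ∀ i : Fin n, d ≤ (i : ℕ) → v i = 0}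
  zero_mem' := fun i _ => rfl
  add_mem' := fun {v w} hv hw i hi => by rw [Pi.add_apply, hv i hi, hw i hi, add_zero]
  smul_mem' := fun c v hv i hi => by rw [Pi.smul_apply, hv i hi, smul_zero]

lemma mem_std {n d : ℕ} {v : VV n} : v ∈ std n d ↔ ∀ i : Fin n, d ≤ (i : ℕ) → v i = 0 := Iff.rfl

lemma finrank_std {n d : ℕ} (hd : d ≤ n) : finrank ℝ (std n d) = d := by
  let e : std n d ≃ₗ[ℝ] (Fin d → ℝ) :=
    { toFun := fun v i => (v : VV n) (Fin.castLE hd i)
      map_add' := fun v w => rfl
      map_smul' := fun c v => rfl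
      invFun := fun w => ⟨fun i => if h : (i : ℕ) < d then w ⟨i, h⟩ else 0, by
        intro i hi
        exact dif_neg (by omega)⟩
      left_inv := fun v => by
        apply Subtype.ext
        funext i
        simp only
        split_ifs with h
        · rfl
        · exact (v.2 i (by omega)).symm
      right_inv := fun w => by
        funext i
        simp }
  rw [e.finrank_eq]
  simp

variable {n : ℕ} [NeZero n]

/-- The stabilizer of the coordinate subspace. -/
def parab (n d : ℕ) [NeZero n] : Subgroup (SLn n) where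
  carrier := {g | actL g (std n d) = std n d}
  one_mem' := actL_one _
  mul_mem' := fun {g h} hg hh => by
    change actL (g * h) _ = _
    rw [actL_mul, hh, hg]
  inv_mem' := fun {g} hg => by
    change actL g⁻¹ _ = _
    have hg' : actL g (std n d) = std n d := hg
    conv_lhs => rw [← hg']
    rw [← actL_mul, inv_mul_cancel, actL_one]

lemma mem_parab {d : ℕ} {g : SLn n} : g ∈ parab n d ↔ actL g (std n d) = std n d := Iff.rfl

lemma single_mem_std {d : ℕ} {j : Fin n} (hj : (j : ℕ) < d) :
    (Pi.single j 1 : VV n) ∈ std n d := by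
  intro i hi
  rw [Pi.single_eq_of_ne]
  intro h
  rw [h] at hi
  omega

lemma mem_parab_iff {d : ℕ} {g : SLn n} :
    g ∈ parab n d ↔ ∀ i j : Fin n, (j : ℕ) < d → d ≤ (i : ℕ) → (g : MM n) i j = 0 := by
  rw [mem_parab]
  constructor
  · intro h i j hj hi
    have h1 : (g : MM n) *ᵥ (Pi.single j 1) ∈ actL g (std n d) :=
      mem_actL'.2 ⟨_, single_mem_std hj, rfl⟩
    rw [h] at h1
    have h2 := h1 i hi
    simpa using h2
  · intro h
    refine Submodule.eq_of_le_of_finrank_eq ?_ (finrank_actL g _)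
    intro v hv
    obtain ⟨w, hw, rfl⟩ := mem_actL'.1 hv
    intro i hi
    rw [Matrix.mulVec, dotProduct]
    apply Finset.sum_eq_zero
    intro j _
    rcases Nat.lt_or_ge (j : ℕ) d with hj | hj
    · rw [h i j hj hi, zero_mul]
    · rw [hw j hj, mul_zero]

/-- The matrix with given columns. -/
def colm (v : Fin n → VV n) : MM n := Matrix.of (fun i j => v j i)

lemma colm_mulVec_single (v : Fin n → VV n) (j : Fin n) : colm v *ᵥ (Pi.single j 1) = v j := by
  ext i
  simp [colm, Matrix.mulVec_single]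

lemma det_colm_ne_zero {v : Fin n → VV n} (h : LinearIndependent ℝ v) : (colm v).det ≠ 0 := by
  have h1 : IsUnit (colm v) := Matrix.linearIndependent_cols_iff_isUnit.1 h
  have h2 := (Matrix.isUnit_iff_isUnit_det _).1 h1
  exact h2.ne_zero

/-- Rescale the first column so as to get determinant one. -/
noncomputable def toSL (P : MM n) (h : P.det ≠ 0) : SLn n :=
  ⟨P * Matrix.diagonal (fun i => if i = 0 then P.det⁻¹ else 1), by
    rw [Matrix.det_mul, Matrix.det_diagonal, Finset.prod_ite_eq' Finset.univ (0 : Fin n)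
      (fun _ => P.det⁻¹)]
    simp [h]⟩

lemma toSL_mulVec_single {P : MM n} (h : P.det ≠ 0) (j : Fin n) :
    ∃ c : ℝ, (toSL P h : MM n) *ᵥ (Pi.single j 1) = c • (P *ᵥ (Pi.single j 1)) := by
  refine ⟨if j = 0 then P.det⁻¹ else 1, ?_⟩
  change (P * Matrix.diagonal (fun i => if i = 0 then P.det⁻¹ else 1)) *ᵥ _ = _
  rw [← Matrix.mulVec_mulVec, ← Matrix.mulVec_smul]
  congr 1
  ext i
  rw [Matrix.mulVec_diagonal, Pi.smul_apply, smul_eq_mul]
  by_cases hij : i = j
  · rw [hij]
  · rw [Pi.single_eq_of_ne hij, mul_zero, mul_zero]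

lemma exists_adapted {d : ℕ} {U : Submodule ℝ (VV n)} (hU : finrank ℝ U = d) :
    ∃ v : Fin n → VV n, LinearIndependent ℝ v ∧ ∀ j : Fin n, (j : ℕ) < d → v j ∈ U := by
  obtain ⟨K, hK⟩ := Submodule.exists_isCompl U
  have h3 : finrank ℝ (VV n) = n := by simp
  have h1 := Submodule.finrank_add_eq_of_isCompl hK
  have hKn : finrank ℝ K = n - d := by omega
  have hmn : d + (n - d) = n := by omega
  let b : Basis (Fin d) ℝ U := finBasisOfFinrankEq ℝ U hU
  let b' : Basis (Fin (n - d)) ℝ K := finBasisOfFinrankEq ℝ K hKn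
  let B : Basis (Fin d ⊕ Fin (n - d)) ℝ (VV n) := (b.prod b').map (Submodule.prodEquivOfIsCompl U K hK)
  let e : Fin d ⊕ Fin (n - d) ≃ Fin n := finSumFinEquiv.trans (finCongr hmn)
  refine ⟨fun j => B (e.symm j), B.linearIndependent.comp _ e.symm.injective, ?_⟩
  intro j hj
  have h1 : e.symm j = Sum.inl ⟨j, hj⟩ := by
    rw [Equiv.symm_apply_eq]
    apply Fin.ext
    simp [e]
  simp only [h1]
  change (Submodule.prodEquivOfIsCompl U K hK) ((b.prod b') (Sum.inl ⟨j, hj⟩)) ∈ U
  rw [Basis.prod_apply]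
  simp

/-- Transitivity on the subspaces of dimension `d`. -/
theorem exists_actL {d : ℕ} {U : Submodule ℝ (VV n)} (hU : finrank ℝ U = d) :
    ∃ g : SLn n, U = actL g (std n d) := by
  obtain ⟨v, hv, hvU⟩ := exists_adapted hU
  have hdn : d ≤ n := by
    have h3 : finrank ℝ (VV n) = n := by simp
    have := Submodule.finrank_le U
    omega
  refine ⟨toSL (colm v) (det_colm_ne_zero hv), ?_⟩
  refine (Submodule.eq_of_le_of_finrank_eq ?_ (by rw [finrank_actL, finrank_std hdn, hU])).symm
  intro w hw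
  obtain ⟨w', hw', rfl⟩ := mem_actL'.1 hw
  have h1 : w' = ∑ j : Fin n, w' j • (Pi.single j 1 : VV n) := by
    ext i
    rw [Finset.sum_apply, Finset.sum_eq_single i]
    · simp
    · intro j _ hji
      rw [Pi.smul_apply, Pi.single_eq_of_ne (Ne.symm hji), smul_zero]
    · intro h
      exact absurd (Finset.mem_univ i) h
  rw [h1, Matrix.mulVec_sum]
  refine U.sum_mem fun j _ => ?_
  rw [Matrix.mulVec_smul]
  rcases Nat.lt_or_ge (j : ℕ) d with hj | hj
  · obtain ⟨c, hc⟩ := toSL_mulVec_single (det_colm_ne_zero hv) j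
    rw [hc, colm_mulVec_single]
    exact U.smul_mem _ (U.smul_mem _ (hvU j hj))
  · rw [hw' j hj, zero_smul]
    exact U.zero_mem

variable {X : Type*} [TopologicalSpace X]

/-- The projections, as matrices. -/
noncomputable def prM (V : X → Submodule ℝ (VV n)) (x : X) : MM n :=
  LinearMap.toMatrix' (prL V x)

lemma prM_mulVec (V : X → Submodule ℝ (VV n)) (x : X) (v : VV n) :
    prM V x *ᵥ v = pr V x v := by
  rw [prM, LinearMap.toMatrix'_mulVec, prL_apply]

lemma continuousOn_prM {L : Set X} {V : X → Submodule ℝ (VV n)} (hcf : CF L V) {d : ℕ}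
    (hd : ∀ y ∈ L, finrank ℝ (V y) = d) : ContinuousOn (prM V) L := by
  have h1 : ∀ i j : Fin n, ContinuousOn (fun x => prM V x i j) L := by
    intro i j
    have h2 := hcf.continuousOn hd (Pi.single j 1 : VV n)
    have h3 : ContinuousOn (fun x => (pr V x (Pi.single j 1 : VV n)) i) L :=
      (continuous_apply i).comp_continuousOn h2
    refine h3.congr fun x _ => ?_
    change (prM V x) i j = (pr V x (Pi.single j 1 : VV n)) i
    rw [← prM_mulVec]
    simp
  exact continuousOn_pi.2 fun i => continuousOn_pi.2 fun j => h1 i j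

/-- A continuous field of subspaces of constant dimension is locally moved by small elements. -/
theorem locAct_actL {L : Set X} {V : X → Submodule ℝ (VV n)} (hcf : CF L V) {d : ℕ}
    (hd : ∀ y ∈ L, finrank ℝ (V y) = d) : LocAct (Γ := SLn n) actL L V := by
  intro x hx N hN
  have h1 := (Matrix.SpecialLinearGroup.isClosedEmbedding_val (n := Fin n)
    (R := ℝ)).isInducing.nhds_eq_comap (1 : SLn n)
  have hN' : N ∈ comap (fun g : SLn n => (g : MM n)) (𝓝 ((1 : SLn n) : MM n)) := h1 ▸ hN
  obtain ⟨O, hO, hON⟩ := mem_comap.1 hN'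
  have hO' : O ∈ 𝓝 (1 : MM n) := hO
  set u : X → MM n := fun y => prM V y * prM V x + (1 - prM V y) * (1 - prM V x) with hu
  have huc : ContinuousOn u L := by
    have h2 := continuousOn_prM hcf hd
    exact (h2.mul continuousOn_const).add ((continuousOn_const.sub h2).mul continuousOn_const)
  have hidem : prM V x * prM V x = prM V x := by
    apply Matrix.toLin'.injective
    ext v : 1
    apply LinearMap.ext
    intro c
    simp only [LinearMap.comp_apply, Matrix.toLin'_apply]
    rw [← Matrix.mulVec_mulVec, prM_mulVec, prM_mulVec]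
    exact pr_eq_self (pr_mem V x _)
  have hux : u x = 1 := by
    rw [hu]
    simp only
    have : (1 - prM V x) * (1 - prM V x) = 1 - prM V x - prM V x + prM V x * prM V x := by
      noncomm_ring
    rw [this, hidem]
    abel
  have hT : Tendsto u (𝓝[L] x) (𝓝 (1 : MM n)) := by
    have := huc x hx
    rw [ContinuousWithinAt, hux] at this
    exact this
  have hdet : Tendsto (fun y => (u y).det) (𝓝[L] x) (𝓝 1) := by
    have h2 : Continuous (fun A : MM n => A.det) := by fun_prop
    have h3 := (h2.tendsto (1 : MM n)).comp hT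
    rw [Matrix.det_one] at h3
    exact h3
  have hc : Tendsto (fun y => ((u y).det) ^ (-(1 / n : ℝ))) (𝓝[L] x) (𝓝 1) := by
    have h2 := hdet.rpow_const (p := -(1 / n : ℝ)) (Or.inl one_ne_zero)
    rwa [Real.one_rpow] at h2
  have hcu : Tendsto (fun y => ((u y).det) ^ (-(1 / n : ℝ)) • u y) (𝓝[L] x) (𝓝 (1 : MM n)) := by
    have h2 := hc.smul hT
    rwa [one_smul] at h2
  have hpos : ∀ᶠ y in 𝓝[L] x, 0 < (u y).det := hdet.eventually (lt_mem_nhds one_pos)
  filter_upwards [hcu hO', hpos, self_mem_nhdsWithin] with y hy hy2 hyL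
  set c : ℝ := ((u y).det) ^ (-(1 / n : ℝ)) with hcdef
  have hn : (n : ℝ) ≠ 0 := by
    exact_mod_cast NeZero.ne n
  have hdet1 : (c • u y).det = 1 := by
    rw [Matrix.det_smul, Fintype.card_fin, hcdef, ← Real.rpow_natCast, ← Real.rpow_mul hy2.le]
    have : -(1 / (n : ℝ)) * n = -1 := by field_simp
    rw [this, Real.rpow_neg_one, inv_mul_cancel₀ hy2.ne']
  let γ : SLn n := ⟨c • u y, hdet1⟩
  refine ⟨γ, hON hy, ?_⟩
  refine (Submodule.eq_of_le_of_finrank_eq ?_
    ((finrank_actL γ (V x)).trans ((hd x hx).trans (hd y hyL).symm))).symm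
  intro w hw
  obtain ⟨w', hw', rfl⟩ := mem_actL'.1 hw
  change (c • u y) *ᵥ w' ∈ V y
  rw [Matrix.smul_mulVec]
  refine (V y).smul_mem c ?_
  rw [hu]
  simp only
  rw [Matrix.add_mulVec, ← Matrix.mulVec_mulVec, ← Matrix.mulVec_mulVec, prM_mulVec V x w',
    pr_eq_self hw', Matrix.sub_mulVec 1 (prM V x), prM_mulVec V x w', pr_eq_self hw',
    Matrix.one_mulVec, sub_self, Matrix.mulVec_zero, add_zero, prM_mulVec]
  exact pr_mem V y w'

/-- A continuous field of `d`-dimensional subspaces gives a continuous map to the Grassmannian. -/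
theorem lift_grass {L : Set X} {V : X → Submodule ℝ (VV n)} (hcf : CF L V) {d : ℕ}
    (hd : ∀ y ∈ L, finrank ℝ (V y) = d) :
    ∃ f : X → SLn n ⧸ parab n d, ContinuousOn f L ∧
      ∀ y ∈ L, ∀ g : SLn n, f y = (g : SLn n ⧸ parab n d) ↔ V y = actL g (std n d) := by
  obtain ⟨U, -, hU, f, hf1, hf2⟩ := lift_act (act := actL) actL_one actL_mul
    (locAct_actL hcf hd) (std n d) (parab n d) (fun g => mem_parab)
  have hLU : L ∩ U = L := by
    rw [← hU]
    ext y
    exact ⟨fun h => h.1, fun h => ⟨h, exists_actL (hd y h)⟩⟩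
  rw [hLU] at hf1 hf2
  exact ⟨f, hf1, hf2⟩

end Pool.Agent.Lib.MP_aa9b81_an.N
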