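import Mathlib
import Pool.Agent.Lib.MP_aa9b81_an.LowG
import Pool.Agent.Lib.MP_aa9b81_an.NFin
import Pool.Agent.Lib.MP_aa9b81_an.NGrass

/-!
Uniqueness of the line or hyperplane, and generation of pointwise stabilizers by transvections.
-/

set_option autoImplicit false
set_option linter.unusedSectionVars false

open Matrix Module Filter Topology

namespace Pool.Agent.Lib.MP_aa9b81_an.L

open Pool.Agent.Lib.MP_aa9b81_an.N

variable {n : ℕ} [NeZero n]

/-- All transvections killing `v` belong to `S`. -/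
def Rl (S : Submodule ℝ (MM n)) (v : VV n) : Prop :=
  ∀ φ u : VV n, φ ⬝ᵥ v = 0 → φ ⬝ᵥ u = 0 → T φ u ∈ S

lemma Rl_zero_iff {S : Submodule ℝ (MM n)} :
    Rl S 0 ↔ ∀ φ u : VV n, φ ⬝ᵥ u = 0 → T φ u ∈ S :=
  ⟨fun h φ u => h φ u (dotProduct_zero φ), fun h φ u _ => h φ u⟩

lemma Rl_smul {S : Submodule ℝ (MM n)} {v : VV n} {c : ℝ} (hc : c ≠ 0) (h : Rl S v) :
    Rl S (c • v) := by
  intro φ u h1 h2
  rw [dotProduct_smul, smul_eq_mul] at h1
  exact h φ u ((mul_eq_zero.1 h1).resolve_left hc) h2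

lemma top_of_notMem {N P : Submodule ℝ (VV n)} (hP : P ≠ ⊤) (h : ∀ x ∉ P, x ∈ N) : N = ⊤ := by
  obtain ⟨w, -, hw⟩ := SetLike.exists_of_lt (lt_top_iff_ne_top.2 hP)
  rw [Submodule.eq_top_iff']
  intro x
  by_cases hx : x ∈ P
  · have h1 : x + w ∉ P := fun h2 => hw (by
      have := P.sub_mem h2 hx
      rwa [add_sub_cancel_left] at this)
    have h2 := N.sub_mem (h _ h1) (h _ hw)
    rwa [add_sub_cancel_right] at h2
  · exact h x hx

lemma swap_notMem {U : Submodule ℝ (VV n)} {a b : VV n} (ha : a ∉ U)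
    (hb : b ∉ U ⊔ Submodule.span ℝ {a}) : a ∉ U ⊔ Submodule.span ℝ {b} := by
  intro h
  obtain ⟨k, hk, y, hy, hky⟩ := Submodule.mem_sup.1 h
  obtain ⟨s, rfl⟩ := Submodule.mem_span_singleton.1 hy
  have hs : s ≠ 0 := by
    rintro rfl
    apply ha
    rw [← hky, zero_smul, add_zero]
    exact hk
  apply hb
  have h5 : b = s⁻¹ • (a - k) := by
    rw [← hky, add_sub_cancel_left, smul_smul, inv_mul_cancel₀ hs, one_smul]
  rw [h5]
  exact Submodule.smul_mem _ _ (Submodule.sub_mem _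
    ((le_sup_right : Submodule.span ℝ {a} ≤ _) (Submodule.mem_span_singleton_self a))
    ((le_sup_left : U ≤ _) hk))

lemma finrank_sup_span_le (L : Submodule ℝ (VV n)) (c : VV n) :
    finrank ℝ ↥(L ⊔ Submodule.span ℝ {c}) ≤ finrank ℝ L + 1 := by
  by_cases hc : c ∈ L
  · have : L ⊔ Submodule.span ℝ {c} = L :=
      sup_eq_left.2 ((Submodule.span_singleton_le_iff_mem _ _).2 hc)
    rw [this]
    omega
  · exact (finrank_sup_span hc).le

lemma finrank_span_le (c : VV n) : finrank ℝ (Submodule.span ℝ {c}) ≤ 1 := by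
  have := finrank_sup_span_le (⊥ : Submodule ℝ (VV n)) c
  rwa [bot_sup_eq, finrank_bot, zero_add] at this

lemma ne_top_of_finrank {W : Submodule ℝ (VV n)} (h : finrank ℝ W < n) : W ≠ ⊤ := by
  intro h2
  rw [h2, finrank_top, Module.finrank_fin_fun] at h
  omega

/-- Two lines. -/
theorem line_unique {S : Submodule ℝ (MM n)} (hS : Br S) (hn : 3 ≤ n) {v v' : VV n}
    (hv : v ∉ Submodule.span ℝ {v'}) (h : Rl S v) (h' : Rl S v') : Rl S 0 := by
  rw [Rl_zero_iff]
  have hP : Submodule.span ℝ {v'} ⊔ Submodule.span ℝ {v} ≠ ⊤ := by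
    refine ne_top_of_finrank ?_
    have h1 := finrank_sup_span_le (Submodule.span ℝ {v'}) v
    have h2 := finrank_span_le v'
    omega
  have h1 : FuM hS = ⊤ := by
    refine top_of_notMem hP fun u hu φ hφ => ?_
    have h2 : v ∉ Submodule.span ℝ {v'} ⊔ Submodule.span ℝ {u} := swap_notMem hv hu
    obtain ⟨q, hq, hqv⟩ := exists_of_notMem h2
    have hq1 : q ⬝ᵥ v' = 0 := hq _
      ((le_sup_left : Submodule.span ℝ {v'} ≤ _) (Submodule.mem_span_singleton_self v'))
    have hq2 : q ⬝ᵥ u = 0 := hq _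
      ((le_sup_right : Submodule.span ℝ {u} ≤ _) (Submodule.mem_span_singleton_self u))
    have h3 : T φ u = T (φ - (φ ⬝ᵥ v / q ⬝ᵥ v) • q) u + T ((φ ⬝ᵥ v / q ⬝ᵥ v) • q) u := by
      rw [← T_add_left, sub_add_cancel]
    rw [h3]
    refine S.add_mem (h _ _ ?_ ?_) (h' _ _ ?_ ?_)
    · rw [sub_dotProduct, smul_dotProduct, smul_eq_mul, div_mul_cancel₀ _ hqv, sub_self]
    · rw [sub_dotProduct, smul_dotProduct, hφ, hq2, smul_zero, sub_zero]
    · rw [smul_dotProduct, hq1, smul_zero]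
    · rw [smul_dotProduct, hq2, smul_zero]
  intro φ u hφ
  have h2 : u ∈ FuM hS := h1 ▸ Submodule.mem_top
  exact h2 φ hφ

/-- A line and a hyperplane. -/
theorem line_plane {S : Submodule ℝ (MM n)} (hS : Br S) (hn : 3 ≤ n) {v χ : VV n} (hχ : χ ≠ 0)
    (h : Rl S v) (h' : Rl (tr' S) χ) : Rl S 0 := by
  rw [Rl_zero_iff]
  have h'' : ∀ φ u : VV n, χ ⬝ᵥ u = 0 → φ ⬝ᵥ u = 0 → T φ u ∈ S := by
    intro φ u h1 h2
    have h3 := h' u φ (by rwa [dotProduct_comm]) (by rwa [dotProduct_comm])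
    rwa [mem_tr', transpose_T] at h3
  have hP : an' (Submodule.span ℝ {χ}) ≠ ⊤ := an'_ne_top (by rw [finrank_span_singleton hχ])
  have h1 : FuM hS = ⊤ := by
    refine top_of_notMem hP fun u hu φ hφ => ?_
    have hχu : χ ⬝ᵥ u ≠ 0 := by
      intro h2
      apply hu
      intro y hy
      obtain ⟨s, rfl⟩ := Submodule.mem_span_singleton.1 hy
      change (s • χ) ⬝ᵥ u = 0
      rw [smul_dotProduct, h2, smul_zero]
    by_cases hφv : φ ⬝ᵥ v = 0
    · exact h φ u hφv hφ
    obtain ⟨w, hwm, hw0⟩ : ∃ w ∈ an' (Submodule.span ℝ {χ} ⊔ Submodule.span ℝ {φ}), w ≠ 0 := by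
      apply Submodule.exists_mem_ne_zero_of_ne_bot
      intro h2
      have h3 := finrank_an' (Submodule.span ℝ {χ} ⊔ Submodule.span ℝ {φ})
      rw [h2, finrank_bot] at h3
      have h4 := finrank_sup_span_le (Submodule.span ℝ {χ}) φ
      have h5 := finrank_span_le χ
      omega
    have hχw : χ ⬝ᵥ w = 0 := hwm χ
      ((le_sup_left : Submodule.span ℝ {χ} ≤ _) (Submodule.mem_span_singleton_self χ))
    have hφw : φ ⬝ᵥ w = 0 := hwm φ
      ((le_sup_right : Submodule.span ℝ {φ} ≤ _) (Submodule.mem_span_singleton_self φ))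
    have hw : w ∉ Submodule.span ℝ {v} ⊔ Submodule.span ℝ {u} := by
      intro h2
      obtain ⟨a', ha', b', hb', hab⟩ := Submodule.mem_sup.1 h2
      obtain ⟨a, rfl⟩ := Submodule.mem_span_singleton.1 ha'
      obtain ⟨b, rfl⟩ := Submodule.mem_span_singleton.1 hb'
      rw [← hab, dotProduct_add, dotProduct_smul, dotProduct_smul, hφ, smul_zero, add_zero,
        smul_eq_mul] at hφw
      have ha : a = 0 := (mul_eq_zero.1 hφw).resolve_right hφv
      rw [ha, zero_smul, zero_add] at hab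
      rw [← hab, dotProduct_smul, smul_eq_mul] at hχw
      have hb : b = 0 := (mul_eq_zero.1 hχw).resolve_right hχu
      rw [hb, zero_smul] at hab
      exact hw0 hab.symm
    obtain ⟨ψ, hψ, hψw⟩ := exists_of_notMem hw
    have hψv : ψ ⬝ᵥ v = 0 := hψ _
      ((le_sup_left : Submodule.span ℝ {v} ≤ _) (Submodule.mem_span_singleton_self v))
    have hψu : ψ ⬝ᵥ u = 0 := hψ _
      ((le_sup_right : Submodule.span ℝ {u} ≤ _) (Submodule.mem_span_singleton_self u))
    have h2 := hS _ (h ψ u hψv hψu) _ (h'' φ w hχw hφw)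
    rw [comm_T, hφ, zero_smul, sub_zero] at h2
    have h3 := S.smul_mem (ψ ⬝ᵥ w)⁻¹ h2
    rwa [smul_smul, inv_mul_cancel₀ hψw, one_smul] at h3
  intro φ u hφ
  have h2 : u ∈ FuM hS := h1 ▸ Submodule.mem_top
  exact h2 φ hφ

/-! ### Transvections as group elements -/

lemma T_sq {φ u : VV n} (h : φ ⬝ᵥ u = 0) : T φ u * T φ u = 0 := by
  rw [mul_T, T_mulVec, h, zero_smul, T_zero_right]

lemma exp_T {φ u : VV n} (h : φ ⬝ᵥ u = 0) : NormedSpace.exp (T φ u) = 1 + T φ u := by
  have h1 := exp_hasSum (T φ u)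
  have h2 : HasSum (fun k : ℕ => ((k.factorial : ℝ)⁻¹) • (T φ u) ^ k)
      (∑ k ∈ Finset.range 2, ((k.factorial : ℝ)⁻¹) • (T φ u) ^ k) := by
    refine hasSum_sum_of_ne_finset_zero fun k hk => ?_
    rw [Finset.mem_range, not_lt] at hk
    obtain ⟨m, rfl⟩ : ∃ m, k = 2 + m := ⟨k - 2, by omega⟩
    rw [pow_add, pow_two, T_sq h, zero_mul, smul_zero]
  rw [h1.unique h2, Finset.sum_range_succ, Finset.sum_range_one]
  simp

lemma det_one_add_T (φ u : VV n) : (1 + T φ u).det = 1 + φ ⬝ᵥ u := by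
  rw [T, Matrix.vecMulVec_eq Unit, Matrix.det_one_add_replicateCol_mul_replicateRow]

/-- Generation of pointwise stabilizers by transvections. -/
theorem gen {H : Subgroup (SLn n)} (k : ℕ) : ∀ U : Submodule ℝ (VV n), finrank ℝ U + k = n →
    (∀ (g : SLn n) (φ u : VV n), (g : MM n) = 1 + T φ u → φ ⬝ᵥ u = 0 → (∀ x ∈ U, φ ⬝ᵥ x = 0) →
      g ∈ H) → ∀ g : SLn n, (∀ x ∈ U, (g : MM n) *ᵥ x = x) → g ∈ H := by
  induction k with
  | zero =>
    intro U hU hH g hg
    have hUtop : U = ⊤ := Submodule.eq_top_of_finrank_eq (by rw [Module.finrank_fin_fun]; omega)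
    have h1 : g = 1 := by
      apply Subtype.ext
      refine ext_single fun j => ?_
      rw [hg _ (hUtop ▸ Submodule.mem_top), Matrix.SpecialLinearGroup.coe_one, Matrix.one_mulVec]
    rw [h1]
    exact H.one_mem
  | succ k ih =>
    intro U hU hH g hg
    have hUtop : U ≠ ⊤ := ne_top_of_finrank (by omega)
    obtain ⟨y, -, hy⟩ := SetLike.exists_of_lt (lt_top_iff_ne_top.2 hUtop)
    rcases Nat.eq_zero_or_pos k with rfl | hk
    · obtain ⟨φ, hφU, hφy⟩ := exists_of_notMem hy
      have hφm : ∀ x : VV n, φ ⬝ᵥ x = 0 → x ∈ U := by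
        intro x hx
        refine mem_of_an' fun ψ hψ => ?_
        have h1 := finrank_an' U
        have hφan : φ ∈ an' U := fun w hw => by
          change w ⬝ᵥ φ = 0
          rw [dotProduct_comm]
          exact hφU w hw
        have hφ0 : φ ≠ 0 := by
          rintro rfl
          exact hφy (zero_dotProduct _)
        obtain ⟨s, rfl⟩ := Submodule.mem_span_singleton.1
          (mem_span_of_finrank (by omega) hφan hφ0 hψ)
        rw [smul_dotProduct, hx, smul_zero]
      set u : VV n := (φ ⬝ᵥ y)⁻¹ • ((g : MM n) *ᵥ y - y) with hu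
      have hgT : (g : MM n) = 1 + T φ u := by
        refine ext_single fun j => ?_
        set x : VV n := Pi.single j 1 with hx
        have h1 : x - (φ ⬝ᵥ x / φ ⬝ᵥ y) • y ∈ U := by
          refine hφm _ ?_
          rw [dotProduct_sub, dotProduct_smul, smul_eq_mul, div_mul_cancel₀ _ hφy, sub_self]
        have h2 := hg _ h1
        rw [Matrix.mulVec_sub, Matrix.mulVec_smul] at h2
        rw [Matrix.add_mulVec, Matrix.one_mulVec, T_mulVec, hu, smul_smul, ← div_eq_mul_inv,
          smul_sub]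
        rw [sub_eq_iff_eq_add] at h2
        rw [h2]
        abel
      refine hH g φ u hgT ?_ hφU
      have h1 := g.2
      change (g : MM n).det = 1 at h1
      rw [hgT, det_one_add_T] at h1
      linarith
    · have move : ∀ a b : VV n, a ∉ U → b ∉ U ⊔ Submodule.span ℝ {a} →
          ∃ h ∈ H, (∀ x ∈ U, (h : MM n) *ᵥ x = x) ∧ (h : MM n) *ᵥ a = b := by
        intro a b ha hb
        have h1 : b - a ∉ U ⊔ Submodule.span ℝ {a} := by
          intro h2
          apply hb
          have := Submodule.add_mem _ h2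
            ((le_sup_right : Submodule.span ℝ {a} ≤ _) (Submodule.mem_span_singleton_self a))
          rwa [sub_add_cancel] at this
        obtain ⟨φ, hφ, hφa⟩ := exists_of_notMem (swap_notMem ha h1)
        have hφU : ∀ x ∈ U, φ ⬝ᵥ x = 0 := fun x hx => hφ x ((le_sup_left : U ≤ _) hx)
        have hφba : φ ⬝ᵥ (b - a) = 0 := hφ _
          ((le_sup_right : Submodule.span ℝ {b - a} ≤ _) (Submodule.mem_span_singleton_self _))
        have h2 : ((φ ⬝ᵥ a)⁻¹ • φ) ⬝ᵥ (b - a) = 0 := by rw [smul_dotProduct, hφba, smul_zero]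
        let h : SLn n := ⟨1 + T ((φ ⬝ᵥ a)⁻¹ • φ) (b - a), by rw [det_one_add_T, h2, add_zero]⟩
        refine ⟨h, hH h _ _ rfl h2 fun x hx => by rw [smul_dotProduct, hφU x hx, smul_zero],
          fun x hx => ?_, ?_⟩
        · change (1 + T ((φ ⬝ᵥ a)⁻¹ • φ) (b - a)) *ᵥ x = x
          rw [Matrix.add_mulVec, Matrix.one_mulVec, T_mulVec, smul_dotProduct, hφU x hx, smul_zero,
            zero_smul, add_zero]
        · change (1 + T ((φ ⬝ᵥ a)⁻¹ • φ) (b - a)) *ᵥ a = b
          rw [Matrix.add_mulVec, Matrix.one_mulVec, T_mulVec, smul_dotProduct, smul_eq_mul,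
            inv_mul_cancel₀ hφa, one_smul, add_sub_cancel]
      set z : VV n := (g : MM n) *ᵥ y with hz
      have hzU : z ∉ U := by
        intro h
        apply hy
        have h1 := hg z h
        rw [hz] at h1
        have h2 := mulVec_inj g (show (g : MM n) *ᵥ ((g : MM n) *ᵥ y) = (g : MM n) *ᵥ y from h1)
        rw [← h2]
        exact h
      obtain ⟨w, hw⟩ := exists_avoid (Finset.univ : Finset Bool)
        (fun b => if b then U ⊔ Submodule.span ℝ {z} else U ⊔ Submodule.span ℝ {y}) (by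
          intro b _
          cases b
          · refine ne_top_of_finrank ?_
            have := finrank_sup_span_le U y
            change finrank ℝ ↥(U ⊔ Submodule.span ℝ {y}) < n
            omega
          · refine ne_top_of_finrank ?_
            have := finrank_sup_span_le U z
            change finrank ℝ ↥(U ⊔ Submodule.span ℝ {z}) < n
            omega)
      have hwz : w ∉ U ⊔ Submodule.span ℝ {z} := by simpa using hw true (Finset.mem_univ _)
      have hwy : w ∉ U ⊔ Submodule.span ℝ {y} := by simpa using hw false (Finset.mem_univ _)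
      have hwU : w ∉ U := fun h => hwy ((le_sup_left : U ≤ _) h)
      obtain ⟨h₁, hh₁, hh₁U, hh₁z⟩ := move z w hzU hwz
      obtain ⟨h₂, hh₂, hh₂U, hh₂w⟩ := move w y hwU (swap_notMem hy hwy)
      have h1 : h₂ * h₁ * g ∈ H := by
        refine ih (U ⊔ Submodule.span ℝ {y}) (by rw [finrank_sup_span hy]; omega)
          (fun g' φ u h1 h2 h3 => hH g' φ u h1 h2 fun x hx => h3 x ((le_sup_left : U ≤ _) hx)) _ ?_
        intro x hx
        obtain ⟨a, ha, b', hb', hab⟩ := Submodule.mem_sup.1 hx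
        obtain ⟨b, rfl⟩ := Submodule.mem_span_singleton.1 hb'
        rw [← hab, Matrix.SpecialLinearGroup.coe_mul, Matrix.SpecialLinearGroup.coe_mul,
          ← Matrix.mulVec_mulVec, ← Matrix.mulVec_mulVec, Matrix.mulVec_add, hg a ha,
          Matrix.mulVec_smul, ← hz, Matrix.mulVec_add, hh₁U a ha, Matrix.mulVec_smul, hh₁z,
          Matrix.mulVec_add, hh₂U a ha, Matrix.mulVec_smul, hh₂w]
      have h2 : g = (h₂ * h₁)⁻¹ * (h₂ * h₁ * g) := by group
      rw [h2]
      exact H.mul_mem (H.inv_mem (H.mul_mem hh₂ hh₁)) h1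

end Pool.Agent.Lib.MP_aa9b81_an.L
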