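import Mathlib
import Pool.Agent.Lib.MP_aa9b81_an.LowH

/-!
The trichotomy for isotropy algebras in `SL(n, ℝ)`.
-/

set_option autoImplicit false
set_option linter.unusedSectionVars false

open Matrix Module Filter Topology

namespace Pool.Agent.Lib.MP_aa9b81_an.L

open Pool.Agent.Lib.MP_aa9b81_an.N

variable {n : ℕ} [NeZero n]

section

open scoped Matrix.Norms.Operator

set_option backward.isDefEq.respectTransparency false in
lemma exp_smul_one (c : ℝ) : NormedSpace.exp (c • (1 : MM n)) = Real.exp c • (1 : MM n) := by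
  have h := NormedSpace.algebraMap_exp_comm (𝕂 := ℝ) (𝔸 := MM n) c
  rw [Algebra.algebraMap_eq_smul_one, Algebra.algebraMap_eq_smul_one] at h
  rw [← h, Real.exp_eq_exp_ℝ]

end

lemma exp_add_smul_one (A : MM n) (c : ℝ) :
    NormedSpace.exp (A + c • (1 : MM n)) = Real.exp c • NormedSpace.exp A := by
  rw [Matrix.exp_add_of_commute _ _ ((Commute.one_right A).smul_right c), exp_smul_one,
    mul_smul_comm, mul_one]

/-- The space spanned by `S` and the identity. -/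
def S1 (S : Submodule ℝ (MM n)) : Submodule ℝ (MM n) := S ⊔ Submodule.span ℝ {(1 : MM n)}

lemma mem_S1 {S : Submodule ℝ (MM n)} {A : MM n} :
    A ∈ S1 S ↔ ∃ B ∈ S, ∃ c : ℝ, A = B + c • (1 : MM n) := by
  constructor
  · intro h
    obtain ⟨B, hB, y, hy, hBy⟩ := Submodule.mem_sup.1 h
    obtain ⟨c, rfl⟩ := Submodule.mem_span_singleton.1 hy
    exact ⟨B, hB, c, hBy.symm⟩
  · rintro ⟨B, hB, c, rfl⟩
    exact Submodule.add_mem _ ((le_sup_left : S ≤ _) hB)
      ((le_sup_right : Submodule.span ℝ {(1 : MM n)} ≤ _)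
        (Submodule.smul_mem _ c (Submodule.mem_span_singleton_self _)))

lemma Br_S1 {S : Submodule ℝ (MM n)} (hS : Br S) : Br (S1 S) := by
  intro A hA B hB
  obtain ⟨A', hA', a, rfl⟩ := mem_S1.1 hA
  obtain ⟨B', hB', b, rfl⟩ := mem_S1.1 hB
  have h1 : (A' + a • (1 : MM n)) * (B' + b • (1 : MM n)) - (B' + b • (1 : MM n)) *
      (A' + a • (1 : MM n)) = A' * B' - B' * A' := by
    simp only [add_mul, mul_add, smul_mul_assoc, mul_smul_comm, one_mul, mul_one, smul_add,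
      smul_smul, mul_comm b a]
    abel
  rw [h1]
  exact (le_sup_left : S ≤ _) (hS _ hA' _ hB')

lemma Ex_S1 {S : Submodule ℝ (MM n)} (hE : Ex S) : Ex (S1 S) := by
  intro A hA B hB
  obtain ⟨A', hA', a, rfl⟩ := mem_S1.1 hA
  obtain ⟨B', hB', b, rfl⟩ := mem_S1.1 hB
  have h1 : NormedSpace.exp (-(A' + a • (1 : MM n))) = Real.exp (-a) • NormedSpace.exp (-A') := by
    rw [neg_add, ← neg_smul, exp_add_smul_one]
  rw [h1, exp_add_smul_one, mem_S1]
  refine ⟨_, hE A' hA' B' hB', b, ?_⟩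
  have h2 : Real.exp a * Real.exp (-a) = 1 := by rw [← Real.exp_add, add_neg_cancel, Real.exp_zero]
  rw [mul_smul_comm, smul_mul_assoc, smul_mul_assoc, smul_smul, mul_comm (Real.exp (-a)), h2,
    one_smul, mul_add, add_mul, mul_smul_comm, mul_one, smul_mul_assoc, exp_mul_exp_neg]

lemma one_notMem {S : Submodule ℝ (MM n)} (hdet : ∀ A ∈ S, (NormedSpace.exp A).det = 1) :
    (1 : MM n) ∉ S := by
  intro h
  have h1 := hdet _ h
  rw [← one_smul ℝ (1 : MM n), exp_smul_one, Matrix.det_smul, Matrix.det_one, mul_one,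
    ← Real.exp_nat_mul, Real.exp_eq_one_iff, Fintype.card_fin, mul_one] at h1
  exact NeZero.ne n (by exact_mod_cast h1)

lemma finrank_S1 {S : Submodule ℝ (MM n)} (hdet : ∀ A ∈ S, (NormedSpace.exp A).det = 1) :
    finrank ℝ (S1 S) = finrank ℝ S + 1 := by
  have h1 := Submodule.finrank_sup_add_finrank_inf_eq S (Submodule.span ℝ {(1 : MM n)})
  have h10 : (1 : MM n) ≠ 0 := fun h => one_notMem hdet (h ▸ S.zero_mem)
  have h2 : S ⊓ Submodule.span ℝ {(1 : MM n)} = ⊥ := by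
    rw [eq_bot_iff]
    rintro x ⟨hx1, hx2⟩
    obtain ⟨s, rfl⟩ := Submodule.mem_span_singleton.1 hx2
    by_cases hs : s = 0
    · simp [hs]
    · exfalso
      apply one_notMem hdet
      have := S.smul_mem s⁻¹ hx1
      rwa [smul_smul, inv_mul_cancel₀ hs, one_smul] at this
  rw [h2, finrank_bot, add_zero, finrank_span_singleton h10] at h1
  exact h1

lemma T_mem_of_S1 {S : Submodule ℝ (MM n)} (hdet : ∀ A ∈ S, (NormedSpace.exp A).det = 1)
    {φ u : VV n} (h : φ ⬝ᵥ u = 0) (hT : T φ u ∈ S1 S) : T φ u ∈ S := by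
  obtain ⟨A, hA, c, hAc⟩ := mem_S1.1 hT
  have h1 : A = T φ u + (-c) • (1 : MM n) := by rw [hAc, neg_smul, add_neg_cancel_right]
  have h2 := hdet A hA
  rw [h1, exp_add_smul_one, Matrix.det_smul, exp_T h, det_one_add_T, h, add_zero, mul_one,
    ← Real.exp_nat_mul, Real.exp_eq_one_iff, Fintype.card_fin] at h2
  have h3 : c = 0 := by
    rcases mul_eq_zero.1 h2 with h3 | h3
    · exact absurd (by exact_mod_cast h3) (NeZero.ne n)
    · linarith
  rw [hAc, h3, zero_smul, add_zero]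
  exact hA

/-- The trichotomy for subalgebras of the Lie algebra of `SL(n, ℝ)`. -/
theorem trich {S : Submodule ℝ (MM n)} (hS : Br S) (hE : Ex S)
    (hdet : ∀ A ∈ S, (NormedSpace.exp A).det = 1) (hdim : n * n + 4 ≤ finrank ℝ S + 2 * n) :
    Rl S 0 ∨ (∃ v : VV n, v ≠ 0 ∧ Rl S v) ∨ (∃ χ : VV n, χ ≠ 0 ∧ Rl (tr' S) χ) := by
  rcases trichotomy (Br_S1 hS) (Ex_S1 hE) (by rw [finrank_S1 hdet]; omega) with
    h | ⟨v, hv, h⟩ | ⟨χ, hχ, h⟩
  · left
    rw [Rl_zero_iff]
    exact fun φ u h1 => T_mem_of_S1 hdet h1 (h φ u h1)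
  · exact Or.inr (Or.inl ⟨v, hv, fun φ u h1 h2 => T_mem_of_S1 hdet h2 (h φ u h1 h2)⟩)
  · refine Or.inr (Or.inr ⟨χ, hχ, fun φ u h1 h2 => ?_⟩)
    rw [mem_tr', transpose_T]
    rw [dotProduct_comm] at h1 h2
    exact T_mem_of_S1 hdet h2 (h u φ h1 h2)

lemma tr'_tr' (S : Submodule ℝ (MM n)) : tr' (tr' S) = S := by
  ext A
  rw [mem_tr', mem_tr', Matrix.transpose_transpose]

end Pool.Agent.Lib.MP_aa9b81_an.L
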