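import Mathlib
import Pool.Agent.Lib.MP_aa9b81_an.LowI

/-!
Points whose isotropy group contains the stabilizer of a vector.
-/

set_option autoImplicit false
set_option linter.unusedSectionVars false

open Matrix Module Filter Topology

namespace Pool.Agent.Lib.MP_aa9b81_an.L

open Pool.Agent.Lib.MP_aa9b81_an
open Pool.Agent.Lib.MP_aa9b81_an.N

variable {n : ℕ} [NeZero n]
variable {G : Type*} [Group G] [TopologicalSpace G] [IsTopologicalGroup G]
variable {X : Type*} [TopologicalSpace X] [T2Space X] [MulAction G X] [ContinuousSMul G X]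

lemma tendsto_dot {ι : Type*} {Fl : Filter ι} {f g : ι → VV n} {a b : VV n}
    (hf : Tendsto f Fl (𝓝 a)) (hg : Tendsto g Fl (𝓝 b)) :
    Tendsto (fun y => f y ⬝ᵥ g y) Fl (𝓝 (a ⬝ᵥ b)) := by
  have h1 : Continuous fun p : VV n × VV n => p.1 ⬝ᵥ p.2 :=
    Continuous.dotProduct continuous_fst continuous_snd
  exact (h1.tendsto (a, b)).comp (hf.prodMk_nhds hg)

lemma tendsto_T {ι : Type*} {Fl : Filter ι} {f g : ι → VV n} {a b : VV n}
    (hf : Tendsto f Fl (𝓝 a)) (hg : Tendsto g Fl (𝓝 b)) :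
    Tendsto (fun y => T (f y) (g y)) Fl (𝓝 (T a b)) := by
  have h1 : Continuous fun p : VV n × VV n => T p.1 p.2 :=
    Continuous.matrix_vecMulVec continuous_snd continuous_fst
  exact (h1.tendsto (a, b)).comp (hf.prodMk_nhds hg)

variable {ρ : G →* SLn n} (hρ : IsClosedEmbedding ρ)

include hρ

lemma Br_iso (x : X) : Br (iso hρ x) := fun _ hA _ hB => bracket_iso hρ hA hB

lemma Ex_iso (x : X) : Ex (iso hρ x) := by
  intro A hA B hB
  obtain ⟨g, hg, hgA⟩ := (hA : A ∈ lieSet (imStab ρ x : Set (SLn n))) 1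
  rw [one_smul] at hgA
  have h1 : ((g⁻¹ : (SLn n)) : (MM n)) = NormedSpace.exp (-A) := by
    have h2 : (g : (MM n)) * ((g⁻¹ : (SLn n)) : (MM n)) = (g : (MM n)) * NormedSpace.exp (-A) := by
      rw [coe_mul_coe_inv, hgA, exp_mul_exp_neg]
    have h5 : IsUnit (g : (MM n)) := by
      rw [Matrix.isUnit_iff_isUnit_det]
      simp
    exact h5.mul_left_cancel h2
  have h3 := cj_mem_lieSet hg hB
  rw [cj_apply, h1, hgA] at h3
  exact h3

lemma det_iso (x : X) : ∀ A ∈ iso hρ x, (NormedSpace.exp A).det = 1 := by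
  intro A hA
  obtain ⟨g, -, hg⟩ := (mem_iso hρ).1 hA 1
  rw [one_smul] at hg
  rw [← hg]
  exact (ρ g).2

/-- All transvections killing `v` are in the isotropy algebra if and only if the isotropy group
contains the stabilizer of `v`. -/
theorem Rl_iff (hsurj : Function.Surjective ρ) {x : X} {v : VV n} :
    Rl (iso hρ x) v ↔ ∀ g : G, (ρ g : MM n) *ᵥ v = v → g • x = x := by
  constructor
  · intro h g hg
    have hle := Submodule.finrank_le (Submodule.span ℝ {v})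
    rw [Module.finrank_fin_fun] at hle
    have h1 : ρ g ∈ imStab ρ x := by
      refine gen (n - finrank ℝ (Submodule.span ℝ {v})) (Submodule.span ℝ {v}) (by omega)
        (fun g' φ u h1 h2 h3 => ?_) (ρ g) (fun y hy => ?_)
      · have h4 : T φ u ∈ iso hρ x := h φ u (h3 v (Submodule.mem_span_singleton_self v)) h2
        obtain ⟨g₁, hg₁, hg₂⟩ := (mem_iso hρ).1 h4 1
        rw [one_smul, exp_T h2, ← h1] at hg₂
        exact mem_imStab.2 ⟨g₁, hg₁, Subtype.ext hg₂⟩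
      · obtain ⟨s, rfl⟩ := Submodule.mem_span_singleton.1 hy
        rw [Matrix.mulVec_smul, hg]
    obtain ⟨g₂, hg₂, hg₃⟩ := mem_imStab.1 h1
    rwa [hρ.injective hg₃] at hg₂
  · intro h φ u h1 h2
    rw [mem_iso]
    intro t
    have h3 : (t • φ) ⬝ᵥ u = 0 := by rw [smul_dotProduct, h2, smul_zero]
    obtain ⟨g, hg⟩ := hsurj ⟨1 + T (t • φ) u, by rw [det_one_add_T, h3, add_zero]⟩
    have hg' : (ρ g : MM n) = 1 + T (t • φ) u := by rw [hg]
    refine ⟨g, h g ?_, ?_⟩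
    · rw [hg', Matrix.add_mulVec, Matrix.one_mulVec, T_mulVec, smul_dotProduct, h1, smul_zero,
        zero_smul, add_zero]
    · rw [hg', ← T_smul_left, exp_T h3]

lemma Rl_pt (hsurj : Function.Surjective ρ) {x : X} {v : VV n} (g : G)
    (h : Rl (iso hρ x) v) : Rl (iso hρ (g • x)) ((ρ g : MM n) *ᵥ v) := by
  rw [Rl_iff hρ hsurj] at h ⊢
  intro k hk
  have h1 := h (g⁻¹ * k * g) (by
    rw [map_mul, map_mul, map_inv, Matrix.SpecialLinearGroup.coe_mul,
      Matrix.SpecialLinearGroup.coe_mul, ← Matrix.mulVec_mulVec, ← Matrix.mulVec_mulVec, hk,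
      Matrix.mulVec_mulVec, coe_inv_mul_coe, Matrix.one_mulVec])
  rw [mul_smul, mul_smul, inv_smul_eq_iff] at h1
  exact h1

/-- The relation is closed. -/
lemma Rl_lim {x : X} {Fl : Filter X} (hF : Fl.NeBot) (hle : Fl ≤ 𝓝 x) {w : X → VV n} {v : VV n}
    (hw : Tendsto w Fl (𝓝 v)) (hv : v ≠ 0) (h : ∀ᶠ y in Fl, Rl (iso hρ y) (w y)) :
    Rl (iso hρ x) v := by
  intro φ u h1 h2
  by_cases hφ : φ = 0
  · rw [hφ, T_zero_left]
    exact Submodule.zero_mem _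
  have hvv : v ⬝ᵥ v ≠ 0 := fun h => hv (dotProduct_self_eq_zero.1 h)
  have hφφ : φ ⬝ᵥ φ ≠ 0 := fun h => hφ (dotProduct_self_eq_zero.1 h)
  set p : X → VV n := fun y => φ - ((φ ⬝ᵥ w y) / (w y ⬝ᵥ w y)) • w y with hp
  have hpl : Tendsto p Fl (𝓝 φ) := by
    have h3 := (((tendsto_dot (tendsto_const_nhds (x := φ)) hw).div (tendsto_dot hw hw) hvv).smul
      hw).const_sub φ
    rw [h1, zero_div, zero_smul, sub_zero] at h3
    exact h3
  set q : X → VV n := fun y => u - ((p y ⬝ᵥ u) / (p y ⬝ᵥ p y)) • p y with hq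
  have hql : Tendsto q Fl (𝓝 u) := by
    have h3 := (((tendsto_dot hpl (tendsto_const_nhds (x := u))).div (tendsto_dot hpl hpl)
      hφφ).smul hpl).const_sub u
    rw [h2, zero_div, zero_smul, sub_zero] at h3
    exact h3
  have hw0 : ∀ᶠ y in Fl, w y ⬝ᵥ w y ≠ 0 := (tendsto_dot hw hw).eventually_ne hvv
  have hp0 : ∀ᶠ y in Fl, p y ⬝ᵥ p y ≠ 0 := (tendsto_dot hpl hpl).eventually_ne hφφ
  refine cf_iso hρ x (Set.mem_univ x) Fl hF (by rwa [nhdsWithin_univ]) (fun y => T (p y) (q y)) ?_ _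
    (tendsto_T hpl hql)
  filter_upwards [hw0, hp0, h] with y hy1 hy2 hy3
  refine hy3 _ _ ?_ ?_
  · simp only [hp]
    rw [sub_dotProduct, smul_dotProduct, smul_eq_mul, div_mul_cancel₀ _ hy1, sub_self]
  · simp only [hq]
    rw [dotProduct_sub, dotProduct_smul, smul_eq_mul, div_mul_cancel₀ _ hy2, sub_self]

/-- The points whose isotropy group contains the stabilizer of a nonzero vector. -/
def Cl1 : Set X := {x | ∃ v : VV n, v ≠ 0 ∧ Rl (iso hρ x) v}

/-- Those which are not fixed. -/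
def Zl : Set X := {x | ¬ Rl (iso hρ x) 0 ∧ ∃ v : VV n, v ≠ 0 ∧ Rl (iso hρ x) v}

lemma isClosed_Cl1 : IsClosed (Cl1 (X := X) hρ) := by
  classical
  rw [← closure_subset_iff_isClosed]
  intro x hx
  have hne : (𝓝[Cl1 (X := X) hρ] x).NeBot := mem_closure_iff_nhdsWithin_neBot.1 hx
  have hch : ∀ y ∈ Cl1 (X := X) hρ, ∃ w : VV n, ‖w‖ = 1 ∧ Rl (iso hρ y) w := by
    rintro y ⟨v, hv, hR⟩
    have hn : ‖v‖ ≠ 0 := norm_ne_zero_iff.2 hv
    refine ⟨‖v‖⁻¹ • v, ?_, Rl_smul (inv_ne_zero hn) hR⟩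
    rw [norm_smul, norm_inv, norm_norm, inv_mul_cancel₀ hn]
  choose! w hw1 hw2 using hch
  obtain ⟨U, hU⟩ := Ultrafilter.exists_le (𝓝[Cl1 (X := X) hρ] x)
  have hmem : ∀ᶠ y in (U : Filter X), y ∈ Cl1 (X := X) hρ := hU self_mem_nhdsWithin
  have hsph : Metric.sphere (0 : VV n) 1 ∈ U.map w := by
    rw [Ultrafilter.mem_map]
    filter_upwards [hmem] with y hy
    simp only [Set.mem_preimage, mem_sphere_zero_iff_norm]
    exact hw1 y hy
  obtain ⟨v, hv1, hv2⟩ := (isCompact_sphere (0 : VV n) 1).ultrafilter_le_nhds' _ hsph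
  have hv0 : v ≠ 0 := by
    rintro rfl
    simp at hv1
  refine ⟨v, hv0, Rl_lim hρ (Fl := (U : Filter X)) inferInstance
    (hU.trans nhdsWithin_le_nhds) (w := w) hv2 hv0 ?_⟩
  filter_upwards [hmem] with y hy using hw2 y hy

/-- The line. -/
def Vl (x : X) : Submodule ℝ (VV n) := Submodule.span ℝ {v | v ≠ 0 ∧ Rl (iso hρ x) v}

lemma Vl_eq (hn : 3 ≤ n) {x : X} (h0 : ¬ Rl (iso hρ x) 0) {v : VV n} (hv : v ≠ 0)
    (hR : Rl (iso hρ x) v) : Vl hρ x = Submodule.span ℝ {v} := by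
  apply le_antisymm
  · rw [Vl, Submodule.span_le]
    rintro w ⟨hw, hwR⟩
    by_contra hcon
    exact h0 (line_unique (Br_iso hρ x) hn hcon hwR hR)
  · exact Submodule.span_mono (Set.singleton_subset_iff.2 ⟨hv, hR⟩)

lemma Rl_of_mem_Vl (hn : 3 ≤ n) {x : X} (hx : x ∈ Zl hρ) {w : VV n} (hw : w ∈ Vl hρ x)
    (hw0 : w ≠ 0) : Rl (iso hρ x) w := by
  obtain ⟨h0, v, hv, hR⟩ := hx
  rw [Vl_eq hρ hn h0 hv hR] at hw
  obtain ⟨s, rfl⟩ := Submodule.mem_span_singleton.1 hw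
  refine Rl_smul ?_ hR
  rintro rfl
  exact hw0 (zero_smul _ _)

lemma finrank_Vl (hn : 3 ≤ n) {x : X} (hx : x ∈ Zl hρ) : finrank ℝ (Vl hρ x) = 1 := by
  obtain ⟨h0, v, hv, hR⟩ := hx
  rw [Vl_eq hρ hn h0 hv hR, finrank_span_singleton hv]

lemma cf_Vl (hn : 3 ≤ n) : CF (Zl (X := X) hρ) (Vl hρ) := by
  intro x hx F hF hle u hu A hA
  by_cases hA0 : A = 0
  · rw [hA0]
    exact Submodule.zero_mem _
  refine Submodule.subset_span ⟨hA0, ?_⟩
  refine Rl_lim hρ hF (hle.trans nhdsWithin_le_nhds) hA hA0 ?_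
  have h1 : ∀ᶠ y in F, y ∈ Zl (X := X) hρ := hle self_mem_nhdsWithin
  filter_upwards [hu, h1, hA.eventually_ne hA0] with y hy1 hy2 hy3
  exact Rl_of_mem_Vl hρ hn hy2 hy1 hy3

lemma Zl_smul (hsurj : Function.Surjective ρ) {x : X} (hx : x ∈ Zl hρ) (g : G) :
    g • x ∈ Zl hρ := by
  obtain ⟨h0, v, hv, hR⟩ := hx
  refine ⟨fun h => h0 ?_, (ρ g : MM n) *ᵥ v, ?_, Rl_pt hρ hsurj g hR⟩
  · have h1 := Rl_pt hρ hsurj g⁻¹ h
    rwa [inv_smul_smul, Matrix.mulVec_zero] at h1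
  · intro h
    apply hv
    apply mulVec_inj (ρ g)
    change (ρ g : MM n) *ᵥ v = (ρ g : MM n) *ᵥ 0
    rw [h, Matrix.mulVec_zero]

lemma Vl_smul (hn : 3 ≤ n) (hsurj : Function.Surjective ρ) {x : X} (hx : x ∈ Zl hρ) (g : G) :
    Vl hρ (g • x) = actL (ρ g) (Vl hρ x) := by
  obtain ⟨h0', -⟩ := Zl_smul hρ hsurj hx g
  obtain ⟨h0, v, hv, hR⟩ := hx
  have hv' : (ρ g : MM n) *ᵥ v ≠ 0 := by
    intro h
    apply hv
    apply mulVec_inj (ρ g)
    change (ρ g : MM n) *ᵥ v = (ρ g : MM n) *ᵥ 0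
    rw [h, Matrix.mulVec_zero]
  rw [Vl_eq hρ hn h0 hv hR, Vl_eq hρ hn h0' hv' (Rl_pt hρ hsurj g hR), actL, Submodule.map_span,
    Set.image_singleton, Matrix.toLin'_apply]

/-- The points with isotropy group containing the stabilizer of a vector, not fixed, map to the
projective space, and the isotropy group contains the stabilizer of each vector of the line. -/
theorem induced (hn : 3 ≤ n) (hsurj : Function.Surjective ρ) :
    ∃ f : X → SLn n ⧸ parab n 1, ContinuousOn f (Zl hρ) ∧ ∀ x ∈ Zl (X := X) hρ,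
      (∀ g : G, f (g • x) = ρ g • f x) ∧
      ∀ h : SLn n, f x = h → ∀ g : G,
        (ρ g : MM n) *ᵥ ((h : MM n) *ᵥ (Pi.single 0 1)) = (h : MM n) *ᵥ (Pi.single 0 1) →
          g • x = x := by
  obtain ⟨f, hf1, hf2⟩ := lift_grass (cf_Vl (X := X) hρ hn) (d := 1) (fun y hy => finrank_Vl hρ hn hy)
  refine ⟨f, hf1, fun x hx => ⟨fun g => ?_, fun h hh g hg => ?_⟩⟩
  · obtain ⟨h, hh⟩ := QuotientGroup.mk_surjective (f x)
    have h1 : Vl hρ x = actL h (std n 1) := (hf2 x hx h).1 hh.symm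
    have h2 : f (g • x) = ((ρ g * h : SLn n) : SLn n ⧸ parab n 1) := by
      rw [hf2 _ (Zl_smul hρ hsurj hx g), Vl_smul hρ hn hsurj hx g, h1, ← actL_mul]
    rw [h2, ← hh]
    rfl
  · have h1 : Vl hρ x = actL h (std n 1) := (hf2 x hx h).1 hh
    have h2 : (h : MM n) *ᵥ (Pi.single 0 1) ∈ Vl hρ x := by
      rw [h1]
      refine mem_actL'.2 ⟨_, single_mem_std ?_, rfl⟩
      exact Nat.lt_one_iff.2 rfl
    have h3 : (h : MM n) *ᵥ (Pi.single 0 1) ≠ 0 := by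
      intro h4
      have h5 := mulVec_inj h (show (h : MM n) *ᵥ (Pi.single 0 1) = (h : MM n) *ᵥ 0 by
        rw [h4, Matrix.mulVec_zero])
      have h6 := congrFun h5 0
      simp at h6
    exact (Rl_iff hρ hsurj).1 (Rl_of_mem_Vl hρ hn hx h2 h3) g hg

end Pool.Agent.Lib.MP_aa9b81_an.L
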