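import Mathlib
import Pool.Agent.Lib.MP_aa9b81_an.NEqui

/-!
The canonical subspace is totally isotropic for the invariant forms and stable under the commutant.
-/

set_option autoImplicit false
set_option linter.unusedSectionVars false
set_option maxHeartbeats 4000000

open Filter Topology Matrix Module

namespace Pool.Agent.Lib.MP_aa9b81_an.N

variable {n : ℕ} [NeZero n] {W : Submodule ℝ (MM n)}

/-- A generating set stable under a linear antiautomorphism. -/
lemma star_alg {σ : MM n →ₗ[ℝ] MM n} (h1 : σ 1 = 1) (hm : ∀ a b, σ (a * b) = σ b * σ a)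
    (hW : ∀ a ∈ W, σ a ∈ W) {a : MM n} (ha : a ∈ alg W) : σ a ∈ alg W := by
  rw [mem_alg] at ha
  induction ha using Algebra.adjoin_induction with
  | mem a ha => exact le_alg W (hW a ha)
  | algebraMap r =>
    rw [Algebra.algebraMap_eq_smul_one, map_smul, h1]
    exact (alg W).smul_mem r (one_mem_alg W)
  | add a b _ _ h1 h2 =>
    rw [map_add]
    exact (alg W).add_mem h1 h2
  | mul a b _ _ h1 h2 =>
    rw [hm]
    exact mul_mem_alg h2 h1

/-- The adjoint with respect to a form. -/
noncomputable def adj (B B' : MM n) : MM n →ₗ[ℝ] MM n where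
  toFun a := B' * aᵀ * B
  map_add' a b := by rw [Matrix.transpose_add, mul_add, add_mul]
  map_smul' c a := by
    rw [Matrix.transpose_smul, mul_smul_comm, smul_mul_assoc, RingHom.id_apply]

lemma adj_apply (B B' a : MM n) : adj B B' a = B' * aᵀ * B := rfl

lemma adj_mul {B B' : MM n} (h : B * B' = 1) (a b : MM n) :
    adj B B' (a * b) = adj B B' b * adj B B' a := by
  simp only [adj_apply, Matrix.transpose_mul]
  calc B' * (bᵀ * aᵀ) * B = B' * bᵀ * 1 * aᵀ * B := by noncomm_ring
    _ = B' * bᵀ * (B * B') * aᵀ * B := by rw [h]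
    _ = _ := by noncomm_ring

/-- The canonical subspace is totally isotropic. -/
theorem isotropic {B B' : MM n} (h1 : B * B' = 1) (h2 : B' * B = 1)
    (hW : ∀ A ∈ W, Aᵀ * B + B * A = 0) {v w : VV n} (hv : v ∈ ws W) (hw : w ∈ ws W) :
    v ⬝ᵥ (B *ᵥ w) = 0 := by
  have hσ : ∀ a ∈ W, adj B B' a ∈ W := by
    intro a ha
    have h3 : aᵀ * B = -(B * a) := eq_neg_of_add_eq_zero_left (hW a ha)
    rw [adj_apply, mul_assoc, h3, mul_neg, ← mul_assoc, h2, one_mul]
    exact W.neg_mem ha
  have t1 : B'ᵀ * Bᵀ = 1 := by rw [← Matrix.transpose_mul, h1, Matrix.transpose_one]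
  have t2 : Bᵀ * B'ᵀ = 1 := by rw [← Matrix.transpose_mul, h2, Matrix.transpose_one]
  have hσ' : ∀ a ∈ W, adj Bᵀ B'ᵀ a ∈ W := by
    intro a ha
    have h3 : aᵀ * Bᵀ = -(Bᵀ * a) := by
      have h4 := congrArg Matrix.transpose (hW a ha)
      rw [Matrix.transpose_add, Matrix.transpose_mul, Matrix.transpose_mul,
        Matrix.transpose_transpose, Matrix.transpose_zero] at h4
      exact eq_neg_of_add_eq_zero_right h4
    rw [adj_apply, mul_assoc, h3, mul_neg, ← mul_assoc, t1, one_mul]
    exact W.neg_mem ha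
  have hone : adj B B' 1 = 1 := by
    rw [adj_apply, Matrix.transpose_one, mul_one, h2]
  have hone' : adj Bᵀ B'ᵀ 1 = 1 := by
    rw [adj_apply, Matrix.transpose_one, mul_one, t1]
  have halg : ∀ a ∈ alg W, adj B B' a ∈ alg W := fun a ha =>
    star_alg hone (adj_mul h1) hσ ha
  have halg' : ∀ a ∈ alg W, adj Bᵀ B'ᵀ a ∈ alg W := fun a ha =>
    star_alg hone' (adj_mul t2) hσ' ha
  have hrd : ∀ a ∈ rd W, adj B B' a ∈ rd W := by
    intro a ha
    refine mem_rd.2 ⟨halg a ha.1, fun b hb => ?_⟩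
    have h3 := (mem_rd.1 ha).2 _ (halg' b hb)
    rw [adj_apply] at h3 ⊢
    have h4 : (b * (B' * aᵀ * B)).trace = ((b * (B' * aᵀ * B))ᵀ).trace :=
      (Matrix.trace_transpose _).symm
    rw [h4]
    simp only [Matrix.transpose_mul, Matrix.transpose_transpose]
    rw [← h3]
    rw [Matrix.trace_mul_comm (Bᵀ * (a * B'ᵀ)) bᵀ, ← mul_assoc, ← mul_assoc,
      Matrix.trace_mul_comm (bᵀ * Bᵀ * a) B'ᵀ, ← mul_assoc, ← mul_assoc]
  -- the image of the radical is orthogonal to its kernel
  have key : ∀ u ∈ rg W, u ⬝ᵥ (B *ᵥ w) = 0 := by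
    intro u hu
    rw [rg_eq_span] at hu
    induction hu using Submodule.span_induction with
    | mem u hu =>
      obtain ⟨b, hb, z, rfl⟩ := hu
      have h3 : (adj B B' b) *ᵥ w = 0 := (mem_kr.1 hw.1) _ (hrd b hb)
      have h4 : bᵀ *ᵥ (B *ᵥ w) = 0 := by
        have h5 : bᵀ * B = B * adj B B' b := by
          rw [adj_apply, ← mul_assoc, ← mul_assoc, h1, one_mul]
        rw [Matrix.mulVec_mulVec, h5, ← Matrix.mulVec_mulVec, h3, Matrix.mulVec_zero]
      rw [dotProduct_comm, Matrix.dotProduct_mulVec, ← Matrix.mulVec_transpose, h4,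
        zero_dotProduct]
    | zero => rw [zero_dotProduct]
    | add x y _ _ hx hy => rw [add_dotProduct, hx, hy, add_zero]
    | smul a x _ hx => rw [smul_dotProduct, hx, smul_zero]
  exact key v hv.2

/-- The canonical subspace is stable under the commutant. -/
theorem comm_stable {C : MM n} (hC : ∀ A ∈ W, C * A = A * C) {v : VV n} (hv : v ∈ ws W) :
    C *ᵥ v ∈ ws W := by
  have halg : ∀ A ∈ alg W, C * A = A * C := by
    intro A hA
    rw [mem_alg] at hA
    induction hA using Algebra.adjoin_induction with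
    | mem A hA => exact hC A hA
    | algebraMap r => exact (Algebra.commutes r C).symm
    | add a b _ _ h1 h2 => rw [mul_add, add_mul, h1, h2]
    | mul a b _ _ h1 h2 => rw [← mul_assoc, h1, mul_assoc, h2, mul_assoc]
  have h1 : C *ᵥ v ∈ kr W := by
    rw [mem_kr]
    intro b hb
    rw [Matrix.mulVec_mulVec, ← halg b hb.1, ← Matrix.mulVec_mulVec, (mem_kr.1 hv.1) b hb,
      Matrix.mulVec_zero]
  have h2 : ∀ u ∈ rg W, C *ᵥ u ∈ rg W := by
    intro u hu
    rw [rg_eq_span] at hu
    induction hu using Submodule.span_induction with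
    | mem u hu =>
      obtain ⟨b, hb, z, rfl⟩ := hu
      rw [Matrix.mulVec_mulVec, halg b hb.1, ← Matrix.mulVec_mulVec]
      exact mulVec_mem_rg hb _
    | zero =>
      rw [Matrix.mulVec_zero]
      exact (rg W).zero_mem
    | add x y _ _ hx hy =>
      rw [Matrix.mulVec_add]
      exact (rg W).add_mem hx hy
    | smul a x _ hx =>
      rw [Matrix.mulVec_smul]
      exact (rg W).smul_mem a hx
  exact ⟨h1, h2 v hv.2⟩

section Iso

variable {G : Type*} [Group G] [TopologicalSpace G] [IsTopologicalGroup G]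
variable {X : Type*} [TopologicalSpace X] [T2Space X] [MulAction G X] [ContinuousSMul G X]
variable {ρ : G →* SLn n} (hρ : IsClosedEmbedding ρ)

include hρ

/-- Invariance of a form under the group gives infinitesimal invariance. -/
lemma inf_form {B : MM n} (hB : ∀ g : G, (ρ g : MM n)ᵀ * B * (ρ g : MM n) = B) {x : X} {A : MM n}
    (hA : A ∈ iso hρ x) : Aᵀ * B + B * A = 0 := by
  choose γ hγ1 hγ2 using (mem_iso hρ).1 hA
  have h1 : ∀ t : ℝ, t ≠ 0 → (t⁻¹ • (NormedSpace.exp (t • A) - 1))ᵀ * B * NormedSpace.exp (t • A) +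
      B * (t⁻¹ • (NormedSpace.exp (t • A) - 1)) = 0 := by
    intro t ht
    have h2 := hB (γ t)
    rw [hγ2 t] at h2
    rw [Matrix.transpose_smul, smul_mul_assoc, smul_mul_assoc, mul_smul_comm, ← smul_add,
      Matrix.transpose_sub, Matrix.transpose_one, sub_mul, sub_mul, h2, mul_sub, one_mul, mul_one]
    rw [sub_add_sub_cancel, sub_self, smul_zero]
  have hs := tendsto_slope_exp_matrix A
  have he : Tendsto (fun t : ℝ => NormedSpace.exp (t • A)) (𝓝[≠] 0) (𝓝 (1 : MM n)) := by
    have h4 : Tendsto (fun u : ℝ => u • A) (𝓝[≠] 0) (𝓝 ((0 : ℝ) • A)) :=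
      ((continuous_id.smul continuous_const).tendsto (0 : ℝ)).mono_left nhdsWithin_le_nhds
    have h5 := (continuous_exp_matrix.tendsto _).comp h4
    rw [zero_smul, NormedSpace.exp_zero] at h5
    exact h5
  have htr : Tendsto (fun t : ℝ => (t⁻¹ • (NormedSpace.exp (t • A) - 1))ᵀ) (𝓝[≠] 0) (𝓝 Aᵀ) :=
    ((continuous_id.matrix_transpose).tendsto A).comp hs
  have h3 := ((htr.mul_const B).mul he).add (hs.const_mul B)
  rw [mul_one] at h3
  have h4 : Tendsto (fun t : ℝ => (t⁻¹ • (NormedSpace.exp (t • A) - 1))ᵀ * B *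
      NormedSpace.exp (t • A) + B * (t⁻¹ • (NormedSpace.exp (t • A) - 1))) (𝓝[≠] 0)
      (𝓝 (0 : MM n)) := by
    refine tendsto_const_nhds.congr' ?_
    filter_upwards [self_mem_nhdsWithin] with t ht
    exact (h1 t ht).symm
  exact tendsto_nhds_unique h3 h4

/-- Matrices commuting with the group commute with the isotropy algebras. -/
lemma inf_comm {C : MM n} (hC : ∀ g : G, C * (ρ g : MM n) = (ρ g : MM n) * C) {x : X} {A : MM n}
    (hA : A ∈ iso hρ x) : C * A = A * C := by
  choose γ hγ1 hγ2 using (mem_iso hρ).1 hA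
  have hs := tendsto_slope_exp_matrix A
  have h1 := hs.const_mul C
  have h2 := hs.mul_const C
  have h3 : ∀ t : ℝ, C * (t⁻¹ • (NormedSpace.exp (t • A) - 1)) =
      (t⁻¹ • (NormedSpace.exp (t • A) - 1)) * C := by
    intro t
    have h4 := hC (γ t)
    rw [hγ2 t] at h4
    rw [mul_smul_comm, smul_mul_assoc, mul_sub, sub_mul, h4, mul_one, one_mul]
  exact tendsto_nhds_unique h1 (h2.congr fun t => (h3 t).symm)

end Iso

end Pool.Agent.Lib.MP_aa9b81_an.N
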